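import Pool.Agent.MG.KX.StmtsK
import Pool.Agent.MG.G0.AWB

/-!
# KBP: base change of points and marks
-/

open TensorProduct

namespace Pool.Agent.MG.KX

open Pool.Agent.MG.G0

namespace KBP

section

variable {I A B : Type} [CommRing A] [CommRing B] {P : Subalgebra A (KK I A)}

/-- The base change of a point. -/
theorem exists_p [Fintype I] [Nonempty I] [Algebra A B] (hKBT : Stmt_KBT) {g : ℕ}
    (hP : IsKr g P) (p : P →ₐ[A] A) :
    ∃ h : bc (algebraMap A B) P →ₐ[B] B, ∀ f : P,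
      h (bcMap (algebraMap A B) P f) = algebraMap A B (p f) := by
  obtain ⟨-, e, he⟩ := hKBT (B := B) hP
  refine ⟨(Algebra.TensorProduct.lift (AlgHom.id B B) ((Algebra.ofId A B).comp p)
    (fun _ _ => Commute.all _ _)).comp (e.symm : bc (algebraMap A B) P →ₐ[B] B ⊗[A] P),
    fun f => ?_⟩
  have h1 : e (1 ⊗ₜ f) = bcMap (algebraMap A B) P f := by
    apply Subtype.ext
    rw [he, one_smul]
    rfl
  rw [AlgHom.comp_apply, ← h1]
  change (Algebra.TensorProduct.lift (AlgHom.id B B) ((Algebra.ofId A B).comp p)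
    (fun _ _ => Commute.all _ _)) (e.symm (e (1 ⊗ₜ f))) = _
  rw [AlgEquiv.symm_apply_apply, Algebra.TensorProduct.lift_tmul, map_one, one_mul]
  rfl

variable {φ : A →+* B} {n : ℕ} {p : Fin n → (P →ₐ[A] A)} {p' : Fin n → (bc φ P →ₐ[B] B)}

theorem app (h : BcP φ p p') (i : Fin n) (f : P) : p' i (bcMap φ P f) = φ (p i f) :=
  h i f (bcMap φ P f) rfl

theorem ker_le (h : BcP φ p p') (i : Fin n) :
    (RingHom.ker (p i)).map (bcMap φ P) ≤ RingHom.ker (p' i) := by
  rw [Ideal.map_le_iff_le_comap]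
  intro f hf
  rw [Ideal.mem_comap, RingHom.mem_ker, app h, RingHom.mem_ker.1 hf, map_zero]

theorem dis (h : BcP φ p p') (hm : Marks P p) (i j : Fin n) (hij : i ≠ j) :
    RingHom.ker (p' i) ⊔ RingHom.ker (p' j) = ⊤ := by
  rw [eq_top_iff]
  refine le_trans ?_ (sup_le_sup (ker_le h i) (ker_le h j))
  rw [← Ideal.map_sup, hm.dis i j hij, Ideal.map_top]

theorem sm (hKBC : Stmt_KBC) (h : BcP φ p p') (i : Fin n) (t : P)
    (ht : ∀ f ∈ RingHom.ker (p i), ∃ c : A, f - c • t ∈ RingHom.ker (p i) ^ 2) (f : bc φ P) :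
    ∃ c : B, f - algebraMap B (bc φ P) (p' i f) - c • bcMap φ P t ∈ RingHom.ker (p' i) ^ 2 := by
  refine AWB.bc_ind φ hKBC (C := fun f => ∃ c : B,
    f - algebraMap B (bc φ P) (p' i f) - c • bcMap φ P t ∈ RingHom.ker (p' i) ^ 2)
    (fun f => ?_) ?_ ?_ f
  · have h1 : f - algebraMap A P (p i f) ∈ RingHom.ker (p i) := by
      rw [RingHom.mem_ker, map_sub, AlgHom.commutes]
      exact sub_self _
    obtain ⟨c, hc⟩ := ht _ h1
    refine ⟨φ c, ?_⟩
    have h2 : bcMap φ P (f - algebraMap A P (p i f) - c • t) ∈ RingHom.ker (p' i) ^ 2 := by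
      have h3 := Ideal.mem_map_of_mem (bcMap φ P) hc
      rw [Ideal.map_pow] at h3
      exact Ideal.pow_right_mono (ker_le h i) 2 h3
    have e : bcMap φ P (f - algebraMap A P (p i f) - c • t) =
        bcMap φ P f - algebraMap B (bc φ P) (p' i (bcMap φ P f)) - φ c • bcMap φ P t := by
      rw [map_sub, map_sub, AWB.bcMap_algebraMap, app h, Algebra.smul_def, map_mul,
        AWB.bcMap_algebraMap, ← Algebra.smul_def]
    rw [← e]
    exact h2
  · rintro f g ⟨c, hc⟩ ⟨d, hd⟩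
    refine ⟨c + d, ?_⟩
    have e : f + g - algebraMap B (bc φ P) (p' i (f + g)) - (c + d) • bcMap φ P t =
        (f - algebraMap B (bc φ P) (p' i f) - c • bcMap φ P t) +
        (g - algebraMap B (bc φ P) (p' i g) - d • bcMap φ P t) := by
      rw [map_add, map_add, add_smul]
      ring
    rw [e]
    exact add_mem hc hd
  · rintro b f ⟨c, hc⟩
    refine ⟨b * c, ?_⟩
    have e : b • f - algebraMap B (bc φ P) (p' i (b • f)) - (b * c) • bcMap φ P t =
        algebraMap B (bc φ P) b * (f - algebraMap B (bc φ P) (p' i f) - c • bcMap φ P t) := by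
      rw [map_smul, smul_eq_mul, map_mul, Algebra.smul_def, Algebra.smul_def, Algebra.smul_def,
        map_mul]
      ring
    rw [e]
    exact Ideal.mul_mem_left _ _ hc

end

end KBP

theorem t_KBP (hKBT : Stmt_KBT) (hKBC : Stmt_KBC) : Stmt_KBP := by
  refine ⟨?_, ?_⟩
  · intro I A B _ _ _ _ g P hP φ n p
    have key : ∀ i, ∃ h : bc φ P →ₐ[B] B, ∀ f : P, h (bcMap φ P f) = φ (p i f) := by
      intro i
      let _ : Algebra A B := φ.toAlgebra
      exact KBP.exists_p hKBT hP (p i)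
    choose p' hp' using key
    refine ⟨p', fun i f f' hf => ?_⟩
    have e : f' = bcMap φ P f := Subtype.ext hf
    rw [e]
    exact hp' i f
  · intro I A B _ _ _ _ g P hP φ n p p' h hm
    refine ⟨fun i j hij => KBP.dis h hm i j hij, fun i => ?_⟩
    obtain ⟨t, ht, hs⟩ := hm.sm i
    refine ⟨bcMap φ P t, ?_, fun f hf => ?_⟩
    · rw [RingHom.mem_ker, KBP.app h, RingHom.mem_ker.1 ht, map_zero]
    · obtain ⟨c, hc⟩ := KBP.sm hKBC h i t hs f
      rw [RingHom.mem_ker.1 hf, map_zero, sub_zero] at hc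
      exact ⟨c, hc⟩

end Pool.Agent.MG.KX
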