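import Pool.Agent.MG.KX.StmtsD
import Pool.Agent.MG.GlueBC

/-!
# DBC: base change of schemes with two affine charts
-/

open CategoryTheory CategoryTheory.Limits AlgebraicGeometry TensorProduct

namespace Pool.Agent.MG.KX

namespace DBC

/-- The range of a localisation. -/
theorem range_of {R S : Type} [CommRing R] [CommRing S] (j : R →+* S) (z : R)
    (h1 : IsUnit (j z)) (h2 : ∀ r, j r = 0 → ∃ n : ℕ, z ^ n * r = 0)
    (h3 : ∀ s, ∃ (n : ℕ) (r : R), j z ^ n * s = j r) (x : Sp R) :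
    x ∈ Set.range (spMap j) ↔ z ∉ x.asIdeal := by
  let _ := j.toAlgebra
  have h4 := away_of j z h1 h2 h3
  have h : Set.range (PrimeSpectrum.comap (algebraMap R S)) =
      (PrimeSpectrum.basicOpen z : Set _) :=
    PrimeSpectrum.localization_away_comap_range S z
  change x ∈ Set.range (PrimeSpectrum.comap (algebraMap R S)) ↔ _
  rw [h]
  rfl

variable {A : Type} [CommRing A] (D : Duo A)

theorem range1 (x : Sp D.R1) :
    x ∈ Set.range (spMap (D.j1 : D.R1 →+* D.R12)) ↔ D.z ∉ x.asIdeal :=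
  range_of _ D.z D.unit1 D.ker1 D.sur1 x

theorem range2 (x : Sp D.R2) :
    x ∈ Set.range (spMap (D.j2 : D.R2 →+* D.R12)) ↔ D.w ∉ x.asIdeal :=
  range_of _ D.w D.unit2 D.ker2 D.sur2 x

end DBC

theorem t_DBC : Stmt_DBC := by
  intro A B _ _ φ D E h s1 s2
  refine cart_two h.in1_map h.in2_map D.cov E.cov ?_ ?_ ?_ ?_ h.map_pr
  · rintro y ⟨x, hx⟩
    obtain ⟨p, -, hp⟩ := D.meet x _ hx
    have h1 := (DBC.range2 D _).1 ⟨p, hp⟩
    have h2 : E.w ∉ y.asIdeal := by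
      intro h3
      apply h1
      change h.f2 D.w ∈ y.asIdeal
      rwa [h.fw]
    obtain ⟨p', hp'⟩ := (DBC.range2 E y).2 h2
    refine ⟨spMap (E.j1 : E.R1 →+* E.R12) p', ?_⟩
    rw [← hp', ← Scheme.Hom.comp_apply, ← Scheme.Hom.comp_apply, E.cond]
  · rintro x ⟨y, hy⟩
    obtain ⟨p, hp, -⟩ := D.meet _ y hy.symm
    have h1 := (DBC.range1 D _).1 ⟨p, hp⟩
    have h2 : E.z ∉ x.asIdeal := by
      intro h3
      apply h1
      change h.f1 D.z ∈ x.asIdeal
      rwa [h.fz]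
    obtain ⟨p', hp'⟩ := (DBC.range1 E x).2 h2
    refine ⟨spMap (E.j2 : E.R2 →+* E.R12) p', ?_⟩
    rw [← hp', ← Scheme.Hom.comp_apply, ← Scheme.Hom.comp_apply, E.cond]
  · rw [D.in1_pr, E.in1_pr]
    exact s1
  · rw [D.in2_pr, E.in2_pr]
    exact s2

end Pool.Agent.MG.KX
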