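import Pool.Agent.MG.KX.StmtsD

/-!
# DCO: a duo with constant global functions is connected
-/

open CategoryTheory CategoryTheory.Limits AlgebraicGeometry TensorProduct

namespace Pool.Agent.MG.KX

namespace DCO

/-- Clopen sets in the spectrum. -/
theorem exists_idem {R : Type} [CommRing R] (s : Set (Sp R)) (hs : IsClopen s) :
    ∃ e : R, IsIdempotentElem e ∧ ∀ x : Sp R, x ∈ s ↔ e ∉ x.asIdeal := by
  obtain ⟨e, he, h⟩ := PrimeSpectrum.exists_idempotent_basicOpen_eq_of_isClopen (R := R) (s := s) hs
  exact ⟨e, he, fun x => by rw [h]; rfl⟩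

theorem mem_spMap {R S : Type} [CommRing R] [CommRing S] (f : R →+* S) (x : Sp S) (r : R) :
    r ∈ (spMap f x).asIdeal ↔ f r ∈ x.asIdeal := Iff.rfl

end DCO

open DCO in
theorem t_DCO : Stmt_DCO := by
  intro K _ D hnt hc
  have hn1 : Nontrivial D.R1 := (D.j1 : D.R1 →+* D.R12).domain_nontrivial
  have hX : Nonempty D.X := by
    obtain ⟨m, hm⟩ := Ideal.exists_maximal D.R1
    exact ⟨D.in1 ⟨m, hm.isPrime⟩⟩
  have hpre : PreconnectedSpace D.X := by
    rw [preconnectedSpace_iff_clopen]
    intro s hs
    obtain ⟨e1, h1, hs1⟩ := exists_idem (D.in1 ⁻¹' s) (hs.preimage D.in1.continuous)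
    obtain ⟨e2, h2, hs2⟩ := exists_idem (D.in2 ⁻¹' s) (hs.preimage D.in2.continuous)
    have he : D.j1 e1 = D.j2 e2 := by
      apply PrimeSpectrum.basicOpen_injOn_isIdempotentElem (R := D.R12)
      · exact h1.map D.j1
      · exact h2.map D.j2
      · ext x
        change (D.j1 e1 ∉ x.asIdeal) ↔ (D.j2 e2 ∉ x.asIdeal)
        have hx : D.in1 (spMap (D.j1 : D.R1 →+* D.R12) x) =
            D.in2 (spMap (D.j2 : D.R2 →+* D.R12) x) := by
          have h := congrArg (fun f => f x) D.cond
          simpa only [Scheme.Hom.comp_apply] using h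
        have k1 := hs1 (spMap (D.j1 : D.R1 →+* D.R12) x)
        have k2 := hs2 (spMap (D.j2 : D.R2 →+* D.R12) x)
        rw [Set.mem_preimage, mem_spMap] at k1 k2
        rw [hx] at k1
        exact k1.symm.trans k2
    obtain ⟨c, hc1, hc2⟩ := hc e1 e2 he
    have hcc : c * c = c := by
      apply FaithfulSMul.algebraMap_injective K D.R1
      rw [map_mul, ← hc1]
      exact h1
    have hcase : c = 0 ∨ c = 1 := by
      rcases eq_or_ne c 0 with h | h
      · exact Or.inl h
      · exact Or.inr (mul_left_cancel₀ h (by rw [hcc, mul_one]))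
    rcases hcase with rfl | rfl
    · left
      rw [Set.eq_empty_iff_forall_notMem]
      intro x hx
      rcases D.cov x with ⟨y, rfl⟩ | ⟨y, rfl⟩
      · apply (hs1 y).1 hx
        rw [hc1, map_zero]
        exact y.asIdeal.zero_mem
      · apply (hs2 y).1 hx
        rw [hc2, map_zero]
        exact y.asIdeal.zero_mem
    · right
      rw [Set.eq_univ_iff_forall]
      intro x
      rcases D.cov x with ⟨y, rfl⟩ | ⟨y, rfl⟩
      · apply (hs1 y).2
        rw [hc1, map_one]
        exact (Ideal.ne_top_iff_one _).1 y.isPrime.ne_top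
      · apply (hs2 y).2
        rw [hc2, map_one]
        exact (Ideal.ne_top_iff_one _).1 y.isPrime.ne_top
  exact { toPreconnectedSpace := hpre, toNonempty := hX }

end Pool.Agent.MG.KX
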