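import Pool.Agent.MG.KX.StmtsD

/-!
# DFL: flatness and finite presentation of a scheme with two affine charts
-/

open CategoryTheory CategoryTheory.Limits AlgebraicGeometry TensorProduct

namespace Pool.Agent.MG.KX

namespace DFL

variable {A : Type} [CommRing A] (D : Duo A)

/-- A property which is local on the source holds if it holds on the charts. -/
theorem loc2 (P : MorphismProperty Scheme.{0}) [IsZariskiLocalAtSource P]
    (h1 : P (spMap (algebraMap A D.R1))) (h2 : P (spMap (algebraMap A D.R2))) : P D.pr := by
  refine IsZariskiLocalAtSource.of_iSup_eq_top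
    (fun i : Bool => if i then D.in1.opensRange else D.in2.opensRange) ?_ ?_
  · rw [iSup_bool_eq]
    exact glue2_range (spMap (D.j1 : D.R1 →+* D.R12)) (spMap (D.j2 : D.R2 →+* D.R12))
  · intro i
    cases i
    · change P (D.in2.opensRange.ι ≫ D.pr)
      rw [← IsOpenImmersion.isoOfRangeEq_inv_fac D.in2 (Scheme.Opens.ι _)
        (congr_arg TopologicalSpace.Opens.carrier D.in2.opensRange.opensRange_ι.symm),
        Category.assoc, P.cancel_left_of_respectsIso, D.in2_pr]
      exact h2
    · change P (D.in1.opensRange.ι ≫ D.pr)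
      rw [← IsOpenImmersion.isoOfRangeEq_inv_fac D.in1 (Scheme.Opens.ι _)
        (congr_arg TopologicalSpace.Opens.carrier D.in1.opensRange.opensRange_ι.symm),
        Category.assoc, P.cancel_left_of_respectsIso, D.in1_pr]
      exact h1

end DFL

/-- DFL: flatness and finite presentation of a duo. -/
theorem t_DFL : Stmt_DFL := by
  refine ⟨fun {A} _ D h1 h2 => ?_, fun {A} _ D h1 h2 => ?_⟩
  · refine DFL.loc2 D @Flat ?_ ?_
    · rw [Flat.SpecMap_iff]
      exact RingHom.flat_algebraMap_iff.2 h1
    · rw [Flat.SpecMap_iff]
      exact RingHom.flat_algebraMap_iff.2 h2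
  · refine DFL.loc2 D @LocallyOfFinitePresentation ?_ ?_
    · rw [LocallyOfFinitePresentation.SpecMap_iff]
      exact RingHom.finitePresentation_algebraMap.2 h1
    · rw [LocallyOfFinitePresentation.SpecMap_iff]
      exact RingHom.finitePresentation_algebraMap.2 h2

end Pool.Agent.MG.KX
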