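import Pool.Agent.MG.KX.StmtsD
import Pool.Agent.MG.W.WGN

/-!
# DGE: the genus of a duo
-/

open CategoryTheory CategoryTheory.Limits AlgebraicGeometry TensorProduct

namespace Pool.Agent.MG.KX

/-- DGE: the genus of a duo over a field. -/
theorem t_DGE : Stmt_DGE := by
  intro K _ D g L hs hk
  refine W.WGN.genus_two D.pr D.in1 D.in2 (D.j1 : D.R1 →+* D.R12) (D.j2 : D.R2 →+* D.R12)
    D.cond inferInstance ?_ ?_ (algebraMap K D.R12) ?_ g L.toAddMonoidHom hs ?_ hk
  · intro x y h
    obtain ⟨p, hp, -⟩ := D.meet x y h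
    refine ⟨p, ?_⟩
    rw [Scheme.Hom.comp_apply, hp]
  · exact D.cov
  · rw [Category.assoc, D.in1_pr, spMap_comp'', AlgHom.comp_algebraMap]
  · intro c t
    change L (algebraMap K D.R12 c * t) = c • L t
    rw [← Algebra.smul_def, map_smul]

end Pool.Agent.MG.KX
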