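import Pool.Agent.MG.KX.StmtsC

/-!
# DMD: every first order deformation has a model
-/

open CategoryTheory CategoryTheory.Limits AlgebraicGeometry
open scoped TensorProduct

namespace Pool.Agent.MG.KX

open Pool.Agent.MG.G0 Pool.Agent.MG.GLU

theorem t_DMD (hMTH : Stmt_MTH) (hPDC : Stmt_PDC) : Stmt_DMD := by
  intro I A _ _ _ g P x hP M d
  obtain ⟨P', p', M', h1, h2, h3⟩ := hMTH hP M d.thk
  obtain ⟨δ, rfl⟩ := hPDC hP h1 h2
  obtain rfl : p' = nop _ := Subsingleton.elim _ _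
  exact ⟨δ, M', h3⟩

end Pool.Agent.MG.KX
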