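import Pool.Agent.MG.KX.StmtsC

/-!
# DMT: every deformation over `A[ε₁, ε₂]` has a model
-/

open CategoryTheory AlgebraicGeometry

namespace Pool.Agent.MG.KX

open Pool.Agent.MG.G0 Pool.Agent.MG.GLU

theorem t_DMT (hMTH : Stmt_MTH) : Stmt_DMT := by
  intro I A _ _ _ g P x hP M y hy r
  obtain ⟨Q, p', M', hQ, hbc, hov⟩ := hMTH (S := sqEps2 A) hP M ⟨y, hy.flat, r⟩
  obtain rfl : p' = nop Q := funext fun i => i.elim0
  exact ⟨Q, M', hQ, hbc, hov⟩

end Pool.Agent.MG.KX
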