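import Pool.Agent.MG.KX.StmtsD
import Pool.Agent.MG.W.WND

/-!
# DNO: nodal duos
-/

open CategoryTheory CategoryTheory.Limits AlgebraicGeometry TensorProduct

namespace Pool.Agent.MG.KX

namespace DNO_

/-- The points of the second chart with `w ∉ q` are in the first chart. -/
theorem in_first {A : Type} [CommRing A] (D : Duo A) (p : Sp D.R2) (hw : D.w ∉ p.asIdeal) :
    ∃ y : Sp D.R1, D.in1 y = D.in2 p := by
  let _ : Algebra D.R2 D.R12 := (D.j2 : D.R2 →+* D.R12).toAlgebra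
  have hl : IsLocalization.Away D.w D.R12 :=
    away_of (D.j2 : D.R2 →+* D.R12) D.w D.unit2 D.ker2 D.sur2
  have h1 : p ∈ Set.range (PrimeSpectrum.comap (algebraMap D.R2 D.R12)) := by
    rw [PrimeSpectrum.localization_away_comap_range D.R12 D.w]
    exact hw
  obtain ⟨q, hq⟩ := h1
  let q' : Sp D.R12 := q
  refine ⟨spMap (D.j1 : D.R1 →+* D.R12) q', ?_⟩
  have h2 : p = spMap (D.j2 : D.R2 →+* D.R12) q' := hq.symm
  rw [h2, ← Scheme.Hom.comp_apply, ← Scheme.Hom.comp_apply, D.cond]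

end DNO_

open DNO_ in
/-- DNO: nodal duos. -/
theorem t_DNO : Stmt_DNO := by
  intro K _ _ D h1 h2 x
  have main : ∀ y : Sp D.R1, ∃ (U : Scheme.{0}) (f : U ⟶ D.X) (h : U ⟶ Sp (NodeRing K)),
      Etale f ∧ Etale h ∧ f ≫ D.pr = h ≫ spMap (algebraMap K (NodeRing K)) ∧
        D.in1 y ∈ Set.range f := by
    intro y
    obtain ⟨U, f, h, hf, hh, hc, u, hu⟩ := h1 y
    refine ⟨U, f ≫ D.in1, h, inferInstance, hh, ?_, u, ?_⟩
    · rw [Category.assoc, D.in1_pr, hc]
    · rw [Scheme.Hom.comp_apply, hu]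
  rcases D.cov x with ⟨y, rfl⟩ | ⟨p, rfl⟩
  · exact main y
  · by_cases hw : D.w ∈ p.asIdeal
    · obtain ⟨s, t, hs, he⟩ := h2 p hw
      exact W.WND.loc_pt D.pr D.in2 (algebraMap K D.R2) D.in2_pr s _ he (fun c => by simp) p hs
    · obtain ⟨y, hy⟩ := in_first D p hw
      rw [← hy]
      exact main y

end Pool.Agent.MG.KX
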