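import Pool.Agent.MG.KX.StmtsD

/-!
# DPR: properness of a scheme with two affine charts
-/

open CategoryTheory CategoryTheory.Limits AlgebraicGeometry TensorProduct IsLocalRing

namespace Pool.Agent.MG.KX

namespace DPR

section sch

variable {A : Type} [CommRing A] (D : Duo A)

theorem loc2 (P : MorphismProperty Scheme.{0}) [IsZariskiLocalAtSource P]
    (h1 : P (spMap (algebraMap A D.R1))) (h2 : P (spMap (algebraMap A D.R2))) : P D.pr := by
  refine IsZariskiLocalAtSource.of_iSup_eq_top
    (fun i : Bool => if i then D.in1.opensRange else D.in2.opensRange) ?_ ?_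
  · rw [iSup_bool_eq]
    exact glue2_range (spMap (D.j1 : D.R1 →+* D.R12)) (spMap (D.j2 : D.R2 →+* D.R12))
  · intro i
    cases i
    · change P (D.in2.opensRange.ι ≫ D.pr)
      rw [← IsOpenImmersion.isoOfRangeEq_inv_fac D.in2 (Scheme.Opens.ι _)
        (congr_arg TopologicalSpace.Opens.carrier D.in2.opensRange.opensRange_ι.symm),
        Category.assoc, P.cancel_left_of_respectsIso, D.in2_pr]
      exact h2
    · change P (D.in1.opensRange.ι ≫ D.pr)
      rw [← IsOpenImmersion.isoOfRangeEq_inv_fac D.in1 (Scheme.Opens.ι _)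
        (congr_arg TopologicalSpace.Opens.carrier D.in1.opensRange.opensRange_ι.symm),
        Category.assoc, P.cancel_left_of_respectsIso, D.in1_pr]
      exact h1

theorem cpt : CompactSpace D.X := by
  constructor
  have h : (Set.univ : Set D.X) = Set.range D.in1 ∪ Set.range D.in2 := by
    ext x
    simp only [Set.mem_univ, Set.mem_union, true_iff]
    exact D.cov x
  rw [h]
  exact (isCompact_range D.in1.continuous).union (isCompact_range D.in2.continuous)

theorem inter : (D.in1.opensRange : Set D.X) ∩ D.in2.opensRange =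
    Set.range (spMap (D.j1 : D.R1 →+* D.R12) ≫ D.in1) := by
  have h := congrArg (fun U : D.X.Opens => (U : Set D.X))
    (glue2_inter (spMap (D.j1 : D.R1 →+* D.R12)) (spMap (D.j2 : D.R2 →+* D.R12)))
  exact h

theorem qsep : QuasiSeparatedSpace D.X := by
  refine Scheme.quasiSeparatedSpace_of_isOpenCover
    (fun i : Bool => if i then D.in1.opensRange else D.in2.opensRange) ?_ ?_ ?_
  · change iSup _ = _
    rw [iSup_bool_eq]
    exact glue2_range (spMap (D.j1 : D.R1 →+* D.R12)) (spMap (D.j2 : D.R2 →+* D.R12))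
  · intro i
    cases i
    · exact isAffineOpen_opensRange D.in2
    · exact isAffineOpen_opensRange D.in1
  · have hc : IsCompact (Set.range (spMap (D.j1 : D.R1 →+* D.R12) ≫ D.in1)) :=
      isCompact_range (spMap (D.j1 : D.R1 →+* D.R12) ≫ D.in1).continuous
    intro i j
    cases i <;> cases j
    · change IsCompact ((D.in2.opensRange : Set D.X) ∩ D.in2.opensRange)
      rw [Set.inter_self]
      exact isCompact_range D.in2.continuous
    · change IsCompact ((D.in2.opensRange : Set D.X) ∩ D.in1.opensRange)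
      rw [Set.inter_comm, inter]
      exact hc
    · change IsCompact ((D.in1.opensRange : Set D.X) ∩ D.in2.opensRange)
      rw [inter]
      exact hc
    · change IsCompact ((D.in1.opensRange : Set D.X) ∩ D.in1.opensRange)
      rw [Set.inter_self]
      exact isCompact_range D.in1.continuous

/-! ## Points with values in local rings -/

theorem mem_of_closed {X : Scheme.{0}} {R : Type} [CommRing R] [IsLocalRing R]
    (l : Sp R ⟶ X) (V : X.Opens) (h : l (closedPoint R) ∈ V) (y : Sp R) : l y ∈ V :=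
  ((specializes_closedPoint (R := R) y).map l.continuous).mem_open V.isOpen h

variable {D}

theorem fac {R : Type} [CommRing R] [IsLocalRing R] (l : Sp R ⟶ D.X) :
    (∃ h : D.R1 →+* R, l = spMap h ≫ D.in1) ∨ (∃ h : D.R2 →+* R, l = spMap h ≫ D.in2) := by
  rcases D.cov (l (closedPoint R)) with h | h
  · left
    have hr : Set.range l ⊆ Set.range D.in1 := by
      rintro _ ⟨y, rfl⟩
      exact mem_of_closed l D.in1.opensRange h y
    obtain ⟨φ, hφ⟩ := Spec.map_surjective (IsOpenImmersion.lift D.in1 l hr)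
    refine ⟨φ.hom, ?_⟩
    have h2 : spMap φ.hom = IsOpenImmersion.lift D.in1 l hr := hφ
    rw [h2, IsOpenImmersion.lift_fac]
  · right
    have hr : Set.range l ⊆ Set.range D.in2 := by
      rintro _ ⟨y, rfl⟩
      exact mem_of_closed l D.in2.opensRange h y
    obtain ⟨φ, hφ⟩ := Spec.map_surjective (IsOpenImmersion.lift D.in2 l hr)
    refine ⟨φ.hom, ?_⟩
    have h2 : spMap φ.hom = IsOpenImmersion.lift D.in2 l hr := hφ
    rw [h2, IsOpenImmersion.lift_fac]

theorem spMap_inj {B C : Type} [CommRing B] [CommRing C] {φ ψ : B →+* C}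
    (h : spMap φ = spMap ψ) : φ = ψ := by
  have h2 := Spec.map_injective h
  exact congrArg CommRingCat.Hom.hom h2

theorem swap {R : Type} [CommRing R] (h : D.R12 →+* R) :
    spMap (h.comp (D.j1 : D.R1 →+* D.R12)) ≫ D.in1 =
      spMap (h.comp (D.j2 : D.R2 →+* D.R12)) ≫ D.in2 := by
  rw [← spMap_comp'', ← spMap_comp'', Category.assoc, Category.assoc, D.cond]

/-- Extension to the intersection. -/
theorem ext1 {R : Type} [CommRing R] (h : D.R1 →+* R) (hz : IsUnit (h D.z)) :
    ∃ h12 : D.R12 →+* R, h12.comp (D.j1 : D.R1 →+* D.R12) = h := by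
  let _ := (D.j1 : D.R1 →+* D.R12).toAlgebra
  have := away_of (D.j1 : D.R1 →+* D.R12) D.z D.unit1 D.ker1 D.sur1
  refine ⟨IsLocalization.Away.lift (S := D.R12) D.z hz, ?_⟩
  exact RingHom.ext fun v => IsLocalization.Away.lift_eq (S := D.R12) D.z hz v

/-- Extension to the intersection. -/
theorem ext2 {R : Type} [CommRing R] (h : D.R2 →+* R) (hz : IsUnit (h D.w)) :
    ∃ h12 : D.R12 →+* R, h12.comp (D.j2 : D.R2 →+* D.R12) = h := by
  let _ := (D.j2 : D.R2 →+* D.R12).toAlgebra
  have := away_of (D.j2 : D.R2 →+* D.R12) D.w D.unit2 D.ker2 D.sur2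
  refine ⟨IsLocalization.Away.lift (S := D.R12) D.w hz, ?_⟩
  exact RingHom.ext fun v => IsLocalization.Away.lift_eq (S := D.R12) D.w hz v

section uniq

variable {R K : Type} [CommRing R] [IsLocalRing R] [Field K] [Algebra R K]
  (hinj : Function.Injective (algebraMap R K))

include hinj in
omit [IsLocalRing R] in
theorem cancel_inj {B : Type} [CommRing B] {h h' : B →+* R}
    (H : spMap (algebraMap R K) ≫ spMap h = spMap (algebraMap R K) ≫ spMap h') : h = h' := by
  rw [spMap_comp'', spMap_comp''] at H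
  have h2 := spMap_inj H
  ext v
  exact hinj (RingHom.congr_fun h2 v)

include hinj in
omit [IsLocalRing R] in
theorem mixed (h : D.R1 →+* R) (h' : D.R2 →+* R)
    (H : spMap (algebraMap R K) ≫ spMap h ≫ D.in1 =
      spMap (algebraMap R K) ≫ spMap h' ≫ D.in2) :
    spMap h ≫ D.in1 = spMap h' ≫ D.in2 := by
  have hp := glue2_isPullback (spMap (D.j1 : D.R1 →+* D.R12)) (spMap (D.j2 : D.R2 →+* D.R12))
  have H' : (spMap (algebraMap R K) ≫ spMap h) ≫ D.in1 =
      (spMap (algebraMap R K) ≫ spMap h') ≫ D.in2 := by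
    rw [Category.assoc, Category.assoc, H]
  obtain ⟨m, hm⟩ := Spec.map_surjective (hp.lift _ _ H')
  have hm1 : spMap m.hom ≫ spMap (D.j1 : D.R1 →+* D.R12) =
      spMap (algebraMap R K) ≫ spMap h := by
    have : spMap m.hom = hp.lift _ _ H' := hm
    rw [this]
    exact hp.lift_fst _ _ H'
  have hm2 : spMap m.hom ≫ spMap (D.j2 : D.R2 →+* D.R12) =
      spMap (algebraMap R K) ≫ spMap h' := by
    have : spMap m.hom = hp.lift _ _ H' := hm
    rw [this]
    exact hp.lift_snd _ _ H'
  rw [spMap_comp'', spMap_comp''] at hm1 hm2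
  have e1 : m.hom (D.j1 D.z) = algebraMap R K (h D.z) :=
    RingHom.congr_fun (spMap_inj hm1) D.z
  have e2 : m.hom (D.j2 D.w) = algebraMap R K (h' D.w) :=
    RingHom.congr_fun (spMap_inj hm2) D.w
  have h3 := congrArg m.hom D.zw
  rw [map_mul, map_one] at h3
  have h4 : h D.z * h' D.w = 1 := hinj (by rw [map_mul, map_one, ← e1, ← e2]; exact h3)
  have h5 : IsUnit (h' D.w) := IsUnit.of_mul_eq_one (h D.z) ((mul_comm _ _).trans h4)
  obtain ⟨h12, hh⟩ := ext2 h' h5
  rw [← hh, ← swap]
  congr 2
  refine cancel_inj hinj ?_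
  rw [← cancel_mono D.in1, Category.assoc, Category.assoc, H, swap, hh]

include hinj in
theorem uniq (l l' : Sp R ⟶ D.X)
    (H : spMap (algebraMap R K) ≫ l = spMap (algebraMap R K) ≫ l') : l = l' := by
  rcases fac l with ⟨h, rfl⟩ | ⟨h, rfl⟩ <;> rcases fac l' with ⟨h', rfl⟩ | ⟨h', rfl⟩
  · congr 2
    refine cancel_inj hinj ?_
    rw [← cancel_mono D.in1, Category.assoc, Category.assoc, H]
  · exact mixed hinj h h' H
  · exact (mixed hinj h' h H.symm).symm
  · congr 2
    refine cancel_inj hinj ?_
    rw [← cancel_mono D.in2, Category.assoc, Category.assoc, H]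

end uniq

/-! ## Points with values in valuation rings -/

/-- A homomorphism with values in the image of a subring. -/
theorem lift_of {S R K : Type} [CommRing S] [CommRing R] [CommRing K] [Algebra R K]
    (hinj : Function.Injective (algebraMap R K)) (h : S →+* K)
    (H : ∀ r, ∃ y, algebraMap R K y = h r) : ∃ h' : S →+* R, (algebraMap R K).comp h' = h := by
  choose f hf using H
  refine ⟨{ toFun := f, map_one' := ?_, map_zero' := ?_, map_mul' := ?_, map_add' := ?_ }, ?_⟩
  · exact hinj (by rw [hf, map_one, map_one])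
  · intro x y
    exact hinj (by rw [hf, map_mul, map_mul, hf, hf])
  · exact hinj (by rw [hf, map_zero, map_zero])
  · intro x y
    exact hinj (by rw [hf, map_add, map_add, hf, hf])
  · exact RingHom.ext hf

section val

variable {R K : Type} [CommRing R] [IsDomain R] [ValuationRing R] [Field K] [Algebra R K]
  [IsFractionRing R K]

/-- If `S` is integral over `A[z]` and `h z` is in `R` then `h` has values in `R`. -/
theorem lift_int {S : Type} [CommRing S] [Algebra A S] (z : S)
    (hS : ∀ r : S, ((Polynomial.aeval z : Polynomial A →ₐ[A] S) :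
      Polynomial A →+* S).IsIntegralElem r) (β : A →+* R) (h : S →+* K)
    (hβ : h.comp (algebraMap A S) = (algebraMap R K).comp β) (s : R)
    (hs : algebraMap R K s = h z) :
    ∃ h' : S →+* R, (algebraMap R K).comp h' = h ∧ h'.comp (algebraMap A S) = β := by
  have hinj := IsFractionRing.injective R K
  have key : h.comp ((Polynomial.aeval z : Polynomial A →ₐ[A] S) : Polynomial A →+* S) =
      (algebraMap R K).comp (Polynomial.eval₂RingHom β s) := by
    refine Polynomial.ringHom_ext (fun a => ?_) ?_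
    · have h1 := RingHom.congr_fun hβ a
      simp only [RingHom.comp_apply] at h1
      simp [h1]
    · simp [hs]
  have H : ∀ r, ∃ y, algebraMap R K y = h r := by
    intro r
    obtain ⟨p, hp, hr⟩ := hS r
    have h2 : IsIntegral R (h r) := by
      refine ⟨p.map (Polynomial.eval₂RingHom β s), hp.map _, ?_⟩
      rw [Polynomial.eval₂_map, ← key, ← Polynomial.hom_eval₂, hr, map_zero]
    exact IsIntegrallyClosed.algebraMap_eq_of_integral h2
  obtain ⟨h', hh⟩ := lift_of hinj h H
  refine ⟨h', hh, RingHom.ext fun a => hinj ?_⟩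
  have h3 := RingHom.congr_fun hβ a
  rw [← hh] at h3
  exact h3

variable (H1 : ∀ r : D.R1, ((Polynomial.aeval D.z : Polynomial A →ₐ[A] D.R1) :
      Polynomial A →+* D.R1).IsIntegralElem r)
    (H2 : ∀ r : D.R2, ((Polynomial.aeval D.w : Polynomial A →ₐ[A] D.R2) :
      Polynomial A →+* D.R2).IsIntegralElem r)

include H1 H2

/-- The existence part of the valuative criterion, first chart. -/
theorem exA (β : A →+* R) (h : D.R1 →+* K)
    (hβ : h.comp (algebraMap A D.R1) = (algebraMap R K).comp β) :
    ∃ l : Sp R ⟶ D.X, spMap (algebraMap R K) ≫ l = spMap h ≫ D.in1 ∧ l ≫ D.pr = spMap β := by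
  by_cases hz : ∃ s : R, algebraMap R K s = h D.z
  · obtain ⟨s, hs⟩ := hz
    obtain ⟨h', e1, e2⟩ := lift_int D.z H1 β h hβ s hs
    refine ⟨spMap h' ≫ D.in1, ?_, ?_⟩
    · rw [← Category.assoc, spMap_comp'', e1]
    · rw [Category.assoc, D.in1_pr, spMap_comp'', e2]
  · obtain ⟨s, hs⟩ : ∃ s : R, algebraMap R K s = (h D.z)⁻¹ := by
      rcases ValuationRing.isInteger_or_isInteger R (h D.z) with ⟨s, hs⟩ | ⟨s, hs⟩
      · exact absurd ⟨s, hs⟩ hz
      · exact ⟨s, hs⟩
    have hz0 : h D.z ≠ 0 := fun h0 => hz ⟨0, by rw [h0, map_zero]⟩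
    obtain ⟨h12, hh⟩ := ext1 h (IsUnit.mk0 _ hz0)
    have hw : algebraMap R K s = (h12.comp (D.j2 : D.R2 →+* D.R12)) D.w := by
      have h1 := congrArg h12 D.zw
      rw [map_mul, map_one] at h1
      have h2 : h12 (D.j1 D.z) = h D.z := RingHom.congr_fun hh D.z
      rw [h2] at h1
      rw [hs]
      exact (eq_inv_of_mul_eq_one_right h1).symm
    have hβ' : (h12.comp (D.j2 : D.R2 →+* D.R12)).comp (algebraMap A D.R2) =
        (algebraMap R K).comp β := by
      rw [← hβ, ← hh, RingHom.comp_assoc, RingHom.comp_assoc]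
      congr 1
      refine RingHom.ext fun a => ?_
      exact (D.j2.commutes a).trans (D.j1.commutes a).symm
    obtain ⟨h', e1, e2⟩ := lift_int D.w H2 β _ hβ' s hw
    refine ⟨spMap h' ≫ D.in2, ?_, ?_⟩
    · rw [← Category.assoc, spMap_comp'', e1, ← swap, hh]
    · rw [Category.assoc, D.in2_pr, spMap_comp'', e2]

/-- The existence part of the valuative criterion, second chart. -/
theorem exB (β : A →+* R) (h : D.R2 →+* K)
    (hβ : h.comp (algebraMap A D.R2) = (algebraMap R K).comp β) :
    ∃ l : Sp R ⟶ D.X, spMap (algebraMap R K) ≫ l = spMap h ≫ D.in2 ∧ l ≫ D.pr = spMap β := by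
  by_cases hz : h D.w = 0
  · obtain ⟨h', e1, e2⟩ := lift_int D.w H2 β h hβ 0 (by rw [hz, map_zero])
    refine ⟨spMap h' ≫ D.in2, ?_, ?_⟩
    · rw [← Category.assoc, spMap_comp'', e1]
    · rw [Category.assoc, D.in2_pr, spMap_comp'', e2]
  · obtain ⟨h12, hh⟩ := ext2 h (IsUnit.mk0 _ hz)
    have hβ' : (h12.comp (D.j1 : D.R1 →+* D.R12)).comp (algebraMap A D.R1) =
        (algebraMap R K).comp β := by
      rw [← hβ, ← hh, RingHom.comp_assoc, RingHom.comp_assoc]
      congr 1
      refine RingHom.ext fun a => ?_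
      exact (D.j1.commutes a).trans (D.j2.commutes a).symm
    obtain ⟨l, e1, e2⟩ := exA H1 H2 β (h12.comp (D.j1 : D.R1 →+* D.R12)) hβ'
    refine ⟨l, ?_, e2⟩
    rw [e1, swap, hh]

omit [CommRing R] [IsDomain R] [ValuationRing R] [Field K] [Algebra R K] [IsFractionRing R K] in
theorem valu : ValuativeCriterion D.pr := by
  rw [ValuativeCriterion.iff]
  constructor
  · intro S
    obtain ⟨β, hβ⟩ := Spec.map_surjective S.i₂
    have hβ' : spMap β.hom = S.i₂ := hβ
    have hw := S.commSq.w
    rcases fac S.i₁ with ⟨h, hh⟩ | ⟨h, hh⟩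
    · have h1 : h.comp (algebraMap A _) = (algebraMap S.R S.K).comp β.hom := by
        apply spMap_inj
        rw [hh, Category.assoc, D.in1_pr, ← hβ'] at hw
        exact (spMap_comp'' _ _).symm.trans (hw.trans (spMap_comp'' _ _))
      obtain ⟨l, e1, e2⟩ := exA H1 H2 β.hom h h1
      exact ⟨⟨l, e1.trans hh.symm, e2.trans hβ'⟩⟩
    · have h1 : h.comp (algebraMap A _) = (algebraMap S.R S.K).comp β.hom := by
        apply spMap_inj
        rw [hh, Category.assoc, D.in2_pr, ← hβ'] at hw
        exact (spMap_comp'' _ _).symm.trans (hw.trans (spMap_comp'' _ _))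
      obtain ⟨l, e1, e2⟩ := exB H1 H2 β.hom h h1
      exact ⟨⟨l, e1.trans hh.symm, e2.trans hβ'⟩⟩
  · intro S
    constructor
    intro l l'
    have h := uniq (D := D) (IsFractionRing.injective S.R S.K) l.l l'.l
      (l.fac_left.trans l'.fac_left.symm)
    exact CommSq.LiftStruct.ext h

end val

end sch

end DPR

/-- **DPR**: a duo is proper if the charts are integral over `A[z]`, `A[w]`, and of finite
type. -/
theorem t_DPR : Stmt_DPR := by
  intro A _ D f1 f2 H1 H2
  have h2 : LocallyOfFiniteType D.pr := by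
    refine DPR.loc2 D @LocallyOfFiniteType ?_ ?_
    · change LocallyOfFiniteType (Spec.map (CommRingCat.ofHom (algebraMap A D.R1)))
      rw [HasRingHomProperty.Spec_iff (P := @LocallyOfFiniteType)]
      exact (RingHom.finiteType_algebraMap).2 f1
    · change LocallyOfFiniteType (Spec.map (CommRingCat.ofHom (algebraMap A D.R2)))
      rw [HasRingHomProperty.Spec_iff (P := @LocallyOfFiniteType)]
      exact (RingHom.finiteType_algebraMap).2 f2
  have h3 : QuasiCompact D.pr := HasAffineProperty.iff_of_isAffine.mpr (DPR.cpt D)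
  have h4 : QuasiSeparated D.pr := HasAffineProperty.iff_of_isAffine.mpr (DPR.qsep D)
  exact IsProper.of_valuativeCriterion _ (DPR.valu H1 H2)

end Pool.Agent.MG.KX
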