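import Pool.Agent.MG.KX.StmtsD
import Pool.Agent.MG.W.WSM

/-!
# DSM: smoothness at the sections
-/

open CategoryTheory CategoryTheory.Limits AlgebraicGeometry TensorProduct

namespace Pool.Agent.MG.KX

namespace DSM

/-- Etale over the affine line implies smooth. -/
theorem smooth_of {K R S : Type} [CommRing K] [CommRing R] [CommRing S] [Algebra K R]
    [Algebra K S] [Algebra R S] [IsScalarTower K R S] (t : R)
    (h : ((algebraMap R S).comp (Polynomial.eval₂RingHom (algebraMap K R) t)).Etale) :
    Smooth (spMap (algebraMap K S)) := by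
  refine (HasRingHomProperty.Spec_iff (P := @Smooth)).2 ?_
  have h1 : algebraMap K S =
      ((algebraMap R S).comp (Polynomial.eval₂RingHom (algebraMap K R) t)).comp
        (algebraMap K (Polynomial K)) := by
    ext a
    change _ = algebraMap R S (Polynomial.eval₂ (algebraMap K R) t (Polynomial.C a))
    rw [Polynomial.eval₂_C, ← IsScalarTower.algebraMap_apply]
  change (algebraMap K S).Smooth
  rw [h1]
  refine RingHom.Smooth.comp ?_ ?_
  · rw [RingHom.smooth_algebraMap]
    exact ⟨inferInstance, inferInstance⟩
  · rw [RingHom.Etale.eq_formallyUnramified_and_smooth] at h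
    exact h.2

end DSM

theorem t_DSM : Stmt_DSM := by
  intro K _ D n s i ⟨h, t, hs, ht⟩ p
  exact W.WSM.exists_open D.pr D.in1 D.in1_pr h (DSM.smooth_of t ht) (s i : D.R1 →+* K)
    (Ne.isUnit hs) p

end Pool.Agent.MG.KX
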