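import Pool.Agent.MG.KX.StmtsD

/-!
# DSS: smooth schemes with two affine charts
-/

open CategoryTheory CategoryTheory.Limits AlgebraicGeometry TensorProduct

namespace Pool.Agent.MG.KX

namespace DSS

/-- A property which is local on the source, from open neighbourhoods of the points. -/
theorem loc_pt (P : MorphismProperty Scheme.{0}) [IsZariskiLocalAtSource P] {X Y : Scheme.{0}}
    (f : X ⟶ Y) (h : ∀ x : X, ∃ (U : Scheme.{0}) (i : U ⟶ X), IsOpenImmersion i ∧
      x ∈ Set.range i ∧ P (i ≫ f)) : P f := by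
  choose U i hi hx hP using h
  refine IsZariskiLocalAtSource.of_iSup_eq_top
    (fun x : X => (i x).opensRange) ?_ ?_
  · rw [eq_top_iff]
    rintro x -
    exact TopologicalSpace.Opens.mem_iSup.2 ⟨x, hx x⟩
  · intro x
    rw [← IsOpenImmersion.isoOfRangeEq_inv_fac (i x) (Scheme.Opens.ι _)
      (congr_arg TopologicalSpace.Opens.carrier (i x).opensRange.opensRange_ι.symm),
      Category.assoc, P.cancel_left_of_respectsIso]
    exact hP x

variable {A : Type} [CommRing A]

theorem in2_mem (D : Duo A) (q : PrimeSpectrum D.R2) (hq : D.w ∉ q.asIdeal) :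
    ∃ y : Sp D.R1, D.in1 y = D.in2 q := by
  let _ := (D.j2 : D.R2 →+* D.R12).toAlgebra
  have := away_of (D.j2 : D.R2 →+* D.R12) D.w D.unit2 D.ker2 D.sur2
  have h1 : q ∈ Set.range (PrimeSpectrum.comap (algebraMap D.R2 D.R12)) := by
    rw [PrimeSpectrum.localization_away_comap_range D.R12 D.w]
    exact hq
  obtain ⟨p, hp⟩ := h1
  refine ⟨spMap (D.j1 : D.R1 →+* D.R12) p, ?_⟩
  have h2 : spMap (D.j2 : D.R2 →+* D.R12) p = q := hp
  rw [← h2, ← Scheme.Hom.comp_apply, ← Scheme.Hom.comp_apply, D.cond]

/-- A map which has an etale coordinate is smooth. -/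
theorem smooth_coord {K R S : Type} [CommRing K] [CommRing R] [CommRing S] [Algebra K R]
    (f : R →+* S) (t : R)
    (h : (f.comp (Polynomial.eval₂RingHom (algebraMap K R) t)).Etale) :
    (f.comp (algebraMap K R)).Smooth := by
  have h1 : (f.comp (Polynomial.eval₂RingHom (algebraMap K R) t)).Smooth :=
    ((RingHom.etale_iff_formallyUnramified_and_smooth _).1 h).2
  have h2 : (algebraMap K (Polynomial K)).Smooth := by
    rw [RingHom.smooth_algebraMap]
    exact ⟨inferInstance, inferInstance⟩
  have h3 := RingHom.Smooth.comp h2 h1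
  have h4 : (f.comp (Polynomial.eval₂RingHom (algebraMap K R) t)).comp
      (algebraMap K (Polynomial K)) = f.comp (algebraMap K R) := by
    ext a
    change f ((Polynomial.eval₂RingHom (algebraMap K R) t) (Polynomial.C a)) = _
    rw [Polynomial.coe_eval₂RingHom, Polynomial.eval₂_C]
    rfl
  rwa [h4] at h3

end DSS

open DSS in
/-- DSS: smooth duos. -/
theorem t_DSS : Stmt_DSS := by
  intro K _ _ D hfp hfs h2
  have hin1 : Smooth (D.in1 ≫ D.pr) := by
    rw [D.in1_pr]
    refine (HasRingHomProperty.Spec_iff (P := @Smooth)).2 ?_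
    change (algebraMap K D.R1).Smooth
    rw [RingHom.smooth_algebraMap]
    exact ⟨hfs, hfp⟩
  refine loc_pt @Smooth D.pr fun x => ?_
  rcases D.cov x with hx | ⟨q, rfl⟩
  · exact ⟨_, D.in1, inferInstance, hx, hin1⟩
  · by_cases hq : D.w ∈ q.asIdeal
    · obtain ⟨h, t, hh, ht⟩ := h2 q hq
      have ho : IsOpenImmersion (spMap (algebraMap D.R2 (Localization.Away h))) :=
        IsOpenImmersion.of_isLocalization (S := Localization.Away h) h
      refine ⟨_, spMap (algebraMap D.R2 (Localization.Away h)) ≫ D.in2, inferInstance, ?_, ?_⟩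
      · have h1 : q ∈ Set.range (PrimeSpectrum.comap
            (algebraMap D.R2 (Localization.Away h))) := by
          rw [PrimeSpectrum.localization_away_comap_range (Localization.Away h) h]
          exact hh
        obtain ⟨p, hp⟩ := h1
        refine ⟨p, ?_⟩
        have h3 : spMap (algebraMap D.R2 (Localization.Away h)) p = q := hp
        rw [Scheme.Hom.comp_apply, h3]
      · rw [Category.assoc, D.in2_pr, spMap_comp'']
        refine (HasRingHomProperty.Spec_iff (P := @Smooth)).2 ?_
        exact smooth_coord _ t ht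
    · obtain ⟨y, hy⟩ := in2_mem D q hq
      exact ⟨_, D.in1, inferInstance, ⟨y, hy⟩, hin1⟩

end Pool.Agent.MG.KX
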