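import Pool.Agent.MG.KX.StmtsD
import Pool.Agent.MG.FIS

/-!
# DST: stability of duos
-/

open CategoryTheory CategoryTheory.Limits AlgebraicGeometry TensorProduct

namespace Pool.Agent.MG.KX

namespace DST

variable {A K : Type} [CommRing A] [Field K]

/-- The sections of the fibre. -/
theorem sec_map {D : Duo A} {n : ℕ} {s : Fin n → (D.R1 →ₐ[A] A)} {φ : A →+* K} {E : Duo K}
    {s' : Fin n → (E.R1 →ₐ[K] K)} (h : Duo.Hom φ D E) (hs : ∀ i r, s' i (h.f1 r) = φ (s i r))
    (i : Fin n) : (E.fam s').σ i ≫ h.map = spMap φ ≫ (D.fam s).σ i := by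
  change (spMap (s' i : E.R1 →+* K) ≫ E.in1) ≫ h.map =
    spMap φ ≫ spMap (s i : D.R1 →+* A) ≫ D.in1
  rw [Category.assoc, h.in1_map, ← Category.assoc, ← Category.assoc, spMap_comp'', spMap_comp'']
  have e : (s' i : E.R1 →+* K).comp h.f1 = φ.comp (s i : D.R1 →+* A) :=
    RingHom.ext fun r => hs i r
  rw [e]

/-- A fibre of a family given by a duo is isomorphic to the family of the duo over the field. -/
theorem fibre {D : Duo A} {n : ℕ} {s : Fin n → (D.R1 →ₐ[A] A)} {φ : A →+* K} {E : Duo K}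
    {s' : Fin n → (E.R1 →ₐ[K] K)} (h : Duo.Hom φ D E) (hs : ∀ i r, s' i (h.f1 r) = φ (s i r))
    (h1 : IsPullback h.map E.pr D.pr (spMap φ)) (z : Fam n K) (a : Arrow φ z (D.fam s)) :
    ∃ f : Arrow (RingHom.id K) z (E.fam s'), IsIso f.f := by
  have h1' : IsPullback h.map (E.fam s').π (D.fam s).π (spMap φ) := h1
  let e : z.X ≅ (E.fam s').X := a.cart.isoIsPullback _ _ h1'
  have e1 : e.hom ≫ h.map = a.f := a.cart.isoIsPullback_hom_fst _ _ h1'
  have e2 : e.hom ≫ (E.fam s').π = z.π := a.cart.isoIsPullback_hom_snd _ _ h1'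
  refine ⟨⟨e.hom, ?_, ?_⟩, ?_⟩
  · have : IsIso (spMap (RingHom.id K)) := by
      rw [FIS.spMap_id]
      infer_instance
    refine IsPullback.of_horiz_isIso ⟨?_⟩
    rw [e2, FIS.spMap_id, Category.comp_id]
  · intro i
    rw [FIS.spMap_id, Category.id_comp]
    refine h1'.hom_ext ?_ ?_
    · exact (Category.assoc _ _ _).trans ((congrArg (fun t => z.σ i ≫ t) e1).trans
        ((a.sec i).trans (sec_map h hs i).symm))
    · exact (Category.assoc _ _ _).trans ((congrArg (fun t => z.σ i ≫ t) e2).trans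
        ((z.sec i).trans ((E.fam s').sec i).symm))
  · show IsIso e.hom
    infer_instance

end DST

theorem t_DST : Stmt_DST := by
  intro A _ g D n s hp hf hfp hfib
  refine ⟨hp, hf, hfp, ?_⟩
  rintro K _ _ φ z ⟨a⟩
  obtain ⟨E, s', h, h1, hs, hst⟩ := hfib K φ
  obtain ⟨f, hfi⟩ := DST.fibre h hs h1 z a
  exact t_FIS.2 g z (E.fam s') f hfi hst

end Pool.Agent.MG.KX
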