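import Pool.Agent.MG.KX.StmtsD
import Pool.Agent.MG.RIG
import Pool.Agent.MG.Bub.Open

/-!
# DVF: vector fields on a duo with sections in the first chart

The vector field gives derivations of the rings of the two charts and of the intersection, which
are compatible with the restrictions and vanish at the sections.
-/

open CategoryTheory CategoryTheory.Limits AlgebraicGeometry TensorProduct

namespace Pool.Agent.MG.KX

namespace DVF

section geo

variable {A : Type} [CommRing A] {n : ℕ} {K : Type} [Field K] {F : Fam n K} (v : VField F)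
  (i : Sp A ⟶ F.X) [IsOpenImmersion i]

/-- Functions on the range of an affine chart. -/
noncomputable def ev : Γ(F.X, i.opensRange) ≃+* A :=
  RingEquiv.ofBijective (evO i i.opensRange (range_pre i))
    (evO_bij i (range_pre i) (fun _ hx => hx))

theorem ev_apply (f : Γ(F.X, i.opensRange)) :
    ev i f = evO i i.opensRange (range_pre i) f := rfl

/-- The derivation of an affine chart. -/
noncomputable def der : A →+ A :=
  (ev i).toAddEquiv.toAddMonoidHom.comp
    ((v.D i.opensRange).comp (ev i).symm.toAddEquiv.toAddMonoidHom)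

theorem der_apply (f : A) : der v i f = ev i (v.D i.opensRange ((ev i).symm f)) := rfl

theorem der_mul (f g : A) : der v i (f * g) = f * der v i g + g * der v i f := by
  rw [der_apply, der_apply, der_apply, map_mul, v.mul, map_add, map_mul, map_mul,
    RingEquiv.apply_symm_apply, RingEquiv.apply_symm_apply]

theorem der_const (ψ : K →+* A) (hψ : i ≫ F.π = spMap ψ) (c : K) : der v i (ψ c) = 0 := by
  have h : (ev i).symm (ψ c) = coef F.π i.opensRange c := by
    rw [RingEquiv.symm_apply_eq, ev_apply]
    exact (evO_coef i F.π ψ hψ (range_pre i) c).symm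
  rw [der_apply, h, v.const, map_zero]

/-- Compatibility with restriction. -/
theorem der_res {A' : Type} [CommRing A'] (g : A →+* A') (j : Sp A' ⟶ F.X)
    [IsOpenImmersion j] (hj : j = spMap g ≫ i) (f : A) : der v j (g f) = g (der v i f) := by
  subst hj
  have hle : (spMap g ≫ i).opensRange ≤ i.opensRange := by
    rintro _ ⟨p, rfl⟩
    exact ⟨spMap g p, by simp⟩
  have hr : ∀ u : Γ(F.X, i.opensRange), ev (spMap g ≫ i) (rs F.X hle u) = g (ev i u) := by
    intro u
    have h' : ⊤ ≤ (spMap g ≫ i) ⁻¹ᵁ i.opensRange := by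
      intro p _
      exact ⟨spMap g p, by simp⟩
    rw [ev_apply, ev_apply, evO_rs (spMap g ≫ i) hle (range_pre _) h' u]
    exact evO_spMap i g (range_pre i) h' u
  have h1 : (ev (spMap g ≫ i)).symm (g f) = rs F.X hle ((ev i).symm f) := by
    rw [RingEquiv.symm_apply_eq, hr, RingEquiv.apply_symm_apply]
  rw [der_apply, h1, RIG.dres, hr, ← der_apply]

/-- Values at a section. -/
theorem der_sec (l : Fin n) (g : A →+* K) (hl : F.σ l = spMap g ≫ i) (f : A) :
    g (der v i f) = 0 := by
  have h' : ⊤ ≤ (spMap g ≫ i) ⁻¹ᵁ i.opensRange := by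
    intro p _
    exact ⟨spMap g p, by simp⟩
  have h := v.sec i.opensRange l ((ev i).symm f)
  rw [hl] at h
  have h2 : evO (spMap g ≫ i) i.opensRange h' (v.D i.opensRange ((ev i).symm f)) = 0 := by
    have h3 : ((spMap g ≫ i).appLE i.opensRange ⊤ h').hom
        (v.D i.opensRange ((ev i).symm f)) = 0 :=
      (congrArg ((Sp K).presheaf.map (homOfLE h').op).hom h).trans (map_zero _)
    unfold evO
    rw [RingHom.comp_apply, h3, map_zero]
  rw [der_apply, ev_apply, ← evO_spMap i g (range_pre i) h', h2]

theorem der_zero_iff (h : ∀ f, der v i f = 0) : v.D i.opensRange = 0 := by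
  ext s
  have h1 := h (ev i s)
  rw [der_apply, RingEquiv.symm_apply_apply] at h1
  exact (map_eq_zero_iff _ (ev i).injective).1 h1

end geo

/-- The derivation over the base field. -/
noncomputable def mkDer {K R : Type} [Field K] [CommRing R] [Algebra K R] (D : R →+ R)
    (h1 : ∀ f g, D (f * g) = f * D g + g * D f) (h2 : ∀ c : K, D (algebraMap K R c) = 0) :
    Derivation K R R :=
  Derivation.mk'
    { toFun := D
      map_add' := D.map_add
      map_smul' := fun c f => by
        rw [Algebra.smul_def, h1, h2, mul_zero, add_zero, RingHom.id_apply, Algebra.smul_def] }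
    h1

theorem mkDer_apply {K R : Type} [Field K] [CommRing R] [Algebra K R] (D : R →+ R)
    (h1 : ∀ f g, D (f * g) = f * D g + g * D f) (h2 : ∀ c : K, D (algebraMap K R c) = 0) (f : R) :
    mkDer D h1 h2 f = D f := rfl

end DVF

open DVF in
theorem t_DVF : Stmt_DVF := by
  intro K _ D n s H v U
  let i1 : Sp D.R1 ⟶ (D.fam s).X := D.in1
  let i2 : Sp D.R2 ⟶ (D.fam s).X := D.in2
  have o1 : IsOpenImmersion i1 := inferInstanceAs (IsOpenImmersion D.in1)
  have o2 : IsOpenImmersion i2 := inferInstanceAs (IsOpenImmersion D.in2)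
  have hcond : spMap (D.j1 : D.R1 →+* D.R12) ≫ i1 = spMap (D.j2 : D.R2 →+* D.R12) ≫ i2 := D.cond
  have o12 : IsOpenImmersion (spMap (D.j1 : D.R1 →+* D.R12) ≫ i1) := inferInstance
  have hπ1 : i1 ≫ (D.fam s).π = spMap (algebraMap K D.R1) := D.in1_pr
  have hπ2 : i2 ≫ (D.fam s).π = spMap (algebraMap K D.R2) := D.in2_pr
  have hπ12 : (spMap (D.j1 : D.R1 →+* D.R12) ≫ i1) ≫ (D.fam s).π =
      spMap (algebraMap K D.R12) := by
    rw [Category.assoc, hπ1, spMap_comp'', AlgHom.comp_algebraMap]
  obtain ⟨z1, z2⟩ := H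
    (mkDer (der v i1) (der_mul v i1) (der_const v i1 _ hπ1))
    (mkDer (der v i2) (der_mul v i2) (der_const v i2 _ hπ2))
    (mkDer (der v (spMap (D.j1 : D.R1 →+* D.R12) ≫ i1)) (der_mul v _)
      (der_const v _ _ hπ12))
    (fun r => der_res v i1 (D.j1 : D.R1 →+* D.R12) _ rfl r)
    (fun r => der_res v i2 (D.j2 : D.R2 →+* D.R12) _ hcond r)
    (fun i r => der_sec v i1 i (s i : D.R1 →+* K) rfl r)
  refine RIG.all0 v (glue2_range (spMap (D.j1 : D.R1 →+* D.R12))
    (spMap (D.j2 : D.R2 →+* D.R12))) (isAffineOpen_opensRange i1) (isAffineOpen_opensRange i2)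
    (der_zero_iff v i1 fun f => ?_) (der_zero_iff v i2 fun f => ?_) U
  · exact DFunLike.congr_fun z1 f
  · exact DFunLike.congr_fun z2 f

end Pool.Agent.MG.KX
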