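import Pool.Agent.MG.KX.StmtsE
import Pool.Agent.MG.G0.KBC
import Pool.Agent.MG.G0.KDU
import Pool.Agent.MG.G0.KFO
import Pool.Agent.MG.G0.KSP
import Pool.Agent.MG.G0.KNZ

/-!
# GKS: good Krichever rings are rings of stable curves
-/

open CategoryTheory CategoryTheory.Limits AlgebraicGeometry
open scoped TensorProduct

namespace Pool.Agent.MG.KX

open Pool.Agent.MG.G0 Pool.Agent.MG.GLU

/-- GKS: good Krichever rings are rings of stable curves. -/
theorem t_GKS (hKDM : Stmt_KDM) (hKRS : Stmt_KRS) (hKRN : Stmt_KRN) (hKNS : Stmt_KNS)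
    (hKNN : Stmt_KNN) : Stmt_GKS := by
  have hKBC : Stmt_KBC := t_KBC (t_KFO t_KDU) t_KNZ (t_KSP t_KNZ)
  intro I A _ _ _ _ g n P p hg hP hM
  refine ⟨hP.1, hM, ?_⟩
  intro K _ _ φ
  have hchar : CharZero K := charZero_of_injective_ringHom (φ.comp (algebraMap ℂ A)).injective
  have hK : IsKr g (bc φ P) := (hKBC.2.2.2 hP.1 φ).1
  rcases hP.2 K φ with h | h
  · exact ⟨(hKDM hK h).1, hKNS hK h, hKRS hK h (by omega)⟩
  · refine ⟨?_, hKNN hK h, hKRN hK h hg⟩
    obtain ⟨h', R, a, b, _, hR, hS, _, hP'⟩ := h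
    have hd : IsDomain R := (hKDM hR hS).1
    have hle : bc φ P ≤ R := fun f hf => ((hP' f).1 hf).1
    exact Function.Injective.isDomain (Subalgebra.inclusion hle : bc φ P →+* R)
      (Subalgebra.inclusion_injective hle)

end Pool.Agent.MG.KX

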