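import Pool.Agent.MG.KX.StmtsC

/-!
# GNB: genericity and extension of the field

Hypotheses used: `Stmt_KBC`, `Stmt_SCO`, `Stmt_SKK`, `Stmt_SDB` of `Pool.Agent.MG.G0`.
-/

namespace Pool.Agent.MG.KX

open Pool.Agent.MG.G0

namespace GNB

/-! ## Extension of derivations -/

/-- Extensions of fields of characteristic zero are formally smooth. -/
theorem smooth_ext (K L : Type) [Field K] [CharZero K] [Field L] [Algebra K L] :
    Algebra.FormallySmooth K L := by
  obtain ⟨s, hs⟩ := exists_isTranscendenceBasis K L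
  have h1 : Algebra.IsAlgebraic (IntermediateField.adjoin K (Set.range ((↑) : s → L))) L :=
    hs.isAlgebraic_field
  have h3 : Algebra.IsSeparable (IntermediateField.adjoin K (Set.range ((↑) : s → L))) L :=
    inferInstance
  exact Algebra.FormallySmooth.of_algebraicIndependent_of_isSeparable hs.1

/-- Lifting of a homomorphism along a formally smooth homomorphism `f` through a surjection `q`
with square zero kernel. -/
theorem fs_lift {R S G G' : Type} [CommRing R] [CommRing S] [CommRing G] [CommRing G']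
    (f : R →+* S) (hf : f.FormallySmooth) (g : R →+* G) (q : G →+* G')
    (hq : Function.Surjective q) (hk : ∀ v w, q v = 0 → q w = 0 → v * w = 0) (u : S →+* G')
    (h : ∀ r, u (f r) = q (g r)) :
    ∃ v : S →+* G, (∀ r, v (f r) = g r) ∧ ∀ a, q (v a) = u a := by
  let : Algebra R S := f.toAlgebra
  let : Algebra R G := g.toAlgebra
  let : Algebra R G' := (q.comp g).toAlgebra
  have : Algebra.FormallySmooth R S := hf
  let q' : G →ₐ[R] G' := { q with commutes' := fun r => rfl }
  let u' : S →ₐ[R] G' := { u with commutes' := fun r => h r }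
  have hn : IsNilpotent (RingHom.ker (q' : G →+* G')) := by
    refine ⟨2, ?_⟩
    rw [pow_two, Ideal.zero_eq_bot, eq_bot_iff, Ideal.mul_le]
    intro r hr s hs
    rw [Ideal.mem_bot]
    exact hk r s hr hs
  let v := Algebra.FormallySmooth.liftOfSurjective u' q' hq hn
  refine ⟨(v : S →+* G), fun r => v.commutes r, fun a => ?_⟩
  exact Algebra.FormallySmooth.liftOfSurjective_apply u' q' hq hn a

/-- Derivations extend along extensions of fields of characteristic zero. -/
theorem ext_der {K L : Type} [Field K] [Algebra ℂ K] [Field L] [Algebra ℂ L] (φ : K →ₐ[ℂ] L)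
    (D : Derivation ℂ K K) : ∃ E : Derivation ℂ L L, ∀ a, E (φ a) = φ (D a) := by
  have hK : CharZero K := charZero_of_injective_algebraMap (algebraMap ℂ K).injective
  have hf : (φ : K →+* L).FormallySmooth := by
    let : Algebra K L := (φ : K →+* L).toAlgebra
    exact smooth_ext K L
  obtain ⟨v, hv, hv'⟩ := fs_lift (φ : K →+* L) hf ((epsMap (φ : K →+* L)).comp (Std.epsDer D))
    (eps0 L) (fun a => ⟨TrivSqZeroExt.inl a, rfl⟩) (by
      intro v w h1 h2
      have h1' : v.fst = 0 := h1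
      have h2' : w.fst = 0 := h2
      ext
      · rw [TrivSqZeroExt.fst_mul, h1', zero_mul, TrivSqZeroExt.fst_zero]
      · rw [TrivSqZeroExt.snd_mul, h1', h2', TrivSqZeroExt.snd_zero]
        simp) (RingHom.id L) (by
      intro a
      change φ a = _
      simp [epsMap, Std.epsDer])
  have hfst : ∀ a, (v a).fst = a := hv'
  have hsnd : ∀ a, (v (φ a)).snd = φ (D a) := by
    intro a
    have h1 := congrArg TrivSqZeroExt.snd (hv a)
    refine h1.trans ?_
    simp [epsMap, Std.epsDer]
  refine ⟨Derivation.mk' { toFun := fun a => (v a).snd, map_add' := ?_, map_smul' := ?_ } ?_,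
    hsnd⟩
  · intro a b
    rw [map_add, TrivSqZeroExt.snd_add]
  · intro c a
    have h1 : c • a = φ (algebraMap ℂ K c) * a := by
      rw [AlgHom.commutes, Algebra.smul_def]
    rw [h1, map_mul, TrivSqZeroExt.snd_mul, hsnd, D.map_algebraMap, map_zero, smul_zero, add_zero,
      hfst, AlgHom.commutes, RingHom.id_apply, smul_eq_mul, Algebra.smul_def]
  · intro a b
    change (v (a * b)).snd = a • (v b).snd + b • (v a).snd
    rw [map_mul, TrivSqZeroExt.snd_mul, hfst, hfst, op_smul_eq_smul]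

/-! ## Coefficientwise derivations -/

section

variable {I K L : Type}

theorem kadd_coeff [CommRing L] (D : L →+ L) (f : KK I L) (i : I) (m : ℤ) :
    (kadd D f i).coeff m = D ((f i).coeff m) := rfl

theorem kadd_add [CommRing L] (D : L →+ L) (f g : KK I L) :
    kadd D (f + g) = kadd D f + kadd D g := by
  funext i
  ext m
  rw [kadd_coeff, Pi.add_apply, HahnSeries.coeff_add, map_add, Pi.add_apply,
    HahnSeries.coeff_add, kadd_coeff, kadd_coeff]

theorem kadd_zero' [CommRing L] (D : L →+ L) : kadd D (0 : KK I L) = 0 := by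
  funext i
  ext m
  rw [kadd_coeff, Pi.zero_apply, HahnSeries.coeff_zero, map_zero]

theorem kadd_smul [CommRing L] [Algebra ℂ L] (D : Derivation ℂ L L) (c : L) (f : KK I L) :
    kadd (D : L →+ L) (c • f) = D c • f + c • kadd (D : L →+ L) f := by
  funext i
  ext m
  rw [kadd_coeff, Pi.smul_apply, HahnSeries.coeff_smul, Pi.add_apply, HahnSeries.coeff_add,
    Pi.smul_apply, HahnSeries.coeff_smul, Pi.smul_apply, HahnSeries.coeff_smul, kadd_coeff]
  change D (c • (f i).coeff m) = D c • (f i).coeff m + c • D ((f i).coeff m)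
  rw [smul_eq_mul, Derivation.leibniz, smul_eq_mul, smul_eq_mul, smul_eq_mul]
  ring

theorem add_kadd [CommRing L] [Algebra ℂ L] (D E : Derivation ℂ L L) (f : KK I L) :
    kadd ((D + E : Derivation ℂ L L) : L →+ L) f = kadd (D : L →+ L) f + kadd (E : L →+ L) f := by
  funext i
  ext m
  rw [Pi.add_apply, HahnSeries.coeff_add, kadd_coeff, kadd_coeff, kadd_coeff]
  rfl

theorem smul_kadd [CommRing L] [Algebra ℂ L] (c : L) (D : Derivation ℂ L L) (f : KK I L) :
    kadd ((c • D : Derivation ℂ L L) : L →+ L) f = c • kadd (D : L →+ L) f := by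
  funext i
  ext m
  rw [Pi.smul_apply, HahnSeries.coeff_smul, kadd_coeff, kadd_coeff]
  rfl

theorem zero_kadd [CommRing L] [Algebra ℂ L] (f : KK I L) :
    kadd ((0 : Derivation ℂ L L) : L →+ L) f = 0 := by
  funext i
  ext m
  rw [Pi.zero_apply, HahnSeries.coeff_zero, kadd_coeff]
  rfl

theorem kadd_kmap [CommRing K] [CommRing L] (φ : K →+* L) (D : K →+ K) (E : L →+ L)
    (h : ∀ a, E (φ a) = φ (D a)) (f : KK I K) : kadd E (kmap φ f) = kmap φ (kadd D f) := by
  funext i
  ext m
  rw [kadd_coeff, kmap_apply, lmap_coeff, h, kmap_apply, lmap_coeff, kadd_coeff]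

/-! ## The vector fields which come from derivations of the field -/

/-- The deformation given by `θ` comes from a derivation of `L` and a vector field without
poles. -/
def GD [CommRing L] [Algebra ℂ L] (Q : Subalgebra L (KK I L)) (θ : KK I L) : Prop :=
  ∃ (D : Derivation ℂ L L) (η : KK I L), η ∈ Pol I L 0 ∧
    ∀ f ∈ Q, θ * dd f - kadd (D : L →+ L) f - η * dd f ∈ Q

theorem GD_pol [CommRing L] [Algebra ℂ L] (Q : Subalgebra L (KK I L)) {θ : KK I L}
    (h : θ ∈ Pol I L 0) : GD Q θ := by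
  refine ⟨0, θ, h, fun f _ => ?_⟩
  rw [zero_kadd, sub_zero, sub_self]
  exact zero_mem Q

theorem GD_add [CommRing L] [Algebra ℂ L] {Q : Subalgebra L (KK I L)} {θ θ' : KK I L}
    (h : GD Q θ) (h' : GD Q θ') : GD Q (θ + θ') := by
  obtain ⟨D, η, h1, h2⟩ := h
  obtain ⟨D', η', h1', h2'⟩ := h'
  refine ⟨D + D', η + η', add_mem h1 h1', fun f hf => ?_⟩
  have e : (θ + θ') * dd f - kadd ((D + D' : Derivation ℂ L L) : L →+ L) f - (η + η') * dd f =
      (θ * dd f - kadd (D : L →+ L) f - η * dd f) +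
      (θ' * dd f - kadd (D' : L →+ L) f - η' * dd f) := by
    rw [add_kadd]
    ring
  rw [e]
  exact add_mem (h2 f hf) (h2' f hf)

theorem GD_smul [CommRing L] [Algebra ℂ L] {Q : Subalgebra L (KK I L)} {θ : KK I L} (c : L)
    (h : GD Q θ) : GD Q (c • θ) := by
  obtain ⟨D, η, h1, h2⟩ := h
  refine ⟨c • D, c • η, Submodule.smul_mem _ c h1, fun f hf => ?_⟩
  have e : (c • θ) * dd f - kadd ((c • D : Derivation ℂ L L) : L →+ L) f - (c • η) * dd f =
      c • (θ * dd f - kadd (D : L →+ L) f - η * dd f) := by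
    rw [smul_kadd, smul_mul_assoc, smul_mul_assoc, smul_sub, smul_sub]
  rw [e]
  exact Q.smul_mem (h2 f hf) c

theorem GD_sum [CommRing L] [Algebra ℂ L] {Q : Subalgebra L (KK I L)} {ι : Type} (s : Finset ι)
    (θ : ι → KK I L) (h : ∀ i ∈ s, GD Q (θ i)) : GD Q (∑ i ∈ s, θ i) := by
  classical
  induction s using Finset.induction_on with
  | empty =>
    rw [Finset.sum_empty]
    exact GD_pol Q (zero_mem _)
  | insert a s ha ih =>
    rw [Finset.sum_insert ha]
    exact GD_add (h a (Finset.mem_insert_self a s))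
      (ih fun i hi => h i (Finset.mem_insert_of_mem hi))

/-- The vector fields over the small field. -/
theorem GD_kmap [Field K] [Algebra ℂ K] [Field L] [Algebra ℂ L] (hKBC : Stmt_KBC)
    (φ : K →ₐ[ℂ] L) {P : Subalgebra K (KK I K)} (hP : Gnr P) (θ : KK I K) :
    GD (bc (φ : K →+* L) P) (kmap (φ : K →+* L) θ) := by
  obtain ⟨D, η, hη, hD⟩ := hP (tder P θ)
  obtain ⟨E, hE⟩ := ext_der φ D
  have hE' : ∀ a, (E : L →+ L) ((φ : K →+* L) a) = (φ : K →+* L) ((D : K →+ K) a) := hE
  refine ⟨E, kmap (φ : K →+* L) η, kmap_mem_Pol _ hη, fun f hf => ?_⟩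
  have hf' : f ∈ Submodule.span L (kmap (φ : K →+* L) '' (P : Set (KK I K))) := by
    rw [← hKBC.1 (φ : K →+* L) P]
    exact hf
  induction hf' using Submodule.span_induction with
  | mem x hx =>
    obtain ⟨p, hp, rfl⟩ := hx
    have h1 := hD ⟨p, hp⟩
    rw [tder_apply, ← map_add, mk_eq] at h1
    have h2 : θ * dd p - (kadd (D : K →+ K) p + η * dd p) ∈ P := h1
    rw [kadd_kmap (φ : K →+* L) (D : K →+ K) (E : L →+ L) hE', ← kmap_dd, ← map_mul, ← map_mul,
      ← map_sub, ← map_sub, sub_sub]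
    exact kmap_mem_bc _ h2
  | zero =>
    have h0 : dd (0 : KK I L) = 0 := map_zero (ddD I L)
    rw [h0, kadd_zero', mul_zero, mul_zero, sub_zero, sub_zero]
    exact zero_mem _
  | add x y hx hy h1 h2 =>
    have h3 := h1 (by rw [← Subalgebra.mem_toSubmodule, hKBC.1]; exact hx)
    have h4 := h2 (by rw [← Subalgebra.mem_toSubmodule, hKBC.1]; exact hy)
    have e : kmap (φ : K →+* L) θ * dd (x + y) - kadd (E : L →+ L) (x + y) -
        kmap (φ : K →+* L) η * dd (x + y) =
        (kmap (φ : K →+* L) θ * dd x - kadd (E : L →+ L) x - kmap (φ : K →+* L) η * dd x) +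
        (kmap (φ : K →+* L) θ * dd y - kadd (E : L →+ L) y - kmap (φ : K →+* L) η * dd y) := by
      rw [dd_add, kadd_add]
      ring
    rw [e]
    exact add_mem h3 h4
  | smul c x hx h1 =>
    have hx' : x ∈ bc (φ : K →+* L) P := by
      rw [← Subalgebra.mem_toSubmodule, hKBC.1]
      exact hx
    have h3 := h1 hx'
    have e : kmap (φ : K →+* L) θ * dd (c • x) - kadd (E : L →+ L) (c • x) -
        kmap (φ : K →+* L) η * dd (c • x) =
        c • (kmap (φ : K →+* L) θ * dd x - kadd (E : L →+ L) x - kmap (φ : K →+* L) η * dd x) -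
          E c • x := by
      rw [dd_smul, kadd_smul, mul_smul_comm, mul_smul_comm, smul_sub, smul_sub]
      abel
    rw [e]
    exact sub_mem (Subalgebra.smul_mem _ h3 c) (Subalgebra.smul_mem _ hx' _)

/-- All vector fields. -/
theorem GD_all [Fintype I] [Field K] [Algebra ℂ K] [Field L] [Algebra ℂ L] (hKBC : Stmt_KBC)
    (φ : K →ₐ[ℂ] L) {P : Subalgebra K (KK I K)} (hP : Gnr P) (θ : KK I L) :
    GD (bc (φ : K →+* L) P) θ := by
  obtain ⟨n, hn⟩ := exists_Pol θ
  have h1 := sub_mon_mem_Pol hn 0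
  rw [neg_zero] at h1
  have h2 : GD (bc (φ : K →+* L) P)
      (∑ i, ∑ m ∈ Finset.Ico (-(n : ℤ)) 0, mon i m ((θ i).coeff m)) := by
    refine GD_sum _ _ fun i _ => GD_sum _ _ fun m _ => ?_
    have e : mon i m ((θ i).coeff m) = (θ i).coeff m • kmap (φ : K →+* L) (mon i m 1) := by
      rw [kmap_mon, map_one, smul_mon, mul_one]
    rw [e]
    exact GD_smul _ (GD_kmap hKBC φ hP _)
  have h3 := GD_add (GD_pol (bc (φ : K →+* L) P) h1) h2
  rwa [sub_add_cancel] at h3

end

end GNB

/-- GNB: genericity and extension of the field. -/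
theorem t_GNB (hKBC : Stmt_KBC) (hSCO : Stmt_SCO) (hSKK : Stmt_SKK) (hSDB : Stmt_SDB) :
    Stmt_GNB := by
  intro I K L _ _ _ _ _ _ φ g P hP hT hG δ
  have hP' : IsKr g (bc (φ : K →+* L) P) := (hKBC.2.2.2 hP (φ : K →+* L)).1
  have hS' : SmC L (bc (φ : K →+* L) P) := (hSDB hP hT.2 (φ : K →+* L)).1
  obtain ⟨-, -, h5⟩ := hSCO.2 hS'
  obtain ⟨E, hE⟩ := h5 (KK I L) (MM (bc (φ : K →+* L) P)) (mk (bc (φ : K →+* L) P))
    (mk_surj _) δ
  obtain ⟨θ, hθ, -⟩ := (hSKK hP').2 hS' E
  obtain ⟨D, η, hη, hD⟩ := GNB.GD_all hKBC φ hG θ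
  refine ⟨D, η, hη, fun f => ?_⟩
  have h6 : E f = θ * dd (f : KK I L) := hθ f
  rw [← hE f, h6, ← map_add, mk_eq, ← sub_sub]
  exact hD f f.2

end Pool.Agent.MG.KX
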