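import Pool.Agent.MG.KX.StmtsK
import Pool.Agent.MG.G0.KFG
import Pool.Agent.MG.G0.KSP
import Pool.Agent.MG.G0.KNZ

/-!
# Finiteness of the first chart
-/

open CategoryTheory CategoryTheory.Limits AlgebraicGeometry TensorProduct

namespace Pool.Agent.MG.KX

open Pool.Agent.MG.G0 Pool.Agent.MG.GLU

namespace KFPx

/-- The statement for `P` itself. -/
theorem core {I A : Type} [Fintype I] [Nonempty I] [CommRing A] {g : ℕ}
    {P : Subalgebra A (KK I A)} (hP : IsKr g P) (z : Pole P) :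
    Algebra.FinitePresentation A P ∧ Module.Flat A P ∧
      ∀ r : P, ((Polynomial.aeval z.z : Polynomial A →ₐ[A] P) :
        Polynomial A →+* P).IsIntegralElem r := by
  have hKNZ : Stmt_KNZ := t_KNZ
  have hKSP : Stmt_KSP := t_KSP hKNZ
  have hKFG : Stmt_KFG := t_KFG hKNZ hKSP
  obtain ⟨N, hN⟩ := (hKNZ hP).1
  obtain ⟨h1, h2⟩ := hKFG hP
  obtain ⟨-, -, h3, -, -⟩ := h2 N z.d z.z hN (by exact_mod_cast z.pos) z.mon
  have h4 := (hKSP hP).1
  exact ⟨h1, inferInstance, fun r => h3.to_isIntegral r⟩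

end KFPx

theorem t_KFP : Stmt_KFP := by
  intro I A _ _ _ g P hP z
  exact KFPx.core hP z

end Pool.Agent.MG.KX
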