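import Pool.Agent.MG.KX.StmtsK
import Pool.Agent.MG.G0.KNZ

/-!
# PLE: poles exist
-/

open CategoryTheory CategoryTheory.Limits AlgebraicGeometry TensorProduct

namespace Pool.Agent.MG.KX

open Pool.Agent.MG.G0 Pool.Agent.MG.GLU

namespace PLE

variable {A : Type} [CommRing A]

theorem single_low (d : ℕ) (m : ℤ) (hm : m < d) :
    (HahnSeries.single (d : ℤ) (1 : A)).coeff m = 0 :=
  HahnSeries.coeff_single_of_ne hm.ne

/-- The inverse of a Laurent series `τ^(-d) + ...`. -/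
theorem exists_inv (d : ℕ) (f : LaurentSeries A) (hf : ∀ m : ℤ, m < -(d : ℤ) → f.coeff m = 0)
    (h1 : f.coeff (-(d : ℤ)) = 1) :
    ∃ w : LaurentSeries A, f * w = 1 ∧ ∀ m : ℤ, m < d → w.coeff m = 0 := by
  have hlow : ∀ m < 0, (HahnSeries.single (d : ℤ) (1 : A) * f).coeff m = 0 := fun m hm =>
    mul_low (single_low d) hf m (by omega)
  have hlead : (HahnSeries.single (d : ℤ) (1 : A) * f).coeff 0 = 1 := by
    have h := mul_lead (single_low (A := A) d) hf
    rw [h1, HahnSeries.coeff_single_same, mul_one, add_neg_cancel] at h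
    exact h
  have hc : PowerSeries.constantCoeff (tops A (HahnSeries.single (d : ℤ) (1 : A) * f)) =
      ((1 : Aˣ) : A) := by
    rw [← PowerSeries.coeff_zero_eq_constantCoeff_apply, tops, PowerSeries.coeff_mk]
    exact hlead
  have hinv := PowerSeries.mul_invOfUnit _ 1 hc
  refine ⟨HahnSeries.single (d : ℤ) (1 : A) * psl A
    (PowerSeries.invOfUnit (tops A (HahnSeries.single (d : ℤ) (1 : A) * f)) 1), ?_, fun m hm => ?_⟩
  · have e := congrArg (psl A) hinv
    rw [map_mul, psl_tops hlow, map_one (psl A)] at e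
    rw [← e]
    ring
  · exact mul_low (single_low d) (psl_coeff_neg _) m (by omega)

end PLE

/-- PLE: poles exist. -/
theorem t_PLE : Stmt_PLE := by
  intro I A _ _ g P hP
  have key : ∀ (d : ℕ) (z : P), 1 ≤ d → Mon d (z : KK I A) → ∃ y : Pole P, y.z = z := by
    intro d z hd hz
    choose w hw1 hw2 using fun i => PLE.exists_inv d ((z : KK I A) i) (hz.1 i) (hz.2 i)
    exact ⟨⟨z, d, hd, hz, w, funext hw1, fun i m hm => hw2 i m (by omega)⟩, rfl⟩
  refine ⟨?_, key⟩
  obtain ⟨⟨N, hN⟩, h2⟩ := t_KNZ hP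
  obtain ⟨z, hz, hm⟩ := (h2 N hN).2.2 ((N + 1 : ℕ) : ℤ) (by push_cast; omega)
  obtain ⟨y, -⟩ := key (N + 1) ⟨z, hz⟩ (by omega) hm
  exact ⟨y⟩

end Pool.Agent.MG.KX
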