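import Pool.Agent.MG.KX.StmtsE
import Pool.Agent.MG.KX.KFP
import Pool.Agent.MG.KX.PLE
import Pool.Agent.MG.W.WND

/-!
# KNS: smooth Krichever rings are nodal

At a point of a smooth Krichever ring over an algebraically closed field the cotangent space is
generated by one element, so KMK gives an étale coordinate near every closed point.
-/

open CategoryTheory CategoryTheory.Limits AlgebraicGeometry TensorProduct

namespace Pool.Agent.MG.KX

open Pool.Agent.MG.G0 Pool.Agent.MG.GLU

namespace KNSx

section cot

variable {K P : Type} [Field K] [CommRing P] [Algebra K P] (x : P →ₐ[K] K)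

theorem sub_mem (f : P) : f - algebraMap K P (x f) ∈ RingHom.ker x := by
  rw [RingHom.mem_ker, map_sub, AlgHom.commutes, Algebra.algebraMap_self, RingHom.id_apply,
    sub_self]

/-- The derivation of `P` with values in the cotangent space at `x`. -/
noncomputable def cder : Derivation K P (RingHom.ker x).Cotangent :=
  Derivation.mk'
    { toFun := fun f => (RingHom.ker x).toCotangent ⟨f - algebraMap K P (x f), sub_mem x f⟩
      map_add' := fun f g => by
        rw [← map_add]
        congr 1
        apply Subtype.ext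
        change f + g - algebraMap K P (x (f + g)) =
          f - algebraMap K P (x f) + (g - algebraMap K P (x g))
        rw [map_add, map_add]
        ring
      map_smul' := fun c f => by
        rw [RingHom.id_apply, ← algebraMap_smul P c
          ((RingHom.ker x).toCotangent ⟨f - algebraMap K P (x f), sub_mem x f⟩), ← map_smul]
        congr 1
        apply Subtype.ext
        change c • f - algebraMap K P (x (c • f)) =
          algebraMap K P c * (f - algebraMap K P (x f))
        rw [map_smul, smul_eq_mul, map_mul, Algebra.smul_def]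
        ring }
    (by
      intro f g
      change (RingHom.ker x).toCotangent ⟨f * g - algebraMap K P (x (f * g)), _⟩ =
        f • (RingHom.ker x).toCotangent ⟨g - algebraMap K P (x g), _⟩ +
          g • (RingHom.ker x).toCotangent ⟨f - algebraMap K P (x f), _⟩
      rw [← map_smul, ← map_smul, ← map_add, Ideal.toCotangent_eq]
      change f * g - algebraMap K P (x (f * g)) -
        (f * (g - algebraMap K P (x g)) + g * (f - algebraMap K P (x f))) ∈ _
      have h : f * g - algebraMap K P (x (f * g)) -
          (f * (g - algebraMap K P (x g)) + g * (f - algebraMap K P (x f))) =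
          -((f - algebraMap K P (x f)) * (g - algebraMap K P (x g))) := by
        rw [map_mul, map_mul]
        ring
      rw [h, pow_two]
      exact neg_mem (Ideal.mul_mem_mul (sub_mem x f) (sub_mem x g)))

theorem cder_apply (f : P) : cder x f =
    (RingHom.ker x).toCotangent ⟨f - algebraMap K P (x f), sub_mem x f⟩ := rfl

/-- The cotangent space is a `K`-vector space through `x`. -/
theorem smul_cot (f : P) (v : (RingHom.ker x).Cotangent) : f • v = (x f) • v := by
  obtain ⟨m, rfl⟩ := (RingHom.ker x).toCotangent_surjective v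
  rw [← algebraMap_smul P (x f), ← map_smul, ← map_smul, Ideal.toCotangent_eq]
  change f * (m : P) - algebraMap K P (x f) * (m : P) ∈ _
  rw [← sub_mul, pow_two]
  exact Ideal.mul_mem_mul (sub_mem x f) m.2

/-- The cotangent space of a smooth curve is generated by one element. -/
theorem cot (hs : SmC K P) : ∃ t ∈ RingHom.ker x, ∀ f ∈ RingHom.ker x, ∃ c : K,
    f - c • t ∈ RingHom.ker x ^ 2 := by
  obtain ⟨n, D, g, h1, h2⟩ := hs
  obtain ⟨i, hi⟩ : ∃ i, x (D i (g i)) ≠ 0 := by
    by_contra hn
    push Not at hn
    have h3 : x (∑ i, D i (g i)) = 0 := by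
      rw [map_sum]
      exact Finset.sum_eq_zero fun i _ => hn i
    rw [h1, map_one] at h3
    exact one_ne_zero h3
  refine ⟨g i - algebraMap K P (x (g i)), sub_mem x _, fun f hf => ?_⟩
  refine ⟨(x (D i (g i)))⁻¹ * x (D i f), ?_⟩
  have h3 := congrArg (cder x).liftKaehlerDifferential (h2 (D i) (g i) f)
  rw [map_smul, map_smul, Derivation.liftKaehlerDifferential_comp_D,
    Derivation.liftKaehlerDifferential_comp_D, smul_cot, smul_cot] at h3
  have h4 : cder x f = ((x (D i (g i)))⁻¹ * x (D i f)) • cder x (g i) := by
    rw [mul_smul, ← h3, smul_smul, inv_mul_cancel₀ hi, one_smul]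
  have hf0 : x f = 0 := hf
  rw [cder_apply, cder_apply, ← algebraMap_smul P, ← map_smul, Ideal.toCotangent_eq] at h4
  change f - algebraMap K P (x f) - algebraMap K P ((x (D i (g i)))⁻¹ * x (D i f)) *
    (g i - algebraMap K P (x (g i))) ∈ RingHom.ker x ^ 2 at h4
  rw [hf0, map_zero, sub_zero, ← Algebra.smul_def] at h4
  exact h4

end cot

/-- Maximal ideals of an algebra of finite type are kernels of points. -/
theorem exists_pt {K P : Type} [Field K] [IsAlgClosed K] [CommRing P] [Algebra K P]
    (hft : Algebra.FiniteType K P) (m : Ideal P) (hm : m.IsMaximal) :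
    ∃ x : P →ₐ[K] K, RingHom.ker x = m := by
  let _ : Field (P ⧸ m) := Ideal.Quotient.field m
  have h1 : Algebra.FiniteType K (P ⧸ m) := inferInstance
  have h2 : Module.Finite K (P ⧸ m) := finite_of_finite_type_of_isJacobsonRing K (P ⧸ m)
  have h3 : Function.Bijective (algebraMap K (P ⧸ m)) :=
    IsAlgClosed.algebraMap_bijective_of_isIntegral
  let e : K ≃ₐ[K] (P ⧸ m) := AlgEquiv.ofBijective (Algebra.ofId K (P ⧸ m)) h3
  refine ⟨(e.symm : (P ⧸ m) →ₐ[K] K).comp (Ideal.Quotient.mkₐ K m), ?_⟩
  ext f
  rw [RingHom.mem_ker]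
  change e.symm (Ideal.Quotient.mk m f) = 0 ↔ f ∈ m
  rw [map_eq_zero_iff e.symm e.symm.injective, Ideal.Quotient.eq_zero_iff_mem]

end KNSx

open KNSx in
/-- KNS: smooth Krichever rings are nodal. -/
theorem t_KNS (hKDM : Stmt_KDM) (hKMK : Stmt_KMK) : Stmt_KNS := by
  intro I K _ _ _ _ g P hP hS
  have hdom : IsDomain P := (hKDM hP hS).1
  obtain ⟨⟨z⟩, -⟩ := t_PLE hP
  have hfp : Algebra.FinitePresentation K P := (t_KFP hP z).1
  have hft : Algebra.FiniteType K P := inferInstance
  intro y
  obtain ⟨m, hm, hle⟩ := Ideal.exists_le_maximal y.asIdeal y.isPrime.ne_top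
  obtain ⟨x, hx⟩ := exists_pt hft m hm
  have hmk : Marks P (fun _ : Fin 1 => x) :=
    ⟨fun i j hij => absurd (Subsingleton.elim i j) hij, fun _ => cot x hS.2⟩
  obtain ⟨h, t, h1, h2⟩ := hKMK hP hdom (fun _ : Fin 1 => x) hmk 0
  have hy : h ∉ y.asIdeal := by
    intro hh
    have h3 : h ∈ RingHom.ker x := by
      rw [hx]
      exact hle hh
    exact h1 h3
  exact W.WND.loc_pt (spMap (algebraMap K P)) (𝟙 (Sp P)) (algebraMap K P) (Category.id_comp _) h _
    h2 (fun c => by simp) y hy

end Pool.Agent.MG.KX
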