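import Pool.Agent.MG.KX.StmtsC
import Pool.Agent.MG.KX.KNS

/-!
# GNM: marked points exist
-/

open CategoryTheory CategoryTheory.Limits AlgebraicGeometry TensorProduct

namespace Pool.Agent.MG.KX

open Pool.Agent.MG.G0 Pool.Agent.MG.GLU

namespace GNMx

/-- The function `z` takes every value. -/
theorem exists_val {K P : Type} [Field K] [IsAlgClosed K] [CommRing P] [Algebra K P]
    (hft : Algebra.FiniteType K P) (z : P)
    (hint : ∀ r : P, ((Polynomial.aeval z : Polynomial K →ₐ[K] P) :
      Polynomial K →+* P).IsIntegralElem r)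
    (hinj : Function.Injective (Polynomial.aeval (R := K) z)) (a : K) :
    ∃ x : P →ₐ[K] K, x z = a := by
  let _ : Algebra (Polynomial K) P :=
    ((Polynomial.aeval z : Polynomial K →ₐ[K] P) : Polynomial K →+* P).toAlgebra
  have hI : Algebra.IsIntegral (Polynomial K) P := ⟨hint⟩
  have hmax : (Ideal.span {Polynomial.X - Polynomial.C a} : Ideal (Polynomial K)).IsMaximal :=
    PrincipalIdealRing.isMaximal_of_irreducible (Polynomial.irreducible_X_sub_C a)
  have hker : RingHom.ker (algebraMap (Polynomial K) P) ≤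
      Ideal.span {Polynomial.X - Polynomial.C a} := by
    intro f hf
    have h1 : Polynomial.aeval z f = 0 := hf
    rw [map_eq_zero_iff _ hinj] at h1
    rw [h1]
    exact Submodule.zero_mem _
  obtain ⟨m, hm, hcm⟩ := Ideal.exists_ideal_over_maximal_of_isIntegral
    (S := P) (Ideal.span {Polynomial.X - Polynomial.C a}) hker
  obtain ⟨x, hx⟩ := KNSx.exists_pt hft m hm
  refine ⟨x, ?_⟩
  have h1 : (Polynomial.X - Polynomial.C a : Polynomial K) ∈ m.comap
      (algebraMap (Polynomial K) P) := by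
    rw [hcm]
    exact Ideal.subset_span rfl
  rw [Ideal.mem_comap, ← hx, RingHom.mem_ker] at h1
  change x (Polynomial.aeval z (Polynomial.X - Polynomial.C a)) = 0 at h1
  rw [map_sub, Polynomial.aeval_X, Polynomial.aeval_C, map_sub, AlgHom.commutes,
    Algebra.algebraMap_self, RingHom.id_apply, sub_eq_zero] at h1
  exact h1

/-- The kernels of different points are comaximal. -/
theorem comax {K P : Type} [Field K] [CommRing P] [Algebra K P] (x y : P →ₐ[K] K) (z : P)
    (h : x z ≠ y z) : RingHom.ker x ⊔ RingHom.ker y = ⊤ := by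
  have h0 : y z - x z ≠ 0 := sub_ne_zero.2 (Ne.symm h)
  rw [Ideal.eq_top_iff_one, Submodule.mem_sup]
  refine ⟨algebraMap K P (y z - x z)⁻¹ * (z - algebraMap K P (x z)), ?_,
    -(algebraMap K P (y z - x z)⁻¹ * (z - algebraMap K P (y z))), ?_, ?_⟩
  · exact Ideal.mul_mem_left _ _ (KNSx.sub_mem x z)
  · exact neg_mem (Ideal.mul_mem_left _ _ (KNSx.sub_mem y z))
  · have h1 : algebraMap K P (y z - x z)⁻¹ * (z - algebraMap K P (x z)) +
        -(algebraMap K P (y z - x z)⁻¹ * (z - algebraMap K P (y z))) =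
        algebraMap K P (y z - x z)⁻¹ * algebraMap K P (y z - x z) := by
      rw [map_sub (algebraMap K P) (y z) (x z)]
      ring
    rw [h1, ← map_mul, inv_mul_cancel₀ h0, map_one]

end GNMx

open GNMx in
/-- Marked points exist. -/
theorem t_GNM (hKDM : Stmt_KDM) : Stmt_GNM := by
  intro I K _ _ _ _ g P hP hS n
  have hKNZ : Stmt_KNZ := t_KNZ
  have hKSP : Stmt_KSP := t_KSP hKNZ
  have hKFG : Stmt_KFG := t_KFG hKNZ hKSP
  obtain ⟨⟨z⟩, -⟩ := t_PLE hP
  obtain ⟨N, hN⟩ := (hKNZ hP).1
  obtain ⟨hfp, h2⟩ := hKFG hP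
  obtain ⟨-, -, h3, -, h4⟩ := h2 N z.d z.z hN (by exact_mod_cast z.pos) z.mon
  have hft : Algebra.FiniteType K P := inferInstance
  have hex := exists_val hft z.z (fun r => h3.to_isIntegral r) h4
  choose x hx using hex
  have : Infinite K := inferInstance
  let e : ℕ ↪ K := Infinite.natEmbedding K
  refine ⟨fun i => x (e i), fun i j hij => ?_, fun i => KNSx.cot _ hS.2⟩
  refine comax _ _ z.z ?_
  rw [hx, hx]
  intro h5
  exact hij (Fin.ext (e.injective h5))

end Pool.Agent.MG.KX
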