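import Pool.Agent.MG.KX.StmtsE
import Pool.Agent.MG.G0.KBC
import Pool.Agent.MG.G0.KDU
import Pool.Agent.MG.G0.KFO
import Pool.Agent.MG.G0.KSP
import Pool.Agent.MG.G0.KNZ
import Pool.Agent.MG.G0.KEQ

/-!
# PDD: deformations given by derivations of the base field
-/

open CategoryTheory CategoryTheory.Limits AlgebraicGeometry
open scoped TensorProduct

namespace Pool.Agent.MG.KX

open Pool.Agent.MG.G0 Pool.Agent.MG.GLU

namespace PDD

variable {I K : Type} [Field K] [Algebra ℂ K] (D : Derivation ℂ K K)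

theorem eps0_eps (f : KK I K) : kmap (eps0 K) (kmap (Std.epsDer D) f) = f := by
  funext i
  ext n
  change eps0 K (Std.epsDer D ((f i).coeff n)) = (f i).coeff n
  simp [Std.epsDer]

theorem ksnd_eps (f : KK I K) :
    ksnd (kmap (Std.epsDer D) f) = kadd (D : K →+ K) f := by
  funext i
  ext n
  change (Std.epsDer D ((f i).coeff n)).snd = D ((f i).coeff n)
  simp [Std.epsDer]

theorem kadd_add (f h : KK I K) :
    kadd (D : K →+ K) (f + h) = kadd (D : K →+ K) f + kadd (D : K →+ K) h := by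
  rw [← ksnd_eps, map_add, ksnd_add, ksnd_eps, ksnd_eps]

theorem kadd_mul (f h : KK I K) :
    kadd (D : K →+ K) (f * h) = f * kadd (D : K →+ K) h + h * kadd (D : K →+ K) f := by
  rw [← ksnd_eps, map_mul, ksnd_mul, ksnd_eps, ksnd_eps, eps0_eps, eps0_eps]

theorem kadd_algebraMap (c : K) :
    kadd (D : K →+ K) (algebraMap K (KK I K) c) = algebraMap K (KK I K) (D c) := by
  rw [← ksnd_eps, kmap_algebraMap, ksnd_algebraMap]
  simp [Std.epsDer]

theorem kadd_smul (c : K) (f : KK I K) :
    kadd (D : K →+ K) (c • f) = c • kadd (D : K →+ K) f + D c • f := by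
  rw [Algebra.smul_def, kadd_mul, kadd_algebraMap, Algebra.smul_def, Algebra.smul_def]
  ring

/-- The derivation. -/
noncomputable def der (P : Subalgebra K (KK I K)) : DD P where
  toFun f := mk P (kadd (D : K →+ K) (f : KK I K))
  map_add' f g := by
    change mk P (kadd (D : K →+ K) ((f : KK I K) + (g : KK I K))) = _
    rw [kadd_add, map_add]
  map_smul' c f := by
    change mk P (kadd (D : K →+ K) (c • (f : KK I K))) = c • mk P (kadd (D : K →+ K) (f : KK I K))
    rw [kadd_smul, map_add, mk_smulA, mk_zero.2 (P.smul_mem f.2 (D c)), add_zero]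
  map_one_eq_zero' := by
    change mk P (kadd (D : K →+ K) ((1 : P) : KK I K)) = 0
    rw [mk_zero]
    have h := kadd_algebraMap (I := I) D (1 : K)
    rw [map_one] at h
    rw [OneMemClass.coe_one, h]
    exact P.algebraMap_mem _
  leibniz' f g := by
    change mk P (kadd (D : K →+ K) ((f : KK I K) * (g : KK I K))) =
      f • mk P (kadd (D : K →+ K) (g : KK I K)) + g • mk P (kadd (D : K →+ K) (f : KK I K))
    rw [kadd_mul, map_add, ← map_smul, ← map_smul]
    rfl

theorem der_apply (P : Subalgebra K (KK I K)) (f : P) :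
    der D P f = mk P (kadd (D : K →+ K) (f : KK I K)) := rfl

theorem bc_le (P : Subalgebra K (KK I K)) : bc (Std.epsDer D) P ≤ Pdel P (der D P) := by
  refine Algebra.adjoin_le ?_
  rintro _ ⟨f, hf, rfl⟩
  have h1 : kmap (eps0 K) (kmap (Std.epsDer D) f) ∈ P := by
    rw [eps0_eps]
    exact hf
  refine ⟨h1, ?_⟩
  rw [der_apply, ksnd_eps]
  exact congrArg (fun x => mk P (kadd (D : K →+ K) x)) (eps0_eps D f)

end PDD

/-- PDD: derivations of the base field. -/
theorem t_PDD (hPDK : Stmt_PDK) : Stmt_PDD := by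
  have hKBC : Stmt_KBC := t_KBC (t_KFO t_KDU) t_KNZ (t_KSP t_KNZ)
  intro I K _ _ _ _ g P hP D
  refine ⟨PDD.der D P, fun f => rfl, ?_⟩
  exact t_KEQ (hKBC.2.2.2 hP (Std.epsDer D)).1 (hPDK hP (PDD.der D P)).1 (PDD.bc_le D P)

end Pool.Agent.MG.KX
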