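import Pool.Agent.MG.KX.StmtsC
import Pool.Agent.MG.KX.KNS
import Pool.Agent.MG.KX.KBP
import Pool.Agent.MG.KX.PDD
import Pool.Agent.MG.G0.SBC
import Pool.Agent.MG.G0.SDB
import Pool.Agent.MG.G0.LOC
import Pool.Agent.MG.G0.KBT
import Pool.Agent.MG.G0.SCO
import Pool.Agent.MG.G0.SKK
import Mathlib.RingTheory.Etale.Kaehler
import Mathlib.RingTheory.Etale.Field

/-!
# GNP: generic points

The marked points are added one after the other: over the algebraic closure `M` of the fraction
field of `Q` there is the tautological point of the base change of `Q`. Genericity is proved in the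
form `GnrV` (a vector field `θ₀` and tangent vectors at the marked points): the pairs `(θ₀, v)` for
the old points form a vector space which is spanned by pairs over `L`, and the derivation of `M` is
found by extending a derivation `Q → M`, which takes care of the new point.
-/

open CategoryTheory CategoryTheory.Limits AlgebraicGeometry
open scoped TensorProduct

namespace Pool.Agent.MG.KX

open Pool.Agent.MG.G0 Pool.Agent.MG.GLU

namespace GNP

/-- Extension of a derivation along a formally etale algebra. -/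
theorem ext_der {S T : Type} [CommRing S] [Algebra ℂ S] [Field T] [Algebra ℂ T] [Algebra S T]
    [IsScalarTower ℂ S T] [Algebra.FormallyEtale S T] (d : Derivation ℂ S T) :
    ∃ D : Derivation ℂ T T, ∀ s, D (algebraMap S T s) = d s := by
  let e := KaehlerDifferential.tensorKaehlerEquivOfFormallyEtale ℂ S T
  let l : T ⊗[S] Ω[S⁄ℂ] →ₗ[T] T := LinearMap.liftBaseChange T d.liftKaehlerDifferential
  refine ⟨(l.comp e.symm.toLinearMap).compDer (KaehlerDifferential.D ℂ T), fun s => ?_⟩
  change l (e.symm (KaehlerDifferential.D ℂ T (algebraMap S T s))) = d s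
  rw [KaehlerDifferential.tensorKaehlerEquivOfFormallyEtale_symm_D_algebraMap]
  change LinearMap.liftBaseChange T d.liftKaehlerDifferential (1 ⊗ₜ KaehlerDifferential.D ℂ S s) = d s
  rw [LinearMap.liftBaseChange_tmul, one_smul, Derivation.liftKaehlerDifferential_comp_D]

/-- An algebraically closed field containing the domain `S`, with extensions of derivations. -/
theorem exists_ext {L S : Type} [Field L] [Algebra ℂ L] [CommRing S] [IsDomain S] [Algebra L S] :
    ∃ (M : Type) (_ : Field M) (_ : IsAlgClosed M) (_ : Algebra ℂ M) (ψ : L →ₐ[ℂ] M) (ι : S →+* M),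
      Function.Injective ι ∧ (∀ c, ι (algebraMap L S c) = ψ c) ∧
      ∀ d : S → M, (∀ f g, d (f + g) = d f + d g) → (∀ f g, d (f * g) = ι f * d g + ι g * d f) →
        (∀ c : ℂ, d (algebraMap L S (algebraMap ℂ L c)) = 0) →
        ∃ D : Derivation ℂ M M, ∀ s, D (ι s) = d s := by
  let _ : Algebra ℂ S := ((algebraMap L S).comp (algebraMap ℂ L)).toAlgebra
  let F := FractionRing S
  let M := AlgebraicClosure F
  have : CharZero F := charZero_of_injective_algebraMap (algebraMap ℂ F).injective
  have h1 : Algebra.FormallyEtale S F := Algebra.FormallyEtale.of_isLocalization (nonZeroDivisors S)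
  have h2 : Algebra.FormallyEtale F M := Algebra.FormallyEtale.of_isSeparable F M
  have h3 : Algebra.FormallyEtale S M := Algebra.FormallyEtale.comp S F M
  have h4 : Function.Injective (algebraMap S M) := by
    rw [IsScalarTower.algebraMap_eq S F M]
    exact (algebraMap F M).injective.comp (IsFractionRing.injective S F)
  let ψ : L →ₐ[ℂ] M :=
    { (algebraMap S M).comp (algebraMap L S) with
      commutes' := fun c => by
        change algebraMap S M (algebraMap ℂ S c) = algebraMap ℂ M c
        rw [← IsScalarTower.algebraMap_apply] }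
  refine ⟨M, inferInstance, inferInstance, inferInstance, ψ, algebraMap S M, h4, fun c => rfl, ?_⟩
  intro d ha hm hc
  let d' : Derivation ℂ S M := Derivation.mk'
    { toFun := d
      map_add' := ha
      map_smul' := fun c f => by
        rw [Algebra.smul_def, hm]
        change _ + _ * d (algebraMap L S (algebraMap ℂ L c)) = _
        rw [hc, mul_zero, add_zero, ← IsScalarTower.algebraMap_apply, RingHom.id_apply,
          Algebra.smul_def] }
    (fun f g => by
      change d (f * g) = f • d g + g • d f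
      rw [hm, Algebra.smul_def, Algebra.smul_def])
  exact ext_der d'


/-- Derivations over a homomorphism. -/
structure IsDr {K P B : Type} [CommRing K] [CommRing P] [CommRing B] [Algebra K P] (p : P →+* B)
    (v : P → B) : Prop where
  add : ∀ f g, v (f + g) = v f + v g
  mul : ∀ f g, v (f * g) = p f * v g + p g * v f
  cst : ∀ c : K, v (algebraMap K P c) = 0

section dr

variable {K P B : Type} [CommRing K] [CommRing P] [CommRing B] [Algebra K P] {p : P →+* B}

theorem IsDr.zero : IsDr (K := K) p (fun _ => 0) :=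
  ⟨fun _ _ => (add_zero 0).symm, fun _ _ => by rw [mul_zero, mul_zero, add_zero], fun _ => rfl⟩

theorem IsDr.sub {v : P → B} (h : IsDr (K := K) p v) (f g : P) : v (f - g) = v f - v g := by
  have h1 := h.add (f - g) g
  rw [sub_add_cancel] at h1
  rw [h1, add_sub_cancel_right]

/-- A derivation vanishes on the square of the ideal. -/
theorem IsDr.sq {v : P → B} (h : IsDr (K := K) p v) {m : Ideal P} (hm : ∀ f ∈ m, p f = 0)
    {f : P} (hf : f ∈ m ^ 2) : v f = 0 := by
  have hz : v 0 = 0 := by
    have h1 := h.add 0 0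
    rw [add_zero] at h1
    exact left_eq_add.1 h1
  rw [pow_two] at hf
  refine Submodule.mul_induction_on hf ?_ ?_
  · intro a ha b hb
    rw [h.mul, hm a ha, hm b hb, zero_mul, zero_mul, add_zero]
  · intro a b ha hb
    rw [h.add, ha, hb, add_zero]

end dr

/-- Tangent vectors at a point of a curve, with values in an extension, are multiples of tangent
vectors over the field. -/
theorem one_dim {L M P : Type} [Field L] [Field M] [CommRing P] [Algebra L P] [Algebra L M]
    (p : P →ₐ[L] L)
    (hsm : ∃ t ∈ RingHom.ker p, ∀ f ∈ RingHom.ker p, ∃ c : L, f - c • t ∈ RingHom.ker p ^ 2)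
    {v : P → M} (hv : IsDr (K := L) ((algebraMap L M).comp (p : P →+* L)) v) :
    ∃ (c : M) (w : P → L), IsDr (K := L) (p : P →+* L) w ∧ ∀ f, v f = c * algebraMap L M (w f) := by
  obtain ⟨t, ht, h⟩ := hsm
  have hk : ∀ f ∈ RingHom.ker p, ((algebraMap L M).comp (p : P →+* L)) f = 0 := by
    intro f hf
    change algebraMap L M (p f) = 0
    rw [RingHom.mem_ker.1 hf, map_zero]
  have hsub : ∀ f, f - algebraMap L P (p f) ∈ RingHom.ker p := fun f => KNSx.sub_mem p f
  choose c hc using fun f => h _ (hsub f)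
  have key : ∀ f, v f = v t * algebraMap L M (c f) := by
    intro f
    have h1 := hv.sq hk (hc f)
    rw [hv.sub, hv.sub, hv.cst, sub_zero, Algebra.smul_def, hv.mul, hv.cst, mul_zero, add_zero,
      sub_eq_zero] at h1
    rw [h1]
    change algebraMap L M (p (algebraMap L P (c f))) * v t = _
    rw [AlgHom.commutes, mul_comm]
    rfl
  by_cases h0 : v t = 0
  · refine ⟨0, fun _ => 0, IsDr.zero, fun f => ?_⟩
    rw [key, h0, zero_mul, zero_mul]
  · refine ⟨v t, c, ⟨fun f g => ?_, fun f g => ?_, fun a => ?_⟩, key⟩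
    · apply (algebraMap L M).injective
      apply mul_left_cancel₀ h0
      rw [← key, hv.add, map_add, mul_add, ← key, ← key]
    · apply (algebraMap L M).injective
      apply mul_left_cancel₀ h0
      rw [← key, hv.mul, map_add, map_mul, map_mul, key f, key g]
      change algebraMap L M (p f) * _ + algebraMap L M (p g) * _ =
        v t * (algebraMap L M (p f) * _ + algebraMap L M (p g) * _)
      ring
    · apply (algebraMap L M).injective
      apply mul_left_cancel₀ h0
      rw [← key, hv.cst, map_zero, mul_zero]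


section kad

variable {I L M : Type} [Field L] [Field M] [Algebra ℂ L] [Algebra ℂ M] [Algebra L M]
  (D : Derivation ℂ L M)

/-- The homomorphism to the dual numbers given by a derivation. -/
noncomputable def rho : L →+* Eps M where
  toFun c := TrivSqZeroExt.inl (algebraMap L M c) + TrivSqZeroExt.inr (D c)
  map_one' := by
    rw [map_one, Derivation.map_one_eq_zero, TrivSqZeroExt.inr_zero, add_zero]
    rfl
  map_zero' := by
    rw [map_zero, map_zero, TrivSqZeroExt.inr_zero, add_zero]
    rfl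
  map_add' a b := by
    rw [map_add, map_add, TrivSqZeroExt.inl_add, TrivSqZeroExt.inr_add]
    ring
  map_mul' a b := by
    refine TrivSqZeroExt.ext ?_ ?_
    · change algebraMap L M (a * b) + 0 = (algebraMap L M a + 0) * (algebraMap L M b + 0)
      rw [map_mul, add_zero, add_zero, add_zero]
    · change (0 : M) + D (a * b) = (algebraMap L M a + 0) * (0 + D b) +
        (0 + D a) * (algebraMap L M b + 0)
      rw [Derivation.leibniz, Algebra.smul_def, Algebra.smul_def]
      ring

/-- The coefficientwise application of a derivation. -/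
noncomputable def kd (f : KK I L) : KK I M := fun i => HahnSeries.map (f i) (D : L →+ M)

theorem eps0_rho (f : KK I L) : kmap (eps0 M) (kmap (rho D) f) = kmap (algebraMap L M) f := by
  funext i
  ext n
  change eps0 M (rho D ((f i).coeff n)) = algebraMap L M ((f i).coeff n)
  simp [rho]

theorem ksnd_rho (f : KK I L) : ksnd (kmap (rho D) f) = kd D f := by
  funext i
  ext n
  change (rho D ((f i).coeff n)).snd = D ((f i).coeff n)
  simp [rho]

theorem kd_add (f h : KK I L) : kd D (f + h) = kd D f + kd D h := by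
  rw [← ksnd_rho, map_add, ksnd_add, ksnd_rho, ksnd_rho]

theorem kd_mul (f h : KK I L) : kd D (f * h) =
    kmap (algebraMap L M) f * kd D h + kmap (algebraMap L M) h * kd D f := by
  rw [← ksnd_rho, map_mul, ksnd_mul, ksnd_rho, ksnd_rho, eps0_rho, eps0_rho]

theorem kd_algebraMap (c : L) :
    kd D (algebraMap L (KK I L) c) = algebraMap M (KK I M) (D c) := by
  rw [← ksnd_rho, kmap_algebraMap, ksnd_algebraMap]
  simp [rho]

/-- A derivation of `M` which extends `D`. -/
theorem kadd_kmap (E : Derivation ℂ M M) (h : ∀ c, E (algebraMap L M c) = D c) (f : KK I L) :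
    kadd (E : M →+ M) (kmap (algebraMap L M) f) = kd D f := by
  funext i
  ext n
  exact h _

end kad

/-- Genericity in terms of vector fields and tangent vectors. -/
def GnrV {I K : Type} [Field K] [Algebra ℂ K] {n : ℕ} (P : Subalgebra K (KK I K))
    (p : Fin n → (P →ₐ[K] K)) : Prop :=
  ∀ (θ₀ : KK I K) (v : Fin n → P → K), (∀ i, IsDr (K := K) (p i : P →+* K) (v i)) →
    ∃ (D : Derivation ℂ K K) (θ : KK I K), θ ∈ Pol I K 0 ∧ ∀ f : P, ∃ h : P,
      (h : KK I K) = θ₀ * dd (f : KK I K) - kadd (D : K →+ K) (f : KK I K) -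
        θ * dd (f : KK I K) ∧ ∀ i, v i f = D (p i f) + p i h

/-- The pair `(θ₀ - θ, v)` at `f` is given by the derivation `E`. -/
def Pr {I K : Type} [Field K] [Algebra ℂ K] {n : ℕ} {P : Subalgebra K (KK I K)}
    (y : Fin n → (P →ₐ[K] K)) (θ₀ θ : KK I K) (v : Fin n → P → K) (E : Derivation ℂ K K)
    (f : P) : Prop :=
  ∃ h : P, (h : KK I K) = θ₀ * dd (f : KK I K) - kadd (E : K →+ K) (f : KK I K) -
    θ * dd (f : KK I K) ∧ ∀ i, v i f = E (y i f) + y i h

section pr

variable {I K : Type} [Field K] [Algebra ℂ K] {n : ℕ} {P : Subalgebra K (KK I K)}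
  {y : Fin n → (P →ₐ[K] K)} {θ₀ θ : KK I K} {v : Fin n → P → K} {E : Derivation ℂ K K}

theorem Pr.add (hv : ∀ i, IsDr (K := K) (y i : P →+* K) (v i)) {f g : P}
    (hf : Pr y θ₀ θ v E f) (hg : Pr y θ₀ θ v E g) : Pr y θ₀ θ v E (f + g) := by
  obtain ⟨a, ha, ha'⟩ := hf
  obtain ⟨b, hb, hb'⟩ := hg
  refine ⟨a + b, ?_, fun i => ?_⟩
  · change (a : KK I K) + (b : KK I K) = θ₀ * dd ((f : KK I K) + (g : KK I K)) -
      kadd (E : K →+ K) ((f : KK I K) + (g : KK I K)) - θ * dd ((f : KK I K) + (g : KK I K))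
    rw [ha, hb, dd_add, PDD.kadd_add]
    ring
  · rw [(hv i).add, ha', hb', map_add, map_add, map_add]
    ring

theorem Pr.smul (hv : ∀ i, IsDr (K := K) (y i : P →+* K) (v i)) (c : K) {f : P}
    (hf : Pr y θ₀ θ v E f) : Pr y θ₀ θ v E (c • f) := by
  obtain ⟨a, ha, ha'⟩ := hf
  refine ⟨c • a - E c • f, ?_, fun i => ?_⟩
  · change c • (a : KK I K) - E c • (f : KK I K) = θ₀ * dd (c • (f : KK I K)) -
      kadd (E : K →+ K) (c • (f : KK I K)) - θ * dd (c • (f : KK I K))
    rw [ha, dd_smul, PDD.kadd_smul, mul_smul_comm, mul_smul_comm, smul_sub, smul_sub]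
    abel
  · have h1 : v i (c • f) = c * v i f := by
      rw [Algebra.smul_def, (hv i).mul, (hv i).cst, mul_zero, add_zero]
      change y i (algebraMap K P c) * _ = _
      rw [AlgHom.commutes]
      rfl
    rw [h1, ha', map_sub, map_smul (y i) c f, map_smul (y i) c a, map_smul (y i) (E c) f,
      smul_eq_mul, smul_eq_mul, smul_eq_mul, Derivation.leibniz, smul_eq_mul, smul_eq_mul]
    ring

end pr

section step

variable {I L M : Type} [Fintype I] [Field L] [Field M] [Algebra ℂ L] [Algebra ℂ M]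
  [Algebra L M] [IsScalarTower ℂ L M] {Q : Subalgebra L (KK I L)} {n : ℕ}
  (p : Fin n → (Q →ₐ[L] L)) (p' : Fin n → (bc (algebraMap L M) Q →ₐ[M] M))

/-- The pairs which come from derivations of `L` with values in `M`. -/
def TL (θ₀ : KK I M) (v : Fin n → Q → M) : Prop :=
  ∃ (D : Derivation ℂ L M) (θ : KK I M), θ ∈ Pol I M 0 ∧ ∀ f : Q,
    ∃ h : bc (algebraMap L M) Q, (h : KK I M) =
      θ₀ * dd (kmap (algebraMap L M) (f : KK I L)) - kd D (f : KK I L) -
        θ * dd (kmap (algebraMap L M) (f : KK I L)) ∧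
      ∀ i, v i f = D (p i f) + p' i h

variable {p p'}

omit [Fintype I] [IsScalarTower ℂ L M] in
theorem TL.add {θ₁ θ₂ : KK I M} {v₁ v₂ : Fin n → Q → M} (h₁ : TL p p' θ₁ v₁)
    (h₂ : TL p p' θ₂ v₂) : TL p p' (θ₁ + θ₂) (fun i f => v₁ i f + v₂ i f) := by
  obtain ⟨D₁, η₁, hη₁, h₁⟩ := h₁
  obtain ⟨D₂, η₂, hη₂, h₂⟩ := h₂
  refine ⟨D₁ + D₂, η₁ + η₂, add_mem hη₁ hη₂, fun f => ?_⟩
  obtain ⟨a, ha, ha'⟩ := h₁ f
  obtain ⟨b, hb, hb'⟩ := h₂ f
  refine ⟨a + b, ?_, fun i => ?_⟩
  · have e : kd (D₁ + D₂) (f : KK I L) = kd D₁ (f : KK I L) + kd D₂ (f : KK I L) := by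
      funext i
      ext m
      rfl
    rw [e]
    change (a : KK I M) + (b : KK I M) = _
    rw [ha, hb]
    ring
  · change v₁ i f + v₂ i f = _
    rw [ha', hb', map_add, Derivation.add_apply]
    ring

omit [Fintype I] [IsScalarTower ℂ L M] in
theorem TL.smul {θ₁ : KK I M} {v₁ : Fin n → Q → M} (c : M) (h₁ : TL p p' θ₁ v₁) :
    TL p p' (c • θ₁) (fun i f => c * v₁ i f) := by
  obtain ⟨D₁, η₁, hη₁, h₁⟩ := h₁
  refine ⟨c • D₁, c • η₁, (Pol I M 0).smul_mem c hη₁, fun f => ?_⟩
  obtain ⟨a, ha, ha'⟩ := h₁ f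
  refine ⟨c • a, ?_, fun i => ?_⟩
  · have e : kd (c • D₁) (f : KK I L) = c • kd D₁ (f : KK I L) := by
      funext i
      ext m
      rfl
    rw [e]
    change c • (a : KK I M) = _
    rw [ha, smul_mul_assoc, smul_mul_assoc, smul_sub, smul_sub]
  · change c * v₁ i f = _
    rw [ha', map_smul, Derivation.smul_apply, smul_eq_mul, smul_eq_mul]
    ring

omit [Fintype I] in
theorem TL.base (hG : GnrV Q p) (hp : BcP (algebraMap L M) p p') (θ₀ : KK I L)
    (v : Fin n → Q → L) (hv : ∀ i, IsDr (K := L) (p i : Q →+* L) (v i)) :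
    TL p p' (kmap (algebraMap L M) θ₀) (fun i f => algebraMap L M (v i f)) := by
  obtain ⟨D, θ, hθ, h⟩ := hG θ₀ v hv
  refine ⟨(Algebra.linearMap L M).compDer D, kmap (algebraMap L M) θ, kmap_mem_Pol _ hθ,
    fun f => ?_⟩
  obtain ⟨a, ha, ha'⟩ := h f
  refine ⟨bcMap _ Q a, ?_, fun i => ?_⟩
  · have e : kd ((Algebra.linearMap L M).compDer D) (f : KK I L) =
        kmap (algebraMap L M) (kadd (D : L →+ L) (f : KK I L)) := by
      funext i
      ext m
      rfl
    rw [bcMap_val, ha, e, map_sub, map_sub, map_mul, map_mul, kmap_dd]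
  · change algebraMap L M (v i f) = _
    rw [ha', map_add, hp i a (bcMap _ Q a) rfl]
    rfl

omit [Fintype I] [IsScalarTower ℂ L M] in
theorem TL.pol {θ₀ : KK I M} (hθ₀ : θ₀ ∈ Pol I M 0) : TL p p' θ₀ (fun _ _ => 0) := by
  refine ⟨0, θ₀, hθ₀, fun f => ⟨0, ?_, fun i => ?_⟩⟩
  · have e : kd (0 : Derivation ℂ L M) (f : KK I L) = 0 := by
      funext i
      ext m
      rfl
    rw [e, sub_zero, sub_self]
    rfl
  · rw [map_zero, Derivation.zero_apply, add_zero]

omit [Fintype I] [IsScalarTower ℂ L M] in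
theorem TL.sum {ι : Type} (s : Finset ι) (θ : ι → KK I M) (v : ι → Fin n → Q → M)
    (h : ∀ k ∈ s, TL p p' (θ k) (v k)) :
    TL p p' (∑ k ∈ s, θ k) (fun i f => ∑ k ∈ s, v k i f) := by
  classical
  induction s using Finset.induction_on with
  | empty =>
    have h0 := TL.pol (p := p) (p' := p') (zero_mem (Pol I M 0))
    simpa using h0
  | insert a s ha ih =>
    have h1 := (h a (Finset.mem_insert_self a s)).add
      (ih fun k hk => h k (Finset.mem_insert_of_mem hk))
    rw [Finset.sum_insert ha]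
    have e : (fun (i : Fin n) (f : Q) => ∑ k ∈ insert a s, v k i f) =
        fun i f => v a i f + ∑ k ∈ s, v k i f := by
      funext i f
      rw [Finset.sum_insert ha]
    rw [e]
    exact h1

/-- All pairs come from derivations. -/
theorem TL.all (hG : GnrV Q p) (hp : BcP (algebraMap L M) p p')
    (hsm : ∀ i, ∃ t ∈ RingHom.ker (p i), ∀ f ∈ RingHom.ker (p i), ∃ c : L,
      f - c • t ∈ RingHom.ker (p i) ^ 2) (θ₀ : KK I M) (v : Fin n → Q → M)
    (hv : ∀ i, IsDr (K := L) ((algebraMap L M).comp (p i : Q →+* L)) (v i)) :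
    TL p p' θ₀ v := by
  classical
  have hmon : ∀ (i : I) (m : ℤ) (a : M), TL p p' (mon i m a) (fun _ _ => 0) := by
    intro i m a
    have h1 := (TL.base hG hp (mon i m 1) (fun _ _ => 0) (fun _ => IsDr.zero)).smul a
    have e : a • kmap (algebraMap L M) (mon i m 1) = mon i m a := by
      rw [kmap_mon, map_one, smul_mon, mul_one]
    rw [e] at h1
    simpa using h1
  have h1 : TL p p' θ₀ (fun _ _ => 0) := by
    obtain ⟨N, hN⟩ := exists_Pol θ₀
    have h2 := TL.pol (p := p) (p' := p') (by simpa using sub_mon_mem_Pol hN 0)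
    have h3 := TL.sum (p := p) (p' := p') (Finset.univ : Finset I) _ _ (fun i _ =>
      TL.sum (Finset.Ico (-(N : ℤ)) 0) (fun m => mon i m ((θ₀ i).coeff m)) (fun _ _ _ => 0)
        (fun m _ => hmon i m _))
    have h4 := h2.add h3
    rw [sub_add_cancel] at h4
    simpa using h4
  have h2 : TL p p' 0 v := by
    have h3 : ∀ j : Fin n, TL p p' 0 (fun i f => if i = j then v i f else 0) := by
      intro j
      obtain ⟨c, w, hw, hc⟩ := one_dim (p j) (hsm j) (hv j)
      have h4 := (TL.base hG hp 0 (fun i => if i = j then w else fun _ => 0) (fun i => by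
        by_cases hij : i = j
        · subst hij
          rw [if_pos rfl]
          exact hw
        · rw [if_neg hij]
          exact IsDr.zero)).smul c
      have e : (fun (i : Fin n) (f : Q) => c * algebraMap L M
          ((if i = j then w else fun _ => 0) f)) = fun i f => if i = j then v i f else 0 := by
        funext i f
        by_cases hij : i = j
        · subst hij
          rw [if_pos rfl, if_pos rfl, hc]
        · rw [if_neg hij, if_neg hij, map_zero, mul_zero]
      rw [e, map_zero, smul_zero] at h4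
      exact h4
    have h4 := TL.sum (p := p) (p' := p') (Finset.univ : Finset (Fin n)) (fun _ => 0) _
      (fun j _ => h3 j)
    simpa using h4
  have h3 := h1.add h2
  simpa using h3

/-- The step: one more marked point, the generic one. -/
theorem main (hKBC : Stmt_KBC) (hG : GnrV Q p) (hp : BcP (algebraMap L M) p p')
    (hsm : ∀ i, ∃ t ∈ RingHom.ker (p i), ∀ f ∈ RingHom.ker (p i), ∃ c : L,
      f - c • t ∈ RingHom.ker (p i) ^ 2) (x : bc (algebraMap L M) Q →ₐ[M] M) (ι : Q →+* M)
    (hι : ∀ c, ι (algebraMap L Q c) = algebraMap L M c)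
    (hx : ∀ f : Q, x (bcMap (algebraMap L M) Q f) = ι f)
    (hext : ∀ d : Q → M, (∀ f g, d (f + g) = d f + d g) →
      (∀ f g, d (f * g) = ι f * d g + ι g * d f) →
      (∀ c : ℂ, d (algebraMap L Q (algebraMap ℂ L c)) = 0) →
      ∃ D : Derivation ℂ M M, ∀ s, D (ι s) = d s)
    (y : Fin (n + 1) → (bc (algebraMap L M) Q →ₐ[M] M)) (hy0 : y 0 = x)
    (hys : ∀ i : Fin n, y i.succ = p' i) : GnrV (bc (algebraMap L M) Q) y := by
  intro θ₀ v hv
  have hcst : ∀ c : L, bcMap (algebraMap L M) Q (algebraMap L Q c) =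
      algebraMap M (bc (algebraMap L M) Q) (algebraMap L M c) := fun c =>
    Subtype.ext (kmap_algebraMap _ c)
  have hdr : ∀ (i : Fin n), IsDr (K := L) ((algebraMap L M).comp (p i : Q →+* L))
      (fun f => v i.succ (bcMap (algebraMap L M) Q f)) := by
    intro i
    have h1 := hv i.succ
    rw [hys] at h1
    refine ⟨fun f g => ?_, fun f g => ?_, fun c => ?_⟩
    · change v i.succ (bcMap (algebraMap L M) Q (f + g)) = _
      rw [map_add, h1.add]
    · change v i.succ (bcMap (algebraMap L M) Q (f * g)) = _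
      rw [map_mul, h1.mul]
      change p' i _ * _ + p' i _ * _ = _
      rw [KBP.app hp, KBP.app hp]
      rfl
    · change v i.succ (bcMap (algebraMap L M) Q (algebraMap L Q c)) = _
      rw [hcst, h1.cst]
  obtain ⟨D, θ, hθ, h⟩ := TL.all hG hp hsm θ₀ _ hdr
  choose h hh hh' using h
  have hv0 := hv 0
  rw [hy0] at hv0
  have hadd : ∀ f g, h (f + g) = h f + h g := by
    intro f g
    apply Subtype.ext
    change (h (f + g) : KK I M) = (h f : KK I M) + (h g : KK I M)
    rw [hh, hh, hh]
    change θ₀ * dd (kmap _ ((f : KK I L) + (g : KK I L))) - kd D ((f : KK I L) + (g : KK I L)) -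
      θ * dd (kmap _ ((f : KK I L) + (g : KK I L))) = _
    rw [map_add, dd_add, kd_add]
    ring
  have hmul : ∀ f g, h (f * g) = bcMap (algebraMap L M) Q f * h g +
      bcMap (algebraMap L M) Q g * h f := by
    intro f g
    apply Subtype.ext
    change (h (f * g) : KK I M) = kmap (algebraMap L M) (f : KK I L) * (h g : KK I M) +
      kmap (algebraMap L M) (g : KK I L) * (h f : KK I M)
    rw [hh, hh, hh]
    change θ₀ * dd (kmap _ ((f : KK I L) * (g : KK I L))) - kd D ((f : KK I L) * (g : KK I L)) -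
      θ * dd (kmap _ ((f : KK I L) * (g : KK I L))) = _
    rw [map_mul, dd_mul, kd_mul]
    ring
  have hcs : ∀ c : L, h (algebraMap L Q c) = - algebraMap M (bc (algebraMap L M) Q) (D c) := by
    intro c
    apply Subtype.ext
    change (h (algebraMap L Q c) : KK I M) = - algebraMap M (KK I M) (D c)
    rw [hh]
    change θ₀ * dd (kmap _ (algebraMap L (KK I L) c)) - kd D (algebraMap L (KK I L) c) -
      θ * dd (kmap _ (algebraMap L (KK I L) c)) = _
    rw [kmap_algebraMap, dd_algebraMap, kd_algebraMap]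
    ring
  have hdc : ∀ c : L, v 0 (bcMap (algebraMap L M) Q (algebraMap L Q c)) -
      x (h (algebraMap L Q c)) = D c := by
    intro c
    rw [hcst, hv0.cst, hcs, map_neg, AlgHom.commutes, zero_sub, neg_neg]
    rfl
  obtain ⟨E, hE⟩ := hext (fun f => v 0 (bcMap (algebraMap L M) Q f) - x (h f))
    (fun f g => by
      rw [hadd, map_add, map_add, hv0.add]
      ring)
    (fun f g => by
      rw [hmul, map_mul, map_add, map_mul, map_mul, hv0.mul]
      change x _ * _ + x _ * _ - _ = _
      rw [hx, hx]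
      ring)
    (fun c => by
      rw [hdc, Derivation.map_algebraMap])
  have hED : ∀ c : L, E (algebraMap L M c) = D c := by
    intro c
    rw [← hι, hE]
    exact hdc c
  refine ⟨E, θ, hθ, fun F => ?_⟩
  change Pr y θ₀ θ v E F
  refine AWB.bc_ind (algebraMap L M) hKBC (C := Pr y θ₀ θ v E) ?_
    (fun _ _ h₁ h₂ => h₁.add hv h₂) (fun c _ h₁ => h₁.smul hv c) F
  intro f
  refine ⟨h f, ?_, fun i => ?_⟩
  · rw [hh, bcMap_val, kadd_kmap D E hED]
  · refine Fin.cases ?_ (fun i => ?_) i
    · rw [hy0, hx, hE]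
      ring
    · rw [hys, KBP.app hp, hED]
      exact hh' f i

end step

section eps

variable {I K : Type} [Field K]

/-- The series `a + ε b`. -/
noncomputable def mkF (a b : KK I K) : KK I (Eps K) := fun i =>
  lmap (epsInl K) (a i) + epsL K * lmap (epsInl K) (b i)

theorem eps0_mkF (a b : KK I K) : kmap (eps0 K) (mkF a b) = a := by
  funext i
  ext m
  change eps0 K ((lmap (epsInl K) (a i) + epsL K * lmap (epsInl K) (b i)).coeff m) = _
  rw [HahnSeries.coeff_add, coeff_epsL_mul]
  simp [epsInl, epsE]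

theorem ksnd_mkF (a b : KK I K) : ksnd (mkF a b) = b := funext fun i => lsnd_inl (a i) (b i)

theorem ext_eps {F G : KK I (Eps K)} (h0 : kmap (eps0 K) F = kmap (eps0 K) G)
    (h1 : ksnd F = ksnd G) : F = G := by
  funext i
  have h2 : lmap (eps0 K) (F i) = lmap (eps0 K) (G i) := congrFun h0 i
  have h3 : lsnd (F i) = lsnd (G i) := congrFun h1 i
  rw [ls_eq (F i), ls_eq (G i), h2, h3]

end eps

/-- Genericity in terms of deformations. -/
theorem toM {I K : Type} [Fintype I] [Field K] [Algebra ℂ K] {g n : ℕ}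
    {P : Subalgebra K (KK I K)} {p : Fin n → (P →ₐ[K] K)} (hP : IsKr g P) (hS : SmC K P)
    (hV : GnrV P p) : GnrM P p := by
  intro δ q hq
  obtain ⟨E', hE'⟩ := (t_SCO.2 hS).2.2 (KK I K) (MM P) (mk P) (mk_surj P) δ
  obtain ⟨θ₀, hθ₀, -⟩ := (t_SKK t_KNZ t_SCO hP).2 hS E'
  have hδ : ∀ f : P, δ f = mk P (θ₀ * dd (f : KK I K)) := by
    intro f
    rw [← hE' f, hθ₀]
  have hmem : ∀ f : P, mkF (f : KK I K) (θ₀ * dd (f : KK I K)) ∈ Pdel P δ := by
    intro f
    have h1 : kmap (eps0 K) (mkF (f : KK I K) (θ₀ * dd (f : KK I K))) ∈ P := by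
      rw [eps0_mkF]
      exact f.2
    refine ⟨h1, ?_⟩
    have h2 : (⟨kmap (eps0 K) (mkF (f : KK I K) (θ₀ * dd (f : KK I K))), h1⟩ : P) = f :=
      Subtype.ext (eps0_mkF _ _)
    rw [h2, ksnd_mkF]
    exact hδ f
  let s : P → Pdel P δ := fun f => ⟨_, hmem f⟩
  have hs0 : ∀ f : P, kmap (eps0 K) (s f : KK I (Eps K)) = (f : KK I K) := fun f => eps0_mkF _ _
  have hs1 : ∀ f : P, ksnd (s f : KK I (Eps K)) = θ₀ * dd (f : KK I K) := fun f => ksnd_mkF _ _
  have hfst : ∀ i (f : P), (q i (s f)).fst = p i f := fun i f => hq i (s f) f (hs0 f).symm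
  have hsa : ∀ f g : P, s (f + g) = s f + s g := by
    intro f g
    apply Subtype.ext
    change (s (f + g) : KK I (Eps K)) = (s f : KK I (Eps K)) + (s g : KK I (Eps K))
    apply ext_eps
    · rw [map_add, hs0, hs0, hs0]
      rfl
    · rw [ksnd_add, hs1, hs1, hs1]
      change θ₀ * dd ((f : KK I K) + (g : KK I K)) = _
      rw [dd_add, mul_add]
  have hsm : ∀ f g : P, s (f * g) = s f * s g := by
    intro f g
    apply Subtype.ext
    change (s (f * g) : KK I (Eps K)) = (s f : KK I (Eps K)) * (s g : KK I (Eps K))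
    apply ext_eps
    · rw [map_mul, hs0, hs0, hs0]
      rfl
    · rw [ksnd_mul, hs1, hs1, hs1, hs0, hs0]
      change θ₀ * dd ((f : KK I K) * (g : KK I K)) = _
      rw [dd_mul]
      ring
  have hsc : ∀ c : K, s (algebraMap K P c) = algebraMap (Eps K) (Pdel P δ) (epsInl K c) := by
    intro c
    apply Subtype.ext
    change (s (algebraMap K P c) : KK I (Eps K)) =
      algebraMap (Eps K) (KK I (Eps K)) (epsInl K c)
    apply ext_eps
    · rw [hs0, kmap_algebraMap]
      rfl
    · rw [hs1, ksnd_algebraMap]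
      change θ₀ * dd (algebraMap K (KK I K) c) = algebraMap K (KK I K) 0
      rw [dd_algebraMap, mul_zero, map_zero]
  have hv : ∀ i, IsDr (K := K) (p i : P →+* K) (fun f => (q i (s f)).snd) := by
    intro i
    refine ⟨fun f g => ?_, fun f g => ?_, fun c => ?_⟩
    · change (q i (s (f + g))).snd = _
      rw [hsa, map_add, TrivSqZeroExt.snd_add]
    · change (q i (s (f * g))).snd = p i f * (q i (s g)).snd + p i g * (q i (s f)).snd
      rw [hsm, map_mul, ← hfst, ← hfst]
      change (q i (s f)).fst * (q i (s g)).snd + (q i (s f)).snd * (q i (s g)).fst = _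
      ring
    · change (q i (s (algebraMap K P c))).snd = 0
      rw [hsc, AlgHom.commutes]
      rfl
  obtain ⟨D, θ, hθ, h⟩ := hV θ₀ _ hv
  refine ⟨D, θ, hθ, fun f => ?_, fun i F f hF hFs => ?_⟩
  · obtain ⟨a, ha, -⟩ := h f
    rw [hδ, ← map_add, mk_eq]
    have h1 : θ₀ * dd (f : KK I K) - (kadd (D : K →+ K) (f : KK I K) + θ * dd (f : KK I K)) =
        (a : KK I K) := by
      rw [ha]
      ring
    rw [h1]
    exact a.2
  · obtain ⟨a, ha, ha'⟩ := h f
    have h1 : F + algebraMap (Eps K) (Pdel P δ) (epsE K) * s a = s f := by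
      apply Subtype.ext
      change (F : KK I (Eps K)) + algebraMap (Eps K) (KK I (Eps K)) (epsE K) *
        (s a : KK I (Eps K)) = (s f : KK I (Eps K))
      apply ext_eps
      · rw [map_add, map_mul, kmap_algebraMap, hs0, hs0, ← hF]
        have h2 : eps0 K (epsE K) = 0 := rfl
        rw [h2, map_zero, zero_mul, add_zero]
      · rw [ksnd_add, ksnd_mul, kmap_algebraMap, ksnd_algebraMap, hs0, hs1 a, hs1 f, hFs]
        have h2 : eps0 K (epsE K) = 0 := rfl
        have h3 : (epsE K).snd = 1 := rfl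
        rw [h2, h3, map_zero, map_one, zero_mul, zero_add, mul_one, ha]
        ring
    have h2 : (q i F).snd + p i a = (q i (s f)).snd := by
      rw [← h1, map_add, map_mul, AlgHom.commutes, TrivSqZeroExt.snd_add, ← hfst]
      congr 1
      change _ = (0 : K) * (q i (s a)).snd + 1 * (q i (s a)).fst
      rw [zero_mul, zero_add, one_mul]
    have h3 := ha' i
    change (q i (s f)).snd = _ at h3
    rw [← h2] at h3
    exact add_right_cancel h3

theorem hKBC : Stmt_KBC := t_KBC (t_KFO t_KDU) t_KNZ (t_KSP t_KNZ)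

theorem hKBT : Stmt_KBT := t_KBT (t_KSP t_KNZ) hKBC

section points

variable {I L M : Type} [Fintype I] [Nonempty I] [Field L] [Field M] [Algebra L M]
  {Q : Subalgebra L (KK I L)}

/-- A homomorphism from `Q` gives a point of the base change. -/
theorem exists_x {g : ℕ} (hQ : IsKr g Q) (ι : Q →+* M)
    (hι : ∀ c, ι (algebraMap L Q c) = algebraMap L M c) :
    ∃ x : bc (algebraMap L M) Q →ₐ[M] M, ∀ f : Q, x (bcMap (algebraMap L M) Q f) = ι f := by
  obtain ⟨-, e, he⟩ := hKBT (B := M) hQ
  let ι' : Q →ₐ[L] M := { ι with commutes' := hι }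
  refine ⟨(Algebra.TensorProduct.lift (AlgHom.id M M) ι' (fun _ _ => Commute.all _ _)).comp
    (e.symm : bc (algebraMap L M) Q →ₐ[M] M ⊗[L] Q), fun f => ?_⟩
  have h1 : e (1 ⊗ₜ f) = bcMap (algebraMap L M) Q f := by
    apply Subtype.ext
    rw [he, one_smul]
    rfl
  rw [AlgHom.comp_apply, ← h1]
  change (Algebra.TensorProduct.lift (AlgHom.id M M) ι' (fun _ _ => Commute.all _ _))
    (e.symm (e (1 ⊗ₜ f))) = _
  rw [AlgEquiv.symm_apply_apply, Algebra.TensorProduct.lift_tmul, map_one, one_mul]
  rfl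

/-- Base change of the type. -/
theorem typeS_bc {g : ℕ} (hQ : IsKr g Q) (hS : TypeS Q) : TypeS (bc (algebraMap L M) Q) := by
  refine ⟨?_, SDB.SmC_bc hKBT (t_SBC t_SCO t_LOC) hQ hS.2 _⟩
  obtain ⟨-, e, -⟩ := hKBT (B := M) hQ
  have h1 : Algebra.FormallySmooth L Q := hS.1
  exact Algebra.FormallySmooth.of_equiv e

end points

/-- Different points have comaximal ideals. -/
theorem sup_top {M R : Type} [Field M] [CommRing R] [Algebra M R] {a b : R →ₐ[M] M}
    (h : a ≠ b) : RingHom.ker a ⊔ RingHom.ker b = ⊤ := by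
  have hmax : ∀ c : R →ₐ[M] M, (RingHom.ker c).IsMaximal := fun c =>
    RingHom.ker_isMaximal_of_surjective c fun y => ⟨algebraMap M R y, by
      rw [AlgHom.commutes]
      rfl⟩
  have := hmax a
  have := hmax b
  refine Ideal.IsMaximal.coprime_of_ne (hmax a) (hmax b) fun hab => h ?_
  ext f
  have h1 : f - algebraMap M R (a f) ∈ RingHom.ker b := by
    rw [← hab]
    exact KNSx.sub_mem a f
  rw [RingHom.mem_ker, map_sub, AlgHom.commutes, sub_eq_zero] at h1
  exact h1.symm

/-- The step of the induction. -/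
theorem step {I L M : Type} [Fintype I] [Nonempty I] [Field L] [Field M] [Algebra ℂ L]
    [Algebra ℂ M] [Algebra L M] [IsScalarTower ℂ L M] {g : ℕ} {Q : Subalgebra L (KK I L)}
    (hQ : IsKr g Q) (hS : TypeS Q) {n : ℕ} {p : Fin n → (Q →ₐ[L] L)} (hm : Marks Q p)
    (hG : GnrV Q p) (ι : Q →+* M) (hinj : Function.Injective ι)
    (hι : ∀ c, ι (algebraMap L Q c) = algebraMap L M c)
    (hext : ∀ d : Q → M, (∀ f g, d (f + g) = d f + d g) →
      (∀ f g, d (f * g) = ι f * d g + ι g * d f) →
      (∀ c : ℂ, d (algebraMap L Q (algebraMap ℂ L c)) = 0) →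
      ∃ D : Derivation ℂ M M, ∀ s, D (ι s) = d s) :
    ∃ y : Fin (n + 1) → (bc (algebraMap L M) Q →ₐ[M] M), TypeS (bc (algebraMap L M) Q) ∧
      Marks (bc (algebraMap L M) Q) y ∧ GnrV (bc (algebraMap L M) Q) y := by
  obtain ⟨p', hp⟩ := (t_KBP hKBT hKBC).1 hQ (algebraMap L M) p
  obtain ⟨x, hx⟩ := exists_x hQ ι hι
  have hS' := typeS_bc (M := M) hQ hS
  have hne : ∀ j, x ≠ p' j := by
    intro j hj
    obtain ⟨⟨z⟩, -⟩ := t_PLE hQ
    have h1 : z.z = algebraMap L Q (p j z.z) := by
      apply hinj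
      rw [hι, ← KBP.app hp, ← hx, hj]
    let i : I := Classical.arbitrary I
    have h2 := z.mon.2 i
    have h3 : (z.z : KK I L) = algebraMap L (KK I L) (p j z.z) := congrArg Subtype.val h1
    have hd := z.pos
    rw [h3, Pi.algebraMap_apply, coeff_algebraMap, if_neg (by omega)] at h2
    exact zero_ne_one h2
  let y : Fin (n + 1) → (bc (algebraMap L M) Q →ₐ[M] M) := Fin.cons x p'
  have hy0 : y 0 = x := rfl
  have hys : ∀ i : Fin n, y i.succ = p' i := fun i => rfl
  refine ⟨y, hS', ⟨fun i j hij => ?_, fun i => KNSx.cot (y i) hS'.2⟩,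
    main hKBC hG hp hm.sm x ι hι hx hext y hy0 hys⟩
  refine sup_top ?_
  induction i using Fin.cases with
  | zero =>
    induction j using Fin.cases with
    | zero => exact absurd rfl hij
    | succ j =>
      rw [hy0, hys]
      exact hne j
  | succ i =>
    induction j using Fin.cases with
    | zero =>
      rw [hy0, hys]
      exact (hne i).symm
    | succ j =>
      rw [hys, hys]
      intro h1
      have h2 := KBP.dis hp hm i j (fun h => hij (congrArg Fin.succ h))
      rw [h1, sup_idem] at h2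
      exact RingHom.ker_ne_top _ h2

end GNP

open GNP in
/-- GNP: generic points. -/
theorem t_GNP (hKDM : Stmt_KDM) (_hGNB : Stmt_GNB) : Stmt_GNP := by
  intro I K _ _ _ _ _ g P hP hS hG n
  have key : ∀ n : ℕ, ∃ (L : Type) (_ : Field L) (_ : IsAlgClosed L) (_ : Algebra ℂ L)
      (φ : K →ₐ[ℂ] L) (p : Fin n → (bc (φ : K →+* L) P →ₐ[L] L)),
      TypeS (bc (φ : K →+* L) P) ∧ Marks (bc (φ : K →+* L) P) p ∧
        GnrV (bc (φ : K →+* L) P) p := by
    intro n
    induction n with
    | zero =>
      refine ⟨K, inferInstance, inferInstance, inferInstance, AlgHom.id ℂ K, ?_⟩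
      have e : bc ((AlgHom.id ℂ K : K →ₐ[ℂ] K) : K →+* K) P = P := hKBC.2.2.1 P
      rw [e]
      refine ⟨nop P, hS, ⟨fun i => i.elim0, fun i => i.elim0⟩, fun θ₀ v _ => ?_⟩
      obtain ⟨D, θ, hθ, h⟩ := hG (tder P θ₀)
      refine ⟨D, θ, hθ, fun f => ?_⟩
      have h1 := h f
      rw [tder_apply, ← map_add, mk_eq] at h1
      refine ⟨⟨_, h1⟩, ?_, fun i => i.elim0⟩
      change θ₀ * dd (f : KK I K) - (kadd (D : K →+ K) (f : KK I K) + θ * dd (f : KK I K)) = _
      ring
    | succ n ih =>
      obtain ⟨L, _, _, _, φ, p, h1, h2, h3⟩ := ih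
      have hQ : IsKr g (bc (φ : K →+* L) P) := (hKBC.2.2.2 hP _).1
      have hd : IsDomain (bc (φ : K →+* L) P) := (hKDM hQ h1).1
      obtain ⟨M, _, _, _, ψ, ι, hinj, hι, hext⟩ :=
        exists_ext (L := L) (S := bc (φ : K →+* L) P)
      let _ : Algebra L M := (ψ : L →+* M).toAlgebra
      have hst : IsScalarTower ℂ L M :=
        IsScalarTower.of_algebraMap_eq fun c => (ψ.commutes c).symm
      refine ⟨M, inferInstance, inferInstance, inferInstance, ψ.comp φ, ?_⟩
      have e : bc ((ψ.comp φ : K →ₐ[ℂ] M) : K →+* M) P =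
          bc (algebraMap L M) (bc (φ : K →+* L) P) := hKBC.2.1 _ _ P
      rw [e]
      exact step hQ h1 h2 h3 ι hinj hι hext
  obtain ⟨L, i1, i2, i3, φ, p, h1, h2, h3⟩ := key n
  exact ⟨L, i1, i2, i3, φ, p, h1, h2, toM (hKBC.2.2.2 hP _).1 h1.2 h3⟩

end Pool.Agent.MG.KX
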