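import Pool.Agent.MG.KX.StmtsK

/-!
# KAR: base change of the curve of a Krichever ring
-/

open CategoryTheory CategoryTheory.Limits AlgebraicGeometry TensorProduct

namespace Pool.Agent.MG.KX

open Pool.Agent.MG.G0 Pool.Agent.MG.GLU

namespace KAR_

/-- Homomorphisms of duos are compatible with sections in the first chart. -/
theorem sec_of {A B : Type} [CommRing A] [CommRing B] {φ : A →+* B} {D : Duo A} {E : Duo B}
    (h : Duo.Hom φ D E) (s : D.R1 →ₐ[A] A) (s' : E.R1 →ₐ[B] B)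
    (hs : ∀ f, s' (h.f1 f) = φ (s f)) :
    (spMap (s' : E.R1 →+* B) ≫ E.in1) ≫ h.map =
      spMap φ ≫ spMap (s : D.R1 →+* A) ≫ D.in1 := by
  have e3 : (s' : E.R1 →+* B).comp h.f1 = φ.comp (s : D.R1 →+* A) := RingHom.ext hs
  rw [Category.assoc, h.in1_map, ← Category.assoc, ← Category.assoc, spMap_comp'',
    spMap_comp'', e3]

/-- The arrow of a cartesian homomorphism of duos. -/
noncomputable def arrow_of {A B : Type} [CommRing A] [CommRing B] {φ : A →+* B} {D : Duo A}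
    {E : Duo B} (h : Duo.Hom φ D E) {n : ℕ} (s : Fin n → (D.R1 →ₐ[A] A))
    (s' : Fin n → (E.R1 →ₐ[B] B)) (hs : ∀ i f, s' i (h.f1 f) = φ (s i f))
    (hc : IsPullback h.map E.pr D.pr (spMap φ)) : Arrow φ (E.fam s') (D.fam s) where
  f := h.map
  cart := hc
  sec i := sec_of h (s i) (s' i) (hs i)

end KAR_

open KAR_ in
/-- KAR: base change of the curve. -/
theorem t_KAR (hDBC : Stmt_DBC) (hKBW : Stmt_KBW) : Stmt_KAR := by
  intro I A B _ _ _ _ g P hP z φ n p p' hp
  obtain ⟨h1, h2⟩ := hKBW hP z φ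
  have hc : IsPullback (kHom φ z).map (kDuo (z.bc φ)).pr (kDuo z).pr (spMap φ) :=
    hDBC (kHom φ z) h1 h2
  exact ⟨arrow_of (kHom φ z) p p' (fun i f => hp i f _ rfl) hc, rfl⟩

end Pool.Agent.MG.KX
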