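import Pool.Agent.MG.KX.StmtsK
import Pool.Agent.MG.Bub.BlBC
import Pool.Agent.MG.G0.KBT
import Pool.Agent.MG.G0.KBC
import Pool.Agent.MG.G0.KSP
import Pool.Agent.MG.G0.KFO
import Pool.Agent.MG.G0.KDU
import Pool.Agent.MG.G0.KNZ

/-!
# KBW: the charts of the curve of a Krichever ring are compatible with base change
-/

open CategoryTheory CategoryTheory.Limits AlgebraicGeometry TensorProduct

namespace Pool.Agent.MG.KX

open Pool.Agent.MG.G0 Pool.Agent.MG.GLU

namespace KBW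

/-- A square of spectra is cartesian if the ring is the tensor product. -/
theorem pull_of_bij {A B R S : Type} [CommRing A] [CommRing B] [CommRing R] [CommRing S]
    [Algebra A B] [Algebra A R] [Algebra B S] (f : R →+* S)
    (hf : ∀ a, f (algebraMap A R a) = algebraMap B S (algebraMap A B a))
    (e : (B ⊗[A] R) ≃ₐ[B] S) (he : ∀ (b : B) (r : R), e (b ⊗ₜ r) = b • f r) :
    IsPullback (spMap f) (spMap (algebraMap B S)) (spMap (algebraMap A R))
      (spMap (algebraMap A B)) := by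
  apply spec_isPullback
  · exact RingHom.ext hf
  · intro T _ f' g h
    have h' : ∀ a, f' (algebraMap A R a) = g (algebraMap A B a) := fun a =>
      congrArg (fun k => k a) h
    let _ : Algebra B T := g.toAlgebra
    obtain ⟨k, hk⟩ := KBT.exists_lift (B := B) f' h'
    refine ⟨(k : (B ⊗[A] R) →+* T).comp (e.symm : S →+* (B ⊗[A] R)), ?_, ?_⟩
    · refine RingHom.ext fun r => ?_
      change k (e.symm (f r)) = f' r
      have h1 : e.symm (f r) = 1 ⊗ₜ r := by
        rw [AlgEquiv.symm_apply_eq, he, one_smul]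
      rw [h1, hk, one_smul]
    · refine RingHom.ext fun b => ?_
      change k (e.symm (algebraMap B S b)) = g b
      have h1 : e.symm (algebraMap B S b) = b ⊗ₜ 1 := by
        rw [AlgEquiv.symm_apply_eq, he, map_one, Algebra.algebraMap_eq_smul_one]
      rw [h1, hk, map_one, ← Algebra.algebraMap_eq_smul_one]
      rfl
  · intro T _ k k' h1 h2
    have h1' : ∀ r, k (f r) = k' (f r) := fun r => congrArg (fun l => l r) h1
    have h2' : ∀ b, k (algebraMap B S b) = k' (algebraMap B S b) := fun b =>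
      congrArg (fun l => l b) h2
    refine RingHom.ext fun s => ?_
    obtain ⟨x, rfl⟩ := e.surjective s
    induction x using TensorProduct.induction_on with
    | zero => rw [map_zero, map_zero, map_zero]
    | tmul b r => rw [he, Algebra.smul_def, map_mul, map_mul, h1', h2']
    | add x y hx hy => rw [map_add, map_add, map_add, hx, hy]

section

variable {I A B : Type} [CommRing A] [CommRing B]

theorem w_pow {P : Subalgebra A (KK I A)} (z : Pole P) (m : ℕ) :
    z.w ^ m ∈ Pol I A (-((m * z.d : ℕ) : ℤ)) := by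
  induction m with
  | zero =>
    rw [pow_zero, zero_mul, Nat.cast_zero, neg_zero]
    exact one_mem_Pol0
  | succ m ih =>
    have h := mul_mem_Pol ih z.mem
    rw [← pow_succ] at h
    exact Pol_mono (by push_cast; linarith) h

theorem z_pow {P : Subalgebra A (KK I A)} (z : Pole P) (m : ℕ) :
    (z.z : KK I A) ^ m ∈ Pol I A ((m * z.d : ℕ) : ℤ) := by
  induction m with
  | zero =>
    rw [pow_zero, zero_mul, Nat.cast_zero]
    exact one_mem_Pol0
  | succ m ih =>
    have h := mul_mem_Pol ih z.mon.1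
    rw [← pow_succ] at h
    exact Pol_mono (by push_cast; linarith) h

theorem mul_le {P : Subalgebra A (KK I A)} {z : P} {f : KK I A} {n m : ℕ} (h : n ≤ m)
    (hf : (z : KK I A) ^ n * f ∈ P) : (z : KK I A) ^ m * f ∈ P := by
  obtain ⟨k, rfl⟩ := Nat.exists_eq_add_of_le h
  have e : (z : KK I A) ^ (n + k) * f = (z : KK I A) ^ k * ((z : KK I A) ^ n * f) := by ring
  rw [e]
  exact mul_mem (pow_mem z.2 k) hf

theorem zw_pow {P : Subalgebra A (KK I A)} (z : Pole P) (n : ℕ) (f : KK I A) :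
    (z.z : KK I A) ^ n * (z.w ^ n * f) = f := by
  rw [← mul_assoc, ← mul_pow, z.zw, one_pow, one_mul]

theorem wz_pow {P : Subalgebra A (KK I A)} (z : Pole P) (n : ℕ) (f : KK I A) :
    z.w ^ n * ((z.z : KK I A) ^ n * f) = f := by
  rw [← mul_assoc, ← mul_pow, mul_comm z.w, z.zw, one_pow, one_mul]

/-- The retraction of `P[1/z]` to `P[1/z] ∩ O`. -/
theorem exists_ret [Fintype I] (hDEN : Stmt_DEN) {g : ℕ} {P : Subalgebra A (KK I A)}
    (hP : IsKr g P) (z : Pole P) (n : ℕ) : ∃ ρ : P →ₗ[A] Rw P z.z,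
      ∀ (p : P) (r : Rw P z.z), (p : KK I A) = (z.z : KK I A) ^ n * r → ρ p = r := by
  classical
  have h1 : ∀ x : I × ℕ, ∃ r ∈ Rz P z.z, mon x.1 (-((x.2 : ℤ) + 1)) (1 : A) - r ∈ Pol I A 0 := by
    intro x
    obtain ⟨r, hr, hr'⟩ := (hDEN hP z).1 (mon x.1 (-((x.2 : ℤ) + 1)) (1 : A)) 0
    rw [neg_zero] at hr'
    exact ⟨r, hr, hr'⟩
  choose r hr hr' using h1
  let S : ((I × ℕ) →₀ A) →ₗ[A] KK I A := Finsupp.linearCombination A r
  have hSR : ∀ c, S c ∈ Rz P z.z := by
    intro c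
    change Finsupp.linearCombination A r c ∈ Rz P z.z
    rw [Finsupp.linearCombination_apply, Finsupp.sum]
    exact Subalgebra.sum_mem _ fun x _ => (Rz P z.z).smul_mem (hr x) _
  have hSi : ∀ c, KSP.iot c - S c ∈ Pol I A 0 := by
    intro c
    change KSP.iot c - Finsupp.linearCombination A r c ∈ Pol I A 0
    rw [KSP.iot, Finsupp.linearCombination_apply, Finsupp.linearCombination_apply, Finsupp.sum,
      Finsupp.sum, ← Finset.sum_sub_distrib]
    refine (Pol I A 0).sum_mem fun x _ => ?_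
    rw [← smul_sub]
    exact (Pol I A 0).smul_mem _ (hr' x)
  let T : KK I A →ₗ[A] KK I A := LinearMap.id - S ∘ₗ KSP.rho
  have hT : ∀ f, T f = f - S (KSP.rho f) := fun f => rfl
  have hT0 : ∀ f, T f ∈ Pol I A 0 := by
    intro f
    have e : T f = (f - KSP.iot (KSP.rho f)) + (KSP.iot (KSP.rho f) - S (KSP.rho f)) := by
      rw [hT]
      abel
    rw [e]
    exact add_mem (KSP.sub_iot_mem f) (hSi _)
  have hTz : ∀ f ∈ Rz P z.z, T f ∈ Rz P z.z := fun f hf => by
    rw [hT]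
    exact sub_mem hf (hSR _)
  have hTw : ∀ f ∈ Pol I A 0, T f = f := fun f hf => by
    rw [hT, KSP.rho_zero hf, map_zero, sub_zero]
  let U : KK I A →ₗ[A] KK I A := T ∘ₗ LinearMap.mulLeft A (z.w ^ n)
  have hU : ∀ f, U f = T (z.w ^ n * f) := fun f => rfl
  have hUP : ∀ p : P, U p ∈ Rw P z.z := by
    intro p
    rw [hU]
    refine ⟨hTz _ ⟨n, ?_⟩, hT0 _⟩
    rw [zw_pow]
    exact p.2
  refine ⟨LinearMap.codRestrict (Subalgebra.toSubmodule (Rw P z.z))
    (U ∘ₗ (Subalgebra.toSubmodule P).subtype) hUP, fun p q hpq => ?_⟩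
  apply Subtype.ext
  change U (p : KK I A) = q
  rw [hU, hpq, wz_pow, hTw _ q.2.2]

/-- Injectivity. -/
theorem inj [Fintype I] [Nonempty I] [Algebra A B] (hDEN : Stmt_DEN) {g : ℕ}
    {P : Subalgebra A (KK I A)} (hP : IsKr g P) (z : Pole P) (m : ℕ) (b : Fin m → B)
    (r : Fin m → Rw P z.z) (h0 : ∑ k, b k • kmap (algebraMap A B) (r k : KK I A) = 0) :
    ∑ k, b k ⊗ₜ[A] r k = 0 := by
  classical
  have h1 : ∀ k, ∃ n : ℕ, (z.z : KK I A) ^ n * (r k : KK I A) ∈ P := fun k => (r k).2.1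
  choose n' hn' using h1
  let n : ℕ := Finset.univ.sup n'
  have hn : ∀ k, (z.z : KK I A) ^ n * (r k : KK I A) ∈ P := fun k =>
    mul_le (Finset.le_sup (f := n') (Finset.mem_univ k)) (hn' k)
  let p : Fin m → P := fun k => ⟨_, hn k⟩
  have hp : ∀ k, (p k : KK I A) = (z.z : KK I A) ^ n * (r k : KK I A) := fun k => rfl
  obtain ⟨N, hN⟩ := KBT.dense hP
  obtain ⟨s, hs, -⟩ := KSP.exists_sec hP hN
  have h2 : ∑ k, b k • kmap (algebraMap A B) (p k : KK I A) = 0 := by
    have h3 : ∀ k, b k • kmap (algebraMap A B) (p k : KK I A) =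
        kmap (algebraMap A B) ((z.z : KK I A) ^ n) *
          (b k • kmap (algebraMap A B) (r k : KK I A)) := by
      intro k
      rw [hp, map_mul, mul_smul_comm]
    rw [Finset.sum_congr rfl fun k _ => h3 k, ← Finset.mul_sum, h0, mul_zero]
  have h4 := KBT.inj s hs m b p h2
  obtain ⟨ρ, hρ⟩ := exists_ret hDEN hP z n
  have h5 := congrArg (LinearMap.lTensor B ρ) h4
  rw [map_sum, map_zero] at h5
  rw [← h5]
  refine Finset.sum_congr rfl fun k _ => ?_
  rw [LinearMap.lTensor_tmul, hρ (p k) (r k) rfl]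

/-- Surjectivity. -/
theorem surj [Fintype I] [Nonempty I] {g : ℕ}
    {P : Subalgebra A (KK I A)} (hP : IsKr g P) (z : Pole P) (φ : A →+* B) {y : KK I B}
    (hy : y ∈ Rw (G0.bc φ P) (z.bc φ).z) :
    y ∈ Submodule.span B (kmap φ '' (Rw P z.z : Set (KK I A))) := by
  obtain ⟨N, hN⟩ := KBT.dense hP
  obtain ⟨s, hs, hs'⟩ := KSP.exists_sec hP hN
  obtain ⟨⟨n, hn⟩, hy0⟩ := hy
  let m : ℕ := max n N
  have hm : ((z.bc φ).z : KK I B) ^ m * y ∈ G0.bc φ P := mul_le (le_max_left _ _) hn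
  have hmd : (N : ℤ) ≤ ((m * z.d : ℕ) : ℤ) := by
    have h1 : N ≤ m := le_max_right _ _
    have h2 : m * 1 ≤ m * z.d := Nat.mul_le_mul_left m z.pos
    exact_mod_cast le_trans h1 (by omega)
  have h1 : ((z.bc φ).z : KK I B) ^ m * y ∈ PP (G0.bc φ P) ((m * z.d : ℕ) : ℤ) := by
    refine mem_PP.2 ⟨hm, ?_⟩
    have h := mul_mem_Pol (z_pow (z.bc φ) m) hy0
    rw [add_zero] at h
    exact h
  rw [KBC.bc_PP φ s hs hs' _ hmd] at h1
  have h2 : y = kmap φ (z.w ^ m) * (((z.bc φ).z : KK I B) ^ m * y) := by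
    rw [map_pow]
    exact (wz_pow (z.bc φ) m y).symm
  rw [h2]
  generalize ((z.bc φ).z : KK I B) ^ m * y = x at h1
  refine Submodule.span_induction ?_ ?_ ?_ ?_ h1
  · rintro _ ⟨p, hp, rfl⟩
    obtain ⟨hp1, hp2⟩ := mem_PP.1 hp
    rw [← map_mul]
    refine Submodule.subset_span ⟨_, ⟨⟨m, ?_⟩, ?_⟩, rfl⟩
    · rw [zw_pow]
      exact hp1
    · have h := mul_mem_Pol (w_pow z m) hp2
      rw [neg_add_cancel] at h
      exact h
  · rw [mul_zero]
    exact zero_mem _
  · intro x y _ _ hx hy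
    rw [mul_add]
    exact add_mem hx hy
  · intro c x _ hx
    rw [mul_smul_comm]
    exact Submodule.smul_mem _ _ hx

/-- The second chart is the tensor product. -/
theorem exists_equiv [Fintype I] [Nonempty I] [Algebra A B] (hDEN : Stmt_DEN) {g : ℕ}
    {P : Subalgebra A (KK I A)} (hP : IsKr g P) (z : Pole P) :
    ∃ e : (B ⊗[A] Rw P z.z) ≃ₐ[B] Rw (G0.bc (algebraMap A B) P) (z.bc (algebraMap A B)).z,
      ∀ (b : B) (r : Rw P z.z), (e (b ⊗ₜ r) : KK I B) = b • kmap (algebraMap A B) (r : KK I A) := by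
  obtain ⟨f, hf⟩ := KBT.exists_hom (B := B) (Rw P z.z)
  have hmem : ∀ x, f x ∈ Rw (G0.bc (algebraMap A B) P) (z.bc (algebraMap A B)).z := by
    intro x
    induction x using TensorProduct.induction_on with
    | zero => rw [map_zero]; exact zero_mem _
    | tmul b p =>
      rw [hf]
      exact Subalgebra.smul_mem _ (kmap_mem_Rw _ z p.2) b
    | add x y hx hy => rw [map_add]; exact add_mem hx hy
  let f' : (B ⊗[A] Rw P z.z) →ₐ[B] Rw (G0.bc (algebraMap A B) P) (z.bc (algebraMap A B)).z :=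
    f.codRestrict _ hmem
  have h1 : Function.Injective f' := by
    rw [injective_iff_map_eq_zero]
    intro x hx
    have hx' : f x = 0 := congrArg Subtype.val hx
    obtain ⟨m, b, p, rfl⟩ : ∃ (m : ℕ) (b : Fin m → B) (p : Fin m → Rw P z.z),
        x = ∑ k, b k ⊗ₜ[A] p k := TensorProduct.exists_sum_tmul_eq x
    apply inj hDEN hP z
    rw [map_sum] at hx'
    rw [← hx']
    exact Finset.sum_congr rfl fun k _ => (hf _ _).symm
  have h2 : Function.Surjective f' := by
    rintro ⟨y, hy⟩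
    have hy' := surj hP z (algebraMap A B) hy
    have h3 : ∃ x, f x = y := by
      refine Submodule.span_induction ?_ ?_ ?_ ?_ hy'
      · rintro _ ⟨p, hp, rfl⟩
        exact ⟨1 ⊗ₜ ⟨p, hp⟩, by rw [hf, one_smul]⟩
      · exact ⟨0, map_zero f⟩
      · rintro _ _ _ _ ⟨x, rfl⟩ ⟨x', rfl⟩
        exact ⟨x + x', map_add f _ _⟩
      · rintro c _ _ ⟨x, rfl⟩
        exact ⟨c • x, map_smul f _ _⟩
    obtain ⟨x, hx⟩ := h3
    exact ⟨x, Subtype.ext hx⟩
  exact ⟨AlgEquiv.ofBijective f' ⟨h1, h2⟩, fun b p => hf b p⟩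

end

end KBW

theorem t_KBW (hDEN : Stmt_DEN) : Stmt_KBW := by
  intro I A B _ _ _ _ g P hP z φ
  let _ : Algebra A B := φ.toAlgebra
  have hKSP : Stmt_KSP := t_KSP t_KNZ
  have hKBC : Stmt_KBC := t_KBC (t_KFO t_KDU) t_KNZ hKSP
  obtain ⟨e1, he1⟩ := (t_KBT hKSP hKBC (B := B) hP).2
  obtain ⟨e2, he2⟩ := KBW.exists_equiv (B := B) hDEN hP z
  exact ⟨KBW.pull_of_bij (kHom φ z).f1 (kHom φ z).fa1 e1 fun b r => Subtype.ext (he1 b r),
    KBW.pull_of_bij (kHom φ z).f2 (kHom φ z).fa2 e2 fun b r => Subtype.ext (he2 b r)⟩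

end Pool.Agent.MG.KX
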