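import Pool.Agent.MG.KX.KCN
import Pool.Agent.MG.G0.KAU
import Pool.Agent.MG.G0.KBC

/-!
# KCA: covectors and changes of the coordinates
-/

open CategoryTheory CategoryTheory.Limits AlgebraicGeometry
open scoped TensorProduct

namespace Pool.Agent.MG.KX

open Pool.Agent.MG.G0 Pool.Agent.MG.GLU

namespace KCAx

theorem epsMap_id (A : Type) [CommRing A] : epsMap (RingHom.id A) = RingHom.id (Eps A) :=
  RingHom.ext fun z => TrivSqZeroExt.ext (by simp [epsMap]) (by simp [epsMap])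

end KCAx

theorem t_KCA (hMCA : Stmt_MCA) (hMBC : Stmt_MBC) (hMOC : Stmt_MOC) (hMAU : Stmt_MAU)
    (hXAU : Stmt_XAU) (hDMD : Stmt_DMD) (hPDT : Stmt_PDT) (hPDK : Stmt_PDK) : Stmt_KCA := by
  intro I A _ _ _ g P α hα hKS z z'
  have hP : IsKr g P := hKS.kr
  have hPe : IsKr g (P.map (α : KK I A →ₐ[A] KK I A)) := G0.t_KAU.1 P α hα hP
  obtain ⟨a, ha⟩ := hXAU (p := nop P) α (p' := nop (P.map (α : KK I A →ₐ[A] KK I A))) hP hα
    (fun i => i.elim0) z z'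
  refine ⟨a, ?_⟩
  intro L L' hL l l' hl hl' d' d f hf
  obtain ⟨M, hM⟩ := hMCA hP z (nop P)
  obtain ⟨N, hN⟩ := hMAU.1 α hα M (nop (P.map (α : KK I A →ₐ[A] KK I A))) (fun i => i.elim0)
  obtain ⟨M', hM'⟩ := hMCA hPe z' (nop (P.map (α : KK I A →ₐ[A] KK I A)))
  have haM : N.Over a M' := ha M N M' hM hN hM'
  obtain ⟨δ, Md, hMd⟩ := hDMD hP M d
  obtain ⟨β, hβ, hαβ, hT⟩ := hPDT α hα
  obtain ⟨δ', hδ, hQ⟩ := hT P δ
  obtain ⟨Nd, hNd⟩ := hMAU.1 β hβ Md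
    (nop ((Pdel P δ).map (β : KK I (Eps A) →ₐ[Eps A] KK I (Eps A)))) (fun i => i.elim0)
  have hNdN : Nd.Over d.r N := hMAU.2 d.r β α hβ hα hαβ Md M _ _ Nd N hNd hN hMd
  have hK : IsKr g ((Pdel P δ).map (β : KK I (Eps A) →ₐ[Eps A] KK I (Eps A))) :=
    G0.t_KAU.1 (Pdel P δ) β hβ (hPDK hP δ).1
  have hb : bc (epsMap (RingHom.id A))
      ((Pdel P δ).map (β : KK I (Eps A) →ₐ[Eps A] KK I (Eps A))) =
      Pdel (P.map (α : KK I A →ₐ[A] KK I A)) δ' := by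
    rw [KCAx.epsMap_id, hQ]
    exact G0.KBC.bc_id _
  obtain ⟨M'', hM''⟩ := mbc' hMBC f hK Nd hb
    (nop (Pdel (P.map (α : KK I A →ₐ[A] KK I A)) δ')) (bcP_nop (epsMap (RingHom.id A)))
  have h1 : M''.Over d'.r M' :=
    KCN.ovr hMOC a d.r d'.r f hf N M' Nd M'' haM hNdN hM'' fun F hF => (mem_Pdel.1 hF).1
  rw [hl' M' hM' d' δ' M'' h1, hl M hM d δ Md hMd]
  exact hL δ δ' hδ

end Pool.Agent.MG.KX
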