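import Pool.Agent.MG.KX.StmtsC

/-!
# KCE: the covector of a functional (existence)
-/

open CategoryTheory CategoryTheory.Limits AlgebraicGeometry
open scoped TensorProduct

namespace Pool.Agent.MG.KX

open Pool.Agent.MG.G0 Pool.Agent.MG.GLU

namespace KCE

theorem eps0_scale {A : Type} [CommRing A] (a : A) :
    eps0 A = (eps0 A).comp (epsScale a) := by
  refine RingHom.ext fun u => ?_
  change u.fst = (TrivSqZeroExt.map (a • (LinearMap.id : A →ₗ[A] A)) u).fst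
  rw [TrivSqZeroExt.fst_map]

theorem eps0_pair {A : Type} [CommRing A] (a b : A) :
    eps20 A = (eps0 A).comp (epsPair a b) := by
  refine RingHom.ext fun u => ?_
  change u.fst = (TrivSqZeroExt.map (a • LinearMap.fst A A A + b • LinearMap.snd A A A) u).fst
  rw [TrivSqZeroExt.fst_map]

/-- Another model with the same morphisms. -/
theorem over_congr {A B : Type} [CommRing A] [CommRing B] {I : Type} {φ : A →+* B} {n : ℕ}
    {y : Fam n B} {x : Fam n A} {a : Arrow φ y x} {P : Subalgebra A (KK I A)}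
    {p : Fin n → (P →ₐ[A] A)} {P' : Subalgebra B (KK I B)} {p' : Fin n → (P' →ₐ[B] B)}
    {M : Mod x P p} {M' M'' : Mod y P' p'} (h : M.Over a M') (hj : M''.j = M'.j)
    (hs : M''.sh = M'.sh) : M.Over a M'' :=
  ⟨h.mem, by rw [hj]; exact h.j, by rw [hs]; exact h.sh⟩

theorem mem_red {I A : Type} [CommRing A] {P : Subalgebra A (KK I A)} {δ : DD P} :
    ∀ f ∈ Pdel P δ, kmap (eps0 A) f ∈ P := fun _ hf => (mem_Pdel.1 hf).1

end KCE

open KCE in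
theorem t_KCE (hMCA : Stmt_MCA) (hMBC : Stmt_MBC) (hMTR : Stmt_MTR) (hMOC : Stmt_MOC)
    (hMUN : Stmt_MUN) (_hKST : Stmt_KST) (hDMD : Stmt_DMD) (hDMT : Stmt_DMT) (hPDK : Stmt_PDK)
    (hPDC : Stmt_PDC) (hPDS : Stmt_PDS) (hPDA : Stmt_PDA) (hKBC : Stmt_KBC) : Stmt_KCE := by
  intro I A _ _ _ g P hKS z L
  obtain ⟨M, hM⟩ := hMCA hKS.kr z (nop P)
  choose δ Md hMd using fun d : Defo g (xfam z (nop P)) => hDMD hKS.kr M d
  -- the value does not depend on the model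
  have key : ∀ (d : Defo g (xfam z (nop P))) (δ' : DD P)
      (M' : Mod d.y (Pdel P δ') (nop (Pdel P δ'))), M'.Over d.r M → L.1 δ' = L.1 (δ d) := by
    intro d δ' M' hM'
    obtain ⟨θ, hθ, e⟩ := hMUN hKS.kr M d.y d.r d.stable.flat δ' (δ d) M' (Md d) hM' (hMd d)
    rw [e, map_add, L.2 θ hθ, add_zero]
  have kr : ∀ δ' : DD P, IsKr g (Pdel P δ') := fun δ' => (hPDK hKS.kr δ').1
  -- the restrictions of a deformation over `A[ε₁, ε₂]`
  have pair : ∀ (a b : A) (w : Fam 0 (Eps2 A)) (r : Arrow (eps20 A) (xfam z (nop P)) w)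
      (Q : Subalgebra (Eps2 A) (KK I (Eps2 A))) (MQ : Mod w Q (nop Q)), IsKr g Q →
      bc (eps20 A) Q = P → MQ.Over r M → ∀ (d : Defo g (xfam z (nop P)))
      (f : Arrow (epsPair a b) d.y w), d.r.f ≫ f.f = r.f →
      ∃ δ' : DD P, bc (epsPair a b) Q = Pdel P δ' ∧ L.1 δ' = L.1 (δ d) := by
    intro a b w r Q MQ hQ hbc hMQ d f hf
    have h1 : IsKr g (bc (epsPair a b) Q) := (hKBC.2.2.2 hQ (epsPair a b)).1
    have h2 : bc (eps0 A) (bc (epsPair a b) Q) = P := by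
      rw [← hKBC.2.1, ← eps0_pair, hbc]
    obtain ⟨δ', hδ'⟩ := hPDC hKS.kr h1 h2
    obtain ⟨M', hM'⟩ := mbc' hMBC f hQ MQ hδ' (nop (Pdel P δ')) (bcP_nop _)
    refine ⟨δ', hδ', key d δ' M' ?_⟩
    exact ((hMOC.1 f d.r r MQ M' M (eps0_pair a b) hf hM').2 hMQ mem_red)
  refine ⟨⟨fun d => L.1 (δ d), ?_, ?_, ?_⟩, ?_⟩
  · -- isomorphisms
    intro d d' f hf
    obtain ⟨M', hM'⟩ := (hMTR f).1 (Md d')
    exact (key d (δ d') M' ((hMOC.1 f d.r d'.r (Md d') M' M (RingHom.comp_id _).symm hf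
      hM').2 (hMd d') mem_red)).symm
  · -- scaling
    intro a d d' f hf
    obtain ⟨M', hM'⟩ := mbc' hMBC f (kr (δ d)) (Md d) (hPDS hKS.kr a (δ d))
      (nop (Pdel P (a • δ d))) (bcP_nop _)
    have h := key d' (a • δ d) M' ((hMOC.1 f d'.r d.r (Md d) M' M (eps0_scale a) hf hM').2
      (hMd d) mem_red)
    change L.1 (δ d') = a * L.1 (δ d)
    rw [← h, map_smul, smul_eq_mul]
  · -- addition
    intro w hw r d₁ d₂ d f₁ f₂ f h₁ h₂ h
    obtain ⟨Q, MQ, hQ, hbc, hMQ⟩ := hDMT hKS.kr M w hw r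
    obtain ⟨δ₁, e₁, l₁⟩ := pair 1 0 w r Q MQ hQ hbc hMQ d₁ f₁ h₁
    obtain ⟨δ₂, e₂, l₂⟩ := pair 0 1 w r Q MQ hQ hbc hMQ d₂ f₂ h₂
    obtain ⟨δ', e, l⟩ := pair 1 1 w r Q MQ hQ hbc hMQ d f h
    have hs := hPDA.1 hKS.kr hQ hbc δ₁ δ₂ δ' e₁ e₂ e
    change L.1 (δ d) = L.1 (δ d₁) + L.1 (δ d₂)
    rw [← l, ← l₁, ← l₂, hs, map_add]
  · -- the condition of the covector
    intro M₂ hM₂ d δ' M' hM'
    exact (key d δ' M' (over_congr hM' (hM.j.trans hM₂.j.symm) (hM.sh.trans hM₂.sh.symm))).symm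

end Pool.Agent.MG.KX
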