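import Pool.Agent.MG.KX.StmtsC

/-!
# Every covector comes from a functional

The module KCF.
-/

open CategoryTheory CategoryTheory.Limits AlgebraicGeometry
open scoped TensorProduct

namespace Pool.Agent.MG.KX

open Pool.Agent.MG.G0 Pool.Agent.MG.GLU

namespace KCF

/-- Composition of arrows. -/
theorem comp_arrow {A B C : Type} [CommRing A] [CommRing B] [CommRing C] {n : ℕ} {φ : A →+* B}
    {ψ : B →+* C} {χ : A →+* C} {x : Fam n A} {y : Fam n B} {w : Fam n C} (a : Arrow φ y x)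
    (b : Arrow ψ w y) (h : χ = ψ.comp φ) : ∃ c : Arrow χ w x, c.f = b.f ≫ a.f := by
  subst h
  refine ⟨⟨b.f ≫ a.f, ?_, fun i => ?_⟩, rfl⟩
  · have h1 := b.cart.paste_horiz a.cart
    rw [spMap_comp''] at h1
    exact h1
  · rw [← Category.assoc, b.sec, Category.assoc, a.sec, ← Category.assoc, spMap_comp'']

theorem surj0 (A : Type) [CommRing A] : Function.Surjective (eps0 A) := fun a =>
  ⟨TrivSqZeroExt.inl a, TrivSqZeroExt.fst_inl A a⟩

theorem surj20 (A : Type) [CommRing A] : Function.Surjective (eps20 A) := fun a =>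
  ⟨TrivSqZeroExt.inl a, TrivSqZeroExt.fst_inl (A × A) a⟩

theorem nil0 (A : Type) [CommRing A] : RingHom.ker (eps0 A) ^ 2 = ⊥ :=
  TrivSqZeroExt.kerIdeal_sq A A

theorem nil20 (A : Type) [CommRing A] : RingHom.ker (eps20 A) ^ 2 = ⊥ :=
  TrivSqZeroExt.kerIdeal_sq A (A × A)

section

variable {I A : Type} [Fintype I] [Nonempty I] [CommRing A] {g : ℕ} {P : Subalgebra A (KK I A)}

/-- A thickening of the curve of `P`. -/
theorem exists_thk (hXAR : Stmt_XAR) (hKSN : Stmt_KSN) (hKST : Stmt_KST) (hP : KS g P (nop P))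
    (z : Pole P) {E : Type} [CommRing E] (χ : E →+* A) (hs : Function.Surjective χ)
    (hn : RingHom.ker χ ^ 2 = ⊥) {Q : Subalgebra E (KK I E)} (hQ : IsKr g Q) (hb : bc χ Q = P)
    (zQ : Pole Q) : IsStable g (xfam zQ (nop Q)) ∧
      ∃ r : Arrow χ (xfam z (nop P)) (xfam zQ (nop Q)),
        ∀ (MQ : Mod (xfam zQ (nop Q)) Q (nop Q)) (M : Mod (xfam z (nop P)) P (nop P)),
          MQ.Can zQ → M.Can z → MQ.Over r M :=
  ⟨hKST (hKSN χ hs ⟨2, hn⟩ hQ hb hP) zQ, xar' hXAR χ hQ hb (bcP_nop χ) zQ z⟩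

/-- Uniqueness of arrows, in the form used below. -/
theorem eq_arrow (hMOC : Stmt_MOC) (hMXT : Stmt_MXT) (hP : IsKr g P)
    (z : Pole P) {E F : Type} [CommRing E] [CommRing F] {χ : E →+* A} {ψ : E →+* F}
    {ω : F →+* A} (hχ : χ = ω.comp ψ) {Q : Subalgebra E (KK I E)} {R : Subalgebra F (KK I F)}
    {y : Fam 0 E} (hy : IsProper y.π) (M : Mod (xfam z (nop P)) P (nop P))
    (hM : M.Can z) (MQ : Mod y Q (nop Q)) {w : Fam 0 F} (MR : Mod w R (nop R))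
    (f : Arrow ψ w y) (r : Arrow ω (xfam z (nop P)) w) (s : Arrow χ (xfam z (nop P)) y)
    (h1 : MQ.Over f MR) (h2 : MR.Over r M) (h3 : MQ.Over s M) : r.f ≫ f.f = s.f := by
  obtain ⟨c, hc⟩ := comp_arrow f r hχ
  have h4 : MQ.Over c M := (hMOC.1 f r c MQ MR M hχ hc.symm h1).1 h2
  rw [← hc]
  exact hMXT z c s MQ M hP hy hM h4 h3

/-- An arrow between thickenings which is compatible with the arrows from the curve. -/
theorem exists_mid (hMOC : Stmt_MOC) (hMXT : Stmt_MXT) (hXAR : Stmt_XAR) (hP : IsKr g P)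
    (z : Pole P) (M : Mod (xfam z (nop P)) P (nop P)) (hM : M.Can z) {E F : Type} [CommRing E]
    [CommRing F] {χ : E →+* A} {ψ : E →+* F} {ω : F →+* A} (hχ : χ = ω.comp ψ)
    {Q : Subalgebra E (KK I E)} {R : Subalgebra F (KK I F)} (hQ : IsKr g Q) (hb : bc ψ Q = R)
    (zQ : Pole Q) (zR : Pole R) (hy : IsProper (xfam zQ (nop Q)).π)
    (MQ : Mod (xfam zQ (nop Q)) Q (nop Q)) (hMQ : MQ.Can zQ)
    (MR : Mod (xfam zR (nop R)) R (nop R)) (hMR : MR.Can zR)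
    (r : Arrow ω (xfam z (nop P)) (xfam zR (nop R)))
    (s : Arrow χ (xfam z (nop P)) (xfam zQ (nop Q))) (h2 : MR.Over r M) (h3 : MQ.Over s M) :
    ∃ f : Arrow ψ (xfam zR (nop R)) (xfam zQ (nop Q)), r.f ≫ f.f = s.f := by
  obtain ⟨f, hf⟩ := xar' hXAR ψ hQ hb (bcP_nop ψ) zQ zR
  exact ⟨f, eq_arrow hMOC hMXT hP z hχ hy M hM MQ MR f r s (hf MQ MR hMQ hMR) h2 h3⟩

end

theorem eps20_comp {A : Type} [CommRing A] (a b : A) :
    eps20 A = (eps0 A).comp (epsPair a b) :=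
  RingHom.ext fun u => (TrivSqZeroExt.fst_map _ u).symm

theorem eps0_comp {A : Type} [CommRing A] (a : A) : eps0 A = (eps0 A).comp (epsScale a) :=
  RingHom.ext fun u => (TrivSqZeroExt.fst_map _ u).symm

end KCF

/-- Every covector comes from a functional. -/
theorem t_KCF (hMCA : Stmt_MCA) (hMIS : Stmt_MIS) (hMOC : Stmt_MOC) (hMXT : Stmt_MXT)
    (hMAU : Stmt_MAU) (hMAI : Stmt_MAI) (hXAR : Stmt_XAR) (hKSN : Stmt_KSN) (hKST : Stmt_KST)
    (_hKPX : Stmt_KPX) (hPLE : Stmt_PLE) (hPDK : Stmt_PDK) (hPDS : Stmt_PDS) (hPDA : Stmt_PDA)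
    (hPDI : Stmt_PDI) : Stmt_KCF := by
  intro I A _ _ _ g P hKS z l
  have hP := hKS.kr
  obtain ⟨M, hM⟩ := hMCA hP z (nop P)
  -- the deformations
  have hD : ∀ δ : DD P, IsKr g (Pdel P δ) := fun δ => (hPDK hP δ).1
  have hDb : ∀ δ : DD P, bc (eps0 A) (Pdel P δ) = P := fun δ => (hPDK hP δ).2.1
  have hzz : ∀ δ : DD P, Nonempty (Pole (Pdel P δ)) := fun δ => (hPLE (hD δ)).1
  obtain ⟨zz⟩ : Nonempty (∀ δ : DD P, Pole (Pdel P δ)) := ⟨fun δ => (hzz δ).some⟩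
  have hthk := fun δ => KCF.exists_thk hXAR hKSN hKST hKS z (eps0 A) (KCF.surj0 A) (KCF.nil0 A)
    (hD δ) (hDb δ) (zz δ)
  choose st rr hrr using hthk
  have hMM := fun δ => hMCA (hD δ) (zz δ) (nop (Pdel P δ))
  choose MM hMMc using hMM
  have hMM' : ∀ δ : DD P, (MM δ).Over (rr δ) M := fun δ => hrr δ _ _ (hMMc δ) hM
  let dd : DD P → Defo g (xfam z (nop P)) := fun δ => ⟨xfam (zz δ) (nop (Pdel P δ)), st δ, rr δ⟩
  -- the value at a deformation with a model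
  have key : ∀ (M : Mod (xfam z (nop P)) P (nop P)), M.Can z → ∀ (δ : DD P)
      (d : Defo g (xfam z (nop P))) (M' : Mod d.y (Pdel P δ) (nop (Pdel P δ))),
      M'.Over d.r M → l.l d = l.l (dd δ) := by
    intro M hM δ d M' hM'
    obtain ⟨a, ha⟩ := hMIS (hD δ) d.stable.proper M' (zz δ)
    have h1 : M'.Over a (MM δ) := ha _ (hMMc δ)
    have h2 : (MM δ).Over (rr δ) M := hrr δ _ _ (hMMc δ) hM
    have h3 : (rr δ).f ≫ a.f = d.r.f :=
      KCF.eq_arrow hMOC hMXT hP z (RingHom.comp_id _).symm d.stable.proper M hM M'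
        (MM δ) a (rr δ) d.r h1 h2 hM'
    exact (l.iso (dd δ) d a h3).symm
  have key' : ∀ (δ : DD P) (d : Defo g (xfam z (nop P))) (P' : Subalgebra (Eps A) (KK I (Eps A)))
      (_ : P' = Pdel P δ) (M' : Mod d.y P' (nop P')), M'.Over d.r M → l.l d = l.l (dd δ) := by
    intro δ d P' hP' M' hM'
    subst hP'
    exact key M hM δ d M' hM'
  have hadd : ∀ δ₁ δ₂ : DD P, l.l (dd (δ₁ + δ₂)) = l.l (dd δ₁) + l.l (dd δ₂) := by
    intro δ₁ δ₂
    obtain ⟨Q, hQ, hQb, hb1, hb2, hb3⟩ := hPDA.2 hP δ₁ δ₂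
    obtain ⟨zQ⟩ := (hPLE hQ).1
    obtain ⟨hst, r, hr⟩ := KCF.exists_thk hXAR hKSN hKST hKS z (eps20 A) (KCF.surj20 A)
      (KCF.nil20 A) hQ hQb zQ
    obtain ⟨MQ, hMQ⟩ := hMCA hQ zQ (nop Q)
    have hr' : MQ.Over r M := hr _ _ hMQ hM
    have e : ∀ (a b : A) (δ : DD P), bc (epsPair a b) Q = Pdel P δ →
        ∃ f : Arrow (epsPair a b) (xfam (zz δ) (nop (Pdel P δ))) (xfam zQ (nop Q)),
          (rr δ).f ≫ f.f = r.f := fun a b δ hb =>
      KCF.exists_mid hMOC hMXT hXAR hP z M hM (KCF.eps20_comp a b) hQ hb zQ (zz δ) hst.proper MQ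
        hMQ (MM δ) (hMMc δ) (rr δ) r (hMM' δ) hr'
    obtain ⟨f₁, h₁⟩ := e _ _ δ₁ hb1
    obtain ⟨f₂, h₂⟩ := e _ _ δ₂ hb2
    obtain ⟨f, h⟩ := e _ _ (δ₁ + δ₂) hb3
    exact l.add _ hst r (dd δ₁) (dd δ₂) (dd (δ₁ + δ₂)) f₁ f₂ f h₁ h₂ h
  have hsm : ∀ (a : A) (δ : DD P), l.l (dd (a • δ)) = a * l.l (dd δ) := by
    intro a δ
    obtain ⟨f, hf⟩ := KCF.exists_mid hMOC hMXT hXAR hP z M hM (KCF.eps0_comp a) (hD δ)
      (hPDS hP a δ) (zz δ) (zz (a • δ)) (st δ).proper (MM δ) (hMMc δ) (MM (a • δ))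
      (hMMc (a • δ)) (rr (a • δ)) (rr δ) (hMM' (a • δ)) (hMM' δ)
    exact l.scale a (dd δ) (dd (a • δ)) f hf
  let L : DD P →ₗ[A] A :=
    { toFun := fun δ => l.l (dd δ)
      map_add' := hadd
      map_smul' := fun a δ => hsm a δ }
  have hL : L ∈ CovL P := by
    intro θ hθ
    obtain ⟨α, hα, hα0, hαP⟩ := hPDI θ hθ
    obtain ⟨N, hN⟩ := hMAU.1 α hα (MM 0) (nop _) (fun i => i.elim0)
    have h1 : N.Over (rr 0) M := hMAI (rr 0) α hα0 (MM 0) M _ N hN (hMM' 0)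
    have h2 := key' (0 + tder P θ) (dd 0) _ (hαP P 0).symm N h1
    have h3 : L 0 = L (0 + tder P θ) := h2
    rw [map_zero, zero_add] at h3
    exact h3.symm
  exact ⟨⟨L, hL⟩, fun M hM d δ M' hM' => key M hM δ d M' hM'⟩

end Pool.Agent.MG.KX
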