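import Pool.Agent.MG.KX.StmtsC
import Pool.Agent.MG.PBS

/-!
# KCG: the covector of a functional, forgetting a puncture
-/

open CategoryTheory CategoryTheory.Limits AlgebraicGeometry
open scoped TensorProduct

namespace Pool.Agent.MG.KX

open Pool.Agent.MG.G0 Pool.Agent.MG.GLU

namespace KCG

variable {I A B : Type} [CommRing A] [CommRing B]

theorem eps_eq (φ : A →+* B) : φ.comp (eps0 A) = (eps0 B).comp (epsMap φ) :=
  (RingHom.ext fun z => by simp [epsMap])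

theorem epsMap_id : epsMap (RingHom.id A) = RingHom.id (Eps A) := by
  apply RingHom.ext
  intro z
  exact TrivSqZeroExt.inl_fst_add_inr_snd_eq z

theorem bc_idd (P : Subalgebra A (KK I A)) : bc (RingHom.id A) P = P := by
  refine le_antisymm ?_ ?_
  · refine Algebra.adjoin_le ?_
    rintro _ ⟨f, hf, rfl⟩
    rw [kmap_id]
    exact hf
  · intro f hf
    have h := kmap_mem_bc (RingHom.id A) hf
    rwa [kmap_id] at h

/-- The canonical model and the model of the deformation. -/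
theorem ovr (hMOC : Stmt_MOC) {n : ℕ} {φ : A →+* B} {P : Subalgebra A (KK I A)}
    {p : Fin n → (P →ₐ[A] A)} {P' : Subalgebra B (KK I B)} {p' : Fin n → (P' →ₐ[B] B)}
    {x : Fam n A} {x' : Fam n B} {y : Fam n (Eps A)} {y' : Fam n (Eps B)}
    {Q : Subalgebra (Eps A) (KK I (Eps A))} {q : Fin n → (Q →ₐ[Eps A] Eps A)}
    {Q' : Subalgebra (Eps B) (KK I (Eps B))} {q' : Fin n → (Q' →ₐ[Eps B] Eps B)}
    (a : Arrow φ x' x) (r : Arrow (eps0 A) x y) (r' : Arrow (eps0 B) x' y')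
    (f : Arrow (epsMap φ) y' y) (hf : r'.f ≫ f.f = a.f ≫ r.f)
    (M : Mod x P p) (M' : Mod x' P' p') (N : Mod y Q q) (N' : Mod y' Q' q')
    (h1 : M.Over a M') (h2 : N.Over r M) (h3 : N.Over f N')
    (hQ : ∀ F ∈ Q', kmap (eps0 B) F ∈ P') : N'.Over r' M' := by
  have hc : N.Over (PBS.comp a r) M' :=
    (hMOC.1 r a (PBS.comp a r) N M M' rfl rfl h2).1 h1
  exact (hMOC.1 f r' (PBS.comp a r) N N' M' (eps_eq φ) hf h3).2 hc hQ

end KCG

theorem t_KCG (hMCA : Stmt_MCA) (hMBC : Stmt_MBC) (hMOC : Stmt_MOC) (hMFA : Stmt_MFA)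
    (hMFG : Stmt_MFG) (hMFO : Stmt_MFO) (hXFG : Stmt_XFG) (hDMD : Stmt_DMD) (hPDF : Stmt_PDF)
    (hPDK : Stmt_PDK) (hKPX : Stmt_KPX) : Stmt_KCG := by
  intro I J A _ _ _ _ g W hKS hKS' hF z z'
  have hW : IsKr g W := hKS.kr
  have hP : IsKr g (Rem W) := hKS'.kr
  obtain ⟨a, ha⟩ := hXFG (q := nop W) (p := nop (Rem W)) hW hP hF (fun i => i.elim0) z z'
  refine ⟨a, ?_⟩
  intro L L' hL l l' hl hl' d' d f hf
  obtain ⟨M, hM⟩ := hMCA hW z (nop W)
  obtain ⟨M', hM'⟩ := hMCA hP z' (nop (Rem W))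
  obtain ⟨U, hU, hU2⟩ := hMFA hW (hKPX (nop W) hW z).1 M hF.dns
  obtain ⟨N, hN⟩ := hMFG (p := nop (Rem W)) M U hU hU2 hF (fun i => i.elim0)
  obtain ⟨E, Md, hMd⟩ := hDMD hW M d
  obtain ⟨D, hDE, -, hFd⟩ := hPDF hW hP hF E
  obtain ⟨V, hV, hV2⟩ := hMFA (hPDK hW E).1 d.stable.proper Md hFd.dns
  obtain ⟨Nd, hNd⟩ := hMFG (p := nop (Pdel (Rem W) D)) Md V hV hV2 hFd (fun i => i.elim0)
  have h0 : Nd.Over d.r N := hMFO d.r Md Nd M N hNd hN hF (fun F hF => (mem_Pdel.1 hF).1) hMd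
  have hb : bc (epsMap (RingHom.id A)) (Pdel (Rem W) D) = Pdel (Rem W) D := by
    rw [KCG.epsMap_id, KCG.bc_idd]
  obtain ⟨M'', hM''⟩ := mbc' hMBC f (hPDK hP D).1 Nd hb (nop (Pdel (Rem W) D))
    (fun i => i.elim0)
  have h1 : M''.Over d'.r M' :=
    KCG.ovr hMOC a d.r d'.r f hf N M' Nd M'' (ha M N M' hM hN hM') h0 hM''
      fun F hF => (mem_Pdel.1 hF).1
  rw [hl' M' hM' d' D M'' h1, hl M hM d E Md hMd]
  exact (hL D E hDE).symm

end Pool.Agent.MG.KX
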