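import Pool.Agent.MG.KX.StmtsC
import Pool.Agent.MG.PBS

/-!
# KCN: base change of the covector of a functional
-/

open CategoryTheory CategoryTheory.Limits AlgebraicGeometry
open scoped TensorProduct

namespace Pool.Agent.MG.KX

open Pool.Agent.MG.G0 Pool.Agent.MG.GLU

namespace KCN

variable {I A B : Type} [CommRing A] [CommRing B]

theorem eps_eq (φ : A →+* B) : φ.comp (eps0 A) = (eps0 B).comp (epsMap φ) :=
  (RingHom.ext fun z => by simp [epsMap])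

/-- The canonical model of the base change and the model of the deformation. -/
theorem ovr (hMOC : Stmt_MOC) {n : ℕ} {φ : A →+* B} {P : Subalgebra A (KK I A)}
    {p : Fin n → (P →ₐ[A] A)} {P' : Subalgebra B (KK I B)} {p' : Fin n → (P' →ₐ[B] B)}
    {x : Fam n A} {x' : Fam n B} {y : Fam n (Eps A)} {y' : Fam n (Eps B)}
    {Q : Subalgebra (Eps A) (KK I (Eps A))} {q : Fin n → (Q →ₐ[Eps A] Eps A)}
    {Q' : Subalgebra (Eps B) (KK I (Eps B))} {q' : Fin n → (Q' →ₐ[Eps B] Eps B)}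
    (a : Arrow φ x' x) (r : Arrow (eps0 A) x y) (r' : Arrow (eps0 B) x' y')
    (f : Arrow (epsMap φ) y' y) (hf : r'.f ≫ f.f = a.f ≫ r.f)
    (M : Mod x P p) (M' : Mod x' P' p') (N : Mod y Q q) (N' : Mod y' Q' q')
    (h1 : M.Over a M') (h2 : N.Over r M) (h3 : N.Over f N')
    (hQ : ∀ F ∈ Q', kmap (eps0 B) F ∈ P') : N'.Over r' M' := by
  have hc : N.Over (PBS.comp a r) M' :=
    (hMOC.1 r a (PBS.comp a r) N M M' rfl rfl h2).1 h1
  exact (hMOC.1 f r' (PBS.comp a r) N N' M' (eps_eq φ) hf h3).2 hc hQ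

end KCN

theorem t_KCN (hMCA : Stmt_MCA) (hMBC : Stmt_MBC) (hMOC : Stmt_MOC) (hXAR : Stmt_XAR)
    (hDMD : Stmt_DMD) (hPDB : Stmt_PDB) (hPDK : Stmt_PDK) (hKBC : Stmt_KBC) : Stmt_KCN := by
  intro I A B _ _ _ _ g P φ hKS z z'
  have hP : IsKr g P := hKS.kr
  have hP' : IsKr g (bc φ P) := (hKBC.2.2.2 hP φ).1
  obtain ⟨a, ha⟩ := hXAR φ (p' := nop (bc φ P)) hP (bcP_nop φ) z z'
  refine ⟨a, ?_⟩
  intro L L' hL l l' hl hl' d' d f hf
  obtain ⟨M, hM⟩ := hMCA hP z (nop P)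
  obtain ⟨M', hM'⟩ := hMCA hP' z' (nop (bc φ P))
  obtain ⟨δ, Md, hMd⟩ := hDMD hP M d
  obtain ⟨δ', hδ, hQ⟩ := hPDB hP φ δ
  obtain ⟨M'', hM''⟩ := mbc' hMBC f (hPDK hP δ).1 Md hQ (nop (Pdel (bc φ P) δ'))
    (bcP_nop (epsMap φ))
  have h1 : M''.Over d'.r M' :=
    KCN.ovr hMOC a d.r d'.r f hf M M' Md M'' (ha M M' hM hM') hMd hM''
      fun F hF => (mem_Pdel.1 hF).1
  rw [hl' M' hM' d' δ' M'' h1, hl M hM d δ Md hMd]
  exact hL δ δ' hδ

end Pool.Agent.MG.KX
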