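import Pool.Agent.MG.KX.StmtsK

/-!
# KCO: functions and first cohomology of the duo of a Krichever ring
-/

open CategoryTheory CategoryTheory.Limits AlgebraicGeometry TensorProduct

namespace Pool.Agent.MG.KX

open Pool.Agent.MG.G0 Pool.Agent.MG.GLU

namespace KCO

variable {I A : Type} [Fintype I] [CommRing A] {g : ℕ} {P : Subalgebra A (KK I A)}

theorem const (hP : IsKr g P) (z : Pole P) (p : P) (q : Rw P z.z)
    (h : (p : KK I A) = (q : KK I A)) : ∃ c : A, (p : KK I A) = algebraMap A (KK I A) c :=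
  hP.k1 p p.2 (by
    rw [h]
    exact q.2.2)

theorem coho (hDEN : Stmt_DEN) (hP : IsKr g P) (z : Pole P) :
    ∃ L : Rz P z.z →ₗ[A] (Fin g → A), Function.Surjective L ∧
      ∀ t : Rz P z.z, L t = 0 ↔ ∃ (p : P) (q : Rw P z.z), (t : KK I A) = p + q := by
  obtain ⟨L, h1, h2⟩ := hP.k2
  have h0 : ∀ f ∈ Pol I A 0, L f = 0 := fun f hf => (h2 f).2 ⟨0, zero_mem P, by rwa [sub_zero]⟩
  refine ⟨L ∘ₗ (Rz P z.z).val.toLinearMap, fun c => ?_, fun t => ?_⟩
  · obtain ⟨f, rfl⟩ := h1 c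
    obtain ⟨r, hr, hfr⟩ := (hDEN hP z).1 f 0
    rw [neg_zero] at hfr
    refine ⟨⟨r, hr⟩, ?_⟩
    have h3 := h0 _ hfr
    rw [map_sub, sub_eq_zero] at h3
    exact h3.symm
  · refine (Iff.trans (Iff.of_eq rfl) (h2 (t : KK I A))).trans ?_
    constructor
    · rintro ⟨p, hp, hq⟩
      exact ⟨⟨p, hp⟩, ⟨(t : KK I A) - p, sub_mem t.2 (le_Rz P z.z hp), hq⟩,
        (add_sub_cancel p (t : KK I A)).symm⟩
    · rintro ⟨p, q, h⟩
      refine ⟨p, p.2, ?_⟩
      rw [h, add_sub_cancel_left]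
      exact q.2.2

end KCO

theorem t_KCO (hDEN : Stmt_DEN) : Stmt_KCO := by
  intro I A _ _ g P hP z
  constructor
  · intro p q h
    have h' : Subtype.val (show P from p) = Subtype.val (show Rw P z.z from q) :=
      congrArg (fun r : Rz P z.z => (r : KK I A)) h
    obtain ⟨c, hc⟩ := KCO.const hP z p q h'
    exact ⟨c, Subtype.ext hc, Subtype.ext (h'.symm.trans hc)⟩
  · obtain ⟨L, h1, h2⟩ := KCO.coho hDEN hP z
    refine ⟨L, h1, fun t => (h2 t).trans ?_⟩
    constructor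
    · rintro ⟨p, q, h⟩
      exact ⟨p, q, Subtype.ext h⟩
    · rintro ⟨p, q, h⟩
      exact ⟨p, q, congrArg Subtype.val h⟩

end Pool.Agent.MG.KX
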