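import Pool.Agent.MG.KX.KCN
import Pool.Agent.MG.G0.KAU
import Pool.Agent.MG.G0.KBC

/-!
# KCR: covectors and changes of the index set
-/

open CategoryTheory CategoryTheory.Limits AlgebraicGeometry
open scoped TensorProduct

namespace Pool.Agent.MG.KX

open Pool.Agent.MG.G0 Pool.Agent.MG.GLU

namespace KCRx

theorem epsMap_id (A : Type) [CommRing A] : epsMap (RingHom.id A) = RingHom.id (Eps A) :=
  RingHom.ext fun z => TrivSqZeroExt.ext (by simp [epsMap]) (by simp [epsMap])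

end KCRx

theorem t_KCR (hMCA : Stmt_MCA) (hMBC : Stmt_MBC) (hMOC : Stmt_MOC) (hMRX : Stmt_MRX)
    (hXRX : Stmt_XRX) (hDMD : Stmt_DMD) (hPDR : Stmt_PDR) (hPDK : Stmt_PDK) : Stmt_KCR := by
  intro I I' A _ _ _ _ _ g P e hKS z z'
  have hP : IsKr g P := hKS.kr
  have hPe : IsKr g (reix e P) := G0.t_KAU.2 P e hP
  obtain ⟨a, ha⟩ := hXRX (p := nop P) e (p' := nop (reix e P)) hP (fun i => i.elim0) z z'
  refine ⟨a, ?_⟩
  intro L L' hL l l' hl hl' d' d f hf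
  obtain ⟨M, hM⟩ := hMCA hP z (nop P)
  obtain ⟨N, hN⟩ := hMRX.1 e M (nop (reix e P)) (fun i => i.elim0)
  obtain ⟨M', hM'⟩ := hMCA hPe z' (nop (reix e P))
  have haM : N.Over a M' := ha M N M' hM hN hM'
  obtain ⟨δ, Md, hMd⟩ := hDMD hP M d
  obtain ⟨δ', hδ, hQ⟩ := hPDR e P δ
  obtain ⟨Nd, hNd⟩ := hMRX.1 e Md (nop (reix e (Pdel P δ))) (fun i => i.elim0)
  have hNdN : Nd.Over d.r N := hMRX.2 d.r e Md M _ _ Nd N hNd hN hMd
  have hK : IsKr g (reix e (Pdel P δ)) := G0.t_KAU.2 (Pdel P δ) e (hPDK hP δ).1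
  have hb : bc (epsMap (RingHom.id A)) (reix e (Pdel P δ)) = Pdel (reix e P) δ' := by
    rw [KCRx.epsMap_id, hQ]
    exact G0.KBC.bc_id _
  obtain ⟨M'', hM''⟩ := mbc' hMBC f hK Nd hb (nop (Pdel (reix e P) δ'))
    (bcP_nop (epsMap (RingHom.id A)))
  have h1 : M''.Over d'.r M' :=
    KCN.ovr hMOC a d.r d'.r f hf N M' Nd M'' haM hNdN hM'' fun F hF => (mem_Pdel.1 hF).1
  rw [hl' M' hM' d' δ' M'' h1, hl M hM d δ Md hMd]
  refine hL δ δ' fun f f' h hff hfh => ?_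
  have e1 : f' = ⟨idx e (f : KK I A), idx_mem_reix e f.2⟩ := Subtype.ext (funext hff)
  rw [e1]
  exact hδ f h hfh

end Pool.Agent.MG.KX
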