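import Pool.Agent.MG.KX.StmtsC
import Pool.Agent.MG.PBS
import Pool.Agent.MG.G0.KBC

/-!
# KCZ: change of the pole
-/

open CategoryTheory CategoryTheory.Limits AlgebraicGeometry
open scoped TensorProduct

namespace Pool.Agent.MG.KX

open Pool.Agent.MG.G0 Pool.Agent.MG.GLU

namespace KCZ

theorem epsMap_id (A : Type) [CommRing A] :
    epsMap (RingHom.id A) = RingHom.id (Eps A) :=
  RingHom.ext fun x => by ext <;> simp [epsMap]

theorem bc_eps_id {I A : Type} [CommRing A] (Q : Subalgebra (Eps A) (KK I (Eps A))) :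
    bc (epsMap (RingHom.id A)) Q = Q := by
  rw [epsMap_id]
  exact KBC.bc_id Q

end KCZ

open KCZ in
theorem t_KCZ (hMCA : Stmt_MCA) (hMIS : Stmt_MIS) (hMBC : Stmt_MBC) (hMOC : Stmt_MOC)
    (hKPX : Stmt_KPX) (hDMD : Stmt_DMD) (_hPDB : Stmt_PDB) (hPDK : Stmt_PDK) : Stmt_KCZ := by
  intro I A _ _ _ g P hS z z'
  obtain ⟨M, hM⟩ := hMCA hS.kr z (nop P)
  obtain ⟨a, ha⟩ := hMIS hS.kr (hKPX (nop P) hS.kr z).1 M z'
  obtain ⟨M', hM'⟩ := hMCA hS.kr z' (nop P)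
  refine ⟨a, fun L l l' hl hl' d' d f h => ?_⟩
  obtain ⟨δ, Md, hMd⟩ := hDMD hS.kr M d
  obtain ⟨hkr, -, -, -⟩ := hPDK hS.kr δ
  obtain ⟨M'', hM''⟩ := mbc' hMBC f hkr Md (bc_eps_id (Pdel P δ)) (nop (Pdel P δ))
    (fun i => i.elim0)
  have hc : (d'.r.f ≫ f.f) = (PBS.comp a d.r).f := h
  have h1 : Md.Over (φ := eps0 A) (PBS.comp a d.r) M' :=
    (hMOC.1 d.r a (PBS.comp a d.r) Md M M' rfl rfl hMd).1 (ha M' hM')
  have h2 : M''.Over d'.r M' := by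
    refine (hMOC.1 f d'.r (χ := eps0 A) (PBS.comp a d.r) Md M'' M' ?_ hc hM'').2 h1 ?_
    · exact RingHom.ext fun x => by simp [epsMap]
    · intro F hF
      exact (mem_Pdel.1 hF).1
  rw [hl M hM d δ Md hMd, hl' M' hM' d' δ M'' h2]
  rfl

end Pool.Agent.MG.KX
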