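import Pool.Agent.MG.KX.StmtsE

/-!
# KDM: smooth Krichever rings are domains
-/

namespace Pool.Agent.MG.KX

open Pool.Agent.MG.G0 Pool.Agent.MG.GLU

namespace KDM

/-- A reduced Noetherian local ring with principal maximal ideal has no zero divisors. -/
theorem mul_ne_zero_of_principal {A : Type} [CommRing A] [IsNoetherianRing A] [IsLocalRing A]
    [IsReduced A] (t : A) (ht : IsLocalRing.maximalIdeal A ≤ Ideal.span {t})
    (ht' : t ∈ IsLocalRing.maximalIdeal A) {x y : A} (hx : x ≠ 0) (hy : y ≠ 0) : x * y ≠ 0 := by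
  classical
  have hM : IsLocalRing.maximalIdeal A = Ideal.span {t} :=
    le_antisymm ht ((Ideal.span_singleton_le_iff_mem _).2 ht')
  have key : ∀ z : A, z ≠ 0 → ∃ (n : ℕ) (u : A), IsUnit u ∧ z = t ^ n * u := by
    intro z hz
    have h1 : ∃ n : ℕ, z ∉ IsLocalRing.maximalIdeal A ^ n := by
      by_contra hcon
      push Not at hcon
      have h2 : z ∈ ⨅ i : ℕ, IsLocalRing.maximalIdeal A ^ i := by
        rw [Submodule.mem_iInf]
        exact hcon
      rw [Ideal.iInf_pow_eq_bot_of_isLocalRing _ (IsLocalRing.maximalIdeal.isMaximal A).ne_top]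
        at h2
      exact hz ((Submodule.mem_bot A).1 h2)
    have h3 := Nat.find_spec h1
    have h4 : Nat.find h1 ≠ 0 := by
      intro h0
      rw [h0, pow_zero, Ideal.one_eq_top] at h3
      exact h3 trivial
    obtain ⟨n, hn⟩ := Nat.exists_eq_succ_of_ne_zero h4
    have h5 : z ∈ IsLocalRing.maximalIdeal A ^ n := by
      by_contra h6
      exact Nat.find_min h1 (m := n) (by omega) h6
    rw [hM, Ideal.span_singleton_pow, Ideal.mem_span_singleton] at h5
    obtain ⟨u, hu⟩ := h5
    refine ⟨n, u, ?_, hu⟩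
    by_contra hnu
    apply h3
    have h6 : u ∈ IsLocalRing.maximalIdeal A := (IsLocalRing.mem_maximalIdeal u).2 hnu
    rw [hM, Ideal.mem_span_singleton] at h6
    obtain ⟨v, hv⟩ := h6
    rw [hn, hM, Ideal.span_singleton_pow, Ideal.mem_span_singleton]
    refine ⟨v, ?_⟩
    rw [hu, hv, pow_succ]
    ring
  obtain ⟨n, u, hu, rfl⟩ := key x hx
  obtain ⟨m, v, hv, rfl⟩ := key y hy
  intro h0
  have h1 : t ^ (n + m) * (u * v) = 0 := by
    rw [← h0, pow_add]
    ring
  have h2 : t ^ (n + m) = 0 := by
    obtain ⟨w, hw⟩ := (hu.mul hv).exists_right_inv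
    calc t ^ (n + m) = t ^ (n + m) * (u * v * w) := by rw [hw, mul_one]
      _ = t ^ (n + m) * (u * v) * w := by ring
      _ = 0 := by rw [h1, zero_mul]
  by_cases h3 : n + m = 0
  · rw [h3, pow_zero] at h2
    exact one_ne_zero h2
  · have h4 : t = 0 := by
      exact (pow_eq_zero_iff h3).1 h2
    rcases Nat.eq_zero_or_pos n with h5 | h5
    · apply hy
      have h6 : m ≠ 0 := by omega
      rw [h4, zero_pow h6, zero_mul]
    · apply hx
      rw [h4, zero_pow h5.ne', zero_mul]

/-- The points of a finitely generated algebra over an algebraically closed field. -/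
theorem exists_point {K P : Type} [Field K] [IsAlgClosed K] [CommRing P] [Algebra K P]
    [Algebra.FiniteType K P] (m : Ideal P) [m.IsMaximal] :
    ∃ x : P → K, ∀ f : P, f - algebraMap K P (x f) ∈ m := by
  letI := Ideal.Quotient.field m
  haveI : Algebra.FiniteType K (P ⧸ m) :=
    Algebra.FiniteType.of_surjective (Ideal.Quotient.mkₐ K m) Ideal.Quotient.mk_surjective
  haveI : Module.Finite K (P ⧸ m) := finite_of_finite_type_of_isJacobsonRing K (P ⧸ m)
  haveI : Algebra.IsIntegral K (P ⧸ m) := inferInstance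
  have h1 := (IsAlgClosed.algebraMap_bijective_of_isIntegral (k := K) (K := P ⧸ m)).2
  have h2 : ∀ f : P, ∃ c : K, f - algebraMap K P c ∈ m := by
    intro f
    obtain ⟨c, hc⟩ := h1 (Ideal.Quotient.mk m f)
    refine ⟨c, ?_⟩
    rw [← Ideal.Quotient.eq]
    rw [← hc]
    rfl
  choose x hx using h2
  exact ⟨x, hx⟩

/-- The cotangent space is generated by one element. -/
theorem exists_param {K P : Type} [Field K] [IsAlgClosed K] [CommRing P] [Algebra K P]
    [Algebra.FiniteType K P] (hS : SmC K P) (m : Ideal P) [hm : m.IsMaximal] :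
    ∃ t ∈ m, m ≤ Ideal.span {t} ⊔ m * m := by
  obtain ⟨x, hx⟩ := exists_point (K := K) m
  have huniq : ∀ (f : P) (c : K), f - algebraMap K P c ∈ m → x f = c := by
    intro f c hc
    by_contra hne
    have h1 : algebraMap K P (x f - c) ∈ m := by
      have := sub_mem hc (hx f)
      rw [map_sub]
      have h2 : f - algebraMap K P c - (f - algebraMap K P (x f)) =
        algebraMap K P (x f) - algebraMap K P c := by ring
      rw [h2] at this
      exact this
    have h2 : IsUnit (algebraMap K P (x f - c)) :=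
      (IsUnit.mk0 _ (sub_ne_zero.2 hne)).map (algebraMap K P)
    exact hm.ne_top (Ideal.eq_top_of_isUnit_mem _ h1 h2)
  have hxm : ∀ f ∈ m, x f = 0 := fun f hf => huniq f 0 (by rw [map_zero, sub_zero]; exact hf)
  have hxmul : ∀ f g, x (f * g) = x f * x g := by
    intro f g
    apply huniq
    have h1 : f * g - algebraMap K P (x f * x g) =
        g * (f - algebraMap K P (x f)) + algebraMap K P (x f) * (g - algebraMap K P (x g)) := by
      rw [map_mul]
      ring
    rw [h1]
    exact add_mem (m.mul_mem_left _ (hx f)) (m.mul_mem_left _ (hx g))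
  obtain ⟨n, D, g, hD1, hD2⟩ := hS
  have hex : ∃ i, D i (g i) ∉ m := by
    by_contra hcon
    push Not at hcon
    apply hm.ne_top
    rw [Ideal.eq_top_iff_one, ← hD1]
    exact sum_mem fun i _ => hcon i
  obtain ⟨i, hi⟩ := hex
  set t := g i - algebraMap K P (x (g i)) with ht
  refine ⟨t, hx _, ?_⟩
  intro h hh
  by_contra hcon
  let W : Submodule K P := (Ideal.span {t} ⊔ m * m).restrictScalars K
  have hhW : h ∉ W := hcon
  obtain ⟨φ, hφ1, hφ2⟩ := Submodule.exists_dual_map_eq_bot_of_notMem hhW inferInstance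
  have hφW : ∀ w ∈ Ideal.span {t} ⊔ m * m, φ w = 0 := by
    intro w hw
    have h1 : φ w ∈ W.map φ := Submodule.mem_map_of_mem (p := W) hw
    rw [hφ2] at h1
    exact (Submodule.mem_bot K).1 h1
  -- the derivation
  let δ₀ : P →ₗ[K] (P ⧸ m) :=
    { toFun := fun f => algebraMap K (P ⧸ m) (φ (f - algebraMap K P (x f)))
      map_add' := by
        intro f f'
        have h1 : x (f + f') = x f + x f' := by
          apply huniq
          have h2 : f + f' - algebraMap K P (x f + x f') =
            (f - algebraMap K P (x f)) + (f' - algebraMap K P (x f')) := by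
            rw [map_add]; ring
          rw [h2]
          exact add_mem (hx f) (hx f')
        rw [h1, ← map_add, ← map_add]
        congr 2
        rw [map_add]
        ring
      map_smul' := by
        intro c f
        have h1 : x (c • f) = c * x f := by
          apply huniq
          have h2 : c • f - algebraMap K P (c * x f) = c • (f - algebraMap K P (x f)) := by
            rw [smul_sub, map_mul, Algebra.smul_def, Algebra.smul_def]
          rw [h2, Algebra.smul_def]
          exact m.mul_mem_left _ (hx f)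
        have h3 : c • f - algebraMap K P (x (c • f)) = c • (f - algebraMap K P (x f)) := by
          rw [h1, smul_sub, map_mul, Algebra.smul_def, Algebra.smul_def]
        rw [h3, map_smul, RingHom.id_apply, smul_eq_mul, map_mul, Algebra.smul_def] }
  have hδ₀ : ∀ f, δ₀ f = algebraMap K (P ⧸ m) (φ (f - algebraMap K P (x f))) := fun _ => rfl
  have hmk : ∀ f : P, Ideal.Quotient.mk m f = algebraMap K (P ⧸ m) (x f) := by
    intro f
    have h1 := Ideal.Quotient.eq.2 (hx f)
    rw [h1]
    rfl
  let δ : Derivation K P (P ⧸ m) := Derivation.mk' δ₀ (by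
    intro f f'
    have h1 : f * f' - algebraMap K P (x (f * f')) =
        (f - algebraMap K P (x f)) * (f' - algebraMap K P (x f')) +
        (x f • (f' - algebraMap K P (x f')) + x f' • (f - algebraMap K P (x f))) := by
      rw [hxmul, map_mul, Algebra.smul_def, Algebra.smul_def]
      ring
    have h2 : φ ((f - algebraMap K P (x f)) * (f' - algebraMap K P (x f'))) = 0 :=
      hφW _ (Ideal.mem_sup_right (Ideal.mul_mem_mul (hx f) (hx f')))
    have h3 : ∀ (a : P) (b : P ⧸ m), a • b = Ideal.Quotient.mk m a * b := fun a b => rfl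
    rw [hδ₀, hδ₀, hδ₀, h1, map_add, h2, zero_add, map_add, map_smul, map_smul, h3, h3, hmk, hmk,
      smul_eq_mul, smul_eq_mul, map_add, map_mul, map_mul])
  have hδ : ∀ f, δ f = algebraMap K (P ⧸ m) (φ (f - algebraMap K P (x f))) := fun _ => rfl
  have h1 := congrArg δ.liftKaehlerDifferential (hD2 (D i) (g i) h)
  rw [map_smul, map_smul, Derivation.liftKaehlerDifferential_comp_D,
    Derivation.liftKaehlerDifferential_comp_D] at h1
  have h2 : δ (g i) = 0 := by
    rw [hδ, hφW _ (Ideal.mem_sup_left (Ideal.mem_span_singleton_self t)), map_zero]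
  rw [h2, smul_zero, hδ, hxm h hh, map_zero, sub_zero] at h1
  have h3 : Ideal.Quotient.mk m (D i (g i)) * algebraMap K (P ⧸ m) (φ h) = 0 := h1
  haveI : IsDomain (P ⧸ m) := Ideal.Quotient.isDomain m
  rcases mul_eq_zero.1 h3 with h4 | h4
  · exact hi (Ideal.Quotient.eq_zero_iff_mem.1 h4)
  · apply hφ1
    haveI : Nontrivial (P ⧸ m) := inferInstance
    exact (map_eq_zero_iff (algebraMap K (P ⧸ m)) (algebraMap K (P ⧸ m)).injective).1 h4

/-- The localizations at the maximal ideals have no zero divisors. -/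
theorem local_domain {K P : Type} [Field K] [IsAlgClosed K] [CommRing P] [Algebra K P]
    [Algebra.FiniteType K P] [IsReduced P] (hS : SmC K P) (m : Ideal P) [hm : m.IsMaximal]
    {f h : P} (hfh : f * h = 0) : ∃ s ∉ m, s * f = 0 ∨ s * h = 0 := by
  haveI : IsNoetherianRing P := Algebra.FiniteType.isNoetherianRing K P
  haveI : m.IsPrime := hm.isPrime
  obtain ⟨t, htm, ht⟩ := exists_param (K := K) hS m
  let A := Localization.AtPrime m
  haveI : IsNoetherianRing A := IsLocalization.isNoetherianRing m.primeCompl A inferInstance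
  haveI : IsReduced A := inferInstance
  have hmax : Ideal.map (algebraMap P A) m = IsLocalRing.maximalIdeal A :=
    Localization.AtPrime.map_eq_maximalIdeal
  have h1 : IsLocalRing.maximalIdeal A ≤ Ideal.span {algebraMap P A t} := by
    refine Submodule.le_of_le_smul_of_le_jacobson_bot (I := IsLocalRing.maximalIdeal A)
      (IsNoetherian.noetherian _) (IsLocalRing.maximalIdeal_le_jacobson ⊥) ?_
    have h2 := Ideal.map_mono (f := algebraMap P A) ht
    rw [Ideal.map_sup, Ideal.map_mul, Ideal.map_span, Set.image_singleton, hmax] at h2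
    exact h2
  have h2 : algebraMap P A t ∈ IsLocalRing.maximalIdeal A := by
    rw [← hmax]
    exact Ideal.mem_map_of_mem _ htm
  have h3 : algebraMap P A f * algebraMap P A h = 0 := by rw [← map_mul, hfh, map_zero]
  have h4 : algebraMap P A f = 0 ∨ algebraMap P A h = 0 := by
    by_contra hcon
    push Not at hcon
    exact mul_ne_zero_of_principal (algebraMap P A t) h1 h2 hcon.1 hcon.2 h3
  rcases h4 with h4 | h4
  · obtain ⟨s, hs⟩ := (IsLocalization.map_eq_zero_iff m.primeCompl A f).1 h4
    exact ⟨s, s.2, Or.inl hs⟩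
  · obtain ⟨s, hs⟩ := (IsLocalization.map_eq_zero_iff m.primeCompl A h).1 h4
    exact ⟨s, s.2, Or.inr hs⟩

open Polynomial in
/-- A partner of a zero divisor. -/
theorem exists_partner {I K : Type} [Field K] {P : Subalgebra K (KK I K)} (z : P)
    (hfin : (Polynomial.aeval (R := K) z).toRingHom.Finite)
    (hunit : ∀ h : K[X], h.Monic → IsUnit (Polynomial.aeval (z : KK I K) h)) (f : P) :
    ∃ h : P, f * h = 0 ∧ ∀ i : I, (f : KK I K) i = 0 → (h : KK I K) i ≠ 0 := by
  classical
  haveI : IsReduced P := isReduced_of_injective P.val Subtype.val_injective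
  obtain ⟨q, hq1, hq2⟩ := hfin.to_isIntegral f
  obtain ⟨q', hq3, hq4⟩ := q.exists_eq_pow_rootMultiplicity_mul_and_not_dvd hq1.ne_zero 0
  rw [C_0, sub_zero] at hq3 hq4
  rw [X_dvd_iff] at hq4
  set e := q.rootMultiplicity 0 with he
  set φ : K[X] →+* P := (Polynomial.aeval (R := K) z).toRingHom with hφ
  refine ⟨q'.eval₂ φ f, ?_, ?_⟩
  · rw [hq3, eval₂_mul, eval₂_X_pow] at hq2
    have h1 : (f * q'.eval₂ φ f) ^ (e + 1) = 0 := by
      rw [mul_pow, pow_succ f, pow_succ (q'.eval₂ φ f)]
      calc f ^ e * f * ((q'.eval₂ φ f) ^ e * q'.eval₂ φ f) =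
          (f ^ e * q'.eval₂ φ f) * (f * (q'.eval₂ φ f) ^ e) := by ring
        _ = 0 := by rw [hq2, zero_mul]
    exact (pow_eq_zero_iff (Nat.succ_ne_zero e)).1 h1
  · intro i hi h0
    let ev : P →+* LaurentSeries K := (Pi.evalRingHom (fun _ : I => LaurentSeries K) i).comp
      (P.val : P →+* KK I K)
    have hev : ∀ x : P, ev x = (x : KK I K) i := fun _ => rfl
    have h1 : ev (q'.eval₂ φ f) = 0 := by rw [hev]; exact h0
    rw [hom_eval₂, hev, hi, eval₂_at_zero] at h1
    set a := q'.coeff 0 with ha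
    have h2 : (ev.comp φ) a = (Polynomial.aeval (z : KK I K) a) i := by
      have h3 : ((Polynomial.aeval (R := K) z a : P) : KK I K) =
          Polynomial.aeval (z : KK I K) a := by
        have := Polynomial.aeval_algHom_apply P.val z a
        exact this.symm
      rw [← h3]
      rfl
    have h4 : IsUnit (Polynomial.aeval (z : KK I K) a) := by
      have h5 := hunit _ (monic_mul_leadingCoeff_inv hq4)
      rw [map_mul] at h5
      exact isUnit_of_mul_isUnit_left h5
    rw [h2] at h1
    have h6 : IsUnit ((Polynomial.aeval (z : KK I K) a) i) := h4.map (Pi.evalRingHom _ i)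
    rw [h1] at h6
    exact not_isUnit_zero h6

end KDM

/-- Smooth Krichever rings are domains. -/
theorem t_KDM (hKNZ : Stmt_KNZ) (hKFG : Stmt_KFG) : Stmt_KDM := by
  classical
  intro I K _ _ _ _ g P hP hT
  obtain ⟨hfp, hfg⟩ := hKFG hP
  haveI : Algebra.FiniteType K P := inferInstance
  haveI : IsReduced P := isReduced_of_injective P.val Subtype.val_injective
  obtain ⟨⟨N, hN⟩, hNN⟩ := hKNZ hP
  obtain ⟨z, hzP, hz⟩ := (hNN N hN).2.2 (N + 1) (by omega)
  obtain ⟨-, -, hfin, hunit, -⟩ := hfg N (N + 1) ⟨z, hzP⟩ hN (by omega) hz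
  have key : ∀ (i : I) (f : P), (f : KK I K) i = 0 → f = 0 := by
    intro i₀ f hf
    by_contra hf0
    obtain ⟨h, hfh, hh⟩ := KDM.exists_partner (⟨z, hzP⟩ : P) hfin hunit f
    have hi₁ : ∃ i₁, (f : KK I K) i₁ ≠ 0 := by
      by_contra hcon
      push Not at hcon
      exact hf0 (Subtype.ext (funext hcon))
    obtain ⟨i₁, hi₁⟩ := hi₁
    let 𝔞 : Ideal P := LinearMap.ker (LinearMap.toSpanSingleton P P h)
    let 𝔟 : Ideal P := LinearMap.ker (LinearMap.toSpanSingleton P P f)
    have h𝔞 : ∀ x, x ∈ 𝔞 ↔ x * h = 0 := fun x => Iff.rfl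
    have h𝔟 : ∀ x, x ∈ 𝔟 ↔ x * f = 0 := fun x => Iff.rfl
    have htop : 𝔞 ⊔ 𝔟 = ⊤ := by
      by_contra hne
      obtain ⟨m, hm, hle⟩ := Ideal.exists_le_maximal _ hne
      obtain ⟨s, hs, h1 | h1⟩ := KDM.local_domain (K := K) hT.2 m hfh
      · exact hs (hle (Ideal.mem_sup_right ((h𝔟 s).2 h1)))
      · exact hs (hle (Ideal.mem_sup_left ((h𝔞 s).2 h1)))
    have h1 : (1 : P) ∈ 𝔞 ⊔ 𝔟 := by rw [htop]; trivial
    obtain ⟨a, ha, b, hb, hab⟩ := Submodule.mem_sup.1 h1
    rw [h𝔞] at ha
    rw [h𝔟] at hb
    have hai : ∀ i, (f : KK I K) i = 0 → (a : KK I K) i = 0 := by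
      intro i hi
      have h2 : (a : KK I K) i * (h : KK I K) i = 0 := congrFun (congrArg Subtype.val ha) i
      exact (mul_eq_zero.1 h2).resolve_right (hh i hi)
    have hbi : ∀ i, (f : KK I K) i ≠ 0 → (a : KK I K) i = 1 := by
      intro i hi
      have h2 : (b : KK I K) i * (f : KK I K) i = 0 := congrFun (congrArg Subtype.val hb) i
      have h3 : (b : KK I K) i = 0 := (mul_eq_zero.1 h2).resolve_right hi
      have h4 : (a : KK I K) i + (b : KK I K) i = 1 := congrFun (congrArg Subtype.val hab) i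
      rw [h3, add_zero] at h4
      exact h4
    have haP : (a : KK I K) ∈ Pol I K 0 := by
      intro i m hm
      by_cases hi : (f : KK I K) i = 0
      · rw [hai i hi, HahnSeries.coeff_zero]
      · rw [hbi i hi, HahnSeries.coeff_one, if_neg (by omega)]
    obtain ⟨c, hc⟩ := hP.k1 _ a.2 haP
    have h5 : algebraMap K (LaurentSeries K) c = 0 := by
      rw [← hai i₀ hf, hc]
      rfl
    have h6 : algebraMap K (LaurentSeries K) c = 1 := by
      rw [← hbi i₁ hi₁, hc]
      rfl
    rw [h5] at h6
    exact zero_ne_one h6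
  refine ⟨?_, key⟩
  haveI : Nontrivial P := by
    refine ⟨⟨0, 1, fun h01 => ?_⟩⟩
    have i := Classical.arbitrary I
    have h2 : (0 : LaurentSeries K) = 1 := congrFun (congrArg Subtype.val h01) i
    exact zero_ne_one h2
  haveI : NoZeroDivisors P := by
    refine ⟨fun {x y} hxy => ?_⟩
    have i := Classical.arbitrary I
    have h2 : (x : KK I K) i * (y : KK I K) i = 0 := congrFun (congrArg Subtype.val hxy) i
    rcases mul_eq_zero.1 h2 with h3 | h3
    · exact Or.inl (key i x h3)
    · exact Or.inr (key i y h3)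
  exact NoZeroDivisors.to_isDomain P

end Pool.Agent.MG.KX
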