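import Pool.Agent.MG.KX.StmtsK
import Pool.Agent.MG.G0.KFG
import Pool.Agent.MG.G0.KSP
import Pool.Agent.MG.G0.KNZ

/-!
# Finiteness of the second chart
-/

open CategoryTheory CategoryTheory.Limits AlgebraicGeometry TensorProduct

namespace Pool.Agent.MG.KX

open Pool.Agent.MG.G0 Pool.Agent.MG.GLU

namespace KFWx

section abs

variable {A R : Type} [CommRing A] [CommRing R] [Algebra A R]

/-- The structure of an algebra over the polynomial ring. -/
theorem tower (w : R) :
    letI := (Polynomial.aeval (R := A) w).toRingHom.toAlgebra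
    IsScalarTower A (Polynomial A) R := by
  letI := (Polynomial.aeval (R := A) w).toRingHom.toAlgebra
  refine IsScalarTower.of_algebraMap_eq fun a => ?_
  change algebraMap A R a = Polynomial.aeval w (algebraMap A (Polynomial A) a)
  rw [AlgHom.commutes]

theorem finite_aeval (w : R) (Q : Submodule A R) (hfg : Q.FG)
    (hgen : ∀ f : R, ∃ F : Polynomial R, (∀ k, F.coeff k ∈ Q) ∧ f = F.eval w) :
    (Polynomial.aeval (R := A) w).toRingHom.Finite := by
  letI := (Polynomial.aeval (R := A) w).toRingHom.toAlgebra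
  haveI := tower (A := A) w
  change Module.Finite (Polynomial A) R
  obtain ⟨S, hS⟩ := hfg
  refine ⟨⟨S, ?_⟩⟩
  rw [eq_top_iff]
  intro f _
  obtain ⟨F, hF, rfl⟩ := hgen f
  rw [Polynomial.eval_eq_sum_range]
  refine Submodule.sum_mem _ fun k _ => ?_
  have h2 : F.coeff k * w ^ k = (Polynomial.X ^ k : Polynomial A) • F.coeff k := by
    rw [Algebra.smul_def]
    change _ = Polynomial.aeval w (Polynomial.X ^ k : Polynomial A) * F.coeff k
    rw [map_pow, Polynomial.aeval_X, mul_comm]
  rw [h2]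
  refine Submodule.smul_mem _ _ ?_
  have h3 : F.coeff k ∈ Submodule.span A (S : Set R) := by
    rw [hS]
    exact hF k
  exact Submodule.span_le_restrictScalars A (Polynomial A) (S : Set R) h3

/-- The multiplication by `w`. -/
noncomputable def i2 (w : R) (Q0 Q : Submodule A R) (h : ∀ x ∈ Q0, w * x ∈ Q) : Q0 →ₗ[A] Q :=
  (LinearMap.mulLeft A w).restrict fun x hx => h x hx

/-- The relations. -/
noncomputable def rel (w : R) (Q0 Q : Submodule A R) (hle : Q0 ≤ Q) (h : ∀ x ∈ Q0, w * x ∈ Q) :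
    Q0 →ₗ[A] Polynomial A ⊗[A] Q :=
  TensorProduct.mk A (Polynomial A) Q Polynomial.X ∘ₗ Submodule.inclusion hle -
    TensorProduct.mk A (Polynomial A) Q 1 ∘ₗ i2 w Q0 Q h

theorem rel_apply (w : R) (Q0 Q : Submodule A R) (hle : Q0 ≤ Q) (h : ∀ x ∈ Q0, w * x ∈ Q)
    (x : Q0) : rel w Q0 Q hle h x = (Polynomial.X : Polynomial A) ⊗ₜ Submodule.inclusion hle x -
      1 ⊗ₜ i2 w Q0 Q h x := rfl

theorem finitePresentation (w : R) (Q0 Q : Submodule A R) (hle : Q0 ≤ Q)
    (h : ∀ x ∈ Q0, w * x ∈ Q) (hcan : ∀ x : R, w * x = 0 → x = 0)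
    (hk : ∀ x ∈ Q, ∀ y : R, x = w * y → ∃ x' ∈ Q0, x = w * x')
    (hgen : ∀ f : R, ∃ F : Polynomial R, (∀ k, F.coeff k ∈ Q) ∧ f = F.eval w)
    (hfin : Module.Finite A Q0) (hfp : Module.FinitePresentation A Q) :
    Algebra.FinitePresentation A R := by
  let _ := (Polynomial.aeval (R := A) w).toRingHom.toAlgebra
  have _ := tower (A := A) w
  have hsm : ∀ (q : Polynomial A) (x : R), q • x = Polynomial.aeval w q * x := fun q x =>
    Algebra.smul_def q x
  set r := rel w Q0 Q hle h with hr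
  set l : Polynomial A ⊗[A] Q →ₗ[Polynomial A] R :=
    LinearMap.liftBaseChange (Polynomial A) Q.subtype with hl
  have hl1 : ∀ (p : Polynomial A) (x : Q), l (p ⊗ₜ x) = Polynomial.aeval w p * x := by
    intro p x
    rw [hl, LinearMap.liftBaseChange_tmul, hsm]
    rfl
  have hlr : ∀ x, l (r x) = 0 := by
    intro x
    rw [hr, rel_apply, map_sub, hl1, hl1, Polynomial.aeval_X, map_one, one_mul, sub_eq_zero]
    rfl
  have hsurj : Function.Surjective l := by
    intro f
    obtain ⟨F, hF, rfl⟩ := hgen f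
    refine ⟨∑ k ∈ Finset.range (F.natDegree + 1), (Polynomial.X ^ k : Polynomial A) ⊗ₜ[A]
      (⟨F.coeff k, hF k⟩ : Q), ?_⟩
    rw [map_sum, Polynomial.eval_eq_sum_range]
    refine Finset.sum_congr rfl fun k _ => ?_
    rw [hl1, map_pow, Polynomial.aeval_X, mul_comm]
  have hker : LinearMap.ker l = LinearMap.range (LinearMap.liftBaseChange (Polynomial A) r) := by
    apply le_antisymm
    · intro t ht
      rw [LinearMap.mem_ker] at ht
      obtain ⟨n, y, rfl⟩ := KFG.exists_tensor t
      revert y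
      induction n with
      | zero =>
        intro y _
        rw [Finset.sum_range_zero]
        exact Submodule.zero_mem _
      | succ n ih =>
        intro y hy
        have h1 : ∑ k ∈ Finset.range (n + 1), w ^ k * (y k : R) = 0 := by
          rw [← hy, map_sum]
          refine Finset.sum_congr rfl fun k _ => ?_
          rw [hl1, map_pow, Polynomial.aeval_X]
        rw [Finset.sum_range_succ', pow_zero, one_mul] at h1
        have h2 : ∑ k ∈ Finset.range n, w ^ (k + 1) * (y (k + 1) : R) =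
            w * ∑ k ∈ Finset.range n, w ^ k * (y (k + 1) : R) := by
          rw [Finset.mul_sum]
          exact Finset.sum_congr rfl fun k _ => by rw [pow_succ']; ring
        have h3 : (y 0 : R) = w * -∑ k ∈ Finset.range n, w ^ k * (y (k + 1) : R) := by
          rw [mul_neg, ← h2]
          exact eq_neg_of_add_eq_zero_right h1
        rcases n with _ | n
        · rw [Finset.sum_range_zero, neg_zero, mul_zero] at h3
          have h4 : y 0 = 0 := Subtype.ext h3
          rw [Finset.sum_range_one, h4, TensorProduct.tmul_zero]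
          exact Submodule.zero_mem _
        · obtain ⟨x', hx', hx⟩ := hk _ (y 0).2 _ h3
          have h4 : y 0 = i2 w Q0 Q h ⟨x', hx'⟩ := Subtype.ext hx
          have h5 : ∑ k ∈ Finset.range (n + 1 + 1), (Polynomial.X ^ k : Polynomial A) ⊗ₜ[A] y k =
              (Polynomial.X : Polynomial A) • (∑ k ∈ Finset.range (n + 1),
                (Polynomial.X ^ k : Polynomial A) ⊗ₜ[A]
                  (Function.update (fun k => y (k + 1)) 0
                    (y 1 + Submodule.inclusion hle ⟨x', hx'⟩)) k) - r ⟨x', hx'⟩ := by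
            rw [Finset.sum_range_succ', Finset.sum_range_succ' (n := n),
              Finset.sum_range_succ' (n := n) (f := fun k => (Polynomial.X ^ k : Polynomial A) ⊗ₜ[A]
                  (Function.update (fun k => y (k + 1)) 0
                    (y 1 + Submodule.inclusion hle ⟨x', hx'⟩)) k), Function.update_self,
              h4, hr, rel_apply, pow_zero, TensorProduct.tmul_add, smul_add, smul_add,
              TensorProduct.smul_tmul', TensorProduct.smul_tmul', smul_eq_mul, mul_one,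
              Finset.smul_sum]
            have h6 : ∀ k ∈ Finset.range n, (Polynomial.X : Polynomial A) •
                ((Polynomial.X ^ (k + 1) : Polynomial A) ⊗ₜ[A]
                  (Function.update (fun k => y (k + 1)) 0
                    (y 1 + Submodule.inclusion hle ⟨x', hx'⟩)) (k + 1)) =
                (Polynomial.X ^ (k + 1 + 1) : Polynomial A) ⊗ₜ[A] y (k + 1 + 1) := by
              intro k _
              rw [Function.update_of_ne (Nat.succ_ne_zero k), TensorProduct.smul_tmul',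
                smul_eq_mul, ← pow_succ']
            rw [Finset.sum_congr rfl h6, zero_add, pow_one]
            abel
          rw [h5]
          have h6 : l (∑ k ∈ Finset.range (n + 1),
                (Polynomial.X ^ k : Polynomial A) ⊗ₜ[A]
                  (Function.update (fun k => y (k + 1)) 0
                    (y 1 + Submodule.inclusion hle ⟨x', hx'⟩)) k) = 0 := by
            refine hcan _ ?_
            rw [h5, map_sub, hlr, sub_zero, map_smul, hsm, Polynomial.aeval_X] at hy
            exact hy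
          exact Submodule.sub_mem _ (Submodule.smul_mem _ _ (ih _ h6))
            ⟨1 ⊗ₜ ⟨x', hx'⟩, LinearMap.liftBaseChange_one_tmul _ _ _⟩
    · rintro _ ⟨t, rfl⟩
      rw [LinearMap.mem_ker]
      induction t using TensorProduct.induction_on with
      | zero => simp
      | tmul p x => rw [LinearMap.liftBaseChange_tmul, map_smul, hlr, smul_zero]
      | add s t hs ht => rw [map_add, map_add, hs, ht, add_zero]
  have hfg : (LinearMap.ker l).FG := by
    rw [hker]
    exact Submodule.fg_range _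
  have hT := KFG.fp_tensor Q hfp
  have h1 : Module.FinitePresentation (Polynomial A) R :=
    Module.finitePresentation_of_surjective l hsurj hfg
  have h2 : Algebra.FinitePresentation (Polynomial A) R :=
    Algebra.FinitePresentation.of_finitePresentation (Polynomial A) R
  exact Algebra.FinitePresentation.trans A (Polynomial A) R

/-- A union of flat submodules is flat. -/
theorem flat_union {M : Type} [AddCommGroup M] [Module A M] (W : ℕ → Submodule A M)
    (hmono : Monotone W) (m : ℕ) (hflat : ∀ n, m ≤ n → Module.Flat A (W n))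
    (hun : ∀ x : M, ∃ n, x ∈ W n) : Module.Flat A M := by
  refine Module.Flat.of_forall_isTrivialRelation fun {l f x} hfx => ?_
  choose n hn using fun i => hun (x i)
  obtain ⟨N, hN⟩ : ∃ N, m ≤ N ∧ ∀ i, n i ≤ N := by
    refine ⟨m + ∑ i, n i, by omega, fun i => ?_⟩
    have := Finset.single_le_sum (f := n) (fun _ _ => Nat.zero_le _) (Finset.mem_univ i)
    omega
  have hmem : ∀ i, x i ∈ W N := fun i => hmono (hN.2 i) (hn i)
  have hF := hflat N hN.1
  have h1 : ∑ i, f i • (⟨x i, hmem i⟩ : W N) = 0 := by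
    apply Subtype.ext
    rw [AddSubmonoidClass.coe_finsetSum]
    simpa using hfx
  obtain ⟨κ, a, y, h2, h3⟩ := Module.Flat.isTrivialRelation_of_sum_smul_eq_zero h1
  refine ⟨κ, a, fun j => (y j : M), fun i => ?_, h3⟩
  have h4 := congrArg (Subtype.val) (h2 i)
  rw [AddSubmonoidClass.coe_finsetSum] at h4
  exact h4

end abs

section main

variable {I A : Type} [CommRing A] {g : ℕ} {P : Subalgebra A (KK I A)}

/-- The elements `x` of the second chart with `z ^ n x ∈ P`. -/
noncomputable def W (z : Pole P) (n : ℕ) : Submodule A (Rw P z.z) where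
  carrier := {x | (z.z : KK I A) ^ n * (x : KK I A) ∈ P}
  add_mem' {x y} hx hy := by
    change (z.z : KK I A) ^ n * ((x : KK I A) + (y : KK I A)) ∈ P
    rw [mul_add]
    exact add_mem hx hy
  zero_mem' := by
    change (z.z : KK I A) ^ n * (0 : KK I A) ∈ P
    rw [mul_zero]
    exact zero_mem P
  smul_mem' a x hx := by
    change (z.z : KK I A) ^ n * (a • (x : KK I A)) ∈ P
    rw [mul_smul_comm]
    exact P.smul_mem hx a

theorem mem_W {z : Pole P} {n : ℕ} {x : Rw P z.z} :
    x ∈ W z n ↔ (z.z : KK I A) ^ n * (x : KK I A) ∈ P := Iff.rfl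

theorem W_mono (z : Pole P) : Monotone (W z) := by
  refine monotone_nat_of_le_succ fun n x hx => ?_
  rw [mem_W, pow_succ', mul_assoc]
  exact mul_mem z.z.2 hx

theorem exists_W (z : Pole P) (x : Rw P z.z) : ∃ n, x ∈ W z n := x.2.1

theorem zw_pow (z : Pole P) (n : ℕ) : (z.z : KK I A) ^ n * z.w ^ n = 1 := by
  rw [← mul_pow, z.zw, one_pow]

theorem wpow_mem (z : Pole P) (n : ℕ) : z.w ^ n ∈ Pol I A (-(n * z.d : ℤ)) := by
  have h := KFG.pow_mem_Pol z.mem n
  rwa [mul_neg] at h

theorem mul_mem_PP {z : Pole P} {n : ℕ} {x : Rw P z.z} (hx : x ∈ W z n) :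
    (z.z : KK I A) ^ n * (x : KK I A) ∈ PP P (n * z.d) := by
  refine ⟨hx, ?_⟩
  have h := mul_mem_Pol (KFG.pow_mem_Pol z.mon.1 n) x.2.2
  rwa [add_zero] at h

theorem div_mem_Rw {z : Pole P} {n : ℕ} {p : KK I A} (hp : p ∈ PP P (n * z.d)) :
    z.w ^ n * p ∈ Rw P z.z := by
  refine ⟨⟨n, ?_⟩, ?_⟩
  · rw [← mul_assoc, zw_pow, one_mul]
    exact hp.1
  · have h := mul_mem_Pol (wpow_mem z n) hp.2
    rwa [neg_add_cancel] at h

theorem div_mem_W {z : Pole P} {n : ℕ} {p : KK I A} (hp : p ∈ PP P (n * z.d)) :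
    (⟨z.w ^ n * p, div_mem_Rw hp⟩ : Rw P z.z) ∈ W z n := by
  rw [mem_W]
  change (z.z : KK I A) ^ n * (z.w ^ n * p) ∈ P
  rw [← mul_assoc, zw_pow, one_mul]
  exact hp.1

/-- `W z n` and `P_{nd}` are isomorphic. -/
noncomputable def eW (z : Pole P) (n : ℕ) : W z n ≃ₗ[A] PP P (n * z.d) where
  toFun x := ⟨_, mul_mem_PP x.2⟩
  map_add' x y := Subtype.ext (mul_add _ _ _)
  map_smul' a x := Subtype.ext (mul_smul_comm _ _ _)
  invFun p := ⟨⟨z.w ^ n * p, div_mem_Rw p.2⟩, div_mem_W p.2⟩
  left_inv x := by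
    apply Subtype.ext
    apply Subtype.ext
    change z.w ^ n * ((z.z : KK I A) ^ n * _) = _
    rw [← mul_assoc, mul_comm (z.w ^ n), zw_pow, one_mul]
  right_inv p := by
    apply Subtype.ext
    change (z.z : KK I A) ^ n * (z.w ^ n * _) = _
    rw [← mul_assoc, zw_pow, one_mul]

/-- `P_{m+s} ⊂ z P_m + P_m` for `N + d ≤ m`, `s ≤ d`. -/
theorem split [Fintype I] [Nonempty I] (hKFG : Stmt_KFG) (hP : IsKr g P) {N : ℕ}
    (hN : Dense P N) (z : Pole P) (m : ℤ) (hm : N + z.d ≤ m) (s : ℕ) (hs : s ≤ z.d) :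
    ∀ f ∈ PP P (m + s), ∃ p ∈ PP P m, ∃ q ∈ PP P m, f = z.z * p + q := by
  induction s with
  | zero =>
    intro f hf
    refine ⟨0, Submodule.zero_mem _, f, ?_, by rw [mul_zero, zero_add]⟩
    simpa using hf
  | succ s ih =>
    intro f hf
    obtain ⟨-, h⟩ := hKFG hP
    obtain ⟨h1, -⟩ := h N z.d z.z hN (by exact_mod_cast z.pos) z.mon
    obtain ⟨p, hp, hp1⟩ := h1 (m + ((s + 1 : ℕ) : ℤ)) (by push_cast; omega) f hf
    have hp2 : p ∈ PP P m := ⟨hp.1, Pol_mono (by push_cast; omega) hp.2⟩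
    have h2 : f - z.z * p ∈ PP P (m + s) :=
      ⟨P.sub_mem hf.1 (P.mul_mem z.z.2 hp.1), Pol_mono (by push_cast; omega) hp1⟩
    obtain ⟨p', hp', q, hq, h3⟩ := ih (by omega) _ h2
    refine ⟨p + p', Submodule.add_mem _ hp2 hp', q, hq, ?_⟩
    rw [mul_add, add_assoc, ← h3]
    ring

/-- `W (n+1) ⊂ W n + w W n`. -/
theorem split_W [Fintype I] [Nonempty I] (hKFG : Stmt_KFG) (hP : IsKr g P) {N : ℕ}
    (hN : Dense P N) (z : Pole P) (n : ℕ) (hn : (N : ℤ) + z.d ≤ n * z.d) (x : Rw P z.z)
    (hx : x ∈ W z (n + 1)) : ∃ u ∈ W z n, ∃ v ∈ W z n, x = u + ⟨z.w, z.mem_Rw⟩ * v := by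
  have h1 := mul_mem_PP hx
  have h2 : (((n + 1 : ℕ) : ℤ) * z.d) = n * z.d + (z.d : ℕ) := by push_cast; ring
  rw [h2] at h1
  obtain ⟨p, hp, q, hq, h3⟩ := split hKFG hP hN z _ hn z.d le_rfl _ h1
  refine ⟨_, div_mem_W hp, _, div_mem_W hq, ?_⟩
  apply Subtype.ext
  change (x : KK I A) = z.w ^ n * p + z.w * (z.w ^ n * q)
  have h4 : (x : KK I A) = ((z.z : KK I A) ^ (n + 1) * z.w ^ (n + 1)) * x := by
    rw [zw_pow, one_mul]
  rw [h4]
  have h5 : ((z.z : KK I A) ^ (n + 1) * z.w ^ (n + 1)) * (x : KK I A) =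
      z.w ^ (n + 1) * ((z.z : KK I A) ^ (n + 1) * (x : KK I A)) := by ring
  rw [h5, h3]
  have h6 : z.w ^ (n + 1) * ((z.z : KK I A) * p + q) =
      ((z.z : KK I A) * z.w) * (z.w ^ n * p) + z.w * (z.w ^ n * q) := by ring
  rw [h6, z.zw, one_mul]

/-- Every element is a polynomial in `w` with coefficients in `W m`. -/
theorem exists_poly [Fintype I] [Nonempty I] (hKFG : Stmt_KFG) (hP : IsKr g P) {N : ℕ}
    (hN : Dense P N) (z : Pole P) (m : ℕ) (hm : (N : ℤ) + z.d ≤ m * z.d) (x : Rw P z.z) :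
    ∃ F : Polynomial (Rw P z.z), (∀ k, F.coeff k ∈ W z m) ∧
      x = F.eval ⟨z.w, z.mem_Rw⟩ := by
  have key : ∀ s : ℕ, ∀ x ∈ W z (m + s), ∃ F : Polynomial (Rw P z.z),
      (∀ k, F.coeff k ∈ W z m) ∧ x = F.eval ⟨z.w, z.mem_Rw⟩ := by
    intro s
    induction s with
    | zero =>
      intro x hx
      refine ⟨Polynomial.C x, fun k => ?_, (Polynomial.eval_C).symm⟩
      rw [Polynomial.coeff_C]
      split_ifs
      · exact hx
      · exact Submodule.zero_mem _
    | succ s ih =>
      intro x hx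
      have h0 : (N : ℤ) + z.d ≤ ((m + s : ℕ) : ℤ) * z.d := by
        push_cast
        have h1 : (0 : ℤ) ≤ s * z.d := by positivity
        linarith [add_mul (m : ℤ) s z.d]
      obtain ⟨u, hu, v, hv, rfl⟩ := split_W hKFG hP hN z (m + s) h0 x hx
      obtain ⟨F, hF, hF1⟩ := ih u hu
      obtain ⟨G, hG, hG1⟩ := ih v hv
      refine ⟨F + Polynomial.X * G, fun k => ?_, ?_⟩
      · rw [Polynomial.coeff_add]
        refine Submodule.add_mem _ (hF k) ?_
        rcases k with _ | k
        · rw [Polynomial.coeff_X_mul_zero]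
          exact Submodule.zero_mem _
        · rw [Polynomial.coeff_X_mul]
          exact hG k
      · rw [Polynomial.eval_add, Polynomial.eval_mul, Polynomial.eval_X, ← hF1, ← hG1]
  obtain ⟨n, hn⟩ := exists_W z x
  exact key n x (W_mono z (by omega) hn)

theorem core [Fintype I] [Nonempty I] (hP : IsKr g P) (z : Pole P) :
    Algebra.FinitePresentation A (Rw P z.z) ∧ Module.Flat A (Rw P z.z) ∧
      ∀ r : Rw P z.z, ((Polynomial.aeval (⟨z.w, z.mem_Rw⟩ : Rw P z.z) :
        Polynomial A →ₐ[A] Rw P z.z) : Polynomial A →+* Rw P z.z).IsIntegralElem r := by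
  have hKNZ : Stmt_KNZ := t_KNZ
  have hKSP : Stmt_KSP := t_KSP hKNZ
  have hKFG : Stmt_KFG := t_KFG hKNZ hKSP
  obtain ⟨N, hN⟩ := (hKNZ hP).1
  obtain ⟨-, hS⟩ := hKSP hP
  obtain ⟨-, hS1⟩ := hS N hN
  have hd := z.pos
  have hfin : ∀ n : ℕ, (N : ℤ) ≤ n * z.d → Module.Finite A (W z n) ∧
      Module.Projective A (W z n) := fun n hn => by
    have h1 := (hS1 _ hn).1
    have h2 := (hS1 _ hn).2
    exact ⟨Module.Finite.equiv (eW z n).symm, Module.Projective.of_equiv (eW z n).symm⟩
  have hbig : ∀ n : ℕ, N ≤ n → (N : ℤ) ≤ n * z.d := fun n hn => by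
    have h1 : N ≤ n * z.d := hn.trans (Nat.le_mul_of_pos_right n hd)
    exact_mod_cast h1
  set m : ℕ := N + 1 with hmdef
  have hm : (N : ℤ) + z.d ≤ m * z.d := by
    rw [hmdef]
    have h1 := hbig N le_rfl
    push_cast
    linarith [add_mul (N : ℤ) 1 z.d, one_mul (z.d : ℤ)]
  have hgen := exists_poly hKFG hP hN z m hm
  have hfinm := hfin m (hbig m (by omega))
  have hfinN := hfin N (hbig N le_rfl)
  have hfp : Module.FinitePresentation A (W z m) := by
    have h1 := hfinm.1
    have h2 := hfinm.2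
    exact Module.finitePresentation_of_projective A (W z m)
  refine ⟨?_, ?_, ?_⟩
  · refine finitePresentation (A := A) (⟨z.w, z.mem_Rw⟩ : Rw P z.z) (W z N) (W z m)
      (W_mono z (by omega)) ?_ ?_ ?_ hgen hfinN.1 hfp
    · intro x hx
      rw [mem_W]
      change (z.z : KK I A) ^ (N + 1) * (z.w * (x : KK I A)) ∈ P
      have h1 : (z.z : KK I A) ^ (N + 1) * (z.w * (x : KK I A)) =
          ((z.z : KK I A) * z.w) * ((z.z : KK I A) ^ N * (x : KK I A)) := by ring
      rw [h1, z.zw, one_mul]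
      exact hx
    · intro x hx
      apply Subtype.ext
      have h1 : z.w * (x : KK I A) = 0 := congrArg Subtype.val hx
      have h2 : (x : KK I A) = (z.z : KK I A) * z.w * x := by rw [z.zw, one_mul]
      change (x : KK I A) = 0
      rw [h2, mul_assoc, h1, mul_zero]
    · intro x hx y hxy
      refine ⟨y, ?_, hxy⟩
      rw [mem_W]
      have h1 := mem_W.1 hx
      rw [hxy] at h1
      change (z.z : KK I A) ^ (N + 1) * (z.w * (y : KK I A)) ∈ P at h1
      have h2 : (z.z : KK I A) ^ (N + 1) * (z.w * (y : KK I A)) =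
          ((z.z : KK I A) * z.w) * ((z.z : KK I A) ^ N * (y : KK I A)) := by ring
      rw [h2, z.zw, one_mul] at h1
      exact h1
  · refine flat_union (W z) (W_mono z) N (fun n hn => ?_) (exists_W z)
    have h1 := (hfin n (hbig n hn)).2
    exact inferInstance
  · intro r
    have h1 := finite_aeval (A := A) (⟨z.w, z.mem_Rw⟩ : Rw P z.z) (W z m)
      (Module.Finite.iff_fg.1 hfinm.1) hgen
    exact h1.to_isIntegral r

end main

end KFWx

theorem t_KFW : Stmt_KFW := by
  intro I A _ _ _ g P hP z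
  exact KFWx.core hP z

end Pool.Agent.MG.KX
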