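import Pool.Agent.MG.KX.StmtsK

/-!
# KMK: étale coordinates at the marked points

The ring is a finitely generated domain over the field `K`, so it is torsion free, hence flat, over
`K[t]`; it is unramified at the marked point because the maximal ideal is generated by `t` modulo
its square.
-/

open CategoryTheory CategoryTheory.Limits AlgebraicGeometry TensorProduct

namespace Pool.Agent.MG.KX

open Pool.Agent.MG.G0 Pool.Agent.MG.GLU

namespace KMK

/-- Étale coordinates at a rational point of a domain with cotangent space generated by `t`. -/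
theorem etale_at {K P : Type} [Field K] [CommRing P] [IsDomain P] [Algebra K P]
    (hft : Algebra.FiniteType K P) (p : P →ₐ[K] K) (t : P)
    (hm : ∀ f ∈ RingHom.ker p, ∃ c : K, f - c • t ∈ RingHom.ker p ^ 2)
    (hinj : ∀ F : Polynomial K, Polynomial.eval₂ (algebraMap K P) t F = 0 → F = 0) :
    ∃ h : P, p h ≠ 0 ∧ ((algebraMap P (Localization.Away h)).comp
      (Polynomial.eval₂RingHom (algebraMap K P) t)).Etale := by
  let _ : Algebra (Polynomial K) P := (Polynomial.eval₂RingHom (algebraMap K P) t).toAlgebra
  have hal : ∀ F : Polynomial K, algebraMap (Polynomial K) P F =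
      Polynomial.eval₂ (algebraMap K P) t F := fun F => rfl
  have hst : IsScalarTower K (Polynomial K) P := IsScalarTower.of_algebraMap_eq fun c => by
    rw [hal]
    change algebraMap K P c = Polynomial.eval₂ (algebraMap K P) t (Polynomial.C c)
    rw [Polynomial.eval₂_C]
  have hft' : Algebra.FiniteType (Polynomial K) P :=
    Algebra.FiniteType.of_restrictScalars_finiteType K (Polynomial K) P
  have hcon : ∀ c : K, KaehlerDifferential.D (Polynomial K) P (algebraMap K P c) = 0 := by
    intro c
    rw [IsScalarTower.algebraMap_apply K (Polynomial K) P]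
    exact Derivation.map_algebraMap _ _
  have ht0 : KaehlerDifferential.D (Polynomial K) P t = 0 := by
    have e : t = algebraMap (Polynomial K) P Polynomial.X := by
      rw [hal, Polynomial.eval₂_X]
    rw [e]
    exact Derivation.map_algebraMap _ _
  have hsq : ∀ s ∈ RingHom.ker p ^ 2, KaehlerDifferential.D (Polynomial K) P s ∈
      (RingHom.ker p) • (⊤ : Submodule P (KaehlerDifferential (Polynomial K) P)) := by
    intro s hs
    rw [pow_two] at hs
    refine Submodule.mul_induction_on hs ?_ ?_
    · intro a ha b hb
      rw [Derivation.leibniz]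
      exact Submodule.add_mem _ (Submodule.smul_mem_smul ha trivial)
        (Submodule.smul_mem_smul hb trivial)
    · intro a b ha hb
      rw [map_add]
      exact Submodule.add_mem _ ha hb
  have hD : ∀ f : P, KaehlerDifferential.D (Polynomial K) P f ∈
      (RingHom.ker p) • (⊤ : Submodule P (KaehlerDifferential (Polynomial K) P)) := by
    intro f
    have h1 : f - algebraMap K P (p f) ∈ RingHom.ker p := by
      rw [RingHom.mem_ker, map_sub, AlgHom.commutes, Algebra.algebraMap_self, RingHom.id_apply,
        sub_self]
    obtain ⟨c, hc⟩ := hm _ h1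
    have h2 := hsq _ hc
    rw [map_sub, map_sub, hcon, sub_zero, Algebra.smul_def, Derivation.leibniz, ht0, hcon,
      smul_zero, smul_zero, add_zero, sub_zero] at h2
    exact h2
  have htop : (⊤ : Submodule P (KaehlerDifferential (Polynomial K) P)) ≤
      (RingHom.ker p) • (⊤ : Submodule P (KaehlerDifferential (Polynomial K) P)) := by
    have h1 := KaehlerDifferential.span_range_derivation (Polynomial K) P
    conv_lhs => rw [← h1]
    rw [Submodule.span_le]
    rintro _ ⟨f, rfl⟩
    exact hD f
  obtain ⟨r, hr, hk⟩ := Submodule.exists_sub_one_mem_and_smul_eq_zero_of_fg_of_le_smul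
    (RingHom.ker p) ⊤ (Module.Finite.fg_top) htop
  have hpr : p r = 1 := by
    rw [RingHom.mem_ker, map_sub, map_one, sub_eq_zero] at hr
    exact hr
  refine ⟨r, by rw [hpr]; exact one_ne_zero, ?_⟩
  have hunit : IsUnit (algebraMap P (Localization.Away r) r) :=
    IsLocalization.Away.algebraMap_isUnit r
  have hfu : Algebra.FormallyUnramified (Polynomial K) (Localization.Away r) := by
    refine ⟨?_⟩
    have h1 := KaehlerDifferential.span_range_map_derivation_of_isLocalization (Polynomial K) P
      (Localization.Away r) (Submonoid.powers r)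
    have h2 : ∀ x : KaehlerDifferential (Polynomial K) (Localization.Away r), x = 0 := by
      intro x
      have hx : x ∈ (⊤ : Submodule (Localization.Away r)
        (KaehlerDifferential (Polynomial K) (Localization.Away r))) := trivial
      rw [← h1] at hx
      have h3 : Submodule.span (Localization.Away r) (Set.range
          (KaehlerDifferential.map (Polynomial K) (Polynomial K) P (Localization.Away r) ∘
            KaehlerDifferential.D (Polynomial K) P)) ≤ ⊥ := by
        rw [Submodule.span_le]
        rintro _ ⟨f, rfl⟩
        change KaehlerDifferential.map (Polynomial K) (Polynomial K) P (Localization.Away r)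
          (KaehlerDifferential.D (Polynomial K) P f) = 0
        have h4 : algebraMap P (Localization.Away r) r •
            KaehlerDifferential.map (Polynomial K) (Polynomial K) P (Localization.Away r)
            (KaehlerDifferential.D (Polynomial K) P f) = 0 := by
          rw [algebraMap_smul, ← map_smul, hk _ trivial, map_zero]
        exact (hunit.smul_eq_zero).1 h4
      exact (Submodule.mem_bot _).1 (h3 hx)
    exact ⟨fun x y => (h2 x).trans (h2 y).symm⟩
  have hfl : Module.Flat (Polynomial K) P := by
    rw [Module.Flat.flat_iff_torsion_eq_bot_of_isBezout]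
    rw [eq_bot_iff]
    rintro x ⟨⟨F, hF⟩, hx⟩
    have h1 : algebraMap (Polynomial K) P F * x = 0 := by
      rw [← Algebra.smul_def]
      exact hx
    rcases mul_eq_zero.1 h1 with h2 | h2
    · exact absurd (hinj F h2) (nonZeroDivisors.ne_zero hF)
    · exact (Submodule.mem_bot _).2 h2
  have hfl2 : Module.Flat P (Localization.Away r) :=
    IsLocalization.flat (Localization.Away r) (Submonoid.powers r)
  have hfl3 : Module.Flat (Polynomial K) (Localization.Away r) :=
    Module.Flat.trans (Polynomial K) P (Localization.Away r)
  have hfp : Algebra.FinitePresentation (Polynomial K) (Localization.Away r) := by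
    refine Algebra.FinitePresentation.of_finiteType.1 ?_
    exact .trans hft' (IsLocalization.finiteType_of_monoid_fg (.powers r) _)
  have het : Algebra.Etale (Polynomial K) (Localization.Away r) :=
    Algebra.Etale.of_formallyUnramified_of_flat
  have e : (algebraMap P (Localization.Away r)).comp
      (Polynomial.eval₂RingHom (algebraMap K P) t) =
      algebraMap (Polynomial K) (Localization.Away r) :=
    (IsScalarTower.algebraMap_eq (Polynomial K) P (Localization.Away r)).symm
  rw [e]
  exact RingHom.etale_algebraMap.2 het

/-- A polynomial relation of an element of a domain over an algebraically closed field. -/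
theorem const_of {K P : Type} [Field K] [IsAlgClosed K] [CommRing P] [IsDomain P] [Algebra K P]
    (t : P) (F : Polynomial K) (hF : Polynomial.eval₂ (algebraMap K P) t F = 0) (h0 : F ≠ 0) :
    ∃ c : K, t = algebraMap K P c := by
  have h1 : Polynomial.aeval t F = 0 := hF
  have h2 := (IsAlgClosed.splits F).eq_prod_roots
  rw [h2, map_mul, Polynomial.aeval_C, map_multiset_prod, Multiset.map_map] at h1
  have h3 : algebraMap K P F.leadingCoeff ≠ 0 :=
    (map_ne_zero_iff _ (algebraMap K P).injective).2 (Polynomial.leadingCoeff_ne_zero.2 h0)
  have h4 := (mul_eq_zero.1 h1).resolve_left h3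
  obtain ⟨a, -, ha⟩ := Multiset.mem_map.1 (Multiset.prod_eq_zero_iff.1 h4)
  refine ⟨a, ?_⟩
  have h5 : t - algebraMap K P a = 0 := by
    rw [← ha]
    simp
  exact sub_eq_zero.1 h5

end KMK

open KMK in
theorem t_KMK (hPLE : Stmt_PLE) (hKFP : Stmt_KFP) : Stmt_KMK := by
  intro I K _ _ _ _ g P hP hdom n p hp i
  obtain ⟨⟨z⟩, -⟩ := hPLE hP
  have hfp : Algebra.FinitePresentation K P := (hKFP hP z).1
  have hft : Algebra.FiniteType K P := inferInstance
  obtain ⟨t, ht, hm⟩ := hp.sm i
  obtain ⟨h, h1, h2⟩ := etale_at hft (p i) t hm (by
    intro F hF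
    by_contra h0
    obtain ⟨c, hc⟩ := const_of t F hF h0
    have hc0 : c = 0 := by
      have h1 : p i t = 0 := ht
      rw [hc, AlgHom.commutes] at h1
      exact h1
    rw [hc0, map_zero] at hc
    have hid : IsIdempotentElem (RingHom.ker (p i)) := by
      refine le_antisymm Ideal.mul_le_left fun f hf => ?_
      obtain ⟨c', hc'⟩ := hm f hf
      rw [hc, smul_zero, sub_zero, pow_two] at hc'
      exact hc'
    have hnoe : IsNoetherianRing P := Algebra.FiniteType.isNoetherianRing K P
    rcases (Ideal.isIdempotentElem_iff_eq_bot_or_top (RingHom.ker (p i))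
      (IsNoetherian.noetherian _)).1 hid with h3 | h3
    · have h4 : z.z - algebraMap K P (p i z.z) ∈ RingHom.ker (p i) := by
        rw [RingHom.mem_ker, map_sub, AlgHom.commutes, Algebra.algebraMap_self, RingHom.id_apply,
          sub_self]
      rw [h3, Ideal.mem_bot, sub_eq_zero] at h4
      obtain ⟨k⟩ := ‹Nonempty I›
      have h5 := z.mon.2 k
      rw [h4] at h5
      have h6 : ((algebraMap K (KK I K) (p i z.z)) k).coeff (-(z.d : ℤ)) = 1 := h5
      have h7 := z.pos
      rw [Pi.algebraMap_apply, coeff_algebraMap, if_neg (by omega)] at h6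
      exact zero_ne_one h6
    · have h4 : (1 : P) ∈ RingHom.ker (p i) := by
        rw [h3]
        trivial
      rw [RingHom.mem_ker, map_one] at h4
      exact one_ne_zero h4)
  exact ⟨h, t, h1, h2⟩

end Pool.Agent.MG.KX
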