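import Pool.Agent.MG.KX.StmtsM
import Pool.Agent.MG.Fin

/-!
# Statements on deformations of Krichever rings (algebra), fibres of type S and N

See `Pool/Agent/MG/KX/PAPER.md` for the proofs.
-/

open CategoryTheory CategoryTheory.Limits AlgebraicGeometry
open scoped TensorProduct

namespace Pool.Agent.MG.KX

open Pool.Agent.MG.G0 Pool.Agent.MG.GLU

/-! ## Deformations over `A[ε]` -/

/-- PDK: `Pdel P δ` is a Krichever ring with reduction `P`. -/
def Stmt_PDK : Prop :=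
  ∀ {I A : Type} [Fintype I] [Nonempty I] [CommRing A] {g : ℕ} {P : Subalgebra A (KK I A)},
    IsKr g P → ∀ δ : DD P, IsKr g (Pdel P δ) ∧ bc (eps0 A) (Pdel P δ) = P ∧
      (∀ f ∈ P, ∃ F ∈ Pdel P δ, kmap (eps0 A) F = f) ∧ ∀ δ' : DD P, Pdel P δ = Pdel P δ' → δ = δ'

/-- PDC: every lift of `P` is a `Pdel P δ`. -/
def Stmt_PDC : Prop :=
  ∀ {I A : Type} [Fintype I] [Nonempty I] [CommRing A] {g : ℕ} {P : Subalgebra A (KK I A)}
    {P' : Subalgebra (Eps A) (KK I (Eps A))}, IsKr g P → IsKr g P' → bc (eps0 A) P' = P →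
    ∃ δ : DD P, P' = Pdel P δ

/-- PDB: base change. -/
def Stmt_PDB : Prop :=
  ∀ {I A B : Type} [Fintype I] [Nonempty I] [CommRing A] [CommRing B] {g : ℕ}
    {P : Subalgebra A (KK I A)}, IsKr g P → ∀ (φ : A →+* B) (δ : DD P), ∃ δ' : DD (bc φ P),
      Rel φ δ δ' ∧ bc (epsMap φ) (Pdel P δ) = Pdel (bc φ P) δ'

/-- PDS: scaling. -/
def Stmt_PDS : Prop :=
  ∀ {I A : Type} [Fintype I] [Nonempty I] [CommRing A] {g : ℕ} {P : Subalgebra A (KK I A)},
    IsKr g P → ∀ (a : A) (δ : DD P), bc (epsScale a) (Pdel P δ) = Pdel P (a • δ)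

/-- PDA: addition. -/
def Stmt_PDA : Prop :=
  (∀ {I A : Type} [Fintype I] [Nonempty I] [CommRing A] {g : ℕ} {P : Subalgebra A (KK I A)}
    {Q : Subalgebra (Eps2 A) (KK I (Eps2 A))}, IsKr g P → IsKr g Q → bc (eps20 A) Q = P →
    ∀ δ₁ δ₂ δ : DD P, bc (epsPair 1 0) Q = Pdel P δ₁ → bc (epsPair 0 1) Q = Pdel P δ₂ →
      bc (epsPair 1 1) Q = Pdel P δ → δ = δ₁ + δ₂) ∧
  ∀ {I A : Type} [Fintype I] [Nonempty I] [CommRing A] {g : ℕ} {P : Subalgebra A (KK I A)},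
    IsKr g P → ∀ δ₁ δ₂ : DD P, ∃ Q : Subalgebra (Eps2 A) (KK I (Eps2 A)), IsKr g Q ∧
      bc (eps20 A) Q = P ∧ bc (epsPair 1 0) Q = Pdel P δ₁ ∧ bc (epsPair 0 1) Q = Pdel P δ₂ ∧
      bc (epsPair 1 1) Q = Pdel P (δ₁ + δ₂)

/-- PDI: changes of the coordinates. -/
def Stmt_PDI : Prop :=
  ∀ {I A : Type} [Fintype I] [CommRing A], ∀ θ ∈ Pol I A 0,
    ∃ α : KK I (Eps A) ≃ₐ[Eps A] KK I (Eps A), PolAut α ∧
      (∀ f, kmap (eps0 A) (α f) = kmap (eps0 A) f) ∧
      ∀ (P : Subalgebra A (KK I A)) (δ : DD P), Pdel P (δ + tder P θ) =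
        (Pdel P δ).map (α : KK I (Eps A) →ₐ[Eps A] KK I (Eps A))

/-- PDT: automorphisms of the Laurent series. -/
def Stmt_PDT : Prop :=
  ∀ {I A : Type} [Fintype I] [CommRing A] (α : KK I A ≃ₐ[A] KK I A), PolAut α →
    ∃ β : KK I (Eps A) ≃ₐ[Eps A] KK I (Eps A), PolAut β ∧
      (∀ f, kmap (eps0 A) (β f) = α (kmap (eps0 A) f)) ∧
      ∀ (P : Subalgebra A (KK I A)) (δ : DD P), ∃ δ' : DD (P.map (α : KK I A →ₐ[A] KK I A)),
        RelA α δ δ' ∧ Pdel (P.map (α : KK I A →ₐ[A] KK I A)) δ' =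
          (Pdel P δ).map (β : KK I (Eps A) →ₐ[Eps A] KK I (Eps A))

/-- PDR: change of the index set. -/
def Stmt_PDR : Prop :=
  ∀ {I I' A : Type} [CommRing A] (e : I' ≃ I) (P : Subalgebra A (KK I A)) (δ : DD P),
    ∃ δ' : DD (reix e P), (∀ (f : P) (h : KK I A), δ f = mk P h →
      δ' ⟨idx e (f : KK I A), idx_mem_reix e f.2⟩ = mk (reix e P) (idx e h)) ∧
      Pdel (reix e P) δ' = reix e (Pdel P δ)

/-- PDF: forgetting punctures. -/
def Stmt_PDF : Prop :=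
  ∀ {I J A : Type} [Fintype I] [Nonempty I] [Fintype J] [CommRing A] {g : ℕ}
    {W : Subalgebra A (KK (I ⊕ J) A)}, IsKr g W → IsKr g (Rem W) → Forget W (Rem W) →
    ∀ E : DD W, ∃ D : DD (Rem W), RelF D E ∧ Rem (Pdel W E) = Pdel (Rem W) D ∧
      Forget (Pdel W E) (Pdel (Rem W) D)

/-- PDD: derivations of the base field. -/
def Stmt_PDD : Prop :=
  ∀ {I K : Type} [Fintype I] [Nonempty I] [Field K] [Algebra ℂ K] {g : ℕ}
    {P : Subalgebra K (KK I K)}, IsKr g P → ∀ D : Derivation ℂ K K, ∃ δ : DD P,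
      (∀ f : P, δ f = mk P (kadd (D : K →+ K) (f : KK I K))) ∧
      bc (Std.epsDer D) P = Pdel P δ

/-! ## The fibres -/

/-- KDM: smooth Krichever rings are domains. -/
def Stmt_KDM : Prop :=
  ∀ {I K : Type} [Fintype I] [Nonempty I] [Field K] [IsAlgClosed K] {g : ℕ}
    {P : Subalgebra K (KK I K)}, IsKr g P → TypeS P → IsDomain P ∧
      ∀ (i : I) (f : P), (f : KK I K) i = 0 → f = 0

/-- KRS: no vector fields on smooth curves of genus at least two. -/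
def Stmt_KRS : Prop :=
  ∀ {I K : Type} [Fintype I] [Nonempty I] [Field K] [IsAlgClosed K] {g : ℕ}
    {P : Subalgebra K (KK I K)}, IsKr g P → TypeS P → 2 ≤ g → RigP P

/-- KRN: no vector fields on curves with one node. -/
def Stmt_KRN : Prop :=
  ∀ {I K : Type} [Fintype I] [Nonempty I] [Field K] [IsAlgClosed K] [CharZero K] {g : ℕ}
    {P : Subalgebra K (KK I K)}, IsKr g P → TypeN g P → 3 ≤ g → RigP P

/-- KNS: smooth curves are nodal. -/
def Stmt_KNS : Prop :=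
  ∀ {I K : Type} [Fintype I] [Nonempty I] [Field K] [IsAlgClosed K] {g : ℕ}
    {P : Subalgebra K (KK I K)}, IsKr g P → TypeS P → Nodal (spMap (algebraMap K P))

/-- KNN: curves with one node are nodal. -/
def Stmt_KNN : Prop :=
  ∀ {I K : Type} [Fintype I] [Nonempty I] [Field K] [IsAlgClosed K] [CharZero K] {g : ℕ}
    {P : Subalgebra K (KK I K)}, IsKr g P → TypeN g P → Nodal (spMap (algebraMap K P))

/-- GKS: good Krichever rings are rings of stable curves. -/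
def Stmt_GKS : Prop :=
  ∀ {I A : Type} [Fintype I] [Nonempty I] [CommRing A] [Algebra ℂ A] {g n : ℕ}
    {P : Subalgebra A (KK I A)} (p : Fin n → (P →ₐ[A] A)), 3 ≤ g → G0.Good g P → Marks P p →
      KS g P p

/-- WIN: injectivity of the restriction to some of the punctures. -/
def Stmt_WIN : Prop :=
  ∀ {I J A : Type} [Fintype I] [Nonempty I] [Fintype J] [CommRing A] {g : ℕ}
    {W : Subalgebra A (KK (I ⊕ J) A)}, G0.Good g W → Dn W → Forget W (Rem W)

end Pool.Agent.MG.KX
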