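import Pool.Agent.MG.NOD
import Pool.Agent.MG.KX.StmtsE
import Pool.Agent.MG.KX.KMK

/-!
# KNN: curves with one node are nodal

`P = {p = q}` in a smooth `R`. At the points other than the node `P` and `R` agree locally. At the
node: `U` is the ring of the pairs `(a, b)` in `R[1/g1] × R[1/g2]` with `p a = q b`. It is a
standard étale algebra over `P` (a localization of `P[y]/(y² - e²)`, `e p = 1`, `e q = -1`), and it
is étale over the node ring (by the infinitesimal criterion): étale coordinates at `p` and `q` are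
glued.
-/

open CategoryTheory CategoryTheory.Limits AlgebraicGeometry TensorProduct
open scoped Polynomial

namespace Pool.Agent.MG.KX.KNNm

section glue

variable {K S T : Type} [Field K] [CommRing S] [Algebra K S] [CommRing T] [Algebra K T]
  (p : S →ₐ[K] K) (q : T →ₐ[K] K)

/-- The pairs with the same value at `p` and `q`. -/
def Gl : Subalgebra K (S × T) :=
  AlgHom.equalizer (p.comp (AlgHom.fst K S T)) (q.comp (AlgHom.snd K S T))

theorem mem_Gl {x : S × T} : x ∈ Gl p q ↔ p x.1 = q x.2 := Iff.rfl

/-- The first component, extended by a constant. -/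
noncomputable def j1 : S →ₐ[K] Gl p q :=
  ((AlgHom.id K S).prod ((Algebra.ofId K T).comp p)).codRestrict (Gl p q) fun a => by
    rw [mem_Gl]
    change p a = q (algebraMap K T (p a))
    rw [AlgHom.commutes, Algebra.algebraMap_self_apply]

/-- The second component, extended by a constant. -/
noncomputable def j2 : T →ₐ[K] Gl p q :=
  (((Algebra.ofId K S).comp q).prod (AlgHom.id K T)).codRestrict (Gl p q) fun b => by
    rw [mem_Gl]
    change p (algebraMap K S (q b)) = q b
    rw [AlgHom.commutes, Algebra.algebraMap_self_apply]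

theorem j1_val (a : S) : (j1 p q a : S × T) = (a, algebraMap K T (p a)) := rfl

theorem j2_val (b : T) : (j2 p q b : S × T) = (algebraMap K S (q b), b) := rfl

theorem eq_j (x : Gl p q) : x = j1 p q (x : S × T).1 + j2 p q (x : S × T).2 -
    algebraMap K (Gl p q) (p (x : S × T).1) := by
  apply Subtype.ext
  have hx := (mem_Gl p q).1 x.2
  apply Prod.ext
  · change (x : S × T).1 = (x : S × T).1 + algebraMap K S (q (x : S × T).2) -
      algebraMap K S (p (x : S × T).1)
    rw [hx]
    ring
  · change (x : S × T).2 = algebraMap K T (p (x : S × T).1) + (x : S × T).2 -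
      algebraMap K T (p (x : S × T).1)
    ring

variable {p q} {u : S} {v : T} (hu : p u = 0) (hv : q v = 0)

/-- The map of the node ring. -/
noncomputable def nod : NodeRing K →ₐ[K] Gl p q :=
  Ideal.Quotient.liftₐ _ (MvPolynomial.aeval ![j1 p q u, j2 p q v]) (by
    intro f hf
    have h : Ideal.span {(MvPolynomial.X 0 * MvPolynomial.X 1 : MvPolynomial (Fin 2) K)} ≤
        RingHom.ker (MvPolynomial.aeval ![j1 p q u, j2 p q v] :
          MvPolynomial (Fin 2) K →ₐ[K] Gl p q) := by
      rw [Ideal.span_le, Set.singleton_subset_iff]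
      change (MvPolynomial.aeval ![j1 p q u, j2 p q v] :
          MvPolynomial (Fin 2) K →ₐ[K] Gl p q) (MvPolynomial.X 0 * MvPolynomial.X 1) = 0
      rw [map_mul, MvPolynomial.aeval_X, MvPolynomial.aeval_X]
      apply Subtype.ext
      apply Prod.ext
      · change u * algebraMap K S (q v) = 0
        rw [hv, map_zero, mul_zero]
      · change algebraMap K T (p u) * v = 0
        rw [hu, map_zero, zero_mul]
    exact h hf)

theorem nod_uu : nod hu hv (NOD.uu K) = j1 p q u := by
  unfold NOD.uu
  change (MvPolynomial.aeval ![j1 p q u, j2 p q v] :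
    MvPolynomial (Fin 2) K →ₐ[K] Gl p q) (MvPolynomial.X 0) = _
  rw [MvPolynomial.aeval_X]
  rfl

theorem nod_vv : nod hu hv (NOD.vv K) = j2 p q v := by
  unfold NOD.vv
  change (MvPolynomial.aeval ![j1 p q u, j2 p q v] :
    MvPolynomial (Fin 2) K →ₐ[K] Gl p q) (MvPolynomial.X 1) = _
  rw [MvPolynomial.aeval_X]
  rfl

theorem hom_ext {B : Type} [CommRing B] [Algebra K B] {f g : NodeRing K →ₐ[K] B}
    (h1 : f (NOD.uu K) = g (NOD.uu K)) (h2 : f (NOD.vv K) = g (NOD.vv K)) : f = g := by
  apply Ideal.Quotient.algHom_ext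
  apply MvPolynomial.algHom_ext
  intro i
  fin_cases i
  · exact h1
  · exact h2

theorem lift1 {B : Type} [CommRing B] [Algebra K B] (t : S)
    (ht : (Polynomial.aeval t : K[X] →ₐ[K] S).toRingHom.Etale) (J : Ideal B) (hJ : J ^ 2 = ⊥)
    (b : B) (φ : S →ₐ[K] B ⧸ J) (hφ : φ t = Ideal.Quotient.mk J b) :
    ∃! ψ : S →ₐ[K] B, ψ t = b ∧ (Ideal.Quotient.mkₐ K J).comp ψ = φ := by
  let _ : Algebra K[X] S := (Polynomial.aeval t : K[X] →ₐ[K] S).toRingHom.toAlgebra
  let _ : Algebra K[X] B := (Polynomial.aeval b : K[X] →ₐ[K] B).toRingHom.toAlgebra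
  have hS : ∀ F : K[X], algebraMap K[X] S F = Polynomial.aeval t F := fun _ => rfl
  have hB : ∀ F : K[X], algebraMap K[X] B F = Polynomial.aeval b F := fun _ => rfl
  have het : Algebra.Etale K[X] S := ht
  have key : ∀ ψ : S →ₐ[K] B, ψ t = b → ∀ F : K[X], ψ (algebraMap K[X] S F) =
      algebraMap K[X] B F := by
    intro ψ hψ F
    rw [hS, hB, ← hψ, Polynomial.aeval_algHom_apply]
  have key2 : ∀ F : K[X], φ (algebraMap K[X] S F) = algebraMap K[X] (B ⧸ J) F := by
    intro F
    have h1 : algebraMap K[X] (B ⧸ J) F = Ideal.Quotient.mkₐ K J (Polynomial.aeval b F) := rfl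
    rw [hS, h1, ← Polynomial.aeval_algHom_apply, ← Polynomial.aeval_algHom_apply, hφ]
    rfl
  let φ' : S →ₐ[K[X]] B ⧸ J := { φ.toRingHom with commutes' := key2 }
  obtain ⟨hi, hs⟩ := Algebra.FormallyEtale.comp_bijective K[X] S J hJ
  obtain ⟨ψ', hψ'⟩ := hs φ'
  have hc : ∀ c : K, ψ' (algebraMap K S c) = algebraMap K B c := by
    intro c
    have h1 : algebraMap K S c = algebraMap K[X] S (Polynomial.C c) := by
      rw [hS, Polynomial.aeval_C]
    rw [h1, AlgHom.commutes, hB, Polynomial.aeval_C]
  refine ⟨{ ψ'.toRingHom with commutes' := hc }, ⟨?_, ?_⟩, ?_⟩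
  · change ψ' t = b
    have h1 : t = algebraMap K[X] S Polynomial.X := by
      rw [hS, Polynomial.aeval_X]
    conv_lhs => rw [h1]
    rw [AlgHom.commutes, hB, Polynomial.aeval_X]
  · ext a
    change Ideal.Quotient.mk J (ψ' a) = φ a
    exact congrArg (fun f => f a) hψ'
  · rintro ψ ⟨h1, h2⟩
    let ψ2 : S →ₐ[K[X]] B := { ψ.toRingHom with commutes' := key ψ h1 }
    have h3 : ψ2 = ψ' := by
      apply hi
      change (Ideal.Quotient.mkₐ K[X] J).comp ψ2 = (Ideal.Quotient.mkₐ K[X] J).comp ψ'
      change (Ideal.Quotient.mkₐ K[X] J).comp ψ' = φ' at hψ'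
      rw [hψ']
      ext a
      exact congrArg (fun f => f a) h2
    ext a
    exact congrArg (fun f => f a) h3

theorem et_node (hpu : ∀ a, p a = 0 → u ∣ a) (hqv : ∀ b, q b = 0 → v ∣ b)
    (heu : (Polynomial.aeval u : K[X] →ₐ[K] S).toRingHom.Etale)
    (hev : (Polynomial.aeval v : K[X] →ₐ[K] T).toRingHom.Etale)
    (hft : Algebra.FiniteType K (Gl p q)) :
    ((nod hu hv : NodeRing K →ₐ[K] Gl p q) : NodeRing K →+* Gl p q).Etale := by
  let _ : Algebra (NodeRing K) (Gl p q) :=
    ((nod hu hv : NodeRing K →ₐ[K] Gl p q) : NodeRing K →+* Gl p q).toAlgebra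
  have hal : ∀ x : NodeRing K, algebraMap (NodeRing K) (Gl p q) x = nod hu hv x := fun _ => rfl
  have tow : IsScalarTower K (NodeRing K) (Gl p q) :=
    IsScalarTower.of_algebraMap_eq (R := K) (S := NodeRing K) (A := Gl p q) fun c => by
      rw [hal, AlgHom.commutes]
  have hft' : Algebra.FiniteType (NodeRing K) (Gl p q) :=
    Algebra.FiniteType.of_restrictScalars_finiteType K (NodeRing K) (Gl p q)
  have hnoe : IsNoetherianRing (NodeRing K) := inferInstance
  have hfp : Algebra.FinitePresentation (NodeRing K) (Gl p q) :=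
    Algebra.FinitePresentation.of_finiteType.1 hft'
  have hfe : Algebra.FormallyEtale (NodeRing K) (Gl p q) := by
    rw [Algebra.FormallyEtale.iff_comp_bijective]
    intro B _ _ J hJ
    let _ : Algebra K B := ((algebraMap (NodeRing K) B).comp (algebraMap K (NodeRing K))).toAlgebra
    have towB : IsScalarTower K (NodeRing K) B :=
      IsScalarTower.of_algebraMap_eq (R := K) (S := NodeRing K) (A := B) fun c => rfl
    have hu1 : ∀ φ : Gl p q →ₐ[NodeRing K] B ⧸ J, ((φ.restrictScalars K).comp (j1 p q)) u =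
        Ideal.Quotient.mk J (algebraMap (NodeRing K) B (NOD.uu K)) := by
      intro φ
      change φ (j1 p q u) = _
      rw [← nod_uu hu hv, ← hal, AlgHom.commutes]
      rfl
    have hv1 : ∀ φ : Gl p q →ₐ[NodeRing K] B ⧸ J, ((φ.restrictScalars K).comp (j2 p q)) v =
        Ideal.Quotient.mk J (algebraMap (NodeRing K) B (NOD.vv K)) := by
      intro φ
      change φ (j2 p q v) = _
      rw [← nod_vv hu hv, ← hal, AlgHom.commutes]
      rfl
    constructor
    · intro ψ ψ' h
      change (Ideal.Quotient.mkₐ (NodeRing K) J).comp ψ =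
        (Ideal.Quotient.mkₐ (NodeRing K) J).comp ψ' at h
      have h1 : (ψ.restrictScalars K).comp (j1 p q) = (ψ'.restrictScalars K).comp (j1 p q) := by
        refine (lift1 u heu J hJ (algebraMap (NodeRing K) B (NOD.uu K))
          ((((Ideal.Quotient.mkₐ (NodeRing K) J).comp ψ).restrictScalars K).comp (j1 p q))
          (hu1 _)).unique ⟨?_, rfl⟩ ⟨?_, ?_⟩
        · change ψ (j1 p q u) = _
          rw [← nod_uu hu hv, ← hal, AlgHom.commutes]
        · change ψ' (j1 p q u) = _
          rw [← nod_uu hu hv, ← hal, AlgHom.commutes]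
        · rw [h]
          rfl
      have h2 : (ψ.restrictScalars K).comp (j2 p q) = (ψ'.restrictScalars K).comp (j2 p q) := by
        refine (lift1 v hev J hJ (algebraMap (NodeRing K) B (NOD.vv K))
          ((((Ideal.Quotient.mkₐ (NodeRing K) J).comp ψ).restrictScalars K).comp (j2 p q))
          (hv1 _)).unique ⟨?_, rfl⟩ ⟨?_, ?_⟩
        · change ψ (j2 p q v) = _
          rw [← nod_vv hu hv, ← hal, AlgHom.commutes]
        · change ψ' (j2 p q v) = _
          rw [← nod_vv hu hv, ← hal, AlgHom.commutes]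
        · rw [h]
          rfl
      ext x
      have e := eq_j p q x
      have f1 : ψ (j1 p q (x : S × T).1) = ψ' (j1 p q (x : S × T).1) :=
        congrArg (fun f => f (x : S × T).1) h1
      have f2 : ψ (j2 p q (x : S × T).2) = ψ' (j2 p q (x : S × T).2) :=
        congrArg (fun f => f (x : S × T).2) h2
      have f3 : ψ (algebraMap K (Gl p q) (p (x : S × T).1)) =
          ψ' (algebraMap K (Gl p q) (p (x : S × T).1)) :=
        ((ψ.restrictScalars K).commutes _).trans ((ψ'.restrictScalars K).commutes _).symm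
      rw [e, map_sub, map_sub, map_add, map_add, f1, f2, f3]
    · intro φ
      obtain ⟨ψ1, ⟨a1, a2⟩, -⟩ := lift1 u heu J hJ (algebraMap (NodeRing K) B (NOD.uu K))
        ((φ.restrictScalars K).comp (j1 p q)) (hu1 φ)
      obtain ⟨ψ2, ⟨b1, b2⟩, -⟩ := lift1 v hev J hJ (algebraMap (NodeRing K) B (NOD.vv K))
        ((φ.restrictScalars K).comp (j2 p q)) (hv1 φ)
      have hUV : ψ1 u * ψ2 v = 0 := by
        rw [a1, b1, ← map_mul, NOD.uu_vv, map_zero]
      have key : ∀ (a : S) (b : T), (ψ1 a - algebraMap K B (p a)) *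
          (ψ2 b - algebraMap K B (q b)) = 0 := by
        intro a b
        obtain ⟨a', ha'⟩ := hpu (a - algebraMap K S (p a)) (by
          rw [map_sub, AlgHom.commutes, Algebra.algebraMap_self_apply, sub_self])
        obtain ⟨b', hb'⟩ := hqv (b - algebraMap K T (q b)) (by
          rw [map_sub, AlgHom.commutes, Algebra.algebraMap_self_apply, sub_self])
        have e1 : ψ1 a - algebraMap K B (p a) = ψ1 u * ψ1 a' := by
          rw [← map_mul, ← ha', map_sub, AlgHom.commutes]
        have e2 : ψ2 b - algebraMap K B (q b) = ψ2 v * ψ2 b' := by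
          rw [← map_mul, ← hb', map_sub, AlgHom.commutes]
        rw [e1, e2]
        linear_combination ψ1 a' * ψ2 b' * hUV
      let Ψ : Gl p q →ₐ[K] B :=
        { toFun := fun x => ψ1 (x : S × T).1 + ψ2 (x : S × T).2 - algebraMap K B (p (x : S × T).1)
          map_one' := by
            change ψ1 1 + ψ2 1 - algebraMap K B (p 1) = 1
            rw [map_one, map_one, map_one, map_one]
            ring
          map_zero' := by
            change ψ1 0 + ψ2 0 - algebraMap K B (p 0) = 0
            rw [map_zero, map_zero, map_zero, map_zero]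
            ring
          map_mul' := fun x y => by
            have hx := (mem_Gl p q).1 x.2
            have hy := (mem_Gl p q).1 y.2
            change ψ1 ((x : S × T).1 * (y : S × T).1) + ψ2 ((x : S × T).2 * (y : S × T).2) -
              algebraMap K B (p ((x : S × T).1 * (y : S × T).1)) = _
            have k1 := key (x : S × T).1 (y : S × T).2
            have k2 := key (y : S × T).1 (x : S × T).2
            rw [← hy] at k1
            rw [← hx] at k2
            rw [map_mul, map_mul, map_mul, map_mul]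
            linear_combination -k1 - k2
          map_add' := fun x y => by
            change ψ1 ((x : S × T).1 + (y : S × T).1) + ψ2 ((x : S × T).2 + (y : S × T).2) -
              algebraMap K B (p ((x : S × T).1 + (y : S × T).1)) = _
            rw [map_add, map_add, map_add, map_add]
            ring
          commutes' := fun c => by
            change ψ1 (algebraMap K S c) + ψ2 (algebraMap K T c) -
              algebraMap K B (p (algebraMap K S c)) = algebraMap K B c
            rw [AlgHom.commutes, AlgHom.commutes, AlgHom.commutes, Algebra.algebraMap_self_apply]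
            ring }
      have hΨ : ∀ x : Gl p q, Ψ x = ψ1 (x : S × T).1 + ψ2 (x : S × T).2 -
        algebraMap K B (p (x : S × T).1) := fun _ => rfl
      have hN : Ψ.comp (nod hu hv) = IsScalarTower.toAlgHom K (NodeRing K) B := by
        apply hom_ext
        · change Ψ (nod hu hv (NOD.uu K)) = algebraMap (NodeRing K) B (NOD.uu K)
          rw [nod_uu, hΨ, j1_val]
          change ψ1 u + ψ2 (algebraMap K T (p u)) - algebraMap K B (p u) = _
          rw [hu, map_zero, map_zero, map_zero, a1]
          ring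
        · change Ψ (nod hu hv (NOD.vv K)) = algebraMap (NodeRing K) B (NOD.vv K)
          rw [nod_vv, hΨ, j2_val]
          change ψ1 (algebraMap K S (q v)) + ψ2 v - algebraMap K B (p (algebraMap K S (q v))) = _
          rw [hv, map_zero, map_zero, map_zero, map_zero, b1]
          ring
      refine ⟨{ Ψ.toRingHom with commutes' := fun n => congrArg (fun f => f n) hN }, ?_⟩
      ext x
      change Ideal.Quotient.mk J (Ψ x) = φ x
      have f1 : Ideal.Quotient.mk J (ψ1 (x : S × T).1) = φ (j1 p q (x : S × T).1) :=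
        congrArg (fun f => f (x : S × T).1) a2
      have f2 : Ideal.Quotient.mk J (ψ2 (x : S × T).2) = φ (j2 p q (x : S × T).2) :=
        congrArg (fun f => f (x : S × T).2) b2
      have f3 : Ideal.Quotient.mk J (algebraMap K B (p (x : S × T).1)) =
          φ (algebraMap K (Gl p q) (p (x : S × T).1)) :=
        ((φ.restrictScalars K).commutes (p (x : S × T).1)).symm
      conv_rhs => rw [eq_j p q x]
      rw [hΨ, map_sub, map_add, f1, f2, f3, map_sub, map_add]
  have het : Algebra.Etale (NodeRing K) (Gl p q) := ⟨hfe, hfp⟩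
  exact het

end glue

section cov

variable {K P R S T : Type} [Field K] [CommRing P] [Algebra K P] [CommRing R] [IsDomain R]
  [Algebra K R] [CommRing S] [Algebra K S] [Algebra R S] [IsScalarTower K R S] [CommRing T]
  [Algebra K T] [Algebra R T] [IsScalarTower K R T] (ι : P →ₐ[K] R) (p q : R →ₐ[K] K)
  (pS : S →ₐ[K] K) (qT : T →ₐ[K] K)

/-- The diagonal map. -/
noncomputable def dg (h : ∀ x, pS (algebraMap R S (ι x)) = qT (algebraMap R T (ι x))) :
    P →ₐ[K] Gl pS qT :=
  (((IsScalarTower.toAlgHom K R S).comp ι).prod ((IsScalarTower.toAlgHom K R T).comp ι)).codRestrict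
    (Gl pS qT) fun x => by
      rw [mem_Gl]
      exact h x

omit [IsDomain R] in
theorem dg_val (h : ∀ x, pS (algebraMap R S (ι x)) = qT (algebraMap R T (ι x))) (x : P) :
    (dg ι pS qT h x : S × T) = (algebraMap R S (ι x), algebraMap R T (ι x)) := rfl

theorem et_cov (h2 : (2 : K) ≠ 0) (hι : Function.Injective ι)
    (hr : ∀ f : R, (∃ x, ι x = f) ↔ p f = q f) (e c1 c2 : R) (pe : p e = 1) (qe : q e = -1)
    (pc1 : p c1 = 1) (qc1 : q c1 = 0) (pc2 : p c2 = 0) (qc2 : q c2 = 1)
    [IsLocalization.Away (e ^ 2 * c1) S] [IsLocalization.Away (e ^ 2 * c2) T]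
    (hpS : ∀ r, pS (algebraMap R S r) = p r) (hqT : ∀ r, qT (algebraMap R T r) = q r)
    (h : ∀ x, pS (algebraMap R S (ι x)) = qT (algebraMap R T (ι x))) :
    ((dg ι pS qT h : P →ₐ[K] Gl pS qT) : P →+* Gl pS qT).Etale := by
  have hf : algebraMap K R (2⁻¹ : K) * 2 = 1 := by
    have : (2 : R) = algebraMap K R 2 := (map_ofNat (algebraMap K R) 2).symm
    rw [this, ← map_mul, inv_mul_cancel₀ h2, map_one]
  have hfP : algebraMap K P (2⁻¹ : K) * 2 = 1 := by
    have : (2 : P) = algebraMap K P 2 := (map_ofNat (algebraMap K P) 2).symm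
    rw [this, ← map_mul, inv_mul_cancel₀ h2, map_one]
  have pf : p (algebraMap K R (2⁻¹ : K)) = 2⁻¹ := by
    rw [AlgHom.commutes, Algebra.algebraMap_self_apply]
  have qf : q (algebraMap K R (2⁻¹ : K)) = 2⁻¹ := by
    rw [AlgHom.commutes, Algebra.algebraMap_self_apply]
  set hfR : R := algebraMap K R (2⁻¹ : K) with hhf
  have he0 : e ≠ 0 := by
    rintro rfl
    rw [map_zero] at pe
    exact zero_ne_one pe
  have hc10 : c1 ≠ 0 := by
    rintro rfl
    rw [map_zero] at pc1
    exact zero_ne_one pc1
  have hc20 : c2 ≠ 0 := by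
    rintro rfl
    rw [map_zero] at qc2
    exact zero_ne_one qc2
  have hg10 : e ^ 2 * c1 ≠ 0 := mul_ne_zero (pow_ne_zero 2 he0) hc10
  have hg20 : e ^ 2 * c2 ≠ 0 := mul_ne_zero (pow_ne_zero 2 he0) hc20
  have injS : Function.Injective (algebraMap R S) :=
    IsLocalization.injective S (powers_le_nonZeroDivisors_of_noZeroDivisors hg10)
  have injT : Function.Injective (algebraMap R T) :=
    IsLocalization.injective T (powers_le_nonZeroDivisors_of_noZeroDivisors hg20)
  obtain ⟨d, hd⟩ := (hr (e ^ 2)).2 (by rw [map_pow, map_pow, pe, qe]; ring)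
  obtain ⟨r0, hr0⟩ := (hr (e * (c1 - c2) * hfR)).2 (by
    rw [map_mul, map_mul, map_mul, map_mul, map_sub, map_sub, pe, qe, pc1, pc2, qc1, qc2, pf, qf]
    ring)
  obtain ⟨r1, hr1⟩ := (hr ((c1 + c2) * hfR)).2 (by
    rw [map_mul, map_mul, map_add, map_add, pc1, pc2, qc1, qc2, pf, qf]
    ring)
  let E : StandardEtalePair P :=
    { f := Polynomial.X ^ 2 - Polynomial.C d
      monic_f := Polynomial.monic_X_pow_sub_C d two_ne_zero
      g := Polynomial.X * (Polynomial.C r0 + Polynomial.C r1 * Polynomial.X)
      cond := by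
        refine ⟨Polynomial.C (algebraMap K P (2⁻¹ : K)) *
          (Polynomial.C r0 + Polynomial.C r1 * Polynomial.X), 0, 1, ?_⟩
        have e1 : Polynomial.derivative (Polynomial.X ^ 2 - Polynomial.C d : P[X]) =
            Polynomial.C 2 * Polynomial.X := by
          rw [Polynomial.derivative_sub, Polynomial.derivative_C, Polynomial.derivative_X_pow,
            sub_zero]
          norm_num
        have e2 : (Polynomial.C (algebraMap K P (2⁻¹ : K)) * Polynomial.C 2 : P[X]) = 1 := by
          rw [← Polynomial.C_mul, hfP, Polynomial.C_1]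
        rw [e1, mul_zero, add_zero, pow_one]
        linear_combination Polynomial.X * (Polynomial.C r0 + Polynomial.C r1 * Polynomial.X) * e2 }
  let _ : Algebra P (Gl pS qT) := ((dg ι pS qT h : P →ₐ[K] Gl pS qT) : P →+* Gl pS qT).toAlgebra
  have hal : ∀ x : P, algebraMap P (Gl pS qT) x = dg ι pS qT h x := fun _ => rfl
  let y : Gl pS qT := ⟨(algebraMap R S e, algebraMap R T (-e)), by
    rw [mem_Gl]
    change pS (algebraMap R S e) = qT (algebraMap R T (-e))
    rw [hpS, hqT, pe, map_neg, qe, neg_neg]⟩
  have hlin : ∀ a b : P, ((algebraMap P (Gl pS qT) a + algebraMap P (Gl pS qT) b * y : Gl pS qT) :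
      S × T) = (algebraMap R S (ι a + ι b * e), algebraMap R T (ι a - ι b * e)) := by
    intro a b
    apply Prod.ext
    · change algebraMap R S (ι a) + algebraMap R S (ι b) * algebraMap R S e = _
      rw [← map_mul, ← map_add]
    · change algebraMap R T (ι a) + algebraMap R T (ι b) * algebraMap R T (-e) = _
      rw [← map_mul, ← map_add]
      congr 1
      ring
  have hy2 : y ^ 2 = algebraMap P (Gl pS qT) d := by
    apply Subtype.ext
    apply Prod.ext
    · change algebraMap R S e ^ 2 = algebraMap R S (ι d)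
      rw [hd, map_pow]
    · change algebraMap R T (-e) ^ 2 = algebraMap R T (ι d)
      rw [hd, ← map_pow]
      congr 1
      ring
  have hgy : ((Polynomial.aeval y E.g : Gl pS qT) : S × T) =
      (algebraMap R S (e ^ 2 * c1), algebraMap R T (e ^ 2 * c2)) := by
    have e1 : Polynomial.aeval y E.g = y * (algebraMap P (Gl pS qT) r0 +
        algebraMap P (Gl pS qT) r1 * y) := by
      change Polynomial.aeval y (Polynomial.X * (Polynomial.C r0 + Polynomial.C r1 *
        Polynomial.X)) = _
      rw [map_mul, map_add, map_mul, Polynomial.aeval_X, Polynomial.aeval_C, Polynomial.aeval_C]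
    have e2 := hlin r0 r1
    rw [e1]
    apply Prod.ext
    · change algebraMap R S e * ((algebraMap P (Gl pS qT) r0 + algebraMap P (Gl pS qT) r1 * y :
        Gl pS qT) : S × T).1 = _
      rw [e2]
      change algebraMap R S e * algebraMap R S (ι r0 + ι r1 * e) = algebraMap R S (e ^ 2 * c1)
      rw [← map_mul, hr0, hr1]
      congr 1
      linear_combination e ^ 2 * c1 * hf
    · change algebraMap R T (-e) * ((algebraMap P (Gl pS qT) r0 + algebraMap P (Gl pS qT) r1 * y :
        Gl pS qT) : S × T).2 = _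
      rw [e2]
      change algebraMap R T (-e) * algebraMap R T (ι r0 - ι r1 * e) = algebraMap R T (e ^ 2 * c2)
      rw [← map_mul, hr0, hr1]
      congr 1
      linear_combination e ^ 2 * c2 * hf
  have hgu : IsUnit (Polynomial.aeval y E.g) := by
    obtain ⟨i1, hi1⟩ := (IsLocalization.Away.algebraMap_isUnit (S := S) (e ^ 2 * c1)).exists_right_inv
    obtain ⟨i2, hi2⟩ := (IsLocalization.Away.algebraMap_isUnit (S := T) (e ^ 2 * c2)).exists_right_inv
    have k1 : pS i1 = 1 := by
      have := congrArg pS hi1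
      rw [map_mul, map_one, hpS, map_mul, map_pow, pe, pc1] at this
      simpa using this
    have k2 : qT i2 = 1 := by
      have := congrArg qT hi2
      rw [map_mul, map_one, hqT, map_mul, map_pow, qe, qc2] at this
      simpa using this
    refine IsUnit.of_mul_eq_one (⟨(i1, i2), by
      rw [mem_Gl]
      exact k1.trans k2.symm⟩ : Gl pS qT) ?_
    apply Subtype.ext
    change ((Polynomial.aeval y E.g : Gl pS qT) : S × T) * (i1, i2) = 1
    rw [hgy]
    exact Prod.ext hi1 hi2
  have hmap : E.HasMap y := by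
    refine ⟨?_, hgu⟩
    change Polynomial.aeval y (Polynomial.X ^ 2 - Polynomial.C d) = 0
    rw [map_sub, map_pow, Polynomial.aeval_X, Polynomial.aeval_C, hy2, sub_self]
  have hXu : IsUnit E.X := by
    have h1 := (StandardEtalePair.hasMap_X (P := E)).2
    change IsUnit (Polynomial.aeval E.X (Polynomial.X * (Polynomial.C r0 + Polynomial.C r1 *
      Polynomial.X))) at h1
    rw [map_mul, Polynomial.aeval_X] at h1
    exact isUnit_of_mul_isUnit_left h1
  have hX2 : E.X ^ 2 = algebraMap P E.Ring d := by
    have h1 := (StandardEtalePair.hasMap_X (P := E)).1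
    change Polynomial.aeval E.X (Polynomial.X ^ 2 - Polynomial.C d) = 0 at h1
    rw [map_sub, map_pow, Polynomial.aeval_X, Polynomial.aeval_C, sub_eq_zero] at h1
    exact h1
  have hbij : Function.Bijective (E.lift y hmap) := by
    constructor
    · rw [injective_iff_map_eq_zero]
      intro w hw
      let Pr : StandardEtalePresentation P E.Ring :=
        ⟨E, E.X, E.hasMap_X, by simpa [StandardEtalePair.lift_X_left] using Function.bijective_id⟩
      obtain ⟨F, n, hF⟩ := Pr.exists_mul_aeval_x_g_pow_eq_aeval_x w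
      change w * Polynomial.aeval E.X E.g ^ n = Polynomial.aeval E.X F at hF
      have hmon : (Polynomial.X ^ 2 - Polynomial.C d : P[X]).Monic :=
        Polynomial.monic_X_pow_sub_C d two_ne_zero
      have hnP : Nontrivial P := ⟨⟨0, 1, fun h01 => by
        have := congrArg ι h01
        rw [map_zero, map_one] at this
        exact zero_ne_one this⟩⟩
      have hdeg : (Polynomial.X ^ 2 - Polynomial.C d : P[X]).natDegree = 2 :=
        Polynomial.natDegree_X_pow_sub_C
      have hlt : (F %ₘ (Polynomial.X ^ 2 - Polynomial.C d)).natDegree ≤ 1 := by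
        have := Polynomial.natDegree_modByMonic_lt F hmon (fun h1 => by
          rw [h1, Polynomial.natDegree_one] at hdeg
          omega)
        rw [hdeg] at this
        omega
      obtain ⟨b, a, hba⟩ := Polynomial.exists_eq_X_add_C_of_natDegree_le_one hlt
      have hFX : Polynomial.aeval E.X F = algebraMap P E.Ring a + algebraMap P E.Ring b * E.X := by
        rw [← Polynomial.modByMonic_add_div F (Polynomial.X ^ 2 - Polynomial.C d), hba, map_add,
          map_add, map_mul, map_mul, map_sub, map_pow, Polynomial.aeval_X, Polynomial.aeval_C,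
          Polynomial.aeval_C, Polynomial.aeval_C, hX2, sub_self, zero_mul, add_zero, add_comm]
      have h0 : algebraMap P (Gl pS qT) a + algebraMap P (Gl pS qT) b * y = 0 := by
        have h1 := congrArg (E.lift y hmap) hF
        rw [map_mul, hw, zero_mul, hFX, map_add, map_mul, AlgHom.commutes, AlgHom.commutes,
          StandardEtalePair.lift_X] at h1
        exact h1.symm
      have h1 := hlin a b
      rw [h0] at h1
      have h2' : ι a + ι b * e = 0 := by
        apply injS
        rw [map_zero]
        exact (congrArg Prod.fst h1).symm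
      have h3 : ι a - ι b * e = 0 := by
        apply injT
        rw [map_zero]
        exact (congrArg Prod.snd h1).symm
      have h4 : ι a = 0 := by
        linear_combination hfR * h2' + hfR * h3 - ι a * hf
      have h5 : ι b = 0 := by
        rw [h4, zero_add] at h2'
        exact (mul_eq_zero.1 h2').resolve_right he0
      have h6 : a = 0 := hι (by rw [h4, map_zero])
      have h7 : b = 0 := hι (by rw [h5, map_zero])
      rw [hFX, h6, h7, map_zero, zero_mul, add_zero] at hF
      exact ((E.hasMap_X.2.pow n).mul_left_eq_zero).1 hF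
    · intro z
      obtain ⟨n1, a', ha'⟩ := IsLocalization.Away.surj (S := S) (e ^ 2 * c1) (z : S × T).1
      obtain ⟨n2, b', hb'⟩ := IsLocalization.Away.surj (S := T) (e ^ 2 * c2) (z : S × T).2
      have hz := (mem_Gl pS qT).1 z.2
      set A : R := a' * (e ^ 2 * c1) ^ (n2 + 1) with hA
      set B : R := b' * (e ^ 2 * c2) ^ (n1 + 1) with hB
      have hA1 : (z : S × T).1 * algebraMap R S (e ^ 2 * c1) ^ (n1 + n2 + 1) = algebraMap R S A := by
        have e1 : algebraMap R S A = algebraMap R S a' * algebraMap R S (e ^ 2 * c1) ^ (n2 + 1) := by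
          rw [hA, ← map_pow, ← map_mul]
        rw [e1, ← ha']
        ring
      have hB1 : (z : S × T).2 * algebraMap R T (e ^ 2 * c2) ^ (n1 + n2 + 1) = algebraMap R T B := by
        have e1 : algebraMap R T B = algebraMap R T b' * algebraMap R T (e ^ 2 * c2) ^ (n1 + 1) := by
          rw [hB, ← map_pow, ← map_mul]
        rw [e1, ← hb']
        ring
      have pA : p A = pS (z : S × T).1 := by
        have := congrArg pS hA1
        rw [map_mul, map_pow, hpS, hpS, map_mul, map_pow, pe, pc1] at this
        simpa using this.symm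
      have qB : q B = qT (z : S × T).2 := by
        have := congrArg qT hB1
        rw [map_mul, map_pow, hqT, hqT, map_mul, map_pow, qe, qc2] at this
        simpa using this.symm
      have qA : q A = 0 := by
        rw [hA, map_mul, map_pow, map_mul, qc1, mul_zero, zero_pow (Nat.succ_ne_zero n2), mul_zero]
      have pB : p B = 0 := by
        rw [hB, map_mul, map_pow, map_mul, pc2, mul_zero, zero_pow (Nat.succ_ne_zero n1), mul_zero]
      obtain ⟨s0, hs0⟩ := (hr (e * (A - B) * hfR)).2 (by
        rw [map_mul, map_mul, map_mul, map_mul, map_sub, map_sub, pe, qe, pA, qA, pB, qB, pf, qf,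
          hz]
        ring)
      obtain ⟨s1, hs1⟩ := (hr ((A + B) * hfR)).2 (by
        rw [map_mul, map_mul, map_add, map_add, pA, qA, pB, qB, pf, qf, hz]
        ring)
      have hzz : z * (y * Polynomial.aeval y E.g ^ (n1 + n2 + 1)) =
          algebraMap P (Gl pS qT) s0 + algebraMap P (Gl pS qT) s1 * y := by
        apply Subtype.ext
        rw [hlin]
        apply Prod.ext
        · change (z : S × T).1 * (algebraMap R S e *
            ((Polynomial.aeval y E.g : Gl pS qT) : S × T).1 ^ (n1 + n2 + 1)) =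
              algebraMap R S (ι s0 + ι s1 * e)
          rw [hgy]
          change (z : S × T).1 * (algebraMap R S e *
            algebraMap R S (e ^ 2 * c1) ^ (n1 + n2 + 1)) = algebraMap R S (ι s0 + ι s1 * e)
          have e1 : ι s0 + ι s1 * e = e * A := by
            rw [hs0, hs1]
            linear_combination e * A * hf
          rw [e1, map_mul (algebraMap R S) e A, ← hA1]
          ring
        · change (z : S × T).2 * (algebraMap R T (-e) *
            ((Polynomial.aeval y E.g : Gl pS qT) : S × T).2 ^ (n1 + n2 + 1)) =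
              algebraMap R T (ι s0 - ι s1 * e)
          rw [hgy]
          change (z : S × T).2 * (algebraMap R T (-e) *
            algebraMap R T (e ^ 2 * c2) ^ (n1 + n2 + 1)) = algebraMap R T (ι s0 - ι s1 * e)
          have e1 : ι s0 - ι s1 * e = -e * B := by
            rw [hs0, hs1]
            linear_combination -e * B * hf
          rw [e1, map_mul (algebraMap R T) (-e) B, ← hB1]
          ring
      obtain ⟨U, hU⟩ : IsUnit (E.X * Polynomial.aeval E.X E.g ^ (n1 + n2 + 1)) :=
        hXu.mul (E.hasMap_X.2.pow _)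
      have hlU : E.lift y hmap (U : E.Ring) = y * Polynomial.aeval y E.g ^ (n1 + n2 + 1) := by
        rw [hU, map_mul, map_pow, StandardEtalePair.lift_X, ← Polynomial.aeval_algHom_apply,
          StandardEtalePair.lift_X]
      refine ⟨(algebraMap P E.Ring s0 + algebraMap P E.Ring s1 * E.X) * ((U⁻¹ : E.Ringˣ) : E.Ring),
        ?_⟩
      rw [map_mul, map_add, map_mul, AlgHom.commutes, AlgHom.commutes, StandardEtalePair.lift_X,
        ← hzz, ← hlU, mul_assoc, ← map_mul, Units.mul_inv, map_one, mul_one]
  have het : Algebra.Etale P (Gl pS qT) :=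
    Algebra.Etale.of_equiv (AlgEquiv.ofBijective (E.lift y hmap) hbij)
  exact het

end cov

end Pool.Agent.MG.KX.KNNm

namespace Pool.Agent.MG.KX

namespace KNNm

open Pool.Agent.MG.G0 Pool.Agent.MG.GLU

section loc

variable {K R : Type} [Field K] [CommRing R] [Algebra K R]

/-- The derivation `f ↦ f - p f` modulo the square of the maximal ideal. -/
noncomputable def der (p : R →ₐ[K] K) : Derivation K R (R ⧸ (RingHom.ker p) ^ 2) where
  toFun f := Ideal.Quotient.mk _ (f - algebraMap K R (p f))
  map_add' f g := by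
    rw [← map_add, map_add p, map_add]
    congr 1
    ring
  map_smul' c f := by
    rw [RingHom.id_apply, Algebra.smul_def, Algebra.smul_def, map_mul p, AlgHom.commutes,
      Algebra.algebraMap_self_apply, map_mul (algebraMap K R)]
    have h1 : algebraMap K (R ⧸ (RingHom.ker p) ^ 2) c =
        Ideal.Quotient.mk ((RingHom.ker p) ^ 2) (algebraMap K R c) := rfl
    rw [h1, ← map_mul (Ideal.Quotient.mk ((RingHom.ker p) ^ 2))]
    congr 1
    ring
  map_one_eq_zero' := by
    change Ideal.Quotient.mk ((RingHom.ker p) ^ 2) (1 - algebraMap K R (p 1)) = 0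
    rw [map_one, map_one, sub_self, map_zero]
  leibniz' f g := by
    change Ideal.Quotient.mk ((RingHom.ker p) ^ 2) (f * g - algebraMap K R (p (f * g))) =
      f • Ideal.Quotient.mk ((RingHom.ker p) ^ 2) (g - algebraMap K R (p g)) +
      g • Ideal.Quotient.mk ((RingHom.ker p) ^ 2) (f - algebraMap K R (p f))
    rw [Algebra.smul_def, Algebra.smul_def]
    have h1 : ∀ x : R, algebraMap R (R ⧸ (RingHom.ker p) ^ 2) x =
        Ideal.Quotient.mk ((RingHom.ker p) ^ 2) x := fun _ => rfl
    rw [h1, h1, ← map_mul, ← map_mul, ← map_add, Ideal.Quotient.mk_eq_mk_iff_sub_mem]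
    have h2 : ∀ x : R, x - algebraMap K R (p x) ∈ RingHom.ker p := by
      intro x
      rw [RingHom.mem_ker, map_sub, AlgHom.commutes, Algebra.algebraMap_self_apply, sub_self]
    have h3 : f * g - algebraMap K R (p (f * g)) - (f * (g - algebraMap K R (p g)) +
        g * (f - algebraMap K R (p f))) =
        -((f - algebraMap K R (p f)) * (g - algebraMap K R (p g))) := by
      rw [map_mul, map_mul]
      ring
    rw [h3, pow_two]
    exact neg_mem (Ideal.mul_mem_mul (h2 f) (h2 g))

theorem der_apply (p : R →ₐ[K] K) (f : R) :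
    der p f = Ideal.Quotient.mk _ (f - algebraMap K R (p f)) := rfl

theorem cot (hsm : SmC K R) (p : R →ₐ[K] K) : ∃ (D : Derivation K R R) (t : R),
    p t = 0 ∧ p (D t) ≠ 0 ∧ ∀ f ∈ RingHom.ker p, ∃ c : K, f - c • t ∈ (RingHom.ker p) ^ 2 := by
  obtain ⟨n, D, g, hs, hrel⟩ := hsm
  have h1 : ∃ i, p (D i (g i)) ≠ 0 := by
    by_contra h
    push Not at h
    have := congrArg p hs
    rw [map_sum, map_one, Finset.sum_eq_zero (fun i _ => h i)] at this
    exact zero_ne_one this
  obtain ⟨i, hi⟩ := h1
  have hDt : D i (g i - algebraMap K R (p (g i))) = D i (g i) := by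
    rw [map_sub, Derivation.map_algebraMap, sub_zero]
  have ht : p (g i - algebraMap K R (p (g i))) = 0 := by
    rw [map_sub, AlgHom.commutes, Algebra.algebraMap_self_apply, sub_self]
  refine ⟨D i, g i - algebraMap K R (p (g i)), ht, by rwa [hDt], ?_⟩
  intro f hf
  have hpf : p f = 0 := hf
  have h2 := congrArg (der p).liftKaehlerDifferential (hrel (D i) f (g i))
  rw [map_smul, map_smul, Derivation.liftKaehlerDifferential_comp_D,
    Derivation.liftKaehlerDifferential_comp_D, der_apply, der_apply, hpf, map_zero, sub_zero,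
    Algebra.smul_def, Algebra.smul_def] at h2
  have h3 : ∀ x : R, algebraMap R (R ⧸ (RingHom.ker p) ^ 2) x =
      Ideal.Quotient.mk ((RingHom.ker p) ^ 2) x := fun _ => rfl
  rw [h3, h3, ← map_mul, ← map_mul, Ideal.Quotient.mk_eq_mk_iff_sub_mem] at h2
  refine ⟨p (D i f) * (p (D i (g i)))⁻¹, ?_⟩
  set t : R := g i - algebraMap K R (p (g i)) with htdef
  have h4 : ∀ x : R, x - algebraMap K R (p x) ∈ RingHom.ker p := by
    intro x
    rw [RingHom.mem_ker, map_sub, AlgHom.commutes, Algebra.algebraMap_self_apply, sub_self]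
  have h5 : (D i f - algebraMap K R (p (D i f))) * t ∈ (RingHom.ker p) ^ 2 := by
    rw [pow_two]
    exact Ideal.mul_mem_mul (h4 _) ht
  have h6 : (D i (g i) - algebraMap K R (p (D i (g i)))) * f ∈ (RingHom.ker p) ^ 2 := by
    rw [pow_two]
    exact Ideal.mul_mem_mul (h4 _) hf
  have h7 : algebraMap K R (p (D i (g i))) * f - algebraMap K R (p (D i f)) * t ∈
      (RingHom.ker p) ^ 2 := by
    have := sub_mem (sub_mem h5 h6) h2
    have e : (D i f - algebraMap K R (p (D i f))) * t -
        (D i (g i) - algebraMap K R (p (D i (g i)))) * f - (D i f * t - D i (g i) * f) =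
        algebraMap K R (p (D i (g i))) * f - algebraMap K R (p (D i f)) * t := by
      ring
    rwa [e] at this
  have h8 := ((RingHom.ker p) ^ 2).mul_mem_left (algebraMap K R (p (D i (g i)))⁻¹) h7
  have e : algebraMap K R (p (D i (g i)))⁻¹ * (algebraMap K R (p (D i (g i))) * f -
      algebraMap K R (p (D i f)) * t) = f - (p (D i f) * (p (D i (g i)))⁻¹) • t := by
    rw [Algebra.smul_def, map_mul, mul_sub, ← mul_assoc, ← map_mul, inv_mul_cancel₀ hi, map_one,
      one_mul]
    ring
  rwa [e] at h8

theorem etale_dvd {h g : R} (hg : h ∣ g) {S : Type} [CommRing S] [Algebra R S]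
    [IsLocalization.Away g S] {A : Type} [CommRing A] {φ : A →+* R}
    (he : ((algebraMap R (Localization.Away h)).comp φ).Etale) :
    ((algebraMap R S).comp φ).Etale := by
  have hu : IsUnit (algebraMap R S h) := IsLocalization.Away.isUnit_of_dvd g hg
  let _ : Algebra (Localization.Away h) S := (IsLocalization.Away.lift h hu).toAlgebra
  have hst : IsScalarTower R (Localization.Away h) S :=
    IsScalarTower.of_algebraMap_eq' (IsLocalization.Away.lift_comp h hu).symm
  have e1 : Algebra.Etale R (Localization.Away h) := Algebra.Etale.of_isLocalizationAway h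
  have e2 : Algebra.Etale R S := Algebra.Etale.of_isLocalizationAway g
  have e3 : Algebra.Etale (Localization.Away h) S := Algebra.Etale.of_restrictScalars R _ _
  have e4 : (algebraMap R S).comp φ = (algebraMap (Localization.Away h) S).comp
      ((algebraMap R (Localization.Away h)).comp φ) := by
    rw [← RingHom.comp_assoc, ← IsScalarTower.algebraMap_eq R (Localization.Away h) S]
  rw [e4]
  exact RingHom.Etale.stableUnderComposition _ _ he (RingHom.etale_algebraMap.2 e3)

/-- Étale coordinates at a point. -/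
theorem coord [IsDomain R] [IsAlgClosed K] (hft : Algebra.FiniteType K R) (hsm : SmC K R)
    (p : R →ₐ[K] K) : ∃ h t : R, p t = 0 ∧ p h ≠ 0 ∧ (∀ a, p a = 0 → t ∣ h * a) ∧
      ((algebraMap R (Localization.Away h)).comp
        (Polynomial.eval₂RingHom (algebraMap K R) t)).Etale := by
  obtain ⟨D, t, ht, hDt, hm⟩ := cot hsm p
  obtain ⟨h, h1, h2⟩ := KMK.etale_at hft p t hm (by
    intro F hF
    by_contra h0
    obtain ⟨c, hc⟩ := KMK.const_of t F hF h0
    apply hDt
    rw [hc, Derivation.map_algebraMap, map_zero])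
  have hnoe : IsNoetherianRing R := Algebra.FiniteType.isNoetherianRing K R
  obtain ⟨r, hr1, hr2⟩ := Submodule.exists_sub_one_mem_and_smul_le_of_fg_of_le_sup
    (I := RingHom.ker p) (N := Ideal.span {t}) (N' := RingHom.ker p) (P := RingHom.ker p)
    (IsNoetherian.noetherian (RingHom.ker p)) le_rfl (by
      intro f hf
      obtain ⟨c, hc⟩ := hm f hf
      have e : f = c • t + (f - c • t) := by ring
      rw [e]
      refine Submodule.add_mem_sup ?_ ?_
      · rw [Algebra.smul_def]
        exact Ideal.mul_mem_left _ _ (Ideal.mem_span_singleton_self t)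
      · rw [smul_eq_mul, ← pow_two]
        exact hc)
  have hpr : p r = 1 := by
    rw [RingHom.mem_ker, map_sub, map_one, sub_eq_zero] at hr1
    exact hr1
  refine ⟨h * r, t, ht, ?_, ?_, ?_⟩
  · rw [map_mul, hpr, mul_one]
    exact h1
  · intro a ha
    have h3 : r • a ∈ Ideal.span {t} := hr2 (Submodule.smul_mem_pointwise_smul a r _ ha)
    rw [Ideal.mem_span_singleton, smul_eq_mul] at h3
    rw [mul_assoc]
    exact h3.mul_left h
  · exact etale_dvd (dvd_mul_right h r) h2

end loc

section away

variable {K P R : Type} [Field K] [CommRing P] [Algebra K P] [CommRing R] [Algebra K R]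
  (ι : P →ₐ[K] R) (p q : R →ₐ[K] K)

theorem away_etale (hι : Function.Injective ι) (hr : ∀ f : R, (∃ x, ι x = f) ↔ p f = q f) (s : P)
    (ps : p (ι s) = 0) : (((algebraMap R (Localization.Away (ι s))).comp
      (ι : P →+* R)).Etale) ∧ ∀ x : PrimeSpectrum P, s ∉ x.asIdeal →
        ∃ y : PrimeSpectrum (Localization.Away (ι s)),
          PrimeSpectrum.comap ((algebraMap R (Localization.Away (ι s))).comp (ι : P →+* R)) y = x := by
  let _ : Algebra P (Localization.Away (ι s)) :=
    ((algebraMap R (Localization.Away (ι s))).comp (ι : P →+* R)).toAlgebra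
  have hal : ∀ x : P, algebraMap P (Localization.Away (ι s)) x =
      algebraMap R (Localization.Away (ι s)) (ι x) := fun _ => rfl
  have qs : q (ι s) = 0 := by
    rw [← (hr (ι s)).1 ⟨s, rfl⟩]
    exact ps
  have hloc : IsLocalization.Away s (Localization.Away (ι s)) := by
    apply IsLocalization.Away.mk
    · rw [hal]
      exact IsLocalization.Away.algebraMap_isUnit (ι s)
    · intro z
      obtain ⟨n, a, ha⟩ := IsLocalization.Away.surj (ι s) z
      obtain ⟨b, hb⟩ := (hr (a * ι s)).2 (by rw [map_mul, map_mul, ps, qs, mul_zero, mul_zero])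
      refine ⟨n + 1, b, ?_⟩
      rw [hal, hal, hb, map_mul, ← ha]
      ring
    · intro a b hab
      rw [hal, hal] at hab
      obtain ⟨n, hn⟩ := IsLocalization.Away.exists_of_eq (ι s) hab
      refine ⟨n, hι ?_⟩
      rw [map_mul, map_mul, map_pow]
      exact hn
  refine ⟨RingHom.etale_algebraMap.2 (Algebra.Etale.of_isLocalizationAway s), fun x hx => ?_⟩
  have h1 : x ∈ Set.range (PrimeSpectrum.comap (algebraMap P (Localization.Away (ι s)))) := by
    rw [PrimeSpectrum.localization_away_comap_range _ s]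
    exact hx
  obtain ⟨y, hy⟩ := h1
  exact ⟨y, hy⟩

/-- Nodality of `P` at the points where `P` and `R` agree. -/
theorem nodal_away (hι : Function.Injective ι) (hr : ∀ f : R, (∃ x, ι x = f) ↔ p f = q f)
    (hnod : Nodal (spMap (algebraMap K R))) (s : P) (ps : p (ι s) = 0) (x : Sp P)
    (hx : s ∉ x.asIdeal) :
    ∃ (U : Scheme.{0}) (f : U ⟶ Sp P) (h : U ⟶ Sp (NodeRing K)),
      Etale f ∧ Etale h ∧ f ≫ spMap (algebraMap K P) = h ≫ spMap (algebraMap K (NodeRing K)) ∧
        x ∈ Set.range f := by
  obtain ⟨h1, h2⟩ := away_etale ι p q hι hr s ps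
  obtain ⟨y, hy⟩ := h2 x hx
  let L : Type := Localization.Away (ι s)
  let κ : Sp L ⟶ Sp R := spMap (algebraMap R L)
  let j : Sp L ⟶ Sp P := spMap ((algebraMap R L).comp (ι : P →+* R))
  have hκ : Etale κ := NOD.etale_spMap (RingHom.etale_algebraMap.2
    (Algebra.Etale.of_isLocalizationAway (ι s)))
  have hj : Etale j := NOD.etale_spMap h1
  obtain ⟨V, f, h, hf, hh, hc, v, hv⟩ := hnod (κ (y : Sp L))
  obtain ⟨w, hw1, hw2⟩ := Scheme.Pullback.exists_preimage_pullback (f := f) (g := κ) v y hv
  refine ⟨pullback f κ, pullback.snd f κ ≫ j, pullback.fst f κ ≫ h, ?_, ?_, ?_, ⟨w, ?_⟩⟩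
  · have : Etale (pullback.snd f κ) := inferInstance
    infer_instance
  · have : Etale (pullback.fst f κ) := inferInstance
    infer_instance
  · have e1 : j ≫ spMap (algebraMap K P) = κ ≫ spMap (algebraMap K R) := by
      rw [← Spec.map_comp, ← Spec.map_comp, ← CommRingCat.ofHom_comp, ← CommRingCat.ofHom_comp]
      congr 2
      ext c
      change algebraMap R L (ι (algebraMap K P c)) = algebraMap R L (algebraMap K R c)
      rw [AlgHom.commutes]
    rw [Category.assoc, e1, ← Category.assoc, ← pullback.condition, Category.assoc, hc,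
      Category.assoc]
  · rw [Scheme.Hom.comp_apply, hw2]
    exact hy

end away

section node

variable {K P R : Type} [Field K] [CommRing P] [Algebra K P] [CommRing R] [IsDomain R]
  [Algebra K R] (ι : P →ₐ[K] R) (p q : R →ₐ[K] K)

omit [IsDomain R] in
theorem exists_e (hpq : p ≠ q) : ∃ e : R, p e = 1 ∧ q e = -1 := by
  obtain ⟨f, hf⟩ : ∃ f, p f ≠ q f := by
    by_contra h
    push Not at h
    exact hpq (AlgHom.ext h)
  have h0 : p f - q f ≠ 0 := sub_ne_zero.2 hf
  refine ⟨algebraMap K R (2 / (p f - q f)) * f + algebraMap K R (1 - 2 / (p f - q f) * p f),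
    ?_, ?_⟩
  · rw [map_add, map_mul, AlgHom.commutes, AlgHom.commutes, Algebra.algebraMap_self_apply,
      Algebra.algebraMap_self_apply]
    ring
  · rw [map_add, map_mul, AlgHom.commutes, AlgHom.commutes, Algebra.algebraMap_self_apply,
      Algebra.algebraMap_self_apply]
    have e1 : 2 / (p f - q f) * q f + (1 - 2 / (p f - q f) * p f) =
        1 - 2 / (p f - q f) * (p f - q f) := by ring
    rw [e1, div_mul_cancel₀ _ h0]
    norm_num

omit [IsDomain R] in
theorem dvd_of {g h t : R} {S : Type} [CommRing S] [Algebra R S] [Algebra K S]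
    [IsLocalization.Away g S] (hg : h ∣ g) (pS : S →ₐ[K] K) (hpS : ∀ r, pS (algebraMap R S r) = p r)
    (hd : ∀ a, p a = 0 → t ∣ h * a) (a : S) (ha : pS a = 0) : algebraMap R S t ∣ a := by
  obtain ⟨n, b, hb⟩ := IsLocalization.Away.surj (S := S) g a
  have pb : p b = 0 := by
    rw [← hpS, ← hb, map_mul, ha, zero_mul]
  have h1 : algebraMap R S t ∣ algebraMap R S h * algebraMap R S b := by
    rw [← map_mul]
    exact map_dvd (algebraMap R S) (hd b pb)
  have hu : IsUnit (algebraMap R S h) := IsLocalization.Away.isUnit_of_dvd g hg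
  have hu2 : IsUnit (algebraMap R S g ^ n) := (IsLocalization.Away.algebraMap_isUnit g).pow n
  rw [hu.dvd_mul_left, ← hb, hu2.dvd_mul_right] at h1
  exact h1

omit [IsDomain R] in
theorem aeval_etale {S : Type} [CommRing S] [Algebra R S] [Algebra K S] [IsScalarTower K R S]
    {t : R} (he : ((algebraMap R S).comp (Polynomial.eval₂RingHom (algebraMap K R) t)).Etale) :
    (Polynomial.aeval (algebraMap R S t) : K[X] →ₐ[K] S).toRingHom.Etale := by
  have e1 : (Polynomial.aeval (algebraMap R S t) : K[X] →ₐ[K] S).toRingHom =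
      (algebraMap R S).comp (Polynomial.eval₂RingHom (algebraMap K R) t) := by
    apply Polynomial.ringHom_ext
    · intro a
      change Polynomial.aeval (algebraMap R S t) (Polynomial.C a) =
        algebraMap R S (Polynomial.eval₂ (algebraMap K R) t (Polynomial.C a))
      rw [Polynomial.aeval_C, Polynomial.eval₂_C, ← IsScalarTower.algebraMap_apply]
    · change Polynomial.aeval (algebraMap R S t) Polynomial.X =
        algebraMap R S (Polynomial.eval₂ (algebraMap K R) t Polynomial.X)
      rw [Polynomial.aeval_X, Polynomial.eval₂_X]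
  rw [e1]
  exact he

theorem nodal_node [IsAlgClosed K] (h2 : (2 : K) ≠ 0) (hι : Function.Injective ι)
    (hr : ∀ f : R, (∃ x, ι x = f) ↔ p f = q f) (hpq : p ≠ q) (hftR : Algebra.FiniteType K R)
    (hftP : Algebra.FiniteType K P) (hsm : SmC K R) (x : Sp P)
    (hx : ∀ s, p (ι s) = 0 ↔ s ∈ x.asIdeal) :
    ∃ (U : Scheme.{0}) (f : U ⟶ Sp P) (h : U ⟶ Sp (NodeRing K)),
      Etale f ∧ Etale h ∧ f ≫ spMap (algebraMap K P) = h ≫ spMap (algebraMap K (NodeRing K)) ∧
        x ∈ Set.range f := by
  obtain ⟨e, pe, qe⟩ := exists_e p q hpq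
  obtain ⟨h1, t1, pt1, ph1, hd1, het1⟩ := coord hftR hsm p
  obtain ⟨h3, t2, qt2, qh3, hd2, het2⟩ := coord hftR hsm q
  set c1 : R := algebraMap K R (2 * p h1)⁻¹ * (h1 * (1 + e)) with hc1
  set c2 : R := algebraMap K R (2 * q h3)⁻¹ * (h3 * (1 - e)) with hc2
  have pc1 : p c1 = 1 := by
    rw [hc1, map_mul, map_mul, map_add, map_one, pe, AlgHom.commutes,
      Algebra.algebraMap_self_apply]
    field_simp
    norm_num
  have qc1 : q c1 = 0 := by
    rw [hc1, map_mul, map_mul, map_add, map_one, qe]
    ring
  have pc2 : p c2 = 0 := by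
    rw [hc2, map_mul, map_mul, map_sub, map_one, pe]
    ring
  have qc2 : q c2 = 1 := by
    rw [hc2, map_mul, map_mul, map_sub, map_one, qe, AlgHom.commutes,
      Algebra.algebraMap_self_apply]
    field_simp
    norm_num
  let S : Type := Localization.Away (e ^ 2 * c1)
  let T : Type := Localization.Away (e ^ 2 * c2)
  have ug1 : IsUnit (p (e ^ 2 * c1)) := by
    rw [map_mul, map_pow, pe, pc1]
    norm_num
  have ug2 : IsUnit (q (e ^ 2 * c2)) := by
    rw [map_mul, map_pow, qe, qc2]
    norm_num
  let pS : S →ₐ[K] K := IsLocalization.Away.liftAlgHom (e ^ 2 * c1) ug1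
  let qT : T →ₐ[K] K := IsLocalization.Away.liftAlgHom (e ^ 2 * c2) ug2
  have hpS : ∀ r, pS (algebraMap R S r) = p r := fun r => IsLocalization.Away.lift_eq _ ug1 r
  have hqT : ∀ r, qT (algebraMap R T r) = q r := fun r => IsLocalization.Away.lift_eq _ ug2 r
  have hd : ∀ x, pS (algebraMap R S (ι x)) = qT (algebraMap R T (ι x)) := by
    intro x
    rw [hpS, hqT]
    exact (hr _).1 ⟨x, rfl⟩
  have hcov := et_cov ι p q pS qT h2 hι hr e c1 c2 pe qe pc1 qc1 pc2 qc2 hpS hqT hd
  have hg1 : h1 ∣ e ^ 2 * c1 := by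
    rw [hc1]
    exact ⟨e ^ 2 * algebraMap K R (2 * p h1)⁻¹ * (1 + e), by ring⟩
  have hg2 : h3 ∣ e ^ 2 * c2 := by
    rw [hc2]
    exact ⟨e ^ 2 * algebraMap K R (2 * q h3)⁻¹ * (1 - e), by ring⟩
  have hftG : Algebra.FiniteType K (Gl pS qT) := by
    let _ : Algebra P (Gl pS qT) := ((dg ι pS qT hd : P →ₐ[K] Gl pS qT) : P →+* Gl pS qT).toAlgebra
    have hst : IsScalarTower K P (Gl pS qT) :=
      IsScalarTower.of_algebraMap_eq (R := K) (S := P) (A := Gl pS qT) fun c =>
        ((dg ι pS qT hd).commutes c).symm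
    have : Algebra.Etale P (Gl pS qT) := hcov
    exact Algebra.FiniteType.trans hftP inferInstance
  have hu : pS (algebraMap R S t1) = 0 := by rw [hpS, pt1]
  have hv : qT (algebraMap R T t2) = 0 := by rw [hqT, qt2]
  have hnode := et_node hu hv (dvd_of p hg1 pS hpS hd1) (dvd_of q hg2 qT hqT hd2)
    (aeval_etale (etale_dvd hg1 het1)) (aeval_etale (etale_dvd hg2 het2)) hftG
  refine ⟨Sp (Gl pS qT), spMap ((dg ι pS qT hd : P →ₐ[K] Gl pS qT) : P →+* Gl pS qT),
    spMap ((nod hu hv : NodeRing K →ₐ[K] Gl pS qT) : NodeRing K →+* Gl pS qT),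
    NOD.etale_spMap hcov, NOD.etale_spMap hnode, ?_, ?_⟩
  · rw [← Spec.map_comp, ← Spec.map_comp, ← CommRingCat.ofHom_comp, ← CommRingCat.ofHom_comp]
    congr 2
    refine RingHom.ext fun c => ?_
    change dg ι pS qT hd (algebraMap K P c) = nod hu hv (algebraMap K (NodeRing K) c)
    rw [AlgHom.commutes, AlgHom.commutes]
  · let n : PrimeSpectrum (Gl pS qT) :=
      ⟨RingHom.ker (pS.comp ((AlgHom.fst K S T).comp (Gl pS qT).val)), RingHom.ker_isPrime _⟩
    refine ⟨n, ?_⟩
    apply PrimeSpectrum.ext
    ext s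
    have hi : s ∈ (spMap ((dg ι pS qT hd : P →ₐ[K] Gl pS qT) : P →+* Gl pS qT) n).asIdeal ↔
      pS (algebraMap R S (ι s)) = 0 := Iff.rfl
    rw [hi, hpS, hx]

end node

theorem nodal_of {K P R : Type} [Field K] [IsAlgClosed K] [CommRing P] [Algebra K P] [CommRing R]
    [IsDomain R] [Algebra K R] (ι : P →ₐ[K] R) (p q : R →ₐ[K] K) (h2 : (2 : K) ≠ 0)
    (hι : Function.Injective ι) (hr : ∀ f : R, (∃ x, ι x = f) ↔ p f = q f) (hpq : p ≠ q)
    (hftR : Algebra.FiniteType K R) (hftP : Algebra.FiniteType K P) (hsm : SmC K R)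
    (hnod : Nodal (spMap (algebraMap K R))) : Nodal (spMap (algebraMap K P)) := by
  intro x
  by_cases hc : ∀ s : P, p (ι s) = 0 → s ∈ x.asIdeal
  · refine nodal_node ι p q h2 hι hr hpq hftR hftP hsm x fun s => ⟨hc s, fun hs => ?_⟩
    by_contra h0
    have h1 : s - algebraMap K P (p (ι s)) ∈ x.asIdeal := hc _ (by
      rw [map_sub, map_sub, AlgHom.commutes, AlgHom.commutes, Algebra.algebraMap_self_apply,
        sub_self])
    have h3 : algebraMap K P (p (ι s)) ∈ x.asIdeal := by
      have := x.asIdeal.sub_mem hs h1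
      rwa [sub_sub_cancel] at this
    have h4 : IsUnit (algebraMap K P (p (ι s))) := (IsUnit.mk0 _ h0).map (algebraMap K P)
    exact x.isPrime.ne_top (Ideal.eq_top_of_isUnit_mem _ h3 h4)
  · push Not at hc
    obtain ⟨s, hs, hsx⟩ := hc
    exact nodal_away ι p q hι hr hnod s hs x hsx

end KNNm

theorem t_KNN (hKDM : Stmt_KDM) (hKNS : Stmt_KNS) (hPLE : Stmt_PLE) (hKFP : Stmt_KFP) :
    Stmt_KNN := by
  intro I K _ _ _ _ _ g P hP hN
  obtain ⟨h, R, p, q, -, hR, hsm, hpq, hPR⟩ := hN
  have hdom : IsDomain R := (hKDM hR hsm).1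
  obtain ⟨⟨z⟩, -⟩ := hPLE hP
  obtain ⟨⟨w⟩, -⟩ := hPLE hR
  have fpP : Algebra.FinitePresentation K P := (hKFP hP z).1
  have fpR : Algebra.FinitePresentation K R := (hKFP hR w).1
  have hle : P ≤ R := fun f hf => ((hPR f).1 hf).choose
  refine KNNm.nodal_of (Subalgebra.inclusion hle) p q two_ne_zero
    (Subalgebra.inclusion_injective hle) ?_ hpq inferInstance inferInstance hsm.2 (hKNS hR hsm)
  intro f
  constructor
  · rintro ⟨x, rfl⟩
    obtain ⟨h1, h2⟩ := (hPR x).1 x.2
    exact h2
  · intro hf
    exact ⟨⟨f, (hPR f).2 ⟨f.2, hf⟩⟩, rfl⟩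

end Pool.Agent.MG.KX
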