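import Pool.Agent.MG.KX.StmtsK

/-!
# KPT: étale coordinates at the punctures
-/

open CategoryTheory CategoryTheory.Limits AlgebraicGeometry TensorProduct

namespace Pool.Agent.MG.KX

open Pool.Agent.MG.G0 Pool.Agent.MG.GLU

namespace KPT_

open Polynomial

/-- A power series without constant term is transcendental. -/
theorem transc {K : Type} [Field K] {t : PowerSeries K} (ht : t ≠ 0)
    (h0 : PowerSeries.constantCoeff t = 0) (n : ℕ) :
    ∀ F : K[X], F.natDegree ≤ n → F.eval₂ (PowerSeries.C (R := K)) t = 0 → F = 0 := by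
  induction n with
  | zero =>
    intro F hF h
    rw [Polynomial.eq_C_of_natDegree_le_zero hF] at h ⊢
    rw [Polynomial.eval₂_C] at h
    have h1 := congrArg (PowerSeries.constantCoeff (R := K)) h
    rw [PowerSeries.constantCoeff_C, map_zero] at h1
    rw [h1, Polynomial.C_0]
  | succ n ih =>
    intro F hF h
    have e := Polynomial.divX_mul_X_add F
    have h1 : F.coeff 0 = 0 := by
      have h2 := congrArg (PowerSeries.constantCoeff (R := K)) h
      rw [← e, Polynomial.eval₂_add, Polynomial.eval₂_mul, Polynomial.eval₂_X,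
        Polynomial.eval₂_C, map_add, map_mul, h0, mul_zero, zero_add,
        PowerSeries.constantCoeff_C, map_zero] at h2
      exact h2
    rw [h1, Polynomial.C_0, add_zero] at e
    have h2 : F.divX.eval₂ (PowerSeries.C (R := K)) t = 0 := by
      rw [← e, Polynomial.eval₂_mul, Polynomial.eval₂_X] at h
      exact (mul_eq_zero.1 h).resolve_right ht
    have h3 : F.divX = 0 := by
      refine ih _ ?_ h2
      rw [Polynomial.natDegree_divX_eq_natDegree_tsub_one]
      omega
    rw [← e, h3, zero_mul]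

section

variable {K R I : Type} [Field K] [CommRing R] [Algebra K R]

/-- The expansions of the elements of a ring at finitely many points. -/
structure Ex (K R I : Type) [Field K] [CommRing R] [Algebra K R] where
  w : R
  d : ℕ
  pos : 1 ≤ d
  ρ : I → R →+* PowerSeries K
  alg : ∀ i c, ρ i (algebraMap K R c) = PowerSeries.C c
  inj : ∀ f, (∀ i, ρ i f = 0) → f = 0
  div : ∀ f m, (∀ i, PowerSeries.X ^ (d + m) ∣ ρ i f) →
    ∃ f', f = w * f' ∧ ∀ i, PowerSeries.X ^ m ∣ ρ i f'
  den : ∀ (f : I → PowerSeries K) (M : ℕ), ∃ r, ∀ i, PowerSeries.X ^ M ∣ ρ i r - f i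

variable (T : Ex K R I)

/-- The maximal ideal of a point. -/
noncomputable def J (i : I) : Ideal R :=
  RingHom.ker ((PowerSeries.constantCoeff (R := K)).comp (T.ρ i))

theorem mem_J {i : I} {f : R} : f ∈ J T i ↔ PowerSeries.constantCoeff (T.ρ i f) = 0 := Iff.rfl

theorem J_max (i : I) : (J T i).IsMaximal := by
  refine RingHom.ker_isMaximal_of_surjective _ fun c => ⟨algebraMap K R c, ?_⟩
  rw [RingHom.comp_apply, T.alg, PowerSeries.constantCoeff_C]

theorem exists_eq [Finite I] (q : Ideal R) [hq : q.IsPrime] (hw : T.w ∈ q) : ∃ i, q = J T i := by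
  classical
  have : Fintype I := Fintype.ofFinite I
  have h1 : Finset.univ.inf (J T) ≤ q := by
    intro f hf
    have hf' : ∀ i, f ∈ J T i := fun i => (Finset.inf_le (Finset.mem_univ i) : _ ≤ J T i) hf
    have h2 : ∀ i, PowerSeries.X ^ (T.d + 0) ∣ T.ρ i (f ^ T.d) := by
      intro i
      rw [add_zero, map_pow]
      exact pow_dvd_pow_of_dvd (PowerSeries.X_dvd_iff.2 (hf' i)) _
    obtain ⟨f', hf1, -⟩ := T.div _ _ h2
    refine hq.mem_of_pow_mem T.d ?_
    rw [hf1]
    exact q.mul_mem_right _ hw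
  obtain ⟨i, -, hi⟩ := (Ideal.IsPrime.inf_le' hq).1 h1
  exact ⟨i, ((J_max T i).eq_of_le hq.ne_top hi).symm⟩

theorem coeff_of_dvd {f g : PowerSeries K} {M : ℕ} (h : PowerSeries.X ^ M ∣ f - g) (m : ℕ)
    (hm : m < M) : PowerSeries.coeff m f = PowerSeries.coeff m g := by
  have h1 := PowerSeries.X_pow_dvd_iff.1 h m hm
  rw [map_sub] at h1
  exact sub_eq_zero.1 h1

/-- A coordinate. -/
theorem exists_t : ∃ t : R, ∀ i, ∃ u : PowerSeries K, IsUnit u ∧ T.ρ i t = PowerSeries.X * u ∧
    PowerSeries.coeff 1 (T.ρ i t) = 1 := by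
  obtain ⟨t, ht⟩ := T.den (fun _ => PowerSeries.X) 2
  refine ⟨t, fun i => ?_⟩
  have h0 := coeff_of_dvd (ht i) 0 (by norm_num)
  have h1 := coeff_of_dvd (ht i) 1 (by norm_num)
  rw [PowerSeries.coeff_one_X] at h1
  rw [PowerSeries.coeff_zero_X, PowerSeries.coeff_zero_eq_constantCoeff_apply] at h0
  obtain ⟨u, hu⟩ := PowerSeries.X_dvd_iff.2 h0
  refine ⟨u, ?_, hu, h1⟩
  rw [PowerSeries.isUnit_iff_constantCoeff, ← PowerSeries.coeff_zero_eq_constantCoeff_apply]
  have h2 : PowerSeries.coeff 1 (PowerSeries.X * u) = PowerSeries.coeff 0 u :=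
    PowerSeries.coeff_succ_X_mul 0 u
  rw [← h2, ← hu, h1]
  exact isUnit_one

/-- Local generation of the maximal ideal by a coordinate. -/
theorem local_gen {t : R} (ht : ∀ i, ∃ u : PowerSeries K, IsUnit u ∧ T.ρ i t = PowerSeries.X * u ∧
    PowerSeries.coeff 1 (T.ρ i t) = 1) (i : I) (hw : T.w ∈ J T i) {f : R} (hf : f ∈ J T i) :
    ∃ (c : K) (e : R), e ∉ J T i ∧ (f - algebraMap K R c * t) * e ∈ J T i * J T i := by
  classical
  obtain ⟨e, he⟩ := T.den (fun j => if j = i then 1 else 0) (T.d + 1)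
  have hd := T.pos
  set c := PowerSeries.coeff 1 (T.ρ i f) with hc
  refine ⟨c, e, ?_, ?_⟩
  · intro h
    have h1 := coeff_of_dvd (he i) 0 (by omega)
    rw [if_pos rfl, PowerSeries.coeff_zero_eq_constantCoeff_apply, (mem_J T).1 h,
      PowerSeries.coeff_zero_eq_constantCoeff_apply, map_one] at h1
    exact zero_ne_one h1
  set g := (f - algebraMap K R c * t) * e with hg
  have htJ : t ∈ J T i := by
    obtain ⟨u, -, hu, -⟩ := ht i
    rw [mem_J, hu, map_mul, PowerSeries.constantCoeff_X, zero_mul]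
  have hX2 : ∀ j, PowerSeries.X ^ 2 ∣ T.ρ j g := by
    intro j
    rw [hg, map_mul]
    by_cases hj : j = i
    · subst hj
      refine dvd_mul_of_dvd_left ?_ _
      rw [PowerSeries.X_pow_dvd_iff]
      intro m hm
      obtain ⟨u, -, -, h1⟩ := ht j
      rw [map_sub, map_mul, T.alg, map_sub, PowerSeries.coeff_C_mul]
      have h2 : m = 0 ∨ m = 1 := by omega
      rcases h2 with rfl | rfl
      · rw [PowerSeries.coeff_zero_eq_constantCoeff_apply,
          PowerSeries.coeff_zero_eq_constantCoeff_apply, (mem_J T).1 hf, (mem_J T).1 htJ, mul_zero,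
          sub_zero]
      · rw [h1, mul_one, hc, sub_self]
    · refine dvd_mul_of_dvd_right ?_ _
      have h1 := he j
      rw [if_neg hj, sub_zero] at h1
      exact (pow_dvd_pow _ (by omega)).trans h1
  choose F hF using hX2
  choose u hu1 hu2 _ using ht
  choose v hv using fun j => (hu1 j).exists_right_inv
  obtain ⟨G, hG⟩ := T.den (fun j => F j * v j ^ 2) (T.d + 1)
  have h1 : ∀ j, PowerSeries.X ^ (T.d + 1) ∣ T.ρ j (g - t ^ 2 * G) := by
    intro j
    have e1 : T.ρ j (g - t ^ 2 * G) =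
        (T.ρ j G - F j * v j ^ 2) * (-(PowerSeries.X ^ 2 * u j ^ 2)) := by
      rw [map_sub, map_mul (T.ρ j) (t ^ 2) G, map_pow, hF j, hu2 j]
      have e2 : u j ^ 2 * v j ^ 2 = 1 := by rw [← mul_pow, hv j, one_pow]
      linear_combination (-(PowerSeries.X ^ 2 * F j)) * e2
    rw [e1]
    exact dvd_mul_of_dvd_left (hG j) _
  obtain ⟨f', hf1, hf2⟩ := T.div _ _ h1
  have hf'J : f' ∈ J T i := by
    rw [mem_J]
    have h2 := hf2 i
    rw [pow_one] at h2
    exact PowerSeries.X_dvd_iff.1 h2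
  have e3 : g = t * (t * G) + T.w * f' := by
    rw [← hf1]
    ring
  rw [e3]
  exact (J T i * J T i).add_mem (Ideal.mul_mem_mul htJ ((J T i).mul_mem_right _ htJ))
    (Ideal.mul_mem_mul hw hf'J)

theorem main [Finite I] [Algebra.FinitePresentation K R] (q : Ideal R) [hq : q.IsPrime]
    (hw : T.w ∈ q) : ∃ h t : R, h ∉ q ∧ ((algebraMap R (Localization.Away h)).comp
      (Polynomial.eval₂RingHom (algebraMap K R) t)).Etale := by
  obtain ⟨i, hi⟩ := exists_eq T q hw
  subst hi
  obtain ⟨t, ht⟩ := exists_t T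
  let _ : Algebra K[X] R := (Polynomial.eval₂RingHom (algebraMap K R) t).toAlgebra
  have hX : ∀ F : K[X], algebraMap K[X] R F = F.eval₂ (algebraMap K R) t := fun F => rfl
  have hst : IsScalarTower K K[X] R := IsScalarTower.of_algebraMap_eq fun c => by
    rw [hX, Polynomial.algebraMap_apply, Polynomial.eval₂_C]
    rfl
  have hfp : Algebra.FinitePresentation K[X] R :=
    Algebra.FinitePresentation.of_restrict_scalars_finitePresentation K K[X] R
  have hρ : ∀ j (F : K[X]), T.ρ j (algebraMap K[X] R F) =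
      F.eval₂ (PowerSeries.C (R := K)) (T.ρ j t) := by
    intro j F
    rw [hX, Polynomial.hom_eval₂]
    have e : (T.ρ j).comp (algebraMap K R) = PowerSeries.C (R := K) :=
      RingHom.ext fun c => T.alg j c
    rw [e]
  have htor : Module.IsTorsionFree K[X] R := by
    refine ⟨fun F hF => ?_⟩
    have hF0 : F ≠ 0 := hF.ne_zero
    have key : ∀ x : R, F • x = 0 → x = 0 := by
      intro x hx
      refine T.inj x fun j => ?_
      rw [Algebra.smul_def] at hx
      have h1 := congrArg (T.ρ j) hx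
      rw [map_mul, map_zero, hρ] at h1
      refine (mul_eq_zero.1 h1).resolve_left fun h2 => hF0 ?_
      obtain ⟨u, hu, hu', -⟩ := ht j
      refine transc (t := T.ρ j t) ?_ ?_ F.natDegree F le_rfl h2
      · rw [hu']
        exact mul_ne_zero PowerSeries.X_ne_zero hu.ne_zero
      · rw [hu', map_mul, PowerSeries.constantCoeff_X, zero_mul]
    intro x y hxy
    have h1 := key (x - y) (by
      rw [smul_sub, sub_eq_zero]
      exact hxy)
    exact sub_eq_zero.1 h1
  have hflat : Module.Flat K[X] R := inferInstance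
  have htJ : t ∈ J T i := by
    obtain ⟨u, -, hu, -⟩ := ht i
    rw [mem_J, hu, map_mul, PowerSeries.constantCoeff_X, zero_mul]
  have hmax := J_max T i
  set N : Submodule R Ω[R⁄K[X]] := J T i • ⊤ with hN
  have hmul : ∀ {a : R}, a ∈ J T i → ∀ x : Ω[R⁄K[X]], a • x ∈ N := fun ha x =>
    Submodule.smul_mem_smul ha trivial
  have hcan : ∀ {e : R}, e ∉ J T i → ∀ x : Ω[R⁄K[X]], e • x ∈ N → x ∈ N := by
    intro e he x hx
    obtain ⟨a, b, hb, hab⟩ : ∃ a, ∃ b ∈ J T i, a * e + b = 1 := by
      have h1 := hmax.exists_inv he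
      obtain ⟨a, b, hb, hab⟩ := h1
      exact ⟨a, b, hb, hab⟩
    have h2 : x = a • (e • x) + b • x := by
      rw [smul_smul, ← add_smul, hab, one_smul]
    rw [h2]
    exact N.add_mem (N.smul_mem _ hx) (hmul hb x)
  have hDc : ∀ c : K, KaehlerDifferential.D K[X] R (algebraMap K R c) = 0 := by
    intro c
    have e : algebraMap K R c = algebraMap K[X] R (C c) := by
      rw [hX, Polynomial.eval₂_C]
    rw [e]
    exact Derivation.map_algebraMap _ _
  have hDt : KaehlerDifferential.D K[X] R t = 0 := by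
    have e : t = algebraMap K[X] R X := by
      rw [hX, Polynomial.eval₂_X]
    rw [e]
    exact Derivation.map_algebraMap _ _
  have hD2 : ∀ g ∈ J T i * J T i, KaehlerDifferential.D K[X] R g ∈ N := by
    intro g hg
    refine Submodule.mul_induction_on hg ?_ ?_
    · intro a ha b hb
      rw [Derivation.leibniz]
      exact N.add_mem (hmul ha _) (hmul hb _)
    · intro a b ha hb
      rw [map_add]
      exact N.add_mem ha hb
  have hDJ : ∀ f ∈ J T i, KaehlerDifferential.D K[X] R f ∈ N := by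
    intro f hf
    obtain ⟨c, e, he, hfe⟩ := local_gen T ht i hw hf
    refine hcan he _ ?_
    have h1 := hD2 _ hfe
    have h2 : f - algebraMap K R c * t ∈ J T i := (J T i).sub_mem hf ((J T i).mul_mem_left _ htJ)
    have h3 : KaehlerDifferential.D K[X] R (f - algebraMap K R c * t) =
        KaehlerDifferential.D K[X] R f := by
      rw [map_sub, Derivation.leibniz, hDc, hDt, smul_zero, smul_zero, add_zero, sub_zero]
    rw [Derivation.leibniz, h3] at h1
    exact (N.add_mem_iff_right (hmul h2 _)).1 h1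
  have hDall : ∀ f : R, KaehlerDifferential.D K[X] R f ∈ N := by
    intro f
    have h1 : f - algebraMap K R (PowerSeries.constantCoeff (T.ρ i f)) ∈ J T i := by
      rw [mem_J, map_sub, T.alg, map_sub, PowerSeries.constantCoeff_C, sub_self]
    have h2 := hDJ _ h1
    rw [map_sub, hDc, sub_zero] at h2
    exact h2
  have htop : (⊤ : Submodule R Ω[R⁄K[X]]) ≤ J T i • ⊤ := by
    rw [← KaehlerDifferential.span_range_derivation, Submodule.span_le]
    rintro _ ⟨f, rfl⟩
    rw [KaehlerDifferential.span_range_derivation]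
    exact hDall f
  obtain ⟨r, hr1, hr2⟩ := Submodule.exists_sub_one_mem_and_smul_eq_zero_of_fg_of_le_smul
    (J T i) ⊤ Module.Finite.fg_top htop
  have hrJ : r ∉ J T i := by
    intro h
    apply hmax.ne_top
    rw [Ideal.eq_top_iff_one]
    have := (J T i).sub_mem h hr1
    rwa [sub_sub_cancel] at this
  have hunr : Algebra.IsUnramifiedAt K[X] (J T i) := by
    have h1 : (⟨J T i, hq⟩ : PrimeSpectrum R) ∈ Algebra.unramifiedLocus K[X] R := by
      rw [Algebra.unramifiedLocus_eq_compl_support, Set.mem_compl_iff,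
        Module.notMem_support_iff']
      exact fun m => ⟨r, hrJ, hr2 m trivial⟩
    exact h1
  have het : Algebra.IsEtaleAt K[X] (J T i) :=
    Algebra.IsEtaleAt.of_isUnramifiedAt_of_flat _
  obtain ⟨h, hh, hE⟩ := Algebra.exists_etale_of_isEtaleAt (R := K[X]) (J T i)
  refine ⟨h, t, hh, ?_⟩
  have e : (algebraMap R (Localization.Away h)).comp
      (Polynomial.eval₂RingHom (algebraMap K R) t) = algebraMap K[X] (Localization.Away h) :=
    (IsScalarTower.algebraMap_eq K[X] R (Localization.Away h)).symm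
  rw [e, RingHom.etale_algebraMap]
  exact hE

end

section rsh

variable {I K : Type} [Field K] {P : Subalgebra K (KK I K)} (z : Pole P)

theorem rsh_coeff (f : Rw P z.z) (i : I) (m : ℕ) :
    PowerSeries.coeff m (rsh z.z i f) = ((f : KK I K) i).coeff (m : ℤ) := by
  rw [← psl_rsh i f, psl_coeff]

theorem rsh_alg (i : I) (c : K) :
    rsh z.z i (algebraMap K (Rw P z.z) c) = PowerSeries.C c := by
  ext m
  have h1 : PowerSeries.coeff m (rsh z.z i (algebraMap K (Rw P z.z) c)) =
      (algebraMap K (LaurentSeries K) c).coeff (m : ℤ) := rsh_coeff z _ i m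
  rw [h1, coeff_algebraMap, PowerSeries.coeff_C]
  simp only [Nat.cast_eq_zero]

theorem mem_of_dvd {f : Rw P z.z} {m : ℕ} (h : ∀ i, PowerSeries.X ^ m ∣ rsh z.z i f) :
    (f : KK I K) ∈ Pol I K (-(m : ℤ)) := by
  intro i k hk
  rw [neg_neg] at hk
  rcases lt_or_ge k 0 with h0 | h0
  · exact f.2.2 i k (by omega)
  · obtain ⟨l, rfl⟩ := Int.eq_ofNat_of_zero_le h0
    rw [← rsh_coeff]
    exact PowerSeries.X_pow_dvd_iff.1 (h i) l (by omega)

theorem dvd_of_mem {f : Rw P z.z} {m : ℕ} (h : (f : KK I K) ∈ Pol I K (-(m : ℤ))) (i : I) :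
    PowerSeries.X ^ m ∣ rsh z.z i f := by
  rw [PowerSeries.X_pow_dvd_iff]
  intro l hl
  rw [rsh_coeff]
  exact h i l (by omega)

theorem rsh_div (f : Rw P z.z) (m : ℕ) (h : ∀ i, PowerSeries.X ^ (z.d + m) ∣ rsh z.z i f) :
    ∃ f' : Rw P z.z, f = ⟨z.w, z.mem_Rw⟩ * f' ∧ ∀ i, PowerSeries.X ^ m ∣ rsh z.z i f' := by
  have h1 := mem_of_dvd z h
  have h2 : (z.z : KK I K) * (f : KK I K) ∈ Pol I K (-(m : ℤ)) := by
    have h3 := mul_mem_Pol z.mon.1 h1
    have e : (z.d : ℤ) + -((z.d + m : ℕ) : ℤ) = -(m : ℤ) := by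
      push_cast
      ring
    rwa [e] at h3
  refine ⟨⟨(z.z : KK I K) * (f : KK I K), (Rz P z.z).mul_mem (le_Rz P z.z z.z.2) f.2.1,
    Pol_mono (by omega) h2⟩, ?_, fun i => dvd_of_mem z h2 i⟩
  apply Subtype.ext
  change (f : KK I K) = z.w * ((z.z : KK I K) * (f : KK I K))
  rw [← mul_assoc, mul_comm z.w, z.zw, one_mul]

end rsh

end KPT_

open KPT_ in
theorem t_KPT (hDEN : Stmt_DEN) (hKFW : Stmt_KFW) : Stmt_KPT := by
  intro I K _ _ _ g P hP z q hq
  obtain ⟨hfp, -, -⟩ := hKFW hP z
  obtain ⟨-, -, hden⟩ := hDEN hP z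
  let T : Ex K (Rw P z.z) I :=
    { w := ⟨z.w, z.mem_Rw⟩
      d := z.d
      pos := z.pos
      ρ := rsh z.z
      alg := fun i c => rsh_alg z i c
      inj := fun f hf => Subtype.ext (funext fun i => by
        rw [← psl_rsh i f, hf i, map_zero]
        rfl)
      div := fun f m hf => rsh_div z f m hf
      den := fun f M => by
        obtain ⟨r, hr⟩ := hden f M
        refine ⟨r, fun i => ?_⟩
        rw [PowerSeries.X_pow_dvd_iff]
        intro m hm
        rw [map_sub, hr i m hm, sub_self] }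
  exact @main K (Rw P z.z) I _ _ _ T _ hfp q.asIdeal q.2 hq

end Pool.Agent.MG.KX
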