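import Pool.Agent.MG.KX.StmtsK

/-!
# KPX: the curve of a Krichever ring is proper, flat and of finite presentation
-/

open CategoryTheory CategoryTheory.Limits AlgebraicGeometry TensorProduct

namespace Pool.Agent.MG.KX

open Pool.Agent.MG.G0 Pool.Agent.MG.GLU

/-- KPX: properness, flatness. -/
theorem t_KPX (hDPR : Stmt_DPR) (hDFL : Stmt_DFL) (hKFP : Stmt_KFP) (hKFW : Stmt_KFW) :
    Stmt_KPX := by
  intro I A _ _ _ g n P p hP z
  obtain ⟨f1, l1, i1⟩ := hKFP hP z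
  obtain ⟨f2, l2, i2⟩ := hKFW hP z
  have t1 : Algebra.FiniteType A (kDuo z).R1 := inferInstance
  have t2 : Algebra.FiniteType A (kDuo z).R2 := inferInstance
  exact ⟨hDPR (kDuo z) t1 t2 i1 i2, hDFL.1 (kDuo z) l1 l2, hDFL.2 (kDuo z) f1 f2⟩

end Pool.Agent.MG.KX
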