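import Pool.Agent.MG.KX.StmtsE
import Pool.Agent.MG.G0.KFG
import Pool.Agent.MG.G0.KNZ
import Pool.Agent.MG.G0.KSP

/-!
# No vector fields on a curve with one node (KRN)

`P = {p = q}` in the ring `R` of a smooth curve. A derivation `D = θ d/dτ` of `P` maps the conductor
`ker p ∩ ker q` to itself, so it maps `R` to `R`.
-/

namespace Pool.Agent.MG.KX

open Pool.Agent.MG.G0

namespace KRN

section param

variable {K R : Type} [Field K] [CommRing R] [Algebra K R]

theorem mem_sq_ev (p : R →ₐ[K] K) (E : Derivation K R R) (t : R)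
    (ht : t ∈ (RingHom.ker p) ^ 2) : p (E t) = 0 := by
  rw [pow_two] at ht
  refine Submodule.mul_induction_on ht (fun a ha b hb => ?_) (fun a b ha hb => ?_)
  · rw [RingHom.mem_ker] at ha hb
    rw [E.leibniz, map_add, smul_eq_mul, smul_eq_mul, map_mul, map_mul, ha, hb, zero_mul, zero_mul,
      add_zero]
  · rw [map_add, map_add, ha, hb, add_zero]

/-- The derivation `f ↦ f - f(p)` modulo the square of the ideal of `p`. -/
noncomputable def dq (p : R →ₐ[K] K) : Derivation K R (R ⧸ (RingHom.ker p) ^ 2) :=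
  Derivation.mk'
    ({ toFun := fun f => Ideal.Quotient.mk _ (f - algebraMap K R (p f))
       map_add' := fun f g => by
        rw [← map_add]
        congr 1
        rw [map_add, map_add]
        ring
       map_smul' := fun a f => by
        rw [RingHom.id_apply, map_smul, smul_eq_mul, map_mul, Algebra.smul_def, ← mul_sub]
        rw [Algebra.smul_def, map_mul]
        rfl } : R →ₗ[K] (R ⧸ (RingHom.ker p) ^ 2))
    (fun f g => by
      change Ideal.Quotient.mk _ (f * g - algebraMap K R (p (f * g))) =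
        Ideal.Quotient.mk _ (f * (g - algebraMap K R (p g))) +
          Ideal.Quotient.mk _ (g * (f - algebraMap K R (p f)))
      rw [← map_add, Ideal.Quotient.eq]
      have h : f * g - algebraMap K R (p (f * g)) - (f * (g - algebraMap K R (p g)) +
          g * (f - algebraMap K R (p f))) =
          -((f - algebraMap K R (p f)) * (g - algebraMap K R (p g))) := by
        rw [map_mul, map_mul]
        ring
      rw [h, pow_two]
      refine neg_mem (Ideal.mul_mem_mul ?_ ?_)
      · rw [RingHom.mem_ker, map_sub, AlgHom.commutes]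
        simp
      · rw [RingHom.mem_ker, map_sub, AlgHom.commutes]
        simp)

theorem dq_apply (p : R →ₐ[K] K) (f : R) :
    dq p f = Ideal.Quotient.mk _ (f - algebraMap K R (p f)) := rfl

/-- A parameter at a point of a smooth curve. -/
theorem exists_param (hs : SmC K R) (p : R →ₐ[K] K) :
    ∃ (t : R), p t = 0 ∧ t ∉ (RingHom.ker p) ^ 2 ∧
      ∀ r : R, p r = 0 → ∃ c : K, r - algebraMap K R c * t ∈ (RingHom.ker p) ^ 2 := by
  obtain ⟨n, D, g, h1, h2⟩ := hs
  have h3 : ∃ i, p (D i (g i)) ≠ 0 := by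
    by_contra hc
    push Not at hc
    have h4 := congrArg p h1
    rw [map_sum, map_one, Finset.sum_eq_zero fun i _ => hc i] at h4
    exact zero_ne_one h4
  obtain ⟨i, hi⟩ := h3
  have hE : D i (g i - algebraMap K R (p (g i))) = D i (g i) := by
    rw [map_sub, Derivation.map_algebraMap, sub_zero]
  refine ⟨g i - algebraMap K R (p (g i)), ?_, ?_, ?_⟩
  · rw [map_sub, AlgHom.commutes]
    simp
  · intro hc
    have h5 := mem_sq_ev p (D i) _ hc
    rw [hE] at h5
    exact hi h5
  · intro r hr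
    have h6 := h2 (D i) (g i) r
    have h7 := congrArg (dq p).liftKaehlerDifferential h6
    rw [map_smul, map_smul, Derivation.liftKaehlerDifferential_comp_D,
      Derivation.liftKaehlerDifferential_comp_D, dq_apply, dq_apply, hr, map_zero, sub_zero] at h7
    have h8 : Ideal.Quotient.mk ((RingHom.ker p) ^ 2) (D i (g i) * r) =
        Ideal.Quotient.mk ((RingHom.ker p) ^ 2) (D i r * (g i - algebraMap K R (p (g i)))) := h7
    rw [Ideal.Quotient.eq] at h8
    have h9 : (D i (g i) - algebraMap K R (p (D i (g i)))) * r ∈ (RingHom.ker p) ^ 2 := by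
      rw [pow_two]
      refine Ideal.mul_mem_mul ?_ hr
      rw [RingHom.mem_ker, map_sub, AlgHom.commutes]
      simp
    have h10 : (D i r - algebraMap K R (p (D i r))) * (g i - algebraMap K R (p (g i))) ∈
        (RingHom.ker p) ^ 2 := by
      rw [pow_two]
      refine Ideal.mul_mem_mul ?_ ?_
      · rw [RingHom.mem_ker, map_sub, AlgHom.commutes]
        simp
      · rw [RingHom.mem_ker, map_sub, AlgHom.commutes]
        simp
    refine ⟨(p (D i (g i)))⁻¹ * p (D i r), ?_⟩
    have h11 : algebraMap K R (p (D i (g i)))⁻¹ * algebraMap K R (p (D i (g i))) = 1 := by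
      rw [← map_mul, inv_mul_cancel₀ hi, map_one]
    have h12 : r - algebraMap K R ((p (D i (g i)))⁻¹ * p (D i r)) *
        (g i - algebraMap K R (p (g i))) = algebraMap K R (p (D i (g i)))⁻¹ *
        ((D i (g i) * r - D i r * (g i - algebraMap K R (p (g i)))) -
          (D i (g i) - algebraMap K R (p (D i (g i)))) * r +
          (D i r - algebraMap K R (p (D i r))) * (g i - algebraMap K R (p (g i)))) := by
      rw [map_mul]
      linear_combination (-r) * h11
    rw [h12]
    exact Ideal.mul_mem_left _ _ (add_mem (sub_mem h8 h9) h10)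

/-- Two different points are coprime. -/
theorem coprime {p q : R →ₐ[K] K} (h : p ≠ q) :
    IsCoprime (RingHom.ker p) (RingHom.ker q) := by
  have h1 : ∃ r, p r ≠ q r := by
    by_contra hc
    push Not at hc
    exact h (AlgHom.ext hc)
  obtain ⟨r, hr⟩ := h1
  rw [Ideal.isCoprime_iff_exists]
  have hr' : q r - p r ≠ 0 := sub_ne_zero.mpr (Ne.symm hr)
  refine ⟨algebraMap K R (q r - p r)⁻¹ * (r - algebraMap K R (p r)), ?_,
    -(algebraMap K R (q r - p r)⁻¹ * (r - algebraMap K R (q r))), ?_, ?_⟩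
  · rw [RingHom.mem_ker, map_mul, map_sub, AlgHom.commutes, AlgHom.commutes]
    simp
  · rw [RingHom.mem_ker, map_neg, map_mul, map_sub, AlgHom.commutes, AlgHom.commutes]
    simp
  · have h2 : algebraMap K R (q r - p r)⁻¹ * algebraMap K R (q r - p r) = 1 := by
      rw [← map_mul, inv_mul_cancel₀ hr', map_one]
    rw [map_sub] at h2
    linear_combination h2

/-- A parameter at `p` of order at least two at `q`. -/
theorem exists_param2 (hs : SmC K R) {p q : R →ₐ[K] K} (h : p ≠ q) :
    ∃ (x : R), x ∈ RingHom.ker p ∧ x ∈ (RingHom.ker q) ^ 2 ∧ x ∉ (RingHom.ker p) ^ 2 ∧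
      ∀ r : R, p r = 0 → ∃ c : K, r - algebraMap K R c * x ∈ (RingHom.ker p) ^ 2 := by
  obtain ⟨t, ht1, ht2, ht3⟩ := exists_param hs p
  have hc : IsCoprime ((RingHom.ker p) ^ 2) ((RingHom.ker q) ^ 2) := (coprime h).pow
  rw [Ideal.isCoprime_iff_exists] at hc
  obtain ⟨a, ha, b, hb, hab⟩ := hc
  have e : t - b * t = a * t := by linear_combination (-t) * hab
  have hm : t - b * t ∈ (RingHom.ker p) ^ 2 := by
    rw [e]
    exact Ideal.mul_mem_right _ _ ha
  refine ⟨b * t, ?_, Ideal.mul_mem_right _ _ hb, ?_, ?_⟩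
  · rw [RingHom.mem_ker, map_mul, ht1, mul_zero]
  · intro hx
    apply ht2
    have := add_mem hm hx
    rwa [sub_add_cancel] at this
  · intro r hr
    obtain ⟨c, hc⟩ := ht3 r hr
    refine ⟨c, ?_⟩
    have e2 : r - algebraMap K R c * (b * t) = (r - algebraMap K R c * t) +
        algebraMap K R c * (t - b * t) := by ring
    rw [e2]
    exact add_mem hc (Ideal.mul_mem_left _ _ hm)

/-- The ideal of a point is generated by a parameter after inverting one element. -/
theorem exists_away [IsNoetherianRing R] (p : R →ₐ[K] K) (x : R)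
    (hx2 : ∀ r : R, p r = 0 → ∃ c : K, r - algebraMap K R c * x ∈ (RingHom.ker p) ^ 2) :
    ∃ a : R, p a = 1 ∧ ∀ r : R, p r = 0 → ∃ v : R, a * r = x * v := by
  let N : Submodule R (R ⧸ Ideal.span {x}) := Submodule.map (Submodule.mkQ _) (RingHom.ker p)
  have hN : N.FG := Submodule.FG.map _ (IsNoetherian.noetherian _)
  have hle : N ≤ (RingHom.ker p : Ideal R) • N := by
    rintro _ ⟨r, hr, rfl⟩
    obtain ⟨c, hc⟩ := hx2 r hr
    have e : (Submodule.mkQ (Ideal.span {x})) r =
        (Submodule.mkQ (Ideal.span {x})) (r - algebraMap K R c * x) := by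
      rw [map_sub]
      have h0 : (Submodule.mkQ (Ideal.span {x})) (algebraMap K R c * x) = 0 := by
        rw [Submodule.mkQ_apply, Submodule.Quotient.mk_eq_zero]
        exact Ideal.mul_mem_left _ _ (Ideal.mem_span_singleton_self x)
      rw [h0, sub_zero]
    rw [e]
    rw [pow_two] at hc
    refine Submodule.mul_induction_on hc (fun a ha b hb => ?_) (fun a b ha hb => ?_)
    · have e2 : (Submodule.mkQ (Ideal.span {x})) (a * b) =
          a • (Submodule.mkQ (Ideal.span {x})) b := by
        rw [← map_smul, smul_eq_mul]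
      rw [e2]
      exact Submodule.smul_mem_smul ha (Submodule.mem_map_of_mem hb)
    · rw [map_add]
      exact add_mem ha hb
  obtain ⟨a, ha1, ha2⟩ :=
    Submodule.exists_sub_one_mem_and_smul_eq_zero_of_fg_of_le_smul _ N hN hle
  refine ⟨a, ?_, fun r hr => ?_⟩
  · rw [RingHom.mem_ker, map_sub, map_one, sub_eq_zero] at ha1
    exact ha1
  · have h := ha2 _ (Submodule.mem_map_of_mem (f := Submodule.mkQ (Ideal.span {x})) hr)
    rw [← map_smul, Submodule.mkQ_apply, Submodule.Quotient.mk_eq_zero, smul_eq_mul,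
      Ideal.mem_span_singleton] at h
    exact h

end param

section deriv

variable {K R L : Type} [Field K] [CommRing R] [Algebra K R] [CommRing L] [Algebra K L]
  [Algebra R L]

theorem mul_ind (D : Derivation K R L) (I J A B C : Ideal R)
    (hI : ∀ s ∈ I, ∃ d ∈ A, D s = algebraMap R L d) (hJ : ∀ s ∈ J, ∃ d ∈ B, D s = algebraMap R L d)
    (h1 : I * B ≤ C) (h2 : J * A ≤ C) : ∀ z ∈ I * J, ∃ d ∈ C, D z = algebraMap R L d := by
  intro z hz
  refine Submodule.mul_induction_on hz (fun a ha b hb => ?_) (fun a b ha hb => ?_)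
  · obtain ⟨d, hd, hd'⟩ := hI a ha
    obtain ⟨e, he, he'⟩ := hJ b hb
    refine ⟨a * e + b * d, add_mem (h1 (Ideal.mul_mem_mul ha he)) (h2 (Ideal.mul_mem_mul hb hd)), ?_⟩
    rw [D.leibniz, hd', he', Algebra.smul_def, Algebra.smul_def, map_add, map_mul, map_mul]
  · obtain ⟨d, hd, hd'⟩ := ha
    obtain ⟨e, he, he'⟩ := hb
    exact ⟨d + e, add_mem hd he, by rw [map_add, map_add, hd', he']⟩

theorem key [IsScalarTower K R L] [IsNoetherianRing R]
    (hinj : Function.Injective (algebraMap R L))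
    (hreg : ∀ t : R, t ≠ 0 → ∀ x : L, t • x = 0 → x = 0) (hs : SmC K R) {p q : R →ₐ[K] K}
    (hpq : p ≠ q) (D : Derivation K R L)
    (hD : ∀ f : R, p f = q f → ∃ d : R, D f = algebraMap R L d ∧ p d = q d) (r : R) :
    ∃ d : R, D r = algebraMap R L d := by
  have hcop := coprime hpq
  obtain ⟨c, hc⟩ : ∃ c : Ideal R, c = RingHom.ker p ⊓ RingHom.ker q := ⟨_, rfl⟩
  have hcm : c = RingHom.ker p * RingHom.ker q := by
    rw [hc, Ideal.mul_eq_inf_of_isCoprime hcop]
  have hcp : ∀ s ∈ c, p s = 0 := fun s hs' => by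
    rw [hc] at hs'
    exact hs'.1
  have hcq : ∀ s ∈ c, q s = 0 := fun s hs' => by
    rw [hc] at hs'
    exact hs'.2
  have hA : ∀ s ∈ c, ∃ d ∈ (⊤ : Ideal R), D s = algebraMap R L d := fun s hs' => by
    obtain ⟨d, hd, _⟩ := hD s (by rw [hcp s hs', hcq s hs'])
    exact ⟨d, Submodule.mem_top, hd⟩
  have hB : ∀ z ∈ c * c, ∃ d ∈ c, D z = algebraMap R L d :=
    mul_ind D c c ⊤ ⊤ c hA hA Ideal.mul_le_left Ideal.mul_le_left
  have hC : ∀ z ∈ c * c * c, ∃ d ∈ c * c, D z = algebraMap R L d :=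
    mul_ind D (c * c) c c ⊤ (c * c) hB hA Ideal.mul_le_left le_rfl
  obtain ⟨x, hxp, hxq, hxn, hx⟩ := exists_param2 hs hpq
  obtain ⟨y, hyq, hyp, hyn, hy⟩ := exists_param2 hs hpq.symm
  have hle : ∀ (I : Ideal R), I ^ 2 ≤ I := fun I => by
    rw [pow_two]
    exact Ideal.mul_le_right
  have hxc : x ∈ c := by
    rw [hc]
    exact ⟨hxp, hle _ hxq⟩
  have hyc : y ∈ c := by
    rw [hc]
    exact ⟨hle _ hyp, hyq⟩
  have hcc : c * c = (RingHom.ker p) ^ 2 ⊓ (RingHom.ker q) ^ 2 := by
    rw [← Ideal.mul_eq_inf_of_isCoprime hcop.pow, hcm]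
    ring
  have hccc : c * c * c = (RingHom.ker p) ^ 3 ⊓ (RingHom.ker q) ^ 3 := by
    rw [← Ideal.mul_eq_inf_of_isCoprime hcop.pow, hcm]
    ring
  have hxy : x * y ∈ c * c * c := by
    rw [hccc]
    constructor
    · have e : (RingHom.ker p : Ideal R) ^ 3 = RingHom.ker p * (RingHom.ker p) ^ 2 := by ring
      rw [SetLike.mem_coe, e]
      exact Ideal.mul_mem_mul hxp hyp
    · have e : (RingHom.ker q : Ideal R) ^ 3 = (RingHom.ker q) ^ 2 * RingHom.ker q := by ring
      rw [SetLike.mem_coe, e]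
      exact Ideal.mul_mem_mul hxq hyq
  obtain ⟨w, hw, hw'⟩ := hC _ hxy
  obtain ⟨dx, hdx, hdx'⟩ := hD x (by rw [hcp x hxc, hcq x hxc])
  obtain ⟨dy, hdy, hdy'⟩ := hD y (by rw [hcp y hyc, hcq y hyc])
  have hw2 : x * dy + y * dx ∈ c * c := by
    have e : x * dy + y * dx = w := by
      apply hinj
      rw [← hw', D.leibniz, hdx, hdy, Algebra.smul_def, Algebra.smul_def, map_add, map_mul,
        map_mul]
    rw [e]
    exact hw
  have hsub : ∀ d : R, p d = q d → d - algebraMap K R (p d) ∈ c := fun d hd => by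
    rw [hc]
    constructor
    · change p _ = 0
      rw [map_sub, AlgHom.commutes]
      simp
    · change q _ = 0
      rw [map_sub, AlgHom.commutes, hd]
      simp
  have hw3 : algebraMap K R (p dy) * x + algebraMap K R (p dx) * y ∈ c * c := by
    have e : algebraMap K R (p dy) * x + algebraMap K R (p dx) * y = (x * dy + y * dx) -
        x * (dy - algebraMap K R (p dy)) - y * (dx - algebraMap K R (p dx)) := by ring
    rw [e]
    exact sub_mem (sub_mem hw2 (Ideal.mul_mem_mul hxc (hsub dy hdy')))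
      (Ideal.mul_mem_mul hyc (hsub dx hdx'))
  rw [hcc] at hw3
  have hmulc : ∀ (I : Ideal R) (a : K) (z : R), a ≠ 0 → algebraMap K R a * z ∈ I → z ∈ I := by
    intro I a z ha hz
    have e : z = algebraMap K R a⁻¹ * (algebraMap K R a * z) := by
      rw [← mul_assoc, ← map_mul, inv_mul_cancel₀ ha, map_one, one_mul]
    rw [e]
    exact Ideal.mul_mem_left _ _ hz
  have hdy0 : p dy = 0 := by
    by_contra hne
    apply hxn
    refine hmulc _ _ _ hne ?_
    have h := sub_mem hw3.1 (Ideal.mul_mem_left _ (algebraMap K R (p dx)) hyp)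
    rwa [add_sub_cancel_right] at h
  have hdx0 : p dx = 0 := by
    by_contra hne
    apply hyn
    refine hmulc _ _ _ hne ?_
    have h := sub_mem hw3.2 (Ideal.mul_mem_left _ (algebraMap K R (p dy)) hxq)
    rwa [add_sub_cancel_left] at h
  have hdxc : dx ∈ c := by
    rw [hc]
    exact ⟨hdx0, hdx'.symm.trans hdx0⟩
  have hdyc : dy ∈ c := by
    rw [hc]
    exact ⟨hdy0, hdy'.symm.trans hdy0⟩
  -- `D` maps the conductor to itself
  have hDc : ∀ s ∈ c, ∃ d ∈ c, D s = algebraMap R L d := by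
    intro s hs'
    obtain ⟨α, hα⟩ := hx s (hcp s hs')
    obtain ⟨β, hβ⟩ := hy s (hcq s hs')
    have hz : s - algebraMap K R α * x - algebraMap K R β * y ∈ c * c := by
      rw [hcc]
      constructor
      · exact sub_mem hα (Ideal.mul_mem_left _ _ hyp)
      · have e : s - algebraMap K R α * x - algebraMap K R β * y =
            (s - algebraMap K R β * y) - algebraMap K R α * x := by ring
        rw [SetLike.mem_coe, e]
        exact sub_mem hβ (Ideal.mul_mem_left _ _ hxq)
    obtain ⟨d, hd, hd'⟩ := hB _ hz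
    refine ⟨d + algebraMap K R α * dx + algebraMap K R β * dy,
      add_mem (add_mem hd (Ideal.mul_mem_left _ _ hdxc)) (Ideal.mul_mem_left _ _ hdyc), ?_⟩
    have e : s = (s - algebraMap K R α * x - algebraMap K R β * y) + α • x + β • y := by
      rw [Algebra.smul_def, Algebra.smul_def]
      ring
    rw [e, map_add, map_add, hd', D.map_smul, D.map_smul, hdx, hdy, map_add, map_add, map_mul, map_mul,
      ← IsScalarTower.algebraMap_apply, ← IsScalarTower.algebraMap_apply, Algebra.smul_def,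
      Algebra.smul_def]
  have hu : ∀ s ∈ c, ∃ d ∈ c, s • D r = algebraMap R L d := by
    intro s hs'
    obtain ⟨d, hd, hd'⟩ := hDc s hs'
    obtain ⟨e, he, he'⟩ := hDc (s * r) (Ideal.mul_mem_right _ _ hs')
    refine ⟨e - r * d, sub_mem he (Ideal.mul_mem_left _ _ hd), ?_⟩
    rw [D.leibniz, hd'] at he'
    rw [map_sub, ← he', map_mul, Algebra.smul_def r]
    ring
  -- the denominators of `D r`
  let J : Ideal R :=
    { carrier := {s | ∃ d, s • D r = algebraMap R L d}
      add_mem' := fun {a b} ha hb => by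
        obtain ⟨d, hd⟩ := ha
        obtain ⟨e, he⟩ := hb
        exact ⟨d + e, by rw [add_smul, hd, he, map_add]⟩
      zero_mem' := ⟨0, by rw [zero_smul, map_zero]⟩
      smul_mem' := fun a b hb => by
        obtain ⟨e, he⟩ := hb
        exact ⟨a * e, by rw [smul_eq_mul, mul_smul, he, map_mul, Algebra.smul_def]⟩ }
  have hJc : c ≤ J := fun s hs' => by
    obtain ⟨d, _, hd⟩ := hu s hs'
    exact ⟨d, hd⟩
  have hJp : ∀ (p' : R →ₐ[K] K) (x' : R), x' ∈ c → x' ∉ (RingHom.ker p') ^ 2 →
      (∀ r : R, p' r = 0 → ∃ c : K, r - algebraMap K R c * x' ∈ (RingHom.ker p') ^ 2) →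
      (∀ s ∈ c, p' s = 0) → ∃ a ∈ J, p' a = 1 := by
    intro p' x' hx'c hx'n hx'2 hcp'
    obtain ⟨a, ha1, ha2⟩ := exists_away p' x' hx'2
    obtain ⟨d, hd, hd'⟩ := hu x' hx'c
    obtain ⟨v, hv⟩ := ha2 d (hcp' d hd)
    refine ⟨a, ⟨v, ?_⟩, ha1⟩
    have hx'0 : x' ≠ 0 := fun h0 => hx'n (by rw [h0]; exact zero_mem _)
    have h1 : x' • (a • D r - algebraMap R L v) = 0 := by
      rw [smul_sub, smul_comm, hd', Algebra.smul_def, Algebra.smul_def, ← map_mul, ← map_mul, hv,
        sub_self]
    exact sub_eq_zero.mp (hreg x' hx'0 _ h1)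
  obtain ⟨a, haJ, ha1⟩ := hJp p x hxc hxn hx hcp
  obtain ⟨b, hbJ, hb1⟩ := hJp q y hyc hyn hy hcq
  rw [Ideal.isCoprime_iff_exists] at hcop
  obtain ⟨e, he, f, hf, hef⟩ := hcop
  rw [RingHom.mem_ker] at he hf
  have hpf : p f = 1 := by
    have h := congrArg p hef
    rw [map_add, he, zero_add, map_one] at h
    exact h
  have hqe : q e = 1 := by
    have h := congrArg q hef
    rw [map_add, hf, add_zero, map_one] at h
    exact h
  have hone : (1 : R) ∈ J := by
    have h1 : f * a + e * b ∈ J := add_mem (Ideal.mul_mem_left _ _ haJ) (Ideal.mul_mem_left _ _ hbJ)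
    have h2 : 1 - (f * a + e * b) ∈ c := by
      rw [hc]
      constructor
      · change p _ = 0
        rw [map_sub, map_add, map_mul, map_mul, map_one, hpf, ha1, he]
        ring
      · change q _ = 0
        rw [map_sub, map_add, map_mul, map_mul, map_one, hf, hb1, hqe]
        ring
    have h3 := add_mem (hJc h2) h1
    rwa [sub_add_cancel] at h3
  obtain ⟨d, hd⟩ := hone
  exact ⟨d, by rw [← hd, one_smul]⟩

end deriv

end KRN

theorem t_KRN (hKDM : Stmt_KDM) (hKRS : Stmt_KRS) : Stmt_KRN := by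
  intro I K _ _ _ _ _ g P hP hN hg
  obtain ⟨h, R, p, q, hgh, hR, hS, hpq, hPR⟩ := hN
  intro θ hθ hθ0
  refine hKRS hR hS (by omega) θ ?_ hθ0
  have hfp : Algebra.FinitePresentation K R := (t_KFG t_KNZ (t_KSP t_KNZ) hR).1
  have hft : Algebra.FiniteType K R := inferInstance
  have hno : IsNoetherianRing R := Algebra.FiniteType.isNoetherianRing K R
  let D : Derivation K R (KK I K) := ((θ • ddD I K : Derivation K (KK I K) (KK I K)).compAlgebraMap R)
  have hDa : ∀ f : R, D f = θ * dd (f : KK I K) := fun f => rfl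
  rw [mem_TT]
  intro f hf
  obtain ⟨d, hd⟩ := KRN.key (L := KK I K) Subtype.val_injective (fun t ht x hx => by
    funext i
    have h1 : (t : KK I K) i * x i = 0 := congrFun hx i
    rcases mul_eq_zero.mp h1 with h2 | h2
    · exact absurd ((hKDM hR hS).2 i t h2) ht
    · exact h2) hS.2 hpq D (fun f hpf => by
    have h1 : (f : KK I K) ∈ P := (hPR f).mpr ⟨f.2, hpf⟩
    obtain ⟨h2, h3⟩ := (hPR _).mp (hθ f h1)
    exact ⟨⟨_, h2⟩, rfl, h3⟩) ⟨f, hf⟩
  have h1 : θ * dd f = (d : KK I K) := hd
  rw [h1]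
  exact d.2

end Pool.Agent.MG.KX
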