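import Pool.Agent.MG.KX.StmtsE
import Pool.Agent.MG.G0.KFO
import Pool.Agent.MG.G0.KDU
import Pool.Agent.MG.G0.KNZ
import Pool.Agent.MG.G0.SCO
import Pool.Agent.MG.G0.SKK

/-!
# KRS: no vector fields on smooth curves of genus at least two
-/

namespace Pool.Agent.MG.KX

open Pool.Agent.MG.G0

/-- KRS: no vector fields on smooth curves of genus at least two. -/
theorem t_KRS (hKDM : Stmt_KDM) (hSDF : G0.Stmt_SDF) : Stmt_KRS := by
  intro I K _ _ _ _ g P hP hS hg θ hθ hθ0
  have hdual := hSDF hP hS.1 hS.2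
  obtain ⟨-, hinj⟩ := hKDM hP hS
  obtain ⟨⟨ω, hω⟩, hforms⟩ := t_KFO t_KDU hP
  obtain ⟨hωE, -⟩ := hforms ω hω
  obtain ⟨⟨m, c, f, hcf⟩, -⟩ := t_SKK t_KNZ t_SCO hP
  by_contra hne
  -- no component of `θ` is zero
  have hcomp : ∀ i, θ i ≠ 0 := by
    intro i hi
    apply hne
    have h1 : ∀ l, θ * dd (f l : KK I K) = 0 := by
      intro l
      have h2 := hθ (f l : KK I K) (f l).2
      have h3 := hinj i ⟨_, h2⟩ (by
        change (θ * dd (f l : KK I K)) i = 0
        rw [Pi.mul_apply, hi, zero_mul])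
      exact congrArg Subtype.val h3
    calc θ = θ * ∑ l, c l * dd (f l : KK I K) := by rw [hcf, mul_one]
      _ = ∑ l, c l * (θ * dd (f l : KK I K)) := by
          rw [Finset.mul_sum]
          exact Finset.sum_congr rfl fun l _ => by ring
      _ = 0 := Finset.sum_eq_zero fun l _ => by rw [h1, mul_zero]
  -- multiplication by `θ` is injective
  have hcancel : ∀ x : KK I K, θ * x = 0 → x = 0 := by
    intro x hx
    funext i
    have h1 := congrFun hx i
    rw [Pi.mul_apply, Pi.zero_apply] at h1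
    exact (mul_eq_zero.1 h1).resolve_left (hcomp i)
  -- `θ ω` is a constant
  have hconst : ∀ j, ∃ a : K, θ * ω j = algebraMap K (KK I K) a := by
    intro j
    refine hP.k1 _ (hdual θ hθ _ (hωE j).1) ?_
    have h1 : ω j ∈ Pol I K 0 := (hωE j).2
    exact mul_mem_Pol0 hθ0 h1
  choose a ha using hconst
  -- linear independence
  have hind : ∀ j k : Fin g, j ≠ k → ∀ x y : K, x • ω j - y • ω k = 0 → x = 0 := by
    intro j k hjk x y hxy
    classical
    obtain ⟨h, hh⟩ := hω.surj (Pi.single j 1)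
    have h1 : res ((x • ω j - y • ω k) * h) = 0 := by rw [hxy, zero_mul, map_zero]
    rw [sub_mul, map_sub, smul_mul_assoc, smul_mul_assoc, map_smul, map_smul, hh, hh,
      Pi.single_eq_same, Pi.single_eq_of_ne hjk.symm, smul_zero, sub_zero, smul_eq_mul,
      mul_one] at h1
    exact h1
  have h01 : (⟨0, by omega⟩ : Fin g) ≠ ⟨1, by omega⟩ := by
    intro h
    have := congrArg Fin.val h
    simp at this
  have key : a ⟨1, by omega⟩ • ω ⟨0, by omega⟩ - a ⟨0, by omega⟩ • ω ⟨1, by omega⟩ = 0 := by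
    apply hcancel
    rw [mul_sub, mul_smul_comm, mul_smul_comm, ha, ha, Algebra.smul_def, Algebra.smul_def, mul_comm,
      sub_self]
  have ha1 : a ⟨1, by omega⟩ = 0 := hind _ _ h01 _ _ key
  have hω1 : ω ⟨1, by omega⟩ = 0 := by
    apply hcancel
    rw [ha, ha1, map_zero]
  have h10 : (1 : K) = 0 := hind ⟨1, by omega⟩ ⟨0, by omega⟩ h01.symm 1 0 (by
    rw [hω1, smul_zero, zero_smul, sub_zero])
  exact one_ne_zero h10

end Pool.Agent.MG.KX
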