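import Pool.Agent.MG.KX.StmtsK

/-!
# KRV: vector fields on the curve of a Krichever ring

A vector field is `θ d/dτ` with `θ` without poles: the derivation of the second chart is continuous
and the second chart is dense in the series without poles.
-/

open CategoryTheory CategoryTheory.Limits AlgebraicGeometry TensorProduct

namespace Pool.Agent.MG.KX

open Pool.Agent.MG.G0 Pool.Agent.MG.GLU

namespace KRV

section series

variable {I K : Type} [Fintype I] [Field K]

theorem t_pow {t : KK I K} (h0 : ∀ i, ∀ m < 1, (t i).coeff m = 0)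
    (h1 : ∀ i, (t i).coeff 1 = 1) (n : ℕ) (i : I) :
    (∀ m < (n : ℤ), ((t ^ n) i).coeff m = 0) ∧ ((t ^ n) i).coeff n = 1 := by
  induction n with
  | zero =>
    rw [pow_zero, Pi.one_apply]
    refine ⟨fun m hm => ?_, ?_⟩
    · rw [HahnSeries.coeff_one, if_neg (by push_cast at hm; omega)]
    · rw [HahnSeries.coeff_one, if_pos (by simp)]
  | succ n ih =>
    rw [pow_succ, Pi.mul_apply]
    push_cast
    refine ⟨fun m hm => mul_low ih.1 (h0 i) m hm, ?_⟩
    rw [mul_lead ih.1 (h0 i), ih.2, h1, one_mul]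

theorem approx {t : KK I K} (h0 : ∀ i, ∀ m < 1, (t i).coeff m = 0)
    (h1 : ∀ i, (t i).coeff 1 = 1) (f : KK I K) (i : I) (hf : ∀ m < 0, (f i).coeff m = 0)
    (M : ℕ) : ∃ F : Polynomial K, ∀ m < (M : ℤ),
      ((f - Polynomial.aeval t F) i).coeff m = 0 := by
  induction M with
  | zero =>
    refine ⟨0, fun m hm => ?_⟩
    rw [map_zero, sub_zero]
    exact hf m (by push_cast at hm; omega)
  | succ M ih =>
    obtain ⟨F, hF⟩ := ih
    refine ⟨F + Polynomial.C (((f - Polynomial.aeval t F) i).coeff M) * Polynomial.X ^ M,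
      fun m hm => ?_⟩
    have h2 := t_pow h0 h1 M i
    have e : f - Polynomial.aeval t (F + Polynomial.C (((f - Polynomial.aeval t F) i).coeff M) *
        Polynomial.X ^ M) = (f - Polynomial.aeval t F) -
        (((f - Polynomial.aeval t F) i).coeff M) • t ^ M := by
      rw [map_add, map_mul, Polynomial.aeval_C, map_pow, Polynomial.aeval_X, Algebra.smul_def]
      ring
    rw [e, Pi.sub_apply, HahnSeries.coeff_sub, Pi.smul_apply, HahnSeries.coeff_smul]
    push_cast at hm
    rcases lt_or_eq_of_le (show m ≤ M by omega) with h | h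
    · rw [hF m h, h2.1 m h, smul_zero, sub_zero]
    · rw [h, h2.2, smul_eq_mul, mul_one, sub_self]

/-- A series with constant term one has an inverse without poles. -/
theorem unit_of {s : KK I K} (h0 : s ∈ Pol I K 0) (h1 : ∀ i, (s i).coeff 0 = 1) :
    ∃ u ∈ Pol I K 0, s * u = 1 := by
  have h2 : ∀ i, psl K (tops K (s i)) = s i := fun i => psl_tops fun m hm => h0 i m (by omega)
  have h3 : ∀ i, PowerSeries.constantCoeff (tops K (s i)) = 1 := by
    intro i
    rw [← PowerSeries.coeff_zero_eq_constantCoeff_apply, tops, PowerSeries.coeff_mk]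
    exact h1 i
  refine ⟨fun i => psl K (tops K (s i))⁻¹, fun i m hm => psl_coeff_neg _ _ (by omega), ?_⟩
  funext i
  rw [Pi.mul_apply, Pi.one_apply]
  nth_rewrite 1 [← h2 i]
  rw [← map_mul, PowerSeries.mul_inv_cancel _ (by rw [h3 i]; exact one_ne_zero), map_one]

end series

section

variable {I K : Type} [Fintype I] [Field K] {P : Subalgebra K (KK I K)} (z : Pole P)

theorem wpow (k : ℕ) : z.w ^ k ∈ Pol I K (-((k : ℤ) * z.d)) := by
  induction k with
  | zero =>
    rw [pow_zero, Nat.cast_zero, zero_mul, neg_zero]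
    exact one_mem_Pol0
  | succ k ih =>
    have h := mul_mem_Pol ih z.mem
    rw [← pow_succ] at h
    exact Pol_mono (by push_cast; linarith) h

theorem zpow (k : ℕ) : (z.z : KK I K) ^ k ∈ Pol I K ((k : ℤ) * z.d) := by
  induction k with
  | zero =>
    rw [pow_zero, Nat.cast_zero, zero_mul]
    exact one_mem_Pol0
  | succ k ih =>
    have h := mul_mem_Pol ih z.mon.1
    rw [← pow_succ] at h
    exact Pol_mono (by push_cast; linarith) h

theorem leRw : Rw P z.z ≤ Rz P z.z := inf_le_left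

theorem coe_aeval (t : Rw P z.z) (F : Polynomial K) :
    ((Polynomial.aeval t F : Rw P z.z) : KK I K) = Polynomial.aeval (t : KK I K) F :=
  (Polynomial.aeval_algHom_apply (Rw P z.z).val t F).symm

/-- The inverse of the pole as an element of the second chart. -/
noncomputable def ww : Rw P z.z := ⟨z.w, z.mem_Rw⟩

/-- Continuity. -/
theorem cont (E : Derivation K (Rw P z.z) (Rw P z.z)) (g : Rw P z.z) (k : ℕ)
    (hg : (g : KK I K) ∈ Pol I K (-(((k + 1 : ℕ) : ℤ) * z.d))) :
    (E g : KK I K) ∈ Pol I K (-((k : ℤ) * z.d)) := by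
  have h1 : (z.z : KK I K) ^ (k + 1) * (g : KK I K) ∈ Rw P z.z := by
    refine ⟨?_, ?_⟩
    · obtain ⟨n, hn⟩ := g.2.1
      refine ⟨n, ?_⟩
      have e : (z.z : KK I K) ^ n * ((z.z : KK I K) ^ (k + 1) * (g : KK I K)) =
          (z.z : KK I K) ^ (k + 1) * ((z.z : KK I K) ^ n * (g : KK I K)) := by ring
      rw [e]
      exact mul_mem (pow_mem z.z.2 _) hn
    · have h := mul_mem_Pol (zpow z (k + 1)) hg
      rw [add_neg_cancel] at h
      exact h
  have h2 : g = ww z ^ (k + 1) * ⟨_, h1⟩ := by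
    refine Subtype.ext ?_
    change (g : KK I K) = z.w ^ (k + 1) * ((z.z : KK I K) ^ (k + 1) * (g : KK I K))
    rw [← mul_assoc, ← mul_pow, mul_comm z.w, z.zw, one_pow, one_mul]
  have h3 : E g = ww z ^ (k + 1) * E ⟨_, h1⟩ +
      (⟨_, h1⟩ : Rw P z.z) * (((k + 1 : ℕ) : Rw P z.z) * ww z ^ k * E (ww z)) := by
    conv_lhs => rw [h2]
    rw [Derivation.leibniz, Derivation.leibniz_pow, Nat.add_sub_cancel, smul_eq_mul, smul_eq_mul,
      nsmul_eq_mul, smul_eq_mul, mul_assoc]
  have h4 : (E g : KK I K) = z.w ^ k * ((z.w * (E ⟨_, h1⟩ : Rw P z.z) : KK I K) +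
      ((k + 1 : ℕ) : KK I K) * (((z.z : KK I K) ^ (k + 1) * (g : KK I K)) *
        (E (ww z) : KK I K))) := by
    rw [h3]
    change z.w ^ (k + 1) * (E ⟨_, h1⟩ : KK I K) + ((z.z : KK I K) ^ (k + 1) * (g : KK I K)) *
      (((k + 1 : ℕ) : KK I K) * z.w ^ k * (E (ww z) : KK I K)) = _
    ring
  have h5 : (z.w * (E ⟨_, h1⟩ : Rw P z.z) : KK I K) ∈ OO I K :=
    mul_mem z.mem_Rw.2 (E ⟨_, h1⟩).2.2
  have h6 : ((k + 1 : ℕ) : KK I K) * (((z.z : KK I K) ^ (k + 1) * (g : KK I K)) *
      (E (ww z) : KK I K)) ∈ OO I K :=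
    mul_mem (natCast_mem _ _) (mul_mem h1.2 (E (ww z)).2.2)
  have h7 := mul_mem_Pol (wpow z k) (mem_OO.1 (add_mem h5 h6))
  rw [add_zero] at h7
  rw [h4]
  exact h7

/-- The commutator of a derivation of the second chart and `d/dτ`. -/
noncomputable def DD (E : Derivation K (Rw P z.z) (Rw P z.z)) (t f : Rw P z.z) : KK I K :=
  dd (t : KK I K) * (E f : KK I K) - (E t : KK I K) * dd (f : KK I K)

theorem DD_sub (E : Derivation K (Rw P z.z) (Rw P z.z)) (t f g : Rw P z.z) :
    DD z E t (f - g) = DD z E t f - DD z E t g := by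
  have h : dd ((f - g : Rw P z.z) : KK I K) = dd (f : KK I K) - dd (g : KK I K) := by
    change ddD I K ((f : KK I K) - (g : KK I K)) = ddD I K f - ddD I K g
    rw [map_sub]
  rw [DD, DD, DD, h, map_sub]
  change dd (t : KK I K) * ((E f : KK I K) - (E g : KK I K)) - _ = _
  ring

theorem DD_mul (E : Derivation K (Rw P z.z) (Rw P z.z)) (t f g : Rw P z.z) :
    DD z E t (f * g) = (f : KK I K) * DD z E t g + (g : KK I K) * DD z E t f := by
  have h : dd ((f * g : Rw P z.z) : KK I K) = (f : KK I K) * dd (g : KK I K) +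
      dd (f : KK I K) * (g : KK I K) := dd_mul (f : KK I K) (g : KK I K)
  rw [DD, DD, DD, h, Derivation.leibniz]
  change dd (t : KK I K) * ((f : KK I K) * (E g : KK I K) + (g : KK I K) * (E f : KK I K)) - _ = _
  ring

theorem DD_aeval (E : Derivation K (Rw P z.z) (Rw P z.z)) (t : Rw P z.z) (F : Polynomial K) :
    DD z E t (Polynomial.aeval t F) = 0 := by
  have h : dd ((Polynomial.aeval t F : Rw P z.z) : KK I K) =
      ((Polynomial.aeval t (Polynomial.derivative F) : Rw P z.z) : KK I K) *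
        dd (t : KK I K) := by
    rw [coe_aeval, coe_aeval]
    have h' := (ddD I K).map_aeval F (t : KK I K)
    rw [smul_eq_mul] at h'
    exact h'
  have h2 : (E (Polynomial.aeval t F) : KK I K) =
      ((Polynomial.aeval t (Polynomial.derivative F) : Rw P z.z) : KK I K) *
        (E t : KK I K) := by
    rw [E.map_aeval]
    rfl
  rw [DD, h, h2]
  ring

theorem DD_cont (E : Derivation K (Rw P z.z) (Rw P z.z)) (t g : Rw P z.z) (k : ℕ)
    (hg : (g : KK I K) ∈ Pol I K (-(((k + 1 : ℕ) : ℤ) * z.d))) :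
    DD z E t g ∈ Pol I K (-((k : ℤ) * z.d)) := by
  have h1 := cont z E g k hg
  have h2 : dd (g : KK I K) ∈ Pol I K (-((k : ℤ) * z.d)) := by
    refine Pol_mono ?_ (dd_mem_Pol hg)
    have := z.pos
    push_cast
    nlinarith
  have h3 := mul_mem_Pol (dd_mem_Pol0 (show (t : KK I K) ∈ Pol I K 0 from t.2.2)) h1
  have h4 := mul_mem_Pol (show (E t : KK I K) ∈ Pol I K 0 from (E t).2.2) h2
  rw [zero_add] at h3 h4
  exact sub_mem h3 h4

theorem DD_mem (E : Derivation K (Rw P z.z) (Rw P z.z)) (t g : Rw P z.z) :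
    DD z E t g ∈ Pol I K 0 :=
  sub_mem (mul_mem_Pol0 (dd_mem_Pol0 t.2.2) (E g).2.2)
    (mul_mem_Pol0 (E t).2.2 (dd_mem_Pol0 g.2.2))

/-- The commutator is zero. -/
theorem DD_zero (hden : ∀ f ∈ Pol I K 0, ∀ M : ℤ, ∃ r ∈ Rw P z.z, f - r ∈ Pol I K (-M))
    (E : Derivation K (Rw P z.z) (Rw P z.z)) (t : Rw P z.z)
    (h0 : ∀ i, ∀ m < 1, ((t : KK I K) i).coeff m = 0)
    (h1 : ∀ i, ((t : KK I K) i).coeff 1 = 1) (f : Rw P z.z) : DD z E t f = 0 := by
  classical
  funext i
  ext m
  rw [Pi.zero_apply, HahnSeries.coeff_zero]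
  obtain ⟨k, hk⟩ : ∃ k : ℕ, m < (k : ℤ) * z.d := by
    refine ⟨m.toNat + 1, ?_⟩
    have h2 := z.pos
    have h3 : m ≤ m.toNat := Int.self_le_toNat m
    push_cast
    nlinarith
  obtain ⟨M, hM⟩ : ∃ M : ℕ, (M : ℤ) = ((k + 1 : ℕ) : ℤ) * z.d := ⟨(k + 1) * z.d, by push_cast; rfl⟩
  have hkM : (k : ℤ) * z.d ≤ M := by
    rw [hM]
    have := z.pos
    push_cast
    nlinarith
  obtain ⟨F, hF⟩ := approx h0 h1 (f : KK I K) i (fun m hm => f.2.2 i m (by omega)) M
  have he1 : (fun j => if j = i then 1 else 0 : KK I K) ∈ Pol I K 0 := by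
    intro j l hl
    dsimp only
    split_ifs with h
    · rw [HahnSeries.coeff_one, if_neg (by omega)]
    · exact HahnSeries.coeff_zero
  obtain ⟨e', he', he2⟩ := hden _ he1 M
  let e : Rw P z.z := ⟨e', he'⟩
  let h : Rw P z.z := f - Polynomial.aeval t F
  have hh : (h : KK I K) = (f : KK I K) - Polynomial.aeval (t : KK I K) F := by
    change (f : KK I K) - ((Polynomial.aeval t F : Rw P z.z) : KK I K) = _
    rw [coe_aeval]
  have hhi : ∀ l < (M : ℤ), ((h : KK I K) i).coeff l = 0 := by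
    intro l hl
    rw [hh]
    exact hF l hl
  have hhp : ∀ j, ∀ l < (0 : ℤ), ((h : KK I K) j).coeff l = 0 :=
    fun j l hl => h.2.2 j l (by omega)
  have hep : ∀ j, ∀ l < (0 : ℤ), (e' j).coeff l = 0 := fun j l hl => he'.2 j l (by omega)
  have hg : ((e * h : Rw P z.z) : KK I K) ∈ Pol I K (-(((k + 1 : ℕ) : ℤ) * z.d)) := by
    rw [← hM]
    intro j l hl
    change (e' j * (h : KK I K) j).coeff l = 0
    rw [neg_neg] at hl
    by_cases hj : j = i
    · subst hj
      exact mul_low (hep j) hhi l (by omega)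
    · have h3 : ∀ l < (M : ℤ), (e' j).coeff l = 0 := by
        intro l hl
        have h4 := he2 j l (by omega)
        rw [Pi.sub_apply, if_neg hj, zero_sub, HahnSeries.coeff_neg, neg_eq_zero] at h4
        exact h4
      exact mul_low h3 (hhp j) l (by omega)
  have hD := DD_cont z E t (e * h) k hg
  have hDi : ∀ l < (k : ℤ) * z.d, (DD z E t (e * h) i).coeff l = 0 :=
    fun l hl => hD i l (by omega)
  have hm1 : DD z E t (e * h) = e' * DD z E t f + (h : KK I K) * DD z E t e := by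
    rw [DD_mul]
    change e' * DD z E t (f - Polynomial.aeval t F) + _ = _
    rw [DD_sub, DD_aeval, sub_zero]
  have hDe : ∀ l < (0 : ℤ), (DD z E t e i).coeff l = 0 :=
    fun l hl => DD_mem z E t e i l (by omega)
  have hDf : ∀ l < (0 : ℤ), (DD z E t f i).coeff l = 0 :=
    fun l hl => DD_mem z E t f i l (by omega)
  have hei : ∀ l < (M : ℤ), ((1 - e' i) : LaurentSeries K).coeff l = 0 := by
    intro l hl
    have h4 := he2 i l (by omega)
    rw [Pi.sub_apply, if_pos rfl] at h4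
    exact h4
  have h5 : DD z E t f i = DD z E t (e * h) i - (h : KK I K) i * DD z E t e i +
      (1 - e' i) * DD z E t f i := by
    rw [hm1, Pi.add_apply, Pi.mul_apply, Pi.mul_apply]
    ring
  rw [h5, HahnSeries.coeff_add, HahnSeries.coeff_sub, hDi m hk,
    mul_low hhi hDe m (by omega), mul_low hei hDf m (by omega), sub_zero, add_zero]

/-- Vector fields. -/
theorem main (hden : ∀ f ∈ Pol I K 0, ∀ M : ℤ, ∃ r ∈ Rw P z.z, f - r ∈ Pol I K (-M))
    (hR : RigP P) (E1 : Derivation K P P) (E2 : Derivation K (Rw P z.z) (Rw P z.z))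
    (E12 : Derivation K (Rz P z.z) (Rz P z.z))
    (c1 : ∀ r : P, E12 (Subalgebra.inclusion (le_Rz P z.z) r) =
      Subalgebra.inclusion (le_Rz P z.z) (E1 r))
    (c2 : ∀ r : Rw P z.z, E12 (Subalgebra.inclusion (leRw z) r) =
      Subalgebra.inclusion (leRw z) (E2 r)) : E1 = 0 ∧ E2 = 0 := by
  have ht1 : (fun _ => HahnSeries.single (1 : ℤ) (1 : K) : KK I K) ∈ Pol I K 0 := by
    intro j l hl
    rw [HahnSeries.coeff_single_of_ne (by omega)]
  obtain ⟨t', ht', ht2⟩ := hden _ ht1 2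
  have h0 : ∀ i, ∀ m < 1, (t' i).coeff m = 0 := by
    intro i m hm
    have h := ht2 i m (by omega)
    rw [Pi.sub_apply, HahnSeries.coeff_sub, HahnSeries.coeff_single_of_ne (by omega), zero_sub,
      neg_eq_zero] at h
    exact h
  have h1 : ∀ i, (t' i).coeff 1 = 1 := by
    intro i
    have h := ht2 i 1 (by omega)
    rw [Pi.sub_apply, HahnSeries.coeff_sub, HahnSeries.coeff_single_same, sub_eq_zero] at h
    exact h.symm
  let t : Rw P z.z := ⟨t', ht'⟩
  have hD := DD_zero z hden E2 t h0 h1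
  obtain ⟨u, hu, htu⟩ := unit_of (s := dd t') (dd_mem_Pol0 ht'.2) (by
    intro i
    change (ld (t' i)).coeff 0 = 1
    rw [ld_coeff, zero_add, h1 i]
    simp)
  let θ : KK I K := (E2 t : KK I K) * u
  have hθ : θ ∈ Pol I K 0 := mul_mem_Pol0 (E2 t).2.2 hu
  have hE2 : ∀ r : Rw P z.z, (E2 r : KK I K) = θ * dd (r : KK I K) := by
    intro r
    have h2 := hD r
    rw [DD, sub_eq_zero] at h2
    change dd t' * (E2 r : KK I K) = (E2 t : KK I K) * dd (r : KK I K) at h2
    change (E2 r : KK I K) = (E2 t : KK I K) * u * dd (r : KK I K)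
    calc (E2 r : KK I K) = (dd t' * u) * (E2 r : KK I K) := by rw [htu, one_mul]
      _ = u * (dd t' * (E2 r : KK I K)) := by ring
      _ = u * ((E2 t : KK I K) * dd (r : KK I K)) := by rw [h2]
      _ = _ := by ring
  have hE12w : ∀ r : Rw P z.z,
      (E12 (Subalgebra.inclusion (leRw z) r) : KK I K) =
        θ * dd (r : KK I K) := by
    intro r
    rw [c2 r]
    exact hE2 r
  have hE12 : ∀ r : Rz P z.z, (E12 r : KK I K) = θ * dd (r : KK I K) := by
    intro r
    obtain ⟨n, hn⟩ := z.lift_mem r.2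
    have h2 := hE12w ⟨_, hn⟩
    have h3 := hE12w (ww z ^ n)
    have e : Subalgebra.inclusion (leRw z) ⟨_, hn⟩ =
        Subalgebra.inclusion (leRw z) (ww z ^ n) * r :=
      Subtype.ext rfl
    rw [e, Derivation.leibniz] at h2
    change z.w ^ n * (E12 r : KK I K) + (r : KK I K) *
      (E12 (Subalgebra.inclusion (leRw z) (ww z ^ n)) : KK I K) =
      θ * dd (z.w ^ n * (r : KK I K)) at h2
    rw [h3, dd_mul] at h2
    change z.w ^ n * (E12 r : KK I K) + (r : KK I K) * (θ * dd (z.w ^ n)) = _ at h2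
    have h4 : z.w ^ n * (E12 r : KK I K) = z.w ^ n * (θ * dd (r : KK I K)) := by
      linear_combination h2
    have h5 : (z.z : KK I K) ^ n * z.w ^ n = 1 := by rw [← mul_pow, z.zw, one_pow]
    calc (E12 r : KK I K) = (z.z : KK I K) ^ n * (z.w ^ n * (E12 r : KK I K)) := by
          rw [← mul_assoc, h5, one_mul]
      _ = (z.z : KK I K) ^ n * (z.w ^ n * (θ * dd (r : KK I K))) := by rw [h4]
      _ = _ := by rw [← mul_assoc, h5, one_mul]
  have hE1 : ∀ r : P, (E1 r : KK I K) = θ * dd (r : KK I K) := by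
    intro r
    have h2 := hE12 (Subalgebra.inclusion (le_Rz P z.z) r)
    rw [c1 r] at h2
    exact h2
  have hθ0 : θ = 0 := by
    refine hR θ (fun f hf => ?_) hθ
    have h2 := hE1 ⟨f, hf⟩
    change _ = θ * dd f at h2
    rw [← h2]
    exact (E1 ⟨f, hf⟩).2
  refine ⟨?_, ?_⟩
  · ext1 r
    refine Subtype.ext ?_
    rw [hE1, hθ0, zero_mul]
    rfl
  · ext1 r
    refine Subtype.ext ?_
    rw [hE2, hθ0, zero_mul]
    rfl

end

end KRV

theorem t_KRV (hDEN : Stmt_DEN) : Stmt_KRV := by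
  intro I K _ _ _ g P hP hR z E1 E2 E12 c1 c2
  exact KRV.main z (hDEN hP z).2.1 hR E1 E2 E12 c1 c2

end Pool.Agent.MG.KX
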