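import Pool.Agent.MG.KX.StmtsK
import Pool.Agent.MG.G0.KBC
import Pool.Agent.MG.G0.KDU
import Pool.Agent.MG.G0.KFO
import Pool.Agent.MG.G0.KSP
import Pool.Agent.MG.G0.KNZ

/-!
# KSB: base change of the Krichever ring of a stable curve
-/

open CategoryTheory CategoryTheory.Limits AlgebraicGeometry TensorProduct

namespace Pool.Agent.MG.KX

open Pool.Agent.MG.G0 Pool.Agent.MG.GLU

/-- KSB: base change. -/
theorem t_KSB (hKBP : Stmt_KBP) : Stmt_KSB := by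
  have hKBC : Stmt_KBC := t_KBC (t_KFO t_KDU) t_KNZ (t_KSP t_KNZ)
  intro I A B _ _ _ _ g n P p h φ p' hp
  refine ⟨(hKBC.2.2.2 h.kr φ).1, hKBP.2 h.kr φ p p' hp h.mks, ?_⟩
  intro K _ _ ψ
  rw [← hKBC.2.1 φ ψ P]
  exact h.fib K (ψ.comp φ)

end Pool.Agent.MG.KX
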