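import Pool.Agent.MG.KX.StmtsC
import Pool.Agent.MG.G0.KBC

/-!
# KSN: nilpotent thickenings of KS
-/

open CategoryTheory CategoryTheory.Limits AlgebraicGeometry
open scoped TensorProduct

namespace Pool.Agent.MG.KX

open Pool.Agent.MG.G0 Pool.Agent.MG.GLU

namespace KSN

theorem exists_factor {E A K : Type} [CommRing E] [CommRing A] [Field K] (φ : E →+* A)
    (hφ : Function.Surjective φ) (hn : ∃ n : ℕ, RingHom.ker φ ^ n = ⊥) (ψ : E →+* K) :
    ∃ ψ' : A →+* K, ψ = ψ'.comp φ := by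
  obtain ⟨n, hn⟩ := hn
  have h : ∀ e, φ e = 0 → ψ e = 0 := by
    intro e he
    have h1 : e ^ n ∈ RingHom.ker φ ^ n := Ideal.pow_mem_pow he n
    rw [hn, Ideal.mem_bot] at h1
    have h2 : ψ e ^ n = 0 := by rw [← map_pow, h1, map_zero]
    exact eq_zero_of_pow_eq_zero h2
  have hr := Function.rightInverse_surjInv hφ
  refine ⟨RingHom.liftOfRightInverse φ _ hr ⟨ψ, fun e he => h e he⟩, RingHom.ext fun e => ?_⟩
  exact (RingHom.liftOfRightInverse_comp_apply φ _ hr ⟨ψ, fun e he => h e he⟩ e).symm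

end KSN

theorem t_KSN : Stmt_KSN := by
  intro I E A _ _ _ _ g Q P φ hφ hn hQ hb h
  refine ⟨hQ, ⟨fun i => i.elim0, fun i => i.elim0⟩, ?_⟩
  intro K _ _ ψ
  obtain ⟨ψ', rfl⟩ := KSN.exists_factor φ hφ hn ψ
  have h1 : bc (ψ'.comp φ) Q = bc ψ' P := by rw [KBC.bc_comp, hb]
  rw [h1]
  exact h.fib K ψ'

end Pool.Agent.MG.KX
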