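import Pool.Agent.MG.KX.StmtsK

/-!
# KST: the curve of a Krichever ring is stable (helper94)
-/

open CategoryTheory CategoryTheory.Limits AlgebraicGeometry TensorProduct

namespace Pool.Agent.MG.KX

open Pool.Agent.MG.G0 Pool.Agent.MG.GLU

/-- KST: stability. -/
theorem t_KST (hDST : Stmt_DST) (hKPX : Stmt_KPX) (hKBP : Stmt_KBP) (hKAR : Stmt_KAR)
    (hKGC : Stmt_KGC) (hKSB : Stmt_KSB) : Stmt_KST := by
  intro I A _ _ _ g n P p h z
  obtain ⟨h1, h2, h3⟩ := hKPX p h.kr z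
  refine hDST g (kDuo z) p h1 h2 h3 ?_
  intro K _ _ φ
  obtain ⟨p', hp'⟩ := hKBP.1 h.kr φ p
  obtain ⟨a, ha⟩ := hKAR h.kr z φ p p' hp'
  have hS : KS g (bc φ P) p' := hKSB h φ p' hp'
  obtain ⟨hd, hn, hr⟩ := h.fib K φ
  have hc : IsPullback (kHom φ z).map (kDuo (z.bc φ)).pr (kDuo z).pr (spMap φ) := by
    rw [← ha]
    exact a.cart
  exact ⟨kDuo (z.bc φ), p', kHom φ z, hc, fun i f => hp' i f _ rfl,
    hKGC hS.kr hd hn hr hS.mks (z.bc φ)⟩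

end Pool.Agent.MG.KX
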