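import Pool.Agent.MG.KX.StmtsK

/-!
# The curve of a smooth Krichever ring is smooth
-/

open CategoryTheory CategoryTheory.Limits AlgebraicGeometry TensorProduct

namespace Pool.Agent.MG.KX

open Pool.Agent.MG.G0 Pool.Agent.MG.GLU

/-- KSX: smoothness. -/
theorem t_KSX (hDSS : Stmt_DSS) (hKFP : Stmt_KFP) (hKPT : Stmt_KPT) : Stmt_KSX := by
  intro I K _ _ _ _ g n P p hP hsm z
  exact hDSS (kDuo z) (hKFP hP z).1 hsm (hKPT hP z)

end Pool.Agent.MG.KX
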