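import Pool.Agent.MG.KX.StmtsC

/-!
# MAI: automorphisms which become trivial after base change
-/

open CategoryTheory CategoryTheory.Limits AlgebraicGeometry
open scoped TensorProduct

namespace Pool.Agent.MG.KX

open Pool.Agent.MG.G0 Pool.Agent.MG.GLU

namespace MAI

variable {I A B : Type} [CommRing A] [CommRing B]

theorem psI_inj : Function.Injective (psI I A) := fun f h e =>
  funext fun i => psl_inj (congrFun e i)

theorem psI_psm (φ : A →+* B) (f : I → PowerSeries A) :
    psI I B (psm I φ f) = kmap φ (psI I A f) := by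
  funext i
  ext m
  change (psl B (PowerSeries.map φ (f i))).coeff m = φ ((psl A (f i)).coeff m)
  rcases lt_or_ge m 0 with h | h
  · rw [psl_coeff_neg _ _ h, psl_coeff_neg _ _ h, map_zero]
  · obtain ⟨k, rfl⟩ := Int.eq_ofNat_of_zero_le h
    rw [psl_coeff, psl_coeff, PowerSeries.coeff_map]

end MAI

open MAI in
/-- MAI: automorphisms which become trivial. -/
theorem t_MAI : Stmt_MAI := by
  intro I A B _ _ n P p P' p' x y φ a α h M M' q N hN hM
  have mem : ∀ f ∈ P.map (α : KK I A →ₐ[A] KK I A), kmap φ f ∈ P' := by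
    rintro _ ⟨f, hf, rfl⟩
    change kmap φ (α f) ∈ P'
    rw [h]
    exact hM.mem f hf
  refine ⟨mem, ?_, ?_⟩
  · rw [hN.j, ← Category.assoc, spMap_comp'', hM.j]
    have e : (rres (kmap φ) mem).comp (rres (α : KK I A →+* KK I A)
        (P' := P.map (α : KK I A →ₐ[A] KK I A)) fun f hf => ⟨f, hf, rfl⟩) =
        rres (kmap φ) hM.mem :=
      RingHom.ext fun f => Subtype.ext (h f)
    rw [e]
  · obtain ⟨ρ, hρ, hs⟩ := hN.sh
    rw [hs, ← Category.assoc, spMap_comp'', hM.sh]
    have e : (psm I φ).comp ρ = psm I φ := RingHom.ext fun f => psI_inj (by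
      rw [RingHom.comp_apply, psI_psm, psI_psm, hρ, h])
    rw [e]

end Pool.Agent.MG.KX
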