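import Pool.Agent.MG.KX.StmtsM
import Pool.Agent.MG.GLUT

/-!
# MAU: change of the coordinates of a model
-/

open CategoryTheory CategoryTheory.Limits AlgebraicGeometry
open scoped TensorProduct

namespace Pool.Agent.MG.KX

open Pool.Agent.MG.G0 Pool.Agent.MG.GLU

namespace MAUx

section

variable {I A B : Type} [CommRing A] [CommRing B]

theorem psI_inj {f g : I → PowerSeries A} (h : psI I A f = psI I A g) : f = g :=
  funext fun i => psl_inj (congrFun h i)

theorem psI_mem (f : I → PowerSeries A) : psI I A f ∈ Pol I A 0 := fun i m hm =>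
  psl_coeff_neg _ _ (by omega)

/-- The power series of the series without poles. -/
noncomputable def topI (f : KK I A) : I → PowerSeries A := fun i => tops A (f i)

theorem psI_topI {f : KK I A} (hf : f ∈ Pol I A 0) : psI I A (topI f) = f :=
  funext fun i => psl_tops fun m hm => hf i m (by omega)

theorem psI_one_mem (f : I → PowerSeries A) : psI I A f ∈ Pol I A (-1) ↔ ccI I A f = 0 := by
  constructor
  · intro h
    funext i
    have h1 := h i 0 (by omega)
    rw [psI_apply] at h1
    have h2 := psl_coeff (f i) 0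
    rw [Nat.cast_zero, h1] at h2
    rw [ccI_apply, Pi.zero_apply, ← PowerSeries.coeff_zero_eq_constantCoeff_apply, ← h2]
  · intro h i m hm
    rw [psI_apply]
    rcases lt_or_ge m 0 with h1 | h1
    · exact psl_coeff_neg _ _ h1
    · obtain rfl : m = 0 := by omega
      have h2 := psl_coeff (f i) 0
      rw [Nat.cast_zero] at h2
      rw [h2, PowerSeries.coeff_zero_eq_constantCoeff_apply]
      exact congrFun h i

theorem psI_psm (φ : A →+* B) (f : I → PowerSeries A) :
    psI I B (psm I φ f) = kmap φ (psI I A f) := by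
  funext i
  rw [psI_apply, psm_apply, kmap_apply, psI_apply]
  ext m
  rw [lmap_coeff]
  rcases lt_or_ge m 0 with h | h
  · rw [psl_coeff_neg _ _ h, psl_coeff_neg _ _ h, map_zero]
  · obtain ⟨k, rfl⟩ := Int.eq_ofNat_of_zero_le h
    rw [psl_coeff, psl_coeff, PowerSeries.coeff_map]

theorem psI_algebraMap (a : A) :
    psI I A (algebraMap A (I → PowerSeries A) a) = algebraMap A (KK I A) a := by
  funext i
  rw [psI_apply, Pi.algebraMap_apply, Pi.algebraMap_apply]
  ext m
  rw [coeff_algebraMap]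
  rcases lt_or_ge m 0 with h | h
  · rw [psl_coeff_neg _ _ h, if_neg (by omega)]
  · obtain ⟨k, rfl⟩ := Int.eq_ofNat_of_zero_le h
    rw [psl_coeff, PowerSeries.algebraMap_apply, Algebra.algebraMap_self_apply,
      PowerSeries.coeff_C]
    rcases Nat.eq_zero_or_pos k with h1 | h1
    · rw [if_pos h1, if_pos (by omega)]
    · rw [if_neg (by omega), if_neg (by omega)]

variable (α : KK I A ≃ₐ[A] KK I A)

theorem PolAut.symm {α : KK I A ≃ₐ[A] KK I A} (h : PolAut α) : PolAut α.symm := fun f => by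
  rw [← h (α.symm f), AlgEquiv.apply_symm_apply]

/-- The homomorphism of power series. -/
noncomputable def rho (h : PolAut α) : (I → PowerSeries A) →+* (I → PowerSeries A) where
  toFun f := topI (α (psI I A f))
  map_one' := psI_inj (by
    rw [psI_topI ((h _).2 (psI_mem _)), map_one, map_one])
  map_zero' := psI_inj (by
    rw [psI_topI ((h _).2 (psI_mem _)), map_zero, map_zero])
  map_add' f g := psI_inj (by
    rw [psI_topI ((h _).2 (psI_mem _)), map_add, map_add, map_add,
      psI_topI ((h _).2 (psI_mem _)), psI_topI ((h _).2 (psI_mem _))])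
  map_mul' f g := psI_inj (by
    rw [psI_topI ((h _).2 (psI_mem _)), map_mul, map_mul, map_mul,
      psI_topI ((h _).2 (psI_mem _)), psI_topI ((h _).2 (psI_mem _))])

theorem psI_rho (h : PolAut α) (f : I → PowerSeries A) :
    psI I A (rho α h f) = α (psI I A f) := psI_topI ((h _).2 (psI_mem _))

/-- The automorphism of power series. -/
noncomputable def rhoE (h : PolAut α) : (I → PowerSeries A) ≃+* (I → PowerSeries A) :=
  RingEquiv.ofRingHom (rho α h) (rho α.symm (PolAut.symm h))
    (RingHom.ext fun f => psI_inj (by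
      rw [RingHom.comp_apply, psI_rho, psI_rho, AlgEquiv.apply_symm_apply, RingHom.id_apply]))
    (RingHom.ext fun f => psI_inj (by
      rw [RingHom.comp_apply, psI_rho, psI_rho, AlgEquiv.symm_apply_apply, RingHom.id_apply]))

theorem rho_symm (h : PolAut α) (f : I → PowerSeries A) :
    rho α h (rho α.symm (PolAut.symm h) f) = f := (rhoE α h).apply_symm_apply f

theorem symm_rho (h : PolAut α) (f : I → PowerSeries A) :
    rho α.symm (PolAut.symm h) (rho α h f) = f := (rhoE α h).symm_apply_apply f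

/-- Constant power series. -/
noncomputable def cst (I A : Type) [CommRing A] : (I → A) →+* (I → PowerSeries A) :=
  RingHom.pi fun i => (PowerSeries.C (R := A)).comp (Pi.evalRingHom _ i)

theorem ccI_cst (c : I → A) : ccI I A (cst I A c) = c := by
  funext i
  change PowerSeries.constantCoeff (PowerSeries.C (c i)) = c i
  rw [PowerSeries.constantCoeff_C]

theorem exists_X (f : I → PowerSeries A) (hf : ccI I A f = 0) :
    ∃ a : I → PowerSeries A, f = (fun _ => PowerSeries.X) * a := by
  have h1 : ∀ i, ∃ a : PowerSeries A, f i = PowerSeries.X * a := fun i =>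
    PowerSeries.X_dvd_iff.2 (congrFun hf i)
  choose a ha using h1
  exact ⟨a, funext ha⟩

theorem X_inj {a b : I → PowerSeries A}
    (h : (fun _ => PowerSeries.X : I → PowerSeries A) * a = (fun _ => PowerSeries.X) * b) :
    a = b := by
  funext i
  have h1 : PowerSeries.X * a i = PowerSeries.X * b i := congrFun h i
  exact PowerSeries.X_mul_cancel h1

theorem ccI_X : ccI I A (fun _ => PowerSeries.X) = 0 := by
  funext i
  change PowerSeries.constantCoeff PowerSeries.X = 0
  rw [PowerSeries.constantCoeff_X]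

/-- The coordinates. -/
noncomputable def tauX (I A : Type) [CommRing A] : I → PowerSeries A := fun _ => PowerSeries.X

/-- The inverse of the coordinates. -/
noncomputable def tinv (I A : Type) [CommRing A] : KK I A := fun _ => HahnSeries.single (-1) 1

theorem ccI_tauX_mul (f : I → PowerSeries A) : ccI I A (tauX I A * f) = 0 := by
  rw [map_mul]
  change ccI I A (fun _ => PowerSeries.X) * _ = 0
  rw [ccI_X, zero_mul]

theorem isUnit_of_ccI {f : I → PowerSeries A} (h : IsUnit (ccI I A f)) : IsUnit f := by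
  rw [Pi.isUnit_iff] at h ⊢
  intro i
  exact PowerSeries.isUnit_iff_constantCoeff.2 (h i)

/-- `1 + c ρ(τ)` is a unit. -/
theorem isUnit_one_add_rho (h : PolAut α) (c : I → PowerSeries A) :
    IsUnit (1 + c * rho α h (tauX I A)) := by
  have h1 : IsUnit (1 + rho α.symm (PolAut.symm h) c * tauX I A) := by
    refine isUnit_of_ccI ?_
    rw [map_add, map_one, mul_comm, ccI_tauX_mul, add_zero]
    exact isUnit_one
  have h2 := h1.map (rho α h)
  rwa [map_add, map_one, map_mul, rho_symm] at h2

/-- `ρ(τ)` divides a power of the coordinate. -/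
theorem rho_dvd (h : PolAut α) (i : I) :
    ∃ (N : ℕ) (r : PowerSeries A), rho α h (tauX I A) i * r = PowerSeries.X ^ N := by
  have h1 : psI I A (tauX I A) * tinv I A = 1 := by
    funext i
    rw [Pi.mul_apply, psI_apply]
    change (HahnSeries.ofPowerSeries ℤ A PowerSeries.X) * HahnSeries.single (-1) 1 = 1
    rw [HahnSeries.ofPowerSeries_X, HahnSeries.single_mul_single]
    rw [add_neg_cancel, mul_one]
    rfl
  have h2 := congrFun (congrArg α h1) i
  rw [map_mul, ← psI_rho α h, Pi.mul_apply, map_one, Pi.one_apply, psI_apply] at h2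
  obtain ⟨N, hN⟩ := exists_low (α (tinv I A) i)
  refine ⟨N, tops A (psl A (PowerSeries.X ^ N) * α (tinv I A) i), ?_⟩
  apply psl_inj
  rw [map_mul, psl_tops]
  · rw [mul_left_comm, h2, mul_one]
  · intro m hm
    have h3 : psl A (PowerSeries.X ^ N) = HahnSeries.single (N : ℤ) 1 := by
      change HahnSeries.ofPowerSeries ℤ A (PowerSeries.X ^ N) = _
      rw [HahnSeries.ofPowerSeries_X_pow]
    rw [h3]
    have h4 : m = (N : ℤ) + (m - N) := by omega
    rw [h4, add_comm (N : ℤ), HahnSeries.coeff_single_mul_add, one_mul]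
    exact hN _ (by omega)

theorem rho_nilp (h : PolAut α) (i : I) :
    IsNilpotent (PowerSeries.constantCoeff (rho α h (tauX I A) i)) := by
  rw [nilpotent_iff_mem_prime]
  intro J hJ
  by_contra hc
  obtain ⟨N, r, hr⟩ := rho_dvd α h i
  have h1 := congrArg (PowerSeries.map (Ideal.Quotient.mk J)) hr
  rw [map_mul, map_pow, PowerSeries.map_X] at h1
  have h2 : ¬ PowerSeries.X ∣ PowerSeries.map (Ideal.Quotient.mk J) (rho α h (tauX I A) i) := by
    rw [PowerSeries.X_dvd_iff]
    rw [← PowerSeries.coeff_zero_eq_constantCoeff_apply, PowerSeries.coeff_map,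
      PowerSeries.coeff_zero_eq_constantCoeff_apply, Ideal.Quotient.eq_zero_iff_mem]
    exact hc
  obtain ⟨s, hs⟩ := PowerSeries.X_prime.pow_dvd_of_dvd_mul_left N h2 (Dvd.intro_left 1 (by
    rw [one_mul, h1]))
  rw [hs, mul_left_comm] at h1
  have h3 : PowerSeries.map (Ideal.Quotient.mk J) (rho α h (tauX I A) i) * s = 1 := by
    have h4 : (PowerSeries.X : PowerSeries (A ⧸ J)) ^ N ≠ 0 := pow_ne_zero _ PowerSeries.X_ne_zero
    exact mul_left_cancel₀ h4 (by rw [h1, mul_one])
  have h5 := congrArg PowerSeries.constantCoeff h3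
  rw [map_mul, map_one, ← PowerSeries.coeff_zero_eq_constantCoeff_apply, PowerSeries.coeff_map,
    PowerSeries.coeff_zero_eq_constantCoeff_apply] at h5
  obtain ⟨c, hc'⟩ := Ideal.Quotient.mk_surjective (PowerSeries.constantCoeff s)
  rw [← hc', ← map_mul, ← map_one (Ideal.Quotient.mk J), Ideal.Quotient.eq] at h5
  have h6 := isUnit_one_add_rho α h (fun _ => -PowerSeries.C c)
  have h7 := (PowerSeries.isUnit_iff_constantCoeff.1 ((Pi.isUnit_iff.1 h6) i))
  rw [Pi.add_apply, Pi.mul_apply, Pi.one_apply, map_add, map_one, map_mul, map_neg,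
    PowerSeries.constantCoeff_C] at h7
  refine hJ.ne_top (Ideal.eq_top_of_isUnit_mem _ (J.neg_mem h5) ?_)
  have h8 : -(PowerSeries.constantCoeff (rho α h (tauX I A) i) * c - 1) =
      1 + -c * PowerSeries.constantCoeff (rho α h (tauX I A) i) := by ring
  rw [h8]
  exact h7

theorem rho_pow [Finite I] (h : PolAut α) : ∃ K : ℕ, 0 < K ∧
    ∀ k, K ≤ k → ∃ r, rho α h (tauX I A) ^ k = tauX I A * r := by
  cases nonempty_fintype I
  choose n hn using rho_nilp α h
  refine ⟨∑ i, n i + 1, Nat.succ_pos _, fun k hk => ?_⟩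
  refine exists_X _ (funext fun i => ?_)
  rw [map_pow, Pi.pow_apply, ccI_apply]
  have h1 : n i ≤ ∑ i, n i := Finset.single_le_sum (fun _ _ => Nat.zero_le _) (Finset.mem_univ i)
  exact pow_eq_zero_of_le (by omega) (hn i)

/-- The element with `ρ b = τ`. -/
theorem exists_b [Finite I] (h : PolAut α) : ∃ (b : I → PowerSeries A) (K : ℕ)
    (r1 r2 : I → PowerSeries A), rho α h b = tauX I A ∧ 0 < K ∧ b ^ K = tauX I A * r1 ∧
      tauX I A ^ K = b * r2 := by
  obtain ⟨K1, h1, h2⟩ := rho_pow α h
  obtain ⟨K2, h3, h4⟩ := rho_pow α.symm (PolAut.symm h)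
  obtain ⟨r, hr⟩ := h2 (K1 + K2) (by omega)
  obtain ⟨r1, hr1⟩ := h4 (K1 + K2) (by omega)
  refine ⟨rho α.symm (PolAut.symm h) (tauX I A), K1 + K2, r1, rho α.symm (PolAut.symm h) r,
    rho_symm α h _, by omega, hr1, ?_⟩
  rw [← map_mul, ← hr, map_pow, symm_rho]

theorem le_basic {X : Scheme.{0}} {B : Type} [CommRing B] (i : Sp B ⟶ X) {W : X.Opens}
    (h : ⊤ ≤ i ⁻¹ᵁ W) (v : Γ(X, W)) (hv : IsUnit (gm i W h v)) : ⊤ ≤ i ⁻¹ᵁ (X.basicOpen v) := by
  have h1 : IsUnit ((i.appLE W ⊤ h).hom v) := by
    have h2 : (Scheme.ΓSpecIso (CommRingCat.of B)).inv.hom (gm i W h v) =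
        (i.appLE W ⊤ h).hom v := by
      change ((Scheme.ΓSpecIso (CommRingCat.of B)).hom ≫
        (Scheme.ΓSpecIso (CommRingCat.of B)).inv).hom ((i.appLE W ⊤ h).hom v) = _
      rw [Iso.hom_inv_id]
      rfl
    rw [← h2]
    exact hv.map _
  have h2 := Scheme.basicOpen_appLE i ⊤ W h v
  have h3 := (Sp B).basicOpen_of_isUnit h1
  rw [h2] at h3
  rw [← h3]
  exact inf_le_right

/-! ### Coordinates of a ring over the power series -/

/-- `t` is a coordinate at the punctures. -/
structure Crd {R : Type} [CommRing R] (g : R →+* (I → PowerSeries A)) (t : R) : Prop where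
  nz : ∀ v, t * v = 0 → v = 0
  un : ∃ u : I → PowerSeries A, IsUnit u ∧ g t = tauX I A * u
  ker : ∀ v, ccI I A (g v) = 0 → ∃ r, v = t * r
  sur : ∀ c : I → A, ∃ v, ccI I A (g v) = c

section

variable {R : Type} [CommRing R] {g : R →+* (I → PowerSeries A)} {t : R}

theorem Crd.ker_pow (h : Crd g t) (n : ℕ) : ∀ (v : R) (w : I → PowerSeries A),
    g v = tauX I A ^ n * w → ∃ r, v = t ^ n * r := by
  obtain ⟨u, hu, hg⟩ := h.un
  obtain ⟨u', hu'⟩ := hu.exists_right_inv
  induction n with
  | zero => exact fun v w _ => ⟨v, by rw [pow_zero, one_mul]⟩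
  | succ n ih =>
    intro v w hv
    obtain ⟨v', hv'⟩ := h.ker v (by rw [hv, pow_succ', mul_assoc, ccI_tauX_mul])
    have h1 : u * g v' = tauX I A ^ n * w := by
      apply X_inj (I := I)
      change tauX I A * _ = tauX I A * _
      rw [← mul_assoc, ← mul_assoc, ← pow_succ', ← hv, hv', map_mul, hg]
    obtain ⟨r, hr⟩ := ih v' (u' * w) (by
      rw [mul_left_comm, ← h1, ← mul_assoc, mul_comm u', hu', one_mul])
    exact ⟨r, by rw [hv', hr, pow_succ', mul_assoc]⟩

theorem Crd.sur_pow (h : Crd g t) (n : ℕ) : ∀ f : I → PowerSeries A,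
    ∃ v r, f = g v + tauX I A ^ n * r := by
  obtain ⟨u, hu, hg⟩ := h.un
  obtain ⟨u', hu'⟩ := hu.exists_right_inv
  induction n with
  | zero => exact fun f => ⟨0, f, by rw [map_zero, zero_add, pow_zero, one_mul]⟩
  | succ n ih =>
    intro f
    obtain ⟨v, r, hf⟩ := ih f
    obtain ⟨v', hv'⟩ := h.sur (ccI I A (u' ^ n * r))
    obtain ⟨r', hr'⟩ := exists_X (u' ^ n * r - g v') (by rw [map_sub, hv', sub_self])
    refine ⟨v + t ^ n * v', u ^ n * r', ?_⟩
    have h1 : r = u ^ n * (g v' + tauX I A * r') := by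
      change _ = tauX I A * r' at hr'
      rw [← hr', add_sub_cancel, ← mul_assoc, ← mul_pow, hu', one_pow, one_mul]
    rw [hf, map_add, map_mul, map_pow, hg, h1]
    ring

theorem Crd.loc (h : Crd g t) (q : R) {S : Type} [CommRing S] [Algebra R S]
    [IsLocalization.Away q S] (g' : S →+* (I → PowerSeries A))
    (hg : ∀ v, g' (algebraMap R S v) = g v) : Crd g' (algebraMap R S t) := by
  have hq : IsUnit (algebraMap R S q) := IsLocalization.Away.algebraMap_isUnit q
  refine ⟨?_, ?_, ?_, ?_⟩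
  · intro v hv
    obtain ⟨n, a, ha⟩ := IsLocalization.Away.surj q v
    have h1 : algebraMap R S (t * a) = algebraMap R S 0 := by
      rw [map_mul, ← ha, ← mul_assoc, hv, zero_mul, map_zero]
    obtain ⟨⟨_, m, rfl⟩, hm⟩ := (IsLocalization.eq_iff_exists (Submonoid.powers q) S).1 h1
    have h2 : q ^ m * a = 0 := h.nz _ (by
      change q ^ m * (t * a) = q ^ m * 0 at hm
      rw [mul_left_comm, hm, mul_zero])
    have h3 := congrArg (algebraMap R S) h2
    rw [map_mul, map_pow, ← ha, map_zero] at h3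
    exact ((hq.pow n).mul_left_eq_zero).1 (((hq.pow m).mul_right_eq_zero).1 h3)
  · obtain ⟨u, hu, h1⟩ := h.un
    exact ⟨u, hu, by rw [hg, h1]⟩
  · intro v hv
    obtain ⟨n, a, ha⟩ := IsLocalization.Away.surj q v
    obtain ⟨r, hr⟩ := h.ker a (by rw [← hg, ← ha, map_mul, map_mul, hv, zero_mul])
    obtain ⟨w, hw⟩ := (hq.pow n).exists_right_inv
    refine ⟨algebraMap R S r * w, ?_⟩
    rw [← mul_assoc, ← map_mul, ← hr, ← ha, mul_assoc, hw, mul_one]
  · intro c
    obtain ⟨v, hv⟩ := h.sur c
    exact ⟨algebraMap R S v, by rw [hg, hv]⟩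

theorem Crd.exists_crd (h : Crd g t) {K : ℕ} {b r1 r2 : I → PowerSeries A}
    (h1 : b ^ K = tauX I A * r1) (h2 : tauX I A ^ K = b * r2) : ∃ (t' q r y : R)
      (w : I → PowerSeries A), IsUnit w ∧ g t' = b * w ∧ IsUnit (g q) ∧ t ^ K * q = t' * r ∧
        t' ^ K = t * y := by
  obtain ⟨u, hu, hg⟩ := h.un
  obtain ⟨t', s, hs⟩ := h.sur_pow (2 * K) b
  have e1 : g t' = b * (1 - b * (r2 ^ 2 * s)) := by
    have : tauX I A ^ (2 * K) = b ^ 2 * r2 ^ 2 := by rw [mul_comm 2 K, pow_mul, h2, mul_pow]
    rw [this] at hs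
    linear_combination -hs
  have e2 : IsUnit (1 - b * (r2 ^ 2 * s)) := by
    have h3 : IsUnit (1 - (b * (r2 ^ 2 * s)) ^ K) := by
      refine isUnit_of_ccI ?_
      rw [map_sub, map_one, mul_pow, h1, mul_assoc, ccI_tauX_mul, sub_zero]
      exact isUnit_one
    refine isUnit_of_dvd_unit ?_ h3
    have h4 := sub_dvd_pow_sub_pow 1 (b * (r2 ^ 2 * s)) K
    rwa [one_pow] at h4
  obtain ⟨w', hw'⟩ := e2.exists_right_inv
  obtain ⟨y, hy⟩ := h.ker (t' ^ K) (by
    rw [map_pow, e1, mul_pow, h1, mul_assoc, ccI_tauX_mul])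
  have e3 : g (t ^ K) = g t' * (w' * r2 * u ^ K) := by
    rw [map_pow, hg, mul_pow, h2, e1]
    linear_combination (-b * r2 * u ^ K) * hw'
  obtain ⟨r, s', hr⟩ := h.sur_pow (K + 1) (w' * r2 * u ^ K)
  obtain ⟨s2, hs2⟩ := h.ker_pow (K + 1) (t ^ K - t' * r) (g t' * s') (by
    rw [map_sub, e3, hr, map_mul]
    ring)
  refine ⟨t', 1 - t * s2, r, y, _, e2, e1, ?_, ?_, hy⟩
  · refine isUnit_of_ccI ?_
    rw [map_sub, map_one, map_mul, hg, mul_assoc, map_sub, map_one, ccI_tauX_mul, sub_zero]
    exact isUnit_one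
  · linear_combination hs2

theorem Crd.chg (h : Crd g t) {K : ℕ} {b r2 : I → PowerSeries A}
    (h2 : tauX I A ^ K = b * r2) {t' r : R} {w : I → PowerSeries A} (hw : IsUnit w)
    (e1 : g t' = b * w) (e2 : t ^ K = t' * r)
    (ρ : (I → PowerSeries A) ≃+* (I → PowerSeries A)) (hb : ρ b = tauX I A) :
    Crd ((ρ : (I → PowerSeries A) →+* (I → PowerSeries A)).comp g) t' := by
  obtain ⟨w', hw'⟩ := hw.exists_right_inv
  have hb' : ρ.symm (tauX I A) = b := by rw [← hb, ρ.symm_apply_apply]
  refine ⟨?_, ?_, ?_, ?_⟩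
  · intro v hv
    have h3 : ∀ n, t ^ n * v = 0 → v = 0 := by
      intro n
      induction n with
      | zero => intro h3; rwa [pow_zero, one_mul] at h3
      | succ n ih => exact fun h3 => ih (h.nz _ (by rw [← mul_assoc, ← pow_succ', h3]))
    exact h3 K (by rw [e2, mul_right_comm, hv, zero_mul])
  · exact ⟨ρ w, hw.map ρ, by
      rw [RingHom.comp_apply, e1, ← hb]
      exact map_mul ρ b w⟩
  · intro v hv
    obtain ⟨f, hf⟩ := exists_X _ hv
    have h3 : g v = b * ρ.symm f := by
      have h4 := congrArg ρ.symm hf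
      change ρ.symm (ρ (g v)) = ρ.symm (tauX I A * f) at h4
      rw [ρ.symm_apply_apply, map_mul, hb'] at h4
      exact h4
    obtain ⟨r0, s, hs⟩ := h.sur_pow K (w' * ρ.symm f)
    obtain ⟨x, hx⟩ := h.ker_pow K (v - t' * r0) (g t' * s) (by
      rw [map_sub, map_mul, h3]
      linear_combination (g t') * hs - (b * ρ.symm f) * hw' - (w' * ρ.symm f) * e1)
    exact ⟨r0 + r * x, by linear_combination hx + x * e2⟩
  · intro c
    obtain ⟨v, s, hv⟩ := h.sur_pow K (ρ.symm (cst I A c))
    refine ⟨v, ?_⟩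
    have h3 := congrArg ρ hv
    rw [ρ.apply_symm_apply, map_add, h2, mul_assoc, map_mul, hb] at h3
    have h4 := congrArg (ccI I A) h3
    rw [map_add, ccI_tauX_mul, add_zero, ccI_cst] at h4
    exact h4.symm

end

theorem rho_algebraMap (h : PolAut α) (a : A) :
    rho α h (algebraMap A (I → PowerSeries A) a) = algebraMap A (I → PowerSeries A) a :=
  psI_inj (by rw [psI_rho, psI_algebraMap, AlgEquiv.commutes])

theorem iso_sp {R S : Type} [CommRing R] [CommRing S] (e : R ≃+* S) :
    IsIso (spMap (e : R →+* S)) := by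
  refine ⟨spMap (e.symm : S →+* R), ?_, ?_⟩
  · rw [spMap_comp'']
    have h : (e : R →+* S).comp (e.symm : S →+* R) = RingHom.id S :=
      RingHom.ext fun x => e.apply_symm_apply x
    rw [h]
    exact Spec.map_id _
  · rw [spMap_comp'']
    have h : (e.symm : S →+* R).comp (e : R →+* S) = RingHom.id R :=
      RingHom.ext fun x => e.symm_apply_apply x
    rw [h]
    exact Spec.map_id _

theorem range_iso {X Y Z : Scheme.{0}} (f : X ⟶ Y) (g : Y ⟶ Z) [IsIso f] :
    Set.range (f ≫ g) = Set.range g := by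
  apply le_antisymm
  · rintro _ ⟨x, rfl⟩
    exact ⟨f x, (Scheme.Hom.comp_apply f g x).symm⟩
  · rintro _ ⟨y, rfl⟩
    refine ⟨inv f y, ?_⟩
    rw [← Scheme.Hom.comp_apply, IsIso.inv_hom_id_assoc]

/-- The automorphism of the rings. -/
noncomputable def resE (P : Subalgebra A (KK I A)) :
    P ≃+* P.map (α : KK I A →ₐ[A] KK I A) :=
  RingEquiv.ofBijective (rres (α : KK I A →+* KK I A)
    (P' := P.map (α : KK I A →ₐ[A] KK I A)) fun f hf => ⟨f, hf, rfl⟩) (by
    constructor
    · intro f g hfg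
      exact Subtype.ext (α.injective (congrArg Subtype.val hfg))
    · rintro ⟨_, f, hf, rfl⟩
      exact ⟨⟨f, hf⟩, rfl⟩)

end

end MAUx

open MAUx

theorem t_MAU : Stmt_MAU := by
  refine ⟨?_, ?_⟩
  · intro I A _ _ n P p x α hα M p' hp'
    have i1 : IsIso (spMap (rres (α : KK I A →+* KK I A)
      (P' := P.map (α : KK I A →ₐ[A] KK I A)) fun f hf => ⟨f, hf, rfl⟩)) := iso_sp (resE α P)
    have := M.jo
    obtain ⟨b, K, r1, r2, hb, hK, hr1, hr2⟩ := exists_b α hα
    have hs1 : Function.Surjective (ccI I A) := fun c => ⟨cst I A c, ccI_cst c⟩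
    have hs2 : Function.Surjective ((ccI I A).comp (rho α hα)) := fun c =>
      ⟨rho α.symm (PolAut.symm hα) (cst I A c), by rw [RingHom.comp_apply, rho_symm, ccI_cst]⟩
    have hz : Set.range (spMap ((ccI I A).comp (rho α hα))) = Set.range (spMap (ccI I A)) := by
      change Set.range (PrimeSpectrum.comap ((ccI I A).comp (rho α hα))) =
        Set.range (PrimeSpectrum.comap (ccI I A))
      rw [range_comap_of_surjective _ _ hs2, range_comap_of_surjective _ _ hs1]
      ext q
      rw [PrimeSpectrum.mem_zeroLocus, PrimeSpectrum.mem_zeroLocus]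
      constructor
      · intro h f hf
        obtain ⟨a, rfl⟩ := exists_X f hf
        have h1 : b ∈ q.asIdeal := h (by
          change ccI I A (rho α hα b) = 0
          rw [hb]
          exact ccI_X)
        have h2 : tauX I A ∈ q.asIdeal := q.isPrime.mem_of_pow_mem K (by
          rw [hr2]
          exact Ideal.mul_mem_right _ _ h1)
        exact Ideal.mul_mem_right _ _ h2
      · intro h f hf
        obtain ⟨a, ha⟩ := exists_X (rho α hα f) hf
        have h1 : tauX I A ∈ q.asIdeal := h ccI_X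
        have h2 : b ∈ q.asIdeal := q.isPrime.mem_of_pow_mem K (by
          rw [hr1]
          exact Ideal.mul_mem_right _ _ h1)
        have h3 : f = b * rho α.symm (PolAut.symm hα) a := by
          rw [← symm_rho α hα f, ha, map_mul, ← symm_rho α hα b, hb]
          rfl
        rw [h3]
        exact Ideal.mul_mem_right _ _ h2
    have e2 : Set.range (spMap (ccI I A) ≫ spMap (rho α hα) ≫ M.sh) =
        Set.range (spMap (ccI I A) ≫ M.sh) := by
      rw [← Category.assoc, spMap_comp'']
      apply le_antisymm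
      · rintro _ ⟨s, rfl⟩
        obtain ⟨s', hs'⟩ : spMap ((ccI I A).comp (rho α hα)) s ∈ Set.range (spMap (ccI I A)) := by
          rw [← hz]
          exact ⟨s, rfl⟩
        exact ⟨s', by rw [Scheme.Hom.comp_apply, Scheme.Hom.comp_apply, hs']⟩
      · rintro _ ⟨s, rfl⟩
        obtain ⟨s', hs'⟩ : spMap (ccI I A) s ∈ Set.range (spMap ((ccI I A).comp (rho α hα))) := by
          rw [hz]
          exact ⟨s, rfl⟩
        exact ⟨s', by rw [Scheme.Hom.comp_apply, Scheme.Hom.comp_apply, hs']⟩
    refine ⟨⟨spMap (rres (α : KK I A →+* KK I A)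
      (P' := P.map (α : KK I A →ₐ[A] KK I A)) fun f hf => ⟨f, hf, rfl⟩) ≫ M.j,
      inferInstance, ?_, spMap (rho α hα) ≫ M.sh, ?_, ?_, ?_, ?_, ?_, ?_⟩, ⟨rfl, ?_⟩⟩
    · rw [Category.assoc, M.jp, spMap_comp'']
      exact congrArg (fun f => spMap f) (RingHom.ext fun a => Subtype.ext (α.commutes a))
    · rw [Category.assoc, M.shp, spMap_comp'']
      exact congrArg (fun f => spMap f) (RingHom.ext fun a => rho_algebraMap α hα a)
    · rw [← Category.assoc, ← Category.assoc, spMap_comp'', spMap_comp'']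
      have e3 : (psI I A).comp (rho α hα) = (α : KK I A →+* KK I A).comp (psI I A) :=
        RingHom.ext fun f => psI_rho α hα f
      rw [e3, ← spMap_comp'', Category.assoc, M.cmp, ← Category.assoc, spMap_comp'']
      rfl
    · intro q
      rw [range_iso, e2]
      exact M.cov q
    · intro q
      rw [range_iso, e2]
      exact M.exc q
    · intro i
      rw [M.mrk i, ← Category.assoc, spMap_comp'']
      exact congrArg (fun f => spMap f ≫ M.j) (RingHom.ext fun f => (hp' i f).symm)
    · obtain ⟨V, t, le, hV, h1, h2, h3, h4, h5⟩ := M.loc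
      have hc : Crd (gm M.sh V le) t := ⟨h2, h3, h4, h5⟩
      obtain ⟨t', q, r, y, w, hw, et, hq, etq, ety⟩ := hc.exists_crd hr1 hr2
      have leV : x.X.basicOpen q ≤ V := x.X.basicOpen_le q
      have le1 : ⊤ ≤ M.sh ⁻¹ᵁ (x.X.basicOpen q) := le_basic M.sh le q hq
      have le' : ⊤ ≤ (spMap (rho α hα) ≫ M.sh) ⁻¹ᵁ (x.X.basicOpen q) := by
        intro s _
        have := le1 (x := spMap (rho α hα) s) trivial
        exact this
      have hloc := hV.isLocalization_basicOpen q
      have hgr : ∀ v : Γ(x.X, V), gm M.sh (x.X.basicOpen q) le1 (algebraMap _ _ v) =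
          gm M.sh V le v := fun v => by
        have h6 := gm_rs M.sh (RingHom.id _) M.sh (by
          have : spMap (RingHom.id (I → PowerSeries A)) = 𝟙 _ := Spec.map_id _
          rw [this, Category.id_comp]) leV le le1 v
        exact h6
      have hc1 := hc.loc q (gm M.sh (x.X.basicOpen q) le1) hgr
      obtain ⟨q', hq'⟩ := (IsLocalization.Away.algebraMap_isUnit
        (S := Γ(x.X, x.X.basicOpen q)) q).exists_right_inv
      have hc2 := hc1.chg (w := w) (r := algebraMap _ _ r * q')
        (t' := algebraMap Γ(x.X, V) Γ(x.X, x.X.basicOpen q) t') hr2 hw (by rw [hgr, et]) (by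
          have h6 := congrArg (algebraMap Γ(x.X, V) Γ(x.X, x.X.basicOpen q)) etq
          rw [map_mul, map_mul, map_pow] at h6
          rw [← mul_assoc, ← h6, mul_assoc, hq', mul_one]) (rhoE α hα) hb
      have hg : ∀ v, gm (spMap (rho α hα) ≫ M.sh) (x.X.basicOpen q) le' v =
          rho α hα (gm M.sh (x.X.basicOpen q) le1 v) :=
        fun v => gm_comp M.sh (rho α hα) _ rfl _ le1 le' v
      refine ⟨x.X.basicOpen q, algebraMap Γ(x.X, V) Γ(x.X, x.X.basicOpen q) t', le',
        hV.basicOpen q, ?_, hc2.nz, ?_, ?_, ?_⟩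
      · rw [range_iso]
        have h7 : x.X.basicOpen (algebraMap Γ(x.X, V) Γ(x.X, x.X.basicOpen q) t') =
            x.X.basicOpen q ⊓ x.X.basicOpen t' := Scheme.basicOpen_res _ _ _
        have h8 : x.X.basicOpen t ⊓ x.X.basicOpen q ≤ x.X.basicOpen t' := by
          rw [← x.X.basicOpen_pow t hK, ← x.X.basicOpen_mul, etq, x.X.basicOpen_mul]
          exact inf_le_left
        have h9 : x.X.basicOpen t' ≤ x.X.basicOpen t := by
          rw [← x.X.basicOpen_pow t' hK, ety, x.X.basicOpen_mul]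
          exact inf_le_left
        rw [h7]
        ext s
        constructor
        · intro hs
          have h10 : s ∈ (x.X.basicOpen t : Set x.X) := h9 hs.2
          rw [h1] at h10
          exact ⟨h10.1, hs.1⟩
        · intro hs
          have h10 : s ∈ (x.X.basicOpen t : Set x.X) := by
            rw [h1]
            exact ⟨hs.1, leV hs.2⟩
          exact ⟨hs.2, h8 ⟨h10, hs.2⟩⟩
      · obtain ⟨u, hu, h6⟩ := hc2.un
        exact ⟨u, hu, by rw [hg]; exact h6⟩
      · intro v hv
        rw [hg] at hv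
        exact hc2.ker v hv
      · intro c
        obtain ⟨v, hv⟩ := hc2.sur c
        exact ⟨v, by rw [hg]; exact hv⟩
    · exact ⟨rho α hα, psI_rho α hα, rfl⟩
  · intro I A B _ _ _ n P p P' p' x y φ a α β hα hβ hφ M M' q q' N N' hN hN' hM
    obtain ⟨ρ, hρ, hs⟩ := hN.sh
    obtain ⟨ρ', hρ', hs'⟩ := hN'.sh
    have hm : ∀ f ∈ P.map (α : KK I A →ₐ[A] KK I A),
        kmap φ f ∈ P'.map (β : KK I B →ₐ[B] KK I B) := by
      rintro _ ⟨f, hf, rfl⟩
      exact ⟨kmap φ f, hM.mem f hf, (hφ f).symm⟩
    refine ⟨hm, ?_, ?_⟩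
    · rw [hN'.j, Category.assoc, hM.j, ← Category.assoc, spMap_comp'', hN.j, ← Category.assoc,
        spMap_comp'']
      exact congrArg (fun f => spMap f ≫ M.j)
        (RingHom.ext fun f => Subtype.ext (hφ f).symm)
    · rw [hs', Category.assoc, hM.sh, ← Category.assoc, spMap_comp'', hs, ← Category.assoc,
        spMap_comp'']
      refine congrArg (fun f => spMap f ≫ M.sh) (RingHom.ext fun f => psI_inj ?_)
      rw [RingHom.comp_apply, RingHom.comp_apply, hρ', psI_psm, psI_psm, hρ, hφ]

end Pool.Agent.MG.KX
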