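import Pool.Agent.MG.KX.StmtsM
import Pool.Agent.MG.KX.DBC

/-!
# MCA: the canonical model of the curve of a Krichever ring
-/

open CategoryTheory CategoryTheory.Limits AlgebraicGeometry
open scoped TensorProduct

namespace Pool.Agent.MG.KX

open Pool.Agent.MG.G0 Pool.Agent.MG.GLU

namespace MCA

section geo

theorem mem_spMap {R S : Type} [CommRing R] [CommRing S] (f : R →+* S) (x : Sp S) (r : R) :
    r ∈ (spMap f x).asIdeal ↔ f r ∈ x.asIdeal := Iff.rfl

/-- Points of a basic open set. -/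
theorem mem_basic {A : Type} [CommRing A] {X : Scheme.{0}} (i : Sp A ⟶ X) (W : X.Opens)
    (h : ⊤ ≤ i ⁻¹ᵁ W) (v : Γ(X, W)) (y : Sp A) :
    i y ∈ X.basicOpen v ↔ gm i W h v ∉ y.asIdeal := by
  have h1 : (Sp A).basicOpen (i.appLE W ⊤ h v) = ⊤ ⊓ i ⁻¹ᵁ (X.basicOpen v) :=
    Scheme.basicOpen_appLE i ⊤ W h v
  have h2 : (i.appLE W ⊤ h).hom v =
      (Scheme.ΓSpecIso (CommRingCat.of A)).inv.hom (gm i W h v) := by
    change _ = (Scheme.ΓSpecIso (CommRingCat.of A)).inv.hom
      ((Scheme.ΓSpecIso (CommRingCat.of A)).hom.hom ((i.appLE W ⊤ h).hom v))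
    exact (ConcreteCategory.congr_hom (Scheme.ΓSpecIso (CommRingCat.of A)).hom_inv_id
      ((i.appLE W ⊤ h).hom v)).symm
  have h3 : (Sp A).basicOpen ((i.appLE W ⊤ h).hom v) = PrimeSpectrum.basicOpen (gm i W h v) := by
    rw [h2]
    exact basicOpen_eq_of_affine _
  have h4 : y ∈ (Sp A).basicOpen ((i.appLE W ⊤ h).hom v) ↔ i y ∈ X.basicOpen v := by
    have h5 : (Sp A).basicOpen ((i.appLE W ⊤ h).hom v) = ⊤ ⊓ i ⁻¹ᵁ (X.basicOpen v) := h1
    rw [h5, top_inf_eq]
    rfl
  rw [← h4, h3]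
  rfl

end geo

section ring

variable {I A : Type} [Fintype I] [CommRing A] {P : Subalgebra A (KK I A)} (z : Pole P)

theorem psI_inj {f g : I → PowerSeries A} (h : psI I A f = psI I A g) : f = g := by
  funext i
  exact psl_inj (congrFun h i)

theorem psI_rshI (f : Rw P z.z) : psI I A (rshI z.z f) = (f : KK I A) :=
  funext fun i => psl_rsh i f

theorem rshI_algebraMap (a : A) :
    rshI z.z (algebraMap A (Rw P z.z) a) = algebraMap A (I → PowerSeries A) a := by
  refine psI_inj ?_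
  rw [psI_rshI]
  funext i
  exact (HahnSeries.ofPowerSeries_C a).symm

theorem ccI_rshI (f : Rw P z.z) (i : I) : ccI I A (rshI z.z f) i = ((f : KK I A) i).coeff 0 := by
  rw [ccI_apply, ← PowerSeries.coeff_zero_eq_constantCoeff_apply, ← psI_rshI z f, psI_apply]
  exact (psl_coeff _ 0).symm

/-- The inverse of the pole as an element of the second chart. -/
noncomputable def ww : Rw P z.z := ⟨z.w, z.mem_Rw⟩

theorem cc_ww : ccI I A (rshI z.z (ww z)) = 0 := by
  funext i
  rw [ccI_rshI]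
  have := z.pos
  exact z.mem i 0 (by omega)

/-- The elements with constant term zero. -/
theorem mem_n {f : Rw P z.z} : ccI I A (rshI z.z f) = 0 ↔ (f : KK I A) ∈ Pol I A (-1) := by
  constructor
  · intro h i m hm
    rcases lt_or_eq_of_le (show m ≤ 0 by omega) with h1 | h1
    · exact f.2.2 i m (by omega)
    · rw [h1, ← ccI_rshI, h]
      rfl
  · intro h
    funext i
    rw [ccI_rshI]
    exact h i 0 (by omega)

theorem pow_n {f : KK I A} (hf : f ∈ Pol I A (-1)) (n : ℕ) : f ^ n ∈ Pol I A (-(n : ℤ)) := by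
  induction n with
  | zero =>
    rw [pow_zero, Nat.cast_zero, neg_zero]
    exact one_mem_Pol0
  | succ n ih =>
    have h := mul_mem_Pol ih hf
    rw [← pow_succ] at h
    exact Pol_mono (by push_cast; omega) h

/-- `𝔫^d ⊂ w R`. -/
theorem n_dvd {f : Rw P z.z} (hf : (f : KK I A) ∈ Pol I A (-1)) : ww z ∣ f ^ z.d := by
  have h1 : (z.z : KK I A) * (f : KK I A) ^ z.d ∈ Rw P z.z := by
    refine ⟨?_, ?_⟩
    · exact mul_mem (le_Rz P z.z z.z.2) (pow_mem f.2.1 _)
    · have h := mul_mem_Pol z.mon.1 (pow_n hf z.d)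
      rw [add_neg_cancel] at h
      exact h
  refine ⟨⟨_, h1⟩, Subtype.ext ?_⟩
  change (f : KK I A) ^ z.d = z.w * ((z.z : KK I A) * (f : KK I A) ^ z.d)
  rw [← mul_assoc, mul_comm z.w, z.zw, one_mul]

/-- The coordinate: `t = τ + ...` and `f = τ^(-1) + ...`. -/
theorem exists_tf (hden : (∀ (f : KK I A) (M : ℤ), ∃ r ∈ Rz P z.z, f - r ∈ Pol I A (-M)) ∧
      (∀ f ∈ Pol I A 0, ∀ M : ℤ, ∃ r ∈ Rw P z.z, f - r ∈ Pol I A (-M))) :
    ∃ (t : Rw P z.z) (f : KK I A) (h : Rw P z.z), f ∈ Rz P z.z ∧ f ∈ Pol I A 1 ∧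
      (h : KK I A) = f * (t : KK I A) ∧ (t : KK I A) ∈ Pol I A (-1) ∧
      (∀ i, ((t : KK I A) i).coeff 1 = 1) ∧ ccI I A (rshI z.z h) = 1 := by
  have ht1 : (fun _ => HahnSeries.single (1 : ℤ) (1 : A) : KK I A) ∈ Pol I A 0 := by
    intro j l hl
    rw [HahnSeries.coeff_single_of_ne (by omega)]
  obtain ⟨t', ht', ht2⟩ := hden.2 _ ht1 2
  obtain ⟨f, hf, hf2⟩ := hden.1 (fun _ => HahnSeries.single (-1 : ℤ) (1 : A) : KK I A) 0
  have h0 : t' ∈ Pol I A (-1) := by
    intro i m hm
    have h := ht2 i m (by omega)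
    rw [Pi.sub_apply, HahnSeries.coeff_sub, HahnSeries.coeff_single_of_ne (by omega), zero_sub,
      neg_eq_zero] at h
    exact h
  have h1 : ∀ i, (t' i).coeff 1 = 1 := by
    intro i
    have h := ht2 i 1 (by omega)
    rw [Pi.sub_apply, HahnSeries.coeff_sub, HahnSeries.coeff_single_same, sub_eq_zero] at h
    exact h.symm
  have h3 : f ∈ Pol I A 1 := by
    intro i m hm
    have h := hf2 i m (by omega)
    rw [Pi.sub_apply, HahnSeries.coeff_sub, HahnSeries.coeff_single_of_ne (by omega), zero_sub,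
      neg_eq_zero] at h
    exact h
  have h4 : ∀ i, (f i).coeff (-1) = 1 := by
    intro i
    have h := hf2 i (-1) (by omega)
    rw [Pi.sub_apply, HahnSeries.coeff_sub, HahnSeries.coeff_single_same, sub_eq_zero] at h
    exact h.symm
  have h5 : f * t' ∈ Rw P z.z := by
    refine ⟨mul_mem hf ht'.1, ?_⟩
    have h := mul_mem_Pol h3 h0
    rw [add_neg_cancel] at h
    exact h
  refine ⟨⟨t', ht'⟩, f, ⟨_, h5⟩, hf, h3, rfl, h0, h1, ?_⟩
  funext i
  rw [ccI_rshI]
  change ((f * t') i).coeff 0 = 1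
  have h6 := mul_Pol_lead h3 h0 i
  rw [add_neg_cancel, neg_zero, h4, neg_neg, h1, one_mul] at h6
  exact h6

/-- A family of power series with constant coefficients one is a unit. -/
theorem unit_I {s : I → PowerSeries A} (h : ccI I A s = 1) : IsUnit s := by
  rw [Pi.isUnit_iff]
  intro i
  rw [PowerSeries.isUnit_iff_constantCoeff]
  have h1 : PowerSeries.constantCoeff (s i) = 1 := congrFun h i
  rw [h1]
  exact isUnit_one

end ring

section model

variable {I A : Type} [Fintype I] [CommRing A] {P : Subalgebra A (KK I A)} (z : Pole P) {n : ℕ}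
  (p : Fin n → (P →ₐ[A] A))

/-- The range of the first chart in the second chart. -/
theorem range_in1 (y : Sp (Rw P z.z)) :
    xin2 z p y ∈ Set.range (xin z p) ↔ ww z ∉ y.asIdeal := by
  constructor
  · rintro ⟨x, hx⟩
    obtain ⟨q, -, hq⟩ := (kDuo z).meet x y hx
    exact (DBC.range2 (kDuo z) y).1 ⟨q, hq⟩
  · intro hy
    obtain ⟨q, hq⟩ := (DBC.range2 (kDuo z) y).2 hy
    refine ⟨spMap ((kDuo z).j1 : (kDuo z).R1 →+* (kDuo z).R12) q, ?_⟩
    have h1 : (kDuo z).in1 (spMap ((kDuo z).j1 : (kDuo z).R1 →+* (kDuo z).R12) q) =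
        (kDuo z).in2 (spMap ((kDuo z).j2 : (kDuo z).R2 →+* (kDuo z).R12) q) := by
      rw [← Scheme.Hom.comp_apply, ← Scheme.Hom.comp_apply, (kDuo z).cond]
    rw [hq] at h1
    exact h1

omit [Fintype I] in
theorem cmp_gen (D : Duo A) {S T : Type} [CommRing S] [CommRing T] (r2 : D.R2 →+* S)
    (ψ : S →+* T) (r12 : D.R12 →+* T) (r1 : D.R1 →+* T) (h1 : ∀ x, ψ (r2 x) = r12 (D.j2 x))
    (h2 : ∀ x, r1 x = r12 (D.j1 x)) : spMap ψ ≫ (spMap r2 ≫ D.in2) = spMap r1 ≫ D.in1 := by
  have e1 : ψ.comp r2 = r12.comp (D.j2 : D.R2 →+* D.R12) := RingHom.ext h1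
  have e2 : r1 = r12.comp (D.j1 : D.R1 →+* D.R12) := RingHom.ext h2
  rw [← Category.assoc, spMap_comp'', e1, e2, ← spMap_comp'', ← spMap_comp'', Category.assoc,
    Category.assoc, D.cond]

omit [Fintype I] in
theorem shp_gen (D : Duo A) {S : Type} [CommRing S] (r2 : D.R2 →+* S) :
    (spMap r2 ≫ D.in2) ≫ D.pr = spMap (r2.comp (algebraMap A D.R2)) := by
  rw [Category.assoc, D.in2_pr, spMap_comp'']

theorem cmp' : spMap (psI I A) ≫ xshI z p = spMap (P.val : P →+* KK I A) ≫ xin z p :=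
  cmp_gen (kDuo z) (rshI z.z) (psI I A) ((Rz P z.z).val : Rz P z.z →+* KK I A)
    (P.val : P →+* KK I A) (fun x => psI_rshI z x) (fun _ => rfl)

theorem shp' : xshI z p ≫ (xfam z p).π = spMap (algebraMap A (I → PowerSeries A)) := by
  have h2 : (rshI z.z).comp (algebraMap A (Rw P z.z)) = algebraMap A (I → PowerSeries A) :=
    RingHom.ext fun a => rshI_algebraMap z a
  rw [← h2]
  exact shp_gen (kDuo z) (rshI z.z)

theorem surj_cc (hden : ∀ (f : I → PowerSeries A) (M : ℕ), ∃ r : Rw P z.z, ∀ i, ∀ m < M,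
      PowerSeries.coeff m (rsh z.z i r) = PowerSeries.coeff m (f i)) (c : I → A) :
    ∃ r : Rw P z.z, ccI I A (rshI z.z r) = c := by
  obtain ⟨r, hr⟩ := hden (fun i => PowerSeries.C (c i)) 1
  refine ⟨r, funext fun i => ?_⟩
  have h := hr i 0 Nat.zero_lt_one
  rw [PowerSeries.coeff_zero_eq_constantCoeff_apply,
    PowerSeries.coeff_zero_eq_constantCoeff_apply, PowerSeries.constantCoeff_C] at h
  exact h

theorem cov' (hden : ∀ (f : I → PowerSeries A) (M : ℕ), ∃ r : Rw P z.z, ∀ i, ∀ m < M,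
      PowerSeries.coeff m (rsh z.z i r) = PowerSeries.coeff m (f i)) (q : (xfam z p).X) :
    q ∈ Set.range (xin z p) ∨ q ∈ Set.range (spMap (ccI I A) ≫ xshI z p) := by
  rcases (kDuo z).cov q with h | ⟨y, rfl⟩
  · exact Or.inl h
  · by_cases hw : ww z ∈ y.asIdeal
    · right
      have hsur : Function.Surjective ((ccI I A).comp (rshI z.z)) := surj_cc z hden
      have hker : y ∈ PrimeSpectrum.zeroLocus
          (RingHom.ker ((ccI I A).comp (rshI z.z)) : Set (Rw P z.z)) := by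
        intro f hf
        have h1 : (f : KK I A) ∈ Pol I A (-1) := (mem_n z).1 hf
        obtain ⟨g, hg⟩ := n_dvd z h1
        have h2 : f ^ z.d ∈ y.asIdeal := by
          rw [hg]
          exact y.asIdeal.mul_mem_right _ hw
        exact y.isPrime.mem_of_pow_mem _ h2
      rw [← range_comap_of_surjective _ _ hsur] at hker
      obtain ⟨x, hx⟩ := hker
      let x' : Sp (I → A) := x
      refine ⟨x', ?_⟩
      have h3 : spMap (rshI z.z) (spMap (ccI I A) x') = y := by
        rw [← Scheme.Hom.comp_apply, spMap_comp'']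
        exact hx
      have h4 : (spMap (ccI I A) ≫ xshI z p) x' =
          (kDuo z).in2 (spMap (rshI z.z) (spMap (ccI I A) x')) := by
        rw [Scheme.Hom.comp_apply]
        exact Scheme.Hom.comp_apply _ _ _
      rw [h4, h3]
    · left
      exact (range_in1 z p y).2 hw

theorem exc' (q : (xfam z p).X) (hq : q ∈ Set.range (xin z p)) :
    q ∉ Set.range (spMap (ccI I A) ≫ xshI z p) := by
  rintro ⟨x, hx⟩
  have h4 : (spMap (ccI I A) ≫ xshI z p) x =
      xin2 z p (spMap (rshI z.z) (spMap (ccI I A) x)) := by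
    rw [Scheme.Hom.comp_apply]
    exact Scheme.Hom.comp_apply _ _ _
  rw [← hx, h4, range_in1] at hq
  apply hq
  rw [mem_spMap, mem_spMap, cc_ww]
  exact x.asIdeal.zero_mem

end model

section loc

variable {I A : Type} [Fintype I] [CommRing A] {P : Subalgebra A (KK I A)} (z : Pole P) {n : ℕ}
  (p : Fin n → (P →ₐ[A] A)) (t : Rw P z.z) (f : KK I A) (h : Rw P z.z) (hf : f ∈ Rz P z.z)
  (hf1 : f ∈ Pol I A 1) (hh : (h : KK I A) = f * (t : KK I A)) (ht : (t : KK I A) ∈ Pol I A (-1))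
  (ht1 : ∀ i, ((t : KK I A) i).coeff 1 = 1) (hc : ccI I A (rshI z.z h) = 1)

include hf hf1 hh in
/-- `h s = t (f s)`. -/
theorem t_dvd {s : Rw P z.z} (hs : (s : KK I A) ∈ Pol I A (-1)) : ∃ r, h * s = t * r := by
  have h1 : f * (s : KK I A) ∈ Rw P z.z := by
    refine ⟨mul_mem hf s.2.1, ?_⟩
    have h := mul_mem_Pol hf1 hs
    rw [add_neg_cancel] at h
    exact h
  refine ⟨⟨_, h1⟩, Subtype.ext ?_⟩
  change (h : KK I A) * (s : KK I A) = (t : KK I A) * (f * (s : KK I A))
  rw [hh]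
  ring

include hh hc in
theorem unit_h : IsUnit (h : KK I A) ∧ IsUnit (t : KK I A) := by
  have h1 : IsUnit (h : KK I A) := by
    rw [← psI_rshI z h]
    exact (unit_I hc).map (psI I A)
  refine ⟨h1, ?_⟩
  rw [hh] at h1
  exact isUnit_of_mul_isUnit_right h1

include ht hf hf1 hh in
/-- `D(t) = D(w)` on `D(h)`. -/
theorem t_w (y : Sp (Rw P z.z)) (hy : h ∉ y.asIdeal) : t ∈ y.asIdeal ↔ ww z ∈ y.asIdeal := by
  constructor
  · intro h1
    obtain ⟨r, hr⟩ := t_dvd z t f h hf hf1 hh (s := ww z) ((mem_n z).1 (cc_ww z))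
    have h2 : h * ww z ∈ y.asIdeal := by
      rw [hr]
      exact y.asIdeal.mul_mem_right _ h1
    exact (y.isPrime.mem_or_mem h2).resolve_left hy
  · intro h1
    obtain ⟨g, hg⟩ := n_dvd z ht
    have h2 : t ^ z.d ∈ y.asIdeal := by
      rw [hg]
      exact y.asIdeal.mul_mem_right _ h1
    exact y.isPrime.mem_of_pow_mem _ h2

/-- The chart `D(h)`. -/
noncomputable def ii : Sp (Localization.Away h) ⟶ (xfam z p).X :=
  spMap (algebraMap (Rw P z.z) (Localization.Away h)) ≫ xin2 z p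

instance : IsOpenImmersion (ii z p h) := by
  unfold ii
  infer_instance

/-- The expansion of functions on `D(h)`. -/
noncomputable def th : Localization.Away h →+* (I → PowerSeries A) :=
  IsLocalization.Away.lift h (g := rshI z.z) (unit_I hc)

theorem th_alg (v : Rw P z.z) :
    th z h hc (algebraMap (Rw P z.z) (Localization.Away h) v) = rshI z.z v :=
  IsLocalization.Away.lift_eq _ _ _

theorem sh_eq : xshI z p = spMap (th z h hc) ≫ ii z p h := by
  have h1 : (th z h hc).comp (algebraMap (Rw P z.z) (Localization.Away h)) = rshI z.z :=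
    RingHom.ext fun v => th_alg z h hc v
  rw [ii, ← Category.assoc, spMap_comp'', h1]
  rfl

include hf hf1 hh ht ht1 hc in
theorem loc' (hden : ∀ (f : I → PowerSeries A) (M : ℕ), ∃ r : Rw P z.z, ∀ i, ∀ m < M,
      PowerSeries.coeff m (rsh z.z i r) = PowerSeries.coeff m (f i)) :
    ∃ (V : (xfam z p).X.Opens) (t : Γ((xfam z p).X, V)) (le : ⊤ ≤ xshI z p ⁻¹ᵁ V),
      IsAffineOpen V ∧
      ((xfam z p).X.basicOpen t : Set (xfam z p).X) = Set.range (xin z p) ∩ V ∧
      (∀ v, t * v = 0 → v = 0) ∧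
      (∃ u : I → PowerSeries A, IsUnit u ∧
        gm (xshI z p) V le t = (fun _ => PowerSeries.X) * u) ∧
      (∀ v, ccI I A (gm (xshI z p) V le v) = 0 → ∃ r, v = t * r) ∧
      ∀ c : I → A, ∃ v, ccI I A (gm (xshI z p) V le v) = c := by
  let L := Localization.Away h
  let i : Sp L ⟶ (xfam z p).X := ii z p h
  let V : (xfam z p).X.Opens := i.opensRange
  have le' : ⊤ ≤ i ⁻¹ᵁ V := fun y _ => ⟨y, rfl⟩
  have le : ⊤ ≤ xshI z p ⁻¹ᵁ V := by
    intro y _
    refine ⟨spMap (th z h hc) y, ?_⟩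
    change ii z p h (spMap (th z h hc) y) = xshI z p y
    rw [sh_eq z p h hc, Scheme.Hom.comp_apply]
  have hb : Function.Bijective (gm i V le') := gm_bij i V le' rfl
  have hg : ∀ v, gm (xshI z p) V le v = th z h hc (gm i V le' v) :=
    fun v => gm_comp i (th z h hc) (xshI z p) (sh_eq z p h hc) V le' le v
  obtain ⟨t', ht'⟩ := hb.2 (algebraMap (Rw P z.z) L t)
  have hu : IsUnit (algebraMap (Rw P z.z) L h) :=
    IsLocalization.Away.algebraMap_isUnit (S := L) h
  have hun := unit_h z t f h hh hc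
  refine ⟨V, t', le, isAffineOpen_opensRange i, ?_, ?_, ?_, ?_, ?_⟩
  · ext x
    constructor
    · intro hx
      have hxV : x ∈ V := (xfam z p).X.basicOpen_le t' hx
      refine ⟨?_, hxV⟩
      obtain ⟨y, rfl⟩ := hxV
      have h1 : gm i V le' t' ∉ y.asIdeal := (mem_basic i V le' t' y).1 hx
      rw [ht'] at h1
      have h2 : i y = xin2 z p (spMap (algebraMap (Rw P z.z) L) y) := Scheme.Hom.comp_apply _ _ _
      rw [h2, range_in1]
      rw [← t_w z t f h hf hf1 hh ht (spMap (algebraMap (Rw P z.z) L) y)]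
      · exact h1
      · intro h3
        exact y.isPrime.ne_top (Ideal.eq_top_of_isUnit_mem _ h3 hu)
    · rintro ⟨hx, y, rfl⟩
      have h2 : i y = xin2 z p (spMap (algebraMap (Rw P z.z) L) y) := Scheme.Hom.comp_apply _ _ _
      rw [h2, range_in1] at hx
      refine (mem_basic i V le' t' y).2 ?_
      rw [ht']
      intro h1
      apply hx
      rw [← t_w z t f h hf hf1 hh ht (spMap (algebraMap (Rw P z.z) L) y)]
      · exact h1
      · intro h3
        exact y.isPrime.ne_top (Ideal.eq_top_of_isUnit_mem _ h3 hu)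
  · intro v hv
    apply hb.1
    rw [map_zero]
    have h1 := congrArg (gm i V le') hv
    rw [map_mul, ht', map_zero] at h1
    obtain ⟨m, a, ha⟩ := IsLocalization.Away.surj (S := L) h (gm i V le' v)
    have h2 : algebraMap (Rw P z.z) L (t * a) = 0 := by
      rw [map_mul, ← ha, ← mul_assoc, h1, zero_mul]
    rw [IsLocalization.map_eq_zero_iff (Submonoid.powers h)] at h2
    obtain ⟨⟨_, k, rfl⟩, hk⟩ := h2
    have h3 : (h : KK I A) ^ k * ((t : KK I A) * (a : KK I A)) = 0 :=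
      congrArg Subtype.val hk
    have h4 : (a : KK I A) = 0 := by
      have h5 := (hun.1.pow k).mul_left_cancel (h3.trans (mul_zero _).symm)
      exact hun.2.mul_left_cancel (h5.trans (mul_zero _).symm)
    have h5 : a = 0 := Subtype.ext h4
    rw [h5, map_zero] at ha
    have h6 : IsUnit (algebraMap (Rw P z.z) L h ^ m) := hu.pow m
    exact h6.mul_right_cancel (ha.trans (zero_mul _).symm)
  · have h1 : ∀ j, PowerSeries.X ∣ rshI z.z t j := by
      intro j
      rw [PowerSeries.X_dvd_iff]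
      exact congrFun ((mem_n z).2 ht) j
    choose u hu' using h1
    refine ⟨u, ?_, ?_⟩
    · refine unit_I (funext fun j => ?_)
      have h2 : PowerSeries.coeff 1 (rshI z.z t j) = 1 := by
        rw [← psl_coeff, Nat.cast_one, ← ht1 j, ← psI_rshI z t]
        rfl
      rw [hu' j] at h2
      have h3 : PowerSeries.coeff (0 + 1) (PowerSeries.X * u j) = PowerSeries.coeff 0 (u j) :=
        PowerSeries.coeff_succ_X_mul 0 (u j)
      rw [zero_add, h2, PowerSeries.coeff_zero_eq_constantCoeff_apply] at h3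
      exact h3.symm
    · rw [hg, ht', th_alg]
      funext j
      exact hu' j
  · intro v hv
    rw [hg] at hv
    obtain ⟨m, a, ha⟩ := IsLocalization.Away.surj (S := L) h (gm i V le' v)
    have h1 : ccI I A (rshI z.z a) = 0 := by
      rw [← th_alg z h hc a, ← ha, map_mul, map_mul, hv, zero_mul]
    obtain ⟨r, hr⟩ := t_dvd z t f h hf hf1 hh ((mem_n z).1 h1)
    have h6 : IsUnit (algebraMap (Rw P z.z) L h ^ (m + 1)) := hu.pow (m + 1)
    obtain ⟨b, hb'⟩ := h6.exists_right_inv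
    obtain ⟨r', hr'⟩ := hb.2 (algebraMap (Rw P z.z) L r * b)
    refine ⟨r', hb.1 ?_⟩
    rw [map_mul, ht', hr', ← mul_assoc, ← map_mul, ← hr, map_mul, ← ha]
    calc gm i V le' v = gm i V le' v * (algebraMap (Rw P z.z) L h ^ (m + 1) * b) := by
          rw [hb', mul_one]
      _ = _ := by rw [pow_succ]; ring
  · intro c
    obtain ⟨r, hr⟩ := surj_cc z hden c
    obtain ⟨v, hv⟩ := hb.2 (algebraMap (Rw P z.z) L r)
    exact ⟨v, by rw [hg, hv, th_alg, hr]⟩

end loc

end MCA

theorem t_MCA (hDEN : Stmt_DEN) : Stmt_MCA := by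
  intro I A _ _ _ g n P hP z p
  obtain ⟨d1, d2, d3⟩ := hDEN hP z
  obtain ⟨t, f, h, hf, hf1, hh, ht, ht1, hc⟩ := MCA.exists_tf z ⟨d1, d2⟩
  exact ⟨{  j := xin z p
            jo := inferInstance
            jp := (kDuo z).in1_pr
            sh := xshI z p
            shp := MCA.shp' z p
            cmp := MCA.cmp' z p
            cov := MCA.cov' z p d3
            exc := MCA.exc' z p
            mrk := fun i => rfl
            loc := MCA.loc' z p t f h hf hf1 hh ht ht1 hc d3 }, ⟨rfl, rfl⟩⟩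

end Pool.Agent.MG.KX
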