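import Pool.Agent.MG.KX.StmtsM
import Pool.Agent.MG.AFF
import Pool.Agent.MG.NOD
import Pool.Agent.MG.GLUM

/-!
# MFG: the model with fewer punctures
-/

open CategoryTheory CategoryTheory.Limits AlgebraicGeometry TopologicalSpace

namespace Pool.Agent.MG.KX

open Pool.Agent.MG.G0 Pool.Agent.MG.GLU

namespace MFG

/-! ## Basic open sets -/

section basic

variable {X : Scheme.{0}}

theorem pt_mem {R : Type} [CommRing R] (f : Sp R ⟶ X) (W : X.Opens)
    (h : ⊤ ≤ f ⁻¹ᵁ W) (g : Γ(X, W)) (s : Sp R) :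
    f s ∈ X.basicOpen g ↔ gm f W h g ∉ s.asIdeal := by
  have h1 := Scheme.basicOpen_appLE f ⊤ W h g
  rw [top_inf_eq] at h1
  have h2 := basicOpen_eq_of_affine' (f.appLE W ⊤ h g)
  have h3 : f s ∈ X.basicOpen g ↔ s ∈ f ⁻¹ᵁ X.basicOpen g := Iff.rfl
  rw [h3, ← h1, h2]
  rfl

theorem pre_comp {R R' : Type} [CommRing R] [CommRing R'] {f : Sp R ⟶ X} {W : X.Opens}
    (h : ⊤ ≤ f ⁻¹ᵁ W) (g : Sp R' ⟶ Sp R) : ⊤ ≤ (g ≫ f) ⁻¹ᵁ W := by
  intro s _
  change (g ≫ f) s ∈ W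
  rw [Scheme.Hom.comp_apply]
  exact h (show g s ∈ (⊤ : (Sp R).Opens) from trivial)

theorem le_basic {R : Type} [CommRing R] (f : Sp R ⟶ X) (W : X.Opens)
    (h : ⊤ ≤ f ⁻¹ᵁ W) (g : Γ(X, W)) (hg : IsUnit (gm f W h g)) : ⊤ ≤ f ⁻¹ᵁ X.basicOpen g := by
  intro s _
  change f s ∈ X.basicOpen g
  rw [pt_mem f W h]
  exact fun hs => s.isPrime.ne_top (Ideal.eq_top_of_isUnit_mem _ hs hg)

theorem loc_surj {V D : X.Opens} (hV : IsAffineOpen V) (h : Γ(X, V))
    (hD : D = X.basicOpen h) (le : D ≤ V) (u : Γ(X, D)) :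
    ∃ (n : ℕ) (r : Γ(X, V)), u * rs X le h ^ n = rs X le r := by
  have hloc := hV.isLocalization_of_eq_basicOpen (f := h) (homOfLE le) hD
  let _ : Algebra Γ(X, V) Γ(X, D) := (rs X le).toAlgebra
  have hloc' : IsLocalization.Away h Γ(X, D) := hloc
  exact IsLocalization.Away.surj h u

theorem loc_inj {V D : X.Opens} (hV : IsAffineOpen V) (h : Γ(X, V))
    (hD : D = X.basicOpen h) (le : D ≤ V) (a : Γ(X, V)) (ha : rs X le a = 0) :
    ∃ n : ℕ, h ^ n * a = 0 := by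
  have hloc := hV.isLocalization_of_eq_basicOpen (f := h) (homOfLE le) hD
  let _ : Algebra Γ(X, V) Γ(X, D) := (rs X le).toAlgebra
  have hloc' : IsLocalization.Away h Γ(X, D) := hloc
  obtain ⟨⟨_, n, rfl⟩, hn⟩ := (IsLocalization.map_eq_zero_iff (Submonoid.powers h) Γ(X, D) a).1 ha
  exact ⟨n, hn⟩

theorem loc_unit {V D : X.Opens} (h : Γ(X, V)) (hD : D = X.basicOpen h) (le : D ≤ V) :
    IsUnit (rs X le h) := by
  subst hD
  exact X.toRingedSpace.isUnit_res_basicOpen h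

/-- A regular element stays regular on basic open sets. -/
theorem nzd {V D : X.Opens} (hV : IsAffineOpen V) (h : Γ(X, V)) (hD : D = X.basicOpen h)
    (le : D ≤ V) (t : Γ(X, V)) (ht : ∀ v, t * v = 0 → v = 0) (b : Γ(X, D))
    (hb : rs X le t * b = 0) : b = 0 := by
  obtain ⟨n, r, hr⟩ := loc_surj hV h hD le b
  have h1 : rs X le (t * r) = 0 := by
    rw [map_mul, ← hr, ← mul_assoc, hb, zero_mul]
  obtain ⟨m, hm⟩ := loc_inj hV h hD le _ h1
  have h2 : h ^ m * r = 0 := ht _ (by rw [← hm]; ring)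
  have h3 : rs X le h ^ m * (b * rs X le h ^ n) = 0 := by
    rw [hr, ← map_pow, ← map_mul, h2, map_zero]
  have hu := loc_unit h hD le
  have h4 : b * (rs X le h ^ m * rs X le h ^ n) = 0 := by rw [← h3]; ring
  exact ((hu.pow m).mul (hu.pow n)).mul_left_eq_zero.1 h4

theorem nzd_pow {V : X.Opens} {t : Γ(X, V)} (ht : ∀ v, t * v = 0 → v = 0) (n : ℕ) (v : Γ(X, V))
    (h : t ^ n * v = 0) : v = 0 := by
  induction n with
  | zero => rwa [pow_zero, one_mul] at h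
  | succ n ih =>
    refine ih (ht _ ?_)
    rw [← mul_assoc, ← pow_succ', h]

theorem eq2 {U V W : X.Opens} (h1 : U ≤ W) (h2 : V ≤ W) (hc : W ≤ U ⊔ V) (a b : Γ(X, W))
    (ha : rs X h1 a = rs X h1 b) (hb : rs X h2 a = rs X h2 b) : a = b :=
  X.sheaf.eq_of_locally_eq₂ (homOfLE h1) (homOfLE h2) hc a b ha hb

end basic

/-! ## Power series -/

theorem X_cancel {I A : Type} [CommRing A] {a b : I → PowerSeries A}
    (h : (fun _ => PowerSeries.X) * a = (fun _ => PowerSeries.X) * b) : a = b := by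
  funext i
  exact PowerSeries.X_mul_cancel (congrFun h i)

theorem unit_of {I A : Type} [CommRing A] {a : I → PowerSeries A} (h : ccI I A a = 1) :
    IsUnit a := by
  rw [Pi.isUnit_iff]
  intro i
  rw [PowerSeries.isUnit_iff_constantCoeff]
  have := congrFun h i
  rw [ccI_apply] at this
  rw [this]
  exact isUnit_one

theorem psl_X_unit {A : Type} [CommRing A] : IsUnit (psl A PowerSeries.X) := by
  have h : psl A PowerSeries.X = HahnSeries.single 1 1 := HahnSeries.ofPowerSeries_X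
  rw [h]
  refine IsUnit.of_mul_eq_one (HahnSeries.single (-1) 1) ?_
  rw [HahnSeries.single_mul_single]
  simp

theorem psI_inj {I A : Type} [CommRing A] {a b : I → PowerSeries A} (h : psI I A a = psI I A b) :
    a = b := by
  funext i
  exact psl_inj (congrFun h i)

/-- Division by powers of `t`. -/
theorem exp_div {I A R : Type} [CommRing A] [CommRing R] (γ : R →+* (I → PowerSeries A)) (t : R)
    (u : I → PowerSeries A) (hu : IsUnit u) (ht : γ t = (fun _ => PowerSeries.X) * u)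
    (hk : ∀ v, ccI I A (γ v) = 0 → ∃ r, v = t * r) (n : ℕ) (v : R) (y : I → PowerSeries A)
    (hy : γ v = (fun _ => PowerSeries.X) ^ n * y) : ∃ r, v = t ^ n * r := by
  induction n generalizing v y with
  | zero => exact ⟨v, by rw [pow_zero, one_mul]⟩
  | succ n ih =>
    obtain ⟨r, rfl⟩ := hk v (by
      rw [hy]
      funext i
      rw [ccI_apply, pow_succ', Pi.mul_apply, Pi.mul_apply, map_mul, map_mul,
        PowerSeries.constantCoeff_X, zero_mul, zero_mul]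
      rfl)
    obtain ⟨w, hw⟩ := hu.exists_right_inv
    rw [map_mul, ht] at hy
    have h1 : u * γ r = (fun _ => PowerSeries.X) ^ n * y := by
      apply X_cancel
      rw [← mul_assoc, hy, pow_succ']
      ring
    obtain ⟨r', hr'⟩ := ih r (w * y) (by
      calc γ r = (u * w) * γ r := by rw [hw, one_mul]
        _ = w * (u * γ r) := by ring
        _ = (fun _ => PowerSeries.X) ^ n * (w * y) := by rw [h1]; ring)
    exact ⟨r', by rw [hr', pow_succ']; ring⟩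

/-! ## The punctures -/

/-- The idempotent of `J`. -/
def eJ (I J A : Type) [CommRing A] : I ⊕ J → A := Sum.elim (fun _ => 0) fun _ => 1

/-- The idempotent of `I`. -/
def eI (I J A : Type) [CommRing A] : I ⊕ J → A := Sum.elim (fun _ => 1) fun _ => 0

theorem eI_mul_eJ (I J A : Type) [CommRing A] : eI I J A * eJ I J A = 0 := by
  funext k
  rcases k with i | j
  · exact mul_zero _
  · exact zero_mul _

theorem mem_range_inl {I J A : Type} [CommRing A] (s : Sp (I ⊕ J → A))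
    (h : eJ I J A ∈ s.asIdeal) :
    s ∈ Set.range (spMap (idx (R := A) (Sum.inl : I → I ⊕ J))) := by
  have hsur : Function.Surjective (idx (R := A) (Sum.inl : I → I ⊕ J)) := fun f =>
    ⟨Sum.elim f fun _ => 0, rfl⟩
  have h1 := range_comap_of_surjective _ _ hsur
  suffices h3 : (s : PrimeSpectrum (I ⊕ J → A)) ∈ PrimeSpectrum.zeroLocus
      (RingHom.ker (idx (R := A) (Sum.inl : I → I ⊕ J)) : Set (I ⊕ J → A)) by
    rw [← h1] at h3
    exact h3
  intro f hf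
  have h2 : f = f * eJ I J A := by
    funext k
    rcases k with i | j
    · have h3 : f (Sum.inl i) = 0 := congrFun (show idx Sum.inl f = 0 from hf) i
      rw [Pi.mul_apply, h3, zero_mul]
    · rw [Pi.mul_apply]
      exact (mul_one _).symm
  rw [h2]
  exact s.asIdeal.mul_mem_left _ h

section main

attribute [local instance] Mod.jo

variable {I J A : Type} [CommRing A] {n : ℕ}
    {W : Subalgebra A (KK (I ⊕ J) A)} {q : Fin n → (W →ₐ[A] A)} {x : Fam n A} (M : Mod x W q)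

theorem sec_comp : spMap (ccI I A) ≫ spMap (idx Sum.inl) ≫ M.sh =
    spMap (idx Sum.inl) ≫ spMap (ccI (I ⊕ J) A) ≫ M.sh := by
  rw [← Category.assoc, ← Category.assoc, spMap_comp'', spMap_comp'']
  rfl

theorem mem_sec (V : x.X.Opens) (le : ⊤ ≤ M.sh ⁻¹ᵁ V) (g : Γ(x.X, V)) (s : Sp (I ⊕ J → A)) :
    (spMap (ccI (I ⊕ J) A) ≫ M.sh) s ∈ x.X.basicOpen g ↔
      ccI (I ⊕ J) A (gm M.sh V le g) ∉ s.asIdeal := by
  have h : ⊤ ≤ (spMap (ccI (I ⊕ J) A) ≫ M.sh) ⁻¹ᵁ V := pre_comp le _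
  rw [pt_mem _ V h, gm_comp M.sh (ccI (I ⊕ J) A) _ rfl V le h]

variable {M} {U : x.X.Opens}
  (hs : ∀ s, s ∈ U ↔ s ∉ Set.range (spMap (ccI I A) ≫ spMap (idx Sum.inl) ≫ M.sh))

include hs

/-- The complement of the punctures is contained in the complement of the punctures `I`. -/
theorem range_le : M.j.opensRange ≤ U := by
  intro s hsj
  rw [hs, sec_comp]
  rintro ⟨a, ha⟩
  rw [Scheme.Hom.comp_apply] at ha
  exact M.exc _ hsj ⟨_, ha⟩

/-- The points of `U`. -/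
theorem pts {s : x.X} (h : s ∈ U) : s ∈ Set.range M.j ∨
    ∃ s0 : Sp (I ⊕ J → A), eJ I J A ∉ s0.asIdeal ∧ s = (spMap (ccI (I ⊕ J) A) ≫ M.sh) s0 := by
  rcases M.cov s with h1 | ⟨s0, rfl⟩
  · exact Or.inl h1
  · refine Or.inr ⟨s0, fun hc => ?_, rfl⟩
    rw [hs, sec_comp] at h
    obtain ⟨s1, hs1⟩ := mem_range_inl s0 hc
    apply h
    refine ⟨s1, ?_⟩
    rw [Scheme.Hom.comp_apply, hs1]

/-- A neighbourhood of the punctures `J`. -/
theorem basic_le {V : x.X.Opens} {le : ⊤ ≤ M.sh ⁻¹ᵁ V} {g : Γ(x.X, V)}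
    (hg : ccI (I ⊕ J) A (gm M.sh V le g) = eJ I J A) : x.X.basicOpen g ≤ U := by
  intro s hsg
  rw [hs, sec_comp]
  rintro ⟨a, ha⟩
  rw [Scheme.Hom.comp_apply] at ha
  have h1 : (spMap (ccI (I ⊕ J) A) ≫ M.sh) (spMap (idx Sum.inl) a) ∈ x.X.basicOpen g := by
    rw [ha]
    exact hsg
  rw [mem_sec M V le g, hg] at h1
  apply h1
  change idx Sum.inl (eJ I J A) ∈ a.asIdeal
  have h2 : idx (Sum.inl : I → I ⊕ J) (eJ I J A) = 0 := rfl
  rw [h2]
  exact a.asIdeal.zero_mem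

theorem le_sup {V : x.X.Opens} {le : ⊤ ≤ M.sh ⁻¹ᵁ V} {g : Γ(x.X, V)}
    (hg : ccI (I ⊕ J) A (gm M.sh V le g) = eJ I J A) : U ≤ M.j.opensRange ⊔ x.X.basicOpen g := by
  intro s h
  rcases pts hs h with h1 | ⟨s0, h1, rfl⟩
  · exact Or.inl h1
  · refine Or.inr ?_
    change _ ∈ x.X.basicOpen g
    rw [mem_sec M V le g, hg]
    exact h1

theorem inf_basic {V : x.X.Opens} {le : ⊤ ≤ M.sh ⁻¹ᵁ V} {g : Γ(x.X, V)}
    (hg : ccI (I ⊕ J) A (gm M.sh V le g) = eI I J A) {s : x.X} (h : s ∈ U)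
    (h' : s ∈ x.X.basicOpen g) : s ∈ Set.range M.j := by
  rcases pts hs h with h1 | ⟨s0, h1, rfl⟩
  · exact h1
  · rw [mem_sec M V le g, hg] at h'
    have h2 : eI I J A * eJ I J A ∈ s0.asIdeal := by
      rw [eI_mul_eJ]
      exact s0.asIdeal.zero_mem
    rcases s0.isPrime.mem_or_mem h2 with h3 | h3
    · exact absurd h3 h'
    · exact absurd h3 h1

omit hs

theorem gm_range (hj : ⊤ ≤ M.j ⁻¹ᵁ M.j.opensRange) (hu : ⊤ ≤ M.j ⁻¹ᵁ U)
    (hle : M.j.opensRange ≤ U) (c : Γ(x.X, U)) :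
    gm M.j M.j.opensRange hj (rs x.X hle c) = gm M.j U hu c :=
  gm_rs M.j (RingHom.id W) M.j (spMap_id_comp _).symm hle hu hj c

theorem cmp_idx {I' : Type} (e : I' → I ⊕ J) : spMap (psI I' A) ≫ spMap (idx e) ≫ M.sh =
    spMap ((idx e).comp (W.val : W →+* KK (I ⊕ J) A)) ≫ M.j := by
  have h1 : (psI I' A).comp (idx e) = (idx e).comp (psI (I ⊕ J) A) := rfl
  rw [← Category.assoc, spMap_comp'', h1, ← spMap_comp'', Category.assoc, M.cmp,
    ← Category.assoc, spMap_comp'']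

/-- Functions which vanish on the complement of the punctures. -/
theorem inj (hs : ∀ s, s ∈ U ↔ s ∉ Set.range (spMap (ccI I A) ≫ spMap (idx Sum.inl) ≫ M.sh))
    (hu : ⊤ ≤ M.j ⁻¹ᵁ U) (c : Γ(x.X, U)) (h : gm M.j U hu c = 0) : c = 0 := by
  obtain ⟨V, t, le, hV, hbt, hreg, -, -, hc⟩ := M.loc
  obtain ⟨g, hg⟩ := hc (eJ I J A)
  have hVJ : x.X.basicOpen g ≤ V := x.X.basicOpen_le g
  have hJU : x.X.basicOpen g ≤ U := basic_le hs hg
  have hRU : M.j.opensRange ≤ U := range_le hs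
  have hj : ⊤ ≤ M.j ⁻¹ᵁ M.j.opensRange := fun a _ => ⟨a, rfl⟩
  have h1 : rs x.X hRU c = 0 := by
    apply (gm_bij M.j M.j.opensRange hj rfl).1
    rw [gm_range hj hu hRU c, h, map_zero]
  refine eq2 hRU hJU (le_sup hs hg) c 0 (by rw [h1, map_zero]) ?_
  rw [map_zero]
  have hD : x.X.basicOpen (rs x.X hVJ t) ≤ x.X.basicOpen g := x.X.basicOpen_le _
  have hD2 : x.X.basicOpen (rs x.X hVJ t) ≤ M.j.opensRange := by
    have e1 : x.X.basicOpen (rs x.X hVJ t) = x.X.basicOpen g ⊓ x.X.basicOpen t :=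
      x.X.basicOpen_res t (homOfLE hVJ).op
    rw [e1]
    rintro s ⟨-, hst⟩
    have hst' : s ∈ (x.X.basicOpen t : Set x.X) := hst
    rw [hbt] at hst'
    exact hst'.1
  obtain ⟨k, hk⟩ := loc_inj (hV.basicOpen g) (rs x.X hVJ t) rfl hD (rs x.X hJU c) (by
    have e2 : rs x.X hD (rs x.X hJU c) = rs x.X hD2 (rs x.X hRU c) := by
      rw [AFF.rs_rs, AFF.rs_rs]
    rw [e2, h1, map_zero])
  exact nzd_pow (fun b hb => nzd hV g rfl hVJ t hreg b hb) k _ hk

/-- Functions on the complement of the punctures which are regular at `J`. -/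
theorem sur (hs : ∀ s, s ∈ U ↔ s ∉ Set.range (spMap (ccI I A) ≫ spMap (idx Sum.inl) ≫ M.sh))
    (hu : ⊤ ≤ M.j ⁻¹ᵁ U) (w : W)
    (hw : ∀ j : J, ∀ m < 0, ((w : KK (I ⊕ J) A) (Sum.inr j)).coeff m = 0) :
    ∃ c, gm M.j U hu c = w := by
  obtain ⟨V, t, le, hV, hbt, hreg, ⟨u, hun, htu⟩, hk, hc⟩ := M.loc
  obtain ⟨g, hg⟩ := hc (eJ I J A)
  have hVJ : x.X.basicOpen g ≤ V := x.X.basicOpen_le g
  have hJU : x.X.basicOpen g ≤ U := basic_le hs hg
  have hRU : M.j.opensRange ≤ U := range_le hs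
  have hj : ⊤ ≤ M.j ⁻¹ᵁ M.j.opensRange := fun a _ => ⟨a, rfl⟩
  obtain ⟨a, ha⟩ := (gm_bij M.j M.j.opensRange hj rfl).2 w
  have hDV : x.X.basicOpen t ≤ V := x.X.basicOpen_le t
  have hDR : x.X.basicOpen t ≤ M.j.opensRange := by
    intro s hst
    have hst' : s ∈ (x.X.basicOpen t : Set x.X) := hst
    rw [hbt] at hst'
    exact hst'.1
  obtain ⟨m, v, hv⟩ := loc_surj hV t rfl hDV (rs x.X hDR a)
  -- the comparison
  have hunit : IsUnit (psI (I ⊕ J) A (gm M.sh V le t)) := by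
    rw [htu, map_mul]
    refine IsUnit.mul ?_ (hun.map _)
    rw [Pi.isUnit_iff]
    intro k
    exact psl_X_unit
  have hκV : ⊤ ≤ (spMap (psI (I ⊕ J) A) ≫ M.sh) ⁻¹ᵁ V := pre_comp le _
  have hκ : ⊤ ≤ (spMap (psI (I ⊕ J) A) ≫ M.sh) ⁻¹ᵁ x.X.basicOpen t :=
    le_basic _ V hκV t (by
      rw [gm_comp M.sh (psI (I ⊕ J) A) _ rfl V le hκV]
      exact hunit)
  have hcmp : (w : KK (I ⊕ J) A) * psI (I ⊕ J) A (gm M.sh V le t) ^ m =
      psI (I ⊕ J) A (gm M.sh V le v) := by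
    have e1 := congrArg (gm (spMap (psI (I ⊕ J) A) ≫ M.sh) (x.X.basicOpen t) hκ) hv
    rw [map_mul, map_pow, gm_rs M.j (W.val : W →+* KK (I ⊕ J) A) _ M.cmp hDR hj hκ,
      gm_rs M.sh (psI (I ⊕ J) A) _ rfl hDV le hκ, gm_rs M.sh (psI (I ⊕ J) A) _ rfl hDV le hκ,
      ha] at e1
    exact e1
  -- the expansion of `g ^ m * v`
  have hy : ∀ k, ∃ y : PowerSeries A, (gm M.sh V le (g ^ m * v)) k = PowerSeries.X ^ m * y := by
    intro k
    rw [map_mul, map_pow, Pi.mul_apply, Pi.pow_apply]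
    rcases k with i | j
    · have h1 : PowerSeries.constantCoeff (gm M.sh V le g (Sum.inl i)) = 0 := congrFun hg (Sum.inl i)
      obtain ⟨z, hz⟩ := PowerSeries.X_dvd_iff.2 h1
      rw [hz, mul_pow]
      exact ⟨_, mul_assoc _ _ _⟩
    · have h1 : gm M.sh V le v (Sum.inr j) = tops A ((w : KK (I ⊕ J) A) (Sum.inr j)) *
          (PowerSeries.X * u (Sum.inr j)) ^ m := by
        apply psl_inj
        have h2 := congrFun hcmp (Sum.inr j)
        rw [Pi.mul_apply, Pi.pow_apply, psI_apply, psI_apply, htu] at h2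
        rw [map_mul, map_pow, psl_tops (hw j)]
        exact h2.symm
      rw [h1]
      exact ⟨gm M.sh V le g (Sum.inr j) ^ m * tops A ((w : KK (I ⊕ J) A) (Sum.inr j)) *
        u (Sum.inr j) ^ m, by ring⟩
  choose y hy' using hy
  obtain ⟨r, hr⟩ := exp_div (gm M.sh V le) t u hun htu hk m (g ^ m * v) y (funext fun k => by
    rw [hy' k]
    rfl)
  -- gluing
  obtain ⟨gi, hgi⟩ := (loc_unit g rfl hVJ).exists_right_inv
  let b : Γ(x.X, x.X.basicOpen g) := rs x.X hVJ r * gi ^ m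
  have hI1 : x.X.basicOpen t ⊓ x.X.basicOpen g ≤ M.j.opensRange := inf_le_left.trans hDR
  have hI2 : x.X.basicOpen t ⊓ x.X.basicOpen g ≤ x.X.basicOpen g := inf_le_right
  have hI3 : x.X.basicOpen t ⊓ x.X.basicOpen g ≤ x.X.basicOpen t := inf_le_left
  have hI4 : x.X.basicOpen t ⊓ x.X.basicOpen g ≤ V := inf_le_right.trans hVJ
  obtain ⟨c, hc1, -⟩ := AFF.glue hRU hJU (le_sup hs hg) hI1 hI2 (by
    rintro s ⟨h1, h2⟩
    refine ⟨?_, h2⟩
    have h3 : s ∈ (x.X.basicOpen t : Set x.X) := by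
      rw [hbt]
      exact ⟨h1, hVJ h2⟩
    exact h3) a b (by
    have e1 := congrArg (rs x.X hI3) hv
    rw [map_mul, map_pow, AFF.rs_rs, AFF.rs_rs, AFF.rs_rs] at e1
    have e2 := congrArg (rs x.X hI4) hr
    rw [map_mul, map_mul, map_pow, map_pow] at e2
    have e3 := congrArg (rs x.X hI2) hgi
    rw [map_mul, AFF.rs_rs, map_one] at e3
    have u1 : IsUnit (rs x.X hI4 t) := by
      have h1 := (loc_unit t rfl hDV).map (rs x.X hI3)
      rw [AFF.rs_rs] at h1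
      exact h1
    change rs x.X hI1 a = rs x.X hI2 (rs x.X hVJ r * gi ^ m)
    rw [map_mul, map_pow, AFF.rs_rs]
    set T := rs x.X hI4 t with hT
    set G := rs x.X hI4 g with hG
    apply (u1.pow m).mul_left_injective
    change rs x.X hI1 a * T ^ m = rs x.X hI4 r * rs x.X hI2 gi ^ m * T ^ m
    calc rs x.X hI1 a * T ^ m = rs x.X hI4 v := e1
      _ = (G * rs x.X hI2 gi) ^ m * rs x.X hI4 v := by rw [e3, one_pow, one_mul]
      _ = rs x.X hI2 gi ^ m * (G ^ m * rs x.X hI4 v) := by ring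
      _ = rs x.X hI4 r * rs x.X hI2 gi ^ m * T ^ m := by rw [e2]; ring)
  refine ⟨c, ?_⟩
  rw [← gm_range hj hu hRU c, hc1, ha]

/-- The neighbourhood of the punctures `J` is contained in `U`. -/
theorem reg1 (hs : ∀ s, s ∈ U ↔ s ∉ Set.range (spMap (ccI I A) ≫ spMap (idx Sum.inl) ≫ M.sh))
    (κ : Sp (J → PowerSeries A) ⟶ x.X) (hκ : κ = spMap (idx Sum.inr) ≫ M.sh) :
    ⊤ ≤ κ ⁻¹ᵁ U := by
  obtain ⟨V, t, le, hV, hbt, hreg, -, -, hc⟩ := M.loc
  obtain ⟨g, hg⟩ := hc (eJ I J A)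
  have hJU : x.X.basicOpen g ≤ U := basic_le hs hg
  have hκV : ⊤ ≤ κ ⁻¹ᵁ V := by
    rw [hκ]
    exact pre_comp le _
  have hκg : ⊤ ≤ κ ⁻¹ᵁ x.X.basicOpen g :=
    le_basic _ V hκV g (by
      rw [gm_comp M.sh (idx Sum.inr) κ hκ V le hκV]
      refine unit_of ?_
      funext k
      have h0 := congrFun hg (Sum.inr k)
      rw [ccI_apply] at h0
      rw [ccI_apply, idx_apply, h0]
      rfl)
  exact hκg.trans fun b hb => hJU hb

theorem reg2 (hu : ⊤ ≤ M.j ⁻¹ᵁ U) (c : Γ(x.X, U)) (j : J) (m : ℤ) (hm : m < 0)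
    (κ : Sp (J → PowerSeries A) ⟶ x.X) (hκU : ⊤ ≤ κ ⁻¹ᵁ U)
    (hκ' : ⊤ ≤ (spMap (psI J A) ≫ κ) ⁻¹ᵁ U)
    (hc : spMap (psI J A) ≫ κ =
      spMap ((idx Sum.inr).comp (W.val : W →+* KK (I ⊕ J) A)) ≫ M.j) :
    ((gm M.j U hu c : KK (I ⊕ J) A) (Sum.inr j)).coeff m = 0 := by
  have h1 := gm_comp κ (psI J A) _ rfl U hκU hκ' c
  have h2 := gm_comp M.j _ _ hc U hu hκ' c
  have h3 := congrFun (h2.symm.trans h1) j
  rw [psI_apply, RingHom.comp_apply, idx_apply] at h3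
  have h4 := psl_coeff_neg (gm κ U hκU c j) m hm
  rw [← h3] at h4
  exact h4

/-- Values on `J` are regular. -/
theorem reg (hs : ∀ s, s ∈ U ↔ s ∉ Set.range (spMap (ccI I A) ≫ spMap (idx Sum.inl) ≫ M.sh))
    (hu : ⊤ ≤ M.j ⁻¹ᵁ U) (c : Γ(x.X, U)) (j : J) (m : ℤ) (hm : m < 0) :
    ((gm M.j U hu c : KK (I ⊕ J) A) (Sum.inr j)).coeff m = 0 :=
  have hκU := reg1 hs _ rfl
  reg2 hu c j m hm _ hκU (pre_comp hκU _) (cmp_idx (M := M) (Sum.inr : J → I ⊕ J))

/-- The restriction to the punctures `I` of the functions on `U`. -/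
noncomputable def EE0 (hu : ⊤ ≤ M.j ⁻¹ᵁ U) : Γ(x.X, U) →+* KK I A :=
  ((idx Sum.inl).comp (W.val : W →+* KK (I ⊕ J) A)).comp (gm M.j U hu)

theorem exists_e (hs : ∀ s, s ∈ U ↔ s ∉ Set.range (spMap (ccI I A) ≫ spMap (idx Sum.inl) ≫ M.sh))
    {P : Subalgebra A (KK I A)} (hF : Forget W P) (hu : ⊤ ≤ M.j ⁻¹ᵁ U) :
    ∃ e : Γ(x.X, U) ≃+* P, ∀ c i, (e c : KK I A) i =
      (gm M.j U hu c : KK (I ⊕ J) A) (Sum.inl i) := by
  have hmem : ∀ c, EE0 hu c ∈ P := by
    intro c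
    rw [hF.eq]
    exact ⟨gm M.j U hu c, (gm M.j U hu c).2, fun j m hm => reg hs hu c j m hm, fun i => rfl⟩
  let E : Γ(x.X, U) →+* P := (EE0 hu).codRestrict P hmem
  have hE : ∀ c, (E c : KK I A) = EE0 hu c := fun _ => rfl
  have hb : Function.Bijective E := by
    constructor
    · rw [injective_iff_map_eq_zero]
      intro c hc
      apply inj hs hu
      apply Subtype.ext
      apply hF.inj _ (gm M.j U hu c).2
      intro i
      have h1 : (E c : KK I A) = 0 := by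
        rw [hc]
        rfl
      exact congrFun h1 i
    · rintro ⟨f, hf⟩
      have hf' := hf
      rw [hF.eq] at hf'
      obtain ⟨w, hw, h1, h2⟩ := hf'
      obtain ⟨c, hc⟩ := sur hs hu ⟨w, hw⟩ h1
      refine ⟨c, Subtype.ext ?_⟩
      rw [hE]
      funext i
      change (gm M.j U hu c : KK (I ⊕ J) A) (Sum.inl i) = f i
      rw [hc]
      exact h2 i
  exact ⟨RingEquiv.ofBijective E hb, fun c i => rfl⟩

/-- The neighbourhood of the punctures `I`. -/
theorem locI (hs : ∀ s, s ∈ U ↔ s ∉ Set.range (spMap (ccI I A) ≫ spMap (idx Sum.inl) ≫ M.sh))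
    (κ : Sp (I → PowerSeries A) ⟶ x.X) (hκ : κ = spMap (idx Sum.inl) ≫ M.sh) :
    ∃ (V : x.X.Opens) (t : Γ(x.X, V)) (le : ⊤ ≤ κ ⁻¹ᵁ V), IsAffineOpen V ∧
    (x.X.basicOpen t : Set x.X) = (U : Set x.X) ∩ V ∧ (∀ v, t * v = 0 → v = 0) ∧
    (∃ u : I → PowerSeries A, IsUnit u ∧ gm κ V le t = (fun _ => PowerSeries.X) * u) ∧
    (∀ v, ccI I A (gm κ V le v) = 0 → ∃ r, v = t * r) ∧
    ∀ c : I → A, ∃ v, ccI I A (gm κ V le v) = c := by
  have hRU : M.j.opensRange ≤ U := range_le hs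
  obtain ⟨V, t, le, hV, hbt, hrg, ⟨u, hun, htu⟩, hk, hc⟩ := M.loc
  obtain ⟨g, hg⟩ := hc (eI I J A)
  have hV' : x.X.basicOpen g ≤ V := x.X.basicOpen_le g
  have hκV : ⊤ ≤ κ ⁻¹ᵁ V := by
    rw [hκ]
    exact pre_comp le _
  have hκg : ⊤ ≤ κ ⁻¹ᵁ x.X.basicOpen g :=
    le_basic _ V hκV g (by
      rw [gm_comp M.sh (idx Sum.inl) κ hκ V le hκV]
      refine unit_of ?_
      funext k
      have h0 := congrFun hg (Sum.inl k)
      rw [ccI_apply] at h0
      rw [ccI_apply, idx_apply, h0]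
      rfl)
  have hrs : ∀ v, gm κ (x.X.basicOpen g) hκg (rs x.X hV' v) = idx Sum.inl (gm M.sh V le v) :=
    fun v => gm_rs M.sh (idx Sum.inl) κ hκ hV' le hκg v
  refine ⟨x.X.basicOpen g, rs x.X hV' t, hκg, hV.basicOpen g, ?_, ?_, ?_, ?_, ?_⟩
  · have e1 : x.X.basicOpen (rs x.X hV' t) = x.X.basicOpen g ⊓ x.X.basicOpen t :=
      x.X.basicOpen_res t (homOfLE hV').op
    rw [e1]
    ext s
    constructor
    · rintro ⟨h1, h2⟩
      have h3 : s ∈ (x.X.basicOpen t : Set x.X) := h2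
      rw [hbt] at h3
      exact ⟨hRU h3.1, h1⟩
    · rintro ⟨h1, h2⟩
      refine ⟨h2, ?_⟩
      rw [hbt]
      exact ⟨inf_basic hs hg h1 h2, hV' h2⟩
  · exact fun v hv => nzd hV g rfl hV' t hrg v hv
  · refine ⟨idx Sum.inl u, hun.map _, ?_⟩
    rw [hrs, htu]
    rfl
  · intro v hv
    obtain ⟨k, r, hr⟩ := loc_surj hV g rfl hV' v
    have h1 : ∀ i : I, PowerSeries.constantCoeff (gm M.sh V le r (Sum.inl i)) = 0 := by
      intro i
      have h2 := congrFun (congrArg (gm κ (x.X.basicOpen g) hκg) hr) i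
      rw [hrs, map_mul, Pi.mul_apply, idx_apply] at h2
      have h3 := congrArg (PowerSeries.constantCoeff (R := A)) h2
      have h4 := congrFun hv i
      rw [ccI_apply] at h4
      rw [map_mul, h4] at h3
      rw [← h3]
      exact zero_mul _
    obtain ⟨r', hr'⟩ := hk (g * r) (by
      rw [map_mul, map_mul, hg]
      funext l
      rcases l with i | j
      · rw [Pi.mul_apply, ccI_apply, h1 i, mul_zero]
        rfl
      · rw [Pi.mul_apply]
        exact zero_mul _)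
    obtain ⟨gi, hgi⟩ := (loc_unit g rfl hV').exists_right_inv
    refine ⟨rs x.X hV' r' * gi ^ (k + 1), ?_⟩
    have h5 := congrArg (rs x.X hV') hr'
    rw [map_mul, map_mul, ← hr] at h5
    calc v = v * (rs x.X hV' g * gi) ^ (k + 1) := by rw [hgi, one_pow, mul_one]
      _ = rs x.X hV' g * (v * rs x.X hV' g ^ k) * gi ^ (k + 1) := by ring
      _ = rs x.X hV' t * (rs x.X hV' r' * gi ^ (k + 1)) := by rw [h5]; ring
  · intro c
    obtain ⟨v, hv⟩ := hc (Sum.elim c 0)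
    refine ⟨rs x.X hV' v, ?_⟩
    rw [hrs]
    funext i
    have h1 := congrFun hv (Sum.inl i)
    rw [ccI_apply] at h1
    rw [ccI_apply, idx_apply, h1]
    rfl

end main

end MFG

open MFG in
attribute [local instance] Mod.jo in
/-- The model with fewer punctures. -/
theorem t_MFG : Stmt_MFG := by
  intro I J A _ _ _ n W q P p x M U hU hs hF hqp
  have hRU : M.j.opensRange ≤ U := range_le hs
  have hu : ⊤ ≤ M.j ⁻¹ᵁ U := fun a _ => hRU ⟨a, rfl⟩
  obtain ⟨e, he⟩ := exists_e hs hF hu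
  have hreg := reg (M := M) hs hu
  have hww : Set.range (ww hU e) = (U : Set x.X) := by
    have := congrArg (fun O : x.X.Opens => (O : Set x.X)) (ww_range hU e)
    exact this
  have hmk : ∀ i c, (q i) (gm M.j U hu c) = (p i) (e c) := fun i c =>
    hqp i (e c) (gm M.j U hu c) (fun k => (he c k).symm) (fun k m hm => hreg c k m hm)
  let ρ : P →+* W := (gm M.j U hu).comp (e.symm : P →+* Γ(x.X, U))
  have hρ : ∀ c, ρ (e c) = gm M.j U hu c := fun c => by
    change gm M.j U hu (e.symm (e c)) = _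
    rw [e.symm_apply_apply]
  have hj : M.j = spMap ρ ≫ ww hU e := ww_eq hU e M.j hu ρ fun v => (hρ v).symm
  have hjp : ww hU e ≫ x.π = spMap (algebraMap A P) := by
    unfold ww
    rw [Category.assoc, NOD.fromSpec_coef, spMap_comp'']
    refine congrArg (fun f => spMap f) (RingHom.ext fun a => Subtype.ext (funext fun i => ?_))
    change (e (coef x.π U a) : KK I A) i = _
    rw [he, gm_coef M.j x.π _ M.jp]
    rfl
  have hcmp : ∀ (κ : Sp (KK I A) ⟶ x.X),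
      κ = spMap ((idx Sum.inl).comp (W.val : W →+* KK (I ⊕ J) A)) ≫ M.j →
      κ = spMap (P.val : P →+* KK I A) ≫ ww hU e := by
    intro κ hκ
    have h : ⊤ ≤ κ ⁻¹ᵁ U := by
      rw [hκ]
      exact pre_comp hu _
    refine ww_eq hU e _ h _ fun v => ?_
    rw [gm_comp M.j _ κ hκ U hu h v]
    funext i
    exact (he v i).symm
  refine ⟨{
    j := ww hU e
    jo := inferInstance
    jp := hjp
    sh := spMap (idx Sum.inl) ≫ M.sh
    shp := ?_
    cmp := hcmp _ (cmp_idx _)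
    cov := ?_
    exc := ?_
    mrk := ?_
    loc := ?_ }, ⟨rfl, ρ, ?_, ?_, hj⟩⟩
  · rw [Category.assoc, M.shp, spMap_comp'']
    rfl
  · intro s
    rw [hww]
    by_cases h : s ∈ U
    · exact Or.inl h
    · rw [hs, not_not] at h
      exact Or.inr h
  · intro s h
    rw [hww] at h
    exact (hs s).1 h
  · intro i
    have h1 : ⊤ ≤ (x.σ i) ⁻¹ᵁ U := by
      rw [M.mrk i]
      exact pre_comp hu _
    refine ww_eq hU e _ h1 _ fun v => ?_
    rw [gm_comp M.j (q i : W →+* A) _ (M.mrk i) U hu h1 v]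
    exact hmk i v
  · rw [hww]
    exact locI hs _ rfl
  · intro f i
    obtain ⟨c, rfl⟩ := e.surjective f
    rw [hρ, he]
  · intro f k m hm
    obtain ⟨c, rfl⟩ := e.surjective f
    rw [hρ]
    exact hreg c k m hm

end Pool.Agent.MG.KX
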