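import Pool.Agent.MG.KX.StmtsM

/-!
# MFO: forgetting punctures and base change
-/

open CategoryTheory CategoryTheory.Limits AlgebraicGeometry
open scoped TensorProduct

namespace Pool.Agent.MG.KX

open Pool.Agent.MG.G0 Pool.Agent.MG.GLU

namespace MFOx

theorem comp {A B D : Type} [CommRing A] [CommRing B] [CommRing D] (f : A →+* B)
    (g : B →+* D) : spMap g ≫ spMap f = spMap (g.comp f) := by
  rw [← Spec.map_comp]
  rfl

theorem inj {A B : Type} [CommRing A] [CommRing B] {f g : A →+* B}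
    (h : spMap f = spMap g) : f = g :=
  congrArg CommRingCat.Hom.hom (Spec.map_injective h)

theorem one (A : Type) [CommRing A] : spMap (RingHom.id A) = 𝟙 (Sp A) := by
  change Spec.map (CommRingCat.ofHom (RingHom.id A)) = _
  rw [CommRingCat.ofHom_id, Spec.map_id]

theorem exi {A B : Type} [CommRing A] [CommRing B] (l : Sp B ⟶ Sp A) :
    ∃ r : A →+* B, spMap r = l :=
  ⟨(Spec.preimage l).hom, Spec.map_preimage l⟩

/-- The preimage of a section is the section. -/
theorem sec {n : ℕ} {A B : Type} [CommRing A] [CommRing B] {φ : A →+* B} {x : Fam n A}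
    {y : Fam n B} (a : Arrow φ y x) (s : Sp A ⟶ x.X) (s' : Sp B ⟶ y.X) (hs : s ≫ x.π = 𝟙 _)
    (hs' : s' ≫ y.π = 𝟙 _) (h : s' ≫ a.f = spMap φ ≫ s) (t : y.X) (u : Sp A)
    (ht : a.f t = s u) : ∃ v : Sp B, s' v = t := by
  have c1 : IsPullback (s' ≫ y.π) (spMap φ) (spMap φ) (s ≫ x.π) := by
    rw [hs, hs']
    exact IsPullback.of_horiz_isIso ⟨by simp⟩
  have c2 : IsPullback s' (spMap φ) a.f s := IsPullback.of_right c1 h a.cart.flip
  obtain ⟨z, h1, -⟩ := Scheme.Pullback.exists_preimage_pullback (f := a.f) (g := s) t u ht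
  refine ⟨c2.isoPullback.inv z, ?_⟩
  rw [← Scheme.Hom.comp_apply, c2.isoPullback_inv_fst]
  exact h1

/-- The preimage of the punctures consists of the punctures. -/
theorem pun {I A B : Type} [Fintype I] [CommRing A] [CommRing B] {n : ℕ} {φ : A →+* B}
    {x : Fam n A} {y : Fam n B} (a : Arrow φ y x) (s : Sp (I → PowerSeries A) ⟶ x.X)
    (s' : Sp (I → PowerSeries B) ⟶ y.X)
    (hs : s ≫ x.π = spMap (algebraMap A (I → PowerSeries A)))
    (hs' : s' ≫ y.π = spMap (algebraMap B (I → PowerSeries B)))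
    (h : s' ≫ a.f = spMap (psm I φ) ≫ s) (t : y.X)
    (ht : a.f t ∈ Set.range (spMap (ccI I A) ≫ s)) : t ∈ Set.range (spMap (ccI I B) ≫ s') := by
  obtain ⟨u, hu⟩ := ht
  obtain ⟨i, u', hi⟩ := PrimeSpectrum.exists_comap_evalRingHom_eq (R := fun _ : I => A) u
  have hi' : spMap (Pi.evalRingHom (fun _ : I => A) i) u' = u := hi
  have e1 : (spMap (Pi.evalRingHom (fun _ : I => A) i) ≫ spMap (ccI I A) ≫ s) ≫ x.π = 𝟙 _ := by
    rw [Category.assoc, Category.assoc, hs, comp, comp, ← one]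
    congr 1
  have e2 : (spMap (Pi.evalRingHom (fun _ : I => B) i) ≫ spMap (ccI I B) ≫ s') ≫ y.π = 𝟙 _ := by
    rw [Category.assoc, Category.assoc, hs', comp, comp, ← one]
    congr 1
  have e3 : (spMap (Pi.evalRingHom (fun _ : I => B) i) ≫ spMap (ccI I B) ≫ s') ≫ a.f =
      spMap φ ≫ spMap (Pi.evalRingHom (fun _ : I => A) i) ≫ spMap (ccI I A) ≫ s := by
    rw [Category.assoc, Category.assoc, h, ← Category.assoc, ← Category.assoc, ← Category.assoc,
      ← Category.assoc, comp, comp, comp, comp]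
    congr 1
  obtain ⟨v, hv⟩ := sec a _ _ e1 e2 e3 t u' (by
    rw [← hu, ← hi', ← Scheme.Hom.comp_apply])
  refine ⟨spMap (Pi.evalRingHom (fun _ : I => B) i) v, ?_⟩
  rw [← hv, ← Scheme.Hom.comp_apply]

end MFOx

open MFOx in
/-- MFO: forgetting punctures and base change. -/
theorem t_MFO : Stmt_MFO := by
  intro I J A B _ _ _ _ n W q P p W' q' P' p' x y φ a M N M' N' hN hN' _ hmem hM
  have hsh : N'.sh ≫ a.f = spMap (psm I φ) ≫ N.sh := by
    rw [hN'.sh, Category.assoc, hM.sh, hN.sh, ← Category.assoc, ← Category.assoc, comp, comp]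
    rfl
  refine ⟨hmem, ?_, hsh⟩
  have := N.jo
  have hr : Set.range (N'.j ≫ a.f) ⊆ Set.range N.j := by
    rintro _ ⟨s, rfl⟩
    rw [Scheme.Hom.comp_apply]
    rcases N.cov (a.f (N'.j s)) with h | h
    · exact h
    · exact absurd (pun a N.sh N'.sh N.shp N'.shp hsh _ h) (N'.exc _ ⟨s, rfl⟩)
  obtain ⟨r, hr'⟩ := exi (IsOpenImmersion.lift N.j (N'.j ≫ a.f) hr)
  have e0 : N'.j ≫ a.f = spMap r ≫ N.j := by
    rw [hr', IsOpenImmersion.lift_fac]
  obtain ⟨ρ, h1, -, h3⟩ := hN.j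
  obtain ⟨ρ', h1', -, h3'⟩ := hN'.j
  have e1 : spMap (ρ'.comp r) ≫ N.j = spMap ((rres (kmap φ) hM.mem).comp ρ) ≫ N.j := by
    rw [← comp, Category.assoc, ← e0, ← Category.assoc, ← h3', hM.j, h3, ← Category.assoc, comp]
  have e2 : ρ'.comp r = (rres (kmap φ) hM.mem).comp ρ :=
    inj ((cancel_mono N.j).1 e1)
  have e3 : r = rres (kmap φ) hmem := by
    apply RingHom.ext
    intro f
    apply Subtype.ext
    funext i
    rw [← h1' (r f) i]
    have e4 : ρ' (r f) = rres (kmap φ) hM.mem (ρ f) := congrArg (fun k => k f) e2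
    rw [e4]
    exact congrArg (lmap φ) (h1 f i)
  rw [e0, e3]

end Pool.Agent.MG.KX
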