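import Pool.Agent.MG.KX.StmtsM
import Pool.Agent.MG.AFF

/-!
# MIS: a proper family with a model of `P` is the curve of `P`
-/

open CategoryTheory CategoryTheory.Limits AlgebraicGeometry
open scoped TensorProduct

namespace Pool.Agent.MG.KX

open Pool.Agent.MG.G0 Pool.Agent.MG.GLU

namespace MIS

section gen

variable {X : Scheme.{0}}

theorem loc_surj {V W : X.Opens} (hV : IsAffineOpen V) (t : Γ(X, V)) (h : W ≤ V)
    (e : W = X.basicOpen t) (s : Γ(X, W)) :
    ∃ (m : ℕ) (v : Γ(X, V)), s * rs X h t ^ m = rs X h v := by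
  have hloc := hV.isLocalization_of_eq_basicOpen (f := t) (homOfLE h) e
  let _ : Algebra Γ(X, V) Γ(X, W) := (rs X h).toAlgebra
  have hloc' : IsLocalization.Away t Γ(X, W) := hloc
  obtain ⟨N, r, hr⟩ := IsLocalization.Away.surj t s
  exact ⟨N, r, hr⟩

theorem loc_inj {V W : X.Opens} (hV : IsAffineOpen V) (t : Γ(X, V)) (h : W ≤ V)
    (e : W = X.basicOpen t) (v : Γ(X, V)) (hv : rs X h v = 0) : ∃ m : ℕ, t ^ m * v = 0 := by
  have hloc := hV.isLocalization_of_eq_basicOpen (f := t) (homOfLE h) e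
  let _ : Algebra Γ(X, V) Γ(X, W) := (rs X h).toAlgebra
  have hloc' : IsLocalization.Away t Γ(X, W) := hloc
  have h1 : algebraMap Γ(X, V) Γ(X, W) v = 0 := hv
  obtain ⟨⟨_, m, rfl⟩, hm⟩ := (IsLocalization.map_eq_zero_iff (Submonoid.powers t) _ v).1 h1
  exact ⟨m, hm⟩

theorem unit_res {V W : X.Opens} (t : Γ(X, V)) (h : W ≤ V) (hW : W ≤ X.basicOpen t) :
    IsUnit (rs X h t) := by
  have h1 : IsUnit (rs X (X.basicOpen_le t) t) := RingedSpace.isUnit_res_basicOpen _ t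
  have h2 := h1.map (rs X hW)
  rwa [AFF.rs_rs] at h2

theorem mem_basicOpen_gm {A : Type} [CommRing A] (i : Sp A ⟶ X) (W : X.Opens)
    (h : ⊤ ≤ i ⁻¹ᵁ W) (v : Γ(X, W)) (x : Sp A) :
    i x ∈ X.basicOpen v ↔ gm i W h v ∉ x.asIdeal := by
  have h1 : x ∈ i ⁻¹ᵁ (X.basicOpen v) ↔ x ∈ (Sp A).basicOpen (i.appLE W ⊤ h v) := by
    rw [Scheme.basicOpen_appLE, top_inf_eq]
  rw [basicOpen_eq_of_affine'] at h1
  exact h1

theorem le_basicOpen_gm {A : Type} [CommRing A] (i : Sp A ⟶ X) (W : X.Opens)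
    (h : ⊤ ≤ i ⁻¹ᵁ W) (v : Γ(X, W)) (hv : IsUnit (gm i W h v)) : ⊤ ≤ i ⁻¹ᵁ X.basicOpen v := by
  intro x _
  refine (mem_basicOpen_gm i W h v x).2 fun hx => x.isPrime.ne_top ?_
  exact Ideal.eq_top_of_isUnit_mem _ hx hv

theorem exists_monic0 {A R : Type} [CommRing A] [CommRing R] [Algebra A R] (j : Sp R ⟶ X)
    [IsOpenImmersion j] (π : X ⟶ Sp A) (hj : j ≫ π = spMap (algebraMap A R)) (hx : IsProper π)
    (V : X.Opens) (cov : ∀ q, q ∉ V → q ∈ Set.range j) (z : R) :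
    ∃ F : Polynomial A, F.Monic ∧ ∀ y : Sp R, j y ∉ V → Polynomial.aeval z F ∈ y.asIdeal := by
  let Z : Set (PrimeSpectrum R) := {y | j (show Sp R from y) ∉ V}
  have hZ : IsClosed Z := by
    have h1 : IsClosed ((V : Set X)ᶜ) := isClosed_compl_iff.2 V.isOpen
    exact h1.preimage j.continuous
  let 𝔞 : Ideal R := PrimeSpectrum.vanishingIdeal Z
  have hZ' : PrimeSpectrum.zeroLocus (𝔞 : Set R) = Z := by
    rw [PrimeSpectrum.zeroLocus_vanishingIdeal_eq_closure, hZ.closure_eq]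
  let e : Sp (R ⧸ 𝔞) ⟶ Sp R := spMap (Ideal.Quotient.mk 𝔞)
  have he : IsClosedImmersion e :=
    IsClosedImmersion.spec_of_surjective _ Ideal.Quotient.mk_surjective
  have her : ∀ y : Sp R, y ∈ Set.range e ↔ j y ∉ V := by
    intro y
    have h1 : Set.range (PrimeSpectrum.comap (Ideal.Quotient.mk 𝔞)) = Z := by
      rw [range_comap_of_surjective _ _ Ideal.Quotient.mk_surjective, Ideal.mk_ker, hZ']
    change (y : PrimeSpectrum R) ∈ Set.range (PrimeSpectrum.comap (Ideal.Quotient.mk 𝔞)) ↔ _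
    rw [h1]
    rfl
  let f : Sp (R ⧸ 𝔞) ⟶ X := e ≫ j
  have hfr : Set.range f = (V : Set X)ᶜ := by
    ext q
    constructor
    · rintro ⟨y, rfl⟩
      rw [Scheme.Hom.comp_apply]
      exact (her _).1 ⟨y, rfl⟩
    · intro hq
      obtain ⟨y, rfl⟩ := cov q hq
      obtain ⟨y', rfl⟩ := (her y).2 hq
      exact ⟨y', by rw [Scheme.Hom.comp_apply]⟩
  have hf : IsClosedImmersion f := by
    refine IsClosedImmersion.of_isPreimmersion _ ?_
    rw [hfr]
    exact isClosed_compl_iff.2 V.isOpen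
  have hp : IsProper (f ≫ π) := inferInstance
  have hfin : IsFinite (f ≫ π) := IsFinite.iff_isProper_and_isAffineHom.2 ⟨hp, inferInstance⟩
  have hfp : f ≫ π = spMap (algebraMap A (R ⧸ 𝔞)) := by
    rw [Category.assoc, hj, spMap_comp'']
  rw [hfp] at hfin
  have h1 : (algebraMap A (R ⧸ 𝔞)).Finite := (IsFinite.SpecMap_iff _).1 hfin
  obtain ⟨F, hF, hF'⟩ := h1.to_isIntegral (Ideal.Quotient.mk 𝔞 z)
  refine ⟨F, hF, fun y hy => ?_⟩
  have h2 : Ideal.Quotient.mk 𝔞 (Polynomial.aeval z F) = 0 := by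
    rw [Polynomial.aeval_def, Polynomial.hom_eval₂]
    exact hF'
  exact (PrimeSpectrum.mem_vanishingIdeal _ _).1 (Ideal.Quotient.eq_zero_iff_mem.1 h2) y hy

end gen

section series

variable {I A : Type} [CommRing A]

theorem psI_mem (f : I → PowerSeries A) : psI I A f ∈ Pol I A 0 := fun i m hm => by
  rw [psI_apply]
  exact psl_coeff_neg _ _ (by omega)

theorem psI_inj {f g : I → PowerSeries A} (h : psI I A f = psI I A g) : f = g :=
  funext fun i => psl_inj (congrFun h i)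

theorem psI_lift {f : KK I A} (h : f ∈ Pol I A 0) : ∃ o, psI I A o = f :=
  ⟨fun i => tops A (f i), funext fun i => by
    rw [psI_apply]
    exact psl_tops fun m hm => h i m (by omega)⟩

theorem ccI_zero {f : I → PowerSeries A} (h : psI I A f ∈ Pol I A (-1)) : ccI I A f = 0 := by
  funext i
  have h1 := h i 0 (by norm_num)
  rw [psI_apply] at h1
  have h2 := psl_coeff (A := A) (f i) 0
  rw [Nat.cast_zero, h1] at h2
  rw [ccI_apply, Pi.zero_apply, ← PowerSeries.coeff_zero_eq_constantCoeff_apply, ← h2]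

theorem exists_Ti (u : I → PowerSeries A) (hu : IsUnit u) :
    psI I A ((fun _ => PowerSeries.X) * u) ∈ Pol I A (-1) ∧
    ∃ T ∈ Pol I A 1, psI I A ((fun _ => PowerSeries.X) * u) * T = 1 := by
  obtain ⟨v, hv⟩ := hu.exists_right_inv
  have h1 : psI I A (fun _ => PowerSeries.X) ∈ Pol I A (-1) := fun i m hm => by
    rw [psI_apply, psl, HahnSeries.ofPowerSeries_X, HahnSeries.coeff_single_of_ne (by omega)]
  let S : KK I A := fun _ => HahnSeries.single (-1) 1
  have h2 : S ∈ Pol I A 1 := fun i m hm => HahnSeries.coeff_single_of_ne (by omega)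
  have h3 : psI I A (fun _ => PowerSeries.X) * S = 1 := by
    funext i
    rw [Pi.mul_apply, psI_apply, psl, HahnSeries.ofPowerSeries_X, HahnSeries.single_mul_single]
    norm_num
  refine ⟨?_, S * psI I A v, ?_, ?_⟩
  · rw [map_mul]
    exact mul_mem_Pol h1 (psI_mem u)
  · exact mul_mem_Pol h2 (psI_mem v)
  · rw [map_mul]
    have h4 : psI I A u * psI I A v = 1 := by rw [← map_mul, hv, map_one]
    linear_combination (psI I A u * psI I A v) * h3 + h4

theorem pow_Pol {f : KK I A} {k : ℤ} (h : f ∈ Pol I A k) (m : ℕ) : f ^ m ∈ Pol I A (m * k) := by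
  induction m with
  | zero =>
    rw [pow_zero, Nat.cast_zero, zero_mul]
    exact one_mem_Pol0
  | succ m ih =>
    rw [pow_succ]
    refine Pol_mono (le_of_eq ?_) (mul_mem_Pol ih h)
    push_cast
    ring

/-- The inclusion of the first chart. -/
noncomputable def i1 (P : Subalgebra A (KK I A)) (z : P) : P →+* Rz P z :=
  (Subalgebra.inclusion (le_Rz P z) : P →ₐ[A] Rz P z)

/-- The inclusion of the second chart. -/
noncomputable def j2 (P : Subalgebra A (KK I A)) (z : P) : Rw P z →+* Rz P z :=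
  (Subalgebra.inclusion inf_le_left : Rw P z →ₐ[A] Rz P z)

end series

section main

variable {I A : Type} [CommRing A] {n : ℕ} {P : Subalgebra A (KK I A)}
  {p : Fin n → (P →ₐ[A] A)} {x : Fam n A} (M : Mod x P p)

/-- The complement of the punctures. -/
noncomputable def U : x.X.Opens :=
  haveI := M.jo
  M.j.opensRange

theorem mem_U (q : x.X) : q ∈ U M ↔ q ∈ Set.range M.j := Iff.rfl

theorem affU : IsAffineOpen (U M) :=
  haveI := M.jo
  isAffineOpen_opensRange M.j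

theorem leU : ⊤ ≤ M.j ⁻¹ᵁ U M := fun y _ => ⟨y, rfl⟩

/-- The generic expansion. -/
noncomputable def g : Sp (KK I A) ⟶ x.X := spMap (P.val : P →+* KK I A) ≫ M.j

theorem g_eq : g M = spMap (psI I A) ≫ M.sh := M.cmp.symm

theorem g_leU : ⊤ ≤ g M ⁻¹ᵁ U M := fun y _ => ⟨spMap (P.val : P →+* KK I A) y, by
  rw [g, Scheme.Hom.comp_apply]⟩

theorem g_le {V : x.X.Opens} (le : ⊤ ≤ M.sh ⁻¹ᵁ V) : ⊤ ≤ g M ⁻¹ᵁ V := fun y _ => by
  change g M y ∈ V
  rw [g_eq, Scheme.Hom.comp_apply]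
  exact le (show spMap (psI I A) y ∈ (⊤ : (Sp (I → PowerSeries A)).Opens) from trivial)

theorem g_le2 {V : x.X.Opens} (le : ⊤ ≤ M.sh ⁻¹ᵁ V) : ⊤ ≤ g M ⁻¹ᵁ (U M ⊓ V) := fun y hy =>
  ⟨g_leU M hy, g_le M le hy⟩

theorem gm_U {W : x.X.Opens} (h : W ≤ U M) (h' : ⊤ ≤ g M ⁻¹ᵁ W) (v : Γ(x.X, U M)) :
    gm (g M) W h' (rs x.X h v) = (gm M.j (U M) (leU M) v : KK I A) :=
  gm_rs M.j (P.val : P →+* KK I A) (g M) rfl h (leU M) h' v

theorem gm_V {V W : x.X.Opens} (le : ⊤ ≤ M.sh ⁻¹ᵁ V) (h : W ≤ V) (h' : ⊤ ≤ g M ⁻¹ᵁ W)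
    (v : Γ(x.X, V)) : gm (g M) W h' (rs x.X h v) = psI I A (gm M.sh V le v) :=
  gm_rs M.sh (psI I A) (g M) (g_eq M) h le h' v

theorem gm_g {V W : x.X.Opens} (h : W ≤ V) (h' : ⊤ ≤ g M ⁻¹ᵁ W) (h'' : ⊤ ≤ g M ⁻¹ᵁ V)
    (v : Γ(x.X, V)) : gm (g M) W h' (rs x.X h v) = gm (g M) V h'' v :=
  gm_rs (g M) (RingHom.id _) (g M) (by
    have : spMap (RingHom.id (KK I A)) = 𝟙 _ := Spec.map_id _
    rw [this, Category.id_comp]) h h'' h' v

/-- A neighbourhood of the punctures. -/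
structure LD (V : x.X.Opens) (t : Γ(x.X, V)) : Prop where
  le : ⊤ ≤ M.sh ⁻¹ᵁ V
  aff : IsAffineOpen V
  bas : U M ⊓ V = x.X.basicOpen t
  nzd : ∀ v, t * v = 0 → v = 0
  gmt : ∃ u : I → PowerSeries A, IsUnit u ∧ gm M.sh V le t = (fun _ => PowerSeries.X) * u
  ker : ∀ v, ccI I A (gm M.sh V le v) = 0 → ∃ r, v = t * r

theorem exists_LD : ∃ V t, LD M V t := by
  obtain ⟨V, t, le, aff, bas, nzd, gmt, ker, -⟩ := M.loc
  exact ⟨V, t, le, aff, TopologicalSpace.Opens.ext bas.symm, nzd, gmt, ker⟩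

variable {M}

section LD

variable {V : x.X.Opens} {t : Γ(x.X, V)} (L : LD M V t)

include L

theorem LD.T : psI I A (gm M.sh V L.le t) ∈ Pol I A (-1) ∧
    ∃ T ∈ Pol I A 1, psI I A (gm M.sh V L.le t) * T = 1 := by
  obtain ⟨u, hu, h⟩ := L.gmt
  rw [h]
  exact exists_Ti u hu

theorem LD.nzd_pow (k : ℕ) (v : Γ(x.X, V)) (h : t ^ k * v = 0) : v = 0 := by
  induction k with
  | zero => rwa [pow_zero, one_mul] at h
  | succ k ih =>
    refine ih (L.nzd _ ?_)
    rw [← h]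
    ring

theorem LD.divA (k : ℕ) (v : Γ(x.X, V)) (h : psI I A (gm M.sh V L.le v) ∈ Pol I A (-(k : ℤ))) :
    ∃ r, v = t ^ k * r := by
  induction k generalizing v with
  | zero => exact ⟨v, by rw [pow_zero, one_mul]⟩
  | succ k ih =>
    obtain ⟨-, T, hT, hT1⟩ := L.T
    obtain ⟨r, rfl⟩ := L.ker v (ccI_zero (Pol_mono (by push_cast; omega) h))
    obtain ⟨r', hr'⟩ := ih r (by
      have h1 := mul_mem_Pol h hT
      have h2 : psI I A (gm M.sh V L.le (t * r)) * T = psI I A (gm M.sh V L.le r) := by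
        rw [map_mul, map_mul]
        linear_combination (psI I A (gm M.sh V L.le r)) * hT1
      rw [h2] at h1
      exact Pol_mono (by push_cast; omega) h1)
    exact ⟨r', by rw [hr', pow_succ]; ring⟩

theorem LD.unit_t : IsUnit (rs x.X (inf_le_right : U M ⊓ V ≤ V) t) :=
  unit_res t _ L.bas.le

theorem LD.divB (s : Γ(x.X, U M ⊓ V)) (h : gm (g M) (U M ⊓ V) (g_le2 M L.le) s ∈ Pol I A 0) :
    ∃ v : Γ(x.X, V), s = rs x.X inf_le_right v := by
  obtain ⟨m, v, hv⟩ := loc_surj L.aff t inf_le_right L.bas s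
  have h1 := congrArg (gm (g M) (U M ⊓ V) (g_le2 M L.le)) hv
  rw [map_mul, map_pow, gm_V M L.le, gm_V M L.le] at h1
  have h2 : psI I A (gm M.sh V L.le v) ∈ Pol I A (-(m : ℤ)) := by
    rw [← h1]
    refine Pol_mono (le_of_eq ?_) (mul_mem_Pol h (pow_Pol L.T.1 m))
    ring
  obtain ⟨r, rfl⟩ := L.divA m v h2
  refine ⟨r, ?_⟩
  rw [map_mul, map_pow, mul_comm s] at hv
  exact (L.unit_t.pow m).mul_left_cancel hv

theorem LD.inj (v : Γ(x.X, V)) (h : rs x.X (inf_le_right : U M ⊓ V ≤ V) v = 0) : v = 0 := by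
  obtain ⟨m, hm⟩ := loc_inj L.aff t inf_le_right L.bas v h
  exact L.nzd_pow m v hm

theorem LD.shrink (b : Γ(x.X, V)) (hb : IsUnit (gm M.sh V L.le b)) :
    LD M (x.X.basicOpen b) (rs x.X (x.X.basicOpen_le b) t) := by
  have le : ⊤ ≤ M.sh ⁻¹ᵁ (x.X.basicOpen b) := le_basicOpen_gm _ _ _ _ hb
  have hV : x.X.basicOpen b ≤ V := x.X.basicOpen_le b
  have hub : IsUnit (rs x.X hV b) := unit_res b _ le_rfl
  have hgm : ∀ v : Γ(x.X, V), gm M.sh (x.X.basicOpen b) le (rs x.X hV v) = gm M.sh V L.le v := by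
    intro v
    refine gm_rs M.sh (RingHom.id _) M.sh ?_ hV L.le le v
    have : spMap (RingHom.id (I → PowerSeries A)) = 𝟙 _ := Spec.map_id _
    rw [this, Category.id_comp]
  refine ⟨le, L.aff.basicOpen b, ?_, ?_, ?_, ?_⟩
  · rw [show x.X.basicOpen (rs x.X hV t) = x.X.basicOpen b ⊓ x.X.basicOpen t from
      x.X.basicOpen_res t (homOfLE hV).op, ← L.bas]
    apply le_antisymm
    · exact fun q hq => ⟨hq.2, hq.1, hV hq.2⟩
    · exact fun q hq => ⟨hq.2.1, hq.1⟩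
  · intro v hv
    obtain ⟨m, c, hc⟩ := loc_surj L.aff b hV rfl v
    have h1 : rs x.X hV (t * c) = 0 := by
      rw [map_mul, ← hc, ← mul_assoc, hv, zero_mul]
    obtain ⟨k, hk⟩ := loc_inj L.aff b hV rfl _ h1
    have h2 : b ^ k * c = 0 := L.nzd _ (by rw [← hk]; ring)
    have h3 : rs x.X hV b ^ k * (v * rs x.X hV b ^ m) = 0 := by
      rw [hc, ← map_pow, ← map_mul, h2, map_zero]
    have h4 : rs x.X hV b ^ (k + m) * v = 0 := by
      rw [← h3]
      ring
    exact ((hub.pow (k + m)).mul_right_eq_zero).1 h4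
  · obtain ⟨u, hu, h⟩ := L.gmt
    exact ⟨u, hu, by rw [hgm, h]⟩
  · intro v hv
    obtain ⟨m, c, hc⟩ := loc_surj L.aff b hV rfl v
    have h1 : ccI I A (gm M.sh V L.le c) = 0 := by
      rw [← hgm, ← hc, map_mul, map_mul, hv, zero_mul]
    obtain ⟨r, rfl⟩ := L.ker c h1
    obtain ⟨i, hi⟩ := hub.exists_right_inv
    refine ⟨rs x.X hV r * i ^ m, ?_⟩
    rw [map_mul] at hc
    have h2 : rs x.X hV b ^ m * i ^ m = 1 := by rw [← mul_pow, hi, one_pow]
    linear_combination (i ^ m) * hc - v * h2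

end LD

variable (M)

theorem exists_monic (hx : IsProper x.π) {V : x.X.Opens} (le : ⊤ ≤ M.sh ⁻¹ᵁ V) (z : P) :
    ∃ F : Polynomial A, F.Monic ∧ ∀ y : Sp P, M.j y ∉ V → Polynomial.aeval z F ∈ y.asIdeal := by
  have := M.jo
  refine exists_monic0 M.j x.π M.jp hx V ?_ z
  intro q hq
  rcases M.cov q with h | ⟨y, rfl⟩
  · exact h
  · refine absurd ?_ hq
    rw [Scheme.Hom.comp_apply]
    exact le (show spMap (ccI I A) y ∈ (⊤ : (Sp (I → PowerSeries A)).Opens) from trivial)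

/-- The second chart. -/
structure MD (z : Pole P) (zU : Γ(x.X, U M)) (V : x.X.Opens) (t v : Γ(x.X, V)) : Prop where
  L : LD M V t
  hz : gm M.j (U M) (leU M) zU = z.z
  uv : IsUnit v
  rel : rs x.X (inf_le_left : U M ⊓ V ≤ U M) zU * rs x.X inf_le_right t ^ z.d =
    rs x.X inf_le_right v

theorem exists_MD (z : Pole P) : ∃ zU V t v, MD M z zU V t v := by
  have := M.jo
  obtain ⟨zU, hz⟩ := (gm_bij M.j (U M) (leU M) rfl).2 z.z
  obtain ⟨V, t, L⟩ := exists_LD M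
  obtain ⟨hT, T, hT', hTT⟩ := L.T
  have h0 : gm (g M) (U M ⊓ V) (g_le2 M L.le) (rs x.X (inf_le_left : U M ⊓ V ≤ U M) zU *
      rs x.X inf_le_right t ^ z.d) = z.z * psI I A (gm M.sh V L.le t) ^ z.d := by
    rw [map_mul, map_pow, gm_U, gm_V M L.le, hz]
  obtain ⟨v, hv⟩ := L.divB (rs x.X (inf_le_left : U M ⊓ V ≤ U M) zU *
      rs x.X inf_le_right t ^ z.d) (by
    rw [h0]
    refine Pol_mono (le_of_eq ?_) (mul_mem_Pol z.mon.1 (pow_Pol hT z.d))
    ring)
  have hu : IsUnit (gm M.sh V L.le v) := by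
    obtain ⟨o, ho⟩ := psI_lift (Pol_mono (show -(z.d : ℤ) + (z.d * 1 : ℤ) ≤ 0 by omega)
      (mul_mem_Pol z.mem (pow_Pol hT' z.d)))
    refine IsUnit.of_mul_eq_one o (psI_inj ?_)
    have h1 := congrArg (gm (g M) (U M ⊓ V) (g_le2 M L.le)) hv
    rw [h0, gm_V M L.le] at h1
    rw [map_mul, ho, ← h1, map_one]
    have h2 : psI I A (gm M.sh V L.le t) ^ z.d * T ^ z.d = 1 := by
      rw [← mul_pow, hTT, one_pow]
    linear_combination (z.z : KK I A) * z.w * h2 + z.zw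
  have hV : x.X.basicOpen v ≤ V := x.X.basicOpen_le v
  have hle : U M ⊓ x.X.basicOpen v ≤ U M ⊓ V := inf_le_inf_left _ hV
  refine ⟨zU, x.X.basicOpen v, rs x.X hV t, rs x.X hV v, L.shrink v hu, hz,
    unit_res v _ le_rfl, ?_⟩
  have h1 := congrArg (rs x.X hle) hv
  rw [map_mul, map_pow, AFF.rs_rs, AFF.rs_rs, AFF.rs_rs] at h1
  rw [AFF.rs_rs, AFF.rs_rs]
  exact h1

variable {M}

section MD

variable {z : Pole P} {zU : Γ(x.X, U M)} {V : x.X.Opens} {t v : Γ(x.X, V)}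
  (H : MD M z zU V t v)

include H

theorem MD.unit_z : IsUnit (rs x.X (inf_le_left : U M ⊓ V ≤ U M) zU) := by
  have h1 : IsUnit (rs x.X (inf_le_right : U M ⊓ V ≤ V) v) := H.uv.map _
  rw [← H.rel] at h1
  exact isUnit_of_mul_isUnit_left h1

theorem MD.inf_le : U M ⊓ V ≤ x.X.basicOpen zU := by
  have h1 := x.X.basicOpen_of_isUnit H.unit_z
  rw [show x.X.basicOpen (rs x.X (inf_le_left : U M ⊓ V ≤ U M) zU) =
    (U M ⊓ V) ⊓ x.X.basicOpen zU from
      x.X.basicOpen_res zU (homOfLE (inf_le_left : U M ⊓ V ≤ U M)).op] at h1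
  rw [← h1]
  exact inf_le_right

theorem MD.glue (a : Γ(x.X, x.X.basicOpen zU)) (b : Γ(x.X, V))
    (h : rs x.X H.inf_le a = rs x.X inf_le_right b) :
    ∃ c : Γ(x.X, x.X.basicOpen zU ⊔ V), rs x.X le_sup_left c = a ∧ rs x.X le_sup_right c = b :=
  AFF.glue le_sup_left le_sup_right le_rfl H.inf_le inf_le_right
    (inf_le_inf_right _ (x.X.basicOpen_le zU)) a b h

theorem MD.leD : ⊤ ≤ M.sh ⁻¹ᵁ (x.X.basicOpen zU ⊔ V) := fun y hy =>
  le_sup_right (a := x.X.basicOpen zU) (H.L.le hy)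

theorem MD.lez : ⊤ ≤ g M ⁻¹ᵁ (x.X.basicOpen zU) := fun y hy =>
  H.inf_le (g_le2 M H.L.le hy)

theorem MD.exists_w : ∃ w : Γ(x.X, x.X.basicOpen zU ⊔ V),
    rs x.X le_sup_left w * rs x.X (x.X.basicOpen_le zU) zU = 1 ∧
      x.X.basicOpen w = x.X.basicOpen zU := by
  obtain ⟨i, hi⟩ := (unit_res zU (x.X.basicOpen_le zU) le_rfl).exists_left_inv
  obtain ⟨v', hv'⟩ := H.uv.exists_right_inv
  obtain ⟨w, h1, h2⟩ := H.glue i (t ^ z.d * v') (by
    have e1 := congrArg (rs x.X H.inf_le) hi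
    rw [map_mul, AFF.rs_rs, map_one] at e1
    have e2 := congrArg (rs x.X (inf_le_right : U M ⊓ V ≤ V)) hv'
    rw [map_mul, map_one, ← H.rel] at e2
    rw [map_mul, map_pow]
    linear_combination (rs x.X (inf_le_right : U M ⊓ V ≤ V) t ^ z.d *
      rs x.X (inf_le_right : U M ⊓ V ≤ V) v') * e1 - (rs x.X H.inf_le i) * e2)
  have h3 : x.X.basicOpen zU ≤ x.X.basicOpen w := by
    have h4 : IsUnit (rs x.X le_sup_left w) := IsUnit.of_mul_eq_one _ (by rw [h1, hi])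
    have h5 := x.X.basicOpen_of_isUnit h4
    rw [show x.X.basicOpen (rs x.X le_sup_left w) = x.X.basicOpen zU ⊓ x.X.basicOpen w from
        x.X.basicOpen_res w (homOfLE le_sup_left).op] at h5
    exact h5.ge.trans inf_le_right
  refine ⟨w, by rw [h1, hi], le_antisymm ?_ h3⟩
  intro q hq
  rcases x.X.basicOpen_le w hq with h4 | h4
  · exact h4
  · have h5 : q ∈ x.X.basicOpen (rs x.X le_sup_right w) := by
      rw [show x.X.basicOpen (rs x.X le_sup_right w) = V ⊓ x.X.basicOpen w from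
        x.X.basicOpen_res w (homOfLE le_sup_right).op]
      exact ⟨h4, hq⟩
    rw [h2, Scheme.basicOpen_mul, Scheme.basicOpen_pow _ _ z.pos, ← H.L.bas] at h5
    exact H.inf_le h5.1

theorem MD.affD (hx : IsProper x.π) : IsAffineOpen (x.X.basicOpen zU ⊔ V) := by
  have hzU := x.X.basicOpen_le zU
  obtain ⟨w, hw1, hw2⟩ := H.exists_w
  obtain ⟨F, hF, hF'⟩ := exists_monic M hx H.L.le z.z
  let c := coef x.π (x.X.basicOpen zU ⊔ V)
  have h0 : F.reverse.divX * Polynomial.X + 1 = F.reverse := by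
    have h1 := Polynomial.divX_mul_X_add F.reverse
    rwa [Polynomial.coeff_zero_reverse, hF.leadingCoeff, Polynomial.C_1] at h1
  set h := F.reverse.eval₂ c w with hh
  have h1 : F.reverse.divX.eval₂ c w * w + 1 = h := by
    rw [hh]
    conv_rhs => rw [← h0]
    rw [Polynomial.eval₂_add, Polynomial.eval₂_mul, Polynomial.eval₂_X, Polynomial.eval₂_one]
  have hV : x.X.basicOpen h ≤ V := by
    intro q hq
    by_contra hqV
    have hqz : q ∈ x.X.basicOpen zU := (x.X.basicOpen_le h hq).resolve_right hqV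
    obtain ⟨y, rfl⟩ : q ∈ Set.range M.j := hzU hqz
    let _ : Invertible (rs x.X hzU zU) := ⟨rs x.X le_sup_left w, hw1, by rw [mul_comm]; exact hw1⟩
    have h2 := Polynomial.eval₂_reverse_mul_pow (coef x.π (x.X.basicOpen zU)) (rs x.X hzU zU) F
    have h3 : rs x.X le_sup_left h = F.reverse.eval₂ (coef x.π (x.X.basicOpen zU))
        (⅟ (rs x.X hzU zU)) := by
      rw [hh, Polynomial.hom_eval₂]
      congr 1
      exact RingHom.ext fun a => coef_rs _ _ a
    rw [← h3] at h2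
    have h4 : M.j y ∈ x.X.basicOpen (rs x.X le_sup_left h * rs x.X hzU zU ^ F.natDegree) := by
      rw [Scheme.basicOpen_mul]
      refine ⟨?_, ?_⟩
      · rw [show x.X.basicOpen (rs x.X le_sup_left h) = x.X.basicOpen zU ⊓ x.X.basicOpen h from
          x.X.basicOpen_res h (homOfLE le_sup_left).op]
        exact ⟨hqz, hq⟩
      · rw [x.X.basicOpen_of_isUnit ((isUnit_of_invertible (rs x.X hzU zU)).pow _)]
        exact hqz
    have h5 : F.eval₂ (coef x.π (x.X.basicOpen zU)) (rs x.X hzU zU) =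
        rs x.X hzU (F.eval₂ (coef x.π (U M)) zU) := by
      rw [Polynomial.hom_eval₂]
      congr 1
      exact (RingHom.ext fun a => coef_rs _ _ a).symm
    rw [h2, h5, show x.X.basicOpen (rs x.X hzU (F.eval₂ (coef x.π (U M)) zU)) =
      x.X.basicOpen zU ⊓ x.X.basicOpen (F.eval₂ (coef x.π (U M)) zU) from
        x.X.basicOpen_res _ (homOfLE hzU).op] at h4
    have h6 := (mem_basicOpen_gm M.j (U M) (leU M) _ y).1 h4.2
    refine h6 ?_
    rw [Polynomial.hom_eval₂, H.hz]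
    have h7 : (gm M.j (U M) (leU M)).comp (coef x.π (U M)) = algebraMap A P :=
      RingHom.ext fun a => gm_coef M.j x.π (algebraMap A P) M.jp _ _ a
    rw [h7]
    exact hF' y hqV
  refine isAffineOpen_of_isAffineOpen_basicOpen _ {w, h} ?_ ?_
  · rw [Ideal.eq_top_iff_one]
    have e : (1 : Γ(x.X, x.X.basicOpen zU ⊔ V)) = h - F.reverse.divX.eval₂ c w * w := by
      rw [← h1]
      ring
    rw [e]
    exact Ideal.sub_mem _ (Ideal.subset_span (by simp))
      (Ideal.mul_mem_left _ _ (Ideal.subset_span (by simp)))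
  · intro i hi
    rcases hi with rfl | hi
    · rw [hw2]
      exact (affU M).basicOpen zU
    · rw [Set.mem_singleton_iff] at hi
      subst hi
      have h2 : x.X.basicOpen (rs x.X le_sup_right h) = V ⊓ x.X.basicOpen h :=
        x.X.basicOpen_res h (homOfLE le_sup_right).op
      rw [inf_eq_right.2 hV] at h2
      rw [← h2]
      exact H.L.aff.basicOpen _

theorem MD.gm_z (c : Γ(x.X, x.X.basicOpen zU ⊔ V)) :
    gm (g M) (x.X.basicOpen zU) H.lez (rs x.X le_sup_left c) =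
      gm (g M) (x.X.basicOpen zU ⊔ V) (g_le M H.leD) c :=
  gm_g M le_sup_left H.lez (g_le M H.leD) c

theorem MD.gm_a (a : Γ(x.X, U M)) :
    gm (g M) (x.X.basicOpen zU) H.lez (rs x.X (x.X.basicOpen_le zU) a) =
      (gm M.j (U M) (leU M) a : KK I A) :=
  gm_U M (x.X.basicOpen_le zU) H.lez a

theorem MD.gm_mem (c : Γ(x.X, x.X.basicOpen zU ⊔ V)) :
    gm (g M) (x.X.basicOpen zU ⊔ V) (g_le M H.leD) c ∈ Rw P z.z := by
  have hzU := x.X.basicOpen_le zU
  refine ⟨?_, ?_⟩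
  · obtain ⟨m, a, ha⟩ := loc_surj (affU M) zU hzU rfl (rs x.X le_sup_left c)
    have h1 := congrArg (gm (g M) (x.X.basicOpen zU) H.lez) ha
    have e1 := H.gm_a zU
    have e2 := H.gm_a a
    have e3 := H.gm_z c
    rw [H.hz] at e1
    rw [map_mul, map_pow, e1, e2, e3] at h1
    refine ⟨m, ?_⟩
    rw [mul_comm, h1]
    exact (gm M.j (U M) (leU M) a).2
  · have h1 := gm_comp M.sh (psI I A) (g M) (g_eq M) (x.X.basicOpen zU ⊔ V) H.leD
      (g_le M H.leD) c
    rw [h1]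
    exact psI_mem _

/-- The functions on the second chart. -/
noncomputable def MD.ρ : Γ(x.X, x.X.basicOpen zU ⊔ V) →+* Rw P z.z :=
  (gm (g M) (x.X.basicOpen zU ⊔ V) (g_le M H.leD)).codRestrict (Rw P z.z) H.gm_mem

theorem MD.ρ_val (c : Γ(x.X, x.X.basicOpen zU ⊔ V)) :
    (H.ρ c : KK I A) = gm (g M) (x.X.basicOpen zU ⊔ V) (g_le M H.leD) c := rfl

theorem MD.ρ_bij : Function.Bijective H.ρ := by
  have := M.jo
  have hzU := x.X.basicOpen_le zU
  have hbij := gm_bij M.j (U M) (leU M) rfl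
  constructor
  · rw [injective_iff_map_eq_zero]
    intro c hc
    have h0 : gm (g M) (x.X.basicOpen zU ⊔ V) (g_le M H.leD) c = 0 := congrArg Subtype.val hc
    obtain ⟨m, a, ha⟩ := loc_surj (affU M) zU hzU rfl (rs x.X le_sup_left c)
    have h1 := congrArg (gm (g M) (x.X.basicOpen zU) H.lez) ha
    rw [map_mul, H.gm_z c, h0, zero_mul, H.gm_a a] at h1
    have h2 : gm M.j (U M) (leU M) a = 0 := Subtype.ext h1.symm
    have h3 : a = 0 := hbij.1 (by rw [h2, map_zero])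
    rw [h3, map_zero] at ha
    have h4 : rs x.X le_sup_left c = 0 :=
      (((unit_res zU hzU le_rfl).pow m).mul_left_eq_zero).1 ha
    have h5 : rs x.X le_sup_right c = 0 := by
      apply H.L.inj
      have h6 := congrArg (rs x.X H.inf_le) h4
      rw [AFF.rs_rs, map_zero] at h6
      rw [AFF.rs_rs]
      exact h6
    refine x.X.sheaf.eq_of_locally_eq₂ (homOfLE le_sup_left) (homOfLE le_sup_right) le_rfl _ _
      ?_ ?_
    · change rs x.X le_sup_left c = rs x.X le_sup_left 0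
      rw [h4, map_zero]
    · change rs x.X le_sup_right c = rs x.X le_sup_right 0
      rw [h5, map_zero]
  · intro r
    obtain ⟨m, hm⟩ := r.2.1
    obtain ⟨a, ha⟩ := hbij.2 ⟨_, hm⟩
    obtain ⟨i, hi⟩ := (unit_res zU hzU le_rfl).exists_right_inv
    have h1 : gm (g M) (x.X.basicOpen zU) H.lez i = z.w := by
      have h2 := congrArg (gm (g M) (x.X.basicOpen zU) H.lez) hi
      rw [map_mul, H.gm_a zU, H.hz, map_one] at h2
      linear_combination z.w * h2 - (gm (g M) (x.X.basicOpen zU) H.lez i) * z.zw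
    let b : Γ(x.X, x.X.basicOpen zU) := rs x.X hzU a * i ^ m
    have hb : gm (g M) (x.X.basicOpen zU) H.lez b = r := by
      rw [map_mul, map_pow, h1, H.gm_a a, ha]
      have h3 : (z.z : KK I A) ^ m * z.w ^ m = 1 := by rw [← mul_pow, z.zw, one_pow]
      linear_combination (r : KK I A) * h3
    obtain ⟨v', hv'⟩ := H.L.divB (rs x.X H.inf_le b) (by
      have h4 : gm (g M) (U M ⊓ V) (g_le2 M H.L.le) (rs x.X H.inf_le b) =
        gm (g M) (x.X.basicOpen zU) H.lez b := gm_g M H.inf_le (g_le2 M H.L.le) H.lez b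
      rw [h4, hb]
      exact r.2.2)
    obtain ⟨c, hc1, hc2⟩ := H.glue b v' hv'
    refine ⟨c, Subtype.ext ?_⟩
    rw [H.ρ_val, ← H.gm_z c, hc1, hb]

/-- The second chart. -/
noncomputable def MD.i2 (hx : IsProper x.π) : Sp (Rw P z.z) ⟶ x.X :=
  spMap H.ρ ≫ (H.affD hx).fromSpec

theorem MD.iso_ρ : IsIso (spMap H.ρ) := by
  have : IsIso (CommRingCat.ofHom H.ρ) := (ConcreteCategory.isIso_iff_bijective _).2 H.ρ_bij
  infer_instance

theorem MD.i2_open (hx : IsProper x.π) : IsOpenImmersion (H.i2 hx) := by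
  have := H.iso_ρ
  exact inferInstanceAs (IsOpenImmersion (spMap H.ρ ≫ (H.affD hx).fromSpec))

theorem MD.i2_range (hx : IsProper x.π) :
    Set.range (H.i2 hx) = (x.X.basicOpen zU ⊔ V : x.X.Opens) := by
  have := H.iso_ρ
  rw [← (H.affD hx).range_fromSpec]
  ext q
  constructor
  · rintro ⟨y, rfl⟩
    exact ⟨spMap H.ρ y, by rw [MD.i2, Scheme.Hom.comp_apply]⟩
  · rintro ⟨y, rfl⟩
    obtain ⟨y', rfl⟩ := (spMap H.ρ).surjective y
    exact ⟨y', by rw [MD.i2, Scheme.Hom.comp_apply]⟩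

theorem MD.i2_fac (hx : IsProper x.π) {R : Type} [CommRing R] (f : Sp R ⟶ x.X)
    (h : ⊤ ≤ f ⁻¹ᵁ (x.X.basicOpen zU ⊔ V)) (r : Rw P z.z →+* R)
    (hr : ∀ c, gm f (x.X.basicOpen zU ⊔ V) h c = r (H.ρ c)) : spMap r ≫ H.i2 hx = f := by
  have h1 : r.comp H.ρ = gm f (x.X.basicOpen zU ⊔ V) h := RingHom.ext fun c => (hr c).symm
  rw [MD.i2, ← Category.assoc, spMap_comp'', h1]
  exact (eq_fromSpec f _ (H.affD hx) h).symm

theorem MD.i2_sh (hx : IsProper x.π) : spMap (rshI z.z) ≫ H.i2 hx = M.sh := by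
  refine H.i2_fac hx M.sh H.leD (rshI z.z) fun c => psI_inj ?_
  rw [← gm_comp M.sh (psI I A) (g M) (g_eq M) (x.X.basicOpen zU ⊔ V) H.leD (g_le M H.leD) c,
    ← H.ρ_val]
  funext i
  exact (psl_rsh i (H.ρ c)).symm

theorem MD.i2_j (hx : IsProper x.π) :
    spMap (i1 P z.z) ≫ M.j = spMap (j2 P z.z) ≫ H.i2 hx := by
  set f : Sp (Rz P z.z) ⟶ x.X := spMap (i1 P z.z) ≫ M.j with hf
  have hle : ⊤ ≤ f ⁻¹ᵁ (x.X.basicOpen zU) := by
    have h1 : ⊤ ≤ f ⁻¹ᵁ U M := fun y _ => ⟨spMap (i1 P z.z) y, by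
      rw [hf, Scheme.Hom.comp_apply]⟩
    refine le_basicOpen_gm f (U M) h1 zU ?_
    rw [gm_comp M.j (i1 P z.z) f hf (U M) (leU M) h1 zU, H.hz]
    exact IsUnit.of_mul_eq_one (⟨z.w, z.mem_Rw.1⟩ : Rz P z.z) (Subtype.ext z.zw)
  have hle' : ⊤ ≤ f ⁻¹ᵁ (x.X.basicOpen zU ⊔ V) := fun y hy => le_sup_left (b := V) (hle hy)
  refine (H.i2_fac hx f hle' _ fun c => Subtype.ext ?_).symm
  have h2 : g M = spMap ((Rz P z.z).val : Rz P z.z →+* KK I A) ≫ f := by
    rw [hf, ← Category.assoc, spMap_comp'']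
    rfl
  exact (gm_comp f ((Rz P z.z).val : Rz P z.z →+* KK I A) (g M) h2 _ hle' (g_le M H.leD) c).symm

theorem MD.i2_pi (hx : IsProper x.π) :
    H.i2 hx ≫ x.π = spMap (algebraMap A (Rw P z.z)) := by
  have h1 : spMap (j2 P z.z) ≫ H.i2 hx ≫ x.π = spMap ((i1 P z.z).comp (algebraMap A P)) := by
    rw [← Category.assoc, ← H.i2_j hx, Category.assoc, M.jp, spMap_comp'']
  obtain ⟨φ, hφ⟩ : ∃ φ, Spec.map φ = H.i2 hx ≫ x.π := ⟨_, Spec.map_preimage _⟩
  rw [← hφ] at h1 ⊢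
  have h2 : φ ≫ CommRingCat.ofHom (j2 P z.z) =
      CommRingCat.ofHom ((i1 P z.z).comp (algebraMap A P)) := by
    apply Spec.map_injective
    rw [Spec.map_comp]
    exact h1
  have h4 : ∀ a, (φ.hom a : Rw P z.z) = algebraMap A (Rw P z.z) a := by
    intro a
    have h3 := congrArg (fun b : Rz P z.z => (b : KK I A)) (ConcreteCategory.congr_hom h2 a)
    exact Subtype.ext h3
  exact congrArg Spec.map (CommRingCat.hom_ext (RingHom.ext h4))

end MD

end main

end MIS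

open MIS in
theorem t_MIS : Stmt_MIS := by
  intro I A _ _ _ g n P p x hP hx M z
  obtain ⟨zU, V, t, v, H⟩ := exists_MD M z
  have := M.jo
  have := H.i2_open hx
  have hcov : ∀ q : x.X, q ∈ Set.range M.j ∨ q ∈ Set.range (H.i2 hx) := by
    intro q
    rcases M.cov q with h | ⟨y, rfl⟩
    · exact Or.inl h
    · refine Or.inr ?_
      rw [H.i2_range hx, Scheme.Hom.comp_apply]
      exact H.leD (show spMap (ccI I A) y ∈ (⊤ : (Sp (I → PowerSeries A)).Opens) from trivial)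
  have hinter : ∀ (a : Sp (kDuo z).R1) (b : Sp (kDuo z).R2), M.j a = H.i2 hx b →
      ∃ w : Sp (kDuo z).R12, spMap ((kDuo z).j1 : (kDuo z).R1 →+* (kDuo z).R12) w = a ∧
        spMap ((kDuo z).j2 : (kDuo z).R2 →+* (kDuo z).R12) w = b := by
    intro a b hab
    have h1 : M.j a ∈ x.X.basicOpen zU := by
      have h2 : H.i2 hx b ∈ Set.range (H.i2 hx) := ⟨b, rfl⟩
      rw [H.i2_range hx, ← hab] at h2
      rcases h2 with h2 | h2
      · exact h2
      · exact H.inf_le ⟨⟨a, rfl⟩, h2⟩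
    have h3 := (mem_basicOpen_gm M.j (U M) (leU M) zU a).1 h1
    rw [H.hz] at h3
    let _ : Algebra P (Rz P z.z) := (i1 P z.z).toAlgebra
    have h4 : IsLocalization.Away z.z (Rz P z.z) :=
      away_of (i1 P z.z) z.z (kDuo z).unit1 (kDuo z).ker1 (kDuo z).sur1
    have h5 : (a : PrimeSpectrum P) ∈ Set.range (PrimeSpectrum.comap (algebraMap P (Rz P z.z))) := by
      rw [PrimeSpectrum.localization_away_comap_range (Rz P z.z) z.z]
      exact h3
    obtain ⟨w, hw⟩ := h5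
    refine ⟨w, hw, ?_⟩
    refine (H.i2 hx).isOpenEmbedding.injective ?_
    rw [← hab]
    have h6 := congrArg (fun k : Sp (Rz P z.z) ⟶ x.X => k w) (H.i2_j hx)
    change (spMap (i1 P z.z) ≫ M.j) w = (spMap (j2 P z.z) ≫ H.i2 hx) w at h6
    rw [Scheme.Hom.comp_apply, Scheme.Hom.comp_apply] at h6
    refine h6.symm.trans ?_
    exact congrArg M.j hw
  have hj : IsOpenImmersion (show Sp (kDuo z).R1 ⟶ x.X from M.j) := M.jo
  have hi : IsOpenImmersion (show Sp (kDuo z).R2 ⟶ x.X from H.i2 hx) := H.i2_open hx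
  have hpush : IsPushout (spMap ((kDuo z).j1 : (kDuo z).R1 →+* (kDuo z).R12))
      (spMap ((kDuo z).j2 : (kDuo z).R2 →+* (kDuo z).R12)) (show Sp (kDuo z).R1 ⟶ x.X from M.j)
      (show Sp (kDuo z).R2 ⟶ x.X from H.i2 hx) :=
    glue_push (H.i2_j hx) hcov hinter
  let f : (xfam z p).X ⟶ x.X := hpush.isoPushout.inv
  have f1 : xin z p ≫ f = M.j := hpush.inl_isoPushout_inv
  have f2 : xin2 z p ≫ f = H.i2 hx := hpush.inr_isoPushout_inv
  have hid : spMap (RingHom.id A) = 𝟙 _ := Spec.map_id _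
  have hidi : IsIso (spMap (RingHom.id A)) := by
    rw [hid]
    infer_instance
  have hpi : f ≫ x.π = (xfam z p).π := by
    have e1 : (kDuo z).in1 ≫ f ≫ x.π = (kDuo z).in1 ≫ (kDuo z).pr := by
      rw [← Category.assoc]
      have h1 : (kDuo z).in1 ≫ f = M.j := f1
      rw [h1, (kDuo z).in1_pr]
      exact M.jp
    have e2 : (kDuo z).in2 ≫ f ≫ x.π = (kDuo z).in2 ≫ (kDuo z).pr := by
      rw [← Category.assoc]
      have h1 : (kDuo z).in2 ≫ f = H.i2 hx := f2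
      rw [h1, (kDuo z).in2_pr]
      exact H.i2_pi hx
    exact Duo.ext e1 e2
  refine ⟨⟨f, ?_, ?_⟩, ?_⟩
  · have : IsIso f := inferInstanceAs (IsIso hpush.isoPushout.inv)
    refine IsPullback.of_horiz_isIso ⟨?_⟩
    rw [hpi, hid, Category.comp_id]
  · intro i
    change (spMap (p i : P →+* A) ≫ xin z p) ≫ f = _
    rw [Category.assoc, f1, M.mrk, hid, Category.id_comp]
  · intro M' hM'
    have hk : kmap (I := I) (RingHom.id A) = RingHom.id _ := RingHom.ext fun a => funext fun i => by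
      ext m
      rfl
    have mem : ∀ a ∈ P, kmap (RingHom.id A) a ∈ P := fun a ha => by rw [hk]; exact ha
    have h1 : rres (kmap (RingHom.id A)) mem = RingHom.id P :=
      RingHom.ext fun a => Subtype.ext (by rw [rres_val, hk]; rfl)
    have h2 : psm I (RingHom.id A) = RingHom.id _ := RingHom.ext fun a => funext fun i => by
      rw [psm_apply, PowerSeries.map_id]
      rfl
    have h3 : spMap (RingHom.id P) = 𝟙 _ := Spec.map_id _
    have h4 : spMap (RingHom.id (I → PowerSeries A)) = 𝟙 _ := Spec.map_id _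
    refine ⟨mem, ?_, ?_⟩
    · rw [hM'.j, h1, h3, Category.id_comp]
      exact f1
    · rw [hM'.sh, xshI, Category.assoc, h2, h4, Category.id_comp]
      change spMap (rshI z.z) ≫ xin2 z p ≫ f = _
      rw [f2, H.i2_sh hx]

end Pool.Agent.MG.KX
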