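import Pool.Agent.MG.KX.StmtsM

/-!
# MOC: composition, cancellation, uniqueness of base changes of models
-/

open CategoryTheory CategoryTheory.Limits AlgebraicGeometry
open scoped TensorProduct

namespace Pool.Agent.MG.KX

open Pool.Agent.MG.G0 Pool.Agent.MG.GLU

namespace MOC

variable {I A B C : Type} [CommRing A] [CommRing B] [CommRing C]

theorem psm_comp (φ : A →+* B) (ψ : B →+* C) :
    (psm I ψ).comp (psm I φ) = psm I (ψ.comp φ) := by
  refine RingHom.ext fun f => funext fun i => ?_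
  change PowerSeries.map ψ (PowerSeries.map φ (f i)) = PowerSeries.map (ψ.comp φ) (f i)
  rw [PowerSeries.map_comp]
  rfl

theorem psm_alg (φ : A →+* B) : (psm I φ).comp (algebraMap A (I → PowerSeries A)) =
    (algebraMap B (I → PowerSeries B)).comp φ := by
  refine RingHom.ext fun a => funext fun i => ?_
  change PowerSeries.map φ (algebraMap A (PowerSeries A) a) = algebraMap B (PowerSeries B) (φ a)
  rw [PowerSeries.algebraMap_apply, PowerSeries.algebraMap_apply, PowerSeries.map_C]
  rfl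

theorem rres_comp (φ : A →+* B) (ψ : B →+* C) {P : Subalgebra A (KK I A)}
    {P' : Subalgebra B (KK I B)} {P'' : Subalgebra C (KK I C)} (h : ∀ f ∈ P, kmap φ f ∈ P')
    (h' : ∀ f ∈ P', kmap ψ f ∈ P'') (h'' : ∀ f ∈ P, kmap (ψ.comp φ) f ∈ P'') :
    (rres (kmap ψ) h').comp (rres (kmap φ) h) = rres (kmap (ψ.comp φ)) h'' :=
  RingHom.ext fun _ => Subtype.ext rfl

theorem rres_alg (φ : A →+* B) {P : Subalgebra A (KK I A)} {P' : Subalgebra B (KK I B)}
    (h : ∀ f ∈ P, kmap φ f ∈ P') :
    (rres (kmap φ) h).comp (algebraMap A P) = (algebraMap B P').comp φ :=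
  RingHom.ext fun a => Subtype.ext (kmap_algebraMap φ a)

end MOC

open MOC in
theorem t_MOC : Stmt_MOC := by
  refine ⟨?_, ?_⟩
  · intro I A B C _ _ _ n φ ψ χ P p P' p' P'' p'' x y w a b c M M' M'' hχ hf hM
    subst hχ
    refine ⟨fun h => ?_, fun h hm => ?_⟩
    · have mem : ∀ f ∈ P, kmap (ψ.comp φ) f ∈ P'' := fun f hf => h.mem _ (hM.mem f hf)
      refine ⟨mem, ?_, ?_⟩
      · rw [← hf, ← Category.assoc, h.j, Category.assoc, hM.j, ← Category.assoc, spMap_comp'',
          rres_comp φ ψ hM.mem h.mem mem]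
      · rw [← hf, ← Category.assoc, h.sh, Category.assoc, hM.sh, ← Category.assoc, spMap_comp'',
          psm_comp]
    · refine ⟨hm, a.cart.hom_ext ?_ ?_, a.cart.hom_ext ?_ ?_⟩
      · rw [Category.assoc, hf, h.j, Category.assoc, hM.j, ← Category.assoc, spMap_comp'',
          rres_comp φ ψ hM.mem hm h.mem]
      · rw [Category.assoc, b.cart.w, ← Category.assoc, M''.jp, Category.assoc, M'.jp,
          spMap_comp'', spMap_comp'', rres_alg]
      · rw [Category.assoc, hf, h.sh, Category.assoc, hM.sh, ← Category.assoc, spMap_comp'',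
          psm_comp]
      · rw [Category.assoc, b.cart.w, ← Category.assoc, M''.shp, Category.assoc, M'.shp,
          spMap_comp'', spMap_comp'', psm_alg]
  · intro I A B _ _ n φ P p P' p' x y a M M' M'' h h'
    refine ⟨a.cart.hom_ext ?_ ?_, a.cart.hom_ext ?_ ?_⟩
    · rw [h.j, h'.j]
    · rw [M'.jp, M''.jp]
    · rw [h.sh, h'.sh]
    · rw [M'.shp, M''.shp]

end Pool.Agent.MG.KX
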