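import Pool.Agent.MG.KX.StmtsM

/-!
# Change of the index set of a model

The module MRX.
-/

open CategoryTheory CategoryTheory.Limits AlgebraicGeometry
open scoped TensorProduct

namespace Pool.Agent.MG.KX

open Pool.Agent.MG.G0 Pool.Agent.MG.GLU

namespace MRX

theorem sp_inv {A B : Type} [CommRing A] [CommRing B] (f : A →+* B) (g : B →+* A)
    (h1 : f.comp g = RingHom.id B) (h2 : g.comp f = RingHom.id A) : IsIso (spMap f) := by
  refine ⟨spMap g, ?_, ?_⟩
  · rw [spMap_comp'', h1]
    exact Spec.map_id _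
  · rw [spMap_comp'', h2]
    exact Spec.map_id _

theorem range_iso {X Y Z : Scheme.{0}} (g : X ⟶ Y) (f : Y ⟶ Z) [IsIso g] :
    Set.range (g ≫ f) = Set.range f := by
  ext q
  constructor
  · rintro ⟨x, rfl⟩
    exact ⟨g x, rfl⟩
  · rintro ⟨y, rfl⟩
    refine ⟨(inv g) y, ?_⟩
    have h : inv g ≫ g ≫ f = f := by rw [IsIso.inv_hom_id_assoc]
    have h1 : (inv g ≫ g ≫ f) y = f y := by rw [h]
    exact h1

section

variable {I I' : Type} {A B : Type} [CommRing A] [CommRing B]

/-- The ring homomorphism `P → reix e P`. -/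
noncomputable abbrev rr (e : I' ≃ I) (P : Subalgebra A (KK I A)) : P →+* reix e P :=
  rres (idx e) (P' := reix e P) fun _ hf => idx_mem_reix e hf

/-- Its inverse. -/
noncomputable def ss (e : I' ≃ I) (P : Subalgebra A (KK I A)) : reix e P →+* P :=
  rres (idx e.symm) (P' := P) fun _ hf => hf

theorem iso_rr (e : I' ≃ I) (P : Subalgebra A (KK I A)) : IsIso (spMap (rr e P)) := by
  refine sp_inv _ (ss e P) ?_ ?_
  · ext f : 1
    refine Subtype.ext (funext fun i => ?_)
    change (f : KK I' A) (e.symm (e i)) = (f : KK I' A) i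
    rw [Equiv.symm_apply_apply]
  · ext f : 1
    refine Subtype.ext (funext fun i => ?_)
    change (f : KK I A) (e (e.symm i)) = (f : KK I A) i
    rw [Equiv.apply_symm_apply]

theorem iso_idx {R : Type} [CommRing R] (e : I' ≃ I) : IsIso (spMap (idx (R := R) e)) := by
  refine sp_inv _ (idx (R := R) e.symm) ?_ ?_
  · ext f i
    change f (e.symm (e i)) = f i
    rw [Equiv.symm_apply_apply]
  · ext f i
    change f (e (e.symm i)) = f i
    rw [Equiv.apply_symm_apply]

theorem range_cc {x : Scheme.{0}} (e : I' ≃ I) (sh : Sp (I → PowerSeries A) ⟶ x) :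
    Set.range (spMap (ccI I' A) ≫ spMap (idx e) ≫ sh) = Set.range (spMap (ccI I A) ≫ sh) := by
  have h : (ccI I' A).comp (idx e) = (idx e).comp (ccI I A) := rfl
  have h1 : spMap (ccI I' A) ≫ spMap (idx e) ≫ sh =
      spMap (idx (R := A) e) ≫ spMap (ccI I A) ≫ sh := by
    rw [← Category.assoc, ← Category.assoc, spMap_comp'', spMap_comp'', h]
  have := iso_idx (R := A) e
  rw [h1, range_iso]

end

theorem exists_model {I I' A : Type} [CommRing A] {n : ℕ} {P : Subalgebra A (KK I A)}
    {p : Fin n → (P →ₐ[A] A)} {x : Fam n A} (e : I' ≃ I) (M : Mod x P p)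
    (p' : Fin n → (reix e P →ₐ[A] A))
    (hp : ∀ i (f : P), p' i ⟨idx e (f : KK I A), idx_mem_reix e f.2⟩ = p i f) :
    ∃ M' : Mod x (reix e P) p', M.IsReix e M' := by
  have i1 := iso_rr e P
  have i2 := M.jo
  have hj : Set.range (spMap (rr e P) ≫ M.j) = Set.range M.j := range_iso _ _
  refine ⟨
    { j := spMap (rr e P) ≫ M.j
      jo := inferInstance
      jp := ?_
      sh := spMap (idx e) ≫ M.sh
      shp := ?_
      cmp := ?_
      cov := ?_
      exc := ?_
      mrk := ?_
      loc := ?_ }, ⟨rfl, rfl⟩⟩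
  · rw [Category.assoc, M.jp, spMap_comp'']
    rfl
  · rw [Category.assoc, M.shp, spMap_comp'']
    rfl
  · have h1 : (psI I' A).comp (idx e) = (idx e).comp (psI I A) := rfl
    have h2 : ((reix e P).val : reix e P →+* KK I' A).comp (rr e P) =
      (idx e).comp (P.val : P →+* KK I A) := rfl
    rw [← Category.assoc, ← Category.assoc, spMap_comp'', spMap_comp'', h1, h2, ← spMap_comp'',
      ← spMap_comp'', Category.assoc, Category.assoc, M.cmp]
  · intro q
    rw [hj, range_cc]
    exact M.cov q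
  · intro q
    rw [hj, range_cc]
    exact M.exc q
  · intro i
    have h1 : (p' i : reix e P →+* A).comp (rr e P) = (p i : P →+* A) :=
      RingHom.ext fun f => hp i f
    rw [← Category.assoc, spMap_comp'', h1]
    exact M.mrk i
  · obtain ⟨V, t, le, hV, hb, hz, ⟨u, hu, hut⟩, hk, hs⟩ := M.loc
    have le' : ⊤ ≤ (spMap (idx (R := PowerSeries A) e) ≫ M.sh) ⁻¹ᵁ V := fun y _ =>
      le (show (spMap (idx (R := PowerSeries A) e) y) ∈ (⊤ : (Sp (I → PowerSeries A)).Opens) from
        trivial)
    have hg : ∀ v, gm (spMap (idx (R := PowerSeries A) e) ≫ M.sh) V le' v =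
        idx e (gm M.sh V le v) := fun v => gm_comp M.sh (idx e) _ rfl V le le' v
    have hc : ∀ v, ccI I' A (gm (spMap (idx (R := PowerSeries A) e) ≫ M.sh) V le' v) =
        idx e (ccI I A (gm M.sh V le v)) := fun v => by
      rw [hg]
      rfl
    refine ⟨V, t, le', hV, by rw [hj]; exact hb, hz, ⟨idx e u, hu.map _, ?_⟩, ?_, ?_⟩
    · rw [hg, hut, map_mul]
      rfl
    · intro v hv
      refine hk v ?_
      rw [hc] at hv
      funext i
      have h1 := congrFun hv (e.symm i)
      rw [idx_apply, Equiv.apply_symm_apply] at h1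
      exact h1
    · intro c
      obtain ⟨v, hv⟩ := hs (idx e.symm c)
      refine ⟨v, ?_⟩
      rw [hc, hv]
      funext i
      rw [idx_apply, idx_apply, Equiv.symm_apply_apply]

theorem over_reix {I I' A B : Type} [CommRing A] [CommRing B] {n : ℕ}
    {P : Subalgebra A (KK I A)} {p : Fin n → (P →ₐ[A] A)} {P' : Subalgebra B (KK I B)}
    {p' : Fin n → (P' →ₐ[B] B)} {x : Fam n A} {y : Fam n B} {φ : A →+* B} (a : Arrow φ y x)
    (e : I' ≃ I) (M : Mod x P p) (M' : Mod y P' p') (q : Fin n → (reix e P →ₐ[A] A))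
    (q' : Fin n → (reix e P' →ₐ[B] B)) (N : Mod x (reix e P) q) (N' : Mod y (reix e P') q')
    (hN : M.IsReix e N) (hN' : M'.IsReix e N') (ho : M.Over a M') : N.Over a N' := by
  have mem : ∀ f ∈ reix e P, kmap φ f ∈ reix e P' := fun f hf => ho.mem _ hf
  refine ⟨mem, ?_, ?_⟩
  · have h : (rr e P').comp (rres (kmap φ) ho.mem) =
      (rres (kmap φ) (P := reix e P) (P' := reix e P') mem).comp (rr e P) := rfl
    rw [hN'.j, hN.j, Category.assoc, ho.j, ← Category.assoc, ← Category.assoc, spMap_comp'',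
      spMap_comp'']
    exact congrArg (fun g => spMap g ≫ M.j) h
  · have h : (idx (R := PowerSeries B) e).comp (psm I φ) =
      (psm I' φ).comp (idx (R := PowerSeries A) e) := rfl
    rw [hN'.sh, hN.sh, Category.assoc, ho.sh, ← Category.assoc, ← Category.assoc, spMap_comp'',
      spMap_comp'', h]

end MRX

/-- Change of the index set of a model. -/
theorem t_MRX : Stmt_MRX :=
  ⟨fun e M p' hp => MRX.exists_model e M p' hp,
    fun a e M M' q q' N N' hN hN' ho => MRX.over_reix a e M M' q q' N N' hN hN' ho⟩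

end Pool.Agent.MG.KX
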