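import Pool.Agent.MG.KX.MTHA
import Pool.Agent.MG.AFF
import Pool.Agent.MG.AffLem
import Pool.Agent.MG.G0.KFL
import Pool.Agent.MG.G0.KSP
import Pool.Agent.MG.G0.KNZ

/-!
# MTH: Krichever models of flat square zero thickenings
-/

open CategoryTheory CategoryTheory.Limits AlgebraicGeometry
open scoped TensorProduct

namespace Pool.Agent.MG.KX

open Pool.Agent.MG.G0 Pool.Agent.MG.GLU

namespace MTH

section gen

variable {A R R' : Type} [CommRing A] [CommRing R] [CommRing R'] {X : Scheme.{0}}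

/-- Morphisms to an affine open set are determined by their effect on functions. -/
theorem eq_of_gm {i i' : Sp R ⟶ X} {W : X.Opens} (hW : IsAffineOpen W) (h : ⊤ ≤ i ⁻¹ᵁ W)
    (h' : ⊤ ≤ i' ⁻¹ᵁ W) (e : ∀ v, gm i W h v = gm i' W h' v) : i = i' := by
  rw [eq_fromSpec i W hW h, eq_fromSpec i' W hW h', RingHom.ext e]

/-- The structure map in terms of functions. -/
theorem comp_pi (i : Sp R ⟶ X) (π : X ⟶ Sp A) (W : X.Opens) (h : ⊤ ≤ i ⁻¹ᵁ W) :
    i ≫ π = spMap ((gm i W h).comp (coef π W)) := by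
  obtain ⟨w, hw⟩ : ∃ w : A →+* R, i ≫ π = spMap w :=
    ⟨(Spec.preimage (i ≫ π)).hom, (Spec.map_preimage _).symm⟩
  have e : (gm i W h).comp (coef π W) = w := RingHom.ext fun a => gm_coef i π w hw W h a
  rw [e, hw]

theorem top_le {i : Sp R ⟶ X} {W : X.Opens} (h : ∀ s, i s ∈ W) : ⊤ ≤ i ⁻¹ᵁ W := fun s _ => h s

theorem mem_of {i : Sp R ⟶ X} {W : X.Opens} (h : ⊤ ≤ i ⁻¹ᵁ W) (s : Sp R) : i s ∈ W := h trivial

/-- The morphism of a homomorphism from the functions on an affine open set. -/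
noncomputable def fsp {W : X.Opens} (hW : IsAffineOpen W) (f : Γ(X, W) →+* R) : Sp R ⟶ X :=
  spMap f ≫ hW.fromSpec

theorem from_le {W : X.Opens} (hW : IsAffineOpen W) :
    ⊤ ≤ (hW.fromSpec : Sp Γ(X, W) ⟶ X) ⁻¹ᵁ W := fun s _ => by
  have h : hW.fromSpec s ∈ Set.range hW.fromSpec := ⟨s, rfl⟩
  rw [hW.range_fromSpec] at h
  exact h

theorem fsp_le {W : X.Opens} (hW : IsAffineOpen W) (f : Γ(X, W) →+* R) :
    ⊤ ≤ fsp hW f ⁻¹ᵁ W := fun s _ => from_le hW (show spMap f s ∈ (⊤ : (Sp Γ(X, W)).Opens) from trivial)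

theorem gm_fsp {W : X.Opens} (hW : IsAffineOpen W) (f : Γ(X, W) →+* R)
    (h : ⊤ ≤ fsp hW f ⁻¹ᵁ W) (v : Γ(X, W)) : gm (fsp hW f) W h v = f v := by
  rw [gm_comp (A := Γ(X, W)) hW.fromSpec f (fsp hW f) rfl W (from_le hW) h v]
  congr 1
  exact gm_fromSpec W hW _ v

/-- A morphism lands in a basic open set if the function becomes a unit. -/
theorem le_basic (i : Sp R ⟶ X) (W : X.Opens) (h : ⊤ ≤ i ⁻¹ᵁ W) (v : Γ(X, W))
    (hv : IsUnit (gm i W h v)) : ⊤ ≤ i ⁻¹ᵁ X.basicOpen v := by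
  have h1 : IsUnit ((i.appLE W ⊤ h).hom v) := by
    have h2 : IsUnit ((Scheme.ΓSpecIso (CommRingCat.of R)).inv.hom (gm i W h v)) := hv.map _
    have h3 : (Scheme.ΓSpecIso (CommRingCat.of R)).inv.hom (gm i W h v) =
        (i.appLE W ⊤ h).hom v :=
      ConcreteCategory.congr_hom (Scheme.ΓSpecIso (CommRingCat.of R)).hom_inv_id _
    rwa [h3] at h2
  have h4 := Scheme.basicOpen_appLE i ⊤ W h v
  have h5 := Scheme.basicOpen_of_isUnit (X := Sp R) h1
  rw [h4] at h5
  exact h5.symm.le.trans inf_le_right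

end gen

theorem psI_algebraMap {I E : Type} [CommRing E] (x : E) :
    psI I E (algebraMap E (I → PowerSeries E) x) = algebraMap E (KK I E) x :=
  funext fun _ => HahnSeries.ofPowerSeries_C x

theorem psl_map {A B : Type} [CommRing A] [CommRing B] (φ : A →+* B) (f : PowerSeries A) :
    lmap φ (psl A f) = psl B (PowerSeries.map φ f) := by
  ext m
  rw [lmap_coeff]
  rcases lt_or_ge m 0 with h | h
  · rw [psl_coeff_neg _ _ h, psl_coeff_neg _ _ h, map_zero]
  · obtain ⟨k, rfl⟩ := Int.eq_ofNat_of_zero_le h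
    rw [psl_coeff, psl_coeff, PowerSeries.coeff_map]

theorem kmap_psI {I A B : Type} [CommRing A] [CommRing B] (φ : A →+* B) :
    (kmap φ).comp (psI I A) = (psI I B).comp (psm I φ) :=
  RingHom.ext fun f => funext fun i => psl_map φ (f i)

theorem isUnit_psX {I E : Type} [CommRing E] :
    IsUnit (psI I E (fun _ => PowerSeries.X)) := by
  refine IsUnit.of_mul_eq_one (fun _ => HahnSeries.single (-1 : ℤ) (1 : E)) (funext fun i => ?_)
  change psl E PowerSeries.X * HahnSeries.single (-1 : ℤ) (1 : E) = 1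
  rw [psl, HahnSeries.ofPowerSeries_X, HahnSeries.single_mul_single, one_mul, add_neg_cancel]
  rfl

/-- The coefficientwise reduction of `∏ E → ∏ A`. -/
noncomputable def pip (I : Type) {A E : Type} [CommRing A] [CommRing E] (φ : E →+* A) :
    (I → E) →+* (I → A) := RingHom.pi fun i => φ.comp (Pi.evalRingHom _ i)

theorem pip_surj {I A E K : Type} [CommRing A] [CommRing E] [Fintype K] (S : SqE A E K) :
    Function.Surjective (spMap (pip I S.p)) := by
  have hs : Function.Surjective (pip I S.p) := fun c =>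
    ⟨fun i => S.i (c i), funext fun i => S.pi (c i)⟩
  change Function.Surjective (PrimeSpectrum.comap (pip I S.p))
  rw [← Set.range_eq_univ, range_comap_of_surjective _ _ hs,
    PrimeSpectrum.zeroLocus_eq_univ_iff]
  intro a ha
  refine mem_nilradical.2 ⟨2, funext fun i => ?_⟩
  have h1 : S.p (a i) = 0 := congrFun (show pip I S.p a = 0 from ha) i
  rw [pow_two]
  exact S.mul_of_p_eq_zero h1 h1

theorem pip_cc {I A E K : Type} [CommRing A] [CommRing E] [Fintype K] (S : SqE A E K) :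
    (pip I S.p).comp (ccI I E) = (ccI I A).comp (psm I S.p) :=
  RingHom.ext fun f => funext fun i => (cc_map S.p (f i)).symm

/-- A combination of the `ε j` in the Laurent series. -/
theorem red_zero {I A E K : Type} [CommRing A] [CommRing E] [Fintype K] (S : SqE A E K)
    (w : K → KK I E) (h : ∑ j, algebraMap E (KK I E) (S.ε j) * w j = 0) (j : K) :
    kmap S.p (w j) = 0 := by
  funext i
  ext m
  have h1 : ∑ j, S.ε j * (w j i).coeff m = 0 := by
    have h2 := congrArg (fun f : KK I E => (f i).coeff m) h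
    simp only [Finset.sum_apply, HahnSeries.coeff_sum, Pi.zero_apply, HahnSeries.coeff_zero] at h2
    rw [← h2]
    refine Finset.sum_congr rfl fun j _ => ?_
    rw [← Algebra.smul_def]
    rfl
  have h3 : ∑ j, S.ε j * S.i (S.p ((w j i).coeff m)) = 0 := by
    rw [← h1]
    refine Finset.sum_congr rfl fun j _ => ?_
    rw [← sub_eq_zero, ← mul_sub]
    exact S.mul_of_p_eq_zero (S.pe j) (by rw [map_sub, S.pi, sub_self])
  exact congrFun (S.un _ h3) j

end MTH

open MTH in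
/-- MTH: models of flat thickenings. -/
theorem t_MTH : Stmt_MTH := by
  intro I A E K _ _ _ _ _ g n S x P p hP M t
  obtain ⟨V, tt, le, hV, hb, nz, ⟨u, hu, ht⟩, kk, ss⟩ := M.loc
  have jo := M.jo
  let U : x.X.Opens := M.j.opensRange
  have hU : IsAffineOpen U := isAffineOpen_opensRange M.j
  have memU : ∀ y : x.X, y ∈ U ↔ y ∈ Set.range M.j := fun _ => Iff.rfl
  have aU : IsAffineOpen (t.op U) := t_AFF t U hU
  have aV : IsAffineOpen (t.op V) := t_AFF t V hV
  have gU := goodAff t U aU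
  have gV := goodAff t V aV
  have HV : FT S (coef x.π V) (coef t.y.π (t.op V)) (t.q V) :=
    ⟨t.q_coef V, gV.sur, gV.ker, gV.un⟩
  have HU : FT S (coef x.π U) (coef t.y.π (t.op U)) (t.q U) :=
    ⟨t.q_coef U, gU.sur, gU.ker, gU.un⟩
  obtain ⟨t', qt⟩ := gV.sur tt
  obtain ⟨g', g1, g2, ⟨u', hu', g3⟩, g4, g5⟩ := HV.exists_exp (gm M.sh V le)
    (fun a i => by
      rw [gm_coef M.sh x.π _ M.shp V le a]
      rfl) nz u hu ht kk ss qt
  -- the formal neighbourhood
  let sh' : Sp (I → PowerSeries E) ⟶ t.y.X := fsp aV g'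
  have le' : ⊤ ≤ sh' ⁻¹ᵁ (t.op V) := fsp_le aV g'
  have gm' : ∀ v, gm sh' (t.op V) le' v = g' v := fun v => gm_fsp aV g' le' v
  have shp' : sh' ≫ t.y.π = spMap (algebraMap E (I → PowerSeries E)) := by
    rw [comp_pi sh' t.y.π (t.op V) le']
    congr 2
    refine RingHom.ext fun a => ?_
    change gm sh' (t.op V) le' (coef t.y.π (t.op V) a) = _
    rw [gm', g2]
  have leV : ⊤ ≤ (M.sh ≫ t.r.f) ⁻¹ᵁ (t.op V) := top_le fun s => by
    have h1 : M.sh s ∈ t.r.f ⁻¹ᵁ (t.op V) := by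
      rw [t.pre]
      exact mem_of le s
    rw [Scheme.Hom.comp_apply]
    exact h1
  have shc : M.sh ≫ t.r.f = spMap (psm I S.p) ≫ sh' := by
    have leW : ⊤ ≤ (spMap (psm I S.p) ≫ sh') ⁻¹ᵁ (t.op V) := top_le fun s => by
      rw [Scheme.Hom.comp_apply]
      exact mem_of le' _
    refine eq_of_gm aV leV leW fun v => ?_
    rw [gm_comp sh' (psm I S.p) _ rfl (t.op V) le' leW v, gm', g1]
    have h1 := gm_nat t.r.f (M.sh ≫ t.r.f) M.sh (RingHom.id _)
      (by
        have : spMap (RingHom.id (I → PowerSeries A)) = 𝟙 _ := Spec.map_id _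
        rw [this, Category.id_comp]) (t.op V) V leV le (t.pre V).ge v
    exact h1.symm
  -- the intersection
  have bas : t.y.X.basicOpen t' = t.op (U ⊓ V) := by
    apply t.pre_inj
    rw [t.pre]
    have h1 := Scheme.basicOpen_appLE t.r.f V (t.op V) (t.pre V).ge t'
    have h2 : (t.r.f.appLE (t.op V) V (t.pre V).ge) t' = tt := qt
    rw [h2] at h1
    have h3 : t.r.f ⁻¹ᵁ t.y.X.basicOpen t' ≤ V := by
      have h4 : t.r.f ⁻¹ᵁ t.y.X.basicOpen t' ≤ t.r.f ⁻¹ᵁ (t.op V) :=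
        fun s hs => t.y.X.basicOpen_le t' hs
      rwa [t.pre] at h4
    rw [inf_eq_right.2 h3] at h1
    rw [← h1]
    exact SetLike.coe_injective hb
  let η : Sp (KK I E) ⟶ t.y.X := spMap (psI I E) ≫ sh'
  have leη' : ⊤ ≤ η ⁻¹ᵁ (t.op V) := top_le fun s => by
    change (spMap (psI I E) ≫ sh') s ∈ _
    rw [Scheme.Hom.comp_apply]
    exact mem_of le' _
  have leη : ⊤ ≤ η ⁻¹ᵁ (t.op U) := by
    have h1 : ⊤ ≤ η ⁻¹ᵁ t.y.X.basicOpen t' := by
      refine le_basic η (t.op V) leη' t' ?_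
      rw [gm_comp sh' (psI I E) η rfl (t.op V) le' leη' t', gm', g3, map_mul]
      exact isUnit_psX.mul (hu'.map _)
    rw [bas] at h1
    exact h1.trans fun s hs => t.op_mono inf_le_left hs
  let e' : Γ(t.y.X, t.op U) →+* KK I E := gm η (t.op U) leη
  have ηp : η ≫ t.y.π = spMap (algebraMap E (KK I E)) := by
    change (spMap (psI I E) ≫ sh') ≫ t.y.π = _
    rw [Category.assoc, shp', spMap_comp'']
    exact congrArg (fun f => spMap f) (RingHom.ext fun a => psI_algebraMap a)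
  have ecoef : ∀ a, e' (coef t.y.π (t.op U) a) = algebraMap E (KK I E) a := fun a =>
    gm_coef η t.y.π _ ηp (t.op U) leη a
  have leU : ⊤ ≤ M.j ⁻¹ᵁ U := top_le fun s => ⟨s, rfl⟩
  have leU' : ⊤ ≤ (M.j ≫ t.r.f) ⁻¹ᵁ (t.op U) := top_le fun s => by
    have h1 : M.j s ∈ t.r.f ⁻¹ᵁ (t.op U) := by
      rw [t.pre]
      exact mem_of leU s
    rw [Scheme.Hom.comp_apply]
    exact h1
  have gmj : ∀ v, gm (M.j ≫ t.r.f) (t.op U) leU' v = gm M.j U leU (t.q U v) := fun v => by
    have h1 := gm_nat t.r.f (M.j ≫ t.r.f) M.j (RingHom.id _)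
      (by
        have : spMap (RingHom.id P) = 𝟙 _ := Spec.map_id _
        rw [this, Category.id_comp]) (t.op U) U leU' leU (t.pre U).ge v
    exact h1.symm
  have cmpη : spMap (kmap S.p) ≫ η = spMap (P.val : P →+* KK I A) ≫ (M.j ≫ t.r.f) := by
    change spMap (kmap S.p) ≫ spMap (psI I E) ≫ sh' = _
    rw [← Category.assoc, spMap_comp'', kmap_psI, ← spMap_comp'', Category.assoc, ← shc,
      ← Category.assoc, M.cmp, Category.assoc]
  have ekm : ∀ v, kmap S.p (e' v) = (gm M.j U leU (t.q U v) : KK I A) := fun v => by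
    have leζ : ⊤ ≤ (spMap (kmap S.p) ≫ η) ⁻¹ᵁ (t.op U) := top_le fun s => by
      rw [Scheme.Hom.comp_apply]
      exact mem_of leη _
    have h1 := gm_comp η (kmap S.p) _ rfl (t.op U) leη leζ v
    have h2 := gm_comp (M.j ≫ t.r.f) (P.val : P →+* KK I A) _ cmpη (t.op U) leU' leζ v
    rw [gmj] at h2
    exact h1.symm.trans h2
  have bij := gm_bij M.j U leU rfl
  have qz : ∀ v, kmap S.p (e' v) = 0 → t.q U v = 0 := fun v hv => by
    rw [ekm] at hv
    have h1 : gm M.j U leU (t.q U v) = 0 := Subtype.ext hv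
    exact bij.1 (h1.trans (map_zero _).symm)
  have einj : Function.Injective e' := by
    rw [injective_iff_map_eq_zero]
    intro v hv
    obtain ⟨w, hw⟩ := gU.ker v (qz v (by rw [hv, map_zero]))
    have h1 : ∑ j, algebraMap E (KK I E) (S.ε j) * e' (w j) = 0 := by
      rw [← hv]
      conv_rhs => rw [hw]
      rw [map_sum]
      exact Finset.sum_congr rfl fun j _ => by rw [map_mul, ecoef]
    rw [hw]
    exact Finset.sum_eq_zero fun j _ => HU.eps_mul j (qz _ (red_zero S _ h1 j))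
  -- the ring
  let P' : Subalgebra E (KK I E) :=
    { carrier := Set.range e'
      mul_mem' := by
        rintro _ _ ⟨a, rfl⟩ ⟨b, rfl⟩
        exact ⟨a * b, map_mul _ _ _⟩
      add_mem' := by
        rintro _ _ ⟨a, rfl⟩ ⟨b, rfl⟩
        exact ⟨a + b, map_add _ _ _⟩
      algebraMap_mem' := fun a => ⟨_, ecoef a⟩ }
  let ρ : Γ(t.y.X, t.op U) →+* P' := e'.codRestrict P' fun v => ⟨v, rfl⟩
  have ρval : ∀ v, (ρ v : KK I E) = e' v := fun v => rfl
  have ρbij : Function.Bijective ρ := by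
    refine ⟨fun v w h => einj (congrArg Subtype.val h), ?_⟩
    rintro ⟨_, v, rfl⟩
    exact ⟨v, rfl⟩
  have ρcoef : ∀ a, ρ (coef t.y.π (t.op U) a) = algebraMap E P' a := fun a =>
    Subtype.ext (ecoef a)
  have mem : ∀ f ∈ P', kmap S.p f ∈ P := by
    rintro _ ⟨v, rfl⟩
    rw [ekm]
    exact (gm M.j U leU (t.q U v)).2
  have hbc : bc S.p P' = P := by
    have h1 : kmap S.p '' (P' : Set (KK I E)) = (P : Set (KK I A)) := by
      ext f
      constructor
      · rintro ⟨f', hf', rfl⟩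
        exact mem f' hf'
      · intro hf
        obtain ⟨s, hs⟩ := bij.2 ⟨f, hf⟩
        obtain ⟨v, rfl⟩ := gU.sur s
        exact ⟨e' v, ⟨v, rfl⟩, by rw [ekm, hs]⟩
    rw [bc, h1, Algebra.adjoin_eq]
  have hKr : IsKr g P' := by
    refine t_KFL (t_KSP t_KNZ) S.p S.p_surjective ⟨2, ?_⟩ P' (by rw [hbc]; exact hP) ?_
    · rw [pow_two, eq_bot_iff, Ideal.mul_le]
      intro r hr s hs
      exact (Submodule.mem_bot E).2 (S.mul_of_p_eq_zero hr hs)
    · rintro _ ⟨v, rfl⟩ hv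
      obtain ⟨w, hw⟩ := gU.ker v (qz v hv)
      rw [hw, map_sum]
      refine Submodule.sum_mem _ fun j _ => ?_
      rw [map_mul, ecoef, ← Algebra.smul_def]
      exact Submodule.smul_mem_smul (S.pe j) ⟨w j, rfl⟩
  -- the complement of the punctures
  have iso : IsIso (spMap ρ) := by
    have h1 : IsIso (CommRingCat.ofHom ρ) :=
      (RingEquiv.ofBijective ρ ρbij).toCommRingCatIso.isIso_hom
    infer_instance
  let j' : Sp P' ⟶ t.y.X := fsp aU ρ
  have jo' : IsOpenImmersion j' := by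
    change IsOpenImmersion (spMap ρ ≫ aU.fromSpec)
    infer_instance
  have lej : ⊤ ≤ j' ⁻¹ᵁ (t.op U) := fsp_le aU ρ
  have gmj' : ∀ v, gm j' (t.op U) lej v = ρ v := fun v => gm_fsp aU ρ lej v
  have rangej : ∀ y, y ∈ Set.range j' ↔ y ∈ t.op U := by
    intro y
    constructor
    · rintro ⟨s, rfl⟩
      exact mem_of lej s
    · intro hy
      have h1 : y ∈ Set.range aU.fromSpec := by
        rw [aU.range_fromSpec]
        exact hy
      obtain ⟨s, rfl⟩ := h1
      obtain ⟨s', rfl⟩ := (spMap ρ).surjective s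
      exact ⟨s', Scheme.Hom.comp_apply _ _ _⟩
  have memop : ∀ y : x.X, t.r.f y ∈ t.op U ↔ y ∈ U := fun y => by
    have h1 : t.r.f y ∈ t.op U ↔ y ∈ t.r.f ⁻¹ᵁ (t.op U) := Iff.rfl
    rw [h1, t.pre]
  -- the marked points
  have leσ : ∀ i, ⊤ ≤ t.y.σ i ⁻¹ᵁ (t.op U) := fun i => top_le fun s => by
    obtain ⟨s', rfl⟩ := (spMap S.p).surjective s
    rw [← Scheme.Hom.comp_apply, ← t.r.sec, Scheme.Hom.comp_apply, memop, M.mrk]
    rw [Scheme.Hom.comp_apply]
    exact ⟨_, rfl⟩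
  let eρ : Γ(t.y.X, t.op U) ≃+* P' := RingEquiv.ofBijective ρ ρbij
  have eρs : ∀ v, eρ.symm (ρ v) = v := fun v => eρ.symm_apply_apply v
  let p' : Fin n → (P' →ₐ[E] E) := fun i =>
    { ((gm (t.y.σ i) (t.op U) (leσ i)).comp (eρ.symm : P' →+* Γ(t.y.X, t.op U))) with
      commutes' := fun a => by
        change gm (t.y.σ i) (t.op U) (leσ i) (eρ.symm (algebraMap E P' a)) = a
        rw [← ρcoef, eρs]
        exact gm_coef (t.y.σ i) t.y.π (RingHom.id E)
          ((t.y.sec i).trans (Spec.map_id _).symm) (t.op U) (leσ i) a }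
  have p'ρ : ∀ i v, p' i (ρ v) = gm (t.y.σ i) (t.op U) (leσ i) v := fun i v => by
    change gm (t.y.σ i) (t.op U) (leσ i) (eρ.symm (ρ v)) = _
    rw [eρs]
  have ccs : spMap (ccI I A) ≫ M.sh ≫ t.r.f = spMap (pip I S.p) ≫ spMap (ccI I E) ≫ sh' := by
    rw [shc, ← Category.assoc, ← Category.assoc, spMap_comp'', spMap_comp'', pip_cc]
  refine ⟨P', p', ⟨j', jo', ?_, sh', shp', ?_, ?_, ?_, ?_, ?_⟩, hKr, hbc, mem, ?_, shc⟩
  · rw [comp_pi j' t.y.π (t.op U) lej]
    congr 2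
    refine RingHom.ext fun a => ?_
    change gm j' (t.op U) lej (coef t.y.π (t.op U) a) = _
    rw [gmj', ρcoef]
  · have leθ : ⊤ ≤ (spMap (P'.val : P' →+* KK I E) ≫ j') ⁻¹ᵁ (t.op U) := top_le fun s => by
      rw [Scheme.Hom.comp_apply]
      exact mem_of lej _
    refine eq_of_gm aU leη leθ fun v => ?_
    rw [gm_comp j' (P'.val : P' →+* KK I E) _ rfl (t.op U) lej leθ v, gmj']
    rfl
  · intro y
    obtain ⟨y0, rfl⟩ := t.r.f.surjective y
    rcases M.cov y0 with h | ⟨s, rfl⟩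
    · exact Or.inl ((rangej _).2 ((memop _).2 h))
    · refine Or.inr ⟨spMap (pip I S.p) s, ?_⟩
      rw [← Scheme.Hom.comp_apply, ← ccs, ← Scheme.Hom.comp_apply, Category.assoc]
  · rintro y hy ⟨s, rfl⟩
    obtain ⟨s', rfl⟩ := pip_surj (I := I) S s
    rw [← Scheme.Hom.comp_apply, ← ccs, ← Category.assoc, Scheme.Hom.comp_apply, rangej,
      memop] at hy
    exact M.exc _ hy ⟨s', rfl⟩
  · intro i
    have leθ : ⊤ ≤ (spMap (p' i : P' →+* E) ≫ j') ⁻¹ᵁ (t.op U) := top_le fun s => by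
      rw [Scheme.Hom.comp_apply]
      exact mem_of lej _
    refine eq_of_gm aU (leσ i) leθ fun v => ?_
    rw [gm_comp j' (p' i : P' →+* E) _ rfl (t.op U) lej leθ v, gmj']
    exact (p'ρ i v).symm
  · refine ⟨t.op V, t', le', aV, ?_, fun v hv => HV.nz nz qt hv, ⟨u', hu', by rw [gm', g3]⟩,
      fun v hv => g4 v (by rwa [gm'] at hv), fun c => ?_⟩
    · rw [bas, t.op_inf]
      ext y
      constructor
      · rintro ⟨h1, h2⟩
        exact ⟨(rangej y).2 h1, h2⟩
      · rintro ⟨h1, h2⟩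
        exact ⟨(rangej y).1 h1, h2⟩
    · obtain ⟨v, hv⟩ := g5 c
      exact ⟨v, by rw [gm', hv]⟩
  · have leθ : ⊤ ≤ (spMap (rres (kmap S.p) mem) ≫ j') ⁻¹ᵁ (t.op U) := top_le fun s => by
      rw [Scheme.Hom.comp_apply]
      exact mem_of lej _
    refine eq_of_gm aU leU' leθ fun v => ?_
    rw [gm_comp j' (rres (kmap S.p) mem) _ rfl (t.op U) lej leθ v, gmj', gmj]
    exact Subtype.ext (ekm v).symm

end Pool.Agent.MG.KX
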