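import Pool.Agent.MG.KX.StmtsM

/-!
# MTR: transport of models along isomorphisms
-/

open CategoryTheory CategoryTheory.Limits AlgebraicGeometry
open scoped TensorProduct

namespace Pool.Agent.MG.KX

open Pool.Agent.MG.G0 Pool.Agent.MG.GLU

namespace MTR

section

variable {I A : Type} [CommRing A] {n : ℕ} {P : Subalgebra A (KK I A)} {p : Fin n → (P →ₐ[A] A)}

theorem spMap_id {R : Type} [CommRing R] : spMap (RingHom.id R) = 𝟙 (Sp R) := Spec.map_id _

theorem range_comp {X Y Z : Scheme.{0}} (f : X ⟶ Y) (h : Y ⟶ Z) [IsIso h] (q : Z) :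
    q ∈ Set.range (f ≫ h) ↔ (inv h) q ∈ Set.range f := by
  constructor
  · rintro ⟨s, rfl⟩
    refine ⟨s, ?_⟩
    rw [← Scheme.Hom.comp_apply, Category.assoc, IsIso.hom_inv_id, Category.comp_id]
  · rintro ⟨s, hs⟩
    refine ⟨s, ?_⟩
    rw [Scheme.Hom.comp_apply, hs, ← Scheme.Hom.comp_apply, IsIso.inv_hom_id]
    rfl

/-- Transport along an isomorphism. -/
theorem trans {x y : Fam n A} (h : x.X ⟶ y.X) [IsIso h] (hπ : h ≫ y.π = x.π)
    (hσ : ∀ i, x.σ i ≫ h = y.σ i) (M : Mod x P p) :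
    ∃ N : Mod y P p, N.j = M.j ≫ h ∧ N.sh = M.sh ≫ h := by
  have := M.jo
  refine ⟨{ j := M.j ≫ h
            jo := inferInstance
            jp := by rw [Category.assoc, hπ, M.jp]
            sh := M.sh ≫ h
            shp := by rw [Category.assoc, hπ, M.shp]
            cmp := by rw [← Category.assoc, M.cmp, Category.assoc]
            cov := fun q => ?_
            exc := fun q => ?_
            mrk := fun i => by rw [← hσ, M.mrk, Category.assoc]
            loc := ?_ }, rfl, rfl⟩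
  · rw [← Category.assoc, range_comp, range_comp]
    exact M.cov _
  · rw [← Category.assoc, range_comp, range_comp]
    exact M.exc _
  · obtain ⟨V, t, le, hV, hb, hz, ⟨u, hu, hut⟩, hk, hs⟩ := M.loc
    let k : y.X ⟶ x.X := inv h
    have hbij : Function.Bijective (k.appLE V (k ⁻¹ᵁ V) le_rfl).hom := by
      rw [Scheme.Hom.appLE_eq_app]
      exact ConcreteCategory.bijective_of_isIso (k.app V)
    have hcomp : (M.sh ≫ h) ≫ k = spMap (RingHom.id (I → PowerSeries A)) ≫ M.sh := by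
      rw [Category.assoc, IsIso.hom_inv_id, Category.comp_id, spMap_id, Category.id_comp]
    have le' : ⊤ ≤ (M.sh ≫ h) ⁻¹ᵁ (k ⁻¹ᵁ V) := by
      rw [← Scheme.Hom.comp_preimage, hcomp, spMap_id, Category.id_comp]
      exact le
    have hg : ∀ v : Γ(x.X, V), gm (M.sh ≫ h) (k ⁻¹ᵁ V) le'
        ((k.appLE V (k ⁻¹ᵁ V) le_rfl).hom v) = gm M.sh V le v := fun v =>
      gm_nat k M.sh (M.sh ≫ h) (RingHom.id _) hcomp V (k ⁻¹ᵁ V) le le' le_rfl v
    refine ⟨k ⁻¹ᵁ V, (k.appLE V (k ⁻¹ᵁ V) le_rfl).hom t, le', hV.preimage_of_isIso k, ?_, ?_,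
      ⟨u, hu, ?_⟩, ?_, ?_⟩
    · have h1 : y.X.basicOpen ((k.appLE V (k ⁻¹ᵁ V) le_rfl).hom t) = k ⁻¹ᵁ x.X.basicOpen t := by
        rw [Scheme.Hom.appLE_eq_app]
        exact (Scheme.preimage_basicOpen k t).symm
      rw [h1]
      ext q
      have h2 : (k q ∈ (x.X.basicOpen t : Set x.X)) ↔ k q ∈ Set.range M.j ∩ V := by rw [hb]
      rw [Set.mem_inter_iff, range_comp]
      exact h2
    · intro v' hv'
      obtain ⟨v, rfl⟩ := hbij.2 v'
      rw [← map_mul] at hv'
      have h1 : t * v = 0 := hbij.1 (by rw [hv', map_zero])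
      rw [hz v h1, map_zero]
    · rw [hg, hut]
    · intro v' hv'
      obtain ⟨v, rfl⟩ := hbij.2 v'
      rw [hg] at hv'
      obtain ⟨r, rfl⟩ := hk v hv'
      exact ⟨_, map_mul _ _ _⟩
    · intro c
      obtain ⟨v, hv⟩ := hs c
      exact ⟨(k.appLE V (k ⁻¹ᵁ V) le_rfl).hom v, by rw [hg, hv]⟩

theorem kmap_id (f : KK I A) : kmap (RingHom.id A) f = f := by
  funext i
  ext m
  rfl

theorem psm_id : psm I (RingHom.id A) = RingHom.id (I → PowerSeries A) := by
  ext f i m
  rw [psm_apply, PowerSeries.coeff_map]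
  rfl

/-- The models correspond. -/
theorem ovr {x y : Fam n A} (a : Arrow (RingHom.id A) y x) (M : Mod x P p) (M' : Mod y P p)
    (hj : M'.j ≫ a.f = M.j) (hs : M'.sh ≫ a.f = M.sh) : M.Over a M' := by
  have hm : ∀ f ∈ P, kmap (RingHom.id A) f ∈ P := fun f hf => by
    rw [kmap_id]
    exact hf
  refine ⟨hm, ?_, ?_⟩
  · have h1 : rres (kmap (RingHom.id A)) hm = RingHom.id P := by
      ext1 f
      exact Subtype.ext (kmap_id _)
    rw [h1, spMap_id, Category.id_comp, hj]
  · rw [psm_id, spMap_id, Category.id_comp, hs]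

end

end MTR

open MTR in
/-- MTR: transport of models along isomorphisms. -/
theorem t_MTR : Stmt_MTR := by
  intro I A _ n P p x y a
  have hiso : IsIso a.f := by
    have h : IsIso (spMap (RingHom.id A)) := by
      rw [spMap_id]
      infer_instance
    exact a.cart.isIso_fst_of_isIso
  have hπ : a.f ≫ x.π = y.π := by
    have h := a.cart.w
    rwa [spMap_id, Category.comp_id] at h
  have hσ : ∀ i, y.σ i ≫ a.f = x.σ i := by
    intro i
    have h := a.sec i
    rwa [spMap_id, Category.id_comp] at h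
  refine ⟨fun M => ?_, fun M' => ?_⟩
  · obtain ⟨N, h1, h2⟩ := trans (x := x) (y := y) (inv a.f) (by rw [IsIso.inv_comp_eq, hπ])
      (fun i => by rw [← hσ, Category.assoc, IsIso.hom_inv_id, Category.comp_id]) M
    refine ⟨N, ovr a M N ?_ ?_⟩
    · rw [h1, Category.assoc, IsIso.inv_hom_id, Category.comp_id]
    · rw [h2, Category.assoc, IsIso.inv_hom_id, Category.comp_id]
  · obtain ⟨N, h1, h2⟩ := trans (x := y) (y := x) a.f hπ hσ M'
    exact ⟨N, ovr a N M' h1.symm h2.symm⟩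

end Pool.Agent.MG.KX
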