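import Pool.Agent.MG.KX.StmtsM
import Pool.Agent.MG.G0.AWB
import Pool.Agent.MG.GLUT

/-!
# MUN: two models of the same deformation differ by a change of the coordinates
-/

open CategoryTheory CategoryTheory.Limits AlgebraicGeometry
open scoped TensorProduct

namespace Pool.Agent.MG.KX

open Pool.Agent.MG.G0 Pool.Agent.MG.GLU

namespace MUN

section Alg

variable {I A : Type} [CommRing A]

theorem psI_mem {B : Type} [CommRing B] (f : I → PowerSeries B) : psI I B f ∈ Pol I B 0 :=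
  fun i m hm => psl_coeff_neg (f i) m (by omega)

theorem kmap_psI {B : Type} [CommRing B] (φ : A →+* B) (f : I → PowerSeries A) :
    kmap φ (psI I A f) = psI I B (psm I φ f) := funext fun i => (AWB.psl_map φ (f i)).symm

theorem psI_algebraMap {B : Type} [CommRing B] (a : B) :
    psI I B (algebraMap B (I → PowerSeries B) a) = algebraMap B (KK I B) a := by
  funext i
  refine HahnSeries.ext (funext fun m => ?_)
  change (psl B (algebraMap B (PowerSeries B) a)).coeff m =
    (algebraMap B (LaurentSeries B) a).coeff m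
  rw [coeff_algebraMap]
  rcases lt_or_ge m 0 with h | h
  · rw [psl_coeff_neg _ _ h, if_neg (by omega)]
  · obtain ⟨k, rfl⟩ := Int.eq_ofNat_of_zero_le h
    rw [psl_coeff]
    change PowerSeries.coeff k (PowerSeries.C a) = _
    rw [PowerSeries.coeff_C]
    simp

theorem psI_inj {B : Type} [CommRing B] {f g : I → PowerSeries B}
    (h : psI I B f = psI I B g) : f = g := funext fun i => psl_inj (congrFun h i)

theorem ksnd_mem {f : KK I (Eps A)} {n : ℤ} (h : f ∈ Pol I (Eps A) n) : ksnd f ∈ Pol I A n :=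
  fun i m hm => by
    rw [ksnd_apply, lsnd_coeff, h i m hm]
    rfl

theorem Pol_inter {f : KK I A} (h : ∀ n : ℕ, f ∈ Pol I A (-(n : ℤ))) : f = 0 := by
  funext i
  ext m
  have := h (m.toNat + 1) i m (by push_cast; omega)
  rw [this]
  rfl

variable {R : Type} [CommRing R] (h1 h2 : R →+* (I → PowerSeries (Eps A)))
  (hh : ∀ v, psm I (eps0 A) (h1 v) = psm I (eps0 A) (h2 v))

/-- The first expansion. -/
noncomputable def H (h : R →+* (I → PowerSeries (Eps A))) : R →+* KK I (Eps A) :=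
  (psI I (Eps A)).comp h

/-- The expansion modulo `ε`. -/
noncomputable def Hb (h : R →+* (I → PowerSeries (Eps A))) : R →+* KK I A :=
  (kmap (eps0 A)).comp (H h)

theorem H_mem (h : R →+* (I → PowerSeries (Eps A))) (v : R) : H h v ∈ Pol I (Eps A) 0 :=
  psI_mem _

theorem Hb_mem (h : R →+* (I → PowerSeries (Eps A))) (v : R) : Hb h v ∈ Pol I A 0 :=
  kmap_mem_Pol _ (H_mem h v)

theorem Hb_eq {h1 h2 : R →+* (I → PowerSeries (Eps A))}
    (hh : ∀ v, psm I (eps0 A) (h1 v) = psm I (eps0 A) (h2 v)) (v : R) : Hb h1 v = Hb h2 v := by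
  change kmap (eps0 A) (psI I (Eps A) (h1 v)) = kmap (eps0 A) (psI I (Eps A) (h2 v))
  rw [kmap_psI, kmap_psI, hh]

/-- The difference of the two expansions. -/
noncomputable def D (v : R) : KK I A := ksnd (H h1 v) - ksnd (H h2 v)

theorem D_add (v w : R) : D h1 h2 (v + w) = D h1 h2 v + D h1 h2 w := by
  rw [D, D, D, map_add, map_add, ksnd_add, ksnd_add]
  abel

theorem D_mul {h1 h2 : R →+* (I → PowerSeries (Eps A))}
    (hh : ∀ v, psm I (eps0 A) (h1 v) = psm I (eps0 A) (h2 v)) (v w : R) :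
    D h1 h2 (v * w) = Hb h1 v * D h1 h2 w + Hb h1 w * D h1 h2 v := by
  rw [D, D, D, map_mul, map_mul, ksnd_mul, ksnd_mul]
  have e1 : kmap (eps0 A) (H h2 v) = Hb h1 v := (Hb_eq hh v).symm
  have e2 : kmap (eps0 A) (H h2 w) = Hb h1 w := (Hb_eq hh w).symm
  have e3 : kmap (eps0 A) (H h1 v) = Hb h1 v := rfl
  have e4 : kmap (eps0 A) (H h1 w) = Hb h1 w := rfl
  rw [e1, e2, e3, e4]
  ring

theorem D_mem (v : R) : D h1 h2 v ∈ Pol I A 0 :=
  (Pol I A 0).sub_mem (ksnd_mem (H_mem h1 v)) (ksnd_mem (H_mem h2 v))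

theorem ld_psl (f : PowerSeries A) : ld (psl A f) = psl A (PowerSeries.derivative A f) := by
  ext m
  rw [ld_coeff]
  rcases lt_or_ge m 0 with hm | hm
  · rw [psl_coeff_neg _ _ hm]
    rcases eq_or_ne (m + 1) 0 with h | h
    · rw [h]
      simp
    · rw [psl_coeff_neg f _ (by omega), mul_zero]
  · obtain ⟨n, rfl⟩ := Int.eq_ofNat_of_zero_le hm
    have e : ((n : ℤ) + 1) = ((n + 1 : ℕ) : ℤ) := by push_cast; ring
    rw [e, psl_coeff, psl_coeff, PowerSeries.coeff_derivative]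
    push_cast
    ring

theorem psl_X : psl A PowerSeries.X = HahnSeries.single 1 1 := HahnSeries.ofPowerSeries_X

/-- `τ` at all punctures. -/
theorem psI_X : (psI I A fun _ => PowerSeries.X) * (fun _ => HahnSeries.single (-1) 1) = 1 := by
  funext i
  change psl A PowerSeries.X * HahnSeries.single (-1) 1 = 1
  rw [psl_X, HahnSeries.single_mul_single]
  simp

theorem psI_X_mem : (psI I A fun _ => PowerSeries.X) ∈ Pol I A (-1) := by
  intro i m hm
  change (psl A PowerSeries.X).coeff m = 0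
  rw [psl_X, HahnSeries.coeff_single_of_ne (by omega)]

theorem dd_psI (f : I → PowerSeries A) :
    dd (psI I A f) = psI I A fun i => PowerSeries.derivative A (f i) :=
  funext fun i => ld_psl (f i)

theorem unit_dX {v F : I → PowerSeries A} (hv : IsUnit v) (hF : F = (fun _ => PowerSeries.X) * v) :
    ∃ ι ∈ Pol I A 0, ι * dd (psI I A F) = 1 := by
  have h1 : IsUnit (fun i => PowerSeries.derivative A (F i)) := by
    rw [Pi.isUnit_iff]
    intro i
    rw [PowerSeries.isUnit_iff_constantCoeff]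
    have h2 : PowerSeries.derivative A (F i) =
        v i + PowerSeries.X * PowerSeries.derivative A (v i) := by
      rw [hF]
      change PowerSeries.derivative A (PowerSeries.X * v i) = _
      rw [Derivation.leibniz, PowerSeries.derivative_X]
      simp only [smul_eq_mul]
      ring
    rw [h2]
    have h3 := (Pi.isUnit_iff.1 hv) i
    rw [PowerSeries.isUnit_iff_constantCoeff] at h3
    simpa using h3
  obtain ⟨w, hw⟩ := h1.exists_left_inv
  refine ⟨psI I A w, psI_mem w, ?_⟩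
  rw [dd_psI, ← map_mul, hw, map_one]

theorem core [Fintype I] {h1 h2 : R →+* (I → PowerSeries (Eps A))}
    (hh : ∀ v, psm I (eps0 A) (h1 v) = psm I (eps0 A) (h2 v)) (co : Eps A →+* R)
    (hc1 : ∀ a, h1 (co a) = algebraMap (Eps A) (I → PowerSeries (Eps A)) a)
    (hc2 : ∀ a, h2 (co a) = algebraMap (Eps A) (I → PowerSeries (Eps A)) a) (t : R)
    (u : I → PowerSeries (Eps A)) (hu : IsUnit u) (ht : h1 t = (fun _ => PowerSeries.X) * u)
    (hk : ∀ v, ccI I (Eps A) (h1 v) = 0 → ∃ r, v = t * r)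
    (hs : ∀ c : I → Eps A, ∃ v, ccI I (Eps A) (h1 v) = c) :
    IsUnit (Hb h1 t) ∧ ∃ θ ∈ Pol I A 0, ∀ v, D h1 h2 v = θ * dd (Hb h1 v) := by
  classical
  have hub : IsUnit (psm I (eps0 A) u) := hu.map _
  have hT : Hb h1 t = psI I A ((fun _ => PowerSeries.X) * psm I (eps0 A) u) := by
    change kmap (eps0 A) (psI I (Eps A) (h1 t)) = _
    rw [kmap_psI, ht, map_mul]
    congr 2
    funext i
    change PowerSeries.map (eps0 A) PowerSeries.X = PowerSeries.X
    exact PowerSeries.map_X _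
  have hTm : Hb h1 t ∈ Pol I A (-1) := by
    rw [hT, map_mul]
    have := mul_mem_Pol (psI_X_mem (I := I) (A := A)) (psI_mem (psm I (eps0 A) u))
    rwa [add_zero] at this
  have hTu : IsUnit (Hb h1 t) := by
    rw [hT, map_mul]
    exact (IsUnit.of_mul_eq_one _ psI_X).mul (hub.map _)
  refine ⟨hTu, ?_⟩
  obtain ⟨ι, hι, hι1⟩ := unit_dX (A := A) hub rfl
  rw [← hT] at hι1
  refine ⟨ι * D h1 h2 t, mul_mem_Pol0 hι (D_mem h1 h2 t), ?_⟩
  have hθ := mul_mem_Pol0 hι (D_mem h1 h2 t)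
  set θ := ι * D h1 h2 t with hθd
  let E : R → KK I A := fun v => D h1 h2 v - θ * dd (Hb h1 v)
  have Eadd : ∀ v w, E (v + w) = E v + E w := by
    intro v w
    change D h1 h2 (v + w) - θ * dd (Hb h1 (v + w)) = (D h1 h2 v - θ * dd (Hb h1 v)) +
      (D h1 h2 w - θ * dd (Hb h1 w))
    rw [D_add, map_add, dd_add]
    ring
  have Emul : ∀ v w, E (v * w) = Hb h1 v * E w + Hb h1 w * E v := by
    intro v w
    change D h1 h2 (v * w) - θ * dd (Hb h1 (v * w)) = Hb h1 v * (D h1 h2 w - θ * dd (Hb h1 w)) +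
      Hb h1 w * (D h1 h2 v - θ * dd (Hb h1 v))
    rw [D_mul hh, map_mul, dd_mul]
    ring
  have Et : E t = 0 := by
    change D h1 h2 t - θ * dd (Hb h1 t) = 0
    rw [hθd, mul_right_comm, hι1, one_mul, sub_self]
  have Eco : ∀ a, E (co a) = 0 := by
    intro a
    have e1 : D h1 h2 (co a) = 0 := by
      change ksnd (psI I (Eps A) (h1 (co a))) - ksnd (psI I (Eps A) (h2 (co a))) = 0
      rw [hc1, hc2, sub_self]
    have e2 : Hb h1 (co a) = algebraMap A (KK I A) (eps0 A a) := by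
      change kmap (eps0 A) (psI I (Eps A) (h1 (co a))) = _
      rw [hc1]
      have e3 : psI I (Eps A) (algebraMap (Eps A) (I → PowerSeries (Eps A)) a) =
          algebraMap (Eps A) (KK I (Eps A)) a := by
        exact psI_algebraMap a
      rw [e3, kmap_algebraMap]
    change D h1 h2 (co a) - θ * dd (Hb h1 (co a)) = 0
    rw [e1, e2, dd_algebraMap, mul_zero, sub_zero]
  have E0 : E 0 = 0 := by
    have := Eadd 0 0
    rw [add_zero] at this
    exact left_eq_add.1 this
  have Esub : ∀ v w, E (v - w) = E v - E w := by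
    intro v w
    have := Eadd (v - w) w
    rw [sub_add_cancel] at this
    rw [this, add_sub_cancel_right]
  have Esum : ∀ f : I → R, E (∑ i, f i) = ∑ i, E (f i) := by
    intro f
    have : ∀ s : Finset I, E (∑ i ∈ s, f i) = ∑ i ∈ s, E (f i) := by
      intro s
      induction s using Finset.induction_on with
      | empty => simpa using E0
      | insert a s ha ih => rw [Finset.sum_insert ha, Finset.sum_insert ha, Eadd, ih]
    exact this _
  choose e he using fun i => hs (Pi.single i 1)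
  choose w hw using fun i => hk (e i - e i * e i) (by
    rw [map_sub, map_mul, map_sub, map_mul, he i, ← Pi.single_mul, one_mul, sub_self])
  have key : ∀ n : ℕ, ∀ v, E v ∈ Pol I A (-(n : ℤ)) := by
    intro n
    induction n with
    | zero =>
      intro v
      rw [Nat.cast_zero, neg_zero]
      exact (Pol I A 0).sub_mem (D_mem h1 h2 v) (mul_mem_Pol0 hθ (dd_mem_Pol0 (Hb_mem h1 v)))
    | succ n ih =>
      have hn : -((n + 1 : ℕ) : ℤ) = -1 + -(n : ℤ) := by push_cast; ring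
      have hTE : ∀ v, Hb h1 t * E v ∈ Pol I A (-((n + 1 : ℕ) : ℤ)) := fun v => by
        rw [hn]
        exact mul_mem_Pol hTm (ih v)
      have hmul : ∀ {a b : KK I A}, a ∈ Pol I A 0 → b ∈ Pol I A (-((n + 1 : ℕ) : ℤ)) →
          a * b ∈ Pol I A (-((n + 1 : ℕ) : ℤ)) := fun ha hb => by
        have := mul_mem_Pol ha hb
        rwa [zero_add] at this
      have he1 : ∀ i, E (e i) ∈ Pol I A (-((n + 1 : ℕ) : ℤ)) := by
        intro i
        have a1 : E (t * w i) = Hb h1 t * E (w i) := by rw [Emul, Et, mul_zero, add_zero]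
        have a2 : E (t * w i) = (1 - 2 * Hb h1 (e i)) * E (e i) := by
          rw [← hw i, Esub, Emul]
          ring
        have a3 : Hb h1 t * Hb h1 (w i) = Hb h1 (e i) - Hb h1 (e i) * Hb h1 (e i) := by
          rw [← map_mul, ← hw i, map_sub, map_mul]
        have a4 : E (e i) = (1 - 2 * Hb h1 (e i)) * (Hb h1 t * E (w i)) +
            4 * (Hb h1 (w i)) * (Hb h1 t * E (e i)) := by
          rw [← a1, a2]
          linear_combination (-4 * E (e i)) * a3
        rw [a4]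
        have two : (2 : KK I A) ∈ Pol I A 0 := by
          have := (Pol I A 0).add_mem (one_mem_Pol0 (I := I) (A := A)) one_mem_Pol0
          rwa [one_add_one_eq_two] at this
        have four : (4 : KK I A) ∈ Pol I A 0 := by
          have := mul_mem_Pol0 two two
          have h4 : (2 : KK I A) * 2 = 4 := by norm_num
          rwa [h4] at this
        exact (Pol I A _).add_mem (hmul ((Pol I A 0).sub_mem one_mem_Pol0
          (mul_mem_Pol0 two (Hb_mem h1 _))) (hTE _)) (hmul (mul_mem_Pol0 four (Hb_mem h1 _)) (hTE _))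
      intro v
      obtain ⟨r, hr⟩ := hk (v - ∑ i, co (ccI I (Eps A) (h1 v) i) * e i) (by
        rw [map_sub, map_sub, map_sum, map_sum]
        have : ∀ i, ccI I (Eps A) (h1 (co (ccI I (Eps A) (h1 v) i) * e i)) =
            Pi.single i (ccI I (Eps A) (h1 v) i) := by
          intro i
          rw [map_mul, map_mul, he i, hc1]
          funext k
          rw [Pi.mul_apply, ccI_apply]
          rcases eq_or_ne k i with h | h
          · subst h
            rw [Pi.single_eq_same, Pi.single_eq_same, mul_one]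
            change PowerSeries.constantCoeff (PowerSeries.C _) = _
            exact PowerSeries.constantCoeff_C _
          · rw [Pi.single_eq_of_ne h, Pi.single_eq_of_ne h, mul_zero]
        rw [Finset.sum_congr rfl fun i _ => this i, Finset.univ_sum_single, sub_self])
      have b1 : v = t * r + ∑ i, co (ccI I (Eps A) (h1 v) i) * e i := by
        rw [← hr]
        ring
      rw [b1, Eadd, Emul, Et, mul_zero, add_zero, Esum]
      refine (Pol I A _).add_mem (hTE r) ((Pol I A _).sum_mem fun i _ => ?_)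
      rw [Emul, Eco, mul_zero, add_zero]
      exact hmul (Hb_mem h1 _) (he1 i)
  intro v
  have := Pol_inter fun n => key n v
  exact sub_eq_zero.1 this

end Alg

section Geo

theorem nil_surj {R S : Type} [CommRing R] [CommRing S] (φ : R →+* S)
    (h1 : Function.Surjective φ) (h2 : ∀ a, φ a = 0 → a * a = 0) :
    Function.Surjective (spMap φ) := by
  change Function.Surjective (PrimeSpectrum.comap φ)
  rw [← Set.range_eq_univ, range_comap_of_surjective _ _ h1,
    PrimeSpectrum.zeroLocus_eq_univ_iff]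
  intro a ha
  exact (mem_nilradical).2 ⟨2, by rw [pow_two]; exact h2 a ha⟩

variable {I A : Type} [CommRing A]

theorem eps_sq {a b : Eps A} (ha : eps0 A a = 0) (hb : eps0 A b = 0) : a * b = 0 := by
  have ha' : a.fst = 0 := ha
  have hb' : b.fst = 0 := hb
  ext
  · rw [TrivSqZeroExt.fst_mul, ha', zero_mul]
    rfl
  · rw [TrivSqZeroExt.snd_mul, ha', hb']
    simp

theorem psm_surj : Function.Surjective (psm I (eps0 A)) := by
  intro f
  refine ⟨fun i => PowerSeries.map (epsInl A) (f i), funext fun i => ?_⟩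
  rw [psm_apply]
  ext n
  simp [epsInl]

theorem psm_sq (a : I → PowerSeries (Eps A)) (h : psm I (eps0 A) a = 0) : a * a = 0 := by
  funext i
  refine PowerSeries.ext fun n => ?_
  rw [Pi.mul_apply, PowerSeries.coeff_mul]
  have hc : ∀ m, eps0 A (PowerSeries.coeff m (a i)) = 0 := fun m => by
    have h2 := congrArg (PowerSeries.coeff m) (congrFun h i)
    rw [psm_apply, PowerSeries.coeff_map] at h2
    rw [h2]
    simp
  rw [Finset.sum_eq_zero fun p _ => eps_sq (hc _) (hc _)]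
  simp

variable {g : ℕ} {x : Fam 0 A} {P : Subalgebra A (KK I A)} {M : Mod x P (nop P)}
  {y : Fam 0 (Eps A)} {r : Arrow (eps0 A) x y} {δ δ' : DD P}
  {M1 : Mod y (Pdel P δ) (nop (Pdel P δ))} {M2 : Mod y (Pdel P δ') (nop (Pdel P δ'))}

theorem rf_surj (r : Arrow (eps0 A) x y) : Function.Surjective r.f := by
  have h : Surjective (spMap (eps0 A)) := ⟨nil_surj (eps0 A)
    (fun a => ⟨epsInl A a, by simp [epsInl]⟩) fun a ha => eps_sq ha ha⟩
  have h2 : Surjective r.f := MorphismProperty.of_isPullback r.cart.flip h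
  exact h2.surj

theorem sh_eq (o1 : M1.Over r M) (o2 : M2.Over r M) (p : Sp (I → PowerSeries (Eps A))) :
    M1.sh p = M2.sh p := by
  obtain ⟨p', rfl⟩ := nil_surj (psm I (eps0 A)) psm_surj psm_sq p
  rw [← Scheme.Hom.comp_apply, ← Scheme.Hom.comp_apply, ← o1.sh, ← o2.sh]

theorem range_j (o1 : M1.Over r M) : Set.range M1.j = r.f '' Set.range M.j := by
  ext q
  constructor
  · rintro ⟨p, rfl⟩
    obtain ⟨q', hq'⟩ := rf_surj r (M1.j p)
    rcases M.cov q' with h | ⟨c, hc⟩
    · exact ⟨q', h, hq'⟩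
    · exfalso
      refine M1.exc (M1.j p) ⟨p, rfl⟩ ?_
      let e : (I → Eps A) →+* (I → A) := RingHom.pi fun i => (eps0 A).comp (Pi.evalRingHom _ i)
      refine ⟨spMap e c, ?_⟩
      rw [← hq', ← hc, ← Scheme.Hom.comp_apply, ← Scheme.Hom.comp_apply, Category.assoc, o1.sh,
        ← Category.assoc, ← Category.assoc, ← Spec.map_comp, ← Spec.map_comp,
        ← CommRingCat.ofHom_comp, ← CommRingCat.ofHom_comp]
      rfl
  · rintro ⟨_, ⟨p, rfl⟩, rfl⟩
    rw [← Scheme.Hom.comp_apply, o1.j]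
    exact ⟨_, rfl⟩

end Geo

theorem exists_lift {I A : Type} [CommRing A] (f h : KK I A) :
    ∃ F : KK I (Eps A), kmap (eps0 A) F = f ∧ ksnd F = h := by
  refine ⟨fun i => lmap (epsInl A) (f i) + epsL A * lmap (epsInl A) (h i), ?_,
    funext fun i => lsnd_inl _ _⟩
  funext i
  refine HahnSeries.ext (funext fun m => ?_)
  rw [kmap_apply, lmap_coeff, HahnSeries.coeff_add, coeff_epsL_mul]
  simp [epsInl, epsE]

end MUN

theorem t_MUN : Stmt_MUN := by
  intro I A _ _ _ g x P hP M y r hflat δ δ' M1 M2 o1 o2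
  haveI := M1.jo
  haveI := M2.jo
  haveI := M.jo
  obtain ⟨V, t, le, hV, hbt, -, ⟨u, hu, hut⟩, hker, hsur⟩ := M1.loc
  have le2 : ⊤ ≤ M2.sh ⁻¹ᵁ V := fun p hp => by
    have h1 : M1.sh p ∈ V := le hp
    rw [MUN.sh_eq o1 o2] at h1
    exact h1
  have hU : M1.j.opensRange = M2.j.opensRange := by
    ext1
    change Set.range M1.j = Set.range M2.j
    rw [MUN.range_j o1, MUN.range_j o2]
  let U := M1.j.opensRange
  have lj1 : ⊤ ≤ M1.j ⁻¹ᵁ U := fun p _ => ⟨p, rfl⟩
  have lj2 : ⊤ ≤ M2.j ⁻¹ᵁ U := fun p _ => by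
    change M2.j p ∈ M1.j.opensRange
    rw [hU]
    exact ⟨p, rfl⟩
  have b1 := gm_bij M1.j U lj1 rfl
  let h1 := gm M1.sh V le
  let h2 := gm M2.sh V le2
  -- the reductions
  have lM : ⊤ ≤ M.sh ⁻¹ᵁ (r.f ⁻¹ᵁ V) := fun p _ => by
    change r.f (M.sh p) ∈ V
    rw [← Scheme.Hom.comp_apply, o1.sh]
    exact le trivial
  have hh : ∀ v, psm I (eps0 A) (h1 v) = psm I (eps0 A) (h2 v) := fun v => by
    rw [← gm_nat r.f M1.sh M.sh (psm I (eps0 A)) o1.sh V (r.f ⁻¹ᵁ V) le lM le_rfl v,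
      ← gm_nat r.f M2.sh M.sh (psm I (eps0 A)) o2.sh V (r.f ⁻¹ᵁ V) le2 lM le_rfl v]
  have lMj : ⊤ ≤ M.j ⁻¹ᵁ (r.f ⁻¹ᵁ U) := fun p _ => by
    change r.f (M.j p) ∈ U
    rw [← Scheme.Hom.comp_apply, o1.j]
    exact ⟨_, rfl⟩
  have hj : ∀ s, kmap (eps0 A) (gm M1.j U lj1 s : KK I (Eps A)) =
      kmap (eps0 A) (gm M2.j U lj2 s : KK I (Eps A)) := fun s => by
    have e1 := gm_nat r.f M1.j M.j (rres (kmap (eps0 A)) o1.mem) o1.j U (r.f ⁻¹ᵁ U) lj1 lMj le_rfl s
    have e2 := gm_nat r.f M2.j M.j (rres (kmap (eps0 A)) o2.mem) o2.j U (r.f ⁻¹ᵁ U) lj2 lMj le_rfl s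
    exact congrArg Subtype.val (e1.symm.trans e2)
  obtain ⟨hTu, θ, hθ, hD⟩ := MUN.core hh (coef y.π V)
    (fun a => gm_coef M1.sh y.π _ M1.shp V le a) (fun a => gm_coef M2.sh y.π _ M2.shp V le2 a)
    t u hu hut hker hsur
  refine ⟨θ, hθ, ?_⟩
  refine Derivation.ext fun f => ?_
  -- a lift of `f`
  obtain ⟨h, hh'⟩ := mk_surj P (δ f)
  obtain ⟨F, hF1, hF2⟩ := MUN.exists_lift (f : KK I A) h
  have hFm : F ∈ Pdel P δ := by
    refine mem_Pdel.2 ⟨by rw [hF1]; exact f.2, ?_⟩
    have e : (⟨kmap (eps0 A) F, by rw [hF1]; exact f.2⟩ : P) = f := Subtype.ext hF1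
    rw [e, hF2, hh']
  obtain ⟨s, hs⟩ := b1.2 ⟨F, hFm⟩
  let W := y.X.basicOpen t
  have hWV : W ≤ V := y.X.basicOpen_le t
  have hWU : W ≤ U := fun q hq => by
    have h5 : q ∈ (y.X.basicOpen t : Set y.X) := hq
    rw [hbt] at h5
    exact h5.1
  -- localisation
  haveI := hV.isLocalization_basicOpen t
  obtain ⟨⟨v, ⟨_, n, rfl⟩⟩, hv⟩ := IsLocalization.surj (Submonoid.powers t) (rs y.X hWU s)
  have hv' : rs y.X hWU s * rs y.X hWV (t ^ n) = rs y.X hWV v := hv
  -- the common part of the two charts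
  have fin : ∀ {δ₀ : DD P} (M0 : Mod y (Pdel P δ₀) (nop (Pdel P δ₀))) (hj0 : ∀ p, M0.j p ∈ U)
      (le0 : ⊤ ≤ M0.sh ⁻¹ᵁ V) (lj0 : ⊤ ≤ M0.j ⁻¹ᵁ U),
      (gm M0.j U lj0 s : KK I (Eps A)) * psI I (Eps A) (gm M0.sh V le0 (t ^ n)) =
        psI I (Eps A) (gm M0.sh V le0 v) := by
    intro δ₀ M0 hj0 le0 lj0
    have lW : ⊤ ≤ (spMap (psI I (Eps A)) ≫ M0.sh) ⁻¹ᵁ W := fun p _ => by
      have a1 : (spMap (psI I (Eps A)) ≫ M0.sh) p ∈ (y.X.basicOpen t : Set y.X) := by
        rw [hbt]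
        refine ⟨?_, ?_⟩
        · have a2 : (spMap (psI I (Eps A)) ≫ M0.sh) p ∈ U := by
            rw [M0.cmp]
            exact hj0 _
          exact a2
        · rw [Scheme.Hom.comp_apply]
          exact le0 trivial
      exact a1
    have c1 := gm_rs M0.j ((Pdel P δ₀).val : Pdel P δ₀ →+* KK I (Eps A))
      (spMap (psI I (Eps A)) ≫ M0.sh) M0.cmp hWU lj0 lW s
    have c2 := fun v' => gm_rs M0.sh (psI I (Eps A)) (spMap (psI I (Eps A)) ≫ M0.sh) rfl hWV le0 lW v'
    have c3 := congrArg (gm (spMap (psI I (Eps A)) ≫ M0.sh) W lW) hv'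
    rw [map_mul, c1, c2, c2] at c3
    exact c3
  have f1 := fin M1 (fun p => lj1 trivial) le lj1
  have f2 := fin M2 (fun p => lj2 trivial) le2 lj2
  set a1 : KK I (Eps A) := (gm M1.j U lj1 s : KK I (Eps A)) with ha1
  set a2 : KK I (Eps A) := (gm M2.j U lj2 s : KK I (Eps A)) with ha2
  have a12 : kmap (eps0 A) a1 = kmap (eps0 A) a2 := hj s
  have aF : a1 = F := congrArg Subtype.val hs
  have af : kmap (eps0 A) a1 = (f : KK I A) := by rw [aF, hF1]
  -- the second coordinates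
  have k1 : kmap (eps0 A) a1 * MUN.Hb h1 (t ^ n) = MUN.Hb h1 v := by
    change _ * kmap (eps0 A) (psI I (Eps A) (h1 (t ^ n))) = kmap (eps0 A) (psI I (Eps A) (h1 v))
    rw [← map_mul]
    exact congrArg _ f1
  have k2 := congrArg ksnd f1
  have k3 := congrArg ksnd f2
  rw [ksnd_mul] at k2 k3
  have k4 : kmap (eps0 A) (psI I (Eps A) (h2 (t ^ n))) = MUN.Hb h1 (t ^ n) :=
    (MUN.Hb_eq hh (t ^ n)).symm
  have k5 : kmap (eps0 A) (psI I (Eps A) (h1 (t ^ n))) = MUN.Hb h1 (t ^ n) := rfl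
  have k6 := hD (t ^ n)
  have k7 := hD v
  rw [← k1, dd_mul] at k7
  have k8 : MUN.Hb h1 (t ^ n) * (ksnd a1 - ksnd a2) =
      MUN.Hb h1 (t ^ n) * (θ * dd (kmap (eps0 A) a1)) := by
    have k9 : MUN.D h1 h2 v = ksnd (psI I (Eps A) (h1 v)) - ksnd (psI I (Eps A) (h2 v)) := rfl
    have k10 : MUN.D h1 h2 (t ^ n) =
      ksnd (psI I (Eps A) (h1 (t ^ n))) - ksnd (psI I (Eps A) (h2 (t ^ n))) := rfl
    rw [k9, ← k2, ← k3] at k7
    rw [k10] at k6
    change _ * _ + kmap (eps0 A) (psI I (Eps A) (h1 (t ^ n))) * _ -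
      (_ * _ + kmap (eps0 A) (psI I (Eps A) (h2 (t ^ n))) * _) = _ at k7
    rw [k4, k5, ← a12] at k7
    change kmap (eps0 A) a1 * ksnd (psI I (Eps A) (h1 (t ^ n))) + MUN.Hb h1 (t ^ n) * ksnd a1 -
      (kmap (eps0 A) a1 * ksnd (psI I (Eps A) (h2 (t ^ n))) + MUN.Hb h1 (t ^ n) * ksnd a2) = _ at k7
    linear_combination k7 - kmap (eps0 A) a1 * k6
  have k11 : ksnd a1 - ksnd a2 = θ * dd (kmap (eps0 A) a1) := by
    have hun : IsUnit (MUN.Hb h1 (t ^ n)) := by
      rw [map_pow]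
      exact hTu.pow n
    exact hun.mul_left_cancel k8
  have m1 : δ f = mk P (ksnd a1) := by
    obtain ⟨p1, p2⟩ := mem_Pdel.1 (gm M1.j U lj1 s).2
    have e : (⟨kmap (eps0 A) a1, p1⟩ : P) = f := Subtype.ext af
    rw [← e]
    exact p2
  have m2 : δ' f = mk P (ksnd a2) := by
    obtain ⟨p1, p2⟩ := mem_Pdel.1 (gm M2.j U lj2 s).2
    have e : (⟨kmap (eps0 A) a2, p1⟩ : P) = f := Subtype.ext (a12.symm.trans af)
    rw [← e]
    exact p2
  rw [Derivation.add_apply, m1, m2, tder_apply, ← af, ← k11, ← map_add]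
  congr 1
  abel

end Pool.Agent.MG.KX
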