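import Pool.Agent.MG.KX.StmtsM

/-!
# MXT: an arrow from the curve of a Krichever ring is determined by its effect on a model

Two morphisms to a separated scheme which agree on the first chart agree on the second, because the
ring of the second chart embeds in the ring of the intersection.
-/

open CategoryTheory CategoryTheory.Limits AlgebraicGeometry
open scoped TensorProduct

namespace Pool.Agent.MG.KX

open Pool.Agent.MG.G0 Pool.Agent.MG.GLU

namespace MXT

/-- Morphisms from an affine scheme to a separated scheme which agree after an injective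
homomorphism of rings. -/
theorem ext_inj {R S : Type} [CommRing R] [CommRing S] (j : R →+* S) (hj : Function.Injective j)
    {X Z : Scheme.{0}} (s : X ⟶ Z) [IsSeparated s] {f g : Sp R ⟶ X} (h : f ≫ s = g ≫ s)
    (hU : spMap j ≫ f = spMap j ≫ g) : f = g := by
  let X' : Over Z := Over.mk (f ≫ s)
  let Y' : Over Z := Over.mk s
  let U' : Over Z := Over.mk (spMap j ≫ f ≫ s)
  let f' : X' ⟶ Y' := Over.homMk f
  let g' : X' ⟶ Y' := Over.homMk g h.symm
  let ι' : U' ⟶ X' := Over.homMk (spMap j)
  have : IsSeparated Y'.hom := ‹_›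
  have hc : ι' ≫ f' = ι' ≫ g' := by
    ext1
    exact hU
  let l : Sp S ⟶ (equalizer f' g').left := (equalizer.lift ι' hc).left
  let i : (equalizer f' g').left ⟶ Sp R := (equalizer.ι f' g').left
  have hl : l ≫ i = spMap j := by
    change (equalizer.lift ι' hc).left ≫ (equalizer.ι f' g').left = _
    rw [← Over.comp_left, equalizer.lift_ι]
    rfl
  have hi : IsClosedImmersion i := inferInstanceAs (IsClosedImmersion (equalizer.ι f' g').left)
  have he : i ≫ f = i ≫ g := congrArg CommaMorphism.left (equalizer.condition f' g')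
  obtain ⟨I, e, hie⟩ := IsClosedImmersion.Spec_iff.1 hi
  obtain ⟨θ, hθ⟩ := Spec.map_surjective (l ≫ e.hom)
  have hI : ∀ r ∈ I, r = 0 := by
    intro r hr
    refine hj ?_
    rw [map_zero]
    have h1 : Spec.map (CommRingCat.ofHom (Ideal.Quotient.mk I) ≫ θ) =
        Spec.map (CommRingCat.ofHom j) := by
      rw [Spec.map_comp, hθ, Category.assoc, ← hie]
      exact hl
    have h2 := Spec.map_injective h1
    have h3 := ConcreteCategory.congr_hom h2 r
    have h4 : θ.hom (Ideal.Quotient.mk I r) = j r := h3
    rw [← h4, Ideal.Quotient.eq_zero_iff_mem.2 hr, map_zero]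
  have hiso : IsIso (CommRingCat.ofHom (Ideal.Quotient.mk I)) := by
    rw [ConcreteCategory.isIso_iff_bijective]
    refine ⟨?_, Ideal.Quotient.mk_surjective⟩
    intro a b hab
    have hab' : Ideal.Quotient.mk I a = Ideal.Quotient.mk I b := hab
    have h5 := hI _ (Ideal.Quotient.eq.1 hab')
    exact sub_eq_zero.1 h5
  have hi2 : IsIso i := by
    rw [hie]
    infer_instance
  exact (cancel_epi i).1 he

/-- The same for a scheme with two affine charts. -/
theorem duo_ext {B : Type} [CommRing B] (D : Duo B) (hj : Function.Injective D.j2)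
    {X Z : Scheme.{0}} (s : X ⟶ Z) [IsSeparated s] {f g : D.X ⟶ X} (h : f ≫ s = g ≫ s)
    (e1 : D.in1 ≫ f = D.in1 ≫ g) : f = g := by
  refine Duo.ext e1 ?_
  refine ext_inj (D.j2 : D.R2 →+* D.R12) hj s ?_ ?_
  · rw [Category.assoc, Category.assoc, h]
  · rw [← Category.assoc, ← Category.assoc, ← D.cond, Category.assoc, Category.assoc, e1]

end MXT

theorem t_MXT : Stmt_MXT := by
  intro I A B _ _ _ _ g n φ Q q P p x z a b M M' _ hx hM' h1 h2
  have hs : IsSeparated x.π := hx.toIsSeparated
  have e0 : a.f ≫ x.π = b.f ≫ x.π := a.cart.w.trans b.cart.w.symm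
  have e1 : xin z p ≫ a.f = xin z p ≫ b.f := by
    have h3 : M'.j ≫ a.f = M'.j ≫ b.f := h1.j.trans h2.j.symm
    rw [hM'.j] at h3
    exact h3
  exact MXT.duo_ext (kDuo z) (Subalgebra.inclusion_injective inf_le_left) x.π e0 e1

end Pool.Agent.MG.KX
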