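import Pool.Agent.MG.KX.StmtsE
import Pool.Agent.MG.G0.AWB
import Pool.Agent.MG.G0.KBC
import Pool.Agent.MG.G0.KBT
import Pool.Agent.MG.G0.KEQ
import Pool.Agent.MG.G0.KFO
import Pool.Agent.MG.G0.KDU
import Pool.Agent.MG.G0.KSP
import Pool.Agent.MG.G0.KNZ

/-!
# PDB: base change of the deformations of Krichever rings
-/

open TensorProduct

namespace Pool.Agent.MG.KX

open Pool.Agent.MG.G0

namespace PDB

section

variable {I A B : Type} [CommRing A] [CommRing B] {P : Subalgebra A (KK I A)}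

/-- The map `KK / P → KK / P_B` induced by the coefficientwise map. -/
noncomputable def kap (φ : A →+* B) (P : Subalgebra A (KK I A)) (m : MM P) : MM (bc φ P) :=
  mk (bc φ P) (kmap φ (Function.surjInv (mk_surj P) m))

theorem kap_mk (φ : A →+* B) (h : KK I A) :
    kap φ P (mk P h) = mk (bc φ P) (kmap φ h) := by
  rw [kap, mk_eq, ← map_sub]
  exact kmap_mem_bc φ (mk_eq.1 (Function.surjInv_eq (mk_surj P) (mk P h)))

theorem kap_add (φ : A →+* B) (x y : MM P) : kap φ P (x + y) = kap φ P x + kap φ P y := by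
  obtain ⟨a, rfl⟩ := mk_surj P x
  obtain ⟨b, rfl⟩ := mk_surj P y
  rw [← map_add, kap_mk, kap_mk, kap_mk, map_add, map_add]

theorem kap_smul (φ : A →+* B) (p : P) (x : MM P) :
    kap φ P (p • x) = bcMap φ P p • kap φ P x := by
  obtain ⟨a, rfl⟩ := mk_surj P x
  rw [← map_smul, kap_mk, kap_mk, ← map_smul]
  congr 1
  exact map_mul (kmap φ) (p : KK I A) a

theorem kap_smulA (φ : A →+* B) (c : A) (x : MM P) :
    kap φ P (c • x) = φ c • kap φ P x := by
  obtain ⟨a, rfl⟩ := mk_surj P x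
  rw [← mk_smulA, kap_mk, kap_mk, ← mk_smulA, kmap_smul]

/-- The base change of a deformation, as a linear map on the tensor product. -/
theorem exists_lin [Algebra A B] (δ : DD P) :
    ∃ L : (B ⊗[A] P) →ₗ[B] MM (bc (algebraMap A B) P),
      ∀ (b : B) (p : P), L (b ⊗ₜ p) = b • kap (algebraMap A B) P (δ p) := by
  letI : Module A (MM (bc (algebraMap A B) P)) :=
    Module.compHom (MM (bc (algebraMap A B) P)) (algebraMap A B)
  haveI : IsScalarTower A B (MM (bc (algebraMap A B) P)) := ⟨fun a b m => by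
    rw [Algebra.smul_def, mul_smul]
    rfl⟩
  let l : P →ₗ[A] MM (bc (algebraMap A B) P) :=
    { toFun := fun p => kap (algebraMap A B) P (δ p)
      map_add' := fun p q => by rw [map_add, kap_add]
      map_smul' := fun a p => by
        rw [Derivation.map_smul, kap_smulA]
        rfl }
  exact ⟨l.liftBaseChange B, fun b p => LinearMap.liftBaseChange_tmul B l b p⟩

/-- The base change of a deformation. -/
theorem exists_der0 [Fintype I] [Nonempty I] [Algebra A B] (hKBT : Stmt_KBT) {g : ℕ}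
    (hP : IsKr g P) (δ : DD P) :
    ∃ δ' : DD (bc (algebraMap A B) P), Rel (algebraMap A B) δ δ' := by
  obtain ⟨-, e, he⟩ := hKBT (B := B) hP
  obtain ⟨L, hL⟩ := exists_lin (B := B) δ
  have h1 : ∀ (b : B) (p : P), e (b ⊗ₜ p) = b • bcMap (algebraMap A B) P p := fun b p =>
    Subtype.ext (he b p)
  have key : ∀ x y : B ⊗[A] P, L (x * y) = e x • L y + e y • L x := by
    intro x y
    induction x using TensorProduct.induction_on with
    | zero => rw [zero_mul, map_zero, map_zero, zero_smul, smul_zero, add_zero]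
    | add x x' hx hx' =>
      rw [add_mul, map_add, hx, hx', map_add, map_add, add_smul, smul_add]
      abel
    | tmul b p =>
      induction y using TensorProduct.induction_on with
      | zero => rw [mul_zero, map_zero, map_zero, zero_smul, smul_zero, add_zero]
      | add y y' hy hy' =>
        rw [mul_add, map_add, hy, hy', map_add, map_add, add_smul, smul_add]
        abel
      | tmul c q =>
        rw [Algebra.TensorProduct.tmul_mul_tmul, hL, hL, hL, h1, h1, Derivation.leibniz, kap_add,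
          kap_smul, kap_smul, smul_add, smul_assoc, smul_assoc,
          smul_comm (bcMap (algebraMap A B) P p) c, smul_comm (bcMap (algebraMap A B) P q) b,
          smul_smul, smul_smul, mul_comm c b]
  refine ⟨Derivation.mk' (L.comp (e.symm : bc (algebraMap A B) P →ₐ[B] B ⊗[A] P).toLinearMap)
    fun x y => ?_, fun f h hf => ?_⟩
  · change L (e.symm (x * y)) = x • L (e.symm y) + y • L (e.symm x)
    rw [map_mul, key, AlgEquiv.apply_symm_apply, AlgEquiv.apply_symm_apply]
  · change L (e.symm (bcMap (algebraMap A B) P f)) = _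
    have h2 : e (1 ⊗ₜ f) = bcMap (algebraMap A B) P f := by rw [h1, one_smul]
    rw [← h2, AlgEquiv.symm_apply_apply, hL, one_smul, hf, kap_mk]

theorem exists_der [Fintype I] [Nonempty I] (hKBT : Stmt_KBT) {g : ℕ} (hP : IsKr g P)
    (φ : A →+* B) (δ : DD P) : ∃ δ' : DD (bc φ P), Rel φ δ δ' := by
  letI : Algebra A B := φ.toAlgebra
  exact exists_der0 hKBT hP δ

theorem kmap_eps (φ : A →+* B) (f : KK I (Eps A)) :
    kmap (eps0 B) (kmap (epsMap φ) f) = kmap φ (kmap (eps0 A) f) := by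
  funext i
  ext n
  simp [epsMap]

theorem ksnd_kmap (φ : A →+* B) (f : KK I (Eps A)) :
    ksnd (kmap (epsMap φ) f) = kmap φ (ksnd f) := by
  funext i
  ext n
  simp [epsMap]

theorem le (φ : A →+* B) (δ : DD P) (δ' : DD (bc φ P)) (h : Rel φ δ δ') :
    bc (epsMap φ) (Pdel P δ) ≤ Pdel (bc φ P) δ' := by
  refine Algebra.adjoin_le ?_
  rintro _ ⟨F, ⟨h1, h2⟩, rfl⟩
  have h3 : kmap (eps0 B) (kmap (epsMap φ) F) ∈ bc φ P := by
    rw [kmap_eps]
    exact kmap_mem_bc φ h1
  refine ⟨h3, ?_⟩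
  have h4 : (⟨kmap (eps0 B) (kmap (epsMap φ) F), h3⟩ : bc φ P) =
      bcMap φ P ⟨kmap (eps0 A) F, h1⟩ := Subtype.ext (kmap_eps φ F)
  rw [h4, h _ _ h2, ksnd_kmap]

end

end PDB

theorem t_PDB (hPDK : Stmt_PDK) : Stmt_PDB := by
  intro I A B _ _ _ _ g P hP φ δ
  have hKSP : Stmt_KSP := t_KSP t_KNZ
  have hKBC : Stmt_KBC := t_KBC (t_KFO t_KDU) t_KNZ hKSP
  have hKBT : Stmt_KBT := t_KBT hKSP hKBC
  obtain ⟨δ', hδ'⟩ := PDB.exists_der hKBT hP φ δ
  refine ⟨δ', hδ', ?_⟩
  have h1 : IsKr g (bc (epsMap φ) (Pdel P δ)) := (hKBC.2.2.2 (hPDK hP δ).1 (epsMap φ)).1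
  have h2 : IsKr g (Pdel (bc φ P) δ') := (hPDK (hKBC.2.2.2 hP φ).1 δ').1
  exact t_KEQ h1 h2 (PDB.le φ δ δ' hδ')

end Pool.Agent.MG.KX
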