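import Pool.Agent.MG.KX.StmtsE
import Pool.Agent.MG.G0.KBT
import Pool.Agent.MG.G0.KBC
import Pool.Agent.MG.G0.KSP
import Pool.Agent.MG.G0.KNZ
import Pool.Agent.MG.G0.KFO
import Pool.Agent.MG.G0.KDU

/-!
# PDC: every lift of `P` to `A[ε]` is a `Pdel P δ`
-/

open TensorProduct

namespace Pool.Agent.MG.KX

open Pool.Agent.MG.G0 Pool.Agent.MG.GLU

namespace PDC

/-- KBT, without hypotheses. -/
theorem kbt : Stmt_KBT := t_KBT (t_KSP t_KNZ) (t_KBC (t_KFO t_KDU) t_KNZ (t_KSP t_KNZ))

/-- Elements of `P` with all coefficients in the ideal `m`. -/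
theorem mem_smul {I E : Type} [CommRing E] [Fintype I] [Nonempty I] (m : Ideal E) {g : ℕ}
    {P : Subalgebra E (KK I E)} (hP : IsKr g P) {F : KK I E} (hF : F ∈ P)
    (h : kmap (Ideal.Quotient.mk m) F = 0) : F ∈ m • Subalgebra.toSubmodule P := by
  obtain ⟨h1, -⟩ := kbt (I := I) (A := E) (B := E ⧸ m) (P := P) hP
  let r : P := ⟨F, hF⟩
  have h2 := h1 1 (fun _ => 1) (fun _ => r) (by
    rw [Fin.sum_univ_one, one_smul]
    exact h)
  rw [Fin.sum_univ_one] at h2
  have h3 : r ∈ m • (⊤ : Submodule E P) := by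
    rw [← Submodule.Quotient.mk_eq_zero, ← TensorProduct.quotTensorEquivQuotSMul_mk_one_tmul,
      h2, LinearEquiv.map_zero]
  have h4 : P.val.toLinearMap r ∈ (m • (⊤ : Submodule E P)).map P.val.toLinearMap :=
    Submodule.mem_map_of_mem h3
  rw [Submodule.map_smul''] at h4
  refine Submodule.smul_mono le_rfl ?_ h4
  rintro _ ⟨x, -, rfl⟩
  exact x.2

section

variable {I A : Type} [CommRing A]

theorem ls_ext {f h : LaurentSeries (Eps A)} (h1 : lmap (eps0 A) f = lmap (eps0 A) h)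
    (h2 : lsnd f = lsnd h) : f = h := by
  rw [ls_eq f, ls_eq h, h1, h2]

theorem kk_ext {f h : KK I (Eps A)} (h1 : kmap (eps0 A) f = kmap (eps0 A) h)
    (h2 : ksnd f = ksnd h) : f = h :=
  funext fun i => ls_ext (congrFun h1 i) (congrFun h2 i)

theorem ksnd_smul (c : Eps A) (f : KK I (Eps A)) :
    ksnd (c • f) = c.fst • ksnd f + c.snd • kmap (eps0 A) f := by
  have e : c • f = algebraMap (Eps A) (KK I (Eps A)) c * f := Algebra.smul_def c f
  rw [e, ksnd_mul, kmap_algebraMap, ksnd_algebraMap, Algebra.smul_def, Algebra.smul_def,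
    mul_comm (kmap (eps0 A) f)]
  rfl

theorem kmap_inl (a : A) (f : KK I (Eps A)) :
    kmap (eps0 A) (epsInl A a • f) = a • kmap (eps0 A) f := by
  rw [kmap_smul]
  rfl

theorem ksnd_inl (a : A) (f : KK I (Eps A)) : ksnd (epsInl A a • f) = a • ksnd f := by
  rw [ksnd_smul]
  change a • ksnd f + (0 : A) • _ = _
  rw [zero_smul, add_zero]

theorem kmap_eps (f : KK I (Eps A)) : kmap (eps0 A) (epsE A • f) = 0 := by
  rw [kmap_smul]
  change (0 : A) • _ = _
  rw [zero_smul]

theorem ksnd_eps (f : KK I (Eps A)) : ksnd (epsE A • f) = kmap (eps0 A) f := by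
  rw [ksnd_smul]
  change (0 : A) • _ + (1 : A) • _ = _
  rw [zero_smul, one_smul, zero_add]

variable {P : Subalgebra A (KK I A)} {P' : Subalgebra (Eps A) (KK I (Eps A))}

/-- The elements of `P` lift. -/
theorem lift (h : bc (eps0 A) P' = P) {f : KK I A} (hf : f ∈ P) :
    ∃ F ∈ P', kmap (eps0 A) F = f := by
  rw [← h] at hf
  obtain ⟨m, b, p, hp, rfl⟩ := KBC.exists_sum (eps0 A) P' hf
  refine ⟨∑ k, epsInl A (b k) • p k, sum_mem fun k _ => P'.smul_mem (hp k) _, ?_⟩
  rw [map_sum]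
  exact Finset.sum_congr rfl fun k _ => kmap_inl _ _

/-- The multiples of `ε`. -/
theorem ker [Fintype I] [Nonempty I] {g : ℕ} (hP : IsKr g P') {F : KK I (Eps A)} (hF : F ∈ P')
    (h : kmap (eps0 A) F = 0) : ∃ H ∈ P', F = epsE A • H := by
  have h3 := mem_smul (RingHom.ker (eps0 A)) hP hF (by
    funext i
    ext n
    have h4 : eps0 A ((F i).coeff n) = 0 := congrArg (fun x : KK I A => (x i).coeff n) h
    exact Ideal.Quotient.eq_zero_iff_mem.2 h4)
  refine Submodule.smul_induction_on h3 ?_ ?_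
  · intro a ha n hn
    have h4 : a.fst = 0 := ha
    refine ⟨epsInl A a.snd • n, P'.smul_mem hn _, ?_⟩
    rw [smul_smul]
    congr 1
    ext
    · rw [h4]
      simp [epsE, epsInl]
    · simp [epsE, epsInl]
  · rintro x y ⟨r, hr, hr'⟩ ⟨s, hs, hs'⟩
    exact ⟨r + s, add_mem hr hs, by rw [hr', hs', smul_add]⟩

/-- The class of the coefficient of `ε` is determined by the reduction. -/
theorem uniq [Fintype I] [Nonempty I] {g : ℕ} (hP : IsKr g P') (h : bc (eps0 A) P' = P)
    {F G : KK I (Eps A)} (hF : F ∈ P') (hG : G ∈ P') (e : kmap (eps0 A) F = kmap (eps0 A) G) :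
    mk P (ksnd F) = mk P (ksnd G) := by
  rw [mk_eq]
  obtain ⟨H, hH, e'⟩ := ker hP (sub_mem hF hG) (by rw [map_sub, e, sub_self])
  have e1 : ksnd F = ksnd (F - G) + ksnd G := by rw [← ksnd_add, sub_add_cancel]
  rw [e1, add_sub_cancel_right, e', ksnd_eps, ← h]
  exact kmap_mem_bc _ hH

end

end PDC

open PDC in
theorem t_PDC : Stmt_PDC := by
  intro I A _ _ _ g P P' _ hP' h
  choose F hF hF' using fun f : P => lift h f.2
  have hu : ∀ (f : P) (G : KK I (Eps A)), G ∈ P' → kmap (eps0 A) G = (f : KK I A) →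
      mk P (ksnd (F f)) = mk P (ksnd G) := fun f G hG hG' =>
    uniq hP' h (hF f) hG ((hF' f).trans hG'.symm)
  let D : P →ₗ[A] MM P :=
    { toFun := fun f => mk P (ksnd (F f))
      map_add' := fun f f' => by
        rw [hu (f + f') (F f + F f') (add_mem (hF f) (hF f'))
          (by rw [map_add, hF', hF']; rfl), ksnd_add, map_add]
      map_smul' := fun a f => by
        rw [hu (a • f) (epsInl A a • F f) (P'.smul_mem (hF f) _)
          (by rw [kmap_inl, hF']; rfl), ksnd_inl, mk_smulA]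
        rfl }
  let δ : DD P :=
    { toLinearMap := D
      map_one_eq_zero' := by
        change mk P (ksnd (F 1)) = 0
        rw [hu 1 1 (one_mem P') (map_one _), mk_zero]
        have e := ksnd_algebraMap (I := I) (1 : Eps A)
        rw [map_one] at e
        rw [e]
        exact P.algebraMap_mem _
      leibniz' := fun f f' => by
        change mk P (ksnd (F (f * f'))) = f • mk P (ksnd (F f')) + f' • mk P (ksnd (F f))
        rw [hu (f * f') (F f * F f') (mul_mem (hF f) (hF f'))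
          (by rw [map_mul, hF', hF']; rfl), ksnd_mul, hF', hF', ← map_smul, ← map_smul, ← map_add]
        rfl }
  refine ⟨δ, le_antisymm ?_ ?_⟩
  · intro G hG
    have hm : kmap (eps0 A) G ∈ P := by
      rw [← h]
      exact kmap_mem_bc _ hG
    exact ⟨hm, hu ⟨_, hm⟩ G hG rfl⟩
  · rintro G ⟨hm, hd⟩
    have h1 : mk P (ksnd (F ⟨kmap (eps0 A) G, hm⟩)) = mk P (ksnd G) := hd
    rw [mk_eq] at h1
    obtain ⟨H, hH, hH'⟩ := lift h h1
    have e : G = F ⟨kmap (eps0 A) G, hm⟩ - epsE A • H := by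
      apply kk_ext
      · rw [map_sub, hF', kmap_eps, sub_zero]
      · have e1 : ksnd (F ⟨kmap (eps0 A) G, hm⟩) =
            ksnd (F ⟨kmap (eps0 A) G, hm⟩ - epsE A • H) + ksnd (epsE A • H) := by
          rw [← ksnd_add, sub_add_cancel]
        rw [ksnd_eps, hH'] at e1
        rw [← sub_eq_zero]
        linear_combination e1
    rw [e]
    exact sub_mem (hF _) (P'.smul_mem hH _)

end Pool.Agent.MG.KX
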