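import Pool.Agent.MG.KX.StmtsE

/-!
# PDF: forgetting a puncture, for deformations
-/

namespace Pool.Agent.MG.KX

open Pool.Agent.MG.G0

namespace PDF

section

variable {I J A : Type} [CommRing A]

/-- The series over `A[ε]` with given parts. -/
noncomputable def prk (w h : KK I A) : KK I (Eps A) := fun i =>
  lmap (epsInl A) (w i) + epsL A * lmap (epsInl A) (h i)

theorem lmap_prk (w h : LaurentSeries A) :
    lmap (eps0 A) (lmap (epsInl A) w + epsL A * lmap (epsInl A) h) = w := by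
  have h1 : lmap (eps0 A) (epsL A) = 0 := by
    rw [epsL, lmap_algebraMap]
    have h2 : eps0 A (epsE A) = 0 := rfl
    rw [h2, map_zero]
  rw [map_add, map_mul, h1, zero_mul, add_zero]
  ext n
  rfl

theorem kmap_prk (w h : KK I A) : kmap (eps0 A) (prk w h) = w :=
  funext fun i => lmap_prk (w i) (h i)

theorem ksnd_prk (w h : KK I A) : ksnd (prk w h) = h :=
  funext fun i => lsnd_inl (w i) (h i)

theorem prk_eq (F : KK I (Eps A)) : prk (kmap (eps0 A) F) (ksnd F) = F :=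
  funext fun i => (ls_eq (F i)).symm

theorem ext_iff' {F G : KK I (Eps A)} (h1 : kmap (eps0 A) F = kmap (eps0 A) G)
    (h2 : ksnd F = ksnd G) : F = G := by
  rw [← prk_eq F, h1, h2, prk_eq]

theorem prk_mem {P : Subalgebra A (KK I A)} {δ : DD P} {w : P} {h : KK I A}
    (e : δ w = mk P h) : prk (w : KK I A) h ∈ Pdel P δ := by
  have h1 : kmap (eps0 A) (prk (w : KK I A) h) ∈ P := by
    rw [kmap_prk]
    exact w.2
  refine ⟨h1, ?_⟩
  have h2 : (⟨kmap (eps0 A) (prk (w : KK I A) h), h1⟩ : P) = w := Subtype.ext (kmap_prk _ _)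
  rw [h2, e, ksnd_prk]

theorem coeff_prk (w h : KK I A) (i : I) (n : ℤ) {x : Eps A} (h1 : (w i).coeff n = x.fst)
    (h2 : (h i).coeff n = x.snd) : (prk w h i).coeff n = x := by
  have e1 : ((prk w h i).coeff n).fst = (w i).coeff n := by
    have := congrArg (fun f : KK I A => (f i).coeff n) (kmap_prk w h)
    exact this
  have e2 : ((prk w h i).coeff n).snd = (h i).coeff n := by
    have := congrArg (fun f : KK I A => (f i).coeff n) (ksnd_prk w h)
    exact this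
  exact TrivSqZeroExt.ext (e1.trans h1) (e2.trans h2)

/-- Regular at the punctures `J`. -/
def Rg (w : KK (I ⊕ J) A) : Prop := ∀ j : J, ∀ m < 0, (w (Sum.inr j)).coeff m = 0

/-- The part at the punctures `I`. -/
def pI (w : KK (I ⊕ J) A) : KK I A := fun i => w (Sum.inl i)

theorem Rg.add {w v : KK (I ⊕ J) A} (hw : Rg w) (hv : Rg v) : Rg (w + v) := fun j m hm => by
  rw [Pi.add_apply, HahnSeries.coeff_add, hw j m hm, hv j m hm, add_zero]

theorem Rg.sub {w v : KK (I ⊕ J) A} (hw : Rg w) (hv : Rg v) : Rg (w - v) := fun j m hm => by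
  rw [Pi.sub_apply, HahnSeries.coeff_sub, hw j m hm, hv j m hm, sub_zero]

theorem Rg.mul {w v : KK (I ⊕ J) A} (hw : Rg w) (hv : Rg v) : Rg (w * v) := fun j m hm => by
  rw [Pi.mul_apply]
  exact mul_low (hw j) (hv j) m (by omega)

theorem Rg.smul {w : KK (I ⊕ J) A} (a : A) (hw : Rg w) : Rg (a • w) := fun j m hm => by
  rw [Pi.smul_apply, HahnSeries.coeff_smul, hw j m hm, smul_zero]

variable {W : Subalgebra A (KK (I ⊕ J) A)}

theorem pI_mem {w : KK (I ⊕ J) A} (hw : w ∈ W) (h : Rg w) : pI w ∈ Rem W :=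
  ⟨w, hw, h, fun _ => rfl⟩

theorem exists_lift (f : Rem W) : ∃ w : W, Rg (w : KK (I ⊕ J) A) ∧
    pI (w : KK (I ⊕ J) A) = (f : KK I A) := by
  obtain ⟨w, hw, h1, h2⟩ := f.2
  exact ⟨⟨w, hw⟩, h1, funext h2⟩

theorem lift_unique (hW : Forget W (Rem W)) {w v : W}
    (h : pI (w : KK (I ⊕ J) A) = pI (v : KK (I ⊕ J) A)) : w = v := by
  have h1 := hW.inj ((w : KK (I ⊕ J) A) - v) (sub_mem w.2 v.2) fun i => by
    have h2 := congrFun h i
    change (w : KK (I ⊕ J) A) (Sum.inl i) - (v : KK (I ⊕ J) A) (Sum.inl i) = 0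
    exact sub_eq_zero.2 h2
  exact Subtype.ext (sub_eq_zero.1 h1)

theorem exists_reg (hW : Forget W (Rem W)) (x : MM W) :
    ∃ h : KK (I ⊕ J) A, x = mk W h ∧ Rg h := by
  obtain ⟨h, rfl⟩ := mk_surj W x
  obtain ⟨v, hv, h1⟩ := hW.dns (fun j => h (Sum.inr j)) 0
  refine ⟨h - v, ?_, fun j m hm => ?_⟩
  · rw [mk_eq, sub_sub_cancel]
    exact hv
  · rw [Pi.sub_apply, HahnSeries.coeff_sub, h1 j m hm, sub_self]

/-- The defining relation. -/
def Rl (E : DD W) (f : Rem W) (y : MM (Rem W)) : Prop :=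
  ∃ (w : W) (h : KK (I ⊕ J) A), Rg (w : KK (I ⊕ J) A) ∧ pI (w : KK (I ⊕ J) A) = (f : KK I A) ∧
    E w = mk W h ∧ Rg h ∧ y = mk (Rem W) (pI h)

theorem Rl.exists (hW : Forget W (Rem W)) (E : DD W) (f : Rem W) : ∃ y, Rl E f y := by
  obtain ⟨w, h1, h2⟩ := exists_lift f
  obtain ⟨h, h3, h4⟩ := exists_reg hW (E w)
  exact ⟨_, w, h, h1, h2, h3, h4, rfl⟩

theorem Rl.unique (hW : Forget W (Rem W)) {E : DD W} {f : Rem W} {y z : MM (Rem W)}
    (hy : Rl E f y) (hz : Rl E f z) : y = z := by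
  obtain ⟨w, h, h1, h2, h3, h4, rfl⟩ := hy
  obtain ⟨v, k, k1, k2, k3, k4, rfl⟩ := hz
  have e : w = v := lift_unique hW (h2.trans k2.symm)
  subst e
  rw [h3, mk_eq] at k3
  rw [mk_eq]
  exact pI_mem k3 (h4.sub k4)

/-- The class of the deformation of `Rem W`. -/
noncomputable def cl (hW : Forget W (Rem W)) (E : DD W) (f : Rem W) : MM (Rem W) :=
  (Rl.exists hW E f).choose

theorem cl_spec (hW : Forget W (Rem W)) (E : DD W) (f : Rem W) : Rl E f (cl hW E f) :=
  (Rl.exists hW E f).choose_spec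

/-- The deformation of `Rem W`. -/
noncomputable def rd (hW : Forget W (Rem W)) (E : DD W) : DD (Rem W) where
  toFun := cl hW E
  map_add' f g := by
    obtain ⟨w, h, h1, h2, h3, h4, h5⟩ := cl_spec hW E f
    obtain ⟨v, k, k1, k2, k3, k4, k5⟩ := cl_spec hW E g
    refine Rl.unique hW (cl_spec hW E (f + g)) ⟨w + v, h + k, h1.add k1, ?_, ?_, h4.add k4, ?_⟩
    · change pI (w : KK (I ⊕ J) A) + pI (v : KK (I ⊕ J) A) = (f : KK I A) + (g : KK I A)
      rw [h2, k2]
    · rw [map_add, map_add, h3, k3]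
    · change cl hW E f + cl hW E g = mk (Rem W) (pI h + pI k)
      rw [map_add, h5, k5]
  map_smul' a f := by
    obtain ⟨w, h, h1, h2, h3, h4, h5⟩ := cl_spec hW E f
    refine Rl.unique hW (cl_spec hW E (a • f)) ⟨a • w, a • h, h1.smul a, ?_, ?_, h4.smul a, ?_⟩
    · change a • pI (w : KK (I ⊕ J) A) = a • (f : KK I A)
      rw [h2]
    · rw [Derivation.map_smul, mk_smulA, h3]
    · change a • cl hW E f = mk (Rem W) (a • pI h)
      rw [mk_smulA, h5]
  map_one_eq_zero' := by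
    refine Rl.unique hW (cl_spec hW E 1) ⟨1, 0, fun j m hm => ?_, rfl, ?_, fun j m _ => ?_, ?_⟩
    · change ((1 : LaurentSeries A)).coeff m = 0
      rw [HahnSeries.coeff_one, if_neg (by omega)]
    · rw [Derivation.map_one_eq_zero, map_zero]
    · rfl
    · exact (map_zero (mk (Rem W))).symm
  leibniz' f g := by
    obtain ⟨w, h, h1, h2, h3, h4, h5⟩ := cl_spec hW E f
    obtain ⟨v, k, k1, k2, k3, k4, k5⟩ := cl_spec hW E g
    refine Rl.unique hW (cl_spec hW E (f * g))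
      ⟨w * v, (w : KK (I ⊕ J) A) * k + (v : KK (I ⊕ J) A) * h, h1.mul k1, ?_, ?_,
        (h1.mul k4).add (k1.mul h4), ?_⟩
    · change pI (w : KK (I ⊕ J) A) * pI (v : KK (I ⊕ J) A) = (f : KK I A) * (g : KK I A)
      rw [h2, k2]
    · rw [Derivation.leibniz, h3, k3, ← map_smul, ← map_smul, ← map_add]
      rfl
    · change f • cl hW E g + g • cl hW E f = mk (Rem W)
        (pI (w : KK (I ⊕ J) A) * pI k + pI (v : KK (I ⊕ J) A) * pI h)
      rw [h5, k5, ← map_smul, ← map_smul, ← map_add, h2, k2]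
      rfl

theorem rd_spec (hW : Forget W (Rem W)) (E : DD W) (f : Rem W) : Rl E f (rd hW E f) :=
  cl_spec hW E f

theorem rd_eq (hW : Forget W (Rem W)) {E : DD W} {f : Rem W} {w : W} {h : KK (I ⊕ J) A}
    (h1 : Rg (w : KK (I ⊕ J) A)) (h2 : pI (w : KK (I ⊕ J) A) = (f : KK I A))
    (h3 : E w = mk W h) (h4 : Rg h) : rd hW E f = mk (Rem W) (pI h) :=
  Rl.unique hW (rd_spec hW E f) ⟨w, h, h1, h2, h3, h4, rfl⟩

theorem relF_rd (hW : Forget W (Rem W)) (E : DD W) : RelF (rd hW E) E := by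
  intro f w h1 h2
  obtain ⟨h, h3, h4⟩ := exists_reg hW (E w)
  exact ⟨h, h3, h4, rd_eq hW h2 (funext h1) h3 h4⟩

theorem rem_eq (hW : Forget W (Rem W)) (E : DD W) :
    Rem (Pdel W E) = Pdel (Rem W) (rd hW E) := by
  apply le_antisymm
  · rintro F ⟨X, ⟨h1, h2⟩, h3, h4⟩
    have h5 : Rg (kmap (eps0 A) X) := fun j m hm => by
      change ((X (Sum.inr j)).coeff m).fst = 0
      rw [h3 j m hm]
      rfl
    have h6 : Rg (ksnd X) := fun j m hm => by
      change ((X (Sum.inr j)).coeff m).snd = 0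
      rw [h3 j m hm]
      rfl
    have h7 : pI (kmap (eps0 A) X) = kmap (eps0 A) F := funext fun i => by
      change lmap (eps0 A) (X (Sum.inl i)) = lmap (eps0 A) (F i)
      rw [h4]
    have h8 : pI (ksnd X) = ksnd F := funext fun i => by
      change lsnd (X (Sum.inl i)) = lsnd (F i)
      rw [h4]
    have h9 : kmap (eps0 A) F ∈ Rem W := by
      rw [← h7]
      exact pI_mem h1 h5
    refine ⟨h9, ?_⟩
    rw [rd_eq hW (f := ⟨kmap (eps0 A) F, h9⟩) (w := ⟨_, h1⟩) h5 h7 h2 h6, h8]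
  · rintro F ⟨h1, h2⟩
    obtain ⟨w, h, h3, h4, h5, h6, h7⟩ := rd_spec hW E ⟨kmap (eps0 A) F, h1⟩
    rw [h2, mk_eq] at h7
    obtain ⟨v, hv, h8, h9⟩ := h7
    have h10 : E w = mk W (h + v) := by
      rw [map_add, mk_zero.2 hv, add_zero]
      exact h5
    refine ⟨_, prk_mem h10, fun j m hm => ?_, fun i => ?_⟩
    · exact coeff_prk _ _ _ _ (h3 j m hm) (h6.add h8 j m hm)
    · have e1 : (w : KK (I ⊕ J) A) (Sum.inl i) = kmap (eps0 A) F i := congrFun h4 i
      have e2 : (h + v) (Sum.inl i) = ksnd F i := by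
        rw [Pi.add_apply, h9 i]
        change h (Sum.inl i) + (ksnd F i - h (Sum.inl i)) = ksnd F i
        ring
      have e3 := congrFun (prk_eq F) i
      rw [← e3]
      change lmap (epsInl A) ((w : KK (I ⊕ J) A) (Sum.inl i)) +
        epsL A * lmap (epsInl A) ((h + v) (Sum.inl i)) = _
      rw [e1, e2]
      rfl

theorem forget_Pdel (hW : Forget W (Rem W)) (E : DD W) :
    Forget (Pdel W E) (Pdel (Rem W) (rd hW E)) := by
  refine ⟨(rem_eq hW E).symm, ?_, ?_⟩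
  · rintro F ⟨h1, h2⟩ h3
    have h4 : kmap (eps0 A) F = 0 := hW.inj _ h1 fun i => by
      change lmap (eps0 A) (F (Sum.inl i)) = 0
      rw [h3 i, map_zero]
    have h5 : (⟨kmap (eps0 A) F, h1⟩ : W) = 0 := Subtype.ext h4
    rw [h5, map_zero] at h2
    have h6 : ksnd F = 0 := hW.inj _ (mk_zero.1 h2.symm) fun i => by
      change lsnd (F (Sum.inl i)) = 0
      rw [h3 i]
      rfl
    refine ext_iff' ?_ ?_
    · rw [h4, map_zero]
    · rw [h6]
      rfl
  · intro f M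
    obtain ⟨w, hw, h1⟩ := hW.dns (fun j => lmap (eps0 A) (f j)) M
    obtain ⟨h, h2⟩ := mk_surj W (E ⟨w, hw⟩)
    obtain ⟨v, hv, h3⟩ := hW.dns (fun j => lsnd (f j) - h (Sum.inr j)) M
    have h4 : E ⟨w, hw⟩ = mk W (h + v) := by
      rw [map_add, mk_zero.2 hv, add_zero]
      exact h2.symm
    refine ⟨_, prk_mem h4, fun j m hm => coeff_prk _ _ _ _ (h1 j m hm) ?_⟩
    rw [Pi.add_apply, HahnSeries.coeff_add, h3 j m hm, HahnSeries.coeff_sub]
    change (h (Sum.inr j)).coeff m + (((f j).coeff m).snd - (h (Sum.inr j)).coeff m) = _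
    ring

end

end PDF

/-- PDF: forgetting a puncture. -/
theorem t_PDF : Stmt_PDF := by
  intro I J A _ _ _ _ g W _ _ hW E
  exact ⟨PDF.rd hW E, PDF.relF_rd hW E, PDF.rem_eq hW E, PDF.forget_Pdel hW E⟩

end Pool.Agent.MG.KX
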