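import Pool.Agent.MG.KX.StmtsE

/-!
# PDT: automorphisms of the Laurent series and deformations
-/

open CategoryTheory CategoryTheory.Limits AlgebraicGeometry
open scoped TensorProduct

namespace Pool.Agent.MG.KX

open Pool.Agent.MG.G0 Pool.Agent.MG.GLU

namespace PDTm

section

variable {I A : Type} [CommRing A]

/-- The series `h + ε k`. -/
noncomputable def jn (h k : KK I A) : KK I (Eps A) := fun i =>
  lmap (epsInl A) (h i) + epsL A * lmap (epsInl A) (k i)

theorem kmap_jn (h k : KK I A) : kmap (eps0 A) (jn h k) = h := by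
  funext i
  ext m
  rw [kmap_apply, lmap_coeff]
  change eps0 A ((lmap (epsInl A) (h i) + epsL A * lmap (epsInl A) (k i)).coeff m) = _
  rw [HahnSeries.coeff_add, coeff_epsL_mul, lmap_coeff, lmap_coeff]
  simp [epsInl, epsE]

theorem ksnd_jn (h k : KK I A) : ksnd (jn h k) = k :=
  funext fun i => lsnd_inl (h i) (k i)

theorem jn_eq (f : KK I (Eps A)) : f = jn (kmap (eps0 A) f) (ksnd f) :=
  funext fun i => ls_eq (f i)

theorem ext_eps {f h : KK I (Eps A)} (h1 : kmap (eps0 A) f = kmap (eps0 A) h)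
    (h2 : ksnd f = ksnd h) : f = h := by
  rw [jn_eq f, jn_eq h, h1, h2]

theorem mem_Pol_iff {n : ℤ} {f : KK I (Eps A)} :
    f ∈ Pol I (Eps A) n ↔ kmap (eps0 A) f ∈ Pol I A n ∧ ksnd f ∈ Pol I A n := by
  constructor
  · intro h
    refine ⟨fun i m hm => ?_, fun i m hm => ?_⟩
    · rw [kmap_apply, lmap_coeff, h i m hm, map_zero]
    · rw [ksnd_apply, lsnd_coeff, h i m hm]
      rfl
  · rintro ⟨h1, h2⟩ i m hm
    have e1 := h1 i m hm
    have e2 := h2 i m hm
    rw [kmap_apply, lmap_coeff] at e1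
    rw [ksnd_apply, lsnd_coeff] at e2
    exact TrivSqZeroExt.ext e1 e2

/-- The extension of `α` to `A[ε]((τ))`. -/
noncomputable def ext1 (α : KK I A ≃ₐ[A] KK I A) : KK I (Eps A) →ₐ[Eps A] KK I (Eps A) where
  toFun f := jn (α (kmap (eps0 A) f)) (α (ksnd f))
  map_one' := by
    have h1 : ksnd (1 : KK I (Eps A)) = 0 := by
      rw [← map_one (algebraMap (Eps A) (KK I (Eps A))), ksnd_algebraMap, TrivSqZeroExt.snd_one,
        map_zero]
    apply ext_eps
    · rw [kmap_jn, map_one, map_one]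
    · rw [ksnd_jn, h1, map_zero]
  map_zero' := by
    have h1 : ksnd (0 : KK I (Eps A)) = 0 := by
      rw [← map_zero (algebraMap (Eps A) (KK I (Eps A))), ksnd_algebraMap, TrivSqZeroExt.snd_zero,
        map_zero]
    apply ext_eps
    · rw [kmap_jn, map_zero, map_zero]
    · rw [ksnd_jn, h1, map_zero]
  map_add' f h := by
    apply ext_eps
    · rw [kmap_jn, map_add, map_add, map_add, kmap_jn, kmap_jn]
    · rw [ksnd_jn, ksnd_add, ksnd_add, map_add, ksnd_jn, ksnd_jn]
  map_mul' f h := by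
    apply ext_eps
    · rw [kmap_jn, map_mul, map_mul, map_mul, kmap_jn, kmap_jn]
    · rw [ksnd_jn, ksnd_mul, ksnd_mul, map_add, map_mul, map_mul, kmap_jn, kmap_jn, ksnd_jn,
        ksnd_jn]
  commutes' c := by
    apply ext_eps
    · rw [kmap_jn, kmap_algebraMap]
      exact α.commutes _
    · rw [ksnd_jn, ksnd_algebraMap]
      exact α.commutes _

theorem ext1_apply (α : KK I A ≃ₐ[A] KK I A) (f : KK I (Eps A)) :
    ext1 α f = jn (α (kmap (eps0 A) f)) (α (ksnd f)) := rfl

theorem kmap_ext1 (α : KK I A ≃ₐ[A] KK I A) (f : KK I (Eps A)) :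
    kmap (eps0 A) (ext1 α f) = α (kmap (eps0 A) f) := kmap_jn _ _

theorem ksnd_ext1 (α : KK I A ≃ₐ[A] KK I A) (f : KK I (Eps A)) :
    ksnd (ext1 α f) = α (ksnd f) := ksnd_jn _ _

/-- The extension of `α` as an automorphism. -/
noncomputable def ext2 (α : KK I A ≃ₐ[A] KK I A) : KK I (Eps A) ≃ₐ[Eps A] KK I (Eps A) :=
  AlgEquiv.ofAlgHom (ext1 α) (ext1 α.symm)
    (AlgHom.ext fun f => by
      rw [AlgHom.comp_apply]
      apply ext_eps
      · rw [kmap_ext1, kmap_ext1, α.apply_symm_apply]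
        rfl
      · rw [ksnd_ext1, ksnd_ext1, α.apply_symm_apply]
        rfl)
    (AlgHom.ext fun f => by
      rw [AlgHom.comp_apply]
      apply ext_eps
      · rw [kmap_ext1, kmap_ext1, α.symm_apply_apply]
        rfl
      · rw [ksnd_ext1, ksnd_ext1, α.symm_apply_apply]
        rfl)

theorem kmap_ext2 (α : KK I A ≃ₐ[A] KK I A) (f : KK I (Eps A)) :
    kmap (eps0 A) (ext2 α f) = α (kmap (eps0 A) f) := kmap_jn _ _

theorem ksnd_ext2 (α : KK I A ≃ₐ[A] KK I A) (f : KK I (Eps A)) :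
    ksnd (ext2 α f) = α (ksnd f) := ksnd_jn _ _

theorem mem_map {α : KK I A ≃ₐ[A] KK I A} {P : Subalgebra A (KK I A)} {f : KK I A} :
    α f ∈ P.map (α : KK I A →ₐ[A] KK I A) ↔ f ∈ P := by
  constructor
  · rintro ⟨h, hh, he⟩
    have : h = f := α.injective he
    exact this ▸ hh
  · intro h
    exact ⟨f, h, rfl⟩

/-- The map of the quotients. -/
noncomputable def TT' (α : KK I A ≃ₐ[A] KK I A) (P : Subalgebra A (KK I A)) (x : MM P) :
    MM (P.map (α : KK I A →ₐ[A] KK I A)) :=
  mk _ (α (mk_surj P x).choose)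

theorem TT'_mk (α : KK I A ≃ₐ[A] KK I A) (P : Subalgebra A (KK I A)) (h : KK I A) :
    TT' α P (mk P h) = mk _ (α h) := by
  rw [TT', mk_eq, ← map_sub, mem_map, ← mk_eq]
  exact (mk_surj P (mk P h)).choose_spec

theorem TT'_inj (α : KK I A ≃ₐ[A] KK I A) (P : Subalgebra A (KK I A)) {x y : MM P}
    (h : TT' α P x = TT' α P y) : x = y := by
  obtain ⟨a, rfl⟩ := mk_surj P x
  obtain ⟨b, rfl⟩ := mk_surj P y
  rw [TT'_mk, TT'_mk, mk_eq, ← map_sub, mem_map, ← mk_eq] at h
  exact h

theorem TT'_add (α : KK I A ≃ₐ[A] KK I A) (P : Subalgebra A (KK I A)) (x y : MM P) :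
    TT' α P (x + y) = TT' α P x + TT' α P y := by
  obtain ⟨a, rfl⟩ := mk_surj P x
  obtain ⟨b, rfl⟩ := mk_surj P y
  rw [← map_add, TT'_mk, TT'_mk, TT'_mk, map_add, map_add]

theorem TT'_smulA (α : KK I A ≃ₐ[A] KK I A) (P : Subalgebra A (KK I A)) (a : A) (x : MM P) :
    TT' α P (a • x) = a • TT' α P x := by
  obtain ⟨b, rfl⟩ := mk_surj P x
  rw [← mk_smulA, TT'_mk, TT'_mk, map_smul, mk_smulA]

theorem TT'_smul (α : KK I A ≃ₐ[A] KK I A) (P : Subalgebra A (KK I A)) (f : P)
    (f' : P.map (α : KK I A →ₐ[A] KK I A)) (hf : (f' : KK I A) = α f) (x : MM P) :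
    TT' α P (f • x) = f' • TT' α P x := by
  obtain ⟨b, rfl⟩ := mk_surj P x
  rw [← map_smul, TT'_mk, TT'_mk, ← map_smul]
  congr 1
  change α ((f : KK I A) * b) = (f' : KK I A) * α b
  rw [map_mul, hf]

/-- The preimage. -/
noncomputable def pre (α : KK I A ≃ₐ[A] KK I A) (P : Subalgebra A (KK I A))
    (f : P.map (α : KK I A →ₐ[A] KK I A)) : P :=
  ⟨α.symm f, by
    rw [← mem_map (α := α), α.apply_symm_apply]
    exact f.2⟩

theorem pre_spec (α : KK I A ≃ₐ[A] KK I A) (P : Subalgebra A (KK I A))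
    (f : P.map (α : KK I A →ₐ[A] KK I A)) : (f : KK I A) = α (pre α P f : KK I A) :=
  (α.apply_symm_apply _).symm

theorem pre_eq (α : KK I A ≃ₐ[A] KK I A) (P : Subalgebra A (KK I A))
    (f : P.map (α : KK I A →ₐ[A] KK I A)) (h : P) (he : (f : KK I A) = α h) : pre α P f = h := by
  apply Subtype.ext
  apply α.injective
  rw [← pre_spec, he]

/-- The derivation. -/
noncomputable def der (α : KK I A ≃ₐ[A] KK I A) {P : Subalgebra A (KK I A)} (δ : DD P) :
    DD (P.map (α : KK I A →ₐ[A] KK I A)) :=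
  Derivation.mk'
    { toFun := fun f => TT' α P (δ (pre α P f))
      map_add' := fun f h => by
        have e : pre α P (f + h) = pre α P f + pre α P h :=
          pre_eq α P _ _ (by
            change (f : KK I A) + (h : KK I A) = α ((pre α P f : KK I A) + (pre α P h : KK I A))
            rw [map_add, ← pre_spec, ← pre_spec])
        rw [e, map_add, TT'_add]
      map_smul' := fun a f => by
        have e : pre α P (a • f) = a • pre α P f :=
          pre_eq α P _ _ (by
            change a • (f : KK I A) = α (a • (pre α P f : KK I A))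
            rw [map_smul, ← pre_spec])
        rw [e, Derivation.map_smul, TT'_smulA]
        rfl }
    fun f h => by
      have e : pre α P (f * h) = pre α P f * pre α P h :=
        pre_eq α P _ _ (by
          change (f : KK I A) * (h : KK I A) = α ((pre α P f : KK I A) * (pre α P h : KK I A))
          rw [map_mul, ← pre_spec, ← pre_spec])
      change TT' α P (δ (pre α P (f * h))) = f • TT' α P (δ (pre α P h)) +
        h • TT' α P (δ (pre α P f))
      rw [e, Derivation.leibniz, TT'_add, TT'_smul α P _ f (pre_spec α P f),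
        TT'_smul α P _ h (pre_spec α P h)]

theorem der_apply (α : KK I A ≃ₐ[A] KK I A) {P : Subalgebra A (KK I A)} (δ : DD P)
    (f : P.map (α : KK I A →ₐ[A] KK I A)) : der α δ f = TT' α P (δ (pre α P f)) := rfl

end

end PDTm

open PDTm in
/-- PDT. -/
theorem t_PDT : Stmt_PDT := by
  intro I A _ _ α hα
  refine ⟨ext2 α, ?_, kmap_ext2 α, fun P δ => ⟨der α δ, ?_, ?_⟩⟩
  · intro f
    rw [mem_Pol_iff, mem_Pol_iff, kmap_ext2, ksnd_ext2, hα, hα]
  · intro f f' h hf hh
    rw [der_apply, pre_eq α P f' f hf, hh, TT'_mk]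
  · have key : ∀ F : KK I (Eps A), ext2 α F ∈ Pdel (P.map (α : KK I A →ₐ[A] KK I A)) (der α δ) ↔
        F ∈ Pdel P δ := by
      intro F
      rw [mem_Pdel, mem_Pdel]
      constructor
      · rintro ⟨h1, h2⟩
        have h3 : kmap (eps0 A) F ∈ P := by
          rw [kmap_ext2, mem_map] at h1
          exact h1
        refine ⟨h3, ?_⟩
        rw [der_apply, pre_eq α P _ ⟨kmap (eps0 A) F, h3⟩ (kmap_ext2 α F), ksnd_ext2,
          ← TT'_mk] at h2
        exact TT'_inj α P h2
      · rintro ⟨h1, h2⟩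
        have h3 : kmap (eps0 A) (ext2 α F) ∈ P.map (α : KK I A →ₐ[A] KK I A) := by
          rw [kmap_ext2, mem_map]
          exact h1
        refine ⟨h3, ?_⟩
        rw [der_apply, pre_eq α P _ ⟨kmap (eps0 A) F, h1⟩ (kmap_ext2 α F), ksnd_ext2, h2, TT'_mk]
    ext F
    constructor
    · intro hF
      refine ⟨(ext2 α).symm F, ?_, (ext2 α).apply_symm_apply F⟩
      rw [← (ext2 α).apply_symm_apply F] at hF
      exact (key _).1 hF
    · rintro ⟨G, hG, rfl⟩
      exact (key G).2 hG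

end Pool.Agent.MG.KX
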