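import Pool.Agent.MG.KX.StmtsE
import Pool.Agent.MG.KX.PDT

/-!
# PDI: changes of the coordinates and deformations
-/

open CategoryTheory CategoryTheory.Limits AlgebraicGeometry
open scoped TensorProduct

namespace Pool.Agent.MG.KX

open Pool.Agent.MG.G0 Pool.Agent.MG.GLU

namespace PDIm

open PDTm

section

variable {I A : Type} [CommRing A]

/-- The homomorphism `1 + ε θ d/dτ`. -/
noncomputable def ah (θ : KK I A) : KK I (Eps A) →ₐ[Eps A] KK I (Eps A) where
  toFun f := jn (kmap (eps0 A) f) (ksnd f + θ * dd (kmap (eps0 A) f))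
  map_one' := by
    have h1 : ksnd (1 : KK I (Eps A)) = 0 := by
      rw [← map_one (algebraMap (Eps A) (KK I (Eps A))), ksnd_algebraMap, TrivSqZeroExt.snd_one,
        map_zero]
    have h2 : dd (1 : KK I A) = 0 := by
      rw [← map_one (algebraMap A (KK I A)), dd_algebraMap]
    apply ext_eps
    · rw [kmap_jn]
    · rw [ksnd_jn, h1, map_one, h2, mul_zero, add_zero]
  map_zero' := by
    have h1 : ksnd (0 : KK I (Eps A)) = 0 := by
      rw [← map_zero (algebraMap (Eps A) (KK I (Eps A))), ksnd_algebraMap, TrivSqZeroExt.snd_zero,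
        map_zero]
    have h2 : dd (0 : KK I A) = 0 := by
      rw [← map_zero (algebraMap A (KK I A)), dd_algebraMap, map_zero]
    apply ext_eps
    · rw [kmap_jn]
    · rw [ksnd_jn, h1, map_zero, h2, mul_zero, add_zero]
  map_add' f h := by
    apply ext_eps
    · rw [kmap_jn, map_add, map_add, kmap_jn, kmap_jn]
    · rw [ksnd_jn, ksnd_add, ksnd_add, ksnd_jn, ksnd_jn, map_add, dd_add, mul_add]
      abel
  map_mul' f h := by
    apply ext_eps
    · rw [kmap_jn, map_mul, map_mul, kmap_jn, kmap_jn]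
    · rw [ksnd_jn, ksnd_mul, ksnd_mul, map_mul, kmap_jn, kmap_jn, ksnd_jn, ksnd_jn, dd_mul]
      ring
  commutes' c := by
    apply ext_eps
    · rw [kmap_jn]
    · rw [ksnd_jn, kmap_algebraMap, dd_algebraMap, mul_zero, add_zero]

theorem kmap_ah (θ : KK I A) (f : KK I (Eps A)) : kmap (eps0 A) (ah θ f) = kmap (eps0 A) f :=
  kmap_jn _ _

theorem ksnd_ah (θ : KK I A) (f : KK I (Eps A)) :
    ksnd (ah θ f) = ksnd f + θ * dd (kmap (eps0 A) f) := ksnd_jn _ _

theorem ah_ah (θ θ' : KK I A) (h : θ + θ' = 0) (f : KK I (Eps A)) : ah θ (ah θ' f) = f := by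
  apply ext_eps
  · rw [kmap_ah, kmap_ah]
  · rw [ksnd_ah, ksnd_ah, kmap_ah, add_assoc, ← add_mul, add_comm θ' θ, h, zero_mul, add_zero]

/-- The automorphism `1 + ε θ d/dτ`. -/
noncomputable def ae (θ : KK I A) : KK I (Eps A) ≃ₐ[Eps A] KK I (Eps A) :=
  AlgEquiv.ofAlgHom (ah θ) (ah (-θ)) (AlgHom.ext fun f => ah_ah θ (-θ) (add_neg_cancel θ) f)
    (AlgHom.ext fun f => ah_ah (-θ) θ (neg_add_cancel θ) f)

theorem kmap_ae (θ : KK I A) (f : KK I (Eps A)) : kmap (eps0 A) (ae θ f) = kmap (eps0 A) f :=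
  kmap_jn _ _

theorem ksnd_ae (θ : KK I A) (f : KK I (Eps A)) :
    ksnd (ae θ f) = ksnd f + θ * dd (kmap (eps0 A) f) := ksnd_jn _ _

end

end PDIm

open PDTm PDIm in
/-- PDI. -/
theorem t_PDI : Stmt_PDI := by
  intro I A _ _ θ hθ
  refine ⟨ae θ, ?_, kmap_ae θ, fun P δ => ?_⟩
  · intro f
    rw [mem_Pol_iff, mem_Pol_iff, kmap_ae, ksnd_ae]
    refine and_congr_right fun h => ?_
    have h1 : θ * dd (kmap (eps0 A) f) ∈ Pol I A 0 := mul_mem_Pol0 hθ (dd_mem_Pol0 h)
    exact (Pol I A 0).add_mem_iff_left h1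
  · have key : ∀ F : KK I (Eps A), ae θ F ∈ Pdel P (δ + tder P θ) ↔ F ∈ Pdel P δ := by
      intro F
      rw [mem_Pdel, mem_Pdel]
      simp only [kmap_ae, ksnd_ae]
      refine exists_congr fun h => ?_
      rw [Derivation.add_apply, tder_apply, map_add, add_left_inj]
    ext F
    constructor
    · intro hF
      refine ⟨(ae θ).symm F, ?_, (ae θ).apply_symm_apply F⟩
      rw [← (ae θ).apply_symm_apply F] at hF
      exact (key _).1 hF
    · rintro ⟨G, hG, rfl⟩
      exact (key G).2 hG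

end Pool.Agent.MG.KX
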