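import Pool.Agent.MG.KX.StmtsE
import Pool.Agent.MG.G0.KFL
import Pool.Agent.MG.G0.KSP
import Pool.Agent.MG.G0.KNZ
import Pool.Agent.MG.G0.KBC

/-!
# PDK: deformations of Krichever rings are Krichever rings
-/

open CategoryTheory CategoryTheory.Limits AlgebraicGeometry
open scoped TensorProduct

namespace Pool.Agent.MG.KX

open Pool.Agent.MG.G0 Pool.Agent.MG.GLU

namespace PDK

variable {I A : Type} [CommRing A]

/-- `f + ε h`. -/
noncomputable def lift (f h : KK I A) : KK I (Eps A) := fun i =>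
  lmap (epsInl A) (f i) + epsL A * lmap (epsInl A) (h i)

theorem ksnd_lift (f h : KK I A) : ksnd (lift f h) = h := funext fun i => lsnd_inl (f i) (h i)

theorem eps0_lift (f h : KK I A) : kmap (eps0 A) (lift f h) = f := by
  funext i
  ext n
  change eps0 A ((lmap (epsInl A) (f i)).coeff n +
    (epsL A * lmap (epsInl A) (h i)).coeff n) = _
  rw [coeff_epsL_mul]
  simp [epsInl, epsE]

theorem eq_lift (f : KK I (Eps A)) : f = lift (kmap (eps0 A) f) (ksnd f) :=
  funext fun i => ls_eq (f i)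

theorem ext_of {f h : KK I (Eps A)} (h1 : kmap (eps0 A) f = kmap (eps0 A) h)
    (h2 : ksnd f = ksnd h) : f = h := by
  rw [eq_lift f, eq_lift h, h1, h2]

theorem lift_mem {P : Subalgebra A (KK I A)} {δ : DD P} (f : P) {h : KK I A}
    (hh : mk P h = δ f) : lift (f : KK I A) h ∈ Pdel P δ := by
  have e : kmap (eps0 A) (lift (f : KK I A) h) = f := eps0_lift _ _
  refine ⟨by rw [e]; exact f.2, ?_⟩
  rw [ksnd_lift, hh]
  exact congrArg δ (Subtype.ext e)

theorem exists_lift (P : Subalgebra A (KK I A)) (δ : DD P) (f : KK I A) (hf : f ∈ P) :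
    ∃ F ∈ Pdel P δ, kmap (eps0 A) F = f := by
  obtain ⟨h, hh⟩ := mk_surj P (δ ⟨f, hf⟩)
  exact ⟨lift f h, lift_mem ⟨f, hf⟩ hh, eps0_lift _ _⟩

theorem bc_Pdel (P : Subalgebra A (KK I A)) (δ : DD P) : bc (eps0 A) (Pdel P δ) = P := by
  refine le_antisymm (Algebra.adjoin_le ?_) ?_
  · rintro _ ⟨F, ⟨hF, _⟩, rfl⟩
    exact hF
  · intro f hf
    obtain ⟨F, hF, rfl⟩ := exists_lift P δ f hf
    exact kmap_mem_bc _ hF

theorem eps0_surj (A : Type) [CommRing A] : Function.Surjective (eps0 A) := fun a =>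
  ⟨epsInl A a, by simp [epsInl]⟩

theorem ker_sq (A : Type) [CommRing A] : RingHom.ker (eps0 A) ^ 2 = ⊥ := by
  rw [sq, eq_bot_iff, Ideal.mul_le]
  intro a ha b hb
  rw [RingHom.mem_ker] at ha hb
  rw [Ideal.mem_bot]
  ext
  · change (a * b).fst = 0
    rw [TrivSqZeroExt.fst_mul]
    change eps0 A a * _ = 0
    rw [ha, zero_mul]
  · change (a * b).snd = 0
    rw [TrivSqZeroExt.snd_mul]
    change eps0 A a • _ + MulOpposite.op (eps0 A b) • _ = 0
    rw [ha, hb]
    simp

theorem smul_eq (F H : KK I (Eps A)) (h1 : kmap (eps0 A) F = 0)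
    (h2 : kmap (eps0 A) H = ksnd F) : F = epsE A • H := by
  refine ext_of ?_ ?_
  · rw [h1]
    funext i
    ext n
    change (0 : A) = eps0 A (epsE A * (H i).coeff n)
    rw [map_mul]
    simp [epsE]
  · rw [← h2]
    funext i
    ext n
    change eps0 A ((H i).coeff n) = (epsE A * (H i).coeff n).snd
    rw [TrivSqZeroExt.snd_mul]
    simp [epsE]

end PDK

open PDK in
theorem t_PDK : Stmt_PDK := by
  intro I A _ _ _ g P hP δ
  have hb := bc_Pdel P δ
  refine ⟨?_, hb, fun f hf => exists_lift P δ f hf, ?_⟩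
  · refine t_KFL (t_KSP t_KNZ) (eps0 A) (eps0_surj A) ⟨2, ker_sq A⟩ (Pdel P δ)
      (by rw [hb]; exact hP) ?_
    rintro F ⟨hF, dF⟩ h0
    have e : (⟨kmap (eps0 A) F, hF⟩ : P) = 0 := Subtype.ext h0
    rw [e, map_zero] at dF
    have h1 : ksnd F ∈ P := mk_zero.1 dF.symm
    obtain ⟨H, hH, h2⟩ := exists_lift P δ _ h1
    rw [smul_eq F H h0 h2]
    refine Submodule.smul_mem_smul ?_ hH
    rw [RingHom.mem_ker]
    simp [epsE]
  · intro δ' hδ
    refine Derivation.ext fun f => ?_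
    obtain ⟨h, hh⟩ := mk_surj P (δ f)
    have h1 : lift (f : KK I A) h ∈ Pdel P δ' := by
      rw [← hδ]
      exact lift_mem f hh
    obtain ⟨h2, h3⟩ := h1
    rw [ksnd_lift, hh] at h3
    rw [← h3]
    exact congrArg δ' (Subtype.ext (eps0_lift _ _))

end Pool.Agent.MG.KX
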