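import Pool.Agent.MG.KX.StmtsE

/-!
# PDR: change of the index set in first order deformations
-/

namespace Pool.Agent.MG.KX

open Pool.Agent.MG.G0

namespace PDR

section

variable {I I' A : Type} [CommRing A] (e : I' ≃ I) (P : Subalgebra A (KK I A))

/-- The function on the other index set. -/
def bk {R : Type} (f : I' → R) : I → R := fun i => f (e.symm i)

theorem mem_reix' {f : KK I' A} : f ∈ reix e P ↔ bk e f ∈ P := Iff.rfl

theorem bk_idx (h : KK I A) : bk e (idx e h) = h := by
  funext i
  change h (e (e.symm i)) = h i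
  rw [Equiv.apply_symm_apply]

theorem idx_bk (f : KK I' A) : idx e (bk e f) = f := by
  funext i
  change f (e.symm (e i)) = f i
  rw [Equiv.symm_apply_apply]

/-- The ring isomorphism. -/
noncomputable def bkP (f : reix e P) : P := ⟨bk e (f : KK I' A), f.2⟩

/-- The map between the quotients. -/
noncomputable def T (m : MM P) : MM (reix e P) :=
  mk (reix e P) (idx e (Function.surjInv (mk_surj P) m))

theorem T_mk (h : KK I A) : T e P (mk P h) = mk (reix e P) (idx e h) := by
  rw [T, mk_eq, ← map_sub]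
  refine idx_mem_reix e ?_
  rw [← mk_eq]
  exact Function.surjInv_eq (mk_surj P) _

theorem T_eq (m : MM P) (k : KK I' A) : T e P m = mk (reix e P) k ↔ m = mk P (bk e k) := by
  obtain ⟨h, rfl⟩ := mk_surj P m
  rw [T_mk, mk_eq, mk_eq, mem_reix']
  have h1 : bk e (idx e h - k) = h - bk e k := by
    have h2 : bk e (idx e h - k) = bk e (idx e h) - bk e k := rfl
    rw [h2, bk_idx]
  rw [h1]

theorem T_add (m n : MM P) : T e P (m + n) = T e P m + T e P n := by
  obtain ⟨h, rfl⟩ := mk_surj P m
  obtain ⟨k, rfl⟩ := mk_surj P n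
  rw [← map_add, T_mk, T_mk, T_mk, map_add, map_add]

theorem T_smul (a : A) (m : MM P) : T e P (a • m) = a • T e P m := by
  obtain ⟨h, rfl⟩ := mk_surj P m
  rw [← mk_smulA, T_mk, T_mk, ← mk_smulA]
  rfl

theorem T_smulP (f : reix e P) (m : MM P) : T e P (bkP e P f • m) = f • T e P m := by
  obtain ⟨h, rfl⟩ := mk_surj P m
  rw [← map_smul, T_mk, T_mk, ← map_smul]
  congr 1
  change idx e (bk e (f : KK I' A) * h) = (f : KK I' A) * idx e h
  rw [map_mul, idx_bk]

/-- The deformation. -/
noncomputable def dl (δ : DD P) : DD (reix e P) where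
  toFun f := T e P (δ (bkP e P f))
  map_add' f g := by
    have h : bkP e P (f + g) = bkP e P f + bkP e P g := rfl
    rw [h, map_add, T_add]
  map_smul' a f := by
    have h : bkP e P (a • f) = a • bkP e P f := rfl
    change T e P (δ (bkP e P (a • f))) = a • T e P (δ (bkP e P f))
    have h2 : δ (a • bkP e P f) = a • δ (bkP e P f) :=
      (δ : P →ₗ[A] MM P).map_smul a (bkP e P f)
    rw [h, h2, T_smul]
  map_one_eq_zero' := by
    have h : bkP e P 1 = 1 := rfl
    change T e P (δ (bkP e P 1)) = 0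
    rw [h, Derivation.map_one_eq_zero]
    have h0 := T_smul e P 0 0
    rw [zero_smul, zero_smul] at h0
    exact h0
  leibniz' f g := by
    have h : bkP e P (f * g) = bkP e P f * bkP e P g := rfl
    change T e P (δ (bkP e P (f * g))) = f • T e P (δ (bkP e P g)) + g • T e P (δ (bkP e P f))
    rw [h, Derivation.leibniz, T_add, T_smulP, T_smulP]

end

end PDR

theorem t_PDR : Stmt_PDR := by
  intro I I' A _ e P δ
  refine ⟨PDR.dl e P δ, ?_, ?_⟩
  · intro f h hf
    change PDR.T e P (δ (PDR.bkP e P ⟨idx e (f : KK I A), idx_mem_reix e f.2⟩)) = _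
    have h1 : PDR.bkP e P ⟨idx e (f : KK I A), idx_mem_reix e f.2⟩ = f :=
      Subtype.ext (PDR.bk_idx e _)
    rw [h1, hf, PDR.T_mk]
  · ext F
    constructor
    · rintro ⟨h, hF⟩
      exact ⟨h, (PDR.T_eq e P _ _).1 hF⟩
    · rintro ⟨h, hF⟩
      exact ⟨h, (PDR.T_eq e P _ _).2 hF⟩

end Pool.Agent.MG.KX
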