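import Pool.Agent.MG.KX.StmtsE

set_option autoImplicit false

/-!
# PDS: scaling of deformations of Krichever rings
-/

open CategoryTheory CategoryTheory.Limits AlgebraicGeometry
open scoped TensorProduct

namespace Pool.Agent.MG.KX

open Pool.Agent.MG.G0 Pool.Agent.MG.GLU

namespace PDSp

variable {I A : Type} [CommRing A]

theorem eps0_scale (a : A) (F : KK I (Eps A)) :
    kmap (eps0 A) (kmap (epsScale a) F) = kmap (eps0 A) F := by
  funext i
  ext n
  simp

theorem ksnd_scale (a : A) (F : KK I (Eps A)) :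
    ksnd (kmap (epsScale a) F) = a • ksnd F := by
  funext i
  ext n
  simp

theorem scale_mem (a : A) {P : Subalgebra A (KK I A)} {δ : DD P} {F : KK I (Eps A)}
    (hF : F ∈ Pdel P δ) : kmap (epsScale a) F ∈ Pdel P (a • δ) := by
  obtain ⟨h0, h1⟩ := mem_Pdel.1 hF
  rw [mem_Pdel]
  have h2 : kmap (eps0 A) (kmap (epsScale a) F) ∈ P := by
    rw [eps0_scale]
    exact h0
  refine ⟨h2, ?_⟩
  have e : (⟨kmap (eps0 A) (kmap (epsScale a) F), h2⟩ : P) = ⟨kmap (eps0 A) F, h0⟩ :=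
    Subtype.ext (eps0_scale a F)
  rw [e, ksnd_scale, mk_smulA, ← h1]
  rfl

theorem decomp (a : A) (F G H : KK I (Eps A)) (h0 : kmap (eps0 A) G = kmap (eps0 A) F)
    (h1 : kmap (eps0 A) H = ksnd F - a • ksnd G) :
    F = kmap (epsScale a) G + epsE A • kmap (epsScale a) H := by
  funext i
  have h2 : ∀ n : ℤ, ((G i).coeff n).fst = ((F i).coeff n).fst := fun n =>
    congrArg (fun f : LaurentSeries A => f.coeff n) (congrFun h0 i)
  have h3 : ∀ n : ℤ, ((H i).coeff n).fst = ((F i).coeff n).snd - a * ((G i).coeff n).snd :=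
    fun n => congrArg (fun f : LaurentSeries A => f.coeff n) (congrFun h1 i)
  ext n
  · simp [epsE, h2 n]
  · simp [epsE, h3 n]

end PDSp

open PDSp in
/-- PDS: scaling. -/
theorem t_PDS (hPDK : Stmt_PDK) : Stmt_PDS := by
  intro I A _ _ _ g P hP a δ
  obtain ⟨-, -, hlift, -⟩ := hPDK hP δ
  apply le_antisymm
  · refine Algebra.adjoin_le ?_
    rintro _ ⟨F, hF, rfl⟩
    exact scale_mem a hF
  · intro F hF
    obtain ⟨hF0, hF1⟩ := mem_Pdel.1 hF
    obtain ⟨G, hG, hGF⟩ := hlift _ hF0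
    obtain ⟨hG0, hG1⟩ := mem_Pdel.1 hG
    have hp : ksnd F - a • ksnd G ∈ P := by
      rw [← mk_eq, mk_smulA, ← hG1, ← hF1]
      have e : (⟨kmap (eps0 A) F, hF0⟩ : P) = ⟨kmap (eps0 A) G, hG0⟩ := Subtype.ext hGF.symm
      rw [e]
      rfl
    obtain ⟨H, hH, hHp⟩ := hlift _ hp
    rw [decomp a F G H hGF hHp]
    exact add_mem (kmap_mem_bc _ hG) (Subalgebra.smul_mem _ (kmap_mem_bc _ hH) _)

end Pool.Agent.MG.KX
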