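import Pool.Agent.MG.KX.Asm
import Pool.Agent.MG.G0.StmtsW
import Pool.Agent.MG.Fin1

/-!
# The rigidity of `(g, n)`, `g ≥ 3`
-/

open CategoryTheory CategoryTheory.Limits AlgebraicGeometry
open scoped TensorProduct

namespace Pool.Agent.MG.KX

open Pool.Agent.MG.G0 Pool.Agent.MG.GLU

/-- Genericity with respect to the two definitions of deformations. -/
theorem generic_of {K : Type} [Field K] [Algebra ℂ K] {g n : ℕ} (x : Fam n K)
    (hx : ∀ d : Defo g x, ∃ (D : Derivation ℂ K K) (f : Arrow (Std.epsDer D) d.y x),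
      d.r.f ≫ f.f = 𝟙 _) : Std.Generic g x := fun d => hx (Std.Defo.to d)

theorem gnrM_nop {I K : Type} [Field K] [Algebra ℂ K] {P : Subalgebra K (KK I K)}
    (hP : Gnr P) : GnrM P (nop P) := by
  intro δ q _
  obtain ⟨D, θ, hθ, hδ⟩ := hP δ
  exact ⟨D, θ, hθ, hδ, fun i => i.elim0⟩

variable (h : XIn) {g : ℕ} (hg : 3 ≤ g)

include h hg

/-- `n = 0`. -/
theorem rigid_zero {K I : Type} [Field K] [IsAlgClosed K] [Algebra ℂ K] [Fintype I] [Nonempty I]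
    {P : Subalgebra K (KK I K)} (hP : IsKr g P) (hS : TypeS P) (hG : Gnr P)
    (hE : ∀ E : Ev g, ∃ c : ℂ, ∀ l : CovL P, E.Φ K I P l = algebraMap ℂ K c) :
    Std.Rigid g 0 := by
  have hGd := good_S h hP hS
  have hK : KS g P (nop P) := h.gks (nop P) hg hGd (marks_nop P)
  obtain ⟨z⟩ := (h.ple hP).1
  have hst := h.kst hK z
  refine ⟨K, inferInstance, inferInstance, inferInstance, xfam z (nop P),
    (Std.stable_iff g _).2 hst, h.ksx (nop P) hP hS.1 z, generic_of _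
      (h.gnx hP (gnrM_nop hG) z), fun F => ?_⟩
  obtain ⟨c, hc⟩ := hE (evx h hg (Std.Reg.to F))
  refine ⟨c, fun l => ?_⟩
  rw [Std.Reg.to_F]
  obtain ⟨L, hL⟩ := h.kcf hK z (Std.Cov.to l)
  rw [← hc L]
  exact (evx_spec h hg (Std.Reg.to F) hGd L z hst (Std.Cov.to l) hL).symm

/-- `n ≥ 1`. -/
theorem rigid_pos {n : ℕ} (hn : 1 ≤ n) {K I : Type} [Field K] [IsAlgClosed K] [Algebra ℂ K]
    [Fintype I] [Nonempty I] {P : Subalgebra K (KK I K)} (hP : IsKr g P) (hS : TypeS P)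
    (hG : Gnr P)
    (hE : ∀ E : Ev0 g n, ∃ c : ℂ, ∀ p, Marks P p → E.Φ K I P p = algebraMap ℂ K c) :
    Std.Rigid g n := by
  obtain ⟨L, i1, i2, i3, φ, p, hS', hp, hGp⟩ := h.gnp hP hS hG n
  have hGd := good_S h hP hS
  have hGd' := good_bc h hGd (φ : K →+* L)
  obtain ⟨z⟩ := (h.ple hP).1
  obtain ⟨z'⟩ := (h.ple hGd'.1).1
  have hK : KS g (bc (φ : K →+* L) P) p := h.gks p hg hGd' hp
  have hst := h.kst hK z'
  refine ⟨L, inferInstance, inferInstance, inferInstance, xfam z' p,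
    (Std.stable_iff g _).2 hst, h.ksx p hGd'.1 hS'.1 z', generic_of _
      (h.gnx hGd'.1 hGp z'), fun F => ?_⟩
  obtain ⟨c, hc⟩ := hE (ev0 h hg (Std.Reg.to F))
  refine ⟨c, fun l => ?_⟩
  rw [Std.Reg.to_F]
  have e1 := pointed_smooth g n (by omega) hn L (Std.Reg.to F) (xfam z' p) hst
    (h.ksx p hGd'.1 hS'.1 z') (Std.Cov.to l)
  have e2 : (ev0 h hg (Std.Reg.to F)).Φ L I (bc (φ : K →+* L) P) p =
      (Std.Reg.to F).F L (xfam z' p) hst 0 := ev0V_spec h hg (Std.Reg.to F) p hGd' hp z' hst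
  obtain ⟨p₀, hp₀⟩ := h.gnm hP hS n
  obtain ⟨p₁, hp₁⟩ := h.kbp.1 hP (φ : K →+* L) p₀
  have hm₁ := h.kbp.2 hP (φ : K →+* L) p₀ p₁ hp₁ hp₀
  have e3 := (ev0 h hg (Std.Reg.to F)).pos p p₁ hGd'.1 hS' hp hm₁
  have e4 := (ev0 h hg (Std.Reg.to F)).nat φ p₀ p₁ hGd hp₀ (fun i f => hp₁ i f _ rfl)
  rw [e1, ← e2, e3, e4, hc p₀ hp₀, AlgHom.commutes]

theorem rigid (hU : Stmt_UFI) (n : ℕ) : Std.Rigid g n := by
  obtain ⟨K, i1, i2, i3, P, hP, hS, hG, h1, h2⟩ := hU g hg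
  rcases Nat.eq_zero_or_pos n with rfl | hn
  · exact rigid_zero h hg hP hS hG h1
  · exact rigid_pos h hg hn hP hS hG (h2 n)

end Pool.Agent.MG.KX
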