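import Pool.Agent.MG.KX.StmtsE
import Pool.Agent.MG.G0.PFB

/-!
# WIN: injectivity of the restriction to some of the punctures

The injectivity follows from the density at the new punctures (`G0.PFB.inj`): if `w = 0` at `I`,
multiply by an element `v` which is `τ^N + ...` at one of the new punctures and divisible by
`τ^N` at the others. Then `w v` has no poles, so it is a constant, so `w v = 0`.
-/

namespace Pool.Agent.MG.KX

open Pool.Agent.MG.G0

/-- WIN without the statement on the fibres. -/
theorem t_WIN0 : Stmt_WIN := by
  intro I J A _ _ _ _ g W h hD
  exact ⟨rfl, PFB.inj h.1 hD, hD⟩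

/-- WIN: injectivity of the restriction to some of the punctures. -/
theorem t_WIN (_ : Stmt_KDM) : Stmt_WIN := t_WIN0

end Pool.Agent.MG.KX
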