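import Pool.Agent.MG.KX.StmtsM
import Pool.Agent.MG.G0.KBC
import Pool.Agent.MG.G0.KDU
import Pool.Agent.MG.G0.KFO
import Pool.Agent.MG.G0.KSP
import Pool.Agent.MG.G0.KNZ

/-!
# XAR: arrows for base change
-/

open CategoryTheory CategoryTheory.Limits AlgebraicGeometry
open scoped TensorProduct

namespace Pool.Agent.MG.KX

open Pool.Agent.MG.G0 Pool.Agent.MG.GLU

namespace XAR_

theorem spMap_id (B : Type) [CommRing B] : spMap (RingHom.id B) = 𝟙 (Sp B) := Spec.map_id _

/-- Composition with an arrow over the identity. -/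
noncomputable def compId {n : ℕ} {A B : Type} [CommRing A] [CommRing B] {φ : A →+* B}
    {w y : Fam n B} {x : Fam n A} (b : Arrow (RingHom.id B) w y) (a : Arrow φ y x) :
    Arrow φ w x where
  f := b.f ≫ a.f
  cart := by
    have h := b.cart.paste_horiz a.cart
    rw [spMap_id] at h
    rwa [Category.id_comp] at h
  sec i := by
    have h := b.sec i
    rw [spMap_id, Category.id_comp] at h
    rw [← Category.assoc, h, a.sec i]

/-- Homomorphisms of duos are compatible with morphisms to the second chart. -/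
theorem sh_of {A B : Type} [CommRing A] [CommRing B] {φ : A →+* B} {D : Duo A} {E : Duo B}
    (h : Duo.Hom φ D E) {S T : Type} [CommRing S] [CommRing T] (r : D.R2 →+* S) (r' : E.R2 →+* T)
    (s : S →+* T) (hs : r'.comp h.f2 = s.comp r) :
    (spMap r' ≫ E.in2) ≫ h.map = spMap s ≫ spMap r ≫ D.in2 := by
  rw [Category.assoc, h.in2_map, ← Category.assoc, ← Category.assoc, spMap_comp'',
    spMap_comp'', hs]

section

variable {I : Type} {A B : Type} [CommRing A] [CommRing B]

theorem rsh_kres [Finite I] (φ : A →+* B) {P : Subalgebra A (KK I A)} (z : Pole P) (i : I)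
    (f : Rw P z.z) : rsh (z.bc φ).z i ((kHom φ z).f2 f) = PowerSeries.map φ (rsh z.z i f) := by
  ext m
  rw [PowerSeries.coeff_map]
  change PowerSeries.coeff m (PowerSeries.mk fun m => (kmap φ (f : KK I A) i).coeff m) =
    φ (PowerSeries.coeff m (PowerSeries.mk fun m => ((f : KK I A) i).coeff m))
  rw [PowerSeries.coeff_mk, PowerSeries.coeff_mk, kmap_apply, lmap_coeff]

theorem rshI_kres [Finite I] (φ : A →+* B) {P : Subalgebra A (KK I A)} (z : Pole P) :
    (rshI (z.bc φ).z).comp (kHom φ z).f2 = (psm I φ).comp (rshI z.z) := by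
  refine RingHom.ext fun f => funext fun i => ?_
  exact rsh_kres φ z i f

/-- The canonical models correspond. -/
theorem over_can [Finite I] (φ : A →+* B) {P : Subalgebra A (KK I A)} (z : Pole P) {n : ℕ}
    {p : Fin n → (P →ₐ[A] A)} {p' : Fin n → (bc φ P →ₐ[B] B)}
    (a : Arrow φ (xfam (z.bc φ) p') (xfam z p)) (ha : a.f = (kHom φ z).map)
    (M : Mod (xfam z p) P p) (M' : Mod (xfam (z.bc φ) p') (bc φ P) p') (hM : M.Can z)
    (hM' : M'.Can (z.bc φ)) : M.Over a M' where
  mem _ hf := kmap_mem_bc φ hf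
  j := by
    rw [ha, hM.j, hM'.j]
    exact (kHom φ z).in1_map
  sh := by
    rw [ha, hM.sh, hM'.sh]
    exact sh_of (kHom φ z) (rshI z.z) (rshI (z.bc φ).z) (psm I φ) (rshI_kres φ z)

end

end XAR_

open XAR_ in
/-- XAR: base change. -/
theorem t_XAR (hKAR : Stmt_KAR) (hKPX : Stmt_KPX) (hMCA : Stmt_MCA) (hMIS : Stmt_MIS)
    (hMOC : Stmt_MOC) : Stmt_XAR := by
  have hKBC : Stmt_KBC := t_KBC (t_KFO t_KDU) t_KNZ (t_KSP t_KNZ)
  intro I A B _ _ _ _ g n P p φ p' hP hp z z'
  have hP' : IsKr g (bc φ P) := (hKBC.2.2.2 hP φ).1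
  obtain ⟨a1, ha1⟩ := hKAR hP z φ p p' hp
  obtain ⟨M1, hM1⟩ := hMCA hP' (z.bc φ) p'
  obtain ⟨a2, ha2⟩ := hMIS hP' (hKPX p' hP' (z.bc φ)).1 M1 z'
  refine ⟨compId a2 a1, fun M M' hM hM' => ?_⟩
  have h1 := over_can φ z a1 ha1 M M1 hM hM1
  exact (hMOC.1 a1 a2 (compId a2 a1) M M1 M' (RingHom.id_comp φ).symm rfl h1).1 (ha2 M' hM')

end Pool.Agent.MG.KX
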