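import Pool.Agent.MG.KX.StmtsM
import Pool.Agent.MG.G0.KAU

/-!
# XAU: arrows for changes of the coordinates
-/

open CategoryTheory CategoryTheory.Limits AlgebraicGeometry
open scoped TensorProduct

namespace Pool.Agent.MG.KX

open Pool.Agent.MG.G0 Pool.Agent.MG.GLU

namespace XAU_

variable {I A : Type} [CommRing A]

theorem psI_inj {f g : I → PowerSeries A} (h : psI I A f = psI I A g) : f = g := by
  funext i
  exact psl_inj (congrFun h i)

end XAU_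

open XAU_ in
theorem t_XAU (hKPX : Stmt_KPX) (hMCA : Stmt_MCA) (hMIS : Stmt_MIS) (hMAU : Stmt_MAU)
    (_hMOC : Stmt_MOC) : Stmt_XAU := by
  intro I A _ _ _ g n P p α p' hP hα hp z z'
  obtain ⟨M0, hM0⟩ := hMCA hP z p
  obtain ⟨N0, hN0⟩ := hMAU.1 α hα M0 p' hp
  have hP' : IsKr g (P.map (α : KK I A →ₐ[A] KK I A)) := t_KAU.1 P α hα hP
  obtain ⟨a, ha⟩ := hMIS hP' (hKPX p hP z).1 N0 z'
  refine ⟨a, fun M N M' hM hN hM' => ?_⟩
  have h := ha M' hM'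
  have hj : N.j = N0.j := by
    rw [hN.j, hN0.j, hM.j, hM0.j]
  have hs : N.sh = N0.sh := by
    obtain ⟨ρ, hρ, hρ'⟩ := hN.sh
    obtain ⟨ρ0, hρ0, hρ0'⟩ := hN0.sh
    have e : ρ = ρ0 := RingHom.ext fun f => psI_inj ((hρ f).trans (hρ0 f).symm)
    rw [hρ', hρ0', hM.sh, hM0.sh, e]
  refine ⟨h.mem, ?_, ?_⟩
  · rw [hj]
    exact h.j
  · rw [hs]
    exact h.sh

end Pool.Agent.MG.KX
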