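import Pool.Agent.MG.KX.StmtsM

/-!
# XFG: arrows for forgetting punctures
-/

open CategoryTheory CategoryTheory.Limits AlgebraicGeometry
open scoped TensorProduct

namespace Pool.Agent.MG.KX

open Pool.Agent.MG.G0 Pool.Agent.MG.GLU

namespace XFG

theorem rres_id {I A : Type} [CommRing A] {P : Subalgebra A (KK I A)}
    (h : ∀ f ∈ P, kmap (RingHom.id A) f ∈ P) :
    rres (kmap (RingHom.id A)) (P' := P) h = RingHom.id P :=
  RingHom.ext fun f => Subtype.ext (kmap_id (f : KK I A))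

theorem psm_id {I A : Type} [CommRing A] : psm I (RingHom.id A) = RingHom.id _ := by
  ext f i
  simp

/-- The identity. -/
noncomputable def ida {n : ℕ} {A : Type} [CommRing A] (x : Fam n A) :
    Arrow (RingHom.id A) x x where
  f := 𝟙 _
  cart := by
    have h : spMap (RingHom.id A) = 𝟙 _ := Spec.map_id _
    rw [h]
    exact IsPullback.of_id_fst
  sec i := by
    have h : spMap (RingHom.id A) = 𝟙 _ := Spec.map_id _
    rw [h, Category.comp_id, Category.id_comp]

theorem over_ida {I A : Type} [CommRing A] {n : ℕ} {x : Fam n A} {P : Subalgebra A (KK I A)}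
    {p : Fin n → (P →ₐ[A] A)} (M M' : Mod x P p) :
    M.Over (ida x) M' ↔ M'.j = M.j ∧ M'.sh = M.sh := by
  have hid : ∀ f ∈ P, kmap (RingHom.id A) f ∈ P := fun f hf => by rwa [kmap_id]
  have h1 : ∀ h : ∀ f ∈ P, kmap (RingHom.id A) f ∈ P,
      spMap (rres (kmap (RingHom.id A)) (P' := P) h) = 𝟙 _ := by
    intro h
    rw [rres_id]
    exact Spec.map_id _
  have h2 : spMap (psm I (RingHom.id A)) = 𝟙 _ := by
    rw [psm_id]
    exact Spec.map_id _
  constructor
  · intro h
    have hj := h.j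
    have hs := h.sh
    rw [h1] at hj
    rw [h2] at hs
    refine ⟨?_, ?_⟩
    · exact (Category.comp_id _).symm.trans (hj.trans (Category.id_comp _))
    · exact (Category.comp_id _).symm.trans (hs.trans (Category.id_comp _))
  · rintro ⟨hj, hs⟩
    refine ⟨hid, ?_, ?_⟩
    · rw [h1, hj]
      exact (Category.comp_id _).trans (Category.id_comp _).symm
    · rw [h2, hs]
      exact (Category.comp_id _).trans (Category.id_comp _).symm

end XFG

open XFG in
theorem t_XFG (hKPX : Stmt_KPX) (hMCA : Stmt_MCA) (hMIS : Stmt_MIS) (hMFA : Stmt_MFA)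
    (hMFG : Stmt_MFG) (hMFO : Stmt_MFO) : Stmt_XFG := by
  intro I J A _ _ _ _ g n W q P p hW hP hF hq z z'
  obtain ⟨M0, hM0⟩ := hMCA hW z q
  have hprop := (hKPX q hW z).1
  obtain ⟨U, hU, hU2⟩ := hMFA hW hprop M0 hF.dns
  obtain ⟨N0, hN0⟩ := hMFG M0 U hU hU2 hF hq
  obtain ⟨a, ha⟩ := hMIS hP hprop N0 z'
  refine ⟨a, fun M N M' hM hMN hM' => ?_⟩
  have h1 : M0.Over (ida _) M := (over_ida M0 M).2 ⟨hM.j.trans hM0.j.symm, hM.sh.trans hM0.sh.symm⟩
  have h2 := hMFO (ida _) M0 N0 M N hN0 hMN hF (fun f hf => by rwa [kmap_id]) h1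
  obtain ⟨ej, es⟩ := (over_ida N0 N).1 h2
  have h3 := ha M' hM'
  exact ⟨h3.mem, by rw [h3.j, ej], by rw [h3.sh, es]⟩

end Pool.Agent.MG.KX
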