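import Pool.Agent.MG.KX.StmtsM
import Pool.Agent.MG.G0.KAU

/-!
# XRX: arrows for changes of the index set
-/

open CategoryTheory CategoryTheory.Limits AlgebraicGeometry
open scoped TensorProduct

namespace Pool.Agent.MG.KX

open Pool.Agent.MG.G0 Pool.Agent.MG.GLU

theorem t_XRX (hKPX : Stmt_KPX) (hMCA : Stmt_MCA) (hMIS : Stmt_MIS) (hMRX : Stmt_MRX)
    (hMOC : Stmt_MOC) : Stmt_XRX := by
  clear hMOC
  intro I I' A _ _ _ _ _ g n P p e p' hP hp z z'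
  obtain ⟨M0, hM0⟩ := hMCA hP z p
  obtain ⟨N0, hN0⟩ := hMRX.1 e M0 p' hp
  obtain ⟨a, ha⟩ := hMIS (G0.t_KAU.2 P e hP) (hKPX p hP z).1 N0 z'
  refine ⟨a, fun M N M' hM hN hM' => ?_⟩
  obtain ⟨hmem, hj, hsh⟩ := ha M' hM'
  have h1 : N.j = N0.j := by rw [hN.j, hN0.j, hM.j, hM0.j]
  have h2 : N.sh = N0.sh := by rw [hN.sh, hN0.sh, hM.sh, hM0.sh]
  exact ⟨hmem, by rw [hj, h1], by rw [hsh, h2]⟩

end Pool.Agent.MG.KX
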