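import Pool.Agent.MG.G0.AID
import Pool.Agent.MG.G0.APT
import Pool.Agent.MG.G0.AWK
import Pool.Agent.MG.G0.AYE
import Pool.Agent.MG.G0.KAU
import Pool.Agent.MG.G0.KBC
import Pool.Agent.MG.G0.KBT
import Pool.Agent.MG.G0.KDU
import Pool.Agent.MG.G0.KFG
import Pool.Agent.MG.G0.KFO
import Pool.Agent.MG.G0.KNZ
import Pool.Agent.MG.G0.KSP
import Pool.Agent.MG.G0.LOC
import Pool.Agent.MG.G0.PBC
import Pool.Agent.MG.G0.PPR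
import Pool.Agent.MG.G0.RES
import Pool.Agent.MG.G0.RTA
import Pool.Agent.MG.G0.RTR
import Pool.Agent.MG.G0.SBC
import Pool.Agent.MG.G0.SCO
import Pool.Agent.MG.G0.SDB
import Pool.Agent.MG.G0.SDF
import Pool.Agent.MG.G0.SKK
import Pool.Agent.MG.G0.STO
import Pool.Agent.MG.H2.NMA
import Pool.Agent.MG.H2.NMV
import Pool.Agent.MG.H2.NPT
import Pool.Agent.MG.KX.DBC
import Pool.Agent.MG.KX.DCO
import Pool.Agent.MG.KX.DEN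
import Pool.Agent.MG.KX.DFL
import Pool.Agent.MG.KX.DGE
import Pool.Agent.MG.KX.DMD
import Pool.Agent.MG.KX.DMT
import Pool.Agent.MG.KX.DNO
import Pool.Agent.MG.KX.DPR
import Pool.Agent.MG.KX.DSM
import Pool.Agent.MG.KX.DSS
import Pool.Agent.MG.KX.DST
import Pool.Agent.MG.KX.DVF
import Pool.Agent.MG.KX.GKS
import Pool.Agent.MG.KX.GNB
import Pool.Agent.MG.KX.GNM
import Pool.Agent.MG.KX.GNP
import Pool.Agent.MG.KX.GNX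
import Pool.Agent.MG.KX.KAR
import Pool.Agent.MG.KX.KBP
import Pool.Agent.MG.KX.KBW
import Pool.Agent.MG.KX.KCA
import Pool.Agent.MG.KX.KCE
import Pool.Agent.MG.KX.KCF
import Pool.Agent.MG.KX.KCG
import Pool.Agent.MG.KX.KCN
import Pool.Agent.MG.KX.KCO
import Pool.Agent.MG.KX.KCR
import Pool.Agent.MG.KX.KCZ
import Pool.Agent.MG.KX.KDM
import Pool.Agent.MG.KX.KFP
import Pool.Agent.MG.KX.KFW
import Pool.Agent.MG.KX.KGC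
import Pool.Agent.MG.KX.KMK
import Pool.Agent.MG.KX.KNN
import Pool.Agent.MG.KX.KNS
import Pool.Agent.MG.KX.KPT
import Pool.Agent.MG.KX.KPX
import Pool.Agent.MG.KX.KRN
import Pool.Agent.MG.KX.KRS
import Pool.Agent.MG.KX.KRV
import Pool.Agent.MG.KX.KSB
import Pool.Agent.MG.KX.KSN
import Pool.Agent.MG.KX.KST
import Pool.Agent.MG.KX.KSX
import Pool.Agent.MG.KX.MAI
import Pool.Agent.MG.KX.MAU
import Pool.Agent.MG.KX.MBC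
import Pool.Agent.MG.KX.MCA
import Pool.Agent.MG.KX.MFA
import Pool.Agent.MG.KX.MFG
import Pool.Agent.MG.KX.MFO
import Pool.Agent.MG.KX.MIS
import Pool.Agent.MG.KX.MOC
import Pool.Agent.MG.KX.MRX
import Pool.Agent.MG.KX.MTH
import Pool.Agent.MG.KX.MTR
import Pool.Agent.MG.KX.MUN
import Pool.Agent.MG.KX.MXT
import Pool.Agent.MG.KX.PDA
import Pool.Agent.MG.KX.PDB
import Pool.Agent.MG.KX.PDC
import Pool.Agent.MG.KX.PDD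
import Pool.Agent.MG.KX.PDF
import Pool.Agent.MG.KX.PDI
import Pool.Agent.MG.KX.PDK
import Pool.Agent.MG.KX.PDR
import Pool.Agent.MG.KX.PDS
import Pool.Agent.MG.KX.PDT
import Pool.Agent.MG.KX.PLE
import Pool.Agent.MG.KX.Rig
import Pool.Agent.MG.KX.WIN
import Pool.Agent.MG.KX.XAR
import Pool.Agent.MG.KX.XAU
import Pool.Agent.MG.KX.XFG
import Pool.Agent.MG.KX.XRX

/-!
# Assembly
-/

namespace Pool.Agent.MG.KX.All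

theorem k_KDU : Pool.Agent.MG.G0.Stmt_KDU := Pool.Agent.MG.G0.t_KDU

theorem k_KFO : Pool.Agent.MG.G0.Stmt_KFO := Pool.Agent.MG.G0.t_KFO k_KDU

theorem k_KNZ : Pool.Agent.MG.G0.Stmt_KNZ := Pool.Agent.MG.G0.t_KNZ

theorem k_KSP : Pool.Agent.MG.G0.Stmt_KSP := Pool.Agent.MG.G0.t_KSP k_KNZ

theorem k_KBC : Pool.Agent.MG.G0.Stmt_KBC := Pool.Agent.MG.G0.t_KBC k_KFO k_KNZ k_KSP

theorem k_KBT : Pool.Agent.MG.G0.Stmt_KBT := Pool.Agent.MG.G0.t_KBT k_KSP k_KBC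

theorem k_RTR : Pool.Agent.MG.G0.Stmt_RTR := Pool.Agent.MG.G0.t_RTR

theorem k_RTA : Pool.Agent.MG.G0.Stmt_RTA := Pool.Agent.MG.G0.t_RTA

theorem k_RES : Pool.Agent.MG.G0.Stmt_RES := Pool.Agent.MG.G0.t_RES k_RTR k_RTA k_KSP

theorem k_SCO : Pool.Agent.MG.G0.Stmt_SCO := Pool.Agent.MG.G0.t_SCO

theorem k_SKK : Pool.Agent.MG.G0.Stmt_SKK := Pool.Agent.MG.G0.t_SKK k_KNZ k_SCO

theorem k_STO : Pool.Agent.MG.G0.Stmt_STO := Pool.Agent.MG.G0.t_STO k_RES k_SKK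

theorem k_LOC : Pool.Agent.MG.G0.Stmt_LOC := Pool.Agent.MG.G0.t_LOC

theorem k_SBC : Pool.Agent.MG.G0.Stmt_SBC := Pool.Agent.MG.G0.t_SBC k_SCO k_LOC

theorem k_PPR : Pool.Agent.MG.G0.Stmt_PPR := Pool.Agent.MG.G0.t_PPR k_KDU k_KSP

theorem k_PBC : Pool.Agent.MG.G0.Stmt_PBC := Pool.Agent.MG.G0.t_PBC k_KFO k_KBC k_PPR

theorem k_SDB : Pool.Agent.MG.G0.Stmt_SDB := Pool.Agent.MG.G0.t_SDB k_KBC k_KBT k_STO k_SBC k_PBC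

theorem k_KAU : Pool.Agent.MG.G0.Stmt_KAU := Pool.Agent.MG.G0.t_KAU

theorem k_PLE : Pool.Agent.MG.KX.Stmt_PLE := Pool.Agent.MG.KX.t_PLE

theorem k_KBP : Pool.Agent.MG.KX.Stmt_KBP := Pool.Agent.MG.KX.t_KBP k_KBT k_KBC

theorem k_KFG : Pool.Agent.MG.G0.Stmt_KFG := Pool.Agent.MG.G0.t_KFG k_KNZ k_KSP

theorem k_KDM : Pool.Agent.MG.KX.Stmt_KDM := Pool.Agent.MG.KX.t_KDM k_KNZ k_KFG

theorem k_APT : Pool.Agent.MG.G0.Stmt_APT := Pool.Agent.MG.G0.t_APT k_SCO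

theorem k_AID : Pool.Agent.MG.G0.Stmt_AID := Pool.Agent.MG.G0.t_AID k_SCO k_KFG

theorem k_AYE : Pool.Agent.MG.G0.Stmt_AYE := Pool.Agent.MG.G0.t_AYE k_KNZ k_AID

theorem k_AWK : Pool.Agent.MG.G0.Stmt_AWK := Pool.Agent.MG.G0.t_AWK k_KNZ k_SBC k_AYE

theorem k_SDF : Pool.Agent.MG.G0.Stmt_SDF := Pool.Agent.MG.G0.t_SDF k_KFG k_RES k_STO k_SCO k_APT k_AYE k_AWK

theorem k_KRS : Pool.Agent.MG.KX.Stmt_KRS := Pool.Agent.MG.KX.t_KRS k_KDM k_SDF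

theorem k_KRN : Pool.Agent.MG.KX.Stmt_KRN := Pool.Agent.MG.KX.t_KRN k_KDM k_KRS

theorem k_KFP : Pool.Agent.MG.KX.Stmt_KFP := Pool.Agent.MG.KX.t_KFP

theorem k_KMK : Pool.Agent.MG.KX.Stmt_KMK := Pool.Agent.MG.KX.t_KMK k_PLE k_KFP

theorem k_KNS : Pool.Agent.MG.KX.Stmt_KNS := Pool.Agent.MG.KX.t_KNS k_KDM k_KMK

theorem k_KNN : Pool.Agent.MG.KX.Stmt_KNN := Pool.Agent.MG.KX.t_KNN k_KDM k_KNS k_PLE k_KFP

theorem k_GKS : Pool.Agent.MG.KX.Stmt_GKS := Pool.Agent.MG.KX.t_GKS k_KDM k_KRS k_KRN k_KNS k_KNN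

theorem k_DST : Pool.Agent.MG.KX.Stmt_DST := Pool.Agent.MG.KX.t_DST

theorem k_DPR : Pool.Agent.MG.KX.Stmt_DPR := Pool.Agent.MG.KX.t_DPR

theorem k_DFL : Pool.Agent.MG.KX.Stmt_DFL := Pool.Agent.MG.KX.t_DFL

theorem k_KFW : Pool.Agent.MG.KX.Stmt_KFW := Pool.Agent.MG.KX.t_KFW

theorem k_KPX : Pool.Agent.MG.KX.Stmt_KPX := Pool.Agent.MG.KX.t_KPX k_DPR k_DFL k_KFP k_KFW

theorem k_DBC : Pool.Agent.MG.KX.Stmt_DBC := Pool.Agent.MG.KX.t_DBC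

theorem k_DEN : Pool.Agent.MG.KX.Stmt_DEN := Pool.Agent.MG.KX.t_DEN

theorem k_KBW : Pool.Agent.MG.KX.Stmt_KBW := Pool.Agent.MG.KX.t_KBW k_DEN

theorem k_KAR : Pool.Agent.MG.KX.Stmt_KAR := Pool.Agent.MG.KX.t_KAR k_DBC k_KBW

theorem k_DCO : Pool.Agent.MG.KX.Stmt_DCO := Pool.Agent.MG.KX.t_DCO

theorem k_DNO : Pool.Agent.MG.KX.Stmt_DNO := Pool.Agent.MG.KX.t_DNO

theorem k_DGE : Pool.Agent.MG.KX.Stmt_DGE := Pool.Agent.MG.KX.t_DGE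

theorem k_DSM : Pool.Agent.MG.KX.Stmt_DSM := Pool.Agent.MG.KX.t_DSM

theorem k_DVF : Pool.Agent.MG.KX.Stmt_DVF := Pool.Agent.MG.KX.t_DVF

theorem k_KCO : Pool.Agent.MG.KX.Stmt_KCO := Pool.Agent.MG.KX.t_KCO k_DEN

theorem k_KPT : Pool.Agent.MG.KX.Stmt_KPT := Pool.Agent.MG.KX.t_KPT k_DEN k_KFW

theorem k_KRV : Pool.Agent.MG.KX.Stmt_KRV := Pool.Agent.MG.KX.t_KRV k_DEN

theorem k_KGC : Pool.Agent.MG.KX.Stmt_KGC := Pool.Agent.MG.KX.t_KGC k_DCO k_DNO k_DGE k_DSM k_DVF k_KCO k_KPT k_KMK k_KRV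

theorem k_KSB : Pool.Agent.MG.KX.Stmt_KSB := Pool.Agent.MG.KX.t_KSB k_KBP

theorem k_KST : Pool.Agent.MG.KX.Stmt_KST := Pool.Agent.MG.KX.t_KST k_DST k_KPX k_KBP k_KAR k_KGC k_KSB

theorem k_DSS : Pool.Agent.MG.KX.Stmt_DSS := Pool.Agent.MG.KX.t_DSS

theorem k_KSX : Pool.Agent.MG.KX.Stmt_KSX := Pool.Agent.MG.KX.t_KSX k_DSS k_KFP k_KPT

theorem k_MCA : Pool.Agent.MG.KX.Stmt_MCA := Pool.Agent.MG.KX.t_MCA k_DEN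

theorem k_MIS : Pool.Agent.MG.KX.Stmt_MIS := Pool.Agent.MG.KX.t_MIS

theorem k_MOC : Pool.Agent.MG.KX.Stmt_MOC := Pool.Agent.MG.KX.t_MOC

theorem k_XAR : Pool.Agent.MG.KX.Stmt_XAR := Pool.Agent.MG.KX.t_XAR k_KAR k_KPX k_MCA k_MIS k_MOC

theorem k_MAU : Pool.Agent.MG.KX.Stmt_MAU := Pool.Agent.MG.KX.t_MAU

theorem k_XAU : Pool.Agent.MG.KX.Stmt_XAU := Pool.Agent.MG.KX.t_XAU k_KPX k_MCA k_MIS k_MAU k_MOC

theorem k_MFA : Pool.Agent.MG.KX.Stmt_MFA := Pool.Agent.MG.KX.t_MFA k_PLE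

theorem k_MFG : Pool.Agent.MG.KX.Stmt_MFG := Pool.Agent.MG.KX.t_MFG

theorem k_MFO : Pool.Agent.MG.KX.Stmt_MFO := Pool.Agent.MG.KX.t_MFO

theorem k_XFG : Pool.Agent.MG.KX.Stmt_XFG := Pool.Agent.MG.KX.t_XFG k_KPX k_MCA k_MIS k_MFA k_MFG k_MFO

theorem k_WIN : Pool.Agent.MG.KX.Stmt_WIN := Pool.Agent.MG.KX.t_WIN0

theorem k_MBC : Pool.Agent.MG.KX.Stmt_MBC := Pool.Agent.MG.KX.t_MBC k_KBT

theorem k_MTR : Pool.Agent.MG.KX.Stmt_MTR := Pool.Agent.MG.KX.t_MTR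

theorem k_MUN : Pool.Agent.MG.KX.Stmt_MUN := Pool.Agent.MG.KX.t_MUN

theorem k_MTH : Pool.Agent.MG.KX.Stmt_MTH := Pool.Agent.MG.KX.t_MTH

theorem k_PDC : Pool.Agent.MG.KX.Stmt_PDC := Pool.Agent.MG.KX.t_PDC

theorem k_DMD : Pool.Agent.MG.KX.Stmt_DMD := Pool.Agent.MG.KX.t_DMD k_MTH k_PDC

theorem k_DMT : Pool.Agent.MG.KX.Stmt_DMT := Pool.Agent.MG.KX.t_DMT k_MTH

theorem k_PDK : Pool.Agent.MG.KX.Stmt_PDK := Pool.Agent.MG.KX.t_PDK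

theorem k_PDS : Pool.Agent.MG.KX.Stmt_PDS := Pool.Agent.MG.KX.t_PDS k_PDK

theorem k_PDA : Pool.Agent.MG.KX.Stmt_PDA := Pool.Agent.MG.KX.t_PDA k_PDK

theorem k_KCE : Pool.Agent.MG.KX.Stmt_KCE := Pool.Agent.MG.KX.t_KCE k_MCA k_MBC k_MTR k_MOC k_MUN k_KST k_DMD k_DMT k_PDK k_PDC k_PDS k_PDA k_KBC

theorem k_MXT : Pool.Agent.MG.KX.Stmt_MXT := Pool.Agent.MG.KX.t_MXT

theorem k_MAI : Pool.Agent.MG.KX.Stmt_MAI := Pool.Agent.MG.KX.t_MAI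

theorem k_KSN : Pool.Agent.MG.KX.Stmt_KSN := Pool.Agent.MG.KX.t_KSN

theorem k_PDI : Pool.Agent.MG.KX.Stmt_PDI := Pool.Agent.MG.KX.t_PDI

theorem k_KCF : Pool.Agent.MG.KX.Stmt_KCF := Pool.Agent.MG.KX.t_KCF k_MCA k_MIS k_MOC k_MXT k_MAU k_MAI k_XAR k_KSN k_KST k_KPX k_PLE k_PDK k_PDS k_PDA k_PDI

theorem k_PDB : Pool.Agent.MG.KX.Stmt_PDB := Pool.Agent.MG.KX.t_PDB k_PDK

theorem k_KCN : Pool.Agent.MG.KX.Stmt_KCN := Pool.Agent.MG.KX.t_KCN k_MCA k_MBC k_MOC k_XAR k_DMD k_PDB k_PDK k_KBC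

theorem k_KCZ : Pool.Agent.MG.KX.Stmt_KCZ := Pool.Agent.MG.KX.t_KCZ k_MCA k_MIS k_MBC k_MOC k_KPX k_DMD k_PDB k_PDK

theorem k_PDT : Pool.Agent.MG.KX.Stmt_PDT := Pool.Agent.MG.KX.t_PDT

theorem k_KCA : Pool.Agent.MG.KX.Stmt_KCA := Pool.Agent.MG.KX.t_KCA k_MCA k_MBC k_MOC k_MAU k_XAU k_DMD k_PDT k_PDK

theorem k_MRX : Pool.Agent.MG.KX.Stmt_MRX := Pool.Agent.MG.KX.t_MRX

theorem k_XRX : Pool.Agent.MG.KX.Stmt_XRX := Pool.Agent.MG.KX.t_XRX k_KPX k_MCA k_MIS k_MRX k_MOC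

theorem k_PDR : Pool.Agent.MG.KX.Stmt_PDR := Pool.Agent.MG.KX.t_PDR

theorem k_KCR : Pool.Agent.MG.KX.Stmt_KCR := Pool.Agent.MG.KX.t_KCR k_MCA k_MBC k_MOC k_MRX k_XRX k_DMD k_PDR k_PDK

theorem k_PDF : Pool.Agent.MG.KX.Stmt_PDF := Pool.Agent.MG.KX.t_PDF

theorem k_KCG : Pool.Agent.MG.KX.Stmt_KCG := Pool.Agent.MG.KX.t_KCG k_MCA k_MBC k_MOC k_MFA k_MFG k_MFO k_XFG k_DMD k_PDF k_PDK k_KPX

theorem k_PDD : Pool.Agent.MG.KX.Stmt_PDD := Pool.Agent.MG.KX.t_PDD k_PDK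

theorem k_GNX : Pool.Agent.MG.KX.Stmt_GNX := Pool.Agent.MG.KX.t_GNX k_MCA k_MIS k_MTR k_MOC k_MXT k_MAU k_MAI k_MTH k_XAR k_KPX k_PLE k_PDK k_PDC k_PDI k_PDD

theorem k_GNB : Pool.Agent.MG.KX.Stmt_GNB := Pool.Agent.MG.KX.t_GNB k_KBC k_SCO k_SKK k_SDB

theorem k_GNP : Pool.Agent.MG.KX.Stmt_GNP := Pool.Agent.MG.KX.t_GNP k_KDM k_GNB

theorem k_GNM : Pool.Agent.MG.KX.Stmt_GNM := Pool.Agent.MG.KX.t_GNM k_KDM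

theorem k_NPT : Pool.Agent.MG.H2.Stmt_NPT := Pool.Agent.MG.H2.t_NPT

theorem k_NMV : Pool.Agent.MG.H2.Stmt_NMV := Pool.Agent.MG.H2.t_NMV k_NPT

theorem k_NMA : Pool.Agent.MG.H2.Stmt_NMA := Pool.Agent.MG.H2.t_NMA k_NPT k_NMV

/-- All inputs of `Asm.lean`. -/
theorem xin : XIn where
  kbc := k_KBC
  kbt := k_KBT
  sdb := k_SDB
  kau := k_KAU
  ple := k_PLE
  kbp := k_KBP
  gks := k_GKS
  kst := k_KST
  ksx := k_KSX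
  xar := k_XAR
  xau := k_XAU
  xfg := k_XFG
  win := k_WIN
  kce := k_KCE
  kcf := k_KCF
  kcn := k_KCN
  kcz := k_KCZ
  kca := k_KCA
  kcr := k_KCR
  kcg := k_KCG
  gnx := k_GNX
  gnp := k_GNP
  gnm := k_GNM
  nma := k_NMA

end Pool.Agent.MG.KX.All

namespace Pool.Agent.MG.KX

/-- `(g, n)`, `g ≥ 3`, from the final statement on Krichever rings. -/
theorem rigid_of (hU : G0.Stmt_UFI) {g : ℕ} (hg : 3 ≤ g) (n : ℕ) : Std.Rigid g n :=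
  rigid All.xin hg hU n

end Pool.Agent.MG.KX
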