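import Pool.Agent.MG.KX.StmtsC
import Pool.Agent.MG.H2.StmtsN
import Pool.Agent.MG.PointedS

/-!
# From Krichever rings to curves: the functions `Ev`, `Ev0`, and the rigidity of `(g, n)`
-/

open CategoryTheory CategoryTheory.Limits AlgebraicGeometry
open scoped TensorProduct

namespace Pool.Agent.MG.KX

open Pool.Agent.MG.G0 Pool.Agent.MG.GLU

/-- The inputs. -/
structure XIn : Prop where
  kbc : Stmt_KBC
  kbt : Stmt_KBT
  sdb : Stmt_SDB
  kau : Stmt_KAU
  ple : Stmt_PLE
  kbp : Stmt_KBP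
  gks : Stmt_GKS
  kst : Stmt_KST
  ksx : Stmt_KSX
  xar : Stmt_XAR
  xau : Stmt_XAU
  xfg : Stmt_XFG
  win : Stmt_WIN
  kce : Stmt_KCE
  kcf : Stmt_KCF
  kcn : Stmt_KCN
  kcz : Stmt_KCZ
  kca : Stmt_KCA
  kcr : Stmt_KCR
  kcg : Stmt_KCG
  gnx : Stmt_GNX
  gnp : Stmt_GNP
  gnm : Stmt_GNM
  nma : H2.Stmt_NMA

section

variable {I A B : Type} [Fintype I] [Nonempty I] [CommRing A] [CommRing B] {g n : ℕ}

theorem good_bc (h : XIn) {P : Subalgebra A (KK I A)} (hP : G0.Good g P) (φ : A →+* B) :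
    G0.Good g (bc φ P) := by
  refine ⟨(h.kbc.2.2.2 hP.1 φ).1, fun κ _ _ ψ => ?_⟩
  rw [← h.kbc.2.1]
  exact hP.2 κ (ψ.comp φ)

theorem typeS_bc (h : XIn) {K L : Type} [Field K] [Field L] {P : Subalgebra K (KK I K)}
    (hP : IsKr g P) (hS : TypeS P) (φ : K →+* L) : TypeS (bc φ P) := by
  let _ := φ.toAlgebra
  obtain ⟨-, e, -⟩ := h.kbt (B := L) hP
  have h1 := hS.1
  refine ⟨?_, (h.sdb hP hS.2 φ).1⟩
  have h2 : Algebra.FormallySmooth L (L ⊗[K] P) := inferInstance
  exact Algebra.FormallySmooth.of_equiv e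

theorem good_S (h : XIn) {K : Type} [Field K] {P : Subalgebra K (KK I K)} (hP : IsKr g P)
    (hS : TypeS P) : G0.Good g P :=
  ⟨hP, fun _ _ _ φ => Or.inl (typeS_bc h hP hS φ)⟩

omit [Fintype I] [Nonempty I] in
theorem marks_nop (P : Subalgebra A (KK I A)) : Marks P (nop P) :=
  ⟨fun i => i.elim0, fun i => i.elim0⟩

omit [Fintype I] [Nonempty I] in
theorem nop_eq {P : Subalgebra A (KK I A)} (p : Fin 0 → (P →ₐ[A] A)) : p = nop P :=
  funext fun i => i.elim0

end

/-! ## The function `Ev` -/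

section

variable {g : ℕ} (h : XIn) (hg : 3 ≤ g) (F : Reg g 0)

include h hg

theorem evx_ex {I A : Type} [Fintype I] [Nonempty I] [CommRing A] [Algebra ℂ A]
    {P : Subalgebra A (KK I A)} (hP : G0.Good g P) (L : CovL P) :
    ∃ v : A, ∀ (z : Pole P) (hst : IsStable g (xfam z (nop P))) (l : Cov g (xfam z (nop P))),
      IsKC z L l → F.F A (xfam z (nop P)) hst l = v := by
  have hK : KS g P (nop P) := h.gks (nop P) hg hP (marks_nop P)
  obtain ⟨z₀⟩ := (h.ple hP.1).1
  obtain ⟨l₀, hl₀⟩ := h.kce hK z₀ L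
  have hs₀ := h.kst hK z₀
  refine ⟨F.F A _ hs₀ l₀, fun z hst l hl => ?_⟩
  obtain ⟨a, ha⟩ := h.kcz hK z₀ z
  exact F.nat A A (AlgHom.id ℂ A) _ _ hs₀ hst a l₀ l (ha L l₀ l hl₀ hl)

open Classical in
/-- The value of the function. -/
noncomputable def evxV (A I : Type) [CommRing A] [Algebra ℂ A] [Fintype I]
    (P : Subalgebra A (KK I A)) (L : CovL P) : A :=
  if hP : Nonempty I ∧ G0.Good g P then
    (have := hP.1; evx_ex h hg F hP.2 L).choose
  else 0

theorem evxV_spec {A I : Type} [CommRing A] [Algebra ℂ A] [Fintype I] [Nonempty I]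
    {P : Subalgebra A (KK I A)} (hP : G0.Good g P) (L : CovL P) (z : Pole P)
    (hst : IsStable g (xfam z (nop P))) (l : Cov g (xfam z (nop P))) (hl : IsKC z L l) :
    evxV h hg F A I P L = F.F A (xfam z (nop P)) hst l := by
  rw [evxV, dif_pos ⟨inferInstance, hP⟩]
  exact ((evx_ex h hg F hP L).choose_spec z hst l hl).symm

/-- The function on Krichever rings given by a regular function on `T^*M̄_g`. -/
noncomputable def evx : Ev g where
  Φ := evxV h hg F
  nat := by
    intro A B I _ _ _ _ _ _ φ P hP L L' hL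
    have hK : KS g P (nop P) := h.gks (nop P) hg hP (marks_nop P)
    have hP' := good_bc h hP (φ : A →+* B)
    have hK' : KS g (bc (φ : A →+* B) P) (nop _) := h.gks (nop _) hg hP' (marks_nop _)
    obtain ⟨z⟩ := (h.ple hP.1).1
    obtain ⟨z'⟩ := (h.ple hP'.1).1
    obtain ⟨a, ha⟩ := h.kcn (φ : A →+* B) hK z z'
    obtain ⟨l, hl⟩ := h.kce hK z L
    obtain ⟨l', hl'⟩ := h.kce hK' z' L'
    rw [evxV_spec h hg F hP L z (h.kst hK z) l hl,
      evxV_spec h hg F hP' L' z' (h.kst hK' z') l' hl']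
    exact F.nat A B φ _ _ _ _ a l l' (ha L L' hL l l' hl hl')
  aut := by
    intro A I _ _ _ _ α hα P P' hP hP' hPP L L' hL
    have e : P' = P.map (α : KK I A →ₐ[A] KK I A) := by
      ext f
      constructor
      · intro hf
        refine ⟨α.symm f, (hPP _).2 ?_, α.apply_symm_apply f⟩
        rwa [α.apply_symm_apply]
      · rintro ⟨f', hf', rfl⟩
        exact (hPP f').1 hf'
    subst e
    have hK : KS g P (nop P) := h.gks (nop P) hg hP (marks_nop P)
    have hK' : KS g (P.map (α : KK I A →ₐ[A] KK I A)) (nop _) :=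
      h.gks (nop _) hg hP' (marks_nop _)
    obtain ⟨z⟩ := (h.ple hP.1).1
    obtain ⟨z'⟩ := (h.ple hP'.1).1
    obtain ⟨a, ha⟩ := h.kca α (hα 0) hK z z'
    obtain ⟨l, hl⟩ := h.kce hK z L
    obtain ⟨l', hl'⟩ := h.kce hK' z' L'
    rw [evxV_spec h hg F hP L z (h.kst hK z) l hl,
      evxV_spec h hg F hP' L' z' (h.kst hK' z') l' hl']
    exact F.nat A A (AlgHom.id ℂ A) _ _ _ _ a l l' (ha L L' hL l l' hl hl')
  rix := by
    intro A I I' _ _ _ _ _ _ e P P' hP hP' hPP L L' hL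
    subst hPP
    have hK : KS g P (nop P) := h.gks (nop P) hg hP (marks_nop P)
    have hK' : KS g (reix e P) (nop _) := h.gks (nop _) hg hP' (marks_nop _)
    obtain ⟨z⟩ := (h.ple hP.1).1
    obtain ⟨z'⟩ := (h.ple hP'.1).1
    obtain ⟨a, ha⟩ := h.kcr e hK z z'
    obtain ⟨l, hl⟩ := h.kce hK z L
    obtain ⟨l', hl'⟩ := h.kce hK' z' L'
    rw [evxV_spec h hg F hP L z (h.kst hK z) l hl,
      evxV_spec h hg F hP' L' z' (h.kst hK' z') l' hl']
    exact F.nat A A (AlgHom.id ℂ A) _ _ _ _ a l l' (ha L L' hL l l' hl hl')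
  forget := by
    intro A I J _ _ _ _ _ P W hW hW' hPP hD L L' hL
    subst hPP
    have hK : KS g W (nop W) := h.gks (nop W) hg hW (marks_nop W)
    have hK' : KS g (Rem W) (nop _) := h.gks (nop _) hg hW' (marks_nop _)
    obtain ⟨z⟩ := (h.ple hW.1).1
    obtain ⟨z'⟩ := (h.ple hW'.1).1
    obtain ⟨a, ha⟩ := h.kcg hK hK' (h.win hW hD) z z'
    obtain ⟨l, hl⟩ := h.kce hK z L'
    obtain ⟨l', hl'⟩ := h.kce hK' z' L
    rw [evxV_spec h hg F hW L' z (h.kst hK z) l hl,
      evxV_spec h hg F hW' L z' (h.kst hK' z') l' hl']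
    exact (F.nat A A (AlgHom.id ℂ A) _ _ _ _ a l l' (ha L L' hL l l' hl hl')).symm

theorem evx_spec {A I : Type} [CommRing A] [Algebra ℂ A] [Fintype I] [Nonempty I]
    {P : Subalgebra A (KK I A)} (hP : G0.Good g P) (L : CovL P) (z : Pole P)
    (hst : IsStable g (xfam z (nop P))) (l : Cov g (xfam z (nop P))) (hl : IsKC z L l) :
    (evx h hg F).Φ A I P L = F.F A (xfam z (nop P)) hst l :=
  evxV_spec h hg F hP L z hst l hl

end

/-! ## The function `Ev0` -/

theorem compat_zero {g n : ℕ} {A B : Type} [CommRing A] [CommRing B] {φ : A →+* B}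
    {y : Fam n B} {x : Fam n A} (a : Arrow φ y x) : Compat a (0 : Cov g y) (0 : Cov g x) :=
  fun _ _ _ _ => (map_zero φ).symm

theorem marks_inj {n : ℕ} {A I : Type} [CommRing A] [Nontrivial A] {P : Subalgebra A (KK I A)}
    {p : Fin n → (P →ₐ[A] A)} (hp : Marks P p) : Function.Injective p := by
  intro i j hij
  by_contra hne
  have h1 := hp.dis i j hne
  rw [hij, sup_idem] at h1
  have h2 : (1 : P) ∈ RingHom.ker (p j) := by
    rw [h1]
    trivial
  rw [RingHom.mem_ker, map_one] at h2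
  exact one_ne_zero h2

/-- Different points give different sections. -/
theorem sec_inj {I K : Type} [Fintype I] [CommRing K] {P : Subalgebra K (KK I K)} (z : Pole P)
    {p q : P →ₐ[K] K} (hpq : spMap (p : P →+* K) ≫ (kDuo z).in1 =
      spMap (q : P →+* K) ≫ (kDuo z).in1) : p = q := by
  have h1 : spMap (p : P →+* K) = spMap (q : P →+* K) := (cancel_mono (kDuo z).in1).1 hpq
  have h2 := Spec.map_injective h1
  have h3 : (p : P →+* K) = (q : P →+* K) := by
    have := congrArg CommRingCat.Hom.hom h2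
    exact this
  exact AlgHom.ext fun f => DFunLike.congr_fun h3 f

/-- The curve is smooth of relative dimension one. -/
theorem xfam_smooth {g : ℕ} (h : XIn) {I K : Type} [Fintype I] [Nonempty I] [Field K] [IsAlgClosed K]
    {P : Subalgebra K (KK I K)} (hP : IsKr g P) (hS : TypeS P) (z : Pole P)
    (hst : IsStable g (xfam z (nop P))) : SmoothOfRelativeDimension 1 (xfam z (nop P)).π := by
  have := h.ksx (nop P) hP hS.1 z
  exact SmNod.smoothOfRelativeDimension_one _ (CST.stableCurve hst).nodal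

/-- The curve has infinitely many points. -/
theorem xfam_inf {g : ℕ} (h : XIn) {I K : Type} [Fintype I] [Nonempty I] [Field K] [IsAlgClosed K]
    {P : Subalgebra K (KK I K)} (hP : IsKr g P) (hS : TypeS P) (z : Pole P) :
    {s : Sp K ⟶ (xfam z (nop P)).X | s ≫ (xfam z (nop P)).π = 𝟙 (Sp K)}.Infinite := by
  intro hf
  obtain ⟨p, hp⟩ := h.gnm hP hS (hf.toFinset.card + 1)
  have h0 : ∀ i, ((xfam z p).σ i : Sp K ⟶ (xfam z (nop P)).X) ∈ hf.toFinset := fun i =>
    hf.mem_toFinset.2 ((xfam z p).sec i)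
  have h1 := Finset.card_le_card_of_injOn (s := Finset.univ) (t := hf.toFinset)
    (fun i => ((xfam z p).σ i : Sp K ⟶ (xfam z (nop P)).X)) (fun i _ => h0 i)
    (fun i _ j _ hij => marks_inj hp (sec_inj z hij))
  rw [Finset.card_univ, Fintype.card_fin] at h1
  omega

section

variable {g n : ℕ} (h : XIn) (hg : 3 ≤ g) (F : Reg g n)

include h hg

theorem ev0_ex {I A : Type} [Fintype I] [Nonempty I] [CommRing A] [Algebra ℂ A]
    {P : Subalgebra A (KK I A)} (p : Fin n → (P →ₐ[A] A)) (hP : G0.Good g P) (hp : Marks P p) :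
    ∃ v : A, ∀ (z : Pole P) (hst : IsStable g (xfam z p)), F.F A (xfam z p) hst 0 = v := by
  have hK : KS g P p := h.gks p hg hP hp
  obtain ⟨z₀⟩ := (h.ple hP.1).1
  have hs₀ := h.kst hK z₀
  refine ⟨F.F A _ hs₀ 0, fun z hst => ?_⟩
  obtain ⟨a, -⟩ := xar' h.xar (p' := p) (RingHom.id A) hP.1 (h.kbc.2.2.1 P) (fun i f f' hf => by
    have e : f' = f := by
      refine Subtype.ext (hf.trans ?_)
      funext k
      ext m
      rfl
    rw [e]
    rfl) z₀ z
  exact F.nat A A (AlgHom.id ℂ A) _ _ hs₀ hst a 0 0 (compat_zero a)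

open Classical in
/-- The value of the function. -/
noncomputable def ev0V : Ev0Fun n := fun _ I _ _ _ P p =>
  if hP : Nonempty I ∧ G0.Good g P ∧ Marks P p then
    (have := hP.1; ev0_ex h hg F p hP.2.1 hP.2.2).choose
  else 0

theorem ev0V_spec {A I : Type} [CommRing A] [Algebra ℂ A] [Fintype I] [Nonempty I]
    {P : Subalgebra A (KK I A)} (p : Fin n → (P →ₐ[A] A)) (hP : G0.Good g P) (hp : Marks P p)
    (z : Pole P) (hst : IsStable g (xfam z p)) :
    ev0V h hg F A I P p = F.F A (xfam z p) hst 0 := by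
  rw [ev0V, dif_pos ⟨inferInstance, hP, hp⟩]
  exact ((ev0_ex h hg F p hP hp).choose_spec z hst).symm

/-- The function on Krichever rings with marked points given by a regular function on
`T^*M̄_{g,n}`, at the zero covector. -/
noncomputable def ev0 : Ev0 g n where
  Φ := ev0V h hg F
  nat := by
    intro A B I _ _ _ _ _ _ φ P p p' hP hp hpp
    have hP' := good_bc h hP (φ : A →+* B)
    have hb : BcP (φ : A →+* B) p p' := fun i f f' hf => by
      have e : f' = bcMap (φ : A →+* B) P f := Subtype.ext hf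
      rw [e]
      exact hpp i f
    have hp' := h.kbp.2 hP.1 (φ : A →+* B) p p' hb hp
    obtain ⟨z⟩ := (h.ple hP.1).1
    obtain ⟨z'⟩ := (h.ple hP'.1).1
    obtain ⟨a, -⟩ := h.xar (φ : A →+* B) hP.1 hb z z'
    rw [ev0V_spec h hg F p hP hp z (h.kst (h.gks p hg hP hp) z),
      ev0V_spec h hg F p' hP' hp' z' (h.kst (h.gks p' hg hP' hp') z')]
    exact F.nat A B φ _ _ _ _ a 0 0 (compat_zero a)
  aut := by
    intro A I _ _ _ _ α hα P p p' hP hp hP' hp' hpp
    obtain ⟨z⟩ := (h.ple hP.1).1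
    obtain ⟨z'⟩ := (h.ple hP'.1).1
    obtain ⟨a, -⟩ := h.xau α hP.1 (hα 0) hpp z z'
    rw [ev0V_spec h hg F p hP hp z (h.kst (h.gks p hg hP hp) z),
      ev0V_spec h hg F p' hP' hp' z' (h.kst (h.gks p' hg hP' hp') z')]
    exact F.nat A A (AlgHom.id ℂ A) _ _ _ _ a 0 0 (compat_zero a)
  forget := by
    intro A I _ _ _ _ W q p hW hP hq hp hD hqp
    obtain ⟨z⟩ := (h.ple hW.1).1
    obtain ⟨z'⟩ := (h.ple hP.1).1
    obtain ⟨a, -⟩ := h.xfg hW.1 hP.1 (h.win hW hD) (fun i f w h1 h2 => hqp i f w h1 (h2 ()))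
      z z'
    rw [ev0V_spec h hg F q hW hq z (h.kst (h.gks q hg hW hq) z),
      ev0V_spec h hg F p hP hp z' (h.kst (h.gks p hg hP hp) z')]
    exact (F.nat A A (AlgHom.id ℂ A) _ _ _ _ a 0 0 (compat_zero a)).symm
  pos := by
    intro K I _ _ _ _ _ P p p' hP hS hp hp'
    have hG := good_S h hP hS
    obtain ⟨z⟩ := (h.ple hP).1
    have hK0 : KS g P (nop P) := h.gks (nop P) hg hG (marks_nop P)
    have hst := h.kst hK0 z
    have h1 := h.kst (h.gks p hg hG hp) z
    have h2 := h.kst (h.gks p' hg hG hp') z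
    rw [ev0V_spec h hg F p hG hp z h1, ev0V_spec h hg F p' hG hp' z h2]
    exact h.nma g (by omega) F (xfam z (nop P)) hst (xfam_smooth h hP hS z hst)
      (xfam_inf h hP hS z) (fun i => (xfam z p).σ i) (fun i => (xfam z p').σ i)
      (fun i => (xfam z p).sec i) (fun i => (xfam z p').sec i)
      (fun i j hij => marks_inj hp (sec_inj z hij))
      (fun i j hij => marks_inj hp' (sec_inj z hij)) h1 h2

end

end Pool.Agent.MG.KX
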