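import Pool.Agent.MG.KX.StmtsK
import Pool.Agent.MG.G0.KNZ

/-!
# DEN: density of `P[1/z]` in the Laurent series
-/

open CategoryTheory CategoryTheory.Limits AlgebraicGeometry TensorProduct

namespace Pool.Agent.MG.KX

open Pool.Agent.MG.G0 Pool.Agent.MG.GLU

namespace DEN

variable {I A : Type} [Fintype I] [CommRing A] {g : ℕ} {P : Subalgebra A (KK I A)}

theorem dense (hP : IsKr g P) (z : Pole P) (f : KK I A) (M : ℤ) :
    ∃ r ∈ Rz P z.z, f - r ∈ Pol I A (-M) := by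
  obtain ⟨N, hN⟩ := (t_KNZ hP).1
  set k : ℕ := N + M.toNat with hk
  obtain ⟨p, hp, hq⟩ := hN ((z.z : KK I A) ^ k * f)
  have h1 : (z.z : KK I A) ^ k * z.w ^ k = 1 := by rw [← mul_pow, z.zw, one_pow]
  refine ⟨z.w ^ k * p, ⟨k, ?_⟩, ?_⟩
  · rw [← mul_assoc, h1, one_mul]
    exact hp
  · have h2 : f - z.w ^ k * p = z.w ^ k * ((z.z : KK I A) ^ k * f - p) := by
      rw [mul_sub, ← mul_assoc, mul_comm (z.w ^ k) ((z.z : KK I A) ^ k), h1, one_mul]
    rw [h2]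
    exact Pol_mono (by push_cast [hk]; omega) (mul_mem_Pol (z.pow_mem k) hq)

theorem dense0 (hP : IsKr g P) (z : Pole P) (f : KK I A) (hf : f ∈ Pol I A 0) (M : ℤ) :
    ∃ r ∈ Rw P z.z, f - r ∈ Pol I A (-M) := by
  obtain ⟨r, hr, h⟩ := dense hP z f (max M 0)
  refine ⟨r, ⟨hr, ?_⟩, Pol_mono (by omega) h⟩
  have h1 : r = f - (f - r) := by abel
  have h2 : f - (f - r) ∈ Pol I A 0 := Submodule.sub_mem _ hf (Pol_mono (by omega) h)
  rw [← h1] at h2
  exact h2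

end DEN

/-- DEN -/
theorem t_DEN : Stmt_DEN := by
  intro I A _ _ g P hP z
  refine ⟨DEN.dense hP z, DEN.dense0 hP z, fun f M => ?_⟩
  have hf : (fun i => psl A (f i)) ∈ Pol I A 0 := fun i m hm =>
    psl_coeff_neg (f i) m (by omega)
  obtain ⟨r, hr, h⟩ := DEN.dense0 hP z (fun i => psl A (f i)) hf M
  refine ⟨⟨r, hr⟩, fun i m hm => ?_⟩
  have h1 : ((fun i => psl A (f i)) i - r i).coeff (m : ℤ) = 0 := h i m (by omega)
  rw [HahnSeries.coeff_sub, psl_coeff, sub_eq_zero] at h1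
  rw [h1]
  change PowerSeries.coeff m (tops A (r i)) = (r i).coeff (m : ℤ)
  rw [tops, PowerSeries.coeff_mk]

end Pool.Agent.MG.KX
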