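import Pool.Agent.MG.KX.StmtsD
import Pool.Agent.MG.WL.Tools
import Pool.Agent.MG.G0.StmtsS
import Pool.Agent.MG.G0.DefsX

/-!
# The curve of a Krichever ring

`kDuo z`: the duo `Spec P ∪ Spec P'`, `P' = P[1/z] ∩ O`. `xfam z p`: the curve with the marked points
`p`. `xsh z i`: the formal coordinate at the puncture `i`.
-/

open CategoryTheory CategoryTheory.Limits AlgebraicGeometry TensorProduct

namespace Pool.Agent.MG.KX

open Pool.Agent.MG.G0 Pool.Agent.MG.GLU

section

variable {I : Type} {A B : Type} [CommRing A] [CommRing B]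

/-! ## Rings -/

/-- The series without poles. -/
noncomputable def OO (I A : Type) [CommRing A] : Subalgebra A (KK I A) where
  carrier := {f | f ∈ Pol I A 0}
  mul_mem' hf hg := mul_mem_Pol0 hf hg
  add_mem' hf hg := (Pol I A 0).add_mem hf hg
  algebraMap_mem' a := algebraMap_mem_Pol0 a

theorem mem_OO {f : KK I A} : f ∈ OO I A ↔ f ∈ Pol I A 0 := Iff.rfl

/-- `P[1/z]`. -/
noncomputable def Rz (P : Subalgebra A (KK I A)) (z : P) : Subalgebra A (KK I A) where
  carrier := {f | ∃ n : ℕ, (z : KK I A) ^ n * f ∈ P}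
  mul_mem' := by
    rintro f g ⟨n, hn⟩ ⟨m, hm⟩
    refine ⟨n + m, ?_⟩
    have e : (z : KK I A) ^ (n + m) * (f * g) = ((z : KK I A) ^ n * f) * ((z : KK I A) ^ m * g) := by
      ring
    rw [e]
    exact mul_mem hn hm
  add_mem' := by
    rintro f g ⟨n, hn⟩ ⟨m, hm⟩
    refine ⟨n + m, ?_⟩
    have e : (z : KK I A) ^ (n + m) * (f + g) = (z : KK I A) ^ m * ((z : KK I A) ^ n * f) +
      (z : KK I A) ^ n * ((z : KK I A) ^ m * g) := by
      ring
    rw [e]
    exact add_mem (mul_mem (pow_mem z.2 m) hn) (mul_mem (pow_mem z.2 n) hm)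
  algebraMap_mem' a := ⟨0, by
    rw [pow_zero, one_mul]
    exact P.algebraMap_mem a⟩

theorem mem_Rz {P : Subalgebra A (KK I A)} {z : P} {f : KK I A} :
    f ∈ Rz P z ↔ ∃ n : ℕ, (z : KK I A) ^ n * f ∈ P := Iff.rfl

theorem le_Rz (P : Subalgebra A (KK I A)) (z : P) : P ≤ Rz P z := fun f hf => ⟨0, by
  rwa [pow_zero, one_mul]⟩

/-- `P[1/z] ∩ O`. -/
noncomputable def Rw (P : Subalgebra A (KK I A)) (z : P) : Subalgebra A (KK I A) := Rz P z ⊓ OO I A

/-- An element of `P` with `z = τ^(-d) + ...` at all punctures, and its inverse. -/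
structure Pole (P : Subalgebra A (KK I A)) where
  /-- the element -/
  z : P
  /-- the order of its poles -/
  d : ℕ
  pos : 1 ≤ d
  mon : Mon d (z : KK I A)
  /-- the inverse -/
  w : KK I A
  zw : (z : KK I A) * w = 1
  mem : w ∈ Pol I A (-d)

theorem Pole.mem_Rw {P : Subalgebra A (KK I A)} (z : Pole P) : z.w ∈ Rw P z.z :=
  ⟨⟨1, by rw [pow_one, z.zw]; exact one_mem P⟩,
    Pol_mono (show -(z.d : ℤ) ≤ 0 by omega) z.mem⟩

theorem Pole.pow_mem {P : Subalgebra A (KK I A)} (z : Pole P) (m : ℕ) :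
    z.w ^ m ∈ Pol I A (-(m : ℤ)) := by
  induction m with
  | zero =>
    rw [pow_zero, Nat.cast_zero, neg_zero]
    exact one_mem_Pol0
  | succ m ih =>
    have h := mul_mem_Pol ih z.mem
    rw [← pow_succ] at h
    have := z.pos
    exact Pol_mono (by push_cast; omega) h

theorem Pole.lift_mem [Finite I] {P : Subalgebra A (KK I A)} (z : Pole P) {s : KK I A}
    (hs : s ∈ Rz P z.z) : ∃ n : ℕ, z.w ^ n * s ∈ Rw P z.z := by
  obtain ⟨k, hk⟩ := exists_Pol s
  obtain ⟨n, hn⟩ := hs
  refine ⟨k, ⟨n + k, ?_⟩, ?_⟩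
  · have e : (z.z : KK I A) ^ (n + k) * (z.w ^ k * s) =
        ((z.z : KK I A) * z.w) ^ k * ((z.z : KK I A) ^ n * s) := by
      rw [mul_pow]
      ring
    rw [e, z.zw, one_pow, one_mul]
    exact hn
  · have h := mul_mem_Pol (z.pow_mem k) hk
    rw [neg_add_cancel] at h
    exact h

/-- The duo of a Krichever ring. -/
noncomputable def kDuo [Finite I] {P : Subalgebra A (KK I A)} (z : Pole P) : Duo A where
  R1 := P
  R2 := Rw P z.z
  R12 := Rz P z.z
  j1 := Subalgebra.inclusion (le_Rz P z.z)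
  j2 := Subalgebra.inclusion inf_le_left
  z := z.z
  w := ⟨z.w, z.mem_Rw⟩
  zw := Subtype.ext z.zw
  ker1 r h := ⟨0, by
    have h1 : (r : KK I A) = 0 := congrArg Subtype.val h
    rw [pow_zero, one_mul]
    exact Subtype.ext h1⟩
  ker2 r h := ⟨0, by
    have h1 : (r : KK I A) = 0 := congrArg Subtype.val h
    rw [pow_zero, one_mul]
    exact Subtype.ext h1⟩
  sur1 s := by
    obtain ⟨n, hn⟩ := s.2
    exact ⟨n, ⟨_, hn⟩, Subtype.ext rfl⟩
  sur2 s := by
    obtain ⟨n, hn⟩ := z.lift_mem s.2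
    exact ⟨n, ⟨_, hn⟩, Subtype.ext rfl⟩

/-- A Laurent series without pole as a power series. -/
noncomputable def tops (A : Type) [CommRing A] (f : LaurentSeries A) : PowerSeries A :=
  PowerSeries.mk fun m => f.coeff m

theorem psl_coeff (f : PowerSeries A) (m : ℕ) : (psl A f).coeff m = PowerSeries.coeff m f :=
  HahnSeries.ofPowerSeries_apply_coeff f m

theorem psl_coeff_neg (f : PowerSeries A) (m : ℤ) (hm : m < 0) : (psl A f).coeff m = 0 := by
  rw [psl, HahnSeries.ofPowerSeries_apply]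
  refine HahnSeries.embDomain_of_notMem_range ?_
  rintro ⟨n, hn⟩
  have h : ((n : ℕ) : ℤ) = m := hn
  omega

theorem psl_tops {f : LaurentSeries A} (hf : ∀ m < 0, f.coeff m = 0) : psl A (tops A f) = f := by
  ext m
  rcases lt_or_ge m 0 with h | h
  · rw [psl_coeff_neg _ _ h, hf m h]
  · obtain ⟨k, rfl⟩ := Int.eq_ofNat_of_zero_le h
    rw [psl_coeff, tops, PowerSeries.coeff_mk]

theorem psl_inj {f g : PowerSeries A} (h : psl A f = psl A g) : f = g :=
  HahnSeries.ofPowerSeries_injective h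

/-- The expansion at the puncture `i` of the elements without poles. -/
noncomputable def rsh {P : Subalgebra A (KK I A)} (z : P) (i : I) : Rw P z →+* PowerSeries A where
  toFun f := tops A ((f : KK I A) i)
  map_one' := psl_inj (by
    rw [psl_tops (fun m hm => f_one m hm), map_one]
    rfl)
  map_zero' := by
    ext m
    rw [tops, PowerSeries.coeff_mk, map_zero]
    exact HahnSeries.coeff_zero
  map_add' f g := by
    ext m
    rw [tops, tops, tops, map_add, PowerSeries.coeff_mk, PowerSeries.coeff_mk, PowerSeries.coeff_mk]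
    exact HahnSeries.coeff_add
  map_mul' f g := psl_inj (by
    rw [map_mul, psl_tops (fun m hm => f.2.2 i m (by omega)),
      psl_tops (fun m hm => g.2.2 i m (by omega)),
      psl_tops (fun m hm => (f * g).2.2 i m (by omega))]
    rfl)
where
  f_one (m : ℤ) (hm : m < 0) : ((((1 : Rw P z) : KK I A) i)).coeff m = 0 :=
    (1 : Rw P z).2.2 i m (by omega)

theorem psl_rsh {P : Subalgebra A (KK I A)} {z : P} (i : I) (f : Rw P z) :
    psl A (rsh z i f) = (f : KK I A) i := psl_tops fun m hm => f.2.2 i m (by omega)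

/-- The evaluation of the elements of `P` at the puncture `i`. -/
noncomputable def pev (P : Subalgebra A (KK I A)) (i : I) : P →+* LaurentSeries A :=
  (Pi.evalRingHom _ i).comp P.val.toRingHom

@[simp] theorem pev_apply (P : Subalgebra A (KK I A)) (i : I) (f : P) :
    pev P i f = (f : KK I A) i := rfl

/-! ## The curve -/

/-- The curve of a Krichever ring with marked points. -/
noncomputable def xfam [Finite I] {P : Subalgebra A (KK I A)} (z : Pole P) {n : ℕ}
    (p : Fin n → (P →ₐ[A] A)) : Fam n A := (kDuo z).fam p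

/-- The chart `Spec P` of the curve. -/
noncomputable def xin [Finite I] {P : Subalgebra A (KK I A)} (z : Pole P) {n : ℕ}
    (p : Fin n → (P →ₐ[A] A)) : Sp P ⟶ (xfam z p).X := (kDuo z).in1

/-- The second chart of the curve. -/
noncomputable def xin2 [Finite I] {P : Subalgebra A (KK I A)} (z : Pole P) {n : ℕ}
    (p : Fin n → (P →ₐ[A] A)) : Sp (Rw P z.z) ⟶ (xfam z p).X := (kDuo z).in2

instance [Finite I] {P : Subalgebra A (KK I A)} (z : Pole P) {n : ℕ} (p : Fin n → (P →ₐ[A] A)) :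
    IsOpenImmersion (xin z p) := inferInstanceAs (IsOpenImmersion (kDuo z).in1)

instance [Finite I] {P : Subalgebra A (KK I A)} (z : Pole P) {n : ℕ} (p : Fin n → (P →ₐ[A] A)) :
    IsOpenImmersion (xin2 z p) := inferInstanceAs (IsOpenImmersion (kDuo z).in2)

/-- The formal coordinate at the puncture `i`. -/
noncomputable def xsh [Finite I] {P : Subalgebra A (KK I A)} (z : Pole P) {n : ℕ}
    (p : Fin n → (P →ₐ[A] A)) (i : I) : Sp (PowerSeries A) ⟶ (xfam z p).X :=
  spMap (rsh z.z i) ≫ xin2 z p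

/-- `p'` is the base change of the points `p`. -/
def BcP (φ : A →+* B) {P : Subalgebra A (KK I A)} {P' : Subalgebra B (KK I B)} {n : ℕ}
    (p : Fin n → (P →ₐ[A] A)) (p' : Fin n → (P' →ₐ[B] B)) : Prop :=
  ∀ (i : Fin n) (f : P) (f' : P'), (f' : KK I B) = kmap φ (f : KK I A) → p' i f' = φ (p i f)

/-- The homomorphism `P → P'` induced by the coefficientwise map. -/
noncomputable def kres (φ : A →+* B) {P : Subalgebra A (KK I A)} {P' : Subalgebra B (KK I B)}
    (h : ∀ f ∈ P, kmap φ f ∈ P') : P →+* P' where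
  toFun f := ⟨kmap φ f, h f f.2⟩
  map_one' := Subtype.ext (map_one (kmap φ))
  map_zero' := Subtype.ext (map_zero (kmap φ))
  map_add' f g := Subtype.ext (map_add (kmap φ) (f : KK I A) g)
  map_mul' f g := Subtype.ext (map_mul (kmap φ) (f : KK I A) g)

@[simp] theorem kres_val (φ : A →+* B) {P : Subalgebra A (KK I A)} {P' : Subalgebra B (KK I B)}
    (h : ∀ f ∈ P, kmap φ f ∈ P') (f : P) : (kres φ h f : KK I B) = kmap φ f := rfl

/-- The base change of a pole. -/
noncomputable def Pole.bc (φ : A →+* B) {P : Subalgebra A (KK I A)} (z : Pole P) :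
    Pole (G0.bc φ P) where
  z := bcMap φ P z.z
  d := z.d
  pos := z.pos
  mon := ⟨kmap_mem_Pol φ z.mon.1, fun i => by
    change φ (((z.z : KK I A) i).coeff (-(z.d : ℤ))) = 1
    rw [z.mon.2 i, map_one]⟩
  w := kmap φ z.w
  zw := by
    change kmap φ (z.z : KK I A) * kmap φ z.w = 1
    rw [← map_mul, z.zw, map_one]
  mem := kmap_mem_Pol φ z.mem

theorem kmap_mem_Rz (φ : A →+* B) {P : Subalgebra A (KK I A)} (z : Pole P) {f : KK I A}
    (hf : f ∈ Rz P z.z) : kmap φ f ∈ Rz (G0.bc φ P) (z.bc φ).z := by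
  obtain ⟨n, hn⟩ := hf
  refine ⟨n, ?_⟩
  change kmap φ (z.z : KK I A) ^ n * kmap φ f ∈ G0.bc φ P
  rw [← map_pow, ← map_mul]
  exact kmap_mem_bc φ hn

theorem kmap_mem_Rw (φ : A →+* B) {P : Subalgebra A (KK I A)} (z : Pole P) {f : KK I A}
    (hf : f ∈ Rw P z.z) : kmap φ f ∈ Rw (G0.bc φ P) (z.bc φ).z :=
  ⟨kmap_mem_Rz φ z hf.1, kmap_mem_Pol φ hf.2⟩

/-- The base change of the duo of a Krichever ring. -/
noncomputable def kHom [Finite I] (φ : A →+* B) {P : Subalgebra A (KK I A)} (z : Pole P) :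
    Duo.Hom φ (kDuo z) (kDuo (z.bc φ)) where
  f1 := kres φ (P' := G0.bc φ P) (fun _ hf => kmap_mem_bc φ hf)
  f2 := kres φ (P := Rw P z.z) (P' := Rw (G0.bc φ P) (z.bc φ).z) (fun _ hf => kmap_mem_Rw φ z hf)
  f12 := kres φ (P := Rz P z.z) (P' := Rz (G0.bc φ P) (z.bc φ).z)
    (fun _ hf => kmap_mem_Rz φ z hf)
  fa1 a := Subtype.ext (kmap_algebraMap φ a)
  fa2 a := Subtype.ext (kmap_algebraMap φ a)
  fj1 _ := rfl
  fj2 _ := rfl
  fz := rfl
  fw := rfl

/-! ## Stability -/

/-- No infinitesimal automorphisms. -/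
def RigP (P : Subalgebra A (KK I A)) : Prop := ∀ θ ∈ TT P, θ ∈ Pol I A 0 → θ = 0

/-- The Krichever ring of a stable curve. -/
structure KS (g : ℕ) {n : ℕ} (P : Subalgebra A (KK I A)) (p : Fin n → (P →ₐ[A] A)) : Prop where
  kr : IsKr g P
  mks : Marks P p
  fib : ∀ (K : Type) [Field K] [IsAlgClosed K] (φ : A →+* K), IsDomain (bc φ P) ∧
    Nodal (spMap (algebraMap K (bc φ P))) ∧ RigP (bc φ P)

end

end Pool.Agent.MG.KX
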