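import Pool.Agent.MG.KX.StmtsK

/-!
# Krichever models, deformations

`Mod x P p`: the family `x` with marked points is the curve of the Krichever ring `P` with the marked
points `p`: `j` identifies `Spec P` with the complement of the punctures, `sh` is the formal
neighbourhood of the punctures. `Pdel P δ`: the deformation over `A[ε]` with class `δ`.
-/

open CategoryTheory CategoryTheory.Limits AlgebraicGeometry
open scoped TensorProduct

namespace Pool.Agent.MG.KX

open Pool.Agent.MG.G0 Pool.Agent.MG.GLU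

section

variable {I J : Type} {A B : Type} [CommRing A] [CommRing B]

/-! ## Families of power series -/

/-- `∏ A[[τ]] → ∏ A((τ))`. -/
noncomputable def psI (I A : Type) [CommRing A] : (I → PowerSeries A) →+* KK I A :=
  RingHom.pi fun i => (psl A).comp (Pi.evalRingHom _ i)

@[simp] theorem psI_apply (f : I → PowerSeries A) (i : I) : psI I A f i = psl A (f i) := rfl

/-- `∏ A[[τ]] → ∏ A`. -/
noncomputable def ccI (I A : Type) [CommRing A] : (I → PowerSeries A) →+* (I → A) :=
  RingHom.pi fun i => (PowerSeries.constantCoeff (R := A)).comp (Pi.evalRingHom _ i)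

@[simp] theorem ccI_apply (f : I → PowerSeries A) (i : I) :
    ccI I A f i = PowerSeries.constantCoeff (f i) := rfl

/-- The coefficientwise map. -/
noncomputable def psm (I : Type) (φ : A →+* B) : (I → PowerSeries A) →+* (I → PowerSeries B) :=
  RingHom.pi fun i => (PowerSeries.map φ).comp (Pi.evalRingHom _ i)

@[simp] theorem psm_apply (φ : A →+* B) (f : I → PowerSeries A) (i : I) :
    psm I φ f i = PowerSeries.map φ (f i) := rfl

/-- Composition with a map of index sets. -/
noncomputable def idx {R : Type} [CommRing R] {I I' : Type} (e : I' → I) : (I → R) →+* (I' → R) :=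
  RingHom.pi fun i => Pi.evalRingHom _ (e i)

@[simp] theorem idx_apply {R : Type} [CommRing R] {I I' : Type} (e : I' → I) (f : I → R) (i : I') :
    idx e f i = f (e i) := rfl

/-- The expansions at the punctures of the elements of the second chart. -/
noncomputable def rshI {P : Subalgebra A (KK I A)} (z : P) : Rw P z →+* (I → PowerSeries A) :=
  RingHom.pi fun i => rsh z i

@[simp] theorem rshI_apply {P : Subalgebra A (KK I A)} (z : P) (f : Rw P z) (i : I) :
    rshI z f i = rsh z i f := rfl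

/-- The formal neighbourhood of the punctures. -/
noncomputable def xshI [Finite I] {P : Subalgebra A (KK I A)} (z : Pole P) {n : ℕ}
    (p : Fin n → (P →ₐ[A] A)) : Sp (I → PowerSeries A) ⟶ (xfam z p).X :=
  spMap (rshI z.z) ≫ xin2 z p

/-- The homomorphism `P → P'` induced by a homomorphism `F` of Laurent series. -/
noncomputable def rres {I' : Type} (F : KK I A →+* KK I' B) {P : Subalgebra A (KK I A)}
    {P' : Subalgebra B (KK I' B)} (h : ∀ f ∈ P, F f ∈ P') : P →+* P' where
  toFun f := ⟨F f, h f f.2⟩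
  map_one' := Subtype.ext (map_one F)
  map_zero' := Subtype.ext (map_zero F)
  map_add' f g := Subtype.ext (map_add F (f : KK I A) g)
  map_mul' f g := Subtype.ext (map_mul F (f : KK I A) g)

@[simp] theorem rres_val {I' : Type} (F : KK I A →+* KK I' B) {P : Subalgebra A (KK I A)}
    {P' : Subalgebra B (KK I' B)} (h : ∀ f ∈ P, F f ∈ P') (f : P) :
    (rres F h f : KK I' B) = F f := rfl

/-! ## Models -/

/-- `x` is a Krichever model of `P` with the marked points `p`: `j` identifies `Spec P` with the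
complement of the punctures, `sh` is the formal neighbourhood of the punctures, with the
coordinates. -/
structure Mod {n : ℕ} (x : Fam n A) (P : Subalgebra A (KK I A)) (p : Fin n → (P →ₐ[A] A)) where
  /-- the complement of the punctures -/
  j : Sp P ⟶ x.X
  jo : IsOpenImmersion j
  jp : j ≫ x.π = spMap (algebraMap A P)
  /-- the formal neighbourhood of the punctures -/
  sh : Sp (I → PowerSeries A) ⟶ x.X
  shp : sh ≫ x.π = spMap (algebraMap A (I → PowerSeries A))
  cmp : spMap (psI I A) ≫ sh = spMap (P.val : P →+* KK I A) ≫ j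
  cov : ∀ q : x.X, q ∈ Set.range j ∨ q ∈ Set.range (spMap (ccI I A) ≫ sh)
  exc : ∀ q : x.X, q ∈ Set.range j → q ∉ Set.range (spMap (ccI I A) ≫ sh)
  mrk : ∀ i, x.σ i = spMap (p i : P →+* A) ≫ j
  loc : ∃ (V : x.X.Opens) (t : Γ(x.X, V)) (le : ⊤ ≤ sh ⁻¹ᵁ V), IsAffineOpen V ∧
    (x.X.basicOpen t : Set x.X) = Set.range j ∩ V ∧ (∀ v, t * v = 0 → v = 0) ∧
    (∃ u : I → PowerSeries A, IsUnit u ∧ gm sh V le t = (fun _ => PowerSeries.X) * u) ∧
    (∀ v, ccI I A (gm sh V le v) = 0 → ∃ r, v = t * r) ∧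
    ∀ c : I → A, ∃ v, ccI I A (gm sh V le v) = c

/-- The model `M'` of `y` is the base change of the model `M` of `x` along an arrow `y → x` over
`φ`. -/
structure Mod.Over {φ : A →+* B} {n : ℕ} {y : Fam n B} {x : Fam n A} (a : Arrow φ y x)
    {P : Subalgebra A (KK I A)} {p : Fin n → (P →ₐ[A] A)} {P' : Subalgebra B (KK I B)}
    {p' : Fin n → (P' →ₐ[B] B)} (M : Mod x P p) (M' : Mod y P' p') : Prop where
  mem : ∀ f ∈ P, kmap φ f ∈ P'
  j : M'.j ≫ a.f = spMap (rres (kmap φ) mem) ≫ M.j
  sh : M'.sh ≫ a.f = spMap (psm I φ) ≫ M.sh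

/-- The canonical model of the curve of a Krichever ring. -/
structure Mod.Can [Finite I] {P : Subalgebra A (KK I A)} (z : Pole P) {n : ℕ}
    {p : Fin n → (P →ₐ[A] A)} (M : Mod (xfam z p) P p) : Prop where
  j : M.j = xin z p
  sh : M.sh = xshI z p

/-- The model with other coordinates: `α` is an automorphism which respects the pole orders. -/
structure Mod.IsAut (α : KK I A ≃ₐ[A] KK I A) {n : ℕ} {x : Fam n A} {P : Subalgebra A (KK I A)}
    {p : Fin n → (P →ₐ[A] A)} {p' : Fin n → (P.map (α : KK I A →ₐ[A] KK I A) →ₐ[A] A)}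
    (M : Mod x P p) (M' : Mod x (P.map (α : KK I A →ₐ[A] KK I A)) p') : Prop where
  j : M'.j = spMap (rres (α : KK I A →+* KK I A) (P' := P.map (α : KK I A →ₐ[A] KK I A))
    fun f hf => ⟨f, hf, rfl⟩) ≫ M.j
  sh : ∃ ρ : (I → PowerSeries A) →+* (I → PowerSeries A), (∀ f, psI I A (ρ f) = α (psI I A f)) ∧
    M'.sh = spMap ρ ≫ M.sh

theorem idx_mem_reix {I' : Type} (e : I' ≃ I) {P : Subalgebra A (KK I A)} {f : KK I A}
    (hf : f ∈ P) : idx e f ∈ reix e P := by
  change (fun i => f (e (e.symm i))) ∈ P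
  simpa only [Equiv.apply_symm_apply] using hf

/-- The model with another index set. -/
structure Mod.IsReix {I' : Type} (e : I' ≃ I) {n : ℕ} {x : Fam n A} {P : Subalgebra A (KK I A)}
    {p : Fin n → (P →ₐ[A] A)} {p' : Fin n → (reix e P →ₐ[A] A)} (M : Mod x P p)
    (M' : Mod x (reix e P) p') : Prop where
  j : M'.j = spMap (rres (idx e) (P' := reix e P) fun _ hf => idx_mem_reix e hf) ≫ M.j
  sh : M'.sh = spMap (idx e) ≫ M.sh

/-- The model `M` of `W` (punctures `I` and `J`) and the model `M'` of `P` (punctures `I`) of the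
same curve are compatible. -/
structure Mod.Fgt {n : ℕ} {x : Fam n A} {W : Subalgebra A (KK (I ⊕ J) A)}
    {q : Fin n → (W →ₐ[A] A)} {P : Subalgebra A (KK I A)} {p : Fin n → (P →ₐ[A] A)}
    (M : Mod x W q) (M' : Mod x P p) : Prop where
  sh : M'.sh = spMap (idx Sum.inl) ≫ M.sh
  j : ∃ ρ : P →+* W, (∀ (f : P) (i : I), (ρ f : KK (I ⊕ J) A) (Sum.inl i) = (f : KK I A) i) ∧
    (∀ (f : P) (k : J), ∀ m < 0, ((ρ f : KK (I ⊕ J) A) (Sum.inr k)).coeff m = 0) ∧
    M.j = spMap ρ ≫ M'.j

/-! ## First order deformations -/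

/-- The coefficients of `ε`. -/
noncomputable def lsnd (f : LaurentSeries (Eps A)) : LaurentSeries A :=
  f.map ((TrivSqZeroExt.sndHom A A : Eps A →ₗ[A] A) : Eps A →+ A)

@[simp] theorem lsnd_coeff (f : LaurentSeries (Eps A)) (n : ℤ) :
    (lsnd f).coeff n = (f.coeff n).snd := rfl

theorem lsnd_add (f h : LaurentSeries (Eps A)) : lsnd (f + h) = lsnd f + lsnd h := by
  ext n
  simp

/-- `a ↦ a`. -/
noncomputable def epsInl (A : Type) [CommRing A] : A →+* Eps A := TrivSqZeroExt.inlHom A A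

/-- `ε`. -/
def epsE (A : Type) [CommRing A] : Eps A := TrivSqZeroExt.inr 1

/-- `ε` as a constant series. -/
noncomputable def epsL (A : Type) [CommRing A] : LaurentSeries (Eps A) :=
  algebraMap (Eps A) (LaurentSeries (Eps A)) (epsE A)

theorem coeff_epsL_mul (f : LaurentSeries (Eps A)) (n : ℤ) :
    (epsL A * f).coeff n = epsE A * f.coeff n := by
  rw [epsL, ← Algebra.smul_def]
  rfl

theorem epsL_mul_self : epsL A * epsL A = 0 := by
  rw [epsL, ← map_mul, epsE, TrivSqZeroExt.inr_mul_inr, map_zero]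

theorem ls_eq (f : LaurentSeries (Eps A)) :
    f = lmap (epsInl A) (lmap (eps0 A) f) + epsL A * lmap (epsInl A) (lsnd f) := by
  ext n
  · simp [epsInl, epsE, coeff_epsL_mul]
  · simp [epsInl, epsE, coeff_epsL_mul]

theorem lsnd_inl (h k : LaurentSeries A) :
    lsnd (lmap (epsInl A) h + epsL A * lmap (epsInl A) k) = k := by
  ext n
  simp [epsInl, epsE, coeff_epsL_mul]

theorem lsnd_mul (f h : LaurentSeries (Eps A)) :
    lsnd (f * h) = lmap (eps0 A) f * lsnd h + lmap (eps0 A) h * lsnd f := by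
  have e : f * h = lmap (epsInl A) (lmap (eps0 A) f * lmap (eps0 A) h) +
      epsL A * lmap (epsInl A) (lmap (eps0 A) f * lsnd h + lmap (eps0 A) h * lsnd f) := by
    conv_lhs => rw [ls_eq f, ls_eq h]
    rw [map_mul, map_add, map_mul, map_mul]
    linear_combination (lmap (epsInl A) (lsnd f) * lmap (epsInl A) (lsnd h)) * epsL_mul_self (A := A)
  rw [e, lsnd_inl]

/-- The coefficients of `ε`. -/
noncomputable def ksnd (f : KK I (Eps A)) : KK I A := fun i => lsnd (f i)

@[simp] theorem ksnd_apply (f : KK I (Eps A)) (i : I) : ksnd f i = lsnd (f i) := rfl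

theorem ksnd_add (f h : KK I (Eps A)) : ksnd (f + h) = ksnd f + ksnd h :=
  funext fun i => lsnd_add (f i) (h i)

theorem ksnd_mul (f h : KK I (Eps A)) :
    ksnd (f * h) = kmap (eps0 A) f * ksnd h + kmap (eps0 A) h * ksnd f :=
  funext fun i => lsnd_mul (f i) (h i)

theorem ksnd_algebraMap (c : Eps A) :
    ksnd (algebraMap (Eps A) (KK I (Eps A)) c) = algebraMap A (KK I A) c.snd := by
  funext i
  ext n
  simp only [ksnd_apply, lsnd_coeff, Pi.algebraMap_apply, coeff_algebraMap]
  split_ifs <;> simp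

theorem mk_zero {P : Subalgebra A (KK I A)} {f : KK I A} : mk P f = 0 ↔ f ∈ P := by
  rw [← map_zero (mk P), mk_eq, sub_zero]

/-- The deformation of `P` over `A[ε]` with class `δ`. -/
noncomputable def Pdel (P : Subalgebra A (KK I A)) (δ : DD P) :
    Subalgebra (Eps A) (KK I (Eps A)) where
  carrier := {f | ∃ h : kmap (eps0 A) f ∈ P, δ ⟨kmap (eps0 A) f, h⟩ = mk P (ksnd f)}
  mul_mem' := by
    rintro f h ⟨hf, df⟩ ⟨hh, dh⟩
    have hm : kmap (eps0 A) (f * h) ∈ P := by
      rw [map_mul]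
      exact mul_mem hf hh
    refine ⟨hm, ?_⟩
    have e : (⟨kmap (eps0 A) (f * h), hm⟩ : P) =
        ⟨kmap (eps0 A) f, hf⟩ * ⟨kmap (eps0 A) h, hh⟩ := Subtype.ext (map_mul _ _ _)
    rw [e, Derivation.leibniz, df, dh, ← map_smul, ← map_smul, ← map_add, ksnd_mul]
    rfl
  add_mem' := by
    rintro f h ⟨hf, df⟩ ⟨hh, dh⟩
    have hm : kmap (eps0 A) (f + h) ∈ P := by
      rw [map_add]
      exact add_mem hf hh
    refine ⟨hm, ?_⟩
    have e : (⟨kmap (eps0 A) (f + h), hm⟩ : P) =
        ⟨kmap (eps0 A) f, hf⟩ + ⟨kmap (eps0 A) h, hh⟩ := Subtype.ext (map_add _ _ _)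
    rw [e, map_add, df, dh, ksnd_add, map_add]
  algebraMap_mem' c := by
    have hm : kmap (eps0 A) (algebraMap (Eps A) (KK I (Eps A)) c) ∈ P := by
      rw [kmap_algebraMap]
      exact P.algebraMap_mem _
    refine ⟨hm, ?_⟩
    have e : (⟨kmap (eps0 A) (algebraMap (Eps A) (KK I (Eps A)) c), hm⟩ : P) =
        algebraMap A P c.fst := Subtype.ext (kmap_algebraMap _ _)
    rw [e, Derivation.map_algebraMap, ksnd_algebraMap]
    exact (mk_zero.2 (P.algebraMap_mem _)).symm

theorem mem_Pdel {P : Subalgebra A (KK I A)} {δ : DD P} {f : KK I (Eps A)} :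
    f ∈ Pdel P δ ↔ ∃ h : kmap (eps0 A) f ∈ P, δ ⟨kmap (eps0 A) f, h⟩ = mk P (ksnd f) := Iff.rfl

/-- No marked points. -/
abbrev nop {R : Type} [CommRing R] (P : Subalgebra R (KK I R)) : Fin 0 → (P →ₐ[R] R) := Fin.elim0

/-- `l` is the covector of the curve of `P` with the functional `L`. -/
def IsKC [Finite I] {g : ℕ} {P : Subalgebra A (KK I A)} (z : Pole P) (L : CovL P)
    (l : Cov g (xfam z (nop P))) : Prop :=
  ∀ (M : Mod (xfam z (nop P)) P (nop P)), M.Can z → ∀ (d : Defo g (xfam z (nop P))) (δ : DD P)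
    (M' : Mod d.y (Pdel P δ) (nop (Pdel P δ))), M'.Over d.r M → l.l d = L.1 δ

end

end Pool.Agent.MG.KX
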