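import Pool.Agent.MG.Top
import Pool.Agent.MG.Glue2

/-!
# Schemes with two affine charts

A duo over `A` consists of `A`-algebras `R1`, `R2`, `R12` where `R12` is the localisation of `R1` at
`z` and the localisation of `R2` at `w`, and `z w = 1` in `R12`.
-/

open CategoryTheory CategoryTheory.Limits AlgebraicGeometry TensorProduct

namespace Pool.Agent.MG.KX

/-- Two affine charts. -/
structure Duo (A : Type) [CommRing A] where
  /-- the ring of the first chart -/
  R1 : Type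
  /-- the ring of the second chart -/
  R2 : Type
  /-- the ring of the intersection -/
  R12 : Type
  [c1 : CommRing R1]
  [c2 : CommRing R2]
  [c12 : CommRing R12]
  [a1 : Algebra A R1]
  [a2 : Algebra A R2]
  [a12 : Algebra A R12]
  /-- restriction -/
  j1 : R1 →ₐ[A] R12
  /-- restriction -/
  j2 : R2 →ₐ[A] R12
  /-- the equation of the complement of the intersection in the first chart -/
  z : R1
  /-- the equation of the complement of the intersection in the second chart -/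
  w : R2
  zw : j1 z * j2 w = 1
  ker1 : ∀ r, j1 r = 0 → ∃ n : ℕ, z ^ n * r = 0
  ker2 : ∀ r, j2 r = 0 → ∃ n : ℕ, w ^ n * r = 0
  sur1 : ∀ s, ∃ (n : ℕ) (r : R1), j1 z ^ n * s = j1 r
  sur2 : ∀ s, ∃ (n : ℕ) (r : R2), j2 w ^ n * s = j2 r

attribute [instance] Duo.c1 Duo.c2 Duo.c12 Duo.a1 Duo.a2 Duo.a12

section

variable {A : Type} [CommRing A] (D : Duo A)

/-- A localisation criterion. -/
theorem away_of {R S : Type} [CommRing R] [CommRing S] (j : R →+* S) (z : R) (h1 : IsUnit (j z))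
    (h2 : ∀ r, j r = 0 → ∃ n : ℕ, z ^ n * r = 0)
    (h3 : ∀ s, ∃ (n : ℕ) (r : R), j z ^ n * s = j r) :
    letI := j.toAlgebra
    IsLocalization.Away z S := by
  let _ := j.toAlgebra
  refine ⟨?_, ?_, ?_⟩
  · rintro ⟨_, n, rfl⟩
    change IsUnit (j (z ^ n))
    rw [map_pow]
    exact h1.pow n
  · intro s
    obtain ⟨n, r, hr⟩ := h3 s
    refine ⟨⟨r, ⟨z ^ n, n, rfl⟩⟩, ?_⟩
    change s * j (z ^ n) = j r
    rw [← hr, map_pow, mul_comm]
  · intro x y hxy
    have h4 : j (x - y) = 0 := by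
      rw [map_sub, sub_eq_zero]
      exact hxy
    obtain ⟨n, hn⟩ := h2 _ h4
    refine ⟨⟨z ^ n, n, rfl⟩, ?_⟩
    rw [mul_sub, sub_eq_zero] at hn
    exact hn

/-- A localisation gives an open immersion. -/
theorem open_of {R S : Type} [CommRing R] [CommRing S] (j : R →+* S) (z : R) (h1 : IsUnit (j z))
    (h2 : ∀ r, j r = 0 → ∃ n : ℕ, z ^ n * r = 0)
    (h3 : ∀ s, ∃ (n : ℕ) (r : R), j z ^ n * s = j r) : IsOpenImmersion (spMap j) := by
  let _ := j.toAlgebra
  have := away_of j z h1 h2 h3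
  exact IsOpenImmersion.of_isLocalization (S := S) z

theorem Duo.unit1 : IsUnit (D.j1 D.z) := IsUnit.of_mul_eq_one _ D.zw

theorem Duo.unit2 : IsUnit (D.j2 D.w) := IsUnit.of_mul_eq_one _ ((mul_comm _ _).trans D.zw)

instance Duo.open1 : IsOpenImmersion (spMap (D.j1 : D.R1 →+* D.R12)) :=
  open_of _ D.z D.unit1 D.ker1 D.sur1

instance Duo.open2 : IsOpenImmersion (spMap (D.j2 : D.R2 →+* D.R12)) :=
  open_of _ D.w D.unit2 D.ker2 D.sur2

/-- The glued scheme. -/
noncomputable def Duo.X : Scheme.{0} :=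
  pushout (spMap (D.j1 : D.R1 →+* D.R12)) (spMap (D.j2 : D.R2 →+* D.R12))

/-- The first chart. -/
noncomputable def Duo.in1 : Sp D.R1 ⟶ D.X := pushout.inl _ _

/-- The second chart. -/
noncomputable def Duo.in2 : Sp D.R2 ⟶ D.X := pushout.inr _ _

instance : IsOpenImmersion D.in1 :=
  inferInstanceAs (IsOpenImmersion (pushout.inl (spMap (D.j1 : D.R1 →+* D.R12))
    (spMap (D.j2 : D.R2 →+* D.R12))))

instance : IsOpenImmersion D.in2 :=
  inferInstanceAs (IsOpenImmersion (pushout.inr (spMap (D.j1 : D.R1 →+* D.R12))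
    (spMap (D.j2 : D.R2 →+* D.R12))))

@[reassoc]
theorem Duo.cond : spMap (D.j1 : D.R1 →+* D.R12) ≫ D.in1 =
    spMap (D.j2 : D.R2 →+* D.R12) ≫ D.in2 := pushout.condition

theorem Duo.cov (x : D.X) : x ∈ Set.range D.in1 ∨ x ∈ Set.range D.in2 :=
  glue2_surj (spMap (D.j1 : D.R1 →+* D.R12)) (spMap (D.j2 : D.R2 →+* D.R12)) x

theorem Duo.meet (x : Sp D.R1) (y : Sp D.R2) (h : D.in1 x = D.in2 y) :
    ∃ p : Sp D.R12, spMap (D.j1 : D.R1 →+* D.R12) p = x ∧
      spMap (D.j2 : D.R2 →+* D.R12) p = y :=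
  glue2_eq (spMap (D.j1 : D.R1 →+* D.R12)) (spMap (D.j2 : D.R2 →+* D.R12)) x y h

variable {D} in
theorem Duo.ext {Y : Scheme.{0}} {f g : D.X ⟶ Y} (h1 : D.in1 ≫ f = D.in1 ≫ g)
    (h2 : D.in2 ≫ f = D.in2 ≫ g) : f = g := pushout.hom_ext h1 h2

theorem spMap_comp'' {A B C : Type} [CommRing A] [CommRing B] [CommRing C] (f : A →+* B)
    (g : B →+* C) : spMap g ≫ spMap f = spMap (g.comp f) := by
  change _ = Spec.map (CommRingCat.ofHom (g.comp f))
  rw [CommRingCat.ofHom_comp, Spec.map_comp]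

/-- The projection. -/
noncomputable def Duo.pr : D.X ⟶ Sp A :=
  pushout.desc (spMap (algebraMap A D.R1)) (spMap (algebraMap A D.R2)) (by
    rw [spMap_comp'', spMap_comp'', AlgHom.comp_algebraMap, AlgHom.comp_algebraMap])

@[reassoc (attr := simp)]
theorem Duo.in1_pr : D.in1 ≫ D.pr = spMap (algebraMap A D.R1) := pushout.inl_desc _ _ _

@[reassoc (attr := simp)]
theorem Duo.in2_pr : D.in2 ≫ D.pr = spMap (algebraMap A D.R2) := pushout.inr_desc _ _ _

/-- The family, with sections in the first chart. -/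
noncomputable def Duo.fam {n : ℕ} (s : Fin n → (D.R1 →ₐ[A] A)) : Fam n A where
  X := D.X
  π := D.pr
  σ i := spMap (s i : D.R1 →+* A) ≫ D.in1
  sec i := by
    rw [Category.assoc, D.in1_pr, spMap_comp'', AlgHom.comp_algebraMap]
    exact Spec.map_id _

end

/-- A homomorphism of duos over `φ`. -/
structure Duo.Hom {A B : Type} [CommRing A] [CommRing B] (φ : A →+* B) (D : Duo A)
    (E : Duo B) where
  /-- first chart -/
  f1 : D.R1 →+* E.R1
  /-- second chart -/
  f2 : D.R2 →+* E.R2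
  /-- intersection -/
  f12 : D.R12 →+* E.R12
  fa1 : ∀ a, f1 (algebraMap A D.R1 a) = algebraMap B E.R1 (φ a)
  fa2 : ∀ a, f2 (algebraMap A D.R2 a) = algebraMap B E.R2 (φ a)
  fj1 : ∀ r, f12 (D.j1 r) = E.j1 (f1 r)
  fj2 : ∀ r, f12 (D.j2 r) = E.j2 (f2 r)
  fz : f1 D.z = E.z
  fw : f2 D.w = E.w

section

variable {A B : Type} [CommRing A] [CommRing B] {φ : A →+* B} {D : Duo A} {E : Duo B}
  (h : Duo.Hom φ D E)

/-- The morphism of a homomorphism of duos. -/
noncomputable def Duo.Hom.map : E.X ⟶ D.X :=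
  pushout.desc (spMap h.f1 ≫ D.in1) (spMap h.f2 ≫ D.in2) (by
    have h1 : (E.j1 : E.R1 →+* E.R12).comp h.f1 = h.f12.comp (D.j1 : D.R1 →+* D.R12) :=
      RingHom.ext fun r => (h.fj1 r).symm
    have h2 : (E.j2 : E.R2 →+* E.R12).comp h.f2 = h.f12.comp (D.j2 : D.R2 →+* D.R12) :=
      RingHom.ext fun r => (h.fj2 r).symm
    rw [← Category.assoc, ← Category.assoc, spMap_comp'', spMap_comp'', h1, h2, ← spMap_comp'',
      ← spMap_comp'', Category.assoc, Category.assoc, D.cond])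

@[reassoc]
theorem Duo.Hom.in1_map : E.in1 ≫ h.map = spMap h.f1 ≫ D.in1 := pushout.inl_desc _ _ _

@[reassoc]
theorem Duo.Hom.in2_map : E.in2 ≫ h.map = spMap h.f2 ≫ D.in2 := pushout.inr_desc _ _ _

@[reassoc]
theorem Duo.Hom.map_pr : h.map ≫ D.pr = E.pr ≫ spMap φ := by
  refine Duo.ext ?_ ?_
  · rw [h.in1_map_assoc, D.in1_pr, E.in1_pr_assoc, spMap_comp'', spMap_comp'']
    exact congrArg (fun f => spMap f) (RingHom.ext h.fa1)
  · rw [h.in2_map_assoc, D.in2_pr, E.in2_pr_assoc, spMap_comp'', spMap_comp'']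
    exact congrArg (fun f => spMap f) (RingHom.ext h.fa2)

end

end Pool.Agent.MG.KX
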