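import Pool.Agent.MG.KX.StmtsC
import Pool.Agent.MG.KX.PDI

/-!
# GNX: the curve of a generic Krichever ring is generic

A deformation over `K[ε]` has a model with a ring `Pdel P δ`. If `δ` is the class of a derivation
`D` of `K` and of a change of the coordinates `1 + ε θ d/dτ`, then after this change the ring is the
base change of `P` by `a ↦ a + D(a) ε`.
-/

open CategoryTheory CategoryTheory.Limits AlgebraicGeometry
open scoped TensorProduct

namespace Pool.Agent.MG.KX

open Pool.Agent.MG.G0 Pool.Agent.MG.GLU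

namespace GNXm

open PDTm PDIm

section

variable {n : ℕ} {A : Type} [CommRing A]

theorem spMap_inj {B C : Type} [CommRing B] [CommRing C] {φ ψ : B →+* C}
    (h : spMap φ = spMap ψ) : φ = ψ :=
  congrArg CommRingCat.Hom.hom (Spec.map_injective h)

theorem spMap_one {φ : A →+* A} (h : φ = RingHom.id A) : spMap φ = 𝟙 (Sp A) := by
  subst h
  exact Spec.map_id _

/-- The identity as an arrow. -/
noncomputable def idA {φ : A →+* A} (h : φ = RingHom.id A) (x : Fam n A) : Arrow φ x x where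
  f := 𝟙 _
  cart := by
    have hi : IsIso (spMap φ) := by
      rw [spMap_one h]
      infer_instance
    exact IsPullback.of_horiz_isIso ⟨by rw [spMap_one h, Category.comp_id, Category.id_comp]⟩
  sec i := by rw [spMap_one h, Category.comp_id, Category.id_comp]

theorem isoA {C y : Fam n A} (a : Arrow (RingHom.id A) y C) : IsIso a.f := by
  have h : IsIso (spMap (RingHom.id A)) := by
    rw [spMap_one rfl]
    infer_instance
  exact a.cart.isIso_fst_of_isIso

/-- The inverse of an arrow over the identity. -/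
theorem invA {C y : Fam n A} (a : Arrow (RingHom.id A) y C) :
    ∃ b : Arrow (RingHom.id A) C y, b.f ≫ a.f = 𝟙 _ := by
  have hi := isoA a
  have h0 : spMap (RingHom.id A) = 𝟙 (Sp A) := spMap_one rfl
  refine ⟨{ f := inv a.f, cart := ?_, sec := ?_ }, IsIso.inv_hom_id a.f⟩
  · rw [h0]
    refine IsPullback.of_horiz_isIso ⟨?_⟩
    have hw := a.cart.w
    rw [h0, Category.comp_id] at hw
    rw [Category.comp_id, IsIso.inv_comp_eq]
    exact hw.symm
  · intro i
    have hs := a.sec i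
    rw [h0, Category.id_comp] at hs ⊢
    rw [← hs, Category.assoc, IsIso.hom_inv_id, Category.comp_id]

theorem kmap_one {I : Type} {φ : A →+* A} (h : φ = RingHom.id A) (f : KK I A) :
    kmap φ f = f := by
  subst h
  rfl

/-- A model lies over itself. -/
theorem over_id {I : Type} {P : Subalgebra A (KK I A)} {p : Fin n → (P →ₐ[A] A)} {x : Fam n A}
    {φ : A →+* A} (h : φ = RingHom.id A) (M : Mod x P p) : M.Over (idA h x) M := by
  have hm : ∀ f ∈ P, kmap φ f ∈ P := fun f hf => by rwa [kmap_one h]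
  have e1 : rres (kmap φ) hm = RingHom.id P := by
    refine RingHom.ext fun f => Subtype.ext ?_
    exact kmap_one h _
  have e2 : psm I φ = RingHom.id _ := by
    subst h
    refine RingHom.ext fun f => funext fun i => ?_
    change PowerSeries.map (RingHom.id A) (f i) = f i
    rw [PowerSeries.map_id]
    rfl
  refine ⟨hm, ?_, ?_⟩
  · rw [e1, spMap_one rfl, Category.id_comp]
    exact Category.comp_id _
  · rw [e2, spMap_one rfl, Category.id_comp]
    exact Category.comp_id _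

end

section

variable {K : Type} [Field K] [Algebra ℂ K]

theorem fst_epsDer (D : Derivation ℂ K K) (a : K) : (Std.epsDer D a).fst = a := by
  simp [Std.epsDer]

theorem snd_epsDer (D : Derivation ℂ K K) (a : K) : (Std.epsDer D a).snd = D a := by
  simp [Std.epsDer]

theorem fst_comp_epsDer (D : Derivation ℂ K K) :
    (eps0 K).comp (Std.epsDer D) = RingHom.id K := RingHom.ext fun a => fst_epsDer D a

variable {I : Type}

theorem kmap_epsDer (D : Derivation ℂ K K) (f : KK I K) :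
    kmap (eps0 K) (kmap (Std.epsDer D) f) = f := by
  funext i
  ext m
  exact fst_epsDer D _

theorem ksnd_epsDer (D : Derivation ℂ K K) (f : KK I K) :
    ksnd (kmap (Std.epsDer D) f) = kadd (D : K →+ K) f := by
  funext i
  ext m
  exact snd_epsDer D _

end

section

variable {I A : Type} [CommRing A]

theorem mem_ae [Fintype I] {θ : KK I A} (P : Subalgebra A (KK I A)) (δ : DD P)
    (F : KK I (Eps A)) : ae θ F ∈ Pdel P (δ + tder P θ) ↔ F ∈ Pdel P δ := by
  rw [mem_Pdel, mem_Pdel]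
  simp only [kmap_ae, ksnd_ae]
  refine exists_congr fun h => ?_
  rw [Derivation.add_apply, tder_apply, map_add, add_left_inj]

theorem polAut_ae [Fintype I] {θ : KK I A} (hθ : θ ∈ Pol I A 0) : PolAut (ae θ).symm := by
  intro f
  have h : ∀ f : KK I (Eps A), ae θ f ∈ Pol I (Eps A) 0 ↔ f ∈ Pol I (Eps A) 0 := by
    intro f
    rw [mem_Pol_iff, mem_Pol_iff, kmap_ae, ksnd_ae]
    refine and_congr_right fun h => ?_
    have h1 : θ * dd (kmap (eps0 A) f) ∈ Pol I A 0 := mul_mem_Pol0 hθ (dd_mem_Pol0 h)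
    exact (Pol I A 0).add_mem_iff_left h1
  rw [← h, AlgEquiv.apply_symm_apply]

theorem kmap_ae_symm (θ : KK I A) (f : KK I (Eps A)) :
    kmap (eps0 A) ((ae θ).symm f) = kmap (eps0 A) f := by
  rw [← kmap_ae θ ((ae θ).symm f), AlgEquiv.apply_symm_apply]

theorem map_symm [Fintype I] {θ : KK I A} (P : Subalgebra A (KK I A)) (δ : DD P) :
    (Pdel P (δ + tder P θ)).map
      ((ae θ).symm : KK I (Eps A) →ₐ[Eps A] KK I (Eps A)) = Pdel P δ := by
  ext F
  constructor
  · rintro ⟨G, hG, rfl⟩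
    have h := (mem_ae (θ := θ) P δ ((ae θ).symm G)).1
    rw [AlgEquiv.apply_symm_apply] at h
    exact h hG
  · intro hF
    exact ⟨ae θ F, (mem_ae P δ F).2 hF, (ae θ).symm_apply_apply F⟩

end

end GNXm

open PDTm PDIm GNXm in
theorem t_GNX (hMCA : Stmt_MCA) (hMIS : Stmt_MIS) (_hMTR : Stmt_MTR) (hMOC : Stmt_MOC)
    (hMXT : Stmt_MXT) (hMAU : Stmt_MAU) (hMAI : Stmt_MAI) (hMTH : Stmt_MTH) (hXAR : Stmt_XAR)
    (hKPX : Stmt_KPX) (hPLE : Stmt_PLE) (hPDK : Stmt_PDK) (hPDC : Stmt_PDC) (_hPDI : Stmt_PDI)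
    (hPDD : Stmt_PDD) : Stmt_GNX := by
  intro I K _ _ _ _ g n P p hP hG z d
  obtain ⟨M, hM⟩ := hMCA hP z p
  obtain ⟨Q, q, M0, hQ, hbc, hov0⟩ := hMTH (S := sqEps K) hP M d.thk
  obtain ⟨δ, rfl⟩ := hPDC hP hQ hbc
  obtain ⟨M', hov⟩ : ∃ M' : Mod d.y (Pdel P δ) q, M'.Over d.r M := ⟨M0, hov0⟩
  have hmono : Mono M'.j := by
    have := M'.jo
    infer_instance
  -- the marked points of the deformation reduce to the marked points
  have key : ∀ (i : Fin n) (F : Pdel P δ) (f : P),
      (f : KK I K) = kmap (eps0 K) (F : KK I (Eps K)) → (q i F).fst = p i f := by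
    intro i F f hf
    have e1 : spMap (p i : P →+* K) ≫ spMap (rres (kmap (eps0 K)) hov.mem) =
        spMap (eps0 K) ≫ spMap (q i : Pdel P δ →+* Eps K) := by
      refine (cancel_mono M'.j).1 ?_
      have h1 := hov.j
      have h2 := d.r.sec i
      rw [M'.mrk i, M.mrk i, Category.assoc, h1] at h2
      rw [Category.assoc, Category.assoc]
      exact h2
    rw [spMap_comp'', spMap_comp''] at e1
    have e2 := RingHom.congr_fun (GNXm.spMap_inj e1) F
    have e3 : rres (kmap (eps0 K)) hov.mem F = f := Subtype.ext hf.symm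
    change p i (rres (kmap (eps0 K)) hov.mem F) = (q i F).fst at e2
    rw [← e2, e3]
  obtain ⟨D, θ, hθ, h1, h2⟩ := hG δ q key
  obtain ⟨δ₀, h3, h4⟩ := hPDD hP D
  obtain rfl : δ = δ₀ + tder P θ := by
    ext f
    rw [h1, Derivation.add_apply, h3, tder_apply]
  have hsym := map_symm (θ := θ) P δ₀
  -- the ring after the change of the coordinates
  obtain ⟨Q, hQe⟩ : ∃ Q : Subalgebra (Eps K) (KK I (Eps K)), Q = (Pdel P (δ₀ + tder P θ)).map
      ((ae θ).symm : KK I (Eps K) →ₐ[Eps K] KK I (Eps K)) := ⟨_, rfl⟩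
  have hQ1 : bc (Std.epsDer D) P = Q := by rw [hQe, hsym, h4]
  have hQ2 : IsKr g Q := by
    rw [hQe, hsym]
    exact (hPDK hP δ₀).1
  have hmem0 : ∀ f ∈ Q, ae θ f ∈ Pdel P (δ₀ + tder P θ) := by
    intro f hf
    rw [hQe] at hf
    obtain ⟨G, hG, hGf⟩ := hf
    rw [← hGf]
    change ae θ ((ae θ).symm G) ∈ _
    rw [AlgEquiv.apply_symm_apply]
    exact hG
  have hmem : ∀ f : Q, ae θ (f : KK I (Eps K)) ∈ Pdel P (δ₀ + tder P θ) := fun f => hmem0 _ f.2
  let rQ : Q →ₐ[Eps K] Pdel P (δ₀ + tder P θ) :=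
    (((ae θ : KK I (Eps K) ≃ₐ[Eps K] KK I (Eps K)) : KK I (Eps K) →ₐ[Eps K] KK I (Eps K)).comp
      Q.val).codRestrict _ hmem
  have hrQ : ∀ f : Q, (rQ f : KK I (Eps K)) = ae θ (f : KK I (Eps K)) := fun f => rfl
  -- the marked points
  have hBcP : BcP (Std.epsDer D) p (fun i => (q i).comp rQ) := by
    intro i f f' hf
    have e1 : (f : KK I K) = kmap (eps0 K) (rQ f' : KK I (Eps K)) := by
      rw [hrQ, kmap_ae, hf, kmap_epsDer]
    have e2 := key i (rQ f') f e1
    have e3 := h2 i (rQ f') f e1 (by rw [hrQ, ksnd_ae, hf, ksnd_epsDer, kmap_epsDer])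
    refine TrivSqZeroExt.ext ?_ ?_
    · rw [fst_epsDer]
      exact e2
    · rw [snd_epsDer]
      exact e3
  -- the model of the deformation
  obtain ⟨M2, hM2⟩ : ∃ M2 : Mod d.y Q (fun i => (q i).comp rQ), M2.Over d.r M := by
    clear_value rQ
    subst hQe
    obtain ⟨M2, hM2⟩ := hMAU.1 (ae θ).symm (polAut_ae hθ) M' (fun i => (q i).comp rQ) (by
      intro i f
      change q i (rQ _) = q i f
      refine congrArg (q i) (Subtype.ext ?_)
      rw [hrQ]
      exact (ae θ).apply_symm_apply f)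
    exact ⟨M2, hMAI d.r (ae θ).symm (kmap_ae_symm θ) M' M _ M2 hM2 hov⟩
  obtain ⟨⟨z'⟩, -⟩ := hPLE hQ2
  obtain ⟨M3, hM3⟩ := hMCA hQ2 z' (fun i => (q i).comp rQ)
  obtain ⟨b, hb⟩ := xar' hXAR (Std.epsDer D) hP hQ1 hBcP z z'
  obtain ⟨c, hc⟩ := hMIS hQ2 d.stable.proper M2 z'
  have hb3 := hb M M3 hM hM3
  have hc3 := hc M3 hM3
  obtain ⟨c', hc'⟩ := invA c
  have hc4 : M3.Over c' M2 :=
    (hMOC.1 c c' (idA rfl d.y) M2 M3 M2 (RingHom.id_comp _).symm hc' hc3).2 (over_id rfl M2)
      fun f hf => by rwa [kmap_one rfl]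
  let f0 : Arrow ((RingHom.id (Eps K)).comp (Std.epsDer D)) d.y (xfam z p) := PBS.comp c' b
  let f : Arrow (Std.epsDer D) d.y (xfam z p) := ⟨f0.f, f0.cart, f0.sec⟩
  have hf : M.Over f M2 :=
    (hMOC.1 b c' f M M3 M2 (RingHom.id_comp _).symm rfl hb3).1 hc4
  refine ⟨D, f, ?_⟩
  let e : Arrow ((eps0 K).comp (Std.epsDer D)) (xfam z p) (xfam z p) := PBS.comp d.r f
  have he : M.Over e M := (hMOC.1 f d.r e M M2 M rfl rfl hf).1 hM2
  exact hMXT z e (idA (fst_comp_epsDer D) (xfam z p)) M M hP (hKPX p hP z).1 hM he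
    (over_id (fst_comp_epsDer D) M)

end Pool.Agent.MG.KX
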