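import Pool.Agent.MG.KX.StmtsC

/-!
# KCU: uniqueness of the covector of a functional
-/

open CategoryTheory CategoryTheory.Limits AlgebraicGeometry
open scoped TensorProduct

namespace Pool.Agent.MG.KX

open Pool.Agent.MG.G0 Pool.Agent.MG.GLU

/-- KCU: uniqueness of the covector of a functional. -/
theorem t_KCU (hMCA : Stmt_MCA) (hDMD : Stmt_DMD) : Stmt_KCU := by
  intro I A _ _ _ g P hP z L l l' h h'
  obtain ⟨M, hM⟩ := hMCA hP.kr z (nop P)
  funext d
  obtain ⟨δ, M', hM'⟩ := hDMD hP.kr M d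
  rw [h M hM d δ M' hM', h' M hM d δ M' hM']

end Pool.Agent.MG.KX
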