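import Pool.Agent.MG.KX.StmtsK

/-!
# KGC: the curve of a Krichever ring over an algebraically closed field is stable
-/

open CategoryTheory CategoryTheory.Limits AlgebraicGeometry TensorProduct

namespace Pool.Agent.MG.KX

open Pool.Agent.MG.G0 Pool.Agent.MG.GLU

/-- KGC: stability over an algebraically closed field. -/
theorem t_KGC (hDCO : Stmt_DCO) (hDNO : Stmt_DNO) (hDGE : Stmt_DGE) (hDSM : Stmt_DSM)
    (hDVF : Stmt_DVF) (hKCO : Stmt_KCO) (hKPT : Stmt_KPT) (hKMK : Stmt_KMK)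
    (hKRV : Stmt_KRV) : Stmt_KGC := by
  intro I K _ _ _ _ g n P p hP hdom hnod hrig hmk z
  obtain ⟨c1, L, hL, hk⟩ := hKCO hP z
  have nt : Nontrivial (kDuo z).R12 := inferInstanceAs (Nontrivial (Rz P z.z))
  refine ⟨?_, ?_, ?_, ?_, ?_, ?_⟩
  · exact hDCO (kDuo z) nt c1
  · exact hDNO (kDuo z) hnod (hKPT hP z)
  · exact hDGE (kDuo z) g L hL hk
  · intro i j hij h
    have h0 : spMap (p i : P →+* K) ≫ xin z p = spMap (p j : P →+* K) ≫ xin z p := h
    have h1 : spMap (p i : P →+* K) = spMap (p j : P →+* K) := (cancel_mono _).1 h0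
    have h2 : (p i : P →+* K) = (p j : P →+* K) :=
      congrArg CommRingCat.Hom.hom (Spec.map_injective h1)
    have h3 := hmk.dis i j hij
    have h4 : RingHom.ker (p i) = RingHom.ker (p j) :=
      congrArg (fun f : P →+* K => RingHom.ker f) h2
    rw [h4, sup_idem] at h3
    exact RingHom.ker_ne_top (p j) h3
  · intro i s
    exact hDSM (kDuo z) p i (hKMK hP hdom p hmk i) s
  · exact hDVF (kDuo z) p (fun E1 E2 E12 h1 h2 _ => hKRV hP hrig z E1 E2 E12 h1 h2)

end Pool.Agent.MG.KX
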