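import Pool.Agent.MG.KX.StmtsM

/-!
# MTH, algebra: expansions of the functions on a thickening
-/

open TensorProduct

namespace Pool.Agent.MG.KX.MTH

theorem cc_map {A B : Type} [CommRing A] [CommRing B] (φ : A →+* B) (f : PowerSeries A) :
    PowerSeries.constantCoeff (PowerSeries.map φ f) = φ (PowerSeries.constantCoeff f) := by
  rw [← PowerSeries.coeff_zero_eq_constantCoeff_apply, PowerSeries.coeff_map,
    PowerSeries.coeff_zero_eq_constantCoeff_apply]

section taylor

variable {E Q : Type} [CommRing E] [CommRing Q]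

/-- Taylor expansion. -/
theorem taylor (a : E →+* Q) (c : Q →+* E) (ca : ∀ x, c (a x) = x) (t : Q)
    (nz : ∀ v, t * v = 0 → v = 0) (ct : c t = 0) (k : ∀ v, c v = 0 → ∃ r, v = t * r) :
    ∃ g : Q →+* PowerSeries E, (∀ x, g (a x) = PowerSeries.C x) ∧ g t = PowerSeries.X ∧
      ∀ v, PowerSeries.constantCoeff (g v) = c v := by
  have h1 : ∀ v, ∃ r, v - a (c v) = t * r := fun v => k _ (by rw [map_sub, ca, sub_self])
  choose D hD using h1
  have inj : ∀ v w, t * v = t * w → v = w := fun v w h => by
    rw [← sub_eq_zero]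
    exact nz _ (by rw [mul_sub, h, sub_self])
  have Dadd : ∀ v w, D (v + w) = D v + D w := fun v w => inj _ _ (by
    rw [← hD, mul_add, ← hD, ← hD, map_add, map_add]
    ring)
  have Dmul : ∀ v w, D (v * w) = D v * w + a (c v) * D w := fun v w => inj _ _ (by
    have e1 := hD v
    have e2 := hD w
    rw [← hD, map_mul, map_mul]
    linear_combination w * e1 + a (c v) * e2)
  have Da : ∀ x, D (a x) = 0 := fun x => nz _ (by rw [← hD, ca, sub_self])
  have Dt : D t = 1 := inj _ _ (by rw [← hD, ct, map_zero, sub_zero, mul_one])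
  have D0 : D 0 = 0 := by
    have := Da 0
    rwa [map_zero] at this
  have Dam : ∀ x v, D (a x * v) = a x * D v := fun x v => by
    rw [Dmul, Da, zero_mul, zero_add, ca]
  let gf : Q → PowerSeries E := fun v => PowerSeries.mk fun m => c (D^[m] v)
  have gc : ∀ m v, PowerSeries.coeff m (gf v) = c (D^[m] v) := fun m v =>
    PowerSeries.coeff_mk _ _
  have gs : ∀ v, gf v = PowerSeries.C (c v) + PowerSeries.X * gf (D v) := by
    intro v
    ext m
    rcases m with _ | m
    · rw [gc]
      simp
    · rw [gc, map_add, PowerSeries.coeff_succ_X_mul, gc, PowerSeries.coeff_C,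
        if_neg (Nat.succ_ne_zero m), zero_add]
      rfl
  have iadd : ∀ m v w, D^[m] (v + w) = D^[m] v + D^[m] w := by
    intro m
    induction m with
    | zero => intro v w; rfl
    | succ m ih =>
      intro v w
      rw [Function.iterate_succ_apply, Function.iterate_succ_apply, Function.iterate_succ_apply,
        Dadd, ih]
  have iam : ∀ m x v, D^[m] (a x * v) = a x * D^[m] v := by
    intro m
    induction m with
    | zero => intro x v; rfl
    | succ m ih =>
      intro x v
      rw [Function.iterate_succ_apply, Function.iterate_succ_apply, Dam, ih]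
  have gadd : ∀ v w, gf (v + w) = gf v + gf w := fun v w => by
    ext m
    rw [map_add, gc, gc, gc, iadd, map_add]
  have gam : ∀ x v, gf (a x * v) = PowerSeries.C x * gf v := fun x v => by
    ext m
    rw [PowerSeries.coeff_C_mul, gc, gc, iam, map_mul, ca]
  have gm : ∀ m v w, PowerSeries.coeff m (gf (v * w)) = PowerSeries.coeff m (gf v * gf w) := by
    intro m
    induction m with
    | zero =>
      intro v w
      have e1 : ∀ v, PowerSeries.constantCoeff (gf v) = c v := fun v => by
        rw [← PowerSeries.coeff_zero_eq_constantCoeff_apply, gc]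
        rfl
      rw [PowerSeries.coeff_zero_eq_constantCoeff_apply,
        PowerSeries.coeff_zero_eq_constantCoeff_apply, map_mul PowerSeries.constantCoeff, e1, e1,
        e1, map_mul c]
    | succ m ih =>
      intro v w
      have e1 : gf (v * w) = PowerSeries.C (c v * c w) +
          PowerSeries.X * (gf (D v * w) + PowerSeries.C (c v) * gf (D w)) := by
        rw [gs (v * w), Dmul, gadd, gam, map_mul c]
      have e2 : gf v * gf w = PowerSeries.C (c v * c w) +
          PowerSeries.X * (gf (D v) * gf w + PowerSeries.C (c v) * gf (D w)) := by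
        have e3 := gs v
        have e4 := gs w
        rw [map_mul PowerSeries.C]
        linear_combination gf w * e3 + PowerSeries.C (c v) * e4
      rw [e1, e2, map_add, map_add, PowerSeries.coeff_succ_X_mul, PowerSeries.coeff_succ_X_mul,
        map_add, map_add, ih]
  have h3 : D 1 = 0 := by
    have := Da 1
    rwa [map_one] at this
  have h4 : gf 0 = 0 := by
    have := gam 0 0
    rwa [map_zero, zero_mul, map_zero, zero_mul] at this
  have h5 : gf 1 = 1 := by
    have h2 := gs 1
    rw [h3, h4, mul_zero, add_zero, map_one, map_one] at h2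
    exact h2
  let G : Q →+* PowerSeries E :=
    { toFun := gf
      map_one' := h5
      map_zero' := h4
      map_add' := gadd
      map_mul' := fun v w => PowerSeries.ext fun m => gm m v w }
  refine ⟨G, ?_, ?_, ?_⟩
  · intro x
    change gf (a x) = PowerSeries.C x
    rw [gs, Da, h4, mul_zero, add_zero, ca]
  · change gf t = PowerSeries.X
    rw [gs, Dt, h5, ct, map_zero, zero_add, mul_one]
  · intro v
    change PowerSeries.constantCoeff (gf v) = c v
    rw [← PowerSeries.coeff_zero_eq_constantCoeff_apply, gc]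
    rfl

/-- Expansion at a point which is a connected component of the zero set of `t`. -/
theorem point (a : E →+* Q) (c : Q →+* E) (ca : ∀ x, c (a x) = x) (t e : Q)
    (nz : ∀ v, t * v = 0 → v = 0) (ct : c t = 0) (ce : c e = 1)
    (k : ∀ v, c v = 0 → ∃ r, e * v = t * r) (θ : PowerSeries E)
    (hθ : PowerSeries.constantCoeff θ = 0) :
    ∃ g : Q →+* PowerSeries E, (∀ x, g (a x) = PowerSeries.C x) ∧ g t = θ ∧
      ∀ v, PowerSeries.constantCoeff (g v) = c v := by
  let L := Localization.Away e
  let al : Q →+* L := algebraMap Q L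
  have hu : IsUnit (c e) := by rw [ce]; exact isUnit_one
  let cL : L →+* E := IsLocalization.Away.lift e hu
  have hcL : ∀ v, cL (al v) = c v := fun v => IsLocalization.Away.lift_eq e hu v
  have ue : IsUnit (al e) := IsLocalization.Away.algebraMap_isUnit e
  have nzL : ∀ z, al t * z = 0 → z = 0 := by
    intro z hz
    obtain ⟨n, v, hv⟩ := IsLocalization.Away.surj e z
    have h1 : al (t * v) = al 0 := by
      have hv' : z * al e ^ n = al v := hv
      rw [map_mul, ← hv', ← mul_assoc, hz, zero_mul, map_zero]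
    obtain ⟨m, hm⟩ := IsLocalization.Away.exists_of_eq (S := L) e h1
    rw [mul_zero] at hm
    have h2 : e ^ m * v = 0 := nz _ (by rw [← hm]; ring)
    have h3 : al e ^ m * al v = 0 := by rw [← map_pow, ← map_mul, h2, map_zero]
    have h4 : al v = 0 := (ue.pow m).mul_right_eq_zero.1 h3
    have h5 : z * al e ^ n = 0 := hv.trans h4
    exact (ue.pow n).mul_left_eq_zero.1 h5
  have kL : ∀ z, cL z = 0 → ∃ r, z = al t * r := by
    intro z hz
    obtain ⟨n, v, hv⟩ := IsLocalization.Away.surj e z
    have hv' : z * al e ^ n = al v := hv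
    have h1 : c v = 0 := by rw [← hcL, ← hv', map_mul, hz, zero_mul]
    obtain ⟨r, hr⟩ := k v h1
    obtain ⟨u, hu'⟩ := ue.pow (n + 1)
    refine ⟨al r * ↑u⁻¹, ?_⟩
    have h2 : z * al e ^ (n + 1) = al t * al r := by
      rw [← map_mul, ← hr, map_mul, ← hv']
      ring
    rw [← hu'] at h2
    rw [← mul_assoc, ← h2, mul_assoc, Units.mul_inv, mul_one]
  obtain ⟨g0, g1, g2, g3⟩ := taylor (al.comp a) cL (fun x => (hcL _).trans (ca x)) (al t) nzL
    ((hcL _).trans ct) kL
  have hs : PowerSeries.HasSubst θ := PowerSeries.HasSubst.of_constantCoeff_zero' hθ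
  let sb : PowerSeries E →+* PowerSeries E :=
    ((PowerSeries.substAlgHom (R := E) hs : PowerSeries E →ₐ[E] PowerSeries E) :
      PowerSeries E →+* PowerSeries E)
  have sbC : ∀ x, sb (PowerSeries.C x) = PowerSeries.C x := fun x =>
    (PowerSeries.substAlgHom (R := E) hs : PowerSeries E →ₐ[E] PowerSeries E).commutes x
  have sbX : sb PowerSeries.X = θ := PowerSeries.substAlgHom_X hs
  have h1 : ∀ x, (sb.comp (g0.comp al)) (a x) = PowerSeries.C x := fun x => by
    change sb (g0 ((al.comp a) x)) = _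
    rw [g1 x, sbC]
  have h2 : (sb.comp (g0.comp al)) t = θ := by
    change sb (g0 (al t)) = _
    rw [g2, sbX]
  refine ⟨sb.comp (g0.comp al), h1, h2, fun v => ?_⟩
  obtain ⟨r, hr⟩ := kL (al v - al (a (c v))) (by rw [map_sub, hcL, hcL, ca, sub_self])
  have h3 : sb (g0 (al v)) - PowerSeries.C (c v) = θ * sb (g0 r) := by
    have h4 := congrArg (fun z => sb (g0 z)) hr
    simp only [map_sub, map_mul] at h4
    rw [g2, sbX] at h4
    rw [← h4]
    congr 1
    exact (h1 (c v)).symm
  have h5 := congrArg PowerSeries.constantCoeff h3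
  rw [map_sub, map_mul, hθ, zero_mul, sub_eq_zero] at h5
  exact h5.trans (by simp)

end taylor

/-- Uniqueness of expansions. -/
theorem uniq {A Q : Type} [CommRing A] [CommRing Q] (f1 f2 : Q →+* PowerSeries A) (t e : Q)
    (θ : PowerSeries A) (hθ : PowerSeries.constantCoeff θ = 0) (h1 : f1 t = θ) (h2 : f2 t = θ)
    (he : PowerSeries.constantCoeff (f2 e) = 1)
    (k : ∀ v, ∃ b r : Q, e * (v - b) = t * r ∧ f1 b = f2 b ∧
      PowerSeries.constantCoeff (f1 (v - b)) = 0) (v : Q) : f1 v = f2 v := by
  have ue : IsUnit (f2 e) := by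
    rw [PowerSeries.isUnit_iff_constantCoeff, he]
    exact isUnit_one
  have xt : (PowerSeries.X : PowerSeries A) ∣ θ := PowerSeries.X_dvd_iff.2 hθ
  have main : ∀ m v, (PowerSeries.X : PowerSeries A) ^ m ∣ f1 v - f2 v := by
    intro m
    induction m with
    | zero => intro v; rw [pow_zero]; exact one_dvd _
    | succ m ih =>
      intro v
      obtain ⟨b, r, hr, hb, hc⟩ := k v
      have e1 : f1 e * (f1 v - f1 b) = θ * f1 r := by
        rw [← h1, ← map_mul, ← hr, map_mul, map_sub]
      have e2 : f2 e * (f2 v - f2 b) = θ * f2 r := by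
        rw [← h2, ← map_mul, ← hr, map_mul, map_sub]
      have e3 : f2 e * (f1 v - f2 v) = θ * (f1 r - f2 r) - (f1 e - f2 e) * (f1 v - f1 b) := by
        linear_combination e1 - e2 + f2 e * hb
      have xb : (PowerSeries.X : PowerSeries A) ∣ f1 v - f1 b := by
        rw [PowerSeries.X_dvd_iff, ← map_sub, hc]
      have e4 : (PowerSeries.X : PowerSeries A) ^ (m + 1) ∣ f2 e * (f1 v - f2 v) := by
        rw [e3]
        refine dvd_sub ?_ ?_
        · rw [pow_succ, mul_comm]
          exact mul_dvd_mul xt (ih r)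
        · rw [pow_succ]
          exact mul_dvd_mul (ih e) xb
      exact ue.dvd_mul_left.1 e4
  ext m
  rw [← sub_eq_zero, ← map_sub]
  exact PowerSeries.X_pow_dvd_iff.1 (main (m + 1) v) m (Nat.lt_succ_self m)

section sqz

variable {A E K R R' : Type} [CommRing A] [CommRing E] [Fintype K] [CommRing R] [CommRing R']

/-- A flat square zero thickening of rings. -/
structure FT (S : SqE A E K) (a : A →+* R) (a' : E →+* R') (q : R' →+* R) : Prop where
  qa : ∀ e, q (a' e) = a (S.p e)
  sur : Function.Surjective q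
  ker : ∀ v, q v = 0 → ∃ w : K → R', v = ∑ j, a' (S.ε j) * w j
  un : ∀ w : K → R', ∑ j, a' (S.ε j) * w j = 0 → ∀ j, q (w j) = 0

variable {S : SqE A E K} {a : A →+* R} {a' : E →+* R'} {q : R' →+* R} (H : FT S a a' q)

include H

theorem FT.sq0 {v w : R'} (hv : q v = 0) (hw : q w = 0) : v * w = 0 := by
  obtain ⟨v1, rfl⟩ := H.ker v hv
  obtain ⟨w1, rfl⟩ := H.ker w hw
  rw [Finset.sum_mul_sum]
  refine Finset.sum_eq_zero fun i _ => Finset.sum_eq_zero fun j _ => ?_
  calc a' (S.ε i) * v1 i * (a' (S.ε j) * w1 j) = a' (S.ε i * S.ε j) * (v1 i * w1 j) := by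
        rw [map_mul]
        ring
    _ = 0 := by rw [S.mul, map_zero, zero_mul]

theorem FT.eps_mul (j : K) {w : R'} (hw : q w = 0) : a' (S.ε j) * w = 0 :=
  H.sq0 (by rw [H.qa, S.pe, map_zero]) hw

theorem FT.nz {t : R} (nz : ∀ v, t * v = 0 → v = 0) {t' : R'} (qt : q t' = t) {v : R'}
    (hv : t' * v = 0) : v = 0 := by
  have h1 : q v = 0 := nz _ (by rw [← qt, ← map_mul, hv, map_zero])
  obtain ⟨w, hw⟩ := H.ker v h1
  have h2 : ∑ j, a' (S.ε j) * (t' * w j) = 0 := by
    rw [← hv, hw, Finset.mul_sum]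
    exact Finset.sum_congr rfl fun j _ => by ring
  have h3 := H.un _ h2
  have h4 : ∀ j, q (w j) = 0 := fun j => nz _ (by rw [← qt, ← map_mul]; exact h3 j)
  rw [hw]
  exact Finset.sum_eq_zero fun j _ => H.eps_mul j (h4 j)

/-- The values at the punctures. -/
theorem FT.exists_c {I : Type} [Fintype I] (c0 : R →+* (I → A)) (c0a : ∀ x i, c0 (a x) i = x)
    {t : R} (nz : ∀ v, t * v = 0 → v = 0) (ct : c0 t = 0) (k0 : ∀ v, c0 v = 0 → ∃ r, v = t * r)
    (s0 : Function.Surjective c0) {t' : R'} (qt : q t' = t) :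
    ∃ c' : R' →+* (I → E), (∀ x i, c' (a' x) i = x) ∧ (∀ v, c' v = 0 → ∃ r, v = t' * r) ∧
      c' t' = 0 ∧ Function.Surjective c' ∧ ∀ v i, S.p (c' v i) = c0 (q v) i := by
  classical
  let Q0 := R' ⧸ Ideal.span {t'}
  let π : R' →+* Q0 := Ideal.Quotient.mk _
  have πt : ∀ r, π (t' * r) = 0 := fun r =>
    Ideal.Quotient.eq_zero_iff_mem.2 (Ideal.mem_span_singleton.2 ⟨r, rfl⟩)
  have πs : Function.Surjective π := Ideal.Quotient.mk_surjective
  let κ : Q0 →+* (I → A) := Ideal.Quotient.lift _ (c0.comp q) (by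
    intro v hv
    obtain ⟨r, rfl⟩ := Ideal.mem_span_singleton.1 hv
    change c0 (q (t' * r)) = 0
    rw [map_mul, qt, map_mul, ct, zero_mul])
  have κπ : ∀ v, κ (π v) = c0 (q v) := fun v => rfl
  have dec : ∀ v : R', c0 (q v) = 0 → ∃ r k : R', q k = 0 ∧ v = t' * r + k := by
    intro v hv
    obtain ⟨ρ, hρ⟩ := k0 _ hv
    obtain ⟨r, rfl⟩ := H.sur ρ
    exact ⟨r, v - t' * r, by rw [map_sub, map_mul, qt, ← hρ, sub_self], by ring⟩
  have nil : ∀ x ∈ RingHom.ker κ, IsNilpotent x := by
    intro x hx
    obtain ⟨v, rfl⟩ := πs x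
    obtain ⟨r, k, hk, hv⟩ := dec v hx
    refine ⟨2, ?_⟩
    rw [hv, map_add, πt, zero_add, pow_two, ← map_mul, H.sq0 hk hk, map_zero]
  have κs : Function.Surjective κ := fun c => by
    obtain ⟨w, rfl⟩ := s0 c
    obtain ⟨v, rfl⟩ := H.sur w
    exact ⟨π v, rfl⟩
  obtain ⟨e0, he0, hκ⟩ := CompleteOrthogonalIdempotents.lift_of_isNilpotent_ker κ nil
    (CompleteOrthogonalIdempotents.single (fun _ : I => A)) (fun i => κs _)
  choose e he using fun i => πs (e0 i)
  have ce : ∀ i l, c0 (q (e i)) l = if l = i then 1 else 0 := by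
    intro i l
    have h1 : κ (e0 i) = Pi.single i 1 := congrFun hκ i
    rw [← κπ, he, h1, Pi.single_apply]
  let F : (I → E) →+* Q0 :=
    { toFun := fun c => ∑ i, π (a' (c i)) * e0 i
      map_one' := by
        simp only [Pi.one_apply, map_one, one_mul]
        exact he0.complete
      map_zero' := by simp only [Pi.zero_apply, map_zero, zero_mul, Finset.sum_const_zero]
      map_add' := fun c d => by
        rw [← Finset.sum_add_distrib]
        exact Finset.sum_congr rfl fun i _ => by rw [Pi.add_apply, map_add, map_add, add_mul]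
      map_mul' := fun c d => by
        rw [Finset.sum_mul_sum]
        refine Finset.sum_congr rfl fun i _ => ?_
        rw [Finset.sum_eq_single i]
        · rw [Pi.mul_apply, map_mul, map_mul]
          have h1 : e0 i * e0 i = e0 i := he0.idem i
          linear_combination (-(π (a' (c i)) * π (a' (d i)))) * h1
        · intro j _ hj
          have h1 : e0 i * e0 j = 0 := he0.ortho (Ne.symm hj)
          linear_combination (π (a' (c i)) * π (a' (d j))) * h1
        · intro h
          exact absurd (Finset.mem_univ i) h }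
  have Fπ : ∀ c, F c = π (∑ i, a' (c i) * e i) := fun c => by
    rw [map_sum]
    exact Finset.sum_congr rfl fun i _ => by rw [map_mul, he]
  have c0s : ∀ (b : I → E) (l : I), c0 (q (∑ i, a' (b i) * e i)) l = S.p (b l) := by
    intro b l
    rw [map_sum, map_sum, Finset.sum_apply]
    have h1 : ∀ i, c0 (q (a' (b i) * e i)) l = if l = i then S.p (b i) else 0 := fun i => by
      rw [map_mul, map_mul, Pi.mul_apply, H.qa, c0a, ce]
      split_ifs <;> simp
    simp only [h1, Finset.sum_ite_eq, Finset.mem_univ, if_true]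
  have Finj : Function.Injective F := by
    rw [injective_iff_map_eq_zero]
    intro b hb
    rw [Fπ] at hb
    obtain ⟨r, hr⟩ := Ideal.mem_span_singleton.1 (Ideal.Quotient.eq_zero_iff_mem.1 hb)
    have hp : ∀ l, S.p (b l) = 0 := fun l => by
      rw [← c0s b l, hr, map_mul, qt, map_mul, ct, zero_mul]
      rfl
    choose d hd using fun i => S.ex (b i) (hp i)
    have hqr : q r = 0 := nz _ (by
      rw [← qt, ← map_mul, ← hr, map_sum]
      refine Finset.sum_eq_zero fun i _ => ?_
      rw [map_mul, H.qa, hp, map_zero, zero_mul])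
    obtain ⟨w, hw⟩ := H.ker r hqr
    have h1 : ∑ j, a' (S.ε j) * (∑ i, a' (S.i (d i j)) * e i - t' * w j) = 0 := by
      have h2 : ∑ j, a' (S.ε j) * (∑ i, a' (S.i (d i j)) * e i) = ∑ i, a' (b i) * e i := by
        simp only [Finset.mul_sum]
        rw [Finset.sum_comm]
        refine Finset.sum_congr rfl fun i _ => ?_
        conv_rhs => rw [hd i, map_sum, Finset.sum_mul]
        exact Finset.sum_congr rfl fun j _ => by rw [map_mul]; ring
      have h3 : ∑ j, a' (S.ε j) * (t' * w j) = t' * r := by
        rw [hw, Finset.mul_sum]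
        exact Finset.sum_congr rfl fun j _ => by ring
      simp only [mul_sub, Finset.sum_sub_distrib]
      rw [h2, h3, hr, sub_self]
    have h4 := H.un _ h1
    funext i
    rw [hd i]
    refine Finset.sum_eq_zero fun j _ => ?_
    have h5 : c0 (q (∑ i, a' (S.i (d i j)) * e i - t' * w j)) i = d i j := by
      rw [map_sub, map_sub, Pi.sub_apply, c0s (fun i => S.i (d i j)) i, S.pi, map_mul, qt,
        map_mul, ct, zero_mul, Pi.zero_apply, sub_zero]
    rw [h4 j, map_zero] at h5
    rw [← h5, Pi.zero_apply, map_zero S.i, mul_zero]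
  have L2 : ∀ v : R', ∃ (b : I → A) (r k : R'), q k = 0 ∧
      v = ∑ i, a' (S.i (b i)) * e i + t' * r + k := by
    intro v
    have h1 : c0 (q (v - ∑ i, a' (S.i (c0 (q v) i)) * e i)) = 0 := by
      funext l
      rw [map_sub, map_sub, Pi.sub_apply, c0s (fun i => S.i (c0 (q v) i)) l, S.pi, sub_self,
        Pi.zero_apply]
    obtain ⟨r, k, hk, h2⟩ := dec _ h1
    exact ⟨fun i => c0 (q v) i, r, k, hk, by linear_combination h2⟩
  have Fsur : Function.Surjective F := by
    intro y
    obtain ⟨v, rfl⟩ := πs y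
    obtain ⟨b, r, k, hk, hv⟩ := L2 v
    obtain ⟨w, hw⟩ := H.ker k hk
    choose b1 r1 k1 hk1 hw1 using fun j => L2 (w j)
    refine ⟨fun i => S.i (b i) + ∑ j, S.ε j * S.i (b1 j i), ?_⟩
    rw [Fπ]
    have h1 : v = ∑ i, a' (S.i (b i) + ∑ j, S.ε j * S.i (b1 j i)) * e i +
        t' * (r + ∑ j, a' (S.ε j) * r1 j) := by
      have h2 : k = ∑ j, a' (S.ε j) * (∑ i, a' (S.i (b1 j i)) * e i) +
          t' * ∑ j, a' (S.ε j) * r1 j := by
        rw [hw, Finset.mul_sum, ← Finset.sum_add_distrib]
        refine Finset.sum_congr rfl fun j _ => ?_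
        have h3 := H.eps_mul j (hk1 j)
        conv_lhs => rw [hw1 j]
        linear_combination h3
      have h4 : ∑ i, a' (S.i (b i) + ∑ j, S.ε j * S.i (b1 j i)) * e i =
          ∑ i, a' (S.i (b i)) * e i + ∑ j, a' (S.ε j) * (∑ i, a' (S.i (b1 j i)) * e i) := by
        simp only [Finset.mul_sum]
        rw [Finset.sum_comm, ← Finset.sum_add_distrib]
        refine Finset.sum_congr rfl fun i _ => ?_
        rw [map_add, map_sum, add_mul, Finset.sum_mul]
        congr 1
        exact Finset.sum_congr rfl fun j _ => by rw [map_mul]; ring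
      rw [h4]
      linear_combination hv + h2
    conv_rhs => rw [h1]
    rw [map_add, πt, add_zero]
  let G := RingEquiv.ofBijective F ⟨Finj, Fsur⟩
  have GF : ∀ v, F (G.symm (π v)) = π v := fun v => G.apply_symm_apply (π v)
  refine ⟨(G.symm : Q0 →+* (I → E)).comp π, ?_, ?_, ?_, ?_, ?_⟩
  · intro x i
    change G.symm (π (a' x)) i = x
    have h1 : G.symm (π (a' x)) = fun _ => x := by
      rw [RingEquiv.symm_apply_eq]
      change π (a' x) = ∑ i, π (a' x) * e0 i
      rw [← Finset.mul_sum, he0.complete, mul_one]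
    rw [h1]
  · intro v hv
    have hv' : G.symm (π v) = 0 := hv
    rw [RingEquiv.symm_apply_eq, map_zero] at hv'
    exact Ideal.mem_span_singleton.1 (Ideal.Quotient.eq_zero_iff_mem.1 hv')
  · change G.symm (π t') = 0
    have := πt 1
    rw [mul_one] at this
    rw [this, map_zero]
  · intro c
    obtain ⟨v, hv⟩ := πs (F c)
    refine ⟨v, ?_⟩
    change G.symm (π v) = c
    rw [RingEquiv.symm_apply_eq, hv]
    rfl
  · intro v i
    change S.p (G.symm (π v) i) = _
    rw [← c0s (G.symm (π v)) i, ← κπ, ← Fπ, GF, κπ]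

/-- The expansions at the punctures. -/
theorem FT.exists_exp {I : Type} [Fintype I] (g : R →+* (I → PowerSeries A))
    (ga : ∀ x i, g (a x) i = PowerSeries.C x) {t : R} (nz : ∀ v, t * v = 0 → v = 0)
    (u : I → PowerSeries A) (hu : IsUnit u) (gt : g t = (fun _ => PowerSeries.X) * u)
    (k : ∀ v, ccI I A (g v) = 0 → ∃ r, v = t * r) (s : ∀ c : I → A, ∃ v, ccI I A (g v) = c)
    {t' : R'} (qt : q t' = t) :
    ∃ g' : R' →+* (I → PowerSeries E), (∀ v, psm I S.p (g' v) = g (q v)) ∧
      (∀ x, g' (a' x) = algebraMap E (I → PowerSeries E) x) ∧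
      (∃ u' : I → PowerSeries E, IsUnit u' ∧ g' t' = (fun _ => PowerSeries.X) * u') ∧
      (∀ v, ccI I E (g' v) = 0 → ∃ r, v = t' * r) ∧ ∀ c : I → E, ∃ v, ccI I E (g' v) = c := by
  classical
  have gti : ∀ i, g t i = PowerSeries.X * u i := fun i => by rw [gt]; rfl
  have ct0 : ∀ i, PowerSeries.constantCoeff (g t i) = 0 := fun i => by
    rw [gti, map_mul, PowerSeries.constantCoeff_X, zero_mul]
  obtain ⟨c', c1, c2, c3, c4, c5⟩ := H.exists_c ((ccI I A).comp g)
    (fun x i => by
      change PowerSeries.constantCoeff (g (a x) i) = x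
      rw [ga, PowerSeries.constantCoeff_C]) nz
    (funext fun i => ct0 i) k s qt
  have nz' : ∀ v, t' * v = 0 → v = 0 := fun v hv => H.nz nz qt hv
  choose e he using fun i : I => c4 (Pi.single i 1)
  let θ : I → PowerSeries E := fun i => PowerSeries.map S.i (g t i)
  have hθ : ∀ i, PowerSeries.constantCoeff (θ i) = 0 := fun i => by
    change PowerSeries.constantCoeff (PowerSeries.map S.i (g t i)) = 0
    rw [cc_map, ct0, map_zero]
  have ke : ∀ i v, c' v i = 0 → ∃ r, e i * v = t' * r := fun i v hv => c2 _ (by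
    funext l
    rw [map_mul, he, Pi.mul_apply]
    by_cases h : l = i
    · subst h
      rw [hv, mul_zero, Pi.zero_apply]
    · rw [Pi.single_eq_of_ne h, zero_mul, Pi.zero_apply])
  have hex : ∀ i, ∃ g : R' →+* PowerSeries E, (∀ x, g (a' x) = PowerSeries.C x) ∧ g t' = θ i ∧
      ∀ v, PowerSeries.constantCoeff (g v) = c' v i := fun i =>
    point a' ((Pi.evalRingHom _ i).comp c') (fun x => c1 x i) t' (e i) nz'
      (by
        change c' t' i = 0
        rw [c3, Pi.zero_apply])
      (by
        change c' (e i) i = 1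
        rw [he, Pi.single_eq_same]) (ke i) (θ i) (hθ i)
  choose gi g1 g2 g3 using hex
  have cc : ∀ v i, ccI I E ((RingHom.pi gi : R' →+* (I → PowerSeries E)) v) i = c' v i :=
    fun v i => g3 i v
  refine ⟨RingHom.pi gi, ?_, ?_, ?_, ?_, ?_⟩
  · intro v
    funext i
    change PowerSeries.map S.p (gi i v) = g (q v) i
    refine uniq ((PowerSeries.map S.p).comp (gi i)) ((Pi.evalRingHom _ i).comp (g.comp q)) t'
      (e i) (g t i) (ct0 i) ?_ ?_ ?_ ?_ v
    · change PowerSeries.map S.p (gi i t') = g t i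
      rw [g2]
      ext m
      change S.p (PowerSeries.coeff m (PowerSeries.map S.i (g t i))) = _
      rw [PowerSeries.coeff_map, S.pi]
    · change g (q t') i = g t i
      rw [qt]
    · change PowerSeries.constantCoeff (g (q (e i)) i) = 1
      have h1 := c5 (e i) i
      rw [he, Pi.single_eq_same, map_one] at h1
      exact h1.symm
    · intro w
      obtain ⟨r, hr⟩ := ke i (w - a' (c' w i)) (by
        rw [map_sub, Pi.sub_apply, c1, sub_self])
      refine ⟨a' (c' w i), r, hr, ?_, ?_⟩
      · change PowerSeries.map S.p (gi i (a' (c' w i))) = g (q (a' (c' w i))) i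
        rw [g1, H.qa, ga, PowerSeries.map_C]
      · change PowerSeries.constantCoeff (PowerSeries.map S.p (gi i (w - a' (c' w i)))) = 0
        rw [cc_map, g3, map_sub, Pi.sub_apply, c1, sub_self, map_zero]
  · intro x
    funext i
    exact g1 i x
  · refine ⟨psm I S.i u, hu.map _, ?_⟩
    funext i
    change gi i t' = PowerSeries.X * PowerSeries.map S.i (u i)
    rw [g2]
    change PowerSeries.map S.i (g t i) = _
    rw [gti, map_mul, PowerSeries.map_X]
  · intro v hv
    refine c2 v (funext fun i => ?_)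
    rw [← cc v i, hv]
  · intro c
    obtain ⟨v, hv⟩ := c4 c
    exact ⟨v, funext fun i => by rw [cc, hv]⟩

end sqz

end Pool.Agent.MG.KX.MTH
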