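import Pool.Agent.MG.KX.StmtsE

/-!
# Statements on covectors of curves of Krichever rings, genericity

See `Pool/Agent/MG/KX/PAPER.md` for the proofs.
-/

open CategoryTheory CategoryTheory.Limits AlgebraicGeometry
open scoped TensorProduct

namespace Pool.Agent.MG.KX

open Pool.Agent.MG.G0 Pool.Agent.MG.GLU

/-! ## Lemmas with equalities of Krichever rings -/

section

variable {I A B : Type} [CommRing A] [CommRing B] {n : ℕ}

/-- `Stmt_MBC` for a ring `P'` equal to the base change. -/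
theorem mbc' [Fintype I] [Nonempty I] (h : Stmt_MBC) {g : ℕ} {P : Subalgebra A (KK I A)}
    {p : Fin n → (P →ₐ[A] A)} {x : Fam n A} {y : Fam n B} {φ : A →+* B} (a : Arrow φ y x)
    (hP : IsKr g P) (M : Mod x P p) {P' : Subalgebra B (KK I B)} (hP' : bc φ P = P')
    (p' : Fin n → (P' →ₐ[B] B)) (hp : BcP φ p p') : ∃ M' : Mod y P' p', M.Over a M' := by
  subst hP'
  exact h a hP M p' hp

/-- `Stmt_XAR` for a ring `P'` equal to the base change. -/
theorem xar' [Fintype I] [Nonempty I] (h : Stmt_XAR) {g : ℕ} {P : Subalgebra A (KK I A)}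
    {p : Fin n → (P →ₐ[A] A)} (φ : A →+* B) {P' : Subalgebra B (KK I B)}
    {p' : Fin n → (P' →ₐ[B] B)} (hP : IsKr g P) (hP' : bc φ P = P') (hp : BcP φ p p')
    (z : Pole P) (z' : Pole P') : ∃ a : Arrow φ (xfam z' p') (xfam z p),
      ∀ (M : Mod (xfam z p) P p) (M' : Mod (xfam z' p') P' p'), M.Can z → M'.Can z' →
        M.Over a M' := by
  subst hP'
  exact h φ hP hp z z'

theorem bcP_nop {P : Subalgebra A (KK I A)} {P' : Subalgebra B (KK I B)} (φ : A →+* B) :
    BcP φ (nop P) (nop P') := fun i => i.elim0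

end

/-! ## Deformations of the curve -/

/-- MAI: automorphisms which become trivial. -/
def Stmt_MAI : Prop :=
  ∀ {I A B : Type} [CommRing A] [CommRing B] {n : ℕ} {P : Subalgebra A (KK I A)}
    {p : Fin n → (P →ₐ[A] A)} {P' : Subalgebra B (KK I B)} {p' : Fin n → (P' →ₐ[B] B)}
    {x : Fam n A} {y : Fam n B} {φ : A →+* B} (a : Arrow φ y x) (α : KK I A ≃ₐ[A] KK I A),
    (∀ f, kmap φ (α f) = kmap φ f) → ∀ (M : Mod x P p) (M' : Mod y P' p')
      (q : Fin n → (P.map (α : KK I A →ₐ[A] KK I A) →ₐ[A] A))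
      (N : Mod x (P.map (α : KK I A →ₐ[A] KK I A)) q), M.IsAut α N → M.Over a M' → N.Over a M'

/-- KSN: nilpotent thickenings of KS. -/
def Stmt_KSN : Prop :=
  ∀ {I E A : Type} [Fintype I] [Nonempty I] [CommRing E] [CommRing A] {g : ℕ}
    {Q : Subalgebra E (KK I E)} {P : Subalgebra A (KK I A)} (φ : E →+* A),
    Function.Surjective φ → (∃ n : ℕ, RingHom.ker φ ^ n = ⊥) → IsKr g Q → bc φ Q = P →
    KS g P (nop P) → KS g Q (nop Q)

/-- DMD: every first order deformation has a model. -/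
def Stmt_DMD : Prop :=
  ∀ {I A : Type} [Fintype I] [Nonempty I] [CommRing A] {g : ℕ} {P : Subalgebra A (KK I A)}
    {x : Fam 0 A}, IsKr g P → ∀ (M : Mod x P (nop P)) (d : Defo g x), ∃ (δ : DD P)
      (M' : Mod d.y (Pdel P δ) (nop (Pdel P δ))), M'.Over d.r M

/-- DMT: every deformation over `A[ε₁, ε₂]` has a model. -/
def Stmt_DMT : Prop :=
  ∀ {I A : Type} [Fintype I] [Nonempty I] [CommRing A] {g : ℕ} {P : Subalgebra A (KK I A)}
    {x : Fam 0 A}, IsKr g P → ∀ (M : Mod x P (nop P)) (y : Fam 0 (Eps2 A)), IsStable g y →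
      ∀ r : Arrow (eps20 A) x y, ∃ (Q : Subalgebra (Eps2 A) (KK I (Eps2 A)))
        (M' : Mod y Q (nop Q)), IsKr g Q ∧ bc (eps20 A) Q = P ∧ M'.Over r M

/-! ## Covectors -/

/-- KCE: the covector of a functional. -/
def Stmt_KCE : Prop :=
  ∀ {I A : Type} [Fintype I] [Nonempty I] [CommRing A] {g : ℕ} {P : Subalgebra A (KK I A)},
    KS g P (nop P) → ∀ (z : Pole P) (L : CovL P), ∃ l : Cov g (xfam z (nop P)), IsKC z L l

/-- KCU: uniqueness of the covector of a functional. -/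
def Stmt_KCU : Prop :=
  ∀ {I A : Type} [Fintype I] [Nonempty I] [CommRing A] {g : ℕ} {P : Subalgebra A (KK I A)},
    KS g P (nop P) → ∀ (z : Pole P) (L : CovL P) (l l' : Cov g (xfam z (nop P))), IsKC z L l →
      IsKC z L l' → l.l = l'.l

/-- KCF: every covector comes from a functional. -/
def Stmt_KCF : Prop :=
  ∀ {I A : Type} [Fintype I] [Nonempty I] [CommRing A] {g : ℕ} {P : Subalgebra A (KK I A)},
    KS g P (nop P) → ∀ (z : Pole P) (l : Cov g (xfam z (nop P))), ∃ L : CovL P, IsKC z L l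

/-- KCN: base change. -/
def Stmt_KCN : Prop :=
  ∀ {I A B : Type} [Fintype I] [Nonempty I] [CommRing A] [CommRing B] {g : ℕ}
    {P : Subalgebra A (KK I A)} (φ : A →+* B), KS g P (nop P) →
    ∀ (z : Pole P) (z' : Pole (bc φ P)),
      ∃ a : Arrow φ (xfam z' (nop (bc φ P))) (xfam z (nop P)), ∀ (L : CovL P)
        (L' : CovL (bc φ P)), CompatL φ L L' → ∀ (l : Cov g (xfam z (nop P)))
        (l' : Cov g (xfam z' (nop (bc φ P)))), IsKC z L l → IsKC z' L' l' → Compat a l' l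

/-- KCZ: change of the pole. -/
def Stmt_KCZ : Prop :=
  ∀ {I A : Type} [Fintype I] [Nonempty I] [CommRing A] {g : ℕ} {P : Subalgebra A (KK I A)},
    KS g P (nop P) → ∀ z z' : Pole P,
      ∃ a : Arrow (RingHom.id A) (xfam z' (nop P)) (xfam z (nop P)), ∀ (L : CovL P)
        (l : Cov g (xfam z (nop P))) (l' : Cov g (xfam z' (nop P))), IsKC z L l → IsKC z' L l' →
        Compat a l' l

/-- KCA: change of the coordinates. -/
def Stmt_KCA : Prop :=
  ∀ {I A : Type} [Fintype I] [Nonempty I] [CommRing A] {g : ℕ} {P : Subalgebra A (KK I A)}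
    (α : KK I A ≃ₐ[A] KK I A), PolAut α → KS g P (nop P) → ∀ (z : Pole P)
    (z' : Pole (P.map (α : KK I A →ₐ[A] KK I A))), ∃ a : Arrow (RingHom.id A)
      (xfam z' (nop (P.map (α : KK I A →ₐ[A] KK I A)))) (xfam z (nop P)), ∀ (L : CovL P)
      (L' : CovL (P.map (α : KK I A →ₐ[A] KK I A))),
      (∀ (D : DD P) (E : DD (P.map (α : KK I A →ₐ[A] KK I A))), RelA α D E → L'.1 E = L.1 D) →
      ∀ (l : Cov g (xfam z (nop P)))
        (l' : Cov g (xfam z' (nop (P.map (α : KK I A →ₐ[A] KK I A))))), IsKC z L l →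
        IsKC z' L' l' → Compat a l' l

/-- KCR: change of the index set. -/
def Stmt_KCR : Prop :=
  ∀ {I I' A : Type} [Fintype I] [Nonempty I] [Fintype I'] [Nonempty I'] [CommRing A] {g : ℕ}
    {P : Subalgebra A (KK I A)} (e : I' ≃ I), KS g P (nop P) → ∀ (z : Pole P)
    (z' : Pole (reix e P)), ∃ a : Arrow (RingHom.id A) (xfam z' (nop (reix e P)))
      (xfam z (nop P)), ∀ (L : CovL P) (L' : CovL (reix e P)),
      (∀ (D : DD P) (E : DD (reix e P)), RelI e D E → L'.1 E = L.1 D) →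
      ∀ (l : Cov g (xfam z (nop P))) (l' : Cov g (xfam z' (nop (reix e P)))), IsKC z L l →
        IsKC z' L' l' → Compat a l' l

/-- KCG: forgetting punctures. -/
def Stmt_KCG : Prop :=
  ∀ {I J A : Type} [Fintype I] [Nonempty I] [Fintype J] [CommRing A] {g : ℕ}
    {W : Subalgebra A (KK (I ⊕ J) A)}, KS g W (nop W) → KS g (Rem W) (nop (Rem W)) →
    Forget W (Rem W) → ∀ (z : Pole W) (z' : Pole (Rem W)),
      ∃ a : Arrow (RingHom.id A) (xfam z' (nop (Rem W))) (xfam z (nop W)),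
        ∀ (L : CovL (Rem W)) (L' : CovL W),
        (∀ (D : DD (Rem W)) (E : DD W), RelF D E → L'.1 E = L.1 D) →
        ∀ (l : Cov g (xfam z (nop W))) (l' : Cov g (xfam z' (nop (Rem W)))), IsKC z L' l →
          IsKC z' L l' → Compat a l' l

/-! ## Genericity -/

/-- Every first order deformation of `(P, p)` comes from a derivation of `K`. -/
def GnrM {I K : Type} [Field K] [Algebra ℂ K] {n : ℕ} (P : Subalgebra K (KK I K))
    (p : Fin n → (P →ₐ[K] K)) : Prop :=
  ∀ (δ : DD P) (q : Fin n → (Pdel P δ →ₐ[Eps K] Eps K)),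
    (∀ (i : Fin n) (F : Pdel P δ) (f : P), (f : KK I K) = kmap (eps0 K) (F : KK I (Eps K)) →
      (q i F).fst = p i f) →
    ∃ (D : Derivation ℂ K K) (θ : KK I K), θ ∈ Pol I K 0 ∧
      (∀ f : P, δ f = mk P (kadd (D : K →+ K) (f : KK I K)) + mk P (θ * dd (f : KK I K))) ∧
      ∀ (i : Fin n) (F : Pdel P δ) (f : P), (f : KK I K) = kmap (eps0 K) (F : KK I (Eps K)) →
        ksnd (F : KK I (Eps K)) = kadd (D : K →+ K) (f : KK I K) + θ * dd (f : KK I K) →
        (q i F).snd = D (p i f)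

/-- GNX: the curve is generic. -/
def Stmt_GNX : Prop :=
  ∀ {I K : Type} [Fintype I] [Nonempty I] [Field K] [Algebra ℂ K] {g n : ℕ}
    {P : Subalgebra K (KK I K)} {p : Fin n → (P →ₐ[K] K)}, IsKr g P → GnrM P p →
    ∀ (z : Pole P) (d : Defo g (xfam z p)), ∃ (D : Derivation ℂ K K)
      (f : Arrow (Std.epsDer D) d.y (xfam z p)), d.r.f ≫ f.f = 𝟙 _

/-- GNB: genericity and extension of the field. -/
def Stmt_GNB : Prop :=
  ∀ {I K L : Type} [Fintype I] [Nonempty I] [Field K] [Algebra ℂ K] [Field L] [Algebra ℂ L]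
    (φ : K →ₐ[ℂ] L) {g : ℕ} {P : Subalgebra K (KK I K)}, IsKr g P → TypeS P → Gnr P →
    Gnr (bc (φ : K →+* L) P)

/-- GNP: generic points. -/
def Stmt_GNP : Prop :=
  ∀ {I K : Type} [Fintype I] [Nonempty I] [Field K] [IsAlgClosed K] [Algebra ℂ K] {g : ℕ}
    {P : Subalgebra K (KK I K)}, IsKr g P → TypeS P → Gnr P → ∀ n : ℕ,
    ∃ (L : Type) (_ : Field L) (_ : IsAlgClosed L) (_ : Algebra ℂ L) (φ : K →ₐ[ℂ] L)
      (p : Fin n → (bc (φ : K →+* L) P →ₐ[L] L)), TypeS (bc (φ : K →+* L) P) ∧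
      Marks (bc (φ : K →+* L) P) p ∧ GnrM (bc (φ : K →+* L) P) p

/-- GNM: marked points exist. -/
def Stmt_GNM : Prop :=
  ∀ {I K : Type} [Fintype I] [Nonempty I] [Field K] [IsAlgClosed K] {g : ℕ}
    {P : Subalgebra K (KK I K)}, IsKr g P → TypeS P → ∀ n : ℕ,
    ∃ p : Fin n → (P →ₐ[K] K), Marks P p

end Pool.Agent.MG.KX
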