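import Pool.Agent.MG.KX.Duo
import Pool.Agent.MG.Defs

/-!
# Statements on schemes with two affine charts (duos)

See `Pool/Agent/MG/KX/PAPER.md` for the proofs.
-/

open CategoryTheory CategoryTheory.Limits AlgebraicGeometry TensorProduct

namespace Pool.Agent.MG.KX

/-- DBC: the square of a homomorphism of duos is cartesian if it is so on both charts. -/
def Stmt_DBC : Prop :=
  ∀ {A B : Type} [CommRing A] [CommRing B] {φ : A →+* B} {D : Duo A} {E : Duo B}
    (h : Duo.Hom φ D E),
    IsPullback (spMap h.f1) (spMap (algebraMap B E.R1)) (spMap (algebraMap A D.R1)) (spMap φ) →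
    IsPullback (spMap h.f2) (spMap (algebraMap B E.R2)) (spMap (algebraMap A D.R2)) (spMap φ) →
    IsPullback h.map E.pr D.pr (spMap φ)

/-- DPR: a duo is proper if the charts are integral over `A[z]`, `A[w]`, and of finite type. -/
def Stmt_DPR : Prop :=
  ∀ {A : Type} [CommRing A] (D : Duo A), Algebra.FiniteType A D.R1 → Algebra.FiniteType A D.R2 →
    (∀ r : D.R1, ((Polynomial.aeval D.z : Polynomial A →ₐ[A] D.R1) :
      Polynomial A →+* D.R1).IsIntegralElem r) →
    (∀ r : D.R2, ((Polynomial.aeval D.w : Polynomial A →ₐ[A] D.R2) :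
      Polynomial A →+* D.R2).IsIntegralElem r) →
    IsProper D.pr

/-- DFL: flatness and finite presentation of a duo. -/
def Stmt_DFL : Prop :=
  (∀ {A : Type} [CommRing A] (D : Duo A), Module.Flat A D.R1 → Module.Flat A D.R2 → Flat D.pr) ∧
  (∀ {A : Type} [CommRing A] (D : Duo A), Algebra.FinitePresentation A D.R1 →
    Algebra.FinitePresentation A D.R2 → LocallyOfFinitePresentation D.pr)

/-- DGE: the genus of a duo over a field. -/
def Stmt_DGE : Prop :=
  ∀ {K : Type} [Field K] (D : Duo K) (g : ℕ) (L : D.R12 →ₗ[K] (Fin g → K)),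
    Function.Surjective L → (∀ t, L t = 0 ↔ ∃ p q, t = D.j1 p + D.j2 q) → HasGenus D.pr g

/-- DCO: a duo with constant global functions is connected. -/
def Stmt_DCO : Prop :=
  ∀ {K : Type} [Field K] (D : Duo K), Nontrivial D.R12 →
    (∀ p q, D.j1 p = D.j2 q → ∃ c : K, p = algebraMap K D.R1 c ∧ q = algebraMap K D.R2 c) →
    ConnectedSpace D.X

/-- DNO: nodal duos: the first chart is nodal, the second chart has étale coordinates at the points
outside the intersection. -/
def Stmt_DNO : Prop :=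
  ∀ {K : Type} [Field K] [IsAlgClosed K] (D : Duo K), Nodal (spMap (algebraMap K D.R1)) →
    (∀ q : PrimeSpectrum D.R2, D.w ∈ q.asIdeal → ∃ h t : D.R2, h ∉ q.asIdeal ∧
      ((algebraMap D.R2 (Localization.Away h)).comp
        (Polynomial.eval₂RingHom (algebraMap K D.R2) t)).Etale) →
    Nodal D.pr

/-- DVF: vector fields on a duo with sections in the first chart. -/
def Stmt_DVF : Prop :=
  ∀ {K : Type} [Field K] (D : Duo K) {n : ℕ} (s : Fin n → (D.R1 →ₐ[K] K)),
    (∀ (E1 : Derivation K D.R1 D.R1) (E2 : Derivation K D.R2 D.R2)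
      (E12 : Derivation K D.R12 D.R12), (∀ r, E12 (D.j1 r) = D.j1 (E1 r)) →
      (∀ r, E12 (D.j2 r) = D.j2 (E2 r)) → (∀ i r, s i (E1 r) = 0) → E1 = 0 ∧ E2 = 0) →
    ∀ (v : VField (D.fam s)) (U), v.D U = 0

/-- DSM: smoothness at the sections. -/
def Stmt_DSM : Prop :=
  ∀ {K : Type} [Field K] (D : Duo K) {n : ℕ} (s : Fin n → (D.R1 →ₐ[K] K)) (i : Fin n),
    (∃ h t : D.R1, s i h ≠ 0 ∧ ((algebraMap D.R1 (Localization.Away h)).comp
        (Polynomial.eval₂RingHom (algebraMap K D.R1) t)).Etale) →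
    ∀ p : Sp K, ∃ U : (D.fam s).X.Opens, (D.fam s).σ i p ∈ U ∧ Smooth (U.ι ≫ (D.fam s).π)

/-- DSS: smooth duos. -/
def Stmt_DSS : Prop :=
  ∀ {K : Type} [Field K] [IsAlgClosed K] (D : Duo K), Algebra.FinitePresentation K D.R1 →
    Algebra.FormallySmooth K D.R1 →
    (∀ q : PrimeSpectrum D.R2, D.w ∈ q.asIdeal → ∃ h t : D.R2, h ∉ q.asIdeal ∧
      ((algebraMap D.R2 (Localization.Away h)).comp
        (Polynomial.eval₂RingHom (algebraMap K D.R2) t)).Etale) →
    Smooth D.pr

/-- DST: stability of duos, from the geometric fibres (which are given by duos). -/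
def Stmt_DST : Prop :=
  ∀ {A : Type} [CommRing A] (g : ℕ) (D : Duo A) {n : ℕ} (s : Fin n → (D.R1 →ₐ[A] A)),
    IsProper D.pr → Flat D.pr → LocallyOfFinitePresentation D.pr →
    (∀ (K : Type) [Field K] [IsAlgClosed K] (φ : A →+* K), ∃ (E : Duo K)
      (s' : Fin n → (E.R1 →ₐ[K] K)) (h : Duo.Hom φ D E),
      IsPullback h.map E.pr D.pr (spMap φ) ∧ (∀ i r, s' i (h.f1 r) = φ (s i r)) ∧
      StableCurve g (E.fam s')) →
    IsStable g (D.fam s)

end Pool.Agent.MG.KX
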