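import Pool.Agent.MG.KX.DefsK

/-!
# Statements on the curve of a Krichever ring

See `Pool/Agent/MG/KX/PAPER.md` for the proofs.
-/

open CategoryTheory CategoryTheory.Limits AlgebraicGeometry TensorProduct

namespace Pool.Agent.MG.KX

open Pool.Agent.MG.G0 Pool.Agent.MG.GLU

/-- PLE: poles exist. -/
def Stmt_PLE : Prop :=
  ∀ {I A : Type} [Fintype I] [CommRing A] {g : ℕ} {P : Subalgebra A (KK I A)}, IsKr g P →
    Nonempty (Pole P) ∧ ∀ (d : ℕ) (z : P), 1 ≤ d → Mon d (z : KK I A) → ∃ y : Pole P, y.z = z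

/-- DEN: `P[1/z]` is dense in the Laurent series, `P[1/z] ∩ O` is dense in `O`. -/
def Stmt_DEN : Prop :=
  ∀ {I A : Type} [Fintype I] [CommRing A] {g : ℕ} {P : Subalgebra A (KK I A)}, IsKr g P →
    ∀ z : Pole P, (∀ (f : KK I A) (M : ℤ), ∃ r ∈ Rz P z.z, f - r ∈ Pol I A (-M)) ∧
      (∀ f ∈ Pol I A 0, ∀ M : ℤ, ∃ r ∈ Rw P z.z, f - r ∈ Pol I A (-M)) ∧
      ∀ (f : I → PowerSeries A) (M : ℕ), ∃ r : Rw P z.z, ∀ i, ∀ m < M,
        PowerSeries.coeff m (rsh z.z i r) = PowerSeries.coeff m (f i)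

/-- KCO: functions and cohomology of the duo. -/
def Stmt_KCO : Prop :=
  ∀ {I A : Type} [Fintype I] [CommRing A] {g : ℕ} {P : Subalgebra A (KK I A)}, IsKr g P →
    ∀ z : Pole P,
      (∀ (p : (kDuo z).R1) (q : (kDuo z).R2), (kDuo z).j1 p = (kDuo z).j2 q →
        ∃ c : A, p = algebraMap A (kDuo z).R1 c ∧ q = algebraMap A (kDuo z).R2 c) ∧
      ∃ L : (kDuo z).R12 →ₗ[A] (Fin g → A), Function.Surjective L ∧
        ∀ t, L t = 0 ↔ ∃ p q, t = (kDuo z).j1 p + (kDuo z).j2 q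

/-- KFP: finiteness of the first chart. -/
def Stmt_KFP : Prop :=
  ∀ {I A : Type} [Fintype I] [Nonempty I] [CommRing A] {g : ℕ} {P : Subalgebra A (KK I A)},
    IsKr g P → ∀ z : Pole P, Algebra.FinitePresentation A (kDuo z).R1 ∧
      Module.Flat A (kDuo z).R1 ∧ ∀ r : (kDuo z).R1,
        ((Polynomial.aeval (kDuo z).z : Polynomial A →ₐ[A] (kDuo z).R1) :
          Polynomial A →+* (kDuo z).R1).IsIntegralElem r

/-- KFW: finiteness of the second chart. -/
def Stmt_KFW : Prop :=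
  ∀ {I A : Type} [Fintype I] [Nonempty I] [CommRing A] {g : ℕ} {P : Subalgebra A (KK I A)},
    IsKr g P → ∀ z : Pole P, Algebra.FinitePresentation A (kDuo z).R2 ∧
      Module.Flat A (kDuo z).R2 ∧ ∀ r : (kDuo z).R2,
        ((Polynomial.aeval (kDuo z).w : Polynomial A →ₐ[A] (kDuo z).R2) :
          Polynomial A →+* (kDuo z).R2).IsIntegralElem r

/-- KBW: the charts are compatible with base change. -/
def Stmt_KBW : Prop :=
  ∀ {I A B : Type} [Fintype I] [Nonempty I] [CommRing A] [CommRing B] {g : ℕ}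
    {P : Subalgebra A (KK I A)}, IsKr g P → ∀ (z : Pole P) (φ : A →+* B),
      IsPullback (spMap (kHom φ z).f1) (spMap (algebraMap B (kDuo (z.bc φ)).R1))
        (spMap (algebraMap A (kDuo z).R1)) (spMap φ) ∧
      IsPullback (spMap (kHom φ z).f2) (spMap (algebraMap B (kDuo (z.bc φ)).R2))
        (spMap (algebraMap A (kDuo z).R2)) (spMap φ)

/-- KBP: base change of points and marks. -/
def Stmt_KBP : Prop :=
  (∀ {I A B : Type} [Fintype I] [Nonempty I] [CommRing A] [CommRing B] {g : ℕ}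
    {P : Subalgebra A (KK I A)}, IsKr g P → ∀ (φ : A →+* B) {n : ℕ} (p : Fin n → (P →ₐ[A] A)),
      ∃ p' : Fin n → (bc φ P →ₐ[B] B), BcP φ p p') ∧
  ∀ {I A B : Type} [Fintype I] [Nonempty I] [CommRing A] [CommRing B] {g : ℕ}
    {P : Subalgebra A (KK I A)}, IsKr g P → ∀ (φ : A →+* B) {n : ℕ} (p : Fin n → (P →ₐ[A] A))
      (p' : Fin n → (bc φ P →ₐ[B] B)), BcP φ p p' → Marks P p → Marks (bc φ P) p'

/-- KAR: base change of the curve. -/
def Stmt_KAR : Prop :=
  ∀ {I A B : Type} [Fintype I] [Nonempty I] [CommRing A] [CommRing B] {g : ℕ}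
    {P : Subalgebra A (KK I A)}, IsKr g P → ∀ (z : Pole P) (φ : A →+* B) {n : ℕ}
      (p : Fin n → (P →ₐ[A] A)) (p' : Fin n → (bc φ P →ₐ[B] B)), BcP φ p p' →
      ∃ a : Arrow φ (xfam (z.bc φ) p') (xfam z p), a.f = (kHom φ z).map

/-- KPT: étale coordinates at the points of the second chart with `w = 0`. -/
def Stmt_KPT : Prop :=
  ∀ {I K : Type} [Fintype I] [Nonempty I] [Field K] {g : ℕ} {P : Subalgebra K (KK I K)},
    IsKr g P → ∀ (z : Pole P) (q : PrimeSpectrum (kDuo z).R2), (kDuo z).w ∈ q.asIdeal →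
      ∃ h t : (kDuo z).R2, h ∉ q.asIdeal ∧
        ((algebraMap (kDuo z).R2 (Localization.Away h)).comp
          (Polynomial.eval₂RingHom (algebraMap K (kDuo z).R2) t)).Etale

/-- KMK: étale coordinates at the marked points. -/
def Stmt_KMK : Prop :=
  ∀ {I K : Type} [Fintype I] [Nonempty I] [Field K] [IsAlgClosed K] {g : ℕ}
    {P : Subalgebra K (KK I K)}, IsKr g P → IsDomain P → ∀ {n : ℕ} (p : Fin n → (P →ₐ[K] K)),
      Marks P p → ∀ i, ∃ h t : P, p i h ≠ 0 ∧ ((algebraMap P (Localization.Away h)).comp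
        (Polynomial.eval₂RingHom (algebraMap K P) t)).Etale

/-- KRV: vector fields. -/
def Stmt_KRV : Prop :=
  ∀ {I K : Type} [Fintype I] [Nonempty I] [Field K] {g : ℕ} {P : Subalgebra K (KK I K)},
    IsKr g P → RigP P → ∀ (z : Pole P)
    (E1 : Derivation K (kDuo z).R1 (kDuo z).R1) (E2 : Derivation K (kDuo z).R2 (kDuo z).R2)
    (E12 : Derivation K (kDuo z).R12 (kDuo z).R12),
      (∀ r, E12 ((kDuo z).j1 r) = (kDuo z).j1 (E1 r)) →
      (∀ r, E12 ((kDuo z).j2 r) = (kDuo z).j2 (E2 r)) → E1 = 0 ∧ E2 = 0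

/-- KSB: base change. -/
def Stmt_KSB : Prop :=
  ∀ {I A B : Type} [Fintype I] [Nonempty I] [CommRing A] [CommRing B] {g n : ℕ}
    {P : Subalgebra A (KK I A)} {p : Fin n → (P →ₐ[A] A)}, KS g P p → ∀ (φ : A →+* B)
      (p' : Fin n → (bc φ P →ₐ[B] B)), BcP φ p p' → KS g (bc φ P) p'

/-- KGC: the curve over an algebraically closed field is stable. -/
def Stmt_KGC : Prop :=
  ∀ {I K : Type} [Fintype I] [Nonempty I] [Field K] [IsAlgClosed K] {g n : ℕ}
    {P : Subalgebra K (KK I K)} {p : Fin n → (P →ₐ[K] K)}, IsKr g P → IsDomain P →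
      Nodal (spMap (algebraMap K P)) → RigP P → Marks P p → ∀ z : Pole P,
      StableCurve g (xfam z p)

/-- KST: the curve is stable. -/
def Stmt_KST : Prop :=
  ∀ {I A : Type} [Fintype I] [Nonempty I] [CommRing A] {g n : ℕ} {P : Subalgebra A (KK I A)}
    {p : Fin n → (P →ₐ[A] A)}, KS g P p → ∀ z : Pole P, IsStable g (xfam z p)

/-- KPX: the curve is proper, flat, of finite presentation. -/
def Stmt_KPX : Prop :=
  ∀ {I A : Type} [Fintype I] [Nonempty I] [CommRing A] {g n : ℕ} {P : Subalgebra A (KK I A)}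
    (p : Fin n → (P →ₐ[A] A)), IsKr g P → ∀ z : Pole P, IsProper (xfam z p).π ∧
      Flat (xfam z p).π ∧ LocallyOfFinitePresentation (xfam z p).π

/-- KSX: smoothness. -/
def Stmt_KSX : Prop :=
  ∀ {I K : Type} [Fintype I] [Nonempty I] [Field K] [IsAlgClosed K] {g n : ℕ}
    {P : Subalgebra K (KK I K)} (p : Fin n → (P →ₐ[K] K)), IsKr g P →
      Algebra.FormallySmooth K P → ∀ z : Pole P, Smooth (xfam z p).π

end Pool.Agent.MG.KX
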