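import Pool.Agent.MG.KX.DefsM
import Pool.Agent.MG.DefsA

/-!
# Statements on Krichever models

See `Pool/Agent/MG/KX/PAPER.md` for the proofs.
-/

open CategoryTheory CategoryTheory.Limits AlgebraicGeometry
open scoped TensorProduct

namespace Pool.Agent.MG.KX

open Pool.Agent.MG.G0 Pool.Agent.MG.GLU

/-- `α` preserves the series without poles (the punctures may move infinitesimally). -/
def PolAut {I A : Type} [CommRing A] (α : KK I A ≃ₐ[A] KK I A) : Prop :=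
  ∀ f : KK I A, α f ∈ Pol I A 0 ↔ f ∈ Pol I A 0

/-- The marked points `q` of `W` and `p` of `P` (fewer punctures) agree. -/
def MkF {I J A : Type} [CommRing A] {W : Subalgebra A (KK (I ⊕ J) A)} {P : Subalgebra A (KK I A)}
    {n : ℕ} (q : Fin n → (W →ₐ[A] A)) (p : Fin n → (P →ₐ[A] A)) : Prop :=
  ∀ (i : Fin n) (f : P) (w : W), (∀ k, (w : KK (I ⊕ J) A) (Sum.inl k) = (f : KK I A) k) →
    (∀ k, ∀ m < 0, ((w : KK (I ⊕ J) A) (Sum.inr k)).coeff m = 0) → q i w = p i f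

/-! ## Existence and base change -/

/-- MCA: the canonical model. -/
def Stmt_MCA : Prop :=
  ∀ {I A : Type} [Fintype I] [Nonempty I] [CommRing A] {g n : ℕ} {P : Subalgebra A (KK I A)},
    IsKr g P → ∀ (z : Pole P) (p : Fin n → (P →ₐ[A] A)), ∃ M : Mod (xfam z p) P p, M.Can z

/-- MIS: a proper family with a model of `P` is the curve of `P`. -/
def Stmt_MIS : Prop :=
  ∀ {I A : Type} [Fintype I] [Nonempty I] [CommRing A] {g n : ℕ} {P : Subalgebra A (KK I A)}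
    {p : Fin n → (P →ₐ[A] A)} {x : Fam n A}, IsKr g P → IsProper x.π →
    ∀ (M : Mod x P p) (z : Pole P), ∃ a : Arrow (RingHom.id A) (xfam z p) x,
      ∀ M' : Mod (xfam z p) P p, M'.Can z → M.Over a M'

/-- MBC: base change of models. -/
def Stmt_MBC : Prop :=
  ∀ {I A B : Type} [Fintype I] [Nonempty I] [CommRing A] [CommRing B] {g n : ℕ}
    {P : Subalgebra A (KK I A)} {p : Fin n → (P →ₐ[A] A)} {x : Fam n A} {y : Fam n B}
    {φ : A →+* B} (a : Arrow φ y x), IsKr g P → ∀ (M : Mod x P p)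
    (p' : Fin n → (bc φ P →ₐ[B] B)), BcP φ p p' → ∃ M' : Mod y (bc φ P) p', M.Over a M'

/-- MTR: transport of models along isomorphisms. -/
def Stmt_MTR : Prop :=
  ∀ {I A : Type} [CommRing A] {n : ℕ} {P : Subalgebra A (KK I A)} {p : Fin n → (P →ₐ[A] A)}
    {x y : Fam n A} (a : Arrow (RingHom.id A) y x),
    (∀ M : Mod x P p, ∃ M' : Mod y P p, M.Over a M') ∧
    ∀ M' : Mod y P p, ∃ M : Mod x P p, M.Over a M'

/-- MOC: composition, cancellation, uniqueness of base changes of models. -/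
def Stmt_MOC : Prop :=
  (∀ {I A B C : Type} [CommRing A] [CommRing B] [CommRing C] {n : ℕ} {φ : A →+* B} {ψ : B →+* C}
    {χ : A →+* C} {P : Subalgebra A (KK I A)} {p : Fin n → (P →ₐ[A] A)}
    {P' : Subalgebra B (KK I B)} {p' : Fin n → (P' →ₐ[B] B)} {P'' : Subalgebra C (KK I C)}
    {p'' : Fin n → (P'' →ₐ[C] C)} {x : Fam n A} {y : Fam n B} {w : Fam n C} (a : Arrow φ y x)
    (b : Arrow ψ w y) (c : Arrow χ w x) (M : Mod x P p) (M' : Mod y P' p') (M'' : Mod w P'' p''),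
    χ = ψ.comp φ → b.f ≫ a.f = c.f → M.Over a M' →
      ((M'.Over b M'' → M.Over c M'') ∧
        (M.Over c M'' → (∀ f ∈ P', kmap ψ f ∈ P'') → M'.Over b M''))) ∧
  ∀ {I A B : Type} [CommRing A] [CommRing B] {n : ℕ} {φ : A →+* B} {P : Subalgebra A (KK I A)}
    {p : Fin n → (P →ₐ[A] A)} {P' : Subalgebra B (KK I B)} {p' : Fin n → (P' →ₐ[B] B)}
    {x : Fam n A} {y : Fam n B} (a : Arrow φ y x) (M : Mod x P p) (M' M'' : Mod y P' p'),
    M.Over a M' → M.Over a M'' → M'.j = M''.j ∧ M'.sh = M''.sh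

/-- MXT: an arrow from the curve of `P` is determined by its effect on a model. -/
def Stmt_MXT : Prop :=
  ∀ {I A B : Type} [Fintype I] [Nonempty I] [CommRing A] [CommRing B] {g n : ℕ} {φ : A →+* B}
    {Q : Subalgebra A (KK I A)} {q : Fin n → (Q →ₐ[A] A)} {P : Subalgebra B (KK I B)}
    {p : Fin n → (P →ₐ[B] B)} {x : Fam n A} (z : Pole P) (a b : Arrow φ (xfam z p) x)
    (M : Mod x Q q) (M' : Mod (xfam z p) P p), IsKr g P → IsProper x.π → M'.Can z → M.Over a M' →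
    M.Over b M' → a.f = b.f

/-! ## Change of coordinates and of the index set -/

/-- MAU: change of the coordinates. -/
def Stmt_MAU : Prop :=
  (∀ {I A : Type} [Fintype I] [CommRing A] {n : ℕ} {P : Subalgebra A (KK I A)}
    {p : Fin n → (P →ₐ[A] A)} {x : Fam n A} (α : KK I A ≃ₐ[A] KK I A), PolAut α →
    ∀ (M : Mod x P p) (p' : Fin n → (P.map (α : KK I A →ₐ[A] KK I A) →ₐ[A] A)),
      (∀ i (f : P), p' i ⟨α f, ⟨f, f.2, rfl⟩⟩ = p i f) →
      ∃ M' : Mod x (P.map (α : KK I A →ₐ[A] KK I A)) p', M.IsAut α M') ∧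
  ∀ {I A B : Type} [Fintype I] [CommRing A] [CommRing B] {n : ℕ} {P : Subalgebra A (KK I A)}
    {p : Fin n → (P →ₐ[A] A)} {P' : Subalgebra B (KK I B)} {p' : Fin n → (P' →ₐ[B] B)}
    {x : Fam n A} {y : Fam n B} {φ : A →+* B} (a : Arrow φ y x) (α : KK I A ≃ₐ[A] KK I A)
    (β : KK I B ≃ₐ[B] KK I B), PolAut α → PolAut β → (∀ f, kmap φ (α f) = β (kmap φ f)) →
    ∀ (M : Mod x P p) (M' : Mod y P' p') (q : Fin n → (P.map (α : KK I A →ₐ[A] KK I A) →ₐ[A] A))
      (q' : Fin n → (P'.map (β : KK I B →ₐ[B] KK I B) →ₐ[B] B))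
      (N : Mod x (P.map (α : KK I A →ₐ[A] KK I A)) q)
      (N' : Mod y (P'.map (β : KK I B →ₐ[B] KK I B)) q'),
      M.IsAut α N → M'.IsAut β N' → M.Over a M' → N.Over a N'

/-- MRX: change of the index set. -/
def Stmt_MRX : Prop :=
  (∀ {I I' A : Type} [Fintype I] [Fintype I'] [CommRing A] {n : ℕ} {P : Subalgebra A (KK I A)}
    {p : Fin n → (P →ₐ[A] A)} {x : Fam n A} (e : I' ≃ I) (M : Mod x P p)
    (p' : Fin n → (reix e P →ₐ[A] A)),
      (∀ i (f : P), p' i ⟨idx e (f : KK I A), idx_mem_reix e f.2⟩ = p i f) →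
      ∃ M' : Mod x (reix e P) p', M.IsReix e M') ∧
  ∀ {I I' A B : Type} [Fintype I] [Fintype I'] [CommRing A] [CommRing B] {n : ℕ}
    {P : Subalgebra A (KK I A)} {p : Fin n → (P →ₐ[A] A)} {P' : Subalgebra B (KK I B)}
    {p' : Fin n → (P' →ₐ[B] B)} {x : Fam n A} {y : Fam n B} {φ : A →+* B} (a : Arrow φ y x)
    (e : I' ≃ I) (M : Mod x P p) (M' : Mod y P' p') (q : Fin n → (reix e P →ₐ[A] A))
      (q' : Fin n → (reix e P' →ₐ[B] B)) (N : Mod x (reix e P) q) (N' : Mod y (reix e P') q'),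
      M.IsReix e N → M'.IsReix e N' → M.Over a M' → N.Over a N'

/-! ## Forgetting punctures -/

/-- MFA: the complement of the punctures `I` is affine. -/
def Stmt_MFA : Prop :=
  ∀ {I J A : Type} [Fintype I] [Nonempty I] [Fintype J] [CommRing A] {g n : ℕ}
    {W : Subalgebra A (KK (I ⊕ J) A)} {q : Fin n → (W →ₐ[A] A)} {x : Fam n A}, IsKr g W →
    IsProper x.π → ∀ M : Mod x W q,
      (∀ (f : J → LaurentSeries A) (m : ℤ), ∃ w ∈ W, ∀ j, ∀ k < m,
        (w (Sum.inr j)).coeff k = (f j).coeff k) →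
      ∃ U : x.X.Opens, IsAffineOpen U ∧ ∀ s, s ∈ U ↔
        s ∉ Set.range (spMap (ccI I A) ≫ spMap (idx Sum.inl) ≫ M.sh)

/-- MFG: the model with fewer punctures. -/
def Stmt_MFG : Prop :=
  ∀ {I J A : Type} [Fintype I] [Fintype J] [CommRing A] {n : ℕ}
    {W : Subalgebra A (KK (I ⊕ J) A)} {q : Fin n → (W →ₐ[A] A)} {P : Subalgebra A (KK I A)}
    {p : Fin n → (P →ₐ[A] A)} {x : Fam n A} (M : Mod x W q) (U : x.X.Opens), IsAffineOpen U →
      (∀ s, s ∈ U ↔ s ∉ Set.range (spMap (ccI I A) ≫ spMap (idx Sum.inl) ≫ M.sh)) →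
      Forget W P → MkF q p → ∃ M' : Mod x P p, M.Fgt M'

/-- MFO: forgetting punctures and base change. -/
def Stmt_MFO : Prop :=
  ∀ {I J A B : Type} [Fintype I] [Fintype J] [CommRing A] [CommRing B] {n : ℕ}
    {W : Subalgebra A (KK (I ⊕ J) A)} {q : Fin n → (W →ₐ[A] A)} {P : Subalgebra A (KK I A)}
    {p : Fin n → (P →ₐ[A] A)} {W' : Subalgebra B (KK (I ⊕ J) B)} {q' : Fin n → (W' →ₐ[B] B)}
    {P' : Subalgebra B (KK I B)} {p' : Fin n → (P' →ₐ[B] B)} {x : Fam n A} {y : Fam n B}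
    {φ : A →+* B} (a : Arrow φ y x) (M : Mod x W q) (N : Mod x P p) (M' : Mod y W' q')
    (N' : Mod y P' p'), M.Fgt N → M'.Fgt N' → Forget W' P' → (∀ f ∈ P, kmap φ f ∈ P') →
      M.Over a M' → N.Over a N'

/-! ## Thickenings -/

/-- MTH: models of flat thickenings. -/
def Stmt_MTH : Prop :=
  ∀ {I A E K : Type} [Fintype I] [Nonempty I] [CommRing A] [CommRing E] [Fintype K] {g n : ℕ}
    {S : SqE A E K} {x : Fam n A} {P : Subalgebra A (KK I A)} {p : Fin n → (P →ₐ[A] A)},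
    IsKr g P → ∀ (M : Mod x P p) (t : Thk S x), ∃ (P' : Subalgebra E (KK I E))
      (p' : Fin n → (P' →ₐ[E] E)) (M' : Mod t.y P' p'), IsKr g P' ∧ bc S.p P' = P ∧ M'.Over t.r M

/-- MUN: two models of the same deformation differ by a change of the coordinates. -/
def Stmt_MUN : Prop :=
  ∀ {I A : Type} [Fintype I] [Nonempty I] [CommRing A] {g : ℕ} {x : Fam 0 A}
    {P : Subalgebra A (KK I A)}, IsKr g P → ∀ (M : Mod x P (nop P)) (y : Fam 0 (Eps A))
    (r : Arrow (eps0 A) x y), Flat y.π → ∀ (δ δ' : DD P) (M1 : Mod y (Pdel P δ) (nop (Pdel P δ)))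
      (M2 : Mod y (Pdel P δ') (nop (Pdel P δ'))), M1.Over r M → M2.Over r M →
      ∃ θ ∈ Pol I A 0, δ = δ' + tder P θ

/-! ## Arrows between curves of Krichever rings -/

/-- XAR: base change. -/
def Stmt_XAR : Prop :=
  ∀ {I A B : Type} [Fintype I] [Nonempty I] [CommRing A] [CommRing B] {g n : ℕ}
    {P : Subalgebra A (KK I A)} {p : Fin n → (P →ₐ[A] A)} (φ : A →+* B)
    {p' : Fin n → (bc φ P →ₐ[B] B)}, IsKr g P → BcP φ p p' → ∀ (z : Pole P) (z' : Pole (bc φ P)),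
      ∃ a : Arrow φ (xfam z' p') (xfam z p), ∀ (M : Mod (xfam z p) P p)
        (M' : Mod (xfam z' p') (bc φ P) p'), M.Can z → M'.Can z' → M.Over a M'

/-- XAU: change of the coordinates. -/
def Stmt_XAU : Prop :=
  ∀ {I A : Type} [Fintype I] [Nonempty I] [CommRing A] {g n : ℕ} {P : Subalgebra A (KK I A)}
    {p : Fin n → (P →ₐ[A] A)} (α : KK I A ≃ₐ[A] KK I A)
    {p' : Fin n → (P.map (α : KK I A →ₐ[A] KK I A) →ₐ[A] A)}, IsKr g P → PolAut α →
    (∀ i (f : P), p' i ⟨α f, ⟨f, f.2, rfl⟩⟩ = p i f) →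
    ∀ (z : Pole P) (z' : Pole (P.map (α : KK I A →ₐ[A] KK I A))),
      ∃ a : Arrow (RingHom.id A) (xfam z' p') (xfam z p), ∀ (M : Mod (xfam z p) P p)
        (N : Mod (xfam z p) (P.map (α : KK I A →ₐ[A] KK I A)) p')
        (M' : Mod (xfam z' p') (P.map (α : KK I A →ₐ[A] KK I A)) p'),
        M.Can z → M.IsAut α N → M'.Can z' → N.Over a M'

/-- XRX: change of the index set. -/
def Stmt_XRX : Prop :=
  ∀ {I I' A : Type} [Fintype I] [Nonempty I] [Fintype I'] [Nonempty I'] [CommRing A] {g n : ℕ}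
    {P : Subalgebra A (KK I A)} {p : Fin n → (P →ₐ[A] A)} (e : I' ≃ I)
    {p' : Fin n → (reix e P →ₐ[A] A)}, IsKr g P →
    (∀ i (f : P), p' i ⟨idx e (f : KK I A), idx_mem_reix e f.2⟩ = p i f) →
    ∀ (z : Pole P) (z' : Pole (reix e P)),
      ∃ a : Arrow (RingHom.id A) (xfam z' p') (xfam z p), ∀ (M : Mod (xfam z p) P p)
        (N : Mod (xfam z p) (reix e P) p') (M' : Mod (xfam z' p') (reix e P) p'),
        M.Can z → M.IsReix e N → M'.Can z' → N.Over a M'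

/-- XFG: forgetting punctures. -/
def Stmt_XFG : Prop :=
  ∀ {I J A : Type} [Fintype I] [Nonempty I] [Fintype J] [CommRing A] {g n : ℕ}
    {W : Subalgebra A (KK (I ⊕ J) A)} {q : Fin n → (W →ₐ[A] A)} {P : Subalgebra A (KK I A)}
    {p : Fin n → (P →ₐ[A] A)}, IsKr g W → IsKr g P → Forget W P → MkF q p →
    ∀ (z : Pole W) (z' : Pole P), ∃ (a : Arrow (RingHom.id A) (xfam z' p) (xfam z q)),
      ∀ (M : Mod (xfam z q) W q) (N : Mod (xfam z q) P p) (M' : Mod (xfam z' p) P p),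
        M.Can z → M.Fgt N → M'.Can z' → N.Over a M'

end Pool.Agent.MG.KX
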